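import Pool.Agent.HC.Gr6

/-!
# HC-AO: all odd gives the excluded minor (3.5)

Index `Fin (2 * m)`; for `p : Fin m` let `b' p = b (2 p)`, `b'' p = b (2 p + 1)`, and `x_p ∈ S` the element
with `x_p + (b' p + b'' p + τ) ∈ K`. Let `y ∈ S` be the element with `y + (b' 0 + b' 1 + τ) ∈ K`.
`F := {x_p | p} ∪ {y}`. `f p := b' p`, `a, b, c, d = 0, 1, 2, 3` (`4 ≤ m`).
Modulo `hat K F`: `b'' p = b' p + τ`, `τ = b' 0 + b' 1`.
Independence of the even sums of `f`: suppose `∑ T b' ∈ hat K F`, so
`∑ T b' + ∑ (p ∈ A) (b' p + b'' p + τ) + ε (b' 0 + b' 1 + τ) ∈ K`, `A ⊆ Fin m`, `ε ∈ {0, 1}`. By `hind` (the `b`'s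
are independent modulo `K` and modulo adding `τ`): the coefficient of each `b'' p` vanishes, so `A = ∅`;
then `∑ T b' + ε (b' 0 + b' 1) + ε τ ∈ K` gives `ε = 0` (`hτ`) and `T = ∅`.
Edges: `p ≠ r`: the element with `x + (b' p + b' r + τ) ∈ K` is in the class of `b' p + b' r + τ`; and the
element `x'` with `x' + (b' p + b'' r + τ) ∈ K` satisfies modulo `hat K F`:
`x' = b' p + (b' r + τ) + τ = b' p + b' r`. Good: so `x' + (f p + f r) ∈ hat K F`.
The special element: the element `x` with `x + (b' 2 + b' 3 + τ) ∈ K`: modulo `hat K F`,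
`x = b' 2 + b' 3 + τ = b' 0 + b' 1 + b' 2 + b' 3`.
-/

namespace Pool.Agent.HC

open Finset Module

variable {V : Type} [AddCommGroup V] [Module F2 V] [DecidableEq V]

omit [DecidableEq V] in
private theorem exists_map {ι W : Type} [Fintype ι] [DecidableEq ι] [AddCommGroup W] [Module F2 W]
    {K : Submodule F2 V} (g : ι → V) (hg : ∀ T : Finset ι, ∑ i ∈ T, g i ∈ K → T = ∅)
    (w : ι → W) : ∃ χ : V →ₗ[F2] W, (∀ v ∈ K, χ v = 0) ∧ ∀ i, χ (g i) = w i := by
  let Φ : (ι → F2) →ₗ[F2] (V ⧸ K) := K.mkQ.comp (Fintype.linearCombination F2 g)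
  have hΦ : LinearMap.ker Φ = ⊥ := by
    rw [LinearMap.ker_eq_bot']
    intro c hc
    have h1 : Fintype.linearCombination F2 g c ∈ K := by
      rw [← Submodule.Quotient.mk_eq_zero]
      exact hc
    have h2 : Fintype.linearCombination F2 g c = ∑ i ∈ Finset.univ.filter (fun i => c i = 1), g i := by
      rw [Fintype.linearCombination_apply, Finset.sum_filter]
      refine Finset.sum_congr rfl fun i _ => ?_
      rcases F2_cases (c i) with h | h
      · rw [h, zero_smul, if_neg (by decide)]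
      · rw [h, one_smul, if_pos rfl]
    rw [h2] at h1
    have h3 := hg _ h1
    funext i
    rcases F2_cases (c i) with h | h
    · exact h
    · exfalso
      have : i ∈ Finset.univ.filter (fun i => c i = 1) := by
        rw [Finset.mem_filter]
        exact ⟨Finset.mem_univ i, h⟩
      rw [h3] at this
      exact Finset.notMem_empty i this
  obtain ⟨h, hh⟩ := Φ.exists_leftInverse_of_injective hΦ
  refine ⟨(Fintype.linearCombination F2 w).comp (h.comp K.mkQ), ?_, ?_⟩
  · intro v hv
    rw [LinearMap.comp_apply, LinearMap.comp_apply, Submodule.mkQ_apply,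
      (Submodule.Quotient.mk_eq_zero K).2 hv, map_zero, map_zero]
  · intro i
    have h1 : K.mkQ (g i) = Φ (Pi.single i 1) := by
      show K.mkQ (g i) = K.mkQ (Fintype.linearCombination F2 g (Pi.single i 1))
      rw [Fintype.linearCombination_apply_single, one_smul]
    have h2 : h (K.mkQ (g i)) = Pi.single i 1 := by
      rw [h1]
      exact LinearMap.congr_fun hh _
    rw [LinearMap.comp_apply, LinearMap.comp_apply, h2, Fintype.linearCombination_apply_single,
      one_smul]

theorem hasO_of_odd {m : ℕ} (hm : 4 ≤ m) {K : Submodule F2 V} {S : Finset V}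
    (b : Fin (2 * m) → V) (τ : V) (hind : ∀ T : Finset (Fin (2 * m)), ∑ i ∈ T, b i ∈ K → T = ∅)
    (hτ : ∀ T : Finset (Fin (2 * m)), ∑ i ∈ T, b i + τ ∉ K)
    (hmem : ∀ i j, i ≠ j → ∃ x ∈ S, x + (b i + b j + τ) ∈ K) : HasO m K S := by
  classical
  let e0 : Fin m → Fin (2 * m) := fun p => ⟨2 * p.1, by have := p.2; omega⟩
  let e1 : Fin m → Fin (2 * m) := fun p => ⟨2 * p.1 + 1, by have := p.2; omega⟩
  have e01 : ∀ p r, e0 p ≠ e1 r := by
    intro p r h
    have h1 := congrArg Fin.val h
    have h2 : 2 * p.1 = 2 * r.1 + 1 := h1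
    omega
  have e00 : ∀ p r, p ≠ r → e0 p ≠ e0 r := by
    intro p r hpr h
    have h1 := congrArg Fin.val h
    have h2 : 2 * p.1 = 2 * r.1 := h1
    exact hpr (Fin.ext (by omega))
  let i0 : Fin m := ⟨0, by omega⟩
  let i1 : Fin m := ⟨1, by omega⟩
  let i2 : Fin m := ⟨2, by omega⟩
  let i3 : Fin m := ⟨3, by omega⟩
  have n01 : i0 ≠ i1 := by intro h; have := congrArg Fin.val h; simp [i0, i1] at this
  have n02 : i0 ≠ i2 := by intro h; have := congrArg Fin.val h; simp [i0, i2] at this
  have n03 : i0 ≠ i3 := by intro h; have := congrArg Fin.val h; simp [i0, i3] at this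
  have n12 : i1 ≠ i2 := by intro h; have := congrArg Fin.val h; simp [i1, i2] at this
  have n13 : i1 ≠ i3 := by intro h; have := congrArg Fin.val h; simp [i1, i3] at this
  have n23 : i2 ≠ i3 := by intro h; have := congrArg Fin.val h; simp [i2, i3] at this
  have hx : ∀ p : Fin m, ∃ x ∈ S, x + (b (e0 p) + b (e1 p) + τ) ∈ K := fun p =>
    hmem _ _ (e01 p p)
  choose x hxS hxK using hx
  obtain ⟨y, hyS, hyK⟩ := hmem (e0 i0) (e0 i1) (e00 _ _ n01)
  obtain ⟨z, hzS, hzK⟩ := hmem (e0 i2) (e0 i3) (e00 _ _ n23)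
  let F : Finset V := insert y (Finset.univ.image x)
  have hyF : y ∈ F := Finset.mem_insert_self _ _
  have hxF : ∀ p, x p ∈ F := fun p =>
    Finset.mem_insert_of_mem (Finset.mem_image_of_mem x (Finset.mem_univ p))
  have hFh : ∀ v ∈ F, v ∈ hat K (F : Set V) := fun v hv => subset_hat K _ hv
  have hKh : ∀ v ∈ K, v ∈ hat K (F : Set V) := fun v hv => le_hat K _ hv
  -- the linear map
  let u : Fin m → (Fin m → F2) := fun p => Pi.single p 1
  let ε : (Fin m → F2) := u i0 + u i1
  let g : Option (Fin (2 * m)) → V := fun o => o.elim τ b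
  let w : Option (Fin (2 * m)) → (Fin m → F2) := fun o => o.elim ε fun i =>
    u ⟨i.1 / 2, by have := i.2; omega⟩ + (if i.1 % 2 = 0 then 0 else ε)
  have hg : ∀ T : Finset (Option (Fin (2 * m))), ∑ i ∈ T, g i ∈ K → T = ∅ := by
    intro T hT
    by_cases hn : none ∈ T
    · exfalso
      have h1 : ∑ i ∈ T, g i = ∑ i ∈ T.eraseNone, b i + τ := by
        rw [← Finset.add_sum_erase T g hn, add_comm]
        congr 1
        rw [← Finset.map_some_eraseNone, Finset.sum_map]
        rfl
      rw [h1] at hT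
      exact hτ _ hT
    · have h1 : ∑ i ∈ T, g i = ∑ i ∈ T.eraseNone, b i := by
        conv_lhs => rw [← Finset.erase_eq_of_notMem hn]
        rw [← Finset.map_some_eraseNone, Finset.sum_map]
        rfl
      rw [h1] at hT
      have h2 := hind _ hT
      rw [← Finset.erase_eq_of_notMem hn, ← Finset.map_some_eraseNone, h2, Finset.map_empty]
  obtain ⟨χ, hχK, hχ⟩ := exists_map (K := K) g hg w
  have hχτ : χ τ = ε := hχ none
  have hχ0 : ∀ p, χ (b (e0 p)) = u p := by
    intro p
    have h1 := hχ (some (e0 p))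
    have h2 : w (some (e0 p)) = u p := by
      show u _ + (if (2 * p.1) % 2 = 0 then 0 else ε) = u p
      rw [if_pos (by omega), add_zero]
      congr 1
      apply Fin.ext
      show (2 * p.1) / 2 = p.1
      omega
    rw [h2] at h1
    exact h1
  have hχ1 : ∀ p, χ (b (e1 p)) = u p + ε := by
    intro p
    have h1 := hχ (some (e1 p))
    have h2 : w (some (e1 p)) = u p + ε := by
      show u _ + (if (2 * p.1 + 1) % 2 = 0 then 0 else ε) = u p + ε
      rw [if_neg (by omega)]
      congr 2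
      apply Fin.ext
      show (2 * p.1 + 1) / 2 = p.1
      omega
    rw [h2] at h1
    exact h1
  have hχx : ∀ p, χ (x p) = 0 := by
    intro p
    have h1 := hχK _ (hxK p)
    rw [map_add, map_add, map_add, hχ0, hχ1, hχτ] at h1
    have h2 : u p + (u p + ε) + ε = 0 := by
      have h3 : u p + (u p + ε) + ε = (u p + u p) + (ε + ε) := by abel
      rw [h3, add_self2 (u p), add_self2 ε, add_zero]
    rwa [h2, add_zero] at h1
  have hχy : χ y = 0 := by
    have h1 := hχK _ hyK
    rw [map_add, map_add, map_add, hχ0, hχ0, hχτ] at h1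
    rwa [add_self2, add_zero] at h1
  have hχF : ∀ v ∈ hat K (F : Set V), χ v = 0 := by
    have h1 : hat K (F : Set V) ≤ LinearMap.ker χ := by
      refine hat_le (fun v hv => hχK v hv) ?_
      intro v hv
      have hv' : v ∈ F := hv
      rw [Finset.mem_insert, Finset.mem_image] at hv'
      rcases hv' with rfl | ⟨p, _, rfl⟩
      · exact hχy
      · exact hχx p
    exact fun v hv => h1 hv
  refine ⟨F, fun p => b (e0 p), i0, i1, i2, i3, ?_, ?_, ?_, n01, n02, n03, n12, n13, n23, z, hzS,
    ?_⟩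
  · intro v hv
    rw [Finset.mem_insert, Finset.mem_image] at hv
    rcases hv with rfl | ⟨p, _, rfl⟩
    · exact hyS
    · exact hxS p
  · intro T _ hT
    have h1 := hχF _ hT
    rw [map_sum] at h1
    by_contra hne
    obtain ⟨p, hp⟩ := Finset.nonempty_iff_ne_empty.2 hne
    have h2 := congrFun h1 p
    rw [Finset.sum_apply, Finset.sum_eq_single p] at h2
    · rw [hχ0] at h2
      simp [u] at h2
    · intro q _ hqp
      rw [hχ0]
      simp [u, hqp.symm]
    · intro h
      exact absurd hp h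
  · intro p r hpr
    obtain ⟨v, hvS, hvK⟩ := hmem (e0 p) (e1 r) (e01 p r)
    refine ⟨v, hvS, ?_⟩
    have h1 := add_mem (add_mem (hKh _ hvK) (hKh _ (hxK r))) (hFh _ (hxF r))
    have h2 : v + (b (e0 p) + b (e1 r) + τ) + (x r + (b (e0 r) + b (e1 r) + τ)) + x r =
        v + (b (e0 p) + b (e0 r)) + (b (e1 r) + b (e1 r)) + (τ + τ) + (x r + x r) := by abel
    rw [h2, add_self2, add_self2, add_self2, add_zero, add_zero, add_zero] at h1
    exact h1
  · have h1 := add_mem (add_mem (hKh _ hzK) (hKh _ hyK)) (hFh _ hyF)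
    have h2 : z + (b (e0 i2) + b (e0 i3) + τ) + (y + (b (e0 i0) + b (e0 i1) + τ)) + y =
        z + (b (e0 i0) + b (e0 i1) + b (e0 i2) + b (e0 i3)) + (τ + τ) + (y + y) := by abel
    rw [h2, add_self2, add_self2, add_zero, add_zero] at h1
    exact h1

end Pool.Agent.HC
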