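import Pool.Agent.HC.Defs

/-!
# The auxiliary graphs for two disjoint odd paths: definitions

Levels: a terminal `a ∈ A` has the level 0 only, the other vertices have the levels 0 and 1. An edge
of parity `p` joins the level `i` of `u` and the level `j` of `v` when `p = 1 + i + j`.
-/

namespace Pool.Agent.HC

open Finset

/-- the vertices with levels -/
def LV {U : Type} (A : Finset U) : Type := {x : U × F2 // x.1 ∈ A → x.2 = 0}

/-- the graph on the levels -/
def lvG {U : Type} (G : SG U) (A : Finset U) : SimpleGraph (LV A) where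
  Adj x y := (x.1.1 = y.1.1 ∧ x.1.2 ≠ y.1.2) ∨ G.adj (1 + x.1.2 + y.1.2) x.1.1 y.1.1
  symm := ⟨by
    rintro x y (⟨h1, h2⟩ | h)
    · exact Or.inl ⟨h1.symm, h2.symm⟩
    · refine Or.inr ?_
      have := G.symm _ _ _ h
      rwa [add_right_comm] at this⟩
  loopless := ⟨by
    rintro x (⟨_, h⟩ | h)
    · exact h rfl
    · exact G.irrefl _ _ h⟩

/-- the auxiliary graph: `A.card - 4` further vertices, adjacent to all terminals -/
def auG {U : Type} (G : SG U) (A : Finset U) : SimpleGraph (LV A ⊕ Fin (A.card - 4)) where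
  Adj x y := match x, y with
    | Sum.inl x, Sum.inl y => (lvG G A).Adj x y
    | Sum.inl x, Sum.inr _ => x.1.1 ∈ A
    | Sum.inr _, Sum.inl y => y.1.1 ∈ A
    | Sum.inr _, Sum.inr _ => False
  symm := ⟨by
    rintro (x | x) (y | y) h
    · exact SimpleGraph.Adj.symm h
    · exact h
    · exact h
    · exact h⟩
  loopless := ⟨by
    rintro (x | x) h
    · exact (SimpleGraph.irrefl _) h
    · exact h⟩

end Pool.Agent.HC
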