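import Pool.Agent.HC.Defs

/-!
# HC-BasA: spans modulo a subspace

Elementary linear algebra over the field with two elements.
-/

namespace Pool.Agent.HC

open Finset Module

variable {V : Type} [AddCommGroup V] [Module F2 V]

theorem add_self2 (x : V) : x + x = 0 := by
  have h : (1 + 1 : F2) = 0 := by decide
  calc x + x = (1 + 1 : F2) • x := by rw [add_smul, one_smul]
    _ = 0 := by rw [h, zero_smul]

/-- moving summands to the other side -/
theorem add_eq_iff2 (x y z : V) : x + y = z ↔ x = z + y := by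
  constructor
  · rintro rfl
    rw [add_assoc, add_self2, add_zero]
  · rintro rfl
    rw [add_assoc, add_self2, add_zero]

/-- membership is insensitive to moving elements of `K` -/
theorem mem_of_add_mem2 {K : Submodule F2 V} {x y : V} (h : x + y ∈ K) (hy : y ∈ K) : x ∈ K :=
  (K.add_mem_iff_left hy).1 h

theorem F2_cases (a : F2) : a = 0 ∨ a = 1 := by
  revert a
  decide

theorem le_hat (K : Submodule F2 V) (X : Set V) : K ≤ hat K X :=
  le_sup_left

theorem subset_hat (K : Submodule F2 V) (X : Set V) : X ⊆ hat K X :=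
  fun _ hx => Submodule.mem_sup_right (Submodule.subset_span hx)

theorem hat_le {K L : Submodule F2 V} {X : Set V} (h1 : K ≤ L) (h2 : X ⊆ L) : hat K X ≤ L :=
  sup_le h1 (Submodule.span_le.2 h2)

theorem hat_mono {K L : Submodule F2 V} {X Y : Set V} (h1 : K ≤ L) (h2 : X ⊆ Y) :
    hat K X ≤ hat L Y :=
  sup_le_sup h1 (Submodule.span_mono h2)

theorem hat_empty (K : Submodule F2 V) : hat K (∅ : Set V) = K := by
  unfold hat
  rw [Submodule.span_empty, sup_bot_eq]

theorem hat_union (K : Submodule F2 V) (X Y : Set V) : hat K (X ∪ Y) = hat K X ⊔ hat K Y := by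
  unfold hat
  rw [Submodule.span_union, sup_sup_distrib_left]

theorem hat_hat (K : Submodule F2 V) (X Y : Set V) : hat (hat K X) Y = hat K (X ∪ Y) := by
  unfold hat
  rw [Submodule.span_union, sup_assoc]

theorem hat_insert (K : Submodule F2 V) (x : V) (X : Set V) :
    hat K (insert x X) = hat K X ⊔ hat K {x} := by
  rw [Set.insert_eq, hat_union, sup_comm]

/-- adding vectors which are already in the span changes nothing -/
theorem hat_union_of_subset (K : Submodule F2 V) (X Y : Set V) (h : Y ⊆ hat K X) :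
    hat K (X ∪ Y) = hat K X :=
  le_antisymm (hat_le (le_hat K X) (Set.union_subset (subset_hat K X) h))
    (hat_mono le_rfl Set.subset_union_left)

theorem mem_hat_singleton (K : Submodule F2 V) (x v : V) :
    v ∈ hat K {x} ↔ v ∈ K ∨ v + x ∈ K := by
  constructor
  · intro h
    obtain ⟨y, hy, z, hz, rfl⟩ := Submodule.mem_sup.1 h
    obtain ⟨a, rfl⟩ := Submodule.mem_span_singleton.1 hz
    rcases F2_cases a with rfl | rfl
    · left
      rw [zero_smul, add_zero]
      exact hy
    · right
      rw [one_smul, add_assoc, add_self2, add_zero]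
      exact hy
  · rintro (h | h)
    · exact le_hat K _ h
    · exact mem_of_add_mem2 (le_hat K _ h) (subset_hat K _ (Set.mem_singleton x))

/-- the span modulo `K` consists of the sums of subsets modulo `K` -/
theorem mem_hat_iff (K : Submodule F2 V) (X : Finset V) (v : V) :
    v ∈ hat K (X : Set V) ↔ ∃ T ⊆ X, v + ∑ x ∈ T, x ∈ K := by
  classical
  constructor
  · intro h
    obtain ⟨y, hy, z, hz, rfl⟩ := Submodule.mem_sup.1 h
    obtain ⟨f, _, rfl⟩ := Submodule.mem_span_finset.1 hz
    refine ⟨X.filter (fun x => f x = 1), Finset.filter_subset _ _, ?_⟩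
    have h1 : ∑ a ∈ X, f a • a = ∑ x ∈ X.filter (fun x => f x = 1), x := by
      rw [Finset.sum_filter]
      refine Finset.sum_congr rfl fun a _ => ?_
      rcases F2_cases (f a) with h2 | h2
      · rw [h2, zero_smul, if_neg (by decide)]
      · rw [h2, one_smul, if_pos rfl]
    rw [h1, add_assoc, add_self2, add_zero]
    exact hy
  · rintro ⟨T, hT, h⟩
    refine mem_of_add_mem2 (le_hat K _ h) (Submodule.sum_mem _ fun x hx => ?_)
    exact subset_hat K _ (Finset.mem_coe.2 (hT hx))

/-- a minimal subset with given sum modulo `K`: no proper part of it spans `w` -/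
theorem exists_min_sum [DecidableEq V] (K : Submodule F2 V) (X : Finset V) (w : V)
    (hw : w ∈ hat K (X : Set V)) :
    ∃ D ⊆ X, w + ∑ x ∈ D, x ∈ K ∧ ∀ E ⊂ D, w ∉ hat K (E : Set V) := by
  classical
  obtain ⟨T, hTX, hT⟩ := (mem_hat_iff K X w).1 hw
  obtain ⟨D, hD, hmin⟩ := Finset.exists_min_image
    (X.powerset.filter (fun T => w + ∑ x ∈ T, x ∈ K)) Finset.card
    ⟨T, Finset.mem_filter.2 ⟨Finset.mem_powerset.2 hTX, hT⟩⟩
  rw [Finset.mem_filter, Finset.mem_powerset] at hD
  refine ⟨D, hD.1, hD.2, fun E hE hwE => ?_⟩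
  obtain ⟨T', hT'E, hT'⟩ := (mem_hat_iff K E w).1 hwE
  have h1 := hmin T' (Finset.mem_filter.2
    ⟨Finset.mem_powerset.2 ((hT'E.trans hE.1).trans hD.1), hT'⟩)
  have h2 := Finset.card_le_card hT'E
  have h3 := Finset.card_lt_card hE
  omega

/-- the modular law in the form used everywhere -/
theorem sup_inf_of_le {A B C : Submodule F2 V} (h : A ≤ C) : (A ⊔ B) ⊓ C = A ⊔ B ⊓ C :=
  sup_inf_assoc_of_le B h

theorem finrank_sup_add_inf [FiniteDimensional F2 V] (A B : Submodule F2 V) :
    finrank F2 ↥(A ⊔ B) + finrank F2 ↥(A ⊓ B) = finrank F2 A + finrank F2 B :=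
  Submodule.finrank_sup_add_finrank_inf_eq A B

/-- adding one vector raises the dimension by one or nothing -/
theorem finrank_hat_singleton [FiniteDimensional F2 V] (K : Submodule F2 V) (x : V) (hx : x ∉ K) :
    finrank F2 (hat K {x}) = finrank F2 K + 1 := by
  have hx0 : x ≠ 0 := by
    rintro rfl
    exact hx K.zero_mem
  have h1 : K ⊓ Submodule.span F2 {x} = ⊥ := by
    rw [eq_bot_iff]
    rintro v ⟨hv, hv'⟩
    obtain ⟨a, rfl⟩ := Submodule.mem_span_singleton.1 hv'
    rcases F2_cases a with rfl | rfl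
    · rw [zero_smul]
      exact Submodule.zero_mem _
    · rw [one_smul] at hv
      exact absurd hv hx
  have h2 := Submodule.finrank_sup_add_finrank_inf_eq K (Submodule.span F2 {x})
  rw [h1, finrank_bot, add_zero, finrank_span_singleton hx0] at h2
  exact h2

theorem finrank_hat_le [FiniteDimensional F2 V] (K : Submodule F2 V) (X : Finset V) :
    finrank F2 (hat K (X : Set V)) ≤ finrank F2 K + X.card := by
  refine (Submodule.finrank_add_le_finrank_add_finrank K _).trans ?_
  have := finrank_span_finset_le_card (R := F2) X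
  unfold Set.finrank at this
  omega

/-- if `A` and `C` meet in `K`, the dimension of the intersection with `A` does not change when
everything is taken modulo `C`: for `K ≤ B ≤ A` one has `dim (C + B) - dim C = dim B - dim K` -/
theorem finrank_sup_of_inf_eq [FiniteDimensional F2 V] {K A B C : Submodule F2 V}
    (h : A ⊓ C = K) (hKB : K ≤ B) (hBA : B ≤ A) (hKC : K ≤ C) :
    finrank F2 ↥(C ⊔ B) + finrank F2 K = finrank F2 C + finrank F2 B := by
  have h1 : C ⊓ B = K := by
    apply le_antisymm
    · rw [← h, inf_comm C B]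
      exact inf_le_inf_right C hBA
    · exact le_inf hKC hKB
  have h2 := Submodule.finrank_sup_add_finrank_inf_eq C B
  rw [h1] at h2
  exact h2

/-- linear maps can be changed off a complement: if `hat` spaces `A`, `C` meet in `K` and `φ`
vanishes on `K`, then there is a linear map which agrees with `φ` on `A` and vanishes on `C` -/
theorem exists_extend {U : Type} {K A C : Submodule F2 V} (h : A ⊓ C = K)
    (φ : V →ₗ[F2] (U → F2)) (hφ : ∀ v ∈ K, φ v = 0) :
    ∃ ψ : V →ₗ[F2] (U → F2), (∀ v ∈ A, ψ v = φ v) ∧ ∀ v ∈ C, ψ v = 0 := by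
  let f : A →ₗ[F2] (V ⧸ C) := C.mkQ.comp A.subtype
  have hle : LinearMap.ker f ≤ LinearMap.ker (φ.comp A.subtype) := by
    intro v hv
    rw [LinearMap.mem_ker] at hv ⊢
    have h1 : (v : V) ∈ C := (Submodule.Quotient.mk_eq_zero C).1 hv
    exact hφ _ (h ▸ ⟨v.2, h1⟩)
  have hinj : LinearMap.ker ((LinearMap.ker f).liftQ f le_rfl) = ⊥ :=
    Submodule.ker_liftQ_eq_bot _ _ _ le_rfl
  obtain ⟨l, hl⟩ := LinearMap.exists_leftInverse_of_injective _ hinj
  refine ⟨(((LinearMap.ker f).liftQ (φ.comp A.subtype) hle).comp l).comp C.mkQ,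
    fun v hv => ?_, fun v hv => ?_⟩
  · have h1 : C.mkQ v = (LinearMap.ker f).liftQ f le_rfl (Submodule.Quotient.mk ⟨v, hv⟩) := rfl
    have h2 : l ((LinearMap.ker f).liftQ f le_rfl (Submodule.Quotient.mk ⟨v, hv⟩)) =
        Submodule.Quotient.mk ⟨v, hv⟩ := LinearMap.congr_fun hl _
    rw [LinearMap.comp_apply, LinearMap.comp_apply, h1, h2]
    rfl
  · have h1 : C.mkQ v = 0 := (Submodule.Quotient.mk_eq_zero C).2 hv
    rw [LinearMap.comp_apply, h1, map_zero]

/-- a functional which is 1 at `e` and vanishes on a subspace not containing `e` -/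
theorem exists_functional {K : Submodule F2 V} {e : V} (he : e ∉ K) :
    ∃ σ : V →ₗ[F2] F2, (∀ v ∈ K, σ v = 0) ∧ σ e = 1 := by
  obtain ⟨f, hf, hK⟩ := Submodule.exists_le_ker_of_notMem he
  refine ⟨f, fun v hv => LinearMap.mem_ker.1 (hK hv), ?_⟩
  rcases F2_cases (f e) with h | h
  · exact absurd h hf
  · exact h

end Pool.Agent.HC
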