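import Pool.Agent.HC.BasA

/-!
# HC-BasB: connectivity

`lam K S X = dim (guts K S X) - dim K`, `guts K S X = hat K X ⊓ hat K (S \ X)`.
-/

namespace Pool.Agent.HC

open Finset Module

set_option linter.unusedSectionVars false
set_option linter.unusedVariables false

variable {V : Type} [AddCommGroup V] [Module F2 V] [DecidableEq V] [FiniteDimensional F2 V]
  {K : Submodule F2 V} {S X Y : Finset V}

private theorem hat_insert_of_mem' (K : Submodule F2 V) (T : Set V) (x : V) (h : x ∈ hat K T) :
    hat K (insert x T) = hat K T := by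
  refine le_antisymm (hat_le (le_hat K T) ?_) (hat_mono le_rfl (Set.subset_insert x T))
  intro y hy
  rcases Set.mem_insert_iff.1 hy with rfl | hy
  · exact h
  · exact subset_hat K T hy

private theorem sdiff_eq_insert' {e : V} (he : e ∈ S) (hX : X ⊆ S.erase e) :
    S \ X = insert e (S.erase e \ X) := by
  ext y
  simp only [mem_sdiff, mem_insert, mem_erase]
  constructor
  · rintro ⟨h1, h2⟩
    by_cases h : y = e
    · exact Or.inl h
    · exact Or.inr ⟨⟨h, h1⟩, h2⟩
  · rintro (h | ⟨⟨h1, h2⟩, h3⟩)
    · subst h
      exact ⟨he, fun h => (mem_erase.1 (hX h)).1 rfl⟩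
    · exact ⟨h2, h3⟩

private theorem sdiff_insert_eq' (e : V) : S \ insert e X = S.erase e \ X := by
  ext y
  simp only [mem_sdiff, mem_insert, mem_erase]
  tauto

private theorem union_sdiff' (hX : X ⊆ S) :
    (X : Set V) ∪ ((S \ X : Finset V) : Set V) = (S : Set V) := by
  rw [← coe_union, union_sdiff_of_subset hX]

theorem le_guts (K : Submodule F2 V) (S X : Finset V) : K ≤ guts K S X := by
  exact le_inf (le_hat _ _) (le_hat _ _)

theorem guts_compl (hX : X ⊆ S) : guts K S (S \ X) = guts K S X := by
  unfold guts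
  rw [Finset.sdiff_sdiff_eq_self hX, inf_comm]

theorem lam_compl (hX : X ⊆ S) : lam K S (S \ X) = lam K S X := by
  unfold lam
  rw [guts_compl hX]

theorem lam_add (K : Submodule F2 V) (S X : Finset V) :
    lam K S X + finrank F2 K = finrank F2 (guts K S X) := by
  unfold lam
  exact Nat.sub_add_cancel (Submodule.finrank_mono (le_guts K S X))

theorem rk_add (K : Submodule F2 V) (T : Set V) : rk K T + finrank F2 K = finrank F2 (hat K T) := by
  unfold rk
  exact Nat.sub_add_cancel (Submodule.finrank_mono (le_hat K T))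

theorem lam_rk (hX : X ⊆ S) :
    lam K S X + rk K (S : Set V) = rk K (X : Set V) + rk K ((S \ X : Finset V) : Set V) := by
  have h1 := finrank_sup_add_inf (hat K (X : Set V)) (hat K ((S \ X : Finset V) : Set V))
  rw [← hat_union, union_sdiff' hX] at h1
  have h2 := lam_add K S X
  unfold guts at h2
  have h3 := rk_add K (S : Set V)
  have h4 := rk_add K (X : Set V)
  have h5 := rk_add K ((S \ X : Finset V) : Set V)
  omega

private theorem rk_submod' (K : Submodule F2 V) (X Y : Finset V) :
    rk K ((X ∪ Y : Finset V) : Set V) + rk K ((X ∩ Y : Finset V) : Set V) ≤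
      rk K (X : Set V) + rk K (Y : Set V) := by
  have h1 := finrank_sup_add_inf (hat K (X : Set V)) (hat K (Y : Set V))
  rw [← hat_union, ← coe_union] at h1
  have h2 := rk_add K ((X ∪ Y : Finset V) : Set V)
  have h3 := rk_add K ((X ∩ Y : Finset V) : Set V)
  have h4 := rk_add K (X : Set V)
  have h5 := rk_add K (Y : Set V)
  have h6 : finrank F2 (hat K ((X ∩ Y : Finset V) : Set V)) ≤
      finrank F2 ↥(hat K (X : Set V) ⊓ hat K (Y : Set V)) := by
    refine Submodule.finrank_mono (le_inf (hat_mono le_rfl ?_) (hat_mono le_rfl ?_))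
    · exact coe_subset.2 inter_subset_left
    · exact coe_subset.2 inter_subset_right
  omega

theorem lam_submod (hX : X ⊆ S) (hY : Y ⊆ S) :
    lam K S (X ∪ Y) + lam K S (X ∩ Y) ≤ lam K S X + lam K S Y := by
  have h1 := lam_rk (K := K) hX
  have h2 := lam_rk (K := K) hY
  have h3 := lam_rk (K := K) (union_subset hX hY)
  have h4 := lam_rk (K := K) ((inter_subset_left (s₂ := Y)).trans hX)
  have h5 := rk_submod' K X Y
  have h6 := rk_submod' K (S \ X) (S \ Y)
  have h7 : (S \ X) ∪ (S \ Y) = S \ (X ∩ Y) := by
    ext y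
    simp only [mem_union, mem_sdiff, mem_inter]
    tauto
  have h8 : (S \ X) ∩ (S \ Y) = S \ (X ∪ Y) := by
    ext y
    simp only [mem_union, mem_sdiff, mem_inter]
    tauto
  rw [h7, h8] at h6
  omega

/-- the guts of a subset are computed inside `X` and the guts of `X` -/
theorem guts_sub (hYX : Y ⊆ X) (hX : X ⊆ S) :
    guts K S Y = hat K (Y : Set V) ⊓ (hat K ((X \ Y : Finset V) : Set V) ⊔ guts K S X) := by
  have h1 : S \ Y = (X \ Y) ∪ (S \ X) := by
    ext y
    simp only [mem_union, mem_sdiff]
    constructor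
    · rintro ⟨h1, h2⟩
      by_cases h : y ∈ X
      · exact Or.inl ⟨h, h2⟩
      · exact Or.inr ⟨h1, h⟩
    · rintro (⟨h1, h2⟩ | ⟨h1, h2⟩)
      · exact ⟨hX h1, h2⟩
      · exact ⟨h1, fun h => h2 (hYX h)⟩
  have h2 : hat K (Y : Set V) ≤ hat K (X : Set V) := hat_mono le_rfl (coe_subset.2 hYX)
  have h3 : hat K ((X \ Y : Finset V) : Set V) ≤ hat K (X : Set V) :=
    hat_mono le_rfl (coe_subset.2 sdiff_subset)
  have h4 := sup_inf_of_le (B := hat K ((S \ X : Finset V) : Set V)) h3
  unfold guts
  rw [h1, coe_union, hat_union, inf_comm (hat K (X : Set V)), ← h4, inf_comm _ (hat K (X : Set V)),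
    ← inf_assoc, inf_eq_left.2 h2]

/-- adding an element of the span -/
theorem lam_insert_le {x : V} (hX : X ⊆ S) (hx : x ∈ S) (hxX : x ∈ hat K (X : Set V)) :
    lam K S (insert x X) ≤ lam K S X := by
  unfold lam guts
  refine Nat.sub_le_sub_right (Submodule.finrank_mono (inf_le_inf ?_ ?_)) _
  · rw [coe_insert, hat_insert_of_mem' _ _ _ hxX]
  · exact hat_mono le_rfl (coe_subset.2 (sdiff_subset_sdiff le_rfl (subset_insert x X)))

/-- removing an element of the span of the complement -/
theorem lam_erase_le {x : V} (hX : X ⊆ S) (hx : x ∈ X)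
    (hxX : x ∈ hat K ((S \ X : Finset V) : Set V)) : lam K S (X.erase x) ≤ lam K S X := by
  unfold lam guts
  refine Nat.sub_le_sub_right (Submodule.finrank_mono (inf_le_inf ?_ ?_)) _
  · exact hat_mono le_rfl (coe_subset.2 (erase_subset x X))
  · have h1 : S \ X.erase x = insert x (S \ X) := by
      ext y
      simp only [mem_sdiff, mem_insert, mem_erase]
      constructor
      · rintro ⟨h1, h2⟩
        by_cases h : y = x
        · exact Or.inl h
        · exact Or.inr ⟨h1, fun h3 => h2 ⟨h, h3⟩⟩
      · rintro (h | ⟨h1, h2⟩)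
        · subst h
          exact ⟨hX hx, fun h => h.1 rfl⟩
        · exact ⟨h1, fun h => h2 h.2⟩
    rw [h1, coe_insert, hat_insert_of_mem' _ _ _ hxX]

private theorem guts_contract' {e : V} (he : e ∈ S) (hX : X ⊆ S.erase e) :
    guts (hat K {e}) (S.erase e) X =
      (hat K {e} ⊔ hat K (X : Set V)) ⊓ hat K ((S \ X : Finset V) : Set V) := by
  unfold guts
  rw [hat_hat, hat_hat, hat_union, sdiff_eq_insert' he hX, coe_insert, Set.singleton_union]

/-- connectivity after contraction of `e`, first case -/
theorem lam_contract_of_mem {e : V} (he : e ∈ S) (heK : e ∉ K) (hX : X ⊆ S.erase e)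
    (h : e ∈ hat K (X : Set V)) : lam (hat K {e}) (S.erase e) X + 1 = lam K S X := by
  have h1 := lam_add (hat K {e}) (S.erase e) X
  have h2 := lam_add K S X
  have h3 := finrank_hat_singleton K e heK
  have h4 : hat K {e} ≤ hat K (X : Set V) :=
    hat_le (le_hat _ _) (Set.singleton_subset_iff.2 h)
  rw [guts_contract' he hX, sup_eq_right.2 h4] at h1
  unfold guts at h2
  omega

/-- connectivity after contraction of `e`, second case -/
theorem lam_contract_of_not_mem {e : V} (he : e ∈ S) (heK : e ∉ K) (hX : X ⊆ S.erase e)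
    (h : e ∉ hat K (X : Set V)) : lam (hat K {e}) (S.erase e) X = lam K S X := by
  have h1 := lam_add (hat K {e}) (S.erase e) X
  have h2 := lam_add K S X
  have h3 := finrank_hat_singleton K e heK
  have h4 : hat K {e} ≤ hat K ((S \ X : Finset V) : Set V) := by
    refine hat_le (le_hat _ _) (Set.singleton_subset_iff.2 (subset_hat K _ ?_))
    rw [sdiff_eq_insert' he hX, coe_insert]
    exact Set.mem_insert _ _
  rw [guts_contract' he hX, sup_inf_of_le h4] at h1
  have h5 : e ∉ guts K S X := fun h5 => h (Submodule.mem_inf.1 h5).1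
  have h6 := finrank_hat_singleton (guts K S X) e h5
  have h7 : hat (guts K S X) {e} = hat K {e} ⊔ guts K S X := by
    unfold hat
    rw [sup_comm (guts K S X), sup_comm K, sup_assoc, sup_eq_right.2 (le_guts K S X)]
  rw [h7] at h6
  have h8 : (hat K {e} ⊔ hat K (X : Set V) ⊓ hat K ((S \ X : Finset V) : Set V)) =
    hat K {e} ⊔ guts K S X := rfl
  rw [h8] at h1
  omega

/-- connectivity of `X ∪ {e}` against connectivity after contraction of `e`, first case -/
theorem lam_insert_contract_of_mem {e : V} (he : e ∈ S) (heK : e ∉ K) (hX : X ⊆ S.erase e)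
    (h : e ∈ hat K ((S.erase e \ X : Finset V) : Set V)) :
    lam K S (insert e X) = lam (hat K {e}) (S.erase e) X + 1 := by
  have h1 := lam_contract_of_mem (X := S.erase e \ X) he heK sdiff_subset h
  rw [lam_compl hX] at h1
  rw [h1, ← sdiff_insert_eq', lam_compl]
  exact insert_subset he (hX.trans (erase_subset e S))

/-- connectivity of `X ∪ {e}` against connectivity after contraction of `e`, second case -/
theorem lam_insert_contract_of_not_mem {e : V} (he : e ∈ S) (heK : e ∉ K) (hX : X ⊆ S.erase e)
    (h : e ∉ hat K ((S.erase e \ X : Finset V) : Set V)) :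
    lam K S (insert e X) = lam (hat K {e}) (S.erase e) X := by
  have h1 := lam_contract_of_not_mem (X := S.erase e \ X) he heK sdiff_subset h
  rw [lam_compl hX] at h1
  rw [h1, ← sdiff_insert_eq', lam_compl]
  exact insert_subset he (hX.trans (erase_subset e S))

/-- deleting an element changes the connectivity by at most one -/
theorem lam_insert_le_erase {x : V} (hx : x ∈ S) (hX : X ⊆ S.erase x) :
    lam K S (insert x X) ≤ lam K (S.erase x) X + 1 := by
  have h1 := lam_add K S (insert x X)
  have h2 := lam_add K (S.erase x) X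
  unfold guts at h1 h2
  rw [sdiff_insert_eq'] at h1
  set C := hat K ((S.erase x \ X : Finset V) : Set V)
  have h3 := finrank_sup_add_inf (hat K ((insert x X : Finset V) : Set V)) C
  have h4 := finrank_sup_add_inf (hat K (X : Set V)) C
  have h5 : hat K (X : Set V) ≤ hat K ((insert x X : Finset V) : Set V) :=
    hat_mono le_rfl (coe_subset.2 (subset_insert x X))
  have h6 : finrank F2 ↥(hat K (X : Set V) ⊔ C) ≤
      finrank F2 ↥(hat K ((insert x X : Finset V) : Set V) ⊔ C) :=
    Submodule.finrank_mono (sup_le_sup_right h5 C)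
  have h7 : finrank F2 (hat K ((insert x X : Finset V) : Set V)) ≤
      finrank F2 (hat K (X : Set V)) + 1 := by
    have e1 : hat K ((insert x X : Finset V) : Set V) = hat (hat K (X : Set V)) {x} := by
      rw [hat_hat, coe_insert, Set.union_singleton]
    rw [e1]
    have h8 := finrank_hat_le (hat K (X : Set V)) {x}
    rwa [coe_singleton, card_singleton] at h8
  omega

/-- connectivity is at most the number of elements -/
theorem lam_le_card (K : Submodule F2 V) (S X : Finset V) : lam K S X ≤ X.card := by
  have h1 := lam_add K S X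
  have h2 := finrank_hat_le K X
  have h3 : finrank F2 (guts K S X) ≤ finrank F2 (hat K (X : Set V)) :=
    Submodule.finrank_mono inf_le_left
  omega

end Pool.Agent.HC
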