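import Pool.Agent.HC.Tr4

/-!
# HC-Ca1: small sets have connectivity at least one, resp. two

`c1`: `lam K S X = 0`. Then `TD K S X ∅ ∅ 0` (`guts K S X = K`, by dimension, `le_guts`), so by `red`
(`((S \ X) ∪ ∅).card < S.card`) the smaller configuration is graphic, `gl` gives `GrL K S X`, and
`TD.glue_back` contradicts `ng`.
`c2`: by `c1` it is enough to exclude `lam K S X = 1`. `guts K S X` contains some `w ∉ K` and is
`hat K {w}` (dimension). `w ∈ hat K X`: `exists_min_sum` gives `D0 ⊆ X` with `w + ∑ D0 ∈ K` and no
proper subset of `D0` spans `w`. `D0` is nonempty (`w ∉ K`); `d ∈ D0`, `F = D0.erase d`, `D = {d}`.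
`TD K S X F {d} 1`: `hat K F ⊓ hat K (S \ X) ≤ guts K S X = K ∪ (w + K)` and `w ∉ hat K F`;
`d + w ∈ hat K F` because `w + ∑ D0 ∈ K`. `((S \ X) ∪ {d}).card < S.card` as `2 ≤ X.card`. Conclude as
before with `red` (`j = 1`), `gl`, `glue_back`.
-/

namespace Pool.Agent.HC

open Finset Module

variable {V : Type} [AddCommGroup V] [Module F2 V] [DecidableEq V] [FiniteDimensional F2 V]
  {K : Submodule F2 V} {S X : Finset V} {sm : Finset V → Prop}

theorem MinCex.c1 (h : MinCex K S sm) (hX : sm X) (hne : X.Nonempty) : 1 ≤ lam K S X := by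
  by_contra hcon
  have h0 : lam K S X = 0 := by omega
  have hXS := h.sS X hX
  have hg : guts K S X = K := by
    symm
    apply Submodule.eq_of_le_of_finrank_eq (le_guts K S X)
    have := lam_add K S X
    omega
  have td : TD K S X ∅ ∅ 0 := by
    refine ⟨hXS, empty_subset _, empty_subset _, disjoint_empty_left _, ?_, ?_, ?_, ?_, ?_⟩
    · rw [coe_empty, hat_empty]
      exact inf_eq_left.2 (le_hat K _)
    · rw [hg, add_zero]
    · simp
    · intro d hd
      exact absurd hd (notMem_empty _)
    · intro w hw hwK
      rw [hg] at hw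
      exact absurd hw hwK
  have hcard : ((S \ X) ∪ ∅).card < S.card := by
    rw [union_empty]
    apply card_lt_card
    exact sdiff_ssubset hXS hne
  have hr := h.red X ∅ ∅ 0 hX td (by norm_num) (fun hh => absurd hh (by norm_num)) hcard
  exact h.ng (td.glue_back (by norm_num) (h.gl X hX (by omega)) hr)

theorem MinCex.c2 (h : MinCex K S sm) (hX : sm X) (hc : 2 ≤ X.card) : 2 ≤ lam K S X := by
  by_contra hcon
  have h1 := h.c1 hX (card_pos.1 (by omega))
  have h0 : lam K S X = 1 := by omega
  have hXS := h.sS X hX
  have hrank := lam_add K S X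
  rw [h0] at hrank
  -- the class of the guts
  have hlt : K < guts K S X := by
    refine lt_of_le_of_ne (le_guts K S X) ?_
    intro he
    rw [← he] at hrank
    omega
  obtain ⟨w, hw, hwK⟩ := SetLike.exists_of_lt hlt
  have hg : hat K {w} = guts K S X := by
    apply Submodule.eq_of_le_of_finrank_eq
    · exact hat_le (le_guts K S X) (Set.singleton_subset_iff.2 hw)
    · rw [finrank_hat_singleton K w hwK]
      omega
  have hgc : ∀ v ∈ guts K S X, v ∈ K ∨ v + w ∈ K := by
    intro v hv
    rw [← hg, mem_hat_singleton] at hv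
    exact hv
  obtain ⟨D0, hD0X, hD0, hmin⟩ := exists_min_sum K X w hw.1
  obtain ⟨d, hd⟩ : D0.Nonempty := by
    rw [nonempty_iff_ne_empty]
    rintro rfl
    rw [sum_empty, add_zero] at hD0
    exact hwK hD0
  have hFX : D0.erase d ⊆ X := (erase_subset _ _).trans hD0X
  have hwF : w ∉ hat K ((D0.erase d : Finset V) : Set V) := hmin _ (erase_ssubset hd)
  have hdw : d + w ∈ hat K ((D0.erase d : Finset V) : Set V) := by
    rw [← add_sum_erase D0 (fun x => x) hd] at hD0
    have h2 := le_hat K ((D0.erase d : Finset V) : Set V) hD0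
    have h3 : ∑ x ∈ D0.erase d, x ∈ hat K ((D0.erase d : Finset V) : Set V) :=
      Submodule.sum_mem _ fun x hx => subset_hat K _ (mem_coe.2 hx)
    rw [← add_assoc, add_comm w d] at h2
    exact mem_of_add_mem2 h2 h3
  have td : TD K S X (D0.erase d) {d} 1 := by
    refine ⟨hXS, hFX, singleton_subset_iff.2 (hD0X hd), ?_, ?_, ?_, ?_, ?_, ?_⟩
    · rw [disjoint_singleton_right]
      exact notMem_erase d D0
    · apply le_antisymm
      · rintro v ⟨hv1, hv2⟩
        have hv3 : v ∈ guts K S X := ⟨hat_mono le_rfl (coe_subset.2 hFX) hv1, hv2⟩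
        rcases hgc v hv3 with h4 | h4
        · exact h4
        · exfalso
          have h5 := le_hat K ((D0.erase d : Finset V) : Set V) h4
          rw [add_comm] at h5
          exact hwF (mem_of_add_mem2 h5 hv1)
      · exact le_inf (le_hat K _) (le_hat K _)
    · omega
    · rw [card_singleton]
      norm_num
    · intro e he
      rw [mem_singleton] at he
      rw [he]
      exact ⟨w, hw, hwK, hdw⟩
    · intro w' hw' hw'K
      refine ⟨d, mem_singleton_self d, ?_⟩
      rcases hgc w' hw' with h4 | h4
      · exact absurd h4 hw'K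
      · have h5 := le_hat K ((D0.erase d : Finset V) : Set V) h4
        have h6 : d + w' + (d + w) ∈ hat K ((D0.erase d : Finset V) : Set V) := by
          have h7 : d + w' + (d + w) = (d + d) + (w' + w) := by abel
          rw [h7, add_self2, zero_add]
          exact h5
        exact mem_of_add_mem2 h6 hdw
  have hcard : ((S \ X) ∪ {d}).card < S.card := by
    have h2 := card_union_le (S \ X) {d}
    rw [card_singleton, card_sdiff_of_subset hXS] at h2
    have h3 := card_le_card hXS
    omega
  have hr := h.red X (D0.erase d) {d} 1 hX td (by norm_num) (fun hh => absurd hh (by norm_num))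
    hcard
  exact h.ng (td.glue_back (by norm_num) (h.gl X hX (by omega)) hr)

end Pool.Agent.HC
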