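import Pool.Agent.HC.BasA

/-!
# HC-Gr1: elementary facts on graph representations
-/

namespace Pool.Agent.HC

open Finset Module

variable {V : Type} [AddCommGroup V] [Module F2 V]

private theorem gr1_pr_apply {U : Type} [DecidableEq U] (u v w : U) :
    pr u v w = (if w = u then 1 else 0) + (if w = v then 1 else 0) := by
  unfold pr
  rw [Pi.add_apply, Pi.single_apply, Pi.single_apply]

private theorem gr1_pr_self {U : Type} [DecidableEq U] (u : U) : pr u u = 0 := by
  funext w
  rw [gr1_pr_apply]
  exact add_self2 (V := F2) _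

private theorem gr1_pr_eq_or {U : Type} [DecidableEq U] (a b : U) :
    pr a b = 0 ∨ ∃ u v, u ≠ v ∧ pr a b = pr u v := by
  by_cases h : a = b
  · left
    rw [h]
    exact gr1_pr_self b
  · right
    exact ⟨a, b, h, rfl⟩

/-- move the coordinate `v` to `u` -/
private def gr1Id {U : Type} [DecidableEq U] (u v : U) : (U → F2) →ₗ[F2] (U → F2) where
  toFun y := y + y v • pr u v
  map_add' y z := by
    rw [Pi.add_apply, add_smul]
    abel
  map_smul' a y := by
    rw [RingHom.id_apply, Pi.smul_apply, smul_add, smul_smul, smul_eq_mul]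

private theorem gr1Id_apply {U : Type} [DecidableEq U] (u v : U) (y : U → F2) :
    gr1Id u v y = y + y v • pr u v := rfl

private theorem gr1Id_single {U : Type} [DecidableEq U] (u v a : U) :
    gr1Id u v (Pi.single a 1) = Pi.single (if a = v then u else a) 1 := by
  rw [gr1Id_apply]
  by_cases h : a = v
  · subst h
    rw [if_pos rfl, Pi.single_eq_same, one_smul]
    have h1 : ∀ x y : U → F2, x + (y + x) = y := fun x y => by
      rw [add_comm y, ← add_assoc, add_self2, zero_add]
    exact h1 _ _
  · rw [if_neg h, Pi.single_eq_of_ne (fun h' => h h'.symm), zero_smul, add_zero]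

private theorem gr1Id_pr {U : Type} [DecidableEq U] (u v a b : U) :
    gr1Id u v (pr a b) = pr (if a = v then u else a) (if b = v then u else b) := by
  unfold pr
  rw [map_add, gr1Id_single, gr1Id_single]

private theorem gr1Id_zero {U : Type} [DecidableEq U] {u v : U} {y : U → F2}
    (h : gr1Id u v y = 0) : y = 0 ∨ y = pr u v := by
  rw [gr1Id_apply] at h
  rcases F2_cases (y v) with h1 | h1
  · left
    rwa [h1, zero_smul, add_zero] at h
  · right
    rw [h1, one_smul] at h
    have h2 := (add_eq_iff2 y (pr u v) 0).1 h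
    rwa [zero_add] at h2

theorem Graphic.mono {K : Submodule F2 V} {T T' : Set V} (h : Graphic K T) (hT : T' ⊆ T) :
    Graphic K T' := by
  obtain ⟨U, iU, dU, φ, hφ⟩ := h
  exact ⟨U, iU, dU, φ, ⟨hφ.ker, fun x hx => hφ.edge x (hT hx),
    fun v hv h0 => hφ.inj v (hat_mono le_rfl hT hv) h0⟩⟩

/-- adding elements which are zero or parallel to elements of `T` modulo `K` -/
theorem Graphic.of_par {K : Submodule F2 V} {T T' : Set V} (h : Graphic K T)
    (hT : ∀ x ∈ T', x ∈ K ∨ ∃ y ∈ T, x + y ∈ K) : Graphic K T' := by
  obtain ⟨U, iU, dU, φ, hφ⟩ := h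
  refine ⟨U, iU, dU, φ, ⟨hφ.ker, ?_, ?_⟩⟩
  · intro x hx
    rcases hT x hx with h1 | ⟨y, hy, h1⟩
    · exact Or.inl (hφ.ker x h1)
    · have h2 := hφ.ker _ h1
      rw [map_add] at h2
      have h3 := (add_eq_iff2 _ _ _).1 h2
      rw [zero_add] at h3
      rw [h3]
      exact hφ.edge y hy
  · intro v hv h0
    refine hφ.inj v ?_ h0
    refine hat_le (le_hat K T) ?_ hv
    intro x hx
    rcases hT x hx with h1 | ⟨y, hy, h1⟩
    · exact le_hat K T h1
    · exact mem_of_add_mem2 (le_hat K T h1) (subset_hat K T hy)

theorem Graphic.contract_one {K : Submodule F2 V} {T : Set V} (h : Graphic K T) {x : V}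
    (hx : x ∈ T) : Graphic (hat K {x}) T := by
  obtain ⟨U, iU, dU, φ, hφ⟩ := h
  have hxT : x ∈ hat K T := subset_hat K T hx
  rcases hφ.edge x hx with h1 | ⟨u, v, huv, h1⟩
  · have h2 : x ∈ K := hφ.inj x hxT h1
    have h3 : hat K {x} = K := by
      refine le_antisymm (hat_le le_rfl ?_) (le_hat _ _)
      intro y hy
      rw [Set.mem_singleton_iff] at hy
      rw [hy]
      exact h2
    rw [h3]
    exact ⟨U, iU, dU, φ, hφ⟩
  · refine ⟨U, iU, dU, (gr1Id u v).comp φ, ⟨?_, ?_, ?_⟩⟩
    · intro y hy
      rw [LinearMap.comp_apply]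
      rw [mem_hat_singleton] at hy
      rcases hy with h2 | h2
      · rw [hφ.ker y h2, map_zero]
      · have h3 := hφ.ker _ h2
        rw [map_add] at h3
        have h4 := (add_eq_iff2 _ _ _).1 h3
        rw [zero_add, h1] at h4
        rw [h4, gr1Id_pr, if_neg huv, if_pos rfl, gr1_pr_self]
    · intro y hy
      rw [LinearMap.comp_apply]
      rcases hφ.edge y hy with h2 | ⟨a, b, _, h2⟩
      · left
        rw [h2, map_zero]
      · rw [h2, gr1Id_pr]
        exact gr1_pr_eq_or _ _
    · intro y hy h0
      have h2 : y ∈ hat K T := by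
        rw [hat_hat] at hy
        have h3 : ({x} : Set V) ∪ T = T := by
          rw [Set.union_eq_right]
          intro z hz
          rw [Set.mem_singleton_iff] at hz
          rw [hz]
          exact hx
        rwa [h3] at hy
      rw [LinearMap.comp_apply] at h0
      rw [mem_hat_singleton]
      rcases gr1Id_zero h0 with h3 | h3
      · exact Or.inl (hφ.inj y h2 h3)
      · right
        refine hφ.inj _ (Submodule.add_mem _ h2 hxT) ?_
        rw [map_add, h3, h1]
        exact add_self2 _

theorem Graphic.contract {K : Submodule F2 V} {T : Set V} (h : Graphic K T) (F : Finset V)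
    (hF : (F : Set V) ⊆ T) : Graphic (hat K (F : Set V)) T := by
  classical
  induction F using Finset.induction_on with
  | empty => rwa [Finset.coe_empty, hat_empty]
  | insert x F _ ih =>
    rw [Finset.coe_insert] at hF ⊢
    have h1 := ih (fun y hy => hF (Set.mem_insert_of_mem _ hy))
    have h2 := h1.contract_one (hF (Set.mem_insert x _))
    rw [hat_hat, Set.union_comm, ← Set.insert_eq] at h2
    exact h2

/-- the restriction of the moved vector to the other vertices -/
private def gr1Res {U : Type} [DecidableEq U] (u v : U) :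
    (U → F2) →ₗ[F2] ({w : U // w ≠ v} → F2) :=
  (LinearMap.funLeft F2 F2 (fun w : {w : U // w ≠ v} => (w : U))).comp (gr1Id u v)

private theorem gr1Res_apply {U : Type} [DecidableEq U] (u v : U) (y : U → F2)
    (w : {w : U // w ≠ v}) : gr1Res u v y w = gr1Id u v y w := rfl

private theorem gr1Res_zero {U : Type} [DecidableEq U] {u v : U} (huv : u ≠ v) {y : U → F2}
    (h : gr1Res u v y = 0) : y = 0 ∨ y = pr u v := by
  apply gr1Id_zero
  funext w
  by_cases hw : w = v
  · subst hw
    rw [gr1Id_apply, Pi.add_apply, Pi.smul_apply, gr1_pr_apply, if_neg (Ne.symm huv), if_pos rfl,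
      zero_add, smul_eq_mul, mul_one]
    exact add_self2 _
  · exact congrFun h ⟨w, hw⟩

private theorem gr1_conn_aux {K : Submodule F2 V} {T : Set V} (n : ℕ) :
    ∀ (U : Type) (iU : Fintype U) (_ : DecidableEq U) (φ : V →ₗ[F2] (U → F2)),
      @Fintype.card U iU = n → IsRep K T φ →
      ∃ (U : Type) (_ : Fintype U) (_ : DecidableEq U) (φ : V →ₗ[F2] (U → F2)), IsRep K T φ ∧
        ∀ u v : U, ∃ x ∈ hat K T, φ x = pr u v := by
  induction n using Nat.strong_induction_on with
  | _ n ih =>
    intro U iU dU φ hn hφ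
    by_cases hc : ∀ u v : U, ∃ x ∈ hat K T, φ x = pr u v
    · exact ⟨U, iU, dU, φ, hφ, hc⟩
    · push Not at hc
      obtain ⟨u, v, huv⟩ := hc
      have hne : u ≠ v := by
        rintro rfl
        refine huv 0 (Submodule.zero_mem _) ?_
        rw [map_zero, gr1_pr_self]
      have hcard : Fintype.card {w : U // w ≠ v} < n := by
        rw [← hn]
        exact Fintype.card_subtype_lt (x := v) (fun h => h rfl)
      refine ih _ hcard {w : U // w ≠ v} inferInstance inferInstance ((gr1Res u v).comp φ) rfl ?_
      refine ⟨?_, ?_, ?_⟩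
      · intro y hy
        rw [LinearMap.comp_apply, hφ.ker y hy, map_zero]
      · intro y hy
        rw [LinearMap.comp_apply]
        rcases hφ.edge y hy with h2 | ⟨a, b, _, h2⟩
        · left
          rw [h2, map_zero]
        · have hr : ∀ a : U, (if a = v then u else a) ≠ v := by
            intro a
            split_ifs with h
            · exact hne
            · exact h
          have h3 : gr1Res u v (φ y) = pr (⟨if a = v then u else a, hr a⟩ : {w : U // w ≠ v})
              ⟨if b = v then u else b, hr b⟩ := by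
            funext w
            rw [gr1Res_apply, h2, gr1Id_pr, gr1_pr_apply, gr1_pr_apply]
            simp only [Subtype.ext_iff]
          rw [h3]
          exact gr1_pr_eq_or _ _
      · intro y hy h0
        rw [LinearMap.comp_apply] at h0
        rcases gr1Res_zero hne h0 with h3 | h3
        · exact hφ.inj y hy h3
        · exact absurd h3 (huv y hy)

/-- connected representations -/
theorem Graphic.exists_conn {K : Submodule F2 V} {T : Set V} (h : Graphic K T) :
    ∃ (U : Type) (_ : Fintype U) (_ : DecidableEq U) (φ : V →ₗ[F2] (U → F2)), IsRep K T φ ∧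
      ∀ u v : U, ∃ x ∈ hat K T, φ x = pr u v := by
  obtain ⟨U, iU, dU, φ, hφ⟩ := h
  exact gr1_conn_aux _ U iU dU φ rfl hφ

/-- every vector of the span of `T` has an even image: it is a sum of `pr u v` -/
theorem IsRep.sum_zero {U : Type} [Fintype U] [DecidableEq U] {K : Submodule F2 V} {T : Set V}
    {φ : V →ₗ[F2] (U → F2)} (h : IsRep K T φ) {x : V} (hx : x ∈ hat K T) : ∑ u, φ x u = 0 := by
  have h1 : hat K T ≤ LinearMap.ker ((∑ u : U, LinearMap.proj u : (U → F2) →ₗ[F2] F2).comp φ) := by
    refine hat_le ?_ ?_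
    · intro y hy
      rw [LinearMap.mem_ker, LinearMap.comp_apply, h.ker y hy, map_zero]
    · intro y hy
      rw [SetLike.mem_coe, LinearMap.mem_ker, LinearMap.comp_apply]
      rcases h.edge y hy with h2 | ⟨a, b, _, h2⟩
      · rw [h2, map_zero]
      · rw [h2, LinearMap.sum_apply]
        simp only [LinearMap.proj_apply, gr1_pr_apply, Finset.sum_add_distrib]
        rw [Finset.sum_ite_eq' univ a, Finset.sum_ite_eq' univ b, if_pos (mem_univ _),
          if_pos (mem_univ _)]
        exact add_self2 _
  have h2 := h1 hx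
  rw [LinearMap.mem_ker, LinearMap.comp_apply, LinearMap.sum_apply] at h2
  exact h2

/-- a connected representation is onto the even vectors -/
theorem exists_of_sum_zero {U : Type} [Fintype U] [DecidableEq U] {K : Submodule F2 V}
    {T : Set V} {φ : V →ₗ[F2] (U → F2)} (h : ∀ u v : U, ∃ x ∈ hat K T, φ x = pr u v)
    (y : U → F2) (hy : ∑ u, y u = 0) : ∃ x ∈ hat K T, φ x = y := by
  have h1 : y ∈ (hat K T).map φ := by
    rcases isEmpty_or_nonempty U with hU | ⟨⟨u0⟩⟩
    · have : y = 0 := Subsingleton.elim _ _
      rw [this]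
      exact Submodule.zero_mem _
    · have h2 : y = ∑ u, y u • pr u u0 := by
        have h3 : ∑ u, y u • pr u u0 = ∑ u, (y u • (Pi.single u 1 : U → F2) +
            y u • Pi.single u0 1) := by
          refine Finset.sum_congr rfl fun u _ => ?_
          unfold pr
          rw [smul_add]
        rw [h3, Finset.sum_add_distrib, ← Finset.sum_smul, hy, zero_smul, add_zero]
        exact pi_eq_sum_univ' y
      rw [h2]
      refine Submodule.sum_mem _ fun u _ => Submodule.smul_mem _ _ ?_
      obtain ⟨x, hx, hx2⟩ := h u u0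
      exact ⟨x, hx, hx2⟩
  obtain ⟨x, hx, hx2⟩ := h1
  exact ⟨x, hx, hx2⟩

end Pool.Agent.HC
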