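import Pool.Agent.HC.BasB
import Pool.Agent.HC.Gr1

/-!
# HC-Gr2: small configurations are graphic, the Fano configuration is not

`graphic_of_rank_two`: the classes of `hat K T` modulo `K` are among `0, p, q, p + q`; vertices
`Fin 3`, `φ p = pr 0 1`, `φ q = pr 1 2` (a linear map `V → (Fin 3 → F2)` with kernel `K` on
`hat K T` and image in the even vectors; every nonzero even vector on three vertices is an edge).
`graphic_of_missing`: `dim (hat K T) = dim K + 3`, `p` a class without element of `T`. Choose a
basis `p, q, r` of `hat K T` modulo `K`, and `φ` to the even vectors on `Fin 4` with `φ p = (1,1,1,1)`,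
`φ q = pr 0 1`, `φ r = pr 0 2`; every even vector on `Fin 4` other than `0` and `(1,1,1,1)` is an
edge. Linear maps which vanish on `K` with given values on a basis modulo `K`: pass to the
quotient `V ⧸ K`, or use `exists_functional` repeatedly (a functional which vanishes on
`hat K {q, r}` and is 1 at `p`, and so on).
`grL_of_card_le_three`: `X` has at most 3 elements, `hat K X` has dimension at most `dim K + 3`. If at
most `dim K + 2`: done. Otherwise the three elements `x, y, z` are independent modulo `K`, the
guts have dimension at most `dim K + 2` (`lam ≤ 2`, `lam_add`), so at most 3 nonzero classes; together at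
most 6 nonzero classes in a space with 7 nonzero classes: some class `p` is missing.
(Direct: the classes outside `{x, y, z}` are `x+y, x+z, y+z, x+y+z`; if all four were in the guts
then `x` would be, so the guts would be everything.)
`not_graphic_fano`: take a connected representation (`Graphic.exists_conn`) of the seven elements
(`Graphic.mono`), or argue directly: `φ y1, φ y2, φ y3` are edges, sums of any two distinct ones are
edges, so any two of the three edges share exactly one vertex, and the sum of all three is an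
edge. Three edges pairwise sharing a vertex: a triangle (sum zero, contradiction) or a star (sum
of weight 4, contradiction).
-/

namespace Pool.Agent.HC

open Finset Module

variable {V : Type} [AddCommGroup V] [Module F2 V] [FiniteDimensional F2 V]

/-- coordinates modulo `K` -/
private theorem gr2_coord {K : Submodule F2 V} {T : Set V} {n : ℕ}
    (h : finrank F2 (hat K T) ≤ finrank F2 K + n) :
    ∃ g : V →ₗ[F2] (Fin n → F2), (∀ v ∈ K, g v = 0) ∧ ∀ v ∈ hat K T, g v = 0 → v ∈ K := by
  classical
  set W : Submodule F2 (V ⧸ K) := (hat K T).map K.mkQ with hW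
  have hd : finrank F2 W ≤ n := by
    have h1 : finrank F2 W + finrank F2 K = finrank F2 (hat K T) := by
      have h2 := LinearMap.finrank_range_add_finrank_ker (K.mkQ.domRestrict (hat K T))
      have h3 : LinearMap.range (K.mkQ.domRestrict (hat K T)) = W := by
        rw [hW]
        ext y
        constructor
        · rintro ⟨x, rfl⟩
          exact ⟨x.1, x.2, rfl⟩
        · rintro ⟨x, hx, rfl⟩
          exact ⟨⟨x, hx⟩, rfl⟩
      have h4 : finrank F2 (LinearMap.ker (K.mkQ.domRestrict (hat K T))) = finrank F2 K := by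
        refine LinearEquiv.finrank_eq ?_
        refine
          { toFun := fun x => ⟨x.1.1, ?_⟩
            invFun := fun x => ⟨⟨x.1, le_hat K T x.2⟩, ?_⟩
            map_add' := fun x y => rfl
            map_smul' := fun c x => rfl
            left_inv := fun x => rfl
            right_inv := fun x => rfl }
        · have h5 := x.2
          rw [LinearMap.mem_ker] at h5
          have h6 : K.mkQ x.1.1 = 0 := h5
          rwa [Submodule.mkQ_apply, Submodule.Quotient.mk_eq_zero] at h6
        · rw [LinearMap.mem_ker]
          show K.mkQ x.1 = 0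
          rw [Submodule.mkQ_apply, Submodule.Quotient.mk_eq_zero]
          exact x.2
      rw [h3, h4] at h2
      exact h2
    omega
  let b := Module.finBasis F2 W
  let j : W →ₗ[F2] (Fin n → F2) :=
    (Function.ExtendByZero.linearMap F2 (Fin.castLE hd)).comp b.equivFun.toLinearMap
  have hj : Function.Injective j := by
    intro x y hxy
    apply b.equivFun.injective
    funext i
    have h1 := congrFun hxy (Fin.castLE hd i)
    have h2 : ∀ z : W, j z (Fin.castLE hd i) = b.equivFun z i := fun z =>
      (Fin.castLE_injective hd).extend_apply (b.equivFun z) 0 i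
    rw [h2, h2] at h1
    exact h1
  obtain ⟨J, hJ⟩ := LinearMap.exists_extend j
  refine ⟨J.comp K.mkQ, ?_, ?_⟩
  · intro v hv
    rw [LinearMap.comp_apply, Submodule.mkQ_apply, (Submodule.Quotient.mk_eq_zero K).2 hv, map_zero]
  · intro v hv h0
    have hvW : K.mkQ v ∈ W := ⟨v, hv, rfl⟩
    have h1 : j ⟨K.mkQ v, hvW⟩ = J (K.mkQ v) := by
      rw [← hJ]
      rfl
    rw [LinearMap.comp_apply] at h0
    rw [h0] at h1
    have h2 : (⟨K.mkQ v, hvW⟩ : W) = 0 := hj (by rw [h1, map_zero])
    have h3 : K.mkQ v = 0 := congrArg Subtype.val h2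
    rwa [Submodule.mkQ_apply, Submodule.Quotient.mk_eq_zero] at h3

private def gr2M : (Fin 2 → F2) →ₗ[F2] (Fin 3 → F2) where
  toFun y := y 0 • pr 0 1 + y 1 • pr 1 2
  map_add' x y := by
    simp only [Pi.add_apply, add_smul]
    abel
  map_smul' c x := by
    simp only [Pi.smul_apply, smul_eq_mul, mul_smul, RingHom.id_apply, smul_add]

private theorem gr2M_edge : ∀ y : Fin 2 → F2, gr2M y = 0 ∨ ∃ u v, u ≠ v ∧ gr2M y = pr u v := by
  decide

private theorem gr2M_inj : ∀ y : Fin 2 → F2, gr2M y = 0 → y = 0 := by
  decide

private def gr2N (y : Fin 3 → F2) : (Fin 3 → F2) →ₗ[F2] (Fin 4 → F2) where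
  toFun v := v 0 • (fun _ => 1) + (v 1 + y 1 * v 0) • pr 0 1 + (v 2 + y 2 * v 0) • pr 0 2
  map_add' v w := by
    simp only [Pi.add_apply, add_smul, mul_add]
    abel
  map_smul' c v := by
    funext i
    simp only [Pi.add_apply, Pi.smul_apply, smul_eq_mul, RingHom.id_apply]
    ring

private theorem gr2N_edge : ∀ y : Fin 3 → F2, y 0 = 1 → ∀ v : Fin 3 → F2,
    gr2N y v = 0 ∨ (∃ u w, u ≠ w ∧ gr2N y v = pr u w) ∨ v = y := by
  decide

private theorem gr2N_inj : ∀ y : Fin 3 → F2, y 0 = 1 → ∀ v : Fin 3 → F2,
    gr2N y v = 0 → v = 0 := by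
  decide

/-- dependent sets -/
private theorem gr2_dep [DecidableEq V] {K : Submodule F2 V} {X D : Finset V} (hD : D ⊆ X)
    (hne : D.Nonempty) (hs : ∑ x ∈ D, x ∈ K) :
    finrank F2 (hat K (X : Set V)) + 1 ≤ finrank F2 K + X.card := by
  obtain ⟨d, hd⟩ := hne
  have h1 : d ∈ hat K ((X.erase d : Finset V) : Set V) := by
    have h2 : d + ∑ x ∈ D.erase d, x ∈ K := by
      rw [Finset.add_sum_erase D (fun x => x) hd]
      exact hs
    refine (mem_hat_iff K (X.erase d) d).2 ⟨D.erase d, Finset.erase_subset_erase d hD, h2⟩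
  have h3 : hat K (X : Set V) ≤ hat K ((X.erase d : Finset V) : Set V) := by
    refine hat_le (le_hat K _) ?_
    intro x hx
    by_cases hxd : x = d
    · rw [hxd]; exact h1
    · exact subset_hat K _ (Finset.mem_coe.2 (Finset.mem_erase.2 ⟨hxd, hx⟩))
  have h4 := Submodule.finrank_mono h3
  have h5 := finrank_hat_le K (X.erase d)
  have h6 := Finset.card_erase_add_one (hD hd)
  omega

private theorem gr2_weight {U : Type} [Fintype U] [DecidableEq U] {u v : U} (h : u ≠ v) :
    ∑ i, (pr u v i).val = 2 := by
  have h1 : ∀ i, (pr u v i).val = (if i = u then 1 else 0) + (if i = v then 1 else 0) := by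
    intro i
    unfold pr
    rw [Pi.add_apply, Pi.single_apply, Pi.single_apply]
    by_cases hu : i = u
    · have hv : i ≠ v := fun hv => h (hu.symm.trans hv)
      simp [hu, h]
      rfl
    · by_cases hv : i = v
      · simp [hu, hv, h.symm]
        rfl
      · simp [hu, hv]
  rw [Finset.sum_congr rfl fun i _ => h1 i, Finset.sum_add_distrib, Finset.sum_ite_eq',
    Finset.sum_ite_eq', if_pos (Finset.mem_univ _), if_pos (Finset.mem_univ _)]

private theorem gr2_val : ∀ a b c : F2, (a + b + c).val + a.val + b.val + c.val =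
    (a + b).val + (a + c).val + (b + c).val + 4 * (a.val * b.val * c.val) := by
  decide

private theorem gr2_edge {U : Type} [DecidableEq U] {K : Submodule F2 V} {T : Set V}
    {φ : V →ₗ[F2] (U → F2)} (h : IsRep K T φ) {y : V} (hy : y ∉ K) (t : ∃ x ∈ T, x + y ∈ K) :
    ∃ u v, u ≠ v ∧ φ y = pr u v := by
  obtain ⟨x, hx, hxy⟩ := t
  have h1 : φ y = φ x := by
    have h2 := h.ker _ hxy
    rw [map_add] at h2
    have h3 := (add_eq_iff2 (φ x) (φ y) 0).1 h2
    rw [zero_add] at h3
    exact h3.symm
  have hyT : y ∈ hat K T := by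
    refine mem_of_add_mem2 (K := hat K T) (y := x) ?_ (subset_hat K T hx)
    rw [add_comm]
    exact le_hat K T hxy
  rcases h.edge x hx with h0 | h0
  · exact absurd (h.inj y hyT (by rw [h1, h0])) hy
  · obtain ⟨u, v, huv, he⟩ := h0
    exact ⟨u, v, huv, by rw [h1, he]⟩

theorem graphic_of_rank_two {K : Submodule F2 V} {T : Set V}
    (h : finrank F2 (hat K T) ≤ finrank F2 K + 2) : Graphic K T := by
  obtain ⟨g, hg0, hg⟩ := gr2_coord h
  refine ⟨Fin 3, inferInstance, inferInstance, gr2M.comp g, ?_, ?_, ?_⟩
  · intro v hv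
    rw [LinearMap.comp_apply, hg0 v hv, map_zero]
  · intro x _
    exact gr2M_edge (g x)
  · intro v hv h0
    exact hg v hv (gr2M_inj _ h0)

theorem graphic_of_missing {K : Submodule F2 V} {T : Set V}
    (h : finrank F2 (hat K T) ≤ finrank F2 K + 3) {p : V} (hp : p ∈ hat K T) (hpK : p ∉ K)
    (hm : ∀ x ∈ T, x + p ∉ K) : Graphic K T := by
  obtain ⟨g, hg0, hg⟩ := gr2_coord h
  have hgp : g p ≠ 0 := fun h0 => hpK (hg p hp h0)
  obtain ⟨i0, hi0⟩ := Function.ne_iff.1 hgp
  have hi1 : g p i0 = 1 := by
    rcases F2_cases (g p i0) with h1 | h1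
    · exact absurd h1 hi0
    · exact h1
  let g' : V →ₗ[F2] (Fin 3 → F2) := (LinearMap.funLeft F2 F2 (Equiv.swap 0 i0)).comp g
  have hg'0 : ∀ v ∈ K, g' v = 0 := by
    intro v hv
    show (LinearMap.funLeft F2 F2 (Equiv.swap 0 i0)) (g v) = 0
    rw [hg0 v hv, map_zero]
  have hg' : ∀ v ∈ hat K T, g' v = 0 → v ∈ K := by
    intro v hv h0
    apply hg v hv
    funext i
    have h1 := congrFun h0 (Equiv.swap 0 i0 i)
    have h2 : g' v (Equiv.swap 0 i0 i) = g v i := by
      show g v (Equiv.swap 0 i0 (Equiv.swap 0 i0 i)) = g v i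
      rw [Equiv.swap_apply_self]
    rw [h2] at h1
    exact h1
  have hy0 : g' p 0 = 1 := by
    show g p (Equiv.swap 0 i0 0) = 1
    rw [Equiv.swap_apply_left]
    exact hi1
  refine ⟨Fin 4, inferInstance, inferInstance, (gr2N (g' p)).comp g', ?_, ?_, ?_⟩
  · intro v hv
    rw [LinearMap.comp_apply, hg'0 v hv, map_zero]
  · intro x hx
    rcases gr2N_edge (g' p) hy0 (g' x) with h1 | h1 | h1
    · exact Or.inl h1
    · exact Or.inr h1
    · exfalso
      apply hm x hx
      apply hg' _ ((hat K T).add_mem (subset_hat K T hx) hp)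
      rw [map_add, h1, add_self2]
  · intro v hv h0
    exact hg' v hv (gr2N_inj _ hy0 _ h0)

theorem grL_of_card_le_three [DecidableEq V] {K : Submodule F2 V} {S X : Finset V}
    (hX : X.card ≤ 3) (hl : lam K S X ≤ 2) : GrL K S X := by
  have hgX : (guts K S X : Set V) ⊆ hat K (X : Set V) := fun v hv => hv.1
  have hW : hat K ((X : Set V) ∪ (guts K S X : Set V)) = hat K (X : Set V) :=
    hat_union_of_subset K _ _ hgX
  unfold GrL
  have hle := finrank_hat_le K X
  by_cases h2 : finrank F2 (hat K (X : Set V)) ≤ finrank F2 K + 2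
  · apply graphic_of_rank_two
    rw [hW]
    exact h2
  · have hc : X.card = 3 := by omega
    obtain ⟨x, y, z, hxy, hxz, hyz, rfl⟩ := Finset.card_eq_three.1 hc
    set X : Finset V := {x, y, z} with hX3
    -- nonempty sums are not in K
    have hind : ∀ D : Finset V, D ⊆ X → D.Nonempty → ∑ t ∈ D, t ∉ K := by
      intro D hD hne hs
      have h3 := gr2_dep hD hne hs
      omega
    have hx : x ∈ X := by simp [hX3]
    have hy : y ∈ X := by simp [hX3]
    have hz : z ∈ X := by simp [hX3]
    have n1 : x ∉ K := by
      have h3 := hind {x} (by simpa using hx) (Finset.singleton_nonempty x)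
      rwa [Finset.sum_singleton] at h3
    have n2 : y ∉ K := by
      have h3 := hind {y} (by simpa using hy) (Finset.singleton_nonempty y)
      rwa [Finset.sum_singleton] at h3
    have n3 : z ∉ K := by
      have h3 := hind {z} (by simpa using hz) (Finset.singleton_nonempty z)
      rwa [Finset.sum_singleton] at h3
    have n12 : x + y ∉ K := by
      have h3 := hind {x, y} (by
        intro t ht
        rw [Finset.mem_insert, Finset.mem_singleton] at ht
        rcases ht with rfl | rfl
        · exact hx
        · exact hy) ⟨x, by simp⟩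
      rwa [Finset.sum_pair hxy] at h3
    have n13 : x + z ∉ K := by
      have h3 := hind {x, z} (by
        intro t ht
        rw [Finset.mem_insert, Finset.mem_singleton] at ht
        rcases ht with rfl | rfl
        · exact hx
        · exact hz) ⟨x, by simp⟩
      rwa [Finset.sum_pair hxz] at h3
    have n23 : y + z ∉ K := by
      have h3 := hind {y, z} (by
        intro t ht
        rw [Finset.mem_insert, Finset.mem_singleton] at ht
        rcases ht with rfl | rfl
        · exact hy
        · exact hz) ⟨y, by simp⟩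
      rwa [Finset.sum_pair hyz] at h3
    have n123 : x + (y + z) ∉ K := by
      have h3 := hind X (Finset.Subset.refl X) ⟨x, hx⟩
      rw [hX3, Finset.sum_insert (by simp [hxy, hxz]), Finset.sum_pair hyz] at h3
      exact h3
    have sx := add_self2 x
    have sy := add_self2 y
    have sz := add_self2 z
    have hxW : x ∈ hat K (X : Set V) := subset_hat K _ (Finset.mem_coe.2 hx)
    have hyW : y ∈ hat K (X : Set V) := subset_hat K _ (Finset.mem_coe.2 hy)
    have hzW : z ∈ hat K (X : Set V) := subset_hat K _ (Finset.mem_coe.2 hz)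
    -- the missing class
    have key : ∀ p : V, p ∈ hat K (X : Set V) → p ∉ guts K S X →
        (x + p ∉ K ∧ y + p ∉ K ∧ z + p ∉ K) →
        Graphic K ((X : Set V) ∪ (guts K S X : Set V)) := by
      intro p hp hpg hpx
      refine graphic_of_missing (p := p) ?_ ?_ ?_ ?_
      · rw [hW]; omega
      · rw [hW]; exact hp
      · exact fun h3 => hpg (le_guts K S X h3)
      · rintro t (ht | ht)
        · rw [hX3] at ht
          simp only [Finset.coe_insert, Finset.coe_singleton, Set.mem_insert_iff,
            Set.mem_singleton_iff] at ht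
          rcases ht with rfl | rfl | rfl
          · exact hpx.1
          · exact hpx.2.1
          · exact hpx.2.2
        · intro h3
          apply hpg
          refine mem_of_add_mem2 (K := guts K S X) (y := t) ?_ ht
          rw [add_comm]
          exact le_guts K S X h3
    by_cases g12 : x + y ∈ guts K S X
    · by_cases g13 : x + z ∈ guts K S X
      · by_cases g123 : x + (y + z) ∈ guts K S X
        · exfalso
          have g23 : y + z ∈ guts K S X := by
            have h3 := (guts K S X).add_mem g12 g13
            have h4 : x + y + (x + z) = y + z := by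
              rw [show x + y + (x + z) = (x + x) + (y + z) by abel, sx, zero_add]
            rwa [h4] at h3
          have gx : x ∈ guts K S X := mem_of_add_mem2 g123 g23
          have gy : y ∈ guts K S X := by
            refine mem_of_add_mem2 (y := x) ?_ gx
            rw [add_comm]; exact g12
          have gz : z ∈ guts K S X := by
            refine mem_of_add_mem2 (y := x) ?_ gx
            rw [add_comm]; exact g13
          have h3 : hat K (X : Set V) ≤ guts K S X := by
            refine hat_le (le_guts K S X) ?_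
            intro t ht
            rw [hX3] at ht
            simp only [Finset.coe_insert, Finset.coe_singleton, Set.mem_insert_iff,
              Set.mem_singleton_iff] at ht
            rcases ht with rfl | rfl | rfl
            · exact gx
            · exact gy
            · exact gz
          have h4 := Submodule.finrank_mono h3
          have h5 := lam_add K S X
          omega
        · refine key _ ((hat K (X : Set V)).add_mem hxW ((hat K (X : Set V)).add_mem hyW hzW))
            g123 ⟨?_, ?_, ?_⟩
          · rw [show x + (x + (y + z)) = (x + x) + (y + z) by abel, sx, zero_add]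
            exact n23
          · rw [show y + (x + (y + z)) = (y + y) + (x + z) by abel, sy, zero_add]
            exact n13
          · rw [show z + (x + (y + z)) = (z + z) + (x + y) by abel, sz, zero_add]
            exact n12
      · refine key _ ((hat K (X : Set V)).add_mem hxW hzW) g13 ⟨?_, ?_, ?_⟩
        · rw [show x + (x + z) = (x + x) + z by abel, sx, zero_add]
          exact n3
        · rw [show y + (x + z) = x + (y + z) by abel]
          exact n123
        · rw [show z + (x + z) = (z + z) + x by abel, sz, zero_add]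
          exact n1
    · refine key _ ((hat K (X : Set V)).add_mem hxW hyW) g12 ⟨?_, ?_, ?_⟩
      · rw [show x + (x + y) = (x + x) + y by abel, sx, zero_add]
        exact n2
      · rw [show y + (x + y) = (y + y) + x by abel, sy, zero_add]
        exact n1
      · rw [show z + (x + y) = x + (y + z) by abel]
        exact n123

theorem not_graphic_fano {K : Submodule F2 V} {T : Set V} {y1 y2 y3 : V}
    (h1 : y1 ∉ K) (h2 : y2 ∉ K) (h3 : y3 ∉ K) (h12 : y1 + y2 ∉ K) (h13 : y1 + y3 ∉ K)
    (h23 : y2 + y3 ∉ K) (h123 : y1 + y2 + y3 ∉ K)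
    (t1 : ∃ x ∈ T, x + y1 ∈ K) (t2 : ∃ x ∈ T, x + y2 ∈ K) (t3 : ∃ x ∈ T, x + y3 ∈ K)
    (t12 : ∃ x ∈ T, x + (y1 + y2) ∈ K) (t13 : ∃ x ∈ T, x + (y1 + y3) ∈ K)
    (t23 : ∃ x ∈ T, x + (y2 + y3) ∈ K) (t123 : ∃ x ∈ T, x + (y1 + y2 + y3) ∈ K) :
    ¬ Graphic K T := by
  rintro ⟨U, _, _, φ, h⟩
  obtain ⟨u1, v1, w1, e1⟩ := gr2_edge h h1 t1
  obtain ⟨u2, v2, w2, e2⟩ := gr2_edge h h2 t2
  obtain ⟨u3, v3, w3, e3⟩ := gr2_edge h h3 t3
  obtain ⟨u4, v4, w4, e4⟩ := gr2_edge h h12 t12
  obtain ⟨u5, v5, w5, e5⟩ := gr2_edge h h13 t13
  obtain ⟨u6, v6, w6, e6⟩ := gr2_edge h h23 t23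
  obtain ⟨u7, v7, w7, e7⟩ := gr2_edge h h123 t123
  have s1 := gr2_weight w1
  have s2 := gr2_weight w2
  have s3 := gr2_weight w3
  have s4 := gr2_weight w4
  have s5 := gr2_weight w5
  have s6 := gr2_weight w6
  have s7 := gr2_weight w7
  rw [← e1] at s1
  rw [← e2] at s2
  rw [← e3] at s3
  rw [← e4, map_add] at s4
  rw [← e5, map_add] at s5
  rw [← e6, map_add] at s6
  rw [← e7, map_add, map_add] at s7
  have key : ∑ i, ((φ y1 + φ y2 + φ y3) i).val + ∑ i, (φ y1 i).val + ∑ i, (φ y2 i).val +
      ∑ i, (φ y3 i).val = ∑ i, ((φ y1 + φ y2) i).val + ∑ i, ((φ y1 + φ y3) i).val +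
      ∑ i, ((φ y2 + φ y3) i).val +
        4 * ∑ i, ((φ y1 i).val * (φ y2 i).val * (φ y3 i).val) := by
    rw [Finset.mul_sum, ← Finset.sum_add_distrib, ← Finset.sum_add_distrib,
      ← Finset.sum_add_distrib, ← Finset.sum_add_distrib, ← Finset.sum_add_distrib,
      ← Finset.sum_add_distrib]
    refine Finset.sum_congr rfl fun i _ => ?_
    exact gr2_val (φ y1 i) (φ y2 i) (φ y3 i)
  rw [s1, s2, s3, s4, s5, s6, s7] at key
  omega

end Pool.Agent.HC
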