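import Pool.Agent.HC.BasB
import Pool.Agent.HC.Gr2
import Pool.Agent.HC.Link

/-!
# HC-Ca2: a small set of order two which contains a circuit is reducible (1.4 (ii))

`W = guts K S X`, `dim W = dim K + 2`. `C` is a circuit: `∑ C ∈ K`, no nonempty proper subset has this
property. `2 ≤ C.card` (`nz`). For `C ⊆ Y ⊆ X`: `sm Y`, `2 ≤ Y.card`, so `2 ≤ lam K S Y`, and
`guts K S Y = hat K Y ⊓ (hat K (X \ Y) ⊔ W)` (`guts_sub`). So `linking K W X C 2` applies:
`F1 ⊆ X \ C`, `hat K C ⊓ L = K`, `W ⊓ L = K` where `L = hat K F1`, and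
`dim L + 2 ≤ dim (hat L C ⊓ (L ⊔ W))`; since `dim (L ⊔ W) = dim L + 2` (`finrank_sup_of_inf_eq`),
`W ≤ hat L C`. Choose `w1, w2 ∈ W` with `w1, w2, w1 + w2 ∉ K` and `W = hat K {w1, w2}`. For `i = 1, 2`:
`w_i + ∑ C_i ∈ L`, `C_i ⊆ C` (`mem_hat_iff`); `C_i` may be replaced by `C \ C_i`. Relations of subsets
of `C` modulo `L` are relations modulo `K` (`hat K C ⊓ L = K`), so only `∅` and `C` have sum in `L`.
The four sets `C1 ∩ C2, C1 \ C2, C2 \ C1, C \ (C1 ∪ C2)`: if all are nonempty, choose `y1, .., y4` in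
them and let `L' = hat L (C \ {y1, .., y4})`. Modulo `L'`: `y1 + y2 + y3 + y4 = 0`, `w1 = y1 + y2`,
`w2 = y1 + y3`, `w1 + w2 = y2 + y3`, and `y1, y2, y3` are independent (a sum of some of `y1, y2, y3`
and of a subset of `C \ {y1, .., y4}` in `L` would be the sum of a nonempty proper subset of `C`, as
`y4` does not occur). `GrL K S X` (`h.gl`) gives `Graphic L' (X ∪ W)` by `Graphic.contract` with
`F1 ∪ (C \ {y1, .., y4}) ⊆ X`; contradiction to `not_graphic_fano`. So one of the four sets is empty,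
and after replacing `C1`, `C2` by their complements in `C` we may assume `C1 ∩ C2 = ∅`. Put
`C3 = C \ (C1 ∪ C2)`; then `w1 + w2 + ∑ C3 ∈ L`. All three are nonempty (`w1, w2, w1 + w2 ∉ L` because
`W ⊓ L = K`). Choose `x_i ∈ C_i`; `D = {x1, x2, x3}`, `F = F1 ∪ (C \ D)`. Check `TD`:
`hat K F ⊓ hat K (S \ X) ≤ W` and no `w ∈ W`, `w ∉ K`, is in `hat K F`: `w` is in the class of
`w1, w2` or `w1 + w2`, i.e. `w + ∑ C_i ∈ L` for some `i ∈ {1, 2, 3}`; if `w ∈ hat K F` then
`∑ (C_i Δ C') ∈ L` for some `C' ⊆ C \ D`, and `C_i Δ C'` contains `x_i` but not the other two `x`'s,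
contradiction. `x_i + w_i ∈ hat K F` because `C_i \ {x_i} ⊆ F`.
-/

namespace Pool.Agent.HC

open Finset Module

variable {V : Type} [AddCommGroup V] [Module F2 V] [DecidableEq V] [FiniteDimensional F2 V]
  {K : Submodule F2 V} {S X C : Finset V} {sm : Finset V → Prop}

omit [FiniteDimensional F2 V] [DecidableEq V] in
private theorem ca2_trans {L : Submodule F2 V} {a b c : V} (h1 : a + b ∈ L) (h2 : b + c ∈ L) :
    a + c ∈ L := by
  have h := L.add_mem h1 h2
  have e : a + b + (b + c) = a + c := by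
    rw [show a + b + (b + c) = a + c + (b + b) by abel, add_self2, add_zero]
  rwa [e] at h

omit [FiniteDimensional F2 V] in
private theorem ca2_sum (E E' : Finset V) :
    ∑ x ∈ E, x + ∑ x ∈ E', x = ∑ x ∈ (E \ E') ∪ (E' \ E), x := by
  have h1 : ∑ x ∈ E, x = ∑ x ∈ E \ E', x + ∑ x ∈ E ∩ E', x := by
    rw [← Finset.sum_sdiff (Finset.inter_subset_left : E ∩ E' ⊆ E), Finset.sdiff_inter_self_left]
  have h2 : ∑ x ∈ E', x = ∑ x ∈ E' \ E, x + ∑ x ∈ E ∩ E', x := by
    rw [← Finset.sum_sdiff (Finset.inter_subset_right : E ∩ E' ⊆ E'),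
      Finset.sdiff_inter_self_right]
  have h3 : Disjoint (E \ E') (E' \ E) := by
    rw [Finset.disjoint_left]
    intro x hx hx'
    exact (Finset.mem_sdiff.1 hx').2 (Finset.mem_sdiff.1 hx).1
  rw [Finset.sum_union h3, h1, h2,
    show ∑ x ∈ E \ E', x + ∑ x ∈ E ∩ E', x + (∑ x ∈ E' \ E, x + ∑ x ∈ E ∩ E', x) =
      ∑ x ∈ E \ E', x + ∑ x ∈ E' \ E, x + (∑ x ∈ E ∩ E', x + ∑ x ∈ E ∩ E', x) by abel,
    add_self2, add_zero]

omit [FiniteDimensional F2 V] [DecidableEq V] in
private theorem ca2_sum_mem (K : Submodule F2 V) (T : Set V) (E : Finset V) (h : (E : Set V) ⊆ T) :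
    ∑ x ∈ E, x ∈ hat K T :=
  Submodule.sum_mem _ fun _ hx => subset_hat K T (h hx)

/-- the reduction, once the circuit is partitioned -/
private theorem ca2_fin {F1 : Finset V} (hXS : X ⊆ S)
    (hrank : finrank F2 (guts K S X) = finrank F2 K + 2) (hC : C ⊆ X) (hF1 : F1 ⊆ X \ C)
    (R : ∀ E ⊆ C, ∑ x ∈ E, x ∈ hat K (F1 : Set V) → E = ∅ ∨ E = C)
    (w : Fin 3 → V) (Cc : Fin 3 → Finset V) (hCc : ∀ i, Cc i ⊆ C)
    (hdisj : ∀ i j, i ≠ j → Disjoint (Cc i) (Cc j)) (hne : ∀ i, (Cc i).Nonempty)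
    (hw : ∀ i, w i ∈ guts K S X) (hwK : ∀ i, w i ∉ K)
    (hsum : ∀ i, w i + ∑ x ∈ Cc i, x ∈ hat K (F1 : Set V))
    (hall : ∀ v ∈ guts K S X, v ∉ K → ∃ i, v + w i ∈ K) : ∃ F D, TD K S X F D 2 := by
  choose x hx using hne
  have hxinj : ∀ i j, i ≠ j → x i ∉ Cc j := fun i j hij h =>
    (Finset.disjoint_left.1 (hdisj i j hij)) (hx i) h
  have hinj : Function.Injective x := by
    intro i j hij
    by_contra hne
    exact hxinj i j hne (hij ▸ hx j)
  set D : Finset V := Finset.univ.image x with hD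
  have hxD : ∀ i, x i ∈ D := fun i => Finset.mem_image_of_mem _ (Finset.mem_univ i)
  have hDC : D ⊆ C := by
    intro y hy
    obtain ⟨i, _, rfl⟩ := Finset.mem_image.1 hy
    exact hCc i (hx i)
  have hF1X : F1 ⊆ X := hF1.trans Finset.sdiff_subset
  have hFX : F1 ∪ (C \ D) ⊆ X := Finset.union_subset hF1X (Finset.sdiff_subset.trans hC)
  have hF : hat K ((F1 ∪ (C \ D) : Finset V) : Set V) =
      hat (hat K (F1 : Set V)) ((C \ D : Finset V) : Set V) := by
    rw [hat_hat, Finset.coe_union]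
  have hLF : hat K (F1 : Set V) ≤ hat K ((F1 ∪ (C \ D) : Finset V) : Set V) := by
    rw [hF]
    exact le_hat _ _
  have hKF : K ≤ hat K ((F1 ∪ (C \ D) : Finset V) : Set V) := le_hat _ _
  have N : ∀ v ∈ guts K S X, v ∉ K → v ∉ hat K ((F1 ∪ (C \ D) : Finset V) : Set V) := by
    intro v hv hvK hvF
    obtain ⟨i, hi⟩ := hall v hv hvK
    have h1 : v + ∑ y ∈ Cc i, y ∈ hat K (F1 : Set V) :=
      ca2_trans (le_hat K (F1 : Set V) hi) (hsum i)
    rw [hF, mem_hat_iff] at hvF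
    obtain ⟨C', hC', h2⟩ := hvF
    have h3 : ∑ y ∈ Cc i, y + ∑ y ∈ C', y ∈ hat K (F1 : Set V) := by
      rw [add_comm] at h1
      exact ca2_trans h1 h2
    rw [ca2_sum] at h3
    have hsub : (Cc i \ C') ∪ (C' \ Cc i) ⊆ C :=
      Finset.union_subset (Finset.sdiff_subset.trans (hCc i))
        (Finset.sdiff_subset.trans (hC'.trans Finset.sdiff_subset))
    have hxC' : ∀ j, x j ∉ C' := fun j h => (Finset.mem_sdiff.1 (hC' h)).2 (hxD j)
    obtain ⟨j, hj⟩ : ∃ j : Fin 3, j ≠ i := exists_ne i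
    rcases R _ hsub h3 with h4 | h4
    · have : x i ∈ (Cc i \ C') ∪ (C' \ Cc i) :=
        Finset.mem_union_left _ (Finset.mem_sdiff.2 ⟨hx i, hxC' i⟩)
      rw [h4] at this
      exact Finset.notMem_empty _ this
    · have : x j ∈ (Cc i \ C') ∪ (C' \ Cc i) := by
        rw [h4]
        exact hCc j (hx j)
      rcases Finset.mem_union.1 this with h5 | h5
      · exact hxinj j i hj (Finset.mem_sdiff.1 h5).1
      · exact hxC' j (Finset.mem_sdiff.1 h5).1
  have hxw : ∀ i, x i + w i ∈ hat K ((F1 ∪ (C \ D) : Finset V) : Set V) := by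
    intro i
    have h1 := hLF (hsum i)
    have h2 : ∑ y ∈ (Cc i).erase (x i), y ∈ hat K ((F1 ∪ (C \ D) : Finset V) : Set V) := by
      refine ca2_sum_mem _ _ _ ?_
      intro y hy
      have hy' := Finset.mem_erase.1 (Finset.mem_coe.1 hy)
      refine Finset.mem_coe.2 (Finset.mem_union_right _ (Finset.mem_sdiff.2 ⟨hCc i hy'.2, ?_⟩))
      intro hyD
      obtain ⟨j, _, rfl⟩ := Finset.mem_image.1 hyD
      by_cases hij : j = i
      · subst hij
        exact hy'.1 rfl
      · exact hxinj j i hij hy'.2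
    rw [← Finset.add_sum_erase _ _ (hx i), ← add_assoc] at h1
    have h3 := mem_of_add_mem2 h1 h2
    rwa [add_comm] at h3
  refine ⟨F1 ∪ (C \ D), D, ?_⟩
  constructor
  · exact hXS
  · exact hFX
  · exact hDC.trans hC
  · rw [Finset.disjoint_left]
    intro y hy hyD
    rcases Finset.mem_union.1 hy with h | h
    · exact (Finset.mem_sdiff.1 (hF1 h)).2 (hDC hyD)
    · exact (Finset.mem_sdiff.1 h).2 hyD
  · apply le_antisymm
    · intro v hv
      obtain ⟨hv1, hv2⟩ := Submodule.mem_inf.1 hv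
      by_contra hvK
      refine N v ?_ hvK hv1
      exact Submodule.mem_inf.2 ⟨hat_mono le_rfl (Finset.coe_subset.2 hFX) hv1, hv2⟩
    · exact le_inf (le_hat _ _) (le_hat _ _)
  · exact hrank
  · rw [hD, Finset.card_image_of_injective _ hinj, Finset.card_univ, Fintype.card_fin]
    norm_num
  · intro d hd
    obtain ⟨i, _, rfl⟩ := Finset.mem_image.1 hd
    exact ⟨w i, hw i, hwK i, hxw i⟩
  · intro v hv hvK
    obtain ⟨i, hi⟩ := hall v hv hvK
    refine ⟨x i, hxD i, ca2_trans (hxw i) ?_⟩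
    rw [add_comm]
    exact hKF hi

/-- four nonempty parts give a Fano configuration -/
private theorem ca2_fano {F1 : Finset V} (hgr : GrL K S X) (hC : C ⊆ X) (hF1 : F1 ⊆ X \ C)
    (R : ∀ E ⊆ C, ∑ x ∈ E, x ∈ hat K (F1 : Set V) → E = ∅ ∨ E = C)
    (hsC : ∑ x ∈ C, x ∈ hat K (F1 : Set V)) {w1 w2 : V} {C1 C2 : Finset V}
    (hC1 : C1 ⊆ C) (hC2 : C2 ⊆ C) (hw1 : w1 ∈ guts K S X) (hw2 : w2 ∈ guts K S X)
    (h1 : w1 + ∑ x ∈ C1, x ∈ hat K (F1 : Set V)) (h2 : w2 + ∑ x ∈ C2, x ∈ hat K (F1 : Set V))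
    {y1 y2 y3 y4 : V} (a1 : y1 ∈ C1) (b1 : y1 ∈ C2) (a2 : y2 ∈ C1) (b2 : y2 ∉ C2)
    (a3 : y3 ∉ C1) (b3 : y3 ∈ C2) (c4 : y4 ∈ C) (a4 : y4 ∉ C1) (b4 : y4 ∉ C2) : False := by
  have n12 : y1 ≠ y2 := fun h => b2 (h ▸ b1)
  have n13 : y1 ≠ y3 := fun h => a3 (h ▸ a1)
  have n14 : y1 ≠ y4 := fun h => a4 (h ▸ a1)
  have n23 : y2 ≠ y3 := fun h => a3 (h ▸ a2)
  have n24 : y2 ≠ y4 := fun h => a4 (h ▸ a2)
  have n34 : y3 ≠ y4 := fun h => b4 (h ▸ b3)
  set Q : Finset V := {y1, y2, y3, y4} with hQ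
  have hF1X : F1 ⊆ X := hF1.trans Finset.sdiff_subset
  have hG0 := Graphic.contract hgr (F1 ∪ (C \ Q)) (by
    intro y hy
    rcases Finset.mem_union.1 (Finset.mem_coe.1 hy) with h | h
    · exact Or.inl (hF1X h)
    · exact Or.inl (hC (Finset.mem_sdiff.1 h).1))
  have hF : hat K ((F1 ∪ (C \ Q) : Finset V) : Set V) =
      hat (hat K (F1 : Set V)) ((C \ Q : Finset V) : Set V) := by
    rw [hat_hat, Finset.coe_union]
  rw [hF] at hG0
  set L := hat K (F1 : Set V) with hL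
  set L' := hat L ((C \ Q : Finset V) : Set V) with hL'
  have hLL' : L ≤ L' := le_hat _ _
  -- sums of subsets of `C` modulo `L'`
  have red : ∀ E ⊆ C, ∑ x ∈ E, x + ∑ x ∈ E ∩ Q, x ∈ L' := by
    intro E hE
    have e : ∑ x ∈ E, x = ∑ x ∈ E \ Q, x + ∑ x ∈ E ∩ Q, x := by
      rw [← Finset.sum_sdiff (Finset.inter_subset_left : E ∩ Q ⊆ E), Finset.sdiff_inter_self_left]
    rw [e, add_assoc, add_self2, add_zero]
    refine ca2_sum_mem _ _ _ ?_
    intro y hy
    have hy' := Finset.mem_sdiff.1 (Finset.mem_coe.1 hy)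
    exact Finset.mem_coe.2 (Finset.mem_sdiff.2 ⟨hE hy'.1, hy'.2⟩)
  have ne : ∀ E : Finset V, E ⊆ {y1, y2, y3} → E.Nonempty → ∑ x ∈ E, x ∉ L' := by
    intro E hE hEne hmem
    have hEQ : E ⊆ Q := by
      intro y hy
      have := hE hy
      simp only [Finset.mem_insert, Finset.mem_singleton] at this
      rw [hQ]
      simp only [Finset.mem_insert, Finset.mem_singleton]
      tauto
    have hEC : E ⊆ C := by
      intro y hy
      have := hE hy
      simp only [Finset.mem_insert, Finset.mem_singleton] at this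
      rcases this with rfl | rfl | rfl
      · exact hC1 a1
      · exact hC1 a2
      · exact hC2 b3
    have hE4 : y4 ∉ E := by
      intro hy
      have := hE hy
      simp only [Finset.mem_insert, Finset.mem_singleton] at this
      rcases this with h | h | h
      · exact n14 h.symm
      · exact n24 h.symm
      · exact n34 h.symm
    rw [hL', mem_hat_iff] at hmem
    obtain ⟨C', hC', h3⟩ := hmem
    rw [ca2_sum] at h3
    have hsub : (E \ C') ∪ (C' \ E) ⊆ C :=
      Finset.union_subset (Finset.sdiff_subset.trans hEC)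
        (Finset.sdiff_subset.trans (hC'.trans Finset.sdiff_subset))
    rcases R _ hsub h3 with h4 | h4
    · obtain ⟨y, hy⟩ := hEne
      have hyC' : y ∉ C' := fun h => (Finset.mem_sdiff.1 (hC' h)).2 (hEQ hy)
      have : y ∈ (E \ C') ∪ (C' \ E) :=
        Finset.mem_union_left _ (Finset.mem_sdiff.2 ⟨hy, hyC'⟩)
      rw [h4] at this
      exact Finset.notMem_empty _ this
    · have : y4 ∈ (E \ C') ∪ (C' \ E) := by
        rw [h4]
        exact c4
      rcases Finset.mem_union.1 this with h5 | h5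
      · exact hE4 (Finset.mem_sdiff.1 h5).1
      · refine (Finset.mem_sdiff.1 (hC' (Finset.mem_sdiff.1 h5).1)).2 ?_
        rw [hQ]
        simp
  have e1 : C1 ∩ Q = {y1, y2} := by
    ext y
    rw [hQ]
    simp only [Finset.mem_inter, Finset.mem_insert, Finset.mem_singleton]
    constructor
    · rintro ⟨h, rfl | rfl | rfl | rfl⟩
      · exact Or.inl rfl
      · exact Or.inr rfl
      · exact absurd h a3
      · exact absurd h a4
    · rintro (rfl | rfl)
      · exact ⟨a1, Or.inl rfl⟩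
      · exact ⟨a2, Or.inr (Or.inl rfl)⟩
  have e2 : C2 ∩ Q = {y1, y3} := by
    ext y
    rw [hQ]
    simp only [Finset.mem_inter, Finset.mem_insert, Finset.mem_singleton]
    constructor
    · rintro ⟨h, rfl | rfl | rfl | rfl⟩
      · exact Or.inl rfl
      · exact absurd h b2
      · exact Or.inr rfl
      · exact absurd h b4
    · rintro (rfl | rfl)
      · exact ⟨b1, Or.inl rfl⟩
      · exact ⟨b3, Or.inr (Or.inr (Or.inl rfl))⟩
  have e3 : C ∩ Q = {y1, y2, y3, y4} := by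
    rw [hQ]
    refine Finset.inter_eq_right.2 ?_
    intro y hy
    simp only [Finset.mem_insert, Finset.mem_singleton] at hy
    rcases hy with rfl | rfl | rfl | rfl
    · exact hC1 a1
    · exact hC1 a2
    · exact hC2 b3
    · exact c4
  have r1 : w1 + (y1 + y2) ∈ L' := by
    have := red C1 hC1
    rw [e1, Finset.sum_pair n12] at this
    exact ca2_trans (hLL' h1) this
  have r2 : w2 + (y1 + y3) ∈ L' := by
    have := red C2 hC2
    rw [e2, Finset.sum_pair n13] at this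
    exact ca2_trans (hLL' h2) this
  have r12 : w1 + w2 + (y2 + y3) ∈ L' := by
    have h3 := L'.add_mem r1 r2
    have e : w1 + (y1 + y2) + (w2 + (y1 + y3)) = w1 + w2 + (y2 + y3) := by
      rw [show w1 + (y1 + y2) + (w2 + (y1 + y3)) = w1 + w2 + (y2 + y3) + (y1 + y1) by abel,
        add_self2, add_zero]
    rwa [e] at h3
  have r4 : y4 + (y1 + y2 + y3) ∈ L' := by
    have h3 := red C subset_rfl
    rw [e3] at h3
    have h4 : ∑ x ∈ ({y1, y2, y3, y4} : Finset V), x = y1 + y2 + y3 + y4 := by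
      rw [Finset.sum_insert (by simp [n12, n13, n14]), Finset.sum_insert (by simp [n23, n24]),
        Finset.sum_pair n34]
      abel
    rw [h4] at h3
    have h5 := ca2_trans (a := 0) (b := ∑ x ∈ C, x) (L := L')
      (by rw [zero_add]; exact hLL' hsC) h3
    rw [zero_add] at h5
    rw [add_comm]
    exact h5
  have s1 : ∀ y : V, ∑ x ∈ ({y} : Finset V), x = y := fun y => Finset.sum_singleton _ _
  have ym : ∀ y ∈ C, ∃ x ∈ ((X : Set V) ∪ (guts K S X : Set V)), x + y ∈ L' := by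
    intro y hy
    refine ⟨y, Or.inl (hC hy), ?_⟩
    rw [add_self2]
    exact L'.zero_mem
  refine not_graphic_fano (K := L') (T := (X : Set V) ∪ (guts K S X : Set V)) (y1 := y1)
    (y2 := y2) (y3 := y3) ?_ ?_ ?_ ?_ ?_ ?_ ?_ (ym y1 (hC1 a1)) (ym y2 (hC1 a2)) (ym y3 (hC2 b3))
    ⟨w1, Or.inr hw1, r1⟩ ⟨w2, Or.inr hw2, r2⟩
    ⟨w1 + w2, Or.inr (Submodule.add_mem _ hw1 hw2), r12⟩
    ⟨y4, Or.inl (hC c4), r4⟩ hG0
  · have := ne {y1} (by simp) (by simp)
    rwa [s1] at this
  · have := ne {y2} (by simp) (by simp)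
    rwa [s1] at this
  · have := ne {y3} (by simp) (by simp)
    rwa [s1] at this
  · have := ne {y1, y2} (by
      intro y hy
      simp only [Finset.mem_insert, Finset.mem_singleton] at hy ⊢
      tauto) (by simp)
    rwa [Finset.sum_pair n12] at this
  · have := ne {y1, y3} (by
      intro y hy
      simp only [Finset.mem_insert, Finset.mem_singleton] at hy ⊢
      tauto) (by simp)
    rwa [Finset.sum_pair n13] at this
  · have := ne {y2, y3} (by
      intro y hy
      simp only [Finset.mem_insert, Finset.mem_singleton] at hy ⊢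
      tauto) (by simp)
    rwa [Finset.sum_pair n23] at this
  · have := ne {y1, y2, y3} subset_rfl (by simp)
    rw [Finset.sum_insert (by simp [n12, n13]), Finset.sum_pair n23, ← add_assoc] at this
    exact this

theorem MinCex.exists_TD (h : MinCex K S sm)
    (c2 : ∀ Y, sm Y → 2 ≤ Y.card → 2 ≤ lam K S Y) (hX : sm X) (hl : lam K S X = 2)
    (hC : C ⊆ X) (hne : C.Nonempty) (hsum : ∑ x ∈ C, x ∈ K)
    (hmin : ∀ E ⊂ C, E.Nonempty → ∑ x ∈ E, x ∉ K) : ∃ F D, TD K S X F D 2 := by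
  have hXS : X ⊆ S := h.sS X hX
  have hrank : finrank F2 (guts K S X) = finrank F2 K + 2 := by
    rw [← lam_add K S X, hl, add_comm]
  have hKW : K ≤ guts K S X := le_guts K S X
  have hCcard : 2 ≤ C.card := by
    by_contra hlt
    have h1 : C.card = 1 := by
      have := Finset.card_pos.2 hne
      omega
    obtain ⟨x, rfl⟩ := Finset.card_eq_one.1 h1
    rw [Finset.sum_singleton] at hsum
    exact h.nz x (hXS (hC (Finset.mem_singleton_self x))) hsum
  obtain ⟨F1, hF1, hCL, hWL, hdim⟩ := linking K (guts K S X) hKW X C hC 2 (by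
    intro Y hCY hYX
    have h1 := c2 Y (h.sub X Y hX hYX) (hCcard.trans (Finset.card_le_card hCY))
    rw [← guts_sub hYX hXS, ← lam_add K S Y]
    omega)
  set L := hat K (F1 : Set V) with hL
  have hKL : K ≤ L := le_hat _ _
  have hdimLW : finrank F2 ↥(L ⊔ guts K S X) = finrank F2 L + 2 := by
    have h1 := finrank_sup_of_inf_eq (K := K) (A := guts K S X) (B := guts K S X) (C := L)
      hWL hKW le_rfl hKL
    omega
  have hWC : guts K S X ≤ hat L (C : Set V) := by
    have h1 : hat K ((F1 ∪ C : Finset V) : Set V) ⊓ (L ⊔ guts K S X) = L ⊔ guts K S X := by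
      refine Submodule.eq_of_le_of_finrank_le inf_le_right ?_
      rw [hdimLW]
      exact hdim
    have h2 : hat K ((F1 ∪ C : Finset V) : Set V) = hat L (C : Set V) := by
      rw [hL, hat_hat, Finset.coe_union]
    rw [h2] at h1
    exact le_sup_right.trans (inf_eq_right.1 h1)
  have R : ∀ E ⊆ C, ∑ x ∈ E, x ∈ L → E = ∅ ∨ E = C := by
    intro E hE hmem
    have h1 : ∑ x ∈ E, x ∈ K := by
      rw [← hCL]
      exact Submodule.mem_inf.2 ⟨ca2_sum_mem _ _ _ (Finset.coe_subset.2 hE), hmem⟩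
    by_contra hcon
    rw [not_or] at hcon
    exact hmin E (Finset.ssubset_iff_subset_ne.2 ⟨hE, hcon.2⟩)
      (Finset.nonempty_iff_ne_empty.2 hcon.1) h1
  have hsC : ∑ x ∈ C, x ∈ L := hKL hsum
  obtain ⟨w1, hw1, hw1K⟩ : ∃ w1 ∈ guts K S X, w1 ∉ K := by
    by_contra hcon
    push Not at hcon
    have h1 : guts K S X ≤ K := hcon
    have := Submodule.finrank_mono h1
    omega
  have hd1 := finrank_hat_singleton K w1 hw1K
  obtain ⟨w2, hw2, hw2K⟩ : ∃ w2 ∈ guts K S X, w2 ∉ hat K {w1} := by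
    by_contra hcon
    push Not at hcon
    have h1 : guts K S X ≤ hat K {w1} := hcon
    have := Submodule.finrank_mono h1
    omega
  have hd2 := finrank_hat_singleton (hat K {w1}) w2 hw2K
  have hWeq : hat (hat K {w1}) {w2} = guts K S X := by
    refine Submodule.eq_of_le_of_finrank_eq ?_ ?_
    · refine hat_le (hat_le hKW ?_) ?_
      · intro y hy
        rw [Set.mem_singleton_iff.1 hy]
        exact hw1
      · intro y hy
        rw [Set.mem_singleton_iff.1 hy]
        exact hw2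
    · omega
  have hcls : ∀ v ∈ guts K S X, v ∉ K → v + w1 ∈ K ∨ v + w2 ∈ K ∨ v + (w1 + w2) ∈ K := by
    intro v hv hvK
    rw [← hWeq, mem_hat_singleton, mem_hat_singleton, mem_hat_singleton] at hv
    rcases hv with (h1 | h1) | (h1 | h1)
    · exact absurd h1 hvK
    · exact Or.inl h1
    · exact Or.inr (Or.inl h1)
    · refine Or.inr (Or.inr ?_)
      rwa [add_comm w1 w2, ← add_assoc]
  have hw2K' : w2 ∉ K := fun h1 => hw2K (le_hat _ _ h1)
  have hw12K : w1 + w2 ∉ K := by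
    intro h1
    apply hw2K
    rw [mem_hat_singleton]
    right
    rwa [add_comm]
  have hpart : ∀ v ∈ guts K S X, ∃ C' ⊆ C, v + ∑ x ∈ C', x ∈ L := fun v hv =>
    (mem_hat_iff L C v).1 (hWC hv)
  have hcompl : ∀ (v : V) (C' : Finset V), C' ⊆ C → v + ∑ x ∈ C', x ∈ L →
      v + ∑ x ∈ C \ C', x ∈ L := by
    intro v C' hC' h1
    refine ca2_trans h1 ?_
    rw [add_comm, Finset.sum_sdiff hC']
    exact hsC
  -- disjoint parts
  obtain ⟨C1, C2, hC1, hC2, h1, h2, hdis⟩ : ∃ C1 C2 : Finset V, C1 ⊆ C ∧ C2 ⊆ C ∧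
      w1 + ∑ x ∈ C1, x ∈ L ∧ w2 + ∑ x ∈ C2, x ∈ L ∧ Disjoint C1 C2 := by
    obtain ⟨C1, hC1, h1⟩ := hpart w1 hw1
    obtain ⟨C2, hC2, h2⟩ := hpart w2 hw2
    by_cases q1 : Disjoint C1 C2
    · exact ⟨C1, C2, hC1, hC2, h1, h2, q1⟩
    by_cases q2 : C1 ⊆ C2
    · refine ⟨C1, C \ C2, hC1, Finset.sdiff_subset, h1, hcompl _ _ hC2 h2, ?_⟩
      rw [Finset.disjoint_left]
      intro y hy hy'
      exact (Finset.mem_sdiff.1 hy').2 (q2 hy)
    by_cases q3 : C2 ⊆ C1
    · refine ⟨C \ C1, C2, Finset.sdiff_subset, hC2, hcompl _ _ hC1 h1, h2, ?_⟩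
      rw [Finset.disjoint_left]
      intro y hy hy'
      exact (Finset.mem_sdiff.1 hy).2 (q3 hy')
    by_cases q4 : C ⊆ C1 ∪ C2
    · refine ⟨C \ C1, C \ C2, Finset.sdiff_subset, Finset.sdiff_subset, hcompl _ _ hC1 h1,
        hcompl _ _ hC2 h2, ?_⟩
      rw [Finset.disjoint_left]
      intro y hy hy'
      have hy1 := Finset.mem_sdiff.1 hy
      rcases Finset.mem_union.1 (q4 hy1.1) with h3 | h3
      · exact hy1.2 h3
      · exact (Finset.mem_sdiff.1 hy').2 h3
    exfalso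
    rw [Finset.not_disjoint_iff] at q1
    obtain ⟨y1, a1, b1⟩ := q1
    obtain ⟨y2, a2, b2⟩ := Finset.not_subset.1 q2
    obtain ⟨y3, b3, a3⟩ := Finset.not_subset.1 q3
    obtain ⟨y4, c4, d4⟩ := Finset.not_subset.1 q4
    rw [Finset.mem_union, not_or] at d4
    exact ca2_fano (h.gl X hX hl.le) hC hF1 R hsC hC1 hC2 hw1 hw2 h1 h2 a1 b1 a2 b2 a3 b3 c4
      d4.1 d4.2
  have h12 : w1 + w2 + ∑ x ∈ C \ (C1 ∪ C2), x ∈ L := by
    have h3 := L.add_mem h1 h2
    have e : w1 + ∑ x ∈ C1, x + (w2 + ∑ x ∈ C2, x) = w1 + w2 + ∑ x ∈ C1 ∪ C2, x := by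
      rw [Finset.sum_union hdis]
      abel
    rw [e] at h3
    exact hcompl _ _ (Finset.union_subset hC1 hC2) h3
  have hWL' : ∀ v ∈ guts K S X, v ∈ L → v ∈ K := fun v hv hv' => by
    rw [← hWL]
    exact Submodule.mem_inf.2 ⟨hv, hv'⟩
  have hw12 : w1 + w2 ∈ guts K S X := Submodule.add_mem _ hw1 hw2
  refine ca2_fin (K := K) (S := S) (X := X) (C := C) (F1 := F1) hXS hrank hC hF1 R
    ![w1, w2, w1 + w2] ![C1, C2, C \ (C1 ∪ C2)] ?_ ?_ ?_ ?_ ?_ ?_ ?_
  · intro i
    fin_cases i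
    · exact hC1
    · exact hC2
    · exact Finset.sdiff_subset
  · have d13 : Disjoint C1 (C \ (C1 ∪ C2)) := by
      rw [Finset.disjoint_left]
      intro y hy hy'
      exact (Finset.mem_sdiff.1 hy').2 (Finset.mem_union_left _ hy)
    have d23 : Disjoint C2 (C \ (C1 ∪ C2)) := by
      rw [Finset.disjoint_left]
      intro y hy hy'
      exact (Finset.mem_sdiff.1 hy').2 (Finset.mem_union_right _ hy)
    intro i j hij
    fin_cases i <;> fin_cases j
    · exact absurd rfl hij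
    · exact hdis
    · exact d13
    · exact hdis.symm
    · exact absurd rfl hij
    · exact d23
    · exact d13.symm
    · exact d23.symm
    · exact absurd rfl hij
  · intro i
    fin_cases i
    · show C1.Nonempty
      rw [Finset.nonempty_iff_ne_empty]
      rintro rfl
      rw [Finset.sum_empty, add_zero] at h1
      exact hw1K (hWL' _ hw1 h1)
    · show C2.Nonempty
      rw [Finset.nonempty_iff_ne_empty]
      rintro rfl
      rw [Finset.sum_empty, add_zero] at h2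
      exact hw2K' (hWL' _ hw2 h2)
    · show (C \ (C1 ∪ C2)).Nonempty
      rw [Finset.nonempty_iff_ne_empty]
      intro h3
      rw [h3, Finset.sum_empty, add_zero] at h12
      exact hw12K (hWL' _ hw12 h12)
  · intro i
    fin_cases i
    · exact hw1
    · exact hw2
    · exact hw12
  · intro i
    fin_cases i
    · exact hw1K
    · exact hw2K'
    · exact hw12K
  · intro i
    fin_cases i
    · exact h1
    · exact h2
    · exact h12
  · intro v hv hvK
    rcases hcls v hv hvK with h3 | h3 | h3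
    · exact ⟨0, h3⟩
    · exact ⟨1, h3⟩
    · exact ⟨2, h3⟩

end Pool.Agent.HC
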