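import Pool.Agent.HC.BasB

/-!
# HC-Ca3: an independent small set of order at most two has at most three elements (1.4 (iii))
-/

namespace Pool.Agent.HC

open Finset Module

variable {V : Type} [AddCommGroup V] [Module F2 V] [DecidableEq V] [FiniteDimensional F2 V]
  {K : Submodule F2 V} {S X : Finset V} {sm : Finset V → Prop}

private theorem ca3_sum_symmDiff (A B : Finset V) :
    ∑ x ∈ symmDiff A B, x = ∑ x ∈ A, x + ∑ x ∈ B, x := by
  have h1 : symmDiff A B = (A \ B) ∪ (B \ A) := rfl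
  have hd : Disjoint (A \ B) (B \ A) := disjoint_sdiff_sdiff
  have h2 := Finset.sum_sdiff (f := fun x : V => x) (Finset.inter_subset_left (s₁ := A) (s₂ := B))
  have h3 := Finset.sum_sdiff (f := fun x : V => x) (Finset.inter_subset_right (s₁ := A) (s₂ := B))
  rw [Finset.sdiff_inter_self_left] at h2
  rw [Finset.inter_comm, Finset.sdiff_inter_self_left] at h3
  rw [h1, Finset.sum_union hd, ← h2, ← h3, Finset.inter_comm B A]
  have h4 := add_self2 (∑ x ∈ A ∩ B, x)
  calc ∑ x ∈ A \ B, x + ∑ x ∈ B \ A, x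
      = ∑ x ∈ A \ B, x + ∑ x ∈ B \ A, x + (∑ x ∈ A ∩ B, x + ∑ x ∈ A ∩ B, x) := by
        rw [h4, add_zero]
    _ = _ := by abel

private theorem ca3_span {K W : Submodule F2 V} (hKW : K ≤ W)
    (hW : finrank F2 W ≤ finrank F2 K + 2) :
    ∃ w1 ∈ W, ∃ w2 ∈ W, W ≤ hat (hat K {w1}) {w2} := by
  by_cases h1 : W ≤ K
  · exact ⟨0, W.zero_mem, 0, W.zero_mem, h1.trans ((le_hat _ _).trans (le_hat _ _))⟩
  · obtain ⟨w1, hw1, hw1K⟩ := SetLike.not_le_iff_exists.1 h1
    by_cases h2 : W ≤ hat K {w1}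
    · exact ⟨w1, hw1, 0, W.zero_mem, h2.trans (le_hat _ _)⟩
    · obtain ⟨w2, hw2, hw2K⟩ := SetLike.not_le_iff_exists.1 h2
      refine ⟨w1, hw1, w2, hw2, ?_⟩
      have hle : hat (hat K {w1}) {w2} ≤ W := by
        apply hat_le (hat_le hKW ?_) ?_
        · intro x hx
          rw [Set.mem_singleton_iff] at hx
          rw [hx]
          exact hw1
        · intro x hx
          rw [Set.mem_singleton_iff] at hx
          rw [hx]
          exact hw2
      have hf : finrank F2 W ≤ finrank F2 (hat (hat K {w1}) {w2}) := by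
        rw [finrank_hat_singleton _ _ hw2K, finrank_hat_singleton _ _ hw1K]
        omega
      exact (Submodule.eq_of_le_of_finrank_le hle hf).symm.le

/-- membership in `W` in terms of sums of subsets -/
private theorem ca3_mem {K W : Submodule F2 V} {w1 w2 b : V} {X1 X2 : Finset V}
    (hW : W ≤ hat (hat K {w1}) {w2}) (h1 : w1 + ∑ x ∈ X1, x ∈ K) (h2 : w2 + ∑ x ∈ X2, x ∈ K)
    (hb : b ∈ W) : ∃ Z : Finset V, (Z = ∅ ∨ Z = X1 ∨ Z = X2 ∨ Z = symmDiff X1 X2) ∧
      b + ∑ x ∈ Z, x ∈ K := by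
  have key : ∀ (a w s : V), a + w ∈ K → w + s ∈ K → a + s ∈ K := by
    intro a w s ha hs
    have e : a + s = (a + w) + (w + s) := by
      have := add_self2 w
      calc a + s = a + (w + w) + s := by rw [this, add_zero]
        _ = _ := by abel
    rw [e]
    exact K.add_mem ha hs
  have h := hW hb
  rw [mem_hat_singleton] at h
  rcases h with h | h
  · rw [mem_hat_singleton] at h
    rcases h with h | h
    · exact ⟨∅, Or.inl rfl, by rw [Finset.sum_empty, add_zero]; exact h⟩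
    · exact ⟨X1, Or.inr (Or.inl rfl), key _ _ _ h h1⟩
  · rw [mem_hat_singleton] at h
    rcases h with h | h
    · exact ⟨X2, Or.inr (Or.inr (Or.inl rfl)), key _ _ _ h h2⟩
    · refine ⟨symmDiff X1 X2, Or.inr (Or.inr (Or.inr rfl)), ?_⟩
      rw [ca3_sum_symmDiff]
      refine key b (w1 + w2) _ ?_ ?_
      · rw [add_assoc, add_comm w2 w1] at h
        exact h
      · have e : w1 + w2 + (∑ x ∈ X1, x + ∑ x ∈ X2, x) =
            (w1 + ∑ x ∈ X1, x) + (w2 + ∑ x ∈ X2, x) := by abel
        rw [e]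
        exact K.add_mem h1 h2

private theorem ca3_key (hXS : X ⊆ S) (hind : ∀ E ⊆ X, ∑ x ∈ E, x ∈ K → E = ∅)
    {w1 w2 : V} {X1 X2 : Finset V} (hX1 : X1 ⊆ X) (hX2 : X2 ⊆ X)
    (hW : guts K S X ≤ hat (hat K {w1}) {w2}) (h1 : w1 + ∑ x ∈ X1, x ∈ K)
    (h2 : w2 + ∑ x ∈ X2, x ∈ K) {Y : Finset V} (hY : Y ⊆ X)
    (hY1 : Y ⊆ X1 ∨ Disjoint Y X1) (hY2 : Y ⊆ X2 ∨ Disjoint Y X2) {w : V}
    (hw : w ∈ guts K S Y) :
    w ∈ K ∨ (w + ∑ x ∈ Y, x ∈ K ∧ ¬ (Disjoint Y X1 ∧ Disjoint Y X2)) := by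
  rw [guts_sub hY hXS] at hw
  obtain ⟨hw1, hw2⟩ := hw
  obtain ⟨T, hTY, hT⟩ := (mem_hat_iff K Y w).1 hw1
  obtain ⟨a, ha, b, hb, hab⟩ := Submodule.mem_sup.1 hw2
  obtain ⟨T', hT'Y, hT'⟩ := (mem_hat_iff K (X \ Y) a).1 ha
  obtain ⟨Z, hZ, hbZ⟩ := ca3_mem hW h1 h2 hb
  have hZX : Z ⊆ X := by
    rcases hZ with rfl | rfl | rfl | rfl
    · exact Finset.empty_subset _
    · exact hX1
    · exact hX2
    · intro x hx
      rw [Finset.mem_symmDiff] at hx
      rcases hx with hx | hx
      · exact hX1 hx.1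
      · exact hX2 hx.1
  -- the symmetric difference vanishes
  have hE : symmDiff (symmDiff T T') Z = ∅ := by
    apply hind
    · intro x hx
      rw [Finset.mem_symmDiff, Finset.mem_symmDiff] at hx
      by_cases hxZ : x ∈ Z
      · exact hZX hxZ
      · rcases hx with hx | hx
        · rcases hx.1 with hx | hx
          · exact hY (hTY hx.1)
          · exact (Finset.mem_sdiff.1 (hT'Y hx.1)).1
        · exact absurd hx.1 hxZ
    · rw [ca3_sum_symmDiff, ca3_sum_symmDiff]
      have e : ∑ x ∈ T, x + ∑ x ∈ T', x + ∑ x ∈ Z, x =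
          (w + ∑ x ∈ T, x) + (a + ∑ x ∈ T', x) + (b + ∑ x ∈ Z, x) := by
        have h3 := add_self2 w
        calc ∑ x ∈ T, x + ∑ x ∈ T', x + ∑ x ∈ Z, x
            = ∑ x ∈ T, x + ∑ x ∈ T', x + ∑ x ∈ Z, x + (w + w) := by rw [h3, add_zero]
          _ = ∑ x ∈ T, x + ∑ x ∈ T', x + ∑ x ∈ Z, x + (w + (a + b)) := by rw [hab]
          _ = _ := by abel
      rw [e]
      exact K.add_mem (K.add_mem hT hT') hbZ
  have hmem : ∀ x ∈ Y, (x ∈ T ↔ x ∈ Z) := by
    intro x hx
    have hxT' : x ∉ T' := fun h => (Finset.mem_sdiff.1 (hT'Y h)).2 hx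
    have h3 : x ∉ symmDiff (symmDiff T T') Z := by
      rw [hE]
      exact Finset.notMem_empty x
    rw [Finset.mem_symmDiff, Finset.mem_symmDiff] at h3
    tauto
  -- all or nothing
  have hall : (∀ x ∈ Y, x ∈ Z) ∨ (∀ x ∈ Y, x ∉ Z) := by
    rcases hZ with rfl | rfl | rfl | rfl
    · exact Or.inr fun x _ => Finset.notMem_empty x
    · rcases hY1 with h | h
      · exact Or.inl fun x hx => h hx
      · exact Or.inr fun x hx => Finset.disjoint_left.1 h hx
    · rcases hY2 with h | h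
      · exact Or.inl fun x hx => h hx
      · exact Or.inr fun x hx => Finset.disjoint_left.1 h hx
    · rcases hY1 with h | h <;> rcases hY2 with h' | h'
      · right
        intro x hx hxs
        rw [Finset.mem_symmDiff] at hxs
        have := h hx
        have := h' hx
        tauto
      · left
        intro x hx
        rw [Finset.mem_symmDiff]
        exact Or.inl ⟨h hx, Finset.disjoint_left.1 h' hx⟩
      · left
        intro x hx
        rw [Finset.mem_symmDiff]
        exact Or.inr ⟨h' hx, Finset.disjoint_left.1 h hx⟩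
      · right
        intro x hx hxs
        rw [Finset.mem_symmDiff] at hxs
        have := Finset.disjoint_left.1 h hx
        have := Finset.disjoint_left.1 h' hx
        tauto
  rcases hall with h | h
  · have hTY' : T = Y := by
      apply Finset.Subset.antisymm hTY
      intro x hx
      exact (hmem x hx).2 (h x hx)
    rw [hTY'] at hT
    rcases Y.eq_empty_or_nonempty with hYe | ⟨y, hy⟩
    · left
      rw [hYe, Finset.sum_empty, add_zero] at hT
      exact hT
    · right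
      refine ⟨hT, ?_⟩
      rintro ⟨d1, d2⟩
      have hyZ := h y hy
      have n1 := Finset.disjoint_left.1 d1 hy
      have n2 := Finset.disjoint_left.1 d2 hy
      rcases hZ with rfl | rfl | rfl | rfl
      · exact Finset.notMem_empty _ hyZ
      · exact n1 hyZ
      · exact n2 hyZ
      · rw [Finset.mem_symmDiff] at hyZ
        tauto
  · left
    have hTe : T = ∅ := by
      rw [Finset.eq_empty_iff_forall_notMem]
      intro x hx
      exact h x (hTY hx) ((hmem x (hTY hx)).1 hx)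
    rw [hTe, Finset.sum_empty, add_zero] at hT
    exact hT

theorem card_le_three_of_indep (sub : ∀ X Y, sm X → Y ⊆ X → sm Y) (sS : ∀ X, sm X → X ⊆ S)
    (c1 : ∀ Y, sm Y → Y.Nonempty → 1 ≤ lam K S Y) (c2 : ∀ Y, sm Y → 2 ≤ Y.card → 2 ≤ lam K S Y)
    (hX : sm X) (hl : lam K S X ≤ 2) (hind : ∀ E ⊆ X, ∑ x ∈ E, x ∈ K → E = ∅) :
    X.card ≤ 3 := by
  have hXS := sS X hX
  have hW2 : finrank F2 (guts K S X) ≤ finrank F2 K + 2 := by
    rw [← lam_add]
    omega
  obtain ⟨w1, hw1, w2, hw2, hW⟩ := ca3_span (le_guts K S X) hW2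
  have hw1X : w1 ∈ hat K (X : Set V) := hw1.1
  have hw2X : w2 ∈ hat K (X : Set V) := hw2.1
  obtain ⟨X1, hX1, h1⟩ := (mem_hat_iff K X w1).1 hw1X
  obtain ⟨X2, hX2, h2⟩ := (mem_hat_iff K X w2).1 hw2X
  -- order at most one
  have hone : ∀ Y ⊆ X, (Y ⊆ X1 ∨ Disjoint Y X1) → (Y ⊆ X2 ∨ Disjoint Y X2) → Y.card ≤ 1 := by
    intro Y hY hY1 hY2
    by_contra hc
    have hl2 := c2 Y (sub X Y hX hY) (by omega)
    have hle : guts K S Y ≤ hat K (({∑ x ∈ Y, x} : Finset V) : Set V) := by
      intro w hw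
      rw [Finset.coe_singleton, mem_hat_singleton]
      rcases ca3_key hXS hind hX1 hX2 hW h1 h2 hY hY1 hY2 hw with h | h
      · exact Or.inl h
      · exact Or.inr h.1
    have hf := Submodule.finrank_mono hle
    have hf2 := finrank_hat_le K ({∑ x ∈ Y, x} : Finset V)
    rw [Finset.card_singleton] at hf2
    have hf3 := lam_add K S Y
    omega
  have hzero : ∀ Y ⊆ X, Disjoint Y X1 → Disjoint Y X2 → Y = ∅ := by
    intro Y hY hY1 hY2
    by_contra hc
    have hl1 := c1 Y (sub X Y hX hY) (Finset.nonempty_iff_ne_empty.2 hc)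
    have hle : guts K S Y ≤ K := by
      intro w hw
      rcases ca3_key hXS hind hX1 hX2 hW h1 h2 hY (Or.inr hY1) (Or.inr hY2) hw with h | h
      · exact h
      · exact absurd ⟨hY1, hY2⟩ h.2
    have hf := Submodule.finrank_mono hle
    have hf3 := lam_add K S Y
    omega
  have ha : X \ (X1 ∪ X2) = ∅ := by
    apply hzero _ Finset.sdiff_subset
    · exact Finset.disjoint_of_subset_right Finset.subset_union_left Finset.sdiff_disjoint
    · exact Finset.disjoint_of_subset_right Finset.subset_union_right Finset.sdiff_disjoint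
  have hb : (X1 ∩ X2).card ≤ 1 :=
    hone _ (Finset.inter_subset_left.trans hX1) (Or.inl Finset.inter_subset_left)
      (Or.inl Finset.inter_subset_right)
  have hc : (X1 \ X2).card ≤ 1 :=
    hone _ (Finset.sdiff_subset.trans hX1) (Or.inl Finset.sdiff_subset)
      (Or.inr Finset.sdiff_disjoint)
  have hd : (X2 \ X1).card ≤ 1 :=
    hone _ (Finset.sdiff_subset.trans hX2) (Or.inr Finset.sdiff_disjoint)
      (Or.inl Finset.sdiff_subset)
  have hcov : X ⊆ ((X1 ∩ X2) ∪ (X1 \ X2)) ∪ (X2 \ X1) := by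
    intro x hx
    have hx' : x ∈ X1 ∪ X2 := by
      by_contra h
      have h3 : x ∈ X \ (X1 ∪ X2) := Finset.mem_sdiff.2 ⟨hx, h⟩
      rw [ha] at h3
      exact Finset.notMem_empty x h3
    simp only [Finset.mem_union, Finset.mem_inter, Finset.mem_sdiff] at hx' ⊢
    tauto
  have h3 := Finset.card_le_card hcov
  have h4 := Finset.card_union_le ((X1 ∩ X2) ∪ (X1 \ X2)) (X2 \ X1)
  have h5 := Finset.card_union_le (X1 ∩ X2) (X1 \ X2)
  omega

end Pool.Agent.HC
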