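import Pool.Agent.HC.Ca1
import Pool.Agent.HC.Ca2
import Pool.Agent.HC.Ca3

/-!
# HC-Ca4: small sets of order at most two are tiny (1.4, assembly)

`c3`: `lam K S X ≤ 2`, suppose `4 ≤ X.card`. By `c2`, `lam K S X = 2`. By `card_le_three_of_indep` some
nonempty subset of `X` has sum in `K`; take one, `C`, of smallest cardinality; `MinCex.exists_TD` gives
`F, D`; `D.card = 3 < X.card`, so `((S \ X) ∪ D).card < S.card`; `red` with `j = 2` (using `c2`),
`gl`, `TD.glue_back`, contradiction to `ng`.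
-/

namespace Pool.Agent.HC

open Finset Module

variable {V : Type} [AddCommGroup V] [Module F2 V] [DecidableEq V] [FiniteDimensional F2 V]
  {K : Submodule F2 V} {S : Finset V} {sm : Finset V → Prop}

theorem MinCex.tight (h : MinCex K S sm) : Tight K S sm := by
  classical
  refine ⟨h.sub, h.sS, h.nz, h.npar, fun X hX hne => h.c1 hX hne, fun X hX hc => h.c2 hX hc, ?_⟩
  intro X hX hl
  by_contra hcon
  have hc4 : 4 ≤ X.card := by omega
  have hl2 : lam K S X = 2 := le_antisymm hl (h.c2 hX (by omega))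
  have hex : ∃ E ⊆ X, ∑ x ∈ E, x ∈ K ∧ E.Nonempty := by
    by_contra hno
    have := card_le_three_of_indep h.sub h.sS (fun Y hY hne => h.c1 hY hne)
      (fun Y hY hc => h.c2 hY hc) hX hl (fun E hE hs => by
        by_contra hE0
        exact hno ⟨E, hE, hs, Finset.nonempty_iff_ne_empty.2 hE0⟩)
    omega
  obtain ⟨E0, hE0, hE0s, hE0n⟩ := hex
  obtain ⟨C, hC, hCmin⟩ := Finset.exists_min_image
    (X.powerset.filter (fun E => ∑ x ∈ E, x ∈ K ∧ E.Nonempty)) Finset.card
    ⟨E0, by rw [Finset.mem_filter, Finset.mem_powerset]; exact ⟨hE0, hE0s, hE0n⟩⟩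
  rw [Finset.mem_filter, Finset.mem_powerset] at hC
  obtain ⟨hCX, hCs, hCn⟩ := hC
  have hmin : ∀ E ⊂ C, E.Nonempty → ∑ x ∈ E, x ∉ K := by
    intro E hE hEn hEs
    have h1 := hCmin E (by
      rw [Finset.mem_filter, Finset.mem_powerset]
      exact ⟨hE.1.trans hCX, hEs, hEn⟩)
    have h2 := Finset.card_lt_card hE
    omega
  obtain ⟨F, D, hTD⟩ := h.exists_TD (fun Y hY hc => h.c2 hY hc) hX hl2 hCX hCn hCs hmin
  have hcard : ((S \ X) ∪ D).card < S.card := by
    have h1 : ((S \ X) ∪ D).card ≤ (S \ X).card + D.card := Finset.card_union_le _ _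
    have h2 : (S \ X).card + X.card = S.card := Finset.card_sdiff_add_card_eq_card hTD.XS
    have h3 := hTD.card
    norm_num at h3
    omega
  exact h.ng (hTD.glue_back le_rfl (h.gl X hX hl)
    (h.red X F D 2 hX hTD le_rfl (fun _ Y hY hc => h.c2 hY hc) hcard))

end Pool.Agent.HC
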