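import Pool.Agent.HC.Gr1

/-!
# HC-Gr5: a clique has a unique representation
-/

namespace Pool.Agent.HC

open Finset Module

variable {V : Type} [AddCommGroup V] [Module F2 V]

private theorem gr5_pr_apply {U : Type} [DecidableEq U] (u v w : U) :
    pr u v w = (if w = u then 1 else 0) + (if w = v then 1 else 0) := by
  unfold pr
  rw [Pi.add_apply, Pi.single_apply, Pi.single_apply]

private theorem gr5_pr_self {U : Type} [DecidableEq U] (u : U) : pr u u = 0 := by
  funext w
  rw [gr5_pr_apply]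
  exact add_self2 (V := F2) _

private theorem gr5_pr_comm {U : Type} [DecidableEq U] (u v : U) : pr u v = pr v u := by
  unfold pr
  exact add_comm _ _

private theorem gr5_pr_add {U : Type} [DecidableEq U] (u v w : U) :
    pr u v + pr u w = pr v w := by
  unfold pr
  have h : ∀ x y z : U → F2, x + y + (x + z) = y + z := fun x y z => by
    rw [add_comm x y, add_assoc, ← add_assoc x x z, add_self2, zero_add]
  exact h _ _ _

private theorem gr5_pr_left {U : Type} [DecidableEq U] {u v : U} (h : u ≠ v) : pr u v u = 1 := by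
  rw [gr5_pr_apply, if_pos rfl, if_neg h, add_zero]

private theorem gr5_pr_right {U : Type} [DecidableEq U] {u v : U} (h : u ≠ v) : pr u v v = 1 := by
  rw [gr5_pr_comm]
  exact gr5_pr_left (Ne.symm h)

private theorem gr5_mem {U : Type} [DecidableEq U] {u v w : U} (h : pr u v w = 1) :
    w = u ∨ w = v := by
  by_contra hn
  push Not at hn
  rw [gr5_pr_apply, if_neg hn.1, if_neg hn.2, add_zero] at h
  exact absurd h (by decide)

private theorem gr5_pr_ne {U : Type} [DecidableEq U] {u v : U} (h : u ≠ v) : pr u v ≠ 0 := by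
  intro h0
  have h1 := gr5_pr_left h
  rw [h0, Pi.zero_apply] at h1
  exact absurd h1 (by decide)

/-- two edges whose sum is an edge have a common vertex -/
private theorem gr5_common {U : Type} [DecidableEq U] {a b c d e g : U} (hab : a ≠ b)
    (hcd : c ≠ d) (heg : e ≠ g) (h : pr a b + pr c d = pr e g) :
    ∃ p q r, p ≠ q ∧ p ≠ r ∧ q ≠ r ∧ pr a b = pr p q ∧ pr c d = pr p r := by
  have key : ∀ p q r : U, p ≠ q → p ≠ r → pr a b = pr p q → pr c d = pr p r →
      ∃ p q r, p ≠ q ∧ p ≠ r ∧ q ≠ r ∧ pr a b = pr p q ∧ pr c d = pr p r := by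
    intro p q r h1 h2 h3 h4
    refine ⟨p, q, r, h1, h2, ?_, h3, h4⟩
    rintro rfl
    rw [h3, h4, add_self2] at h
    exact gr5_pr_ne heg h.symm
  by_cases hac : a = c
  · exact key a b d hab (hac ▸ hcd) rfl (by rw [hac])
  by_cases had : a = d
  · exact key a b c hab hac rfl (by rw [had, gr5_pr_comm])
  by_cases hbc : b = c
  · exact key b a d (Ne.symm hab) (hbc ▸ hcd) (gr5_pr_comm _ _) (by rw [hbc])
  by_cases hbd : b = d
  · exact key b a c (Ne.symm hab) hbc (gr5_pr_comm _ _) (by rw [hbd, gr5_pr_comm])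
  exfalso
  have hz : ∀ x y w : U, w ≠ x → w ≠ y → pr x y w = 0 := by
    intro x y w h1 h2
    rw [gr5_pr_apply, if_neg h1, if_neg h2, add_zero]
  have ha : pr e g a = 1 := by
    rw [← h, Pi.add_apply, gr5_pr_left hab, hz c d a hac had, add_zero]
  have hb : pr e g b = 1 := by
    rw [← h, Pi.add_apply, gr5_pr_right hab, hz c d b hbc hbd, add_zero]
  have hc : pr e g c = 1 := by
    rw [← h, Pi.add_apply, gr5_pr_left hcd, hz a b c (Ne.symm hac) (Ne.symm hbc), zero_add]
  rcases gr5_mem ha with h1 | h1 <;> rcases gr5_mem hb with h2 | h2 <;>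
    rcases gr5_mem hc with h3 | h3
  · exact hab (h1.trans h2.symm)
  · exact hab (h1.trans h2.symm)
  · exact hac (h1.trans h3.symm)
  · exact hbc (h2.trans h3.symm)
  · exact hbc (h2.trans h3.symm)
  · exact hac (h1.trans h3.symm)
  · exact hab (h1.trans h2.symm)
  · exact hab (h1.trans h2.symm)

/-- all edges at the index `i0` have a common vertex -/
private theorem gr5_star {U : Type} [DecidableEq U] {n : ℕ} (φ : V →ₗ[F2] (U → F2))
    (f : Fin n → V) (h : ∀ i j, i ≠ j → ∃ u v, u ≠ v ∧ φ (f i + f j) = pr u v)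
    (hind : ∀ T : Finset (Fin n), Even T.card → φ (∑ i ∈ T, f i) = 0 → T = ∅)
    (i0 i1 i2 : Fin n) (h01 : i0 ≠ i1) (h02 : i0 ≠ i2) (h12 : i1 ≠ i2) :
    ∃ p : U, ∀ i, ∃ v, φ (f i0 + f i) = pr p v := by
  have hadd : ∀ i j, φ (f i0 + f i) + φ (f i0 + f j) = φ (f i + f j) := by
    intro i j
    rw [← map_add]
    congr 1
    rw [add_comm (f i0) (f i), add_assoc, ← add_assoc (f i0) (f i0), add_self2, zero_add]
  obtain ⟨a, b, hab, h1⟩ := h i0 i1 h01
  obtain ⟨c, d, hcd, h2⟩ := h i0 i2 h02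
  obtain ⟨e, g, heg, h3⟩ := h i1 i2 h12
  have h4 : pr a b + pr c d = pr e g := by
    rw [← h1, ← h2, ← h3, hadd]
  obtain ⟨p, q, r, hpq, hpr, hqr, h5, h6⟩ := gr5_common hab hcd heg h4
  rw [h5] at h1
  rw [h6] at h2
  refine ⟨p, fun i => ?_⟩
  by_cases hi0 : i = i0
  · refine ⟨p, ?_⟩
    rw [hi0, add_self2, map_zero, gr5_pr_self]
  by_cases hi1 : i = i1
  · exact ⟨q, by rw [hi1, h1]⟩
  by_cases hi2 : i = i2
  · exact ⟨r, by rw [hi2, h2]⟩
  obtain ⟨u, v, huv, h7⟩ := h i0 i (Ne.symm hi0)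
  obtain ⟨e1, g1, he1, h8⟩ := h i1 i (Ne.symm hi1)
  obtain ⟨e2, g2, he2, h9⟩ := h i2 i (Ne.symm hi2)
  have h10 : pr p q + pr u v = pr e1 g1 := by rw [← h1, ← h7, ← h8, hadd]
  have h11 : pr p r + pr u v = pr e2 g2 := by rw [← h2, ← h7, ← h9, hadd]
  obtain ⟨p1, q1, r1, k1, k2, k3, k4, k5⟩ := gr5_common hpq huv he1 h10
  obtain ⟨p2, q2, r2, l1, l2, l3, l4, l5⟩ := gr5_common hpr huv he2 h11
  have m1 : p1 = p ∨ p1 = q := gr5_mem (by rw [k4]; exact gr5_pr_left k1)
  have m2 : p2 = p ∨ p2 = r := gr5_mem (by rw [l4]; exact gr5_pr_left l1)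
  rcases m1 with m1 | m1
  · exact ⟨r1, by rw [h7, k5, m1]⟩
  rcases m2 with m2 | m2
  · exact ⟨r2, by rw [h7, l5, m2]⟩
  exfalso
  rw [m1] at k5
  rw [m2] at l5 l2
  have n1 : pr q r1 r = 1 := by
    rw [← k5, l5]
    exact gr5_pr_left l2
  have n2 : r = r1 := by
    rcases gr5_mem n1 with n3 | n3
    · exact absurd n3 (Ne.symm hqr)
    · exact n3
  have n3 : φ (f i0 + f i1) + φ (f i0 + f i2) + φ (f i0 + f i) = 0 := by
    rw [h1, h2, h7, k5, ← n2, gr5_pr_add, add_self2]
  have n4 : φ (∑ j ∈ ({i0, i1, i2, i} : Finset (Fin n)), f j) = 0 := by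
    rw [sum_insert, sum_insert, sum_insert, sum_singleton, ← n3, ← map_add, ← map_add]
    · congr 1
      have n5 : f i0 + f i1 + (f i0 + f i2) + (f i0 + f i) =
          (f i0 + f i0) + (f i0 + (f i1 + (f i2 + f i))) := by abel
      rw [n5, add_self2, zero_add]
    · rw [mem_singleton]
      exact Ne.symm hi2
    · rw [mem_insert, mem_singleton]
      push Not
      exact ⟨h12, Ne.symm hi1⟩
    · rw [mem_insert, mem_insert, mem_singleton]
      push Not
      exact ⟨h01, h02, Ne.symm hi0⟩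
  have n6 : ({i0, i1, i2, i} : Finset (Fin n)).card = 4 := by
    rw [card_insert_of_notMem, card_insert_of_notMem, card_insert_of_notMem, card_singleton]
    · rw [mem_singleton]
      exact Ne.symm hi2
    · rw [mem_insert, mem_singleton]
      push Not
      exact ⟨h12, Ne.symm hi1⟩
    · rw [mem_insert, mem_insert, mem_singleton]
      push Not
      exact ⟨h01, h02, Ne.symm hi0⟩
  have n7 := hind _ (by rw [n6]; decide) n4
  rw [n7, card_empty] at n6
  exact absurd n6 (by decide)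

theorem clique_rep {U : Type} [DecidableEq U] {n : ℕ} (hn : 3 ≤ n) (φ : V →ₗ[F2] (U → F2))
    (f : Fin n → V) (h : ∀ i j, i ≠ j → ∃ u v, u ≠ v ∧ φ (f i + f j) = pr u v)
    (hind : ∀ T : Finset (Fin n), Even T.card → φ (∑ i ∈ T, f i) = 0 → T = ∅) :
    ∃ a : Fin n → U, Function.Injective a ∧ ∀ i j, φ (f i + f j) = pr (a i) (a j) := by
  set i0 : Fin n := ⟨0, by omega⟩ with hi0
  set i1 : Fin n := ⟨1, by omega⟩ with hi1
  set i2 : Fin n := ⟨2, by omega⟩ with hi2
  obtain ⟨p, hp⟩ := gr5_star φ f h hind i0 i1 i2 (by simp [hi0, hi1]) (by simp [hi0, hi2])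
    (by simp [hi1, hi2])
  choose a ha using hp
  have hE : ∀ i j, φ (f i + f j) = pr (a i) (a j) := by
    intro i j
    rw [← gr5_pr_add p (a i) (a j), ← ha i, ← ha j, ← map_add]
    congr 1
    have n5 : f i0 + f i + (f i0 + f j) = (f i0 + f i0) + (f i + f j) := by abel
    rw [n5, add_self2, zero_add]
  refine ⟨a, ?_, hE⟩
  intro i j hij
  by_contra hne
  obtain ⟨u, v, huv, h1⟩ := h i j hne
  rw [hE, hij, gr5_pr_self] at h1
  exact gr5_pr_ne huv h1.symm

end Pool.Agent.HC
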