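import Pool.Agent.HC.Gr1

/-!
# HC-Gr6: cliques and the excluded minor, basics

`HasO.mono`: enlarge `F` (use `hat_hat`).
`IsClique.mem_hat`: every vector of `hat K B` is an even sum of the `f i` modulo `K`: by `mem_hat_iff`
it is a sum of elements of `B` modulo `K`, and `∑ T + ∑ T' = ∑ (T Δ T')` in characteristic two
(symmetric differences of even sets are even).
`IsClique.sum_mem`: induction on the cardinality, removing two elements: `f i + f j` is in
`hat K B` by `mem`.
`IsClique.mono`: `hat K B ⊓ L = K`: an even sum `∑ T f` lies in `hat K B`, so if it is in `L` it is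
in `K`. The same for `uniq`; `mem` and `sub` by `K ≤ L`.
-/

namespace Pool.Agent.HC

open Finset Module

variable {V : Type} [AddCommGroup V] [Module F2 V] [DecidableEq V]

theorem HasO.mono {m : ℕ} {K : Submodule F2 V} {S S' F : Finset V}
    (h : HasO m (hat K (F : Set V)) S') (hF : F ⊆ S) (hS : S' ⊆ S) : HasO m K S := by
  obtain ⟨F', f, a, b, c, d, h1, h2, h3, h4, h5, h6, h7, h8, h9, x, hx, hx2⟩ := h
  have e : hat (hat K (F : Set V)) (F' : Set V) = hat K ((F ∪ F' : Finset V) : Set V) := by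
    rw [hat_hat, Finset.coe_union]
  rw [e] at hx2
  refine ⟨F ∪ F', f, a, b, c, d, Finset.union_subset hF (h1.trans hS), ?_, ?_, h4, h5, h6, h7, h8,
    h9, x, hS hx, hx2⟩
  · intro T hT hT2
    rw [← e] at hT2
    exact h2 T hT hT2
  · intro i j hij
    obtain ⟨y, hy, hy2⟩ := h3 i j hij
    rw [e] at hy2
    exact ⟨y, hS hy, hy2⟩

omit [DecidableEq V] in
private theorem sum_symmDiff2 {ι : Type} [DecidableEq ι] (g : ι → V) (A B : Finset ι) :
    ∑ i ∈ symmDiff A B, g i = ∑ i ∈ A, g i + ∑ i ∈ B, g i := by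
  have h1 : ∑ i ∈ A, g i = ∑ i ∈ A \ B, g i + ∑ i ∈ A ∩ B, g i := by
    rw [add_comm]; exact (Finset.sum_inter_add_sum_sdiff A B g).symm
  have h2 : ∑ i ∈ B, g i = ∑ i ∈ B \ A, g i + ∑ i ∈ A ∩ B, g i := by
    rw [add_comm, Finset.inter_comm]; exact (Finset.sum_inter_add_sum_sdiff B A g).symm
  have h3 : ∑ i ∈ symmDiff A B, g i = ∑ i ∈ A \ B, g i + ∑ i ∈ B \ A, g i := by
    rw [symmDiff_def, Finset.sup_eq_union, Finset.sum_union]
    exact disjoint_sdiff_sdiff
  rw [h1, h2, h3]
  have h4 := add_self2 (∑ i ∈ A ∩ B, g i)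
  calc ∑ i ∈ A \ B, g i + ∑ i ∈ B \ A, g i
      = ∑ i ∈ A \ B, g i + ∑ i ∈ B \ A, g i + (∑ i ∈ A ∩ B, g i + ∑ i ∈ A ∩ B, g i) := by
        rw [h4, add_zero]
    _ = _ := by abel

private theorem even_symmDiff {ι : Type} [DecidableEq ι] {A B : Finset ι} (hA : Even A.card)
    (hB : Even B.card) : Even (symmDiff A B).card := by
  have h1 : (symmDiff A B).card = (A \ B).card + (B \ A).card := by
    rw [symmDiff_def, Finset.sup_eq_union, Finset.card_union_of_disjoint]
    exact disjoint_sdiff_sdiff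
  have h2 := Finset.card_sdiff_add_card_inter A B
  have h3 := Finset.card_sdiff_add_card_inter B A
  rw [Finset.inter_comm] at h3
  rw [Nat.even_iff] at *
  omega

theorem IsClique.mem_hat {K : Submodule F2 V} {n : ℕ} {f : Fin n → V} {B : Finset V}
    (h : IsClique K f B) {x : V} (hx : x ∈ hat K (B : Set V)) :
    ∃ T : Finset (Fin n), Even T.card ∧ x + ∑ i ∈ T, f i ∈ K := by
  obtain ⟨D, hD, hD2⟩ := (mem_hat_iff K B x).1 hx
  have key : ∀ D : Finset V, D ⊆ B →
      ∃ T : Finset (Fin n), Even T.card ∧ ∑ y ∈ D, y + ∑ i ∈ T, f i ∈ K := by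
    intro D
    induction D using Finset.induction_on with
    | empty => intro _; exact ⟨∅, by simp, by simp⟩
    | insert b D hb ih =>
      intro hD
      obtain ⟨T, hT, hT2⟩ := ih ((Finset.subset_insert b D).trans hD)
      obtain ⟨i, j, hij, hb2⟩ := h.sub b (hD (Finset.mem_insert_self b D))
      refine ⟨symmDiff {i, j} T, even_symmDiff ?_ hT, ?_⟩
      · rw [Finset.card_pair hij]; decide
      · rw [sum_symmDiff2, Finset.sum_pair hij, Finset.sum_insert hb]
        have := K.add_mem hb2 hT2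
        convert this using 1
        abel
  obtain ⟨T, hT, hT2⟩ := key D hD
  refine ⟨T, hT, ?_⟩
  have := K.add_mem hD2 hT2
  have h4 := add_self2 (∑ y ∈ D, y)
  have h5 : x + ∑ y ∈ D, y + (∑ y ∈ D, y + ∑ i ∈ T, f i) =
      x + ∑ i ∈ T, f i + (∑ y ∈ D, y + ∑ y ∈ D, y) := by abel
  rw [h5, h4, add_zero] at this
  exact this

omit [DecidableEq V] in
private theorem mem_of_add {L : Submodule F2 V} {x y : V} (h : x + y ∈ L) (hx : x ∈ L) : y ∈ L := by
  rw [add_comm] at h
  exact mem_of_add_mem2 h hx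

theorem IsClique.sum_mem {K : Submodule F2 V} {n : ℕ} {f : Fin n → V} {B : Finset V}
    (h : IsClique K f B) (T : Finset (Fin n)) (hT : Even T.card) :
    ∑ i ∈ T, f i ∈ hat K (B : Set V) := by
  induction hc : T.card using Nat.strong_induction_on generalizing T with
  | _ c ih =>
    rcases Finset.eq_empty_or_nonempty T with rfl | ⟨i, hi⟩
    · simp
    · have h1 : (T.erase i).card = T.card - 1 := Finset.card_erase_of_mem hi
      have h0 : 0 < T.card := Finset.card_pos.2 ⟨i, hi⟩
      have h2 : 0 < (T.erase i).card := by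
        rw [Nat.even_iff] at hT
        omega
      obtain ⟨j, hj⟩ := Finset.card_pos.1 h2
      have h3 : ((T.erase i).erase j).card = (T.erase i).card - 1 := Finset.card_erase_of_mem hj
      have h4 : Even ((T.erase i).erase j).card := by
        rw [Nat.even_iff] at *
        omega
      have h5 := ih _ (by omega) ((T.erase i).erase j) h4 rfl
      have hij : i ≠ j := (Finset.ne_of_mem_erase hj).symm
      obtain ⟨b, hb, hb2⟩ := h.mem i j hij
      have h6 : f i + f j ∈ hat K (B : Set V) :=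
        mem_of_add (le_hat K _ hb2) (subset_hat K _ hb)
      rw [← Finset.add_sum_erase T f hi, ← Finset.add_sum_erase (T.erase i) f hj, ← add_assoc]
      exact Submodule.add_mem _ h6 h5

/-- a clique stays a clique modulo a larger space which meets its span only in `K` -/
theorem IsClique.mono {K L : Submodule F2 V} {n : ℕ} {f : Fin n → V} {B : Finset V}
    (h : IsClique K f B) (hKL : K ≤ L) (hL : hat K (B : Set V) ⊓ L = K) : IsClique L f B where
  ind := by
    intro T hT hT2
    apply h.ind T hT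
    rw [← hL]
    exact ⟨h.sum_mem T hT, hT2⟩
  mem := by
    intro i j hij
    obtain ⟨b, hb, hb2⟩ := h.mem i j hij
    exact ⟨b, hb, hKL hb2⟩
  sub := by
    intro b hb
    obtain ⟨i, j, hij, hb2⟩ := h.sub b hb
    exact ⟨i, j, hij, hKL hb2⟩
  uniq := by
    intro b hb b' hb' hbb
    apply h.uniq b hb b' hb'
    rw [← hL]
    exact ⟨Submodule.add_mem _ (subset_hat K _ hb) (subset_hat K _ hb'), hbb⟩

end Pool.Agent.HC
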