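import Pool.Agent.HC.Gr6

/-!
# HC-Gr7: elements of the span of a clique

`clique_weight`: `x + ∑ T f ∈ K`. Suppose `T.card = w ≥ 4` (`w` is even). Pick four elements
`a, b, c, d` of `T` and pair off the other `w - 4` elements of `T` : pairs `(p k, q k)`,
`k < (w - 4) / 2`. `F := ` the elements of `B` in the classes
`f (p k) + f (q k)`. The new vertices: `a, b, c, d`, one of each pair, and all `i ∉ T`; their number is
`n - (w - 4) / 2 ≥ n - (n - 4) / 2 ≥ m` as `w ≤ n`, `n ≥ 2 m`. Choose an injection `Fin m → Fin n` onto a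
subset `R` of them containing `a, b, c, d` (here `4 ≤ m`). Independence modulo `hat K F`: if
`∑ T' f ∈ hat K F`, `T' ⊆ R` even, then `∑ T' f + ∑ (p k, q k) f ∈ K` for some set of the `k`, so the
symmetric difference of `T'` and a union of pairs is empty, and since `R` contains at most one of
each pair, `T' = ∅`. Finally `x + (f a + f b + f c + f d) = x + ∑ T f + ∑ pairs ∈ hat K F`. (Induction on
`(w - 4) / 2` with a general statement (`HasO` from `T.card = w`, hypothesis `m + (w - 4) / 2 ≤ n`),
contracting one pair at a time and using `HasO.mono` is an alternative: after contraction of `b` in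
the class of `f p + f q` drop the vertex `q`; reindex by `Fin (n - 1)` with `Fin.succAbove q`.)
`graphic_of_clique`: by `IsClique.mem_hat` and `clique_weight` every `x ∈ S` is in `K` or in the class of
some `f i + f j`. Choose linear functionals
`φ_i`, `i : Fin n`, vanishing on `K`, with `φ (f j + f 0) = pr j 0` (the `f j + f 0`, `j ≠ 0`, are independent
modulo `K`: work in `V ⧸ K`, extend to a basis). Kernel: `φ (∑ T f) = ` the characteristic vector of `T`,
`T` even.
-/

namespace Pool.Agent.HC

open Finset Module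

variable {V : Type} [AddCommGroup V] [Module F2 V] [DecidableEq V]

omit [DecidableEq V] in
private theorem sum_two_zero {n : ℕ} (T : Finset (Fin n)) (hT : Even T.card) (v : V) :
    ∑ _i ∈ T, v = 0 := by
  rw [sum_const]
  obtain ⟨k, hk⟩ := hT
  rw [hk, add_smul, add_self2]

private theorem pr_self {n : ℕ} (i : Fin n) : pr i i = (0 : Fin n → F2) := by
  unfold pr
  exact add_self2 _

omit [DecidableEq V] in
/-- coordinates on the span of a clique -/
private theorem exists_coord {n : ℕ} (hn : 1 ≤ n) {K : Submodule F2 V} {f : Fin n → V}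
    (hind : ∀ T : Finset (Fin n), Even T.card → ∑ i ∈ T, f i ∈ K → T = ∅) :
    ∃ φ : V →ₗ[F2] (Fin n → F2), (∀ v ∈ K, φ v = 0) ∧ (∀ i j, φ (f i + f j) = pr i j) ∧
      ∀ T : Finset (Fin n), Even T.card → ∀ j, φ (∑ i ∈ T, f i) j = if j ∈ T then 1 else 0 := by
  classical
  set o : Fin n := ⟨0, hn⟩ with ho
  -- independence
  have hli : LinearIndependent F2 (fun j : {j : Fin n // j ≠ o} => K.mkQ (f j + f o)) := by
    rw [linearIndependent_iff']
    intro s g hg
    set T1 : Finset (Fin n) := (s.filter (fun i => g i = 1)).map ⟨Subtype.val, Subtype.val_injective⟩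
      with hT1
    have hoT : o ∉ T1 := by
      rw [hT1, mem_map]
      rintro ⟨i, _, hi⟩
      exact i.2 hi
    have h1 : ∑ i ∈ T1, (f i + f o) ∈ K := by
      have h2 : ∑ i ∈ s, g i • K.mkQ (f i + f o) = K.mkQ (∑ i ∈ T1, (f i + f o)) := by
        rw [hT1, sum_map, map_sum, sum_filter]
        refine sum_congr rfl fun i _ => ?_
        rcases F2_cases (g i) with h | h
        · rw [h, zero_smul, if_neg (by norm_num)]
        · rw [h, one_smul, if_pos rfl]
          rfl
      rw [h2] at hg
      exact (Submodule.Quotient.mk_eq_zero K).1 hg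
    have h3 : T1 = ∅ := by
      rcases Nat.even_or_odd T1.card with he | hodd
      · apply hind T1 he
        rw [sum_add_distrib, sum_two_zero T1 he, add_zero] at h1
        exact h1
      · exfalso
        have h4 : insert o T1 = ∅ := by
          apply hind
          · rw [card_insert_of_notMem hoT]
            exact hodd.add_one
          · rw [sum_insert hoT]
            rw [sum_add_distrib, sum_const] at h1
            obtain ⟨k, hk⟩ := hodd
            rw [hk, add_smul, one_smul, mul_comm, mul_smul, two_smul, add_self2, smul_zero,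
              zero_add] at h1
            rw [add_comm]
            exact h1
        exact insert_ne_empty _ _ h4
    intro i hi
    rcases F2_cases (g i) with h | h
    · exact h
    · exfalso
      have : (i : Fin n) ∈ T1 := by
        rw [hT1, mem_map]
        exact ⟨i, mem_filter.2 ⟨hi, h⟩, rfl⟩
      rw [h3] at this
      exact absurd this (notMem_empty _)
  -- the map on the quotient
  obtain ⟨φ1, hφ1⟩ := LinearMap.exists_extend
    ((Basis.span hli).constr F2 (fun j : {j : Fin n // j ≠ o} => (pr (j : Fin n) o : Fin n → F2)))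
  have hφ2 : ∀ j : {j : Fin n // j ≠ o}, φ1 (K.mkQ (f j + f o)) = pr (j : Fin n) o := by
    intro j
    have h1 : K.mkQ (f j + f o) = ((Basis.span hli) j : V ⧸ K) := by
      rw [Basis.span_apply]
    have h2 := LinearMap.congr_fun hφ1 ((Basis.span hli) j)
    rw [Basis.constr_basis] at h2
    rw [h1]
    exact h2
  have hφ3 : ∀ j : Fin n, (φ1 ∘ₗ K.mkQ) (f j + f o) = pr j o := by
    intro j
    by_cases hj : j = o
    · rw [hj, add_self2, map_zero, pr_self]
    · exact hφ2 ⟨j, hj⟩
  refine ⟨φ1 ∘ₗ K.mkQ, ?_, ?_, ?_⟩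
  · intro v hv
    rw [LinearMap.comp_apply]
    have : K.mkQ v = 0 := (Submodule.Quotient.mk_eq_zero K).2 hv
    rw [this, map_zero]
  · intro i j
    have h1 : f i + f j = (f i + f o) + (f j + f o) := by
      have := add_self2 (f o)
      calc f i + f j = f i + f j + 0 := by rw [add_zero]
        _ = f i + f j + (f o + f o) := by rw [this]
        _ = _ := by abel
    rw [h1, map_add, hφ3, hφ3]
    unfold pr
    have h2 := add_self2 (Pi.single o 1 : Fin n → F2)
    calc (Pi.single i 1 + Pi.single o 1 + (Pi.single j 1 + Pi.single o 1) : Fin n → F2)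
        = Pi.single i 1 + Pi.single j 1 + (Pi.single o 1 + Pi.single o 1) := by abel
      _ = _ := by rw [h2, add_zero]
  · intro T hT j
    have h1 : ∑ i ∈ T, f i = ∑ i ∈ T, (f i + f o) := by
      rw [sum_add_distrib, sum_two_zero T hT, add_zero]
    rw [h1, map_sum, sum_congr rfl (fun i _ => hφ3 i)]
    unfold pr
    rw [sum_add_distrib, sum_two_zero T hT, add_zero, Finset.sum_apply]
    simp only [Pi.single_apply]
    rw [sum_ite_eq]

theorem clique_weight {m n : ℕ} (hm : 4 ≤ m) (hn : 2 * m ≤ n) {K : Submodule F2 V}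
    {S B : Finset V} {f : Fin n → V} (h : IsClique K f B) (hB : B ⊆ S) (hO : ¬ HasO m K S)
    {x : V} (hx : x ∈ S) (T : Finset (Fin n)) (hT : Even T.card) (hxT : x + ∑ i ∈ T, f i ∈ K) :
    T.card ≤ 2 := by
  classical
  by_contra hcon
  have hT4 : 4 ≤ T.card := by
    obtain ⟨k, hk⟩ := hT
    omega
  apply hO
  obtain ⟨φ, hφK, hφp, hφT⟩ := exists_coord (by omega) h.ind
  -- four elements
  obtain ⟨a, ha⟩ : T.Nonempty := by
    rw [← card_pos]
    omega
  obtain ⟨T3, hT3s, hT3c⟩ := exists_subset_card_eq (s := T.erase a) (n := 3) (by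
    rw [card_erase_of_mem ha]
    omega)
  obtain ⟨b, c, d, hbc, hbd, hcd, hT3e⟩ := card_eq_three.1 hT3c
  have hb : b ∈ T.erase a := hT3s (by rw [hT3e]; simp)
  have hc : c ∈ T.erase a := hT3s (by rw [hT3e]; simp)
  have hd : d ∈ T.erase a := hT3s (by rw [hT3e]; simp)
  rw [mem_erase] at hb hc hd
  set T0 : Finset (Fin n) := {a, b, c, d} with hT0
  have hT0c : T0.card = 4 := by
    rw [hT0, card_insert_of_notMem, card_insert_of_notMem, card_pair hcd]
    · simp only [mem_insert, mem_singleton, not_or]
      exact ⟨hbc, hbd⟩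
    · simp only [mem_insert, mem_singleton, not_or]
      exact ⟨hb.1.symm, hc.1.symm, hd.1.symm⟩
  have hT0T : T0 ⊆ T := by
    intro i hi
    rw [hT0] at hi
    simp only [mem_insert, mem_singleton] at hi
    rcases hi with rfl | rfl | rfl | rfl
    · exact ha
    · exact hb.2
    · exact hc.2
    · exact hd.2
  have hcardT : (T \ T0).card = T.card - 4 := by
    rw [card_sdiff_of_subset hT0T, hT0c]
  obtain ⟨P, hPs, hPc⟩ := exists_subset_card_eq (s := T \ T0) (n := (T.card - 4) / 2) (by
    rw [hcardT]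
    omega)
  set Q : Finset (Fin n) := (T \ T0) \ P with hQ
  have hQc : Q.card = (T.card - 4) / 2 := by
    rw [hQ, card_sdiff_of_subset hPs, hcardT, hPc]
    obtain ⟨k, hk⟩ := hT
    omega
  have hPQ : Disjoint P Q := disjoint_sdiff
  have hTn : T.card ≤ n := by
    have := card_le_univ T
    rwa [Fintype.card_fin] at this
  -- the pairing
  obtain ⟨σ, hσ⟩ : ∃ σ : Equiv.Perm (Fin n), ∀ i, i ∈ P → σ i ∈ Q := by
    have e : {i // i ∈ P} ≃ {i // i ∈ Q} := Finset.equivOfCardEq (hPc.trans hQc.symm)
    exact ⟨e.extendSubtype, fun i hi => e.extendSubtype_mem i hi⟩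
  have hσQ : P.image σ = Q := by
    apply eq_of_subset_of_card_le
    · intro j hj
      obtain ⟨i, hi, rfl⟩ := mem_image.1 hj
      exact hσ i hi
    · rw [card_image_of_injective _ σ.injective, hPc, hQc]
  have hsumQ : ∑ i ∈ Q, f i = ∑ i ∈ P, f (σ i) := by
    rw [← hσQ, sum_image (fun i _ j _ hij => σ.injective hij)]
  have hne : ∀ i, i ∈ P → i ≠ σ i := by
    intro i hi he
    have := hσ i hi
    rw [← he] at this
    exact disjoint_left.1 hPQ hi this
  have hy : ∀ i : Fin n, ∃ y, i ∈ P → y ∈ B ∧ y + (f i + f (σ i)) ∈ K := by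
    intro i
    by_cases hi : i ∈ P
    · obtain ⟨y, hyB, hyK⟩ := h.mem i (σ i) (hne i hi)
      exact ⟨y, fun _ => ⟨hyB, hyK⟩⟩
    · exact ⟨0, fun h => absurd h hi⟩
  choose y hy using hy
  set F : Finset V := P.image y with hF
  have hyF : ∀ i ∈ P, f i + f (σ i) ∈ hat K (F : Set V) := by
    intro i hi
    have h1 : y i ∈ hat K (F : Set V) := by
      apply subset_hat
      rw [hF]
      exact mem_coe.2 (mem_image_of_mem y hi)
    have h2 := le_hat K (F : Set V) (hy i hi).2
    rw [add_comm] at h2
    exact mem_of_add_mem2 h2 h1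
  -- vanishing on `hat K F`
  have hvan : ∀ v ∈ hat K (F : Set V), (∀ i ∈ P, φ v i = φ v (σ i)) ∧
      ∀ j, j ∉ P → j ∉ Q → φ v j = 0 := by
    let N : Submodule F2 V :=
      { carrier := {v | (∀ i ∈ P, φ v i = φ v (σ i)) ∧ ∀ j, j ∉ P → j ∉ Q → φ v j = 0}
        add_mem' := by
          rintro u v ⟨h1, h2⟩ ⟨h3, h4⟩
          refine ⟨fun i hi => ?_, fun j hj hj' => ?_⟩
          · rw [map_add, Pi.add_apply, Pi.add_apply, h1 i hi, h3 i hi]
          · rw [map_add, Pi.add_apply, h2 j hj hj', h4 j hj hj', add_zero]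
        zero_mem' := by
          refine ⟨fun i _ => ?_, fun j _ _ => ?_⟩
          · rw [map_zero]
            rfl
          · rw [map_zero]
            rfl
        smul_mem' := by
          rintro t u ⟨h1, h2⟩
          refine ⟨fun i hi => ?_, fun j hj hj' => ?_⟩
          · rw [map_smul, Pi.smul_apply, Pi.smul_apply, h1 i hi]
          · rw [map_smul, Pi.smul_apply, h2 j hj hj', smul_zero] }
    have hN : hat K (F : Set V) ≤ N := by
      apply hat_le
      · intro v hv
        have h1 := hφK v hv
        refine ⟨fun i _ => ?_, fun j _ _ => ?_⟩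
        · rw [h1]
          rfl
        · rw [h1]
          rfl
      · intro v hv
        rw [hF] at hv
        obtain ⟨i, hi, rfl⟩ := mem_image.1 (mem_coe.1 hv)
        have h1 : φ (y i) = pr i (σ i) := by
          have h2 := hφK _ (hy i hi).2
          rw [map_add, hφp, add_eq_iff2, zero_add] at h2
          exact h2
        refine ⟨fun k hk => ?_, fun j hj hj' => ?_⟩
        · rw [h1]
          unfold pr
          rw [Pi.add_apply, Pi.add_apply, Pi.single_apply, Pi.single_apply, Pi.single_apply,
            Pi.single_apply]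
          have h3 : k ≠ σ i := fun he => disjoint_left.1 hPQ hk (he ▸ hσ i hi)
          have h4 : σ k ≠ i := fun he => disjoint_left.1 hPQ hi (he ▸ hσ k hk)
          rw [if_neg h3, if_neg h4, add_zero, zero_add]
          by_cases h5 : k = i
          · rw [if_pos h5, if_pos (by rw [h5])]
          · rw [if_neg h5, if_neg (fun he => h5 (σ.injective he))]
        · rw [h1]
          unfold pr
          rw [Pi.add_apply, Pi.single_apply, Pi.single_apply, if_neg, if_neg, add_zero]
          · rintro rfl
            exact hj' (hσ i hi)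
          · rintro rfl
            exact hj hi
    exact fun v hv => hN hv
  -- the vertices
  set R : Finset (Fin n) := univ \ Q with hR
  have hRc : m ≤ R.card := by
    rw [hR, card_sdiff_of_subset (subset_univ _), card_univ, Fintype.card_fin, hQc]
    omega
  have hT0R : T0 ⊆ R := by
    intro i hi
    rw [hR, mem_sdiff]
    refine ⟨mem_univ _, ?_⟩
    rw [hQ, mem_sdiff, mem_sdiff]
    exact fun h => h.1.2 hi
  obtain ⟨R', hR'1, hR'2, hR'c⟩ := exists_subsuperset_card_eq hT0R (by omega : T0.card ≤ m) hRc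
  set g := R'.orderEmbOfFin hR'c with hg
  have hgR : ∀ i, g i ∈ R' := fun i => R'.orderEmbOfFin_mem hR'c i
  have hgs : ∀ j ∈ R', ∃ i, g i = j := by
    intro j hj
    have h1 := R'.range_orderEmbOfFin hR'c
    have h2 : j ∈ Set.range g := by
      rw [hg, h1]
      exact mem_coe.2 hj
    exact h2
  obtain ⟨a', ha'⟩ := hgs a (hR'1 (by rw [hT0]; simp))
  obtain ⟨b', hb'⟩ := hgs b (hR'1 (by rw [hT0]; simp))
  obtain ⟨c', hc'⟩ := hgs c (hR'1 (by rw [hT0]; simp))
  obtain ⟨d', hd'⟩ := hgs d (hR'1 (by rw [hT0]; simp))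
  refine ⟨F, fun i => f (g i), a', b', c', d', ?_, ?_, ?_, ?_, ?_, ?_, ?_, ?_, ?_, x, hx, ?_⟩
  · intro v hv
    rw [hF] at hv
    obtain ⟨i, hi, rfl⟩ := mem_image.1 hv
    exact hB (hy i hi).1
  · intro T' hT' hsum
    have h1 : ∑ i ∈ T', f (g i) = ∑ i ∈ T'.map g.toEmbedding, f i := by
      rw [sum_map]
      rfl
    rw [h1] at hsum
    have h2 := hvan _ hsum
    have h3 : Even (T'.map g.toEmbedding).card := by rwa [card_map]
    have h4 : ∀ j ∈ T'.map g.toEmbedding, j ∉ Q := by
      intro j hj
      obtain ⟨i, _, rfl⟩ := mem_map.1 hj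
      have := hR'2 (hgR i)
      rw [hR, mem_sdiff] at this
      exact this.2
    rw [eq_empty_iff_forall_notMem]
    intro i hi
    have h5 : g i ∈ T'.map g.toEmbedding := mem_map.2 ⟨i, hi, rfl⟩
    have h6 := hφT _ h3 (g i)
    rw [if_pos h5] at h6
    by_cases h7 : g i ∈ P
    · have h8 := h2.1 _ h7
      rw [h6, hφT _ h3, if_neg] at h8
      · exact one_ne_zero h8
      · exact fun h9 => h4 _ h9 (hσ _ h7)
    · have h8 := h2.2 _ h7 (h4 _ h5)
      rw [h6] at h8
      exact one_ne_zero h8
  · intro i j hij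
    obtain ⟨z, hz, hzK⟩ := h.mem (g i) (g j) (fun he => hij (g.injective he))
    exact ⟨z, hB hz, le_hat K _ hzK⟩
  · rintro rfl
    exact hb.1 (hb'.symm.trans ha')
  · rintro rfl
    exact hc.1 (hc'.symm.trans ha')
  · rintro rfl
    exact hd.1 (hd'.symm.trans ha')
  · rintro rfl
    exact hbc (hb'.symm.trans hc')
  · rintro rfl
    exact hbd (hb'.symm.trans hd')
  · rintro rfl
    exact hcd (hc'.symm.trans hd')
  · simp only [ha', hb', hc', hd']
    have h1 : ∑ i ∈ T, f i = (f a + f b + f c + f d) + ∑ i ∈ P, (f i + f (σ i)) := by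
      rw [← sum_sdiff hT0T, ← sum_sdiff hPs, ← hQ, hsumQ, sum_add_distrib, hT0, sum_insert,
        sum_insert, sum_pair hcd]
      · abel
      · simp only [mem_insert, mem_singleton, not_or]
        exact ⟨hbc, hbd⟩
      · simp only [mem_insert, mem_singleton, not_or]
        exact ⟨hb.1.symm, hc.1.symm, hd.1.symm⟩
    have h2 : ∑ i ∈ P, (f i + f (σ i)) ∈ hat K (F : Set V) := Submodule.sum_mem _ hyF
    have h3 := le_hat K (F : Set V) hxT
    rw [h1, ← add_assoc] at h3
    exact mem_of_add_mem2 h3 h2

theorem graphic_of_clique {m n : ℕ} (hm : 4 ≤ m) (hn : 2 * m ≤ n) {K : Submodule F2 V}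
    {S B : Finset V} {f : Fin n → V} (h : IsClique K f B) (hB : B ⊆ S) (hO : ¬ HasO m K S)
    (hS : ∀ x ∈ S, x ∈ hat K (B : Set V)) : Graphic K (S : Set V) := by
  classical
  obtain ⟨φ, hφK, hφp, hφT⟩ := exists_coord (by omega) h.ind
  have hval : ∀ (v : V) (T : Finset (Fin n)), v + ∑ i ∈ T, f i ∈ K → φ v = φ (∑ i ∈ T, f i) := by
    intro v T hv
    have h1 := hφK _ hv
    rw [map_add, add_eq_iff2, zero_add] at h1
    exact h1
  refine ⟨Fin n, inferInstance, inferInstance, φ, hφK, ?_, ?_⟩
  · intro v hv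
    have hvS : v ∈ S := mem_coe.1 hv
    obtain ⟨T, hTe, hvT⟩ := h.mem_hat (hS v hvS)
    have hc := clique_weight hm hn h hB hO hvS T hTe hvT
    have h2 := hval v T hvT
    have hc' : T.card = 0 ∨ T.card = 2 := by
      obtain ⟨k, hk⟩ := hTe
      omega
    rcases hc' with h0 | h0
    · left
      rw [card_eq_zero] at h0
      rw [h2, h0, sum_empty, map_zero]
    · right
      obtain ⟨i, j, hij, rfl⟩ := card_eq_two.1 h0
      refine ⟨i, j, hij, ?_⟩
      rw [h2, sum_pair hij, hφp]
  · intro v hv hv0
    have h1 : hat K (S : Set V) ≤ hat K (B : Set V) := by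
      apply hat_le (le_hat K _)
      intro w hw
      exact hS w (mem_coe.1 hw)
    obtain ⟨T, hTe, hvT⟩ := h.mem_hat (h1 hv)
    have h2 := hval v T hvT
    have h3 : T = ∅ := by
      rw [eq_empty_iff_forall_notMem]
      intro i hi
      have h4 := hφT T hTe i
      rw [if_pos hi, ← h2, hv0] at h4
      exact one_ne_zero h4.symm
    rw [h3, sum_empty, add_zero] at hvT
    exact hvT

end Pool.Agent.HC
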