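import Pool.Agent.HC.Lv2D
import Pool.Agent.HC.BasA
import Pool.Agent.HC.Gr6
import Pool.Agent.HC.Gr7

/-!
# HC-Q3: elementary operations on clique minors
-/

namespace Pool.Agent.HC

open Finset Module

variable {V : Type} [AddCommGroup V] [Module F2 V] [DecidableEq V] [FiniteDimensional F2 V]
  {K : Submodule F2 V} {S C : Finset V} {N : ℕ} {g : Fin N → V} {q : Fin N → Fin N → V}

omit [DecidableEq V] [FiniteDimensional F2 V] in
private theorem q3_add {L : Submodule F2 V} {x y : V} (h : x + y ∈ L) (hx : x ∈ L) : y ∈ L := by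
  rw [add_comm] at h
  exact mem_of_add_mem2 h hx

omit [DecidableEq V] [FiniteDimensional F2 V] in
private theorem q3_symm {ι : Type} [DecidableEq ι] (g : ι → V) (A B : Finset ι) :
    ∑ i ∈ symmDiff A B, g i = ∑ i ∈ A, g i + ∑ i ∈ B, g i := by
  have h1 : ∑ i ∈ A, g i = ∑ i ∈ A \ B, g i + ∑ i ∈ A ∩ B, g i := by
    rw [add_comm]; exact (Finset.sum_inter_add_sum_sdiff A B g).symm
  have h2 : ∑ i ∈ B, g i = ∑ i ∈ B \ A, g i + ∑ i ∈ A ∩ B, g i := by
    rw [add_comm, Finset.inter_comm]; exact (Finset.sum_inter_add_sum_sdiff B A g).symm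
  have h3 : ∑ i ∈ symmDiff A B, g i = ∑ i ∈ A \ B, g i + ∑ i ∈ B \ A, g i := by
    rw [symmDiff_def, Finset.sup_eq_union, Finset.sum_union]
    exact disjoint_sdiff_sdiff
  rw [h1, h2, h3]
  have h4 := add_self2 (∑ i ∈ A ∩ B, g i)
  calc ∑ i ∈ A \ B, g i + ∑ i ∈ B \ A, g i
      = ∑ i ∈ A \ B, g i + ∑ i ∈ B \ A, g i + (∑ i ∈ A ∩ B, g i + ∑ i ∈ A ∩ B, g i) := by
        rw [h4, add_zero]
    _ = _ := by abel

private theorem q3_even {ι : Type} [DecidableEq ι] {A B : Finset ι} (hA : Even A.card)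
    (hB : Even B.card) : Even (symmDiff A B).card := by
  have h1 : (symmDiff A B).card = (A \ B).card + (B \ A).card := by
    rw [symmDiff_def, Finset.sup_eq_union, Finset.card_union_of_disjoint]
    exact disjoint_sdiff_sdiff
  have h2 := Finset.card_sdiff_add_card_inter A B
  have h3 := Finset.card_sdiff_add_card_inter B A
  rw [Finset.inter_comm] at h3
  rw [Nat.even_iff] at *
  omega

omit [FiniteDimensional F2 V] in
/-- `x` is used by the clique minor -/
private theorem q3_used {x : V} (h : ¬ (x ∉ C ∧ ∀ i j, i ≠ j → q i j ≠ x)) :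
    x ∈ C ∨ ∃ i j, i ≠ j ∧ q i j = x := by
  by_cases hx : x ∈ C
  · exact Or.inl hx
  · right
    by_contra hcon
    push Not at hcon
    exact h ⟨hx, hcon⟩

theorem IsQ.q_not_mem (h : IsQ K S C g q) {i j : Fin N} (hij : i ≠ j) :
    q i j ∉ hat K (C : Set V) := by
  intro hq
  have h1 : g i + g j ∈ hat K (C : Set V) := q3_add (h.qg i j hij) hq
  have h2 := h.gind {i, j} (by rw [card_pair hij]; decide) (by rwa [sum_pair hij])
  exact absurd (h2 ▸ mem_insert_self i {j} : i ∈ (∅ : Finset (Fin N))) (notMem_empty i)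

theorem IsQ.contract (h : IsQ K S C g q) {e : V} (he : e ∈ C) :
    IsQ (hat K {e}) (S.erase e) (C.erase e) g q := by
  have e1 : hat (hat K {e}) ((C.erase e : Finset V) : Set V) = hat K (C : Set V) := by
    rw [hat_hat]
    congr 1
    rw [coe_erase, Set.union_comm, Set.union_singleton, Set.insert_diff_singleton,
      Set.insert_eq_of_mem (mem_coe.2 he)]
  refine ⟨erase_subset_erase e h.CS, ?_, ?_, ?_, h.qsymm, ?_, ?_⟩
  · intro T hT hsum
    have heT : e ∉ T := fun h1 => (mem_erase.1 (hT h1)).1 rfl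
    have hTC : T ⊆ C := hT.trans (erase_subset e C)
    rcases (mem_hat_singleton K e _).1 hsum with h1 | h1
    · exact h.Cind T hTC h1
    · have h2 := h.Cind (insert e T) (insert_subset he hTC) (by
        rw [sum_insert heT, add_comm]
        exact h1)
      exact absurd (h2 ▸ mem_insert_self e T : e ∈ (∅ : Finset V)) (notMem_empty e)
  · intro T hT hsum
    rw [e1] at hsum
    exact h.gind T hT hsum
  · intro i j hij
    refine mem_erase.2 ⟨?_, h.qS i j hij⟩
    intro hqe
    refine h.q_not_mem hij ?_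
    rw [hqe]
    exact subset_hat K _ (mem_coe.2 he)
  · intro i j hij
    rw [e1]
    exact h.qg i j hij
  · intro x hx
    obtain ⟨T, hT, hT2⟩ := h.span x (mem_of_mem_erase hx)
    exact ⟨T, hT, by rw [e1]; exact hT2⟩

theorem IsQ.erase (h : IsQ K S C g q) {x : V} (hx : x ∉ C) (hxq : ∀ i j, i ≠ j → q i j ≠ x) :
    IsQ K (S.erase x) C g q := by
  refine ⟨?_, h.Cind, h.gind, ?_, h.qsymm, h.qg, ?_⟩
  · intro y hy
    refine mem_erase.2 ⟨?_, h.CS hy⟩
    rintro rfl
    exact hx hy
  · intro i j hij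
    exact mem_erase.2 ⟨hxq i j hij, h.qS i j hij⟩
  · intro y hy
    exact h.span y (mem_of_mem_erase hy)

theorem IsQ.zero (h : IsQ K S C g q) {x : V} (hx : x ∈ K) :
    x ∉ C ∧ ∀ i j, i ≠ j → q i j ≠ x := by
  refine ⟨fun hxC => ?_, fun i j hij hq => ?_⟩
  · have h1 := h.Cind {x} (singleton_subset_iff.2 hxC) (by rwa [sum_singleton])
    exact absurd h1 (singleton_ne_empty x)
  · refine h.q_not_mem hij ?_
    rw [hq]
    exact le_hat K _ hx

theorem IsQ.par (h : IsQ K S C g q) {x y : V} (hxy : x ≠ y) (hK : x + y ∈ K) :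
    (x ∉ C ∧ ∀ i j, i ≠ j → q i j ≠ x) ∨ (y ∉ C ∧ ∀ i j, i ≠ j → q i j ≠ y) := by
  by_contra hcon
  rw [not_or] at hcon
  have hL : x + y ∈ hat K (C : Set V) := le_hat K _ hK
  rcases q3_used hcon.1 with hx | ⟨i, j, hij, hx⟩
  · have hx2 : x ∈ hat K (C : Set V) := subset_hat K _ (mem_coe.2 hx)
    rcases q3_used hcon.2 with hy | ⟨k, l, hkl, hy⟩
    · have h1 := h.Cind {x, y} (insert_subset hx (singleton_subset_iff.2 hy))
        (by rwa [sum_pair hxy])
      exact absurd (h1 ▸ mem_insert_self x {y} : x ∈ (∅ : Finset V)) (notMem_empty x)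
    · exact h.q_not_mem hkl (hy ▸ q3_add hL hx2)
  · rcases q3_used hcon.2 with hy | ⟨k, l, hkl, hy⟩
    · have hy2 : y ∈ hat K (C : Set V) := subset_hat K _ (mem_coe.2 hy)
      exact h.q_not_mem hij (hx ▸ mem_of_add_mem2 hL hy2)
    · have h1 := h.qg i j hij
      have h2 := h.qg k l hkl
      rw [hx] at h1
      rw [hy] at h2
      have h3 : g i + g j + (g k + g l) ∈ hat K (C : Set V) := by
        have h4 := Submodule.add_mem _ h1 h2
        have h5 : x + (g i + g j) + (y + (g k + g l)) =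
            (x + y) + (g i + g j + (g k + g l)) := by abel
        rw [h5] at h4
        exact q3_add h4 hL
      have h4 := h.gind (symmDiff {i, j} {k, l})
        (q3_even (by rw [card_pair hij]; decide) (by rw [card_pair hkl]; decide))
        (by rwa [q3_symm, sum_pair hij, sum_pair hkl])
      have h5 : ({i, j} : Finset (Fin N)) = {k, l} := symmDiff_eq_bot.1 h4
      have hi : i = k ∨ i = l := by
        have : i ∈ ({k, l} : Finset (Fin N)) := h5 ▸ mem_insert_self i {j}
        simpa using this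
      have hj : j = k ∨ j = l := by
        have : j ∈ ({k, l} : Finset (Fin N)) := h5 ▸ mem_insert_of_mem (mem_singleton_self j)
        simpa using this
      apply hxy
      rcases hi with rfl | rfl
      · rcases hj with rfl | rfl
        · exact absurd rfl hij
        · rw [← hx, ← hy]
      · rcases hj with rfl | rfl
        · rw [← hx, ← hy, h.qsymm]
        · exact absurd rfl hij

theorem IsQ.graphic_of_empty {m : ℕ} (hm : 4 ≤ m) (hN : 2 * m ≤ N) (h : IsQ K S C g q)
    (hO : ¬ HasO m K S) (hC : C = ∅) : Graphic K (S : Set V) := by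
  classical
  have e1 : hat K (C : Set V) = K := by
    rw [hC, coe_empty, hat_empty]
  set B : Finset V := ((univ : Finset (Fin N × Fin N)).filter (fun p => p.1 ≠ p.2)).image
    (fun p => q p.1 p.2) with hB
  have hBm : ∀ b, b ∈ B ↔ ∃ i j, i ≠ j ∧ q i j = b := by
    intro b
    rw [hB, mem_image]
    constructor
    · rintro ⟨⟨i, j⟩, hp, rfl⟩
      exact ⟨i, j, (mem_filter.1 hp).2, rfl⟩
    · rintro ⟨i, j, hij, rfl⟩
      exact ⟨(i, j), mem_filter.2 ⟨mem_univ _, hij⟩, rfl⟩
  have hcl : IsClique K g B := by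
    refine ⟨?_, ?_, ?_, ?_⟩
    · intro T hT hsum
      exact h.gind T hT (by rwa [e1])
    · intro i j hij
      have h1 := h.qg i j hij
      rw [e1] at h1
      exact ⟨q i j, (hBm _).2 ⟨i, j, hij, rfl⟩, h1⟩
    · intro b hb
      obtain ⟨i, j, hij, rfl⟩ := (hBm b).1 hb
      have h1 := h.qg i j hij
      rw [e1] at h1
      exact ⟨i, j, hij, h1⟩
    · intro b hb b' hb' hbb
      by_contra hne
      obtain ⟨i, j, hij, h1⟩ := (hBm b).1 hb
      obtain ⟨k, l, hkl, h2⟩ := (hBm b').1 hb'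
      rcases h.par hne hbb with h3 | h3
      · exact h3.2 i j hij h1
      · exact h3.2 k l hkl h2
  refine graphic_of_clique hm hN hcl ?_ hO ?_
  · intro b hb
    obtain ⟨i, j, hij, rfl⟩ := (hBm b).1 hb
    exact h.qS i j hij
  · intro x hx
    obtain ⟨T, hT, hT2⟩ := h.span x hx
    rw [e1] at hT2
    exact mem_of_add_mem2 (le_hat K _ hT2) (hcl.sum_mem T hT)

end Pool.Agent.HC
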