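import Pool.Agent.HC.CtD
import Pool.Agent.HC.Gr5
import Pool.Agent.HC.Q3

/-!
# HC-Cl1: the clusters of a clique minor (4.0)

The coordinates of the vertices are added up over every component of the graph `cG C e φ`; this map
vanishes exactly on `hat K C`, so that it represents the clique minor on the set of components.
-/

namespace Pool.Agent.HC

open Finset Module

variable {V : Type} [AddCommGroup V] [Module F2 V] [DecidableEq V] [FiniteDimensional F2 V]
  {K : Submodule F2 V} {S C : Finset V} {N : ℕ} {g : Fin N → V} {q : Fin N → Fin N → V} {e : V}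
  {U : Type} [Fintype U] [DecidableEq U] {φ : V →ₗ[F2] (U → F2)} {σ : V →ₗ[F2] F2}

omit [AddCommGroup V] [Module F2 V] [DecidableEq V] [FiniteDimensional F2 V] in
private theorem cl1_apply {U : Type} [DecidableEq U] (u v w : U) :
    pr u v w = (if w = u then 1 else 0) + (if w = v then 1 else 0) := by
  unfold pr
  rw [Pi.add_apply, Pi.single_apply, Pi.single_apply]

private theorem cl1_self {U : Type} [DecidableEq U] (u : U) : pr u u = 0 := by
  funext w
  rw [cl1_apply]
  exact add_self2 (V := F2) _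

private theorem cl1_comm {U : Type} [DecidableEq U] (u v : U) : pr u v = pr v u := by
  unfold pr
  exact add_comm _ _

private theorem cl1_add {U : Type} [DecidableEq U] (u v w : U) :
    pr u v + pr v w = pr u w := by
  unfold pr
  have h : ∀ x y z : U → F2, x + y + (y + z) = x + z := fun x y z => by
    rw [add_assoc, ← add_assoc y y z, add_self2, zero_add]
  exact h _ _ _

private theorem cl1_mem {U : Type} [DecidableEq U] {a b c d : U} (hcd : c ≠ d)
    (h : pr a b = pr c d) : c = a ∨ c = b := by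
  by_contra hn
  push Not at hn
  have h1 := congrFun h c
  rw [cl1_apply, cl1_apply, if_neg hn.1, if_neg hn.2, if_pos rfl, if_neg hcd] at h1
  exact absurd h1 (by decide)

private theorem cl1_eq {U : Type} [DecidableEq U] {a b c d : U} (hcd : c ≠ d)
    (h : pr a b = pr c d) : (a = c ∧ b = d) ∨ (a = d ∧ b = c) := by
  have h1 := cl1_mem hcd h
  have h2 := cl1_mem (Ne.symm hcd) (h.trans (cl1_comm c d))
  rcases h1 with h1 | h1
  · rcases h2 with h2 | h2
    · exact absurd (h1.trans h2.symm) hcd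
    · exact Or.inl ⟨h1.symm, h2.symm⟩
  · rcases h2 with h2 | h2
    · exact Or.inr ⟨h2.symm, h1.symm⟩
    · exact absurd (h1.trans h2.symm) hcd

omit [DecidableEq V] [FiniteDimensional F2 V] in
/-- the edges of a walk add up -/
private theorem cl1_reach {U : Type} [DecidableEq U] (G : SimpleGraph U) (M : Submodule F2 V)
    (φ : V →ₗ[F2] (U → F2)) (hG : ∀ u w, G.Adj u w → ∃ x ∈ M, φ x = pr u w) {u w : U}
    (hr : G.Reachable u w) : ∃ y ∈ M, φ y = pr u w := by
  obtain ⟨p⟩ := hr
  induction p with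
  | nil => exact ⟨0, M.zero_mem, by rw [map_zero, cl1_self]⟩
  | cons hadj p ih =>
    obtain ⟨y, hy, hy2⟩ := ih
    obtain ⟨x, hx, hx2⟩ := hG _ _ hadj
    exact ⟨x + y, M.add_mem hx hy, by rw [map_add, hx2, hy2, cl1_add]⟩

/-- adding up the coordinates over the fibres of `m` -/
private noncomputable def cl1A {U W : Type} [Fintype U] [DecidableEq W] (m : U → W) :
    (U → F2) →ₗ[F2] (W → F2) :=
  Fintype.linearCombination F2 (fun u => (Pi.single (m u) 1 : W → F2))

private theorem cl1A_single {U W : Type} [Fintype U] [DecidableEq U] [DecidableEq W] (m : U → W)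
    (u : U) : cl1A m (Pi.single u 1) = Pi.single (m u) 1 := by
  unfold cl1A
  rw [Fintype.linearCombination_apply_single, one_smul]

private theorem cl1A_pr {U W : Type} [Fintype U] [DecidableEq U] [DecidableEq W] (m : U → W)
    (u w : U) : cl1A m (pr u w) = pr (m u) (m w) := by
  unfold pr
  rw [map_add, cl1A_single, cl1A_single]

/-- the kernel is spanned by the pairs inside the fibres -/
private theorem cl1A_ker {U W : Type} [Fintype U] [Fintype W] [DecidableEq U] [DecidableEq W]
    (m : U → W) (r : W → U) (hr : ∀ c, m (r c) = c) (M : Submodule F2 (U → F2))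
    (hM : ∀ u w, m u = m w → pr u w ∈ M) (y : U → F2) (hy : cl1A m y = 0) : y ∈ M := by
  have h1 : y = ∑ u, y u • (Pi.single u 1 : U → F2) := pi_eq_sum_univ' y
  have h2 : cl1A r (cl1A m y) = ∑ u, y u • (Pi.single (r (m u)) 1 : U → F2) := by
    conv_lhs => rw [h1]
    rw [map_sum, map_sum]
    refine Finset.sum_congr rfl fun u _ => ?_
    rw [map_smul, map_smul, cl1A_single, cl1A_single]
  rw [hy, map_zero] at h2
  have h3 : y = ∑ u, y u • pr u (r (m u)) := by
    have h4 : ∑ u, y u • pr u (r (m u)) = ∑ u, y u • (Pi.single u 1 : U → F2) +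
        ∑ u, y u • (Pi.single (r (m u)) 1 : U → F2) := by
      rw [← Finset.sum_add_distrib]
      refine Finset.sum_congr rfl fun u _ => ?_
      rw [← smul_add]
      rfl
    rw [h4, ← h2, add_zero]
    exact h1
  rw [h3]
  refine Submodule.sum_mem _ fun u _ => Submodule.smul_mem _ _ (hM _ _ ?_)
  rw [hr]

omit [FiniteDimensional F2 V] in
private theorem cl1_even_sum (h : IsQ K S C g q) (T : Finset (Fin N)) (hT : Even T.card) :
    ∑ i ∈ T, g i ∈ hat K (S : Set V) := by
  rcases Finset.eq_empty_or_nonempty T with rfl | ⟨o, -⟩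
  · rw [Finset.sum_empty]
    exact Submodule.zero_mem _
  · have hCS : hat K (C : Set V) ≤ hat K (S : Set V) :=
      hat_mono le_rfl (Finset.coe_subset.2 h.CS)
    have h1 : ∀ i, g i + g o ∈ hat K (S : Set V) := by
      intro i
      by_cases hio : i = o
      · rw [hio, add_self2]
        exact Submodule.zero_mem _
      · have h2 := hCS (h.qg i o hio)
        rw [add_comm] at h2
        exact mem_of_add_mem2 h2 (subset_hat K _ (Finset.mem_coe.2 (h.qS i o hio)))
    have h3 : ∑ i ∈ T, (g i + g o) ∈ hat K (S : Set V) := Submodule.sum_mem _ fun i _ => h1 i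
    rw [Finset.sum_add_distrib, Finset.sum_const] at h3
    obtain ⟨k, hk⟩ := hT
    have h5 : T.card • g o = 0 := by
      rw [hk, ← two_mul, mul_comm, mul_nsmul', two_nsmul, add_self2, nsmul_zero]
    rwa [h5, add_zero] at h3

omit [FiniteDimensional F2 V] in
private theorem cl1_zero (h : IsQ K S C g q) (hm : FMdl K S e φ σ)
    {W : Type} [DecidableEq W] (m : U → W)
    (hmk : ∀ u w, (cG C e φ).Adj u w → m u = m w) {v : V} (hv : v ∈ hat K (C : Set V)) :
    cl1A m (φ v) = 0 := by
  have h1 : hat K (C : Set V) ≤ LinearMap.ker ((cl1A m).comp φ) := by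
    refine hat_le (fun x hx => ?_) (fun x hx => ?_)
    · rw [LinearMap.mem_ker, LinearMap.comp_apply, hm.kφ x hx, map_zero]
    · rw [SetLike.mem_coe, LinearMap.mem_ker, LinearMap.comp_apply]
      by_cases hxe : x = e
      · rw [hxe, hm.eφ, map_zero]
      · rcases hm.edge x (h.CS (Finset.mem_coe.1 hx)) with h2 | ⟨u, w, huw, h2⟩
        · rw [h2, map_zero]
        · rw [h2, cl1A_pr, hmk u w ⟨huw, x, Finset.mem_coe.1 hx, hxe, h2⟩, cl1_self]
  exact h1 hv

omit [FiniteDimensional F2 V] in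
private theorem cl1_ker (h : IsQ K S C g q) (hm : FMdl K S e φ σ) (he : e ∈ C)
    {W : Type} [Fintype W] [DecidableEq W] (m : U → W) (r : W → U) (hr : ∀ c, m (r c) = c)
    (hmk : ∀ u w, m u = m w → (cG C e φ).Reachable u w) {v : V}
    (hv : v ∈ hat K (S : Set V)) (hv0 : cl1A m (φ v) = 0) : v ∈ hat K (C : Set V) := by
  have hCS : hat K (C : Set V) ≤ hat K (S : Set V) :=
    hat_mono le_rfl (Finset.coe_subset.2 h.CS)
  have heC : e ∈ hat K (C : Set V) := subset_hat K _ (Finset.mem_coe.2 he)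
  have h1 : φ v ∈ (hat K (C : Set V)).map φ := by
    refine cl1A_ker m r hr _ (fun u w huw => ?_) _ hv0
    obtain ⟨y, hy, hy2⟩ := cl1_reach (cG C e φ) (hat K (C : Set V)) φ
      (fun a b hab => by
        obtain ⟨-, x, hx, -, hx2⟩ := hab
        exact ⟨x, subset_hat K _ (Finset.mem_coe.2 hx), hx2⟩) (hmk u w huw)
    exact ⟨y, hy, hy2⟩
  obtain ⟨y, hy, hyv⟩ := h1
  have h2 : φ (v + y) = 0 := by
    rw [map_add, hyv, add_self2]
  have h3 : v + y ∈ hat K (S : Set V) := Submodule.add_mem _ hv (hCS hy)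
  rcases F2_cases (σ (v + y)) with h4 | h4
  · exact mem_of_add_mem2 (le_hat K _ (hm.inj _ h3 h2 h4)) hy
  · have h5 : v + y + e ∈ K := by
      refine hm.inj _ (Submodule.add_mem _ h3 (hCS heC)) ?_ ?_
      · rw [map_add, h2, hm.eφ, add_zero]
      · rw [map_add, h4, hm.eσ]
        exact add_self2 (V := F2) 1
    exact mem_of_add_mem2 (mem_of_add_mem2 (le_hat K _ h5) heC) hy

theorem exists_clusters (h : IsQ K S C g q) (hN : 3 ≤ N) (hm : FMdl K S e φ σ) (he : e ∈ C) :
    ∃ c : Fin N → (cG C e φ).ConnectedComponent, Function.Injective c ∧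
      ∀ i j, i ≠ j → ∃ u w, φ (q i j) = pr u w ∧ (cG C e φ).connectedComponentMk u = c i ∧
        (cG C e φ).connectedComponentMk w = c j := by
  classical
  set H := cG C e φ with hH
  let m : U → H.ConnectedComponent := H.connectedComponentMk
  let r : H.ConnectedComponent → U := fun c => Quot.out c
  have hr : ∀ c, m (r c) = c := fun c => Quot.out_eq c
  have : Fintype H.ConnectedComponent := Fintype.ofFinite _
  have hz : ∀ v ∈ hat K (C : Set V), cl1A m (φ v) = 0 := fun v hv =>
    cl1_zero h hm m (fun u w huw => SimpleGraph.ConnectedComponent.sound huw.reachable) hv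
  have hk : ∀ v ∈ hat K (S : Set V), cl1A m (φ v) = 0 → v ∈ hat K (C : Set V) := fun v hv hv0 =>
    cl1_ker h hm he m r hr (fun u w huw => SimpleGraph.ConnectedComponent.exact huw) hv hv0
  have hq : ∀ i j, i ≠ j → ∃ u w, φ (q i j) = pr u w ∧ m u ≠ m w := by
    intro i j hij
    have h1 : q i j ∈ hat K (S : Set V) := subset_hat K _ (Finset.mem_coe.2 (h.qS i j hij))
    rcases hm.edge _ (h.qS i j hij) with h2 | ⟨u, w, -, h2⟩
    · exact absurd (hk _ h1 (by rw [h2, map_zero])) (h.q_not_mem hij)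
    · refine ⟨u, w, h2, fun h3 => ?_⟩
      exact absurd (hk _ h1 (by rw [h2, cl1A_pr, h3, cl1_self])) (h.q_not_mem hij)
  have hgq : ∀ i j, i ≠ j → cl1A m (φ (g i + g j)) = cl1A m (φ (q i j)) := by
    intro i j hij
    have h1 := hz _ (h.qg i j hij)
    rw [map_add, map_add] at h1
    have h2 := (add_eq_iff2 _ _ _).1 h1
    rw [zero_add] at h2
    exact h2.symm
  obtain ⟨c, hc, hc2⟩ := clique_rep hN ((cl1A m).comp φ) g
    (fun i j hij => by
      obtain ⟨u, w, h1, h2⟩ := hq i j hij
      refine ⟨m u, m w, h2, ?_⟩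
      rw [LinearMap.comp_apply, hgq i j hij, h1, cl1A_pr])
    (fun T hT h0 => h.gind T hT (hk _ (cl1_even_sum h T hT) h0))
  refine ⟨c, hc, fun i j hij => ?_⟩
  obtain ⟨u, w, h1, -⟩ := hq i j hij
  have h2 : pr (m u) (m w) = pr (c i) (c j) := by
    rw [← hc2 i j, LinearMap.comp_apply, hgq i j hij, h1, cl1A_pr]
  rcases cl1_eq (fun h3 => hij (hc h3)) h2 with ⟨h3, h4⟩ | ⟨h3, h4⟩
  · exact ⟨u, w, h1, h3, h4⟩
  · exact ⟨w, u, by rw [h1, cl1_comm], h4, h3⟩

theorem cG_acyclic (h : IsQ K S C g q) (hm : FMdl K S e φ σ)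
    (hσ : ∀ v ∈ hat K ((C.erase e : Finset V) : Set V), σ v = 0) : (cG C e φ).IsAcyclic := by
  classical
  rw [SimpleGraph.isAcyclic_iff_forall_adj_isBridge]
  rintro u w ⟨huw, x, hx, hxe, hxφ⟩
  rw [SimpleGraph.isBridge_iff]
  intro hr
  have hCe : ((C.erase e).erase x : Finset V) ⊆ C.erase e := Finset.erase_subset x _
  obtain ⟨y, hy, hyφ⟩ := cl1_reach _ (hat K (((C.erase e).erase x : Finset V) : Set V)) φ
    (fun a b hab => by
      rw [SimpleGraph.deleteEdges_adj] at hab
      obtain ⟨⟨hab1, z, hz, hze, hzφ⟩, hab2⟩ := hab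
      refine ⟨z, subset_hat K _ (Finset.mem_coe.2 (Finset.mem_erase.2
        ⟨fun hzx => hab2 ?_, Finset.mem_erase.2 ⟨hze, hz⟩⟩)), hzφ⟩
      have h1 : pr a b = pr u w := by rw [← hzφ, ← hxφ, hzx]
      rw [Set.mem_singleton_iff]
      rcases cl1_eq huw h1 with ⟨h2, h3⟩ | ⟨h2, h3⟩
      · rw [h2, h3]
      · rw [h2, h3]
        exact Sym2.eq_swap) hr
  have hyC : y ∈ hat K ((C.erase e : Finset V) : Set V) :=
    hat_mono le_rfl (Finset.coe_subset.2 hCe) hy
  have hxC : x ∈ hat K ((C.erase e : Finset V) : Set V) :=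
    subset_hat K _ (Finset.mem_coe.2 (Finset.mem_erase.2 ⟨hxe, hx⟩))
  have hCS : hat K ((C.erase e : Finset V) : Set V) ≤ hat K (S : Set V) :=
    hat_mono le_rfl (Finset.coe_subset.2 ((Finset.erase_subset e C).trans h.CS))
  have h1 : x + y ∈ K := by
    refine hm.inj _ (Submodule.add_mem _ (hCS hxC) (hCS hyC)) ?_ ?_
    · rw [map_add, hxφ, hyφ, add_self2]
    · exact hσ _ (Submodule.add_mem _ hxC hyC)
  obtain ⟨T, hT, hT2⟩ := (mem_hat_iff K _ y).1 hy
  have hxT : x ∉ T := fun h2 => (Finset.mem_erase.1 (hT h2)).1 rfl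
  have h3 : ∑ z ∈ insert x T, z ∈ K := by
    rw [Finset.sum_insert hxT]
    have h4 := K.add_mem h1 hT2
    have h5 : x + y + (y + ∑ z ∈ T, z) = x + ∑ z ∈ T, z + (y + y) := by abel
    rwa [h5, add_self2, add_zero] at h4
  have h6 : insert x T ⊆ C := Finset.insert_subset hx
    ((hT.trans hCe).trans (Finset.erase_subset e C))
  exact absurd (h.Cind _ h6 h3) (Finset.insert_ne_empty x T)

end Pool.Agent.HC
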