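import Mathlib

/-!
# HC-Cl2: centroids of trees

Let `r` be a vertex of the component `c` for which `∑ i, H.dist r (v i)` is minimal. Let `w i` be a shortest
walk from `r` to `v i`, which is a path (`SimpleGraph.Reachable.exists_path_of_dist`). Let
`t ≠ r` and suppose `Fintype.card ι < 2 * #{i | t ∈ (w i).support}`. `t` is in the component (some `w i` contains
it). Let `b` be the second vertex of the unique path from `r` to `t` (`H.IsAcyclic`:
`SimpleGraph.IsAcyclic.path_unique`). If `t ∈ (w i).support` then the initial part of `w i` up to `t`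
(`takeUntil`) is this path, so `b` is the second vertex of `w i`, and `dist b (v i) + 1 = dist r (v i)`. For
the other `i`: `dist b (v i) ≤ dist r (v i) + 1`. So the sum for `b` is smaller than the sum for `r`
(more than half of the terms go down by 1, the others go up by at most 1). Contradiction.
-/

namespace Pool.Agent.HC

open Finset

private theorem cons_dist {U : Type} (H : SimpleGraph U) {r t b x : U} (q : H.Walk b t)
    (hadj : H.Adj r b) (w : H.Walk r x) (hw : w.length = H.dist r x) (e : H.Walk t x)
    (he : w = (SimpleGraph.Walk.cons hadj q).append e) : H.dist b x + 1 ≤ H.dist r x := by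
  have h1 : w.length = (q.append e).length + 1 := by
    rw [he, SimpleGraph.Walk.cons_append, SimpleGraph.Walk.length_cons]
  have h2 := SimpleGraph.dist_le (q.append e)
  omega

theorem exists_centroid {U : Type} [Fintype U] [DecidableEq U] (H : SimpleGraph U)
    (hH : H.IsAcyclic) (c : H.ConnectedComponent) {ι : Type} [Fintype ι] (v : ι → U)
    (hv : ∀ i, H.connectedComponentMk (v i) = c) :
    ∃ r : U, H.connectedComponentMk r = c ∧ ∃ w : ∀ i, H.Walk r (v i), (∀ i, (w i).IsPath) ∧
      ∀ t, t ≠ r → 2 * (univ.filter (fun i => t ∈ (w i).support)).card ≤ Fintype.card ι := by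
  classical
  obtain ⟨u0, hu0⟩ := c.exists_rep
  obtain ⟨r, hr, hmin⟩ := Finset.exists_min_image
    (univ.filter fun x : U => H.connectedComponentMk x = c)
    (fun x => ∑ i, H.dist x (v i)) ⟨u0, Finset.mem_filter.2 ⟨Finset.mem_univ _, hu0⟩⟩
  have hrc : H.connectedComponentMk r = c := (Finset.mem_filter.1 hr).2
  have hreach : ∀ i, H.Reachable r (v i) := fun i =>
    SimpleGraph.ConnectedComponent.exact (hrc.trans (hv i).symm)
  choose w hw hwl using fun i => (hreach i).exists_path_of_dist
  refine ⟨r, hrc, w, hw, fun t ht => ?_⟩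
  by_contra hcon
  rw [not_le] at hcon
  obtain ⟨S, hS⟩ : ∃ S, S = univ.filter (fun i => t ∈ (w i).support) := ⟨_, rfl⟩
  rw [← hS] at hcon
  have hSne : S.Nonempty := by
    rw [← Finset.card_pos]
    omega
  obtain ⟨i0, hi0⟩ := hSne
  have hmemS : ∀ i, i ∈ S ↔ t ∈ (w i).support := fun i => by
    rw [hS, Finset.mem_filter]
    exact ⟨fun h => h.2, fun h => ⟨Finset.mem_univ _, h⟩⟩
  have ht0 := (hmemS i0).1 hi0
  obtain ⟨P0, hP0⟩ : ∃ P0, P0 = (w i0).takeUntil t ht0 := ⟨_, rfl⟩
  have hP0p : P0.IsPath := hP0 ▸ (hw i0).takeUntil ht0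
  have huniq : ∀ i (h : t ∈ (w i).support), (w i).takeUntil t h = P0 := fun i h =>
    congrArg Subtype.val (hH.path_unique ⟨(w i).takeUntil t h, (hw i).takeUntil h⟩ ⟨P0, hP0p⟩)
  cases hP : P0 with
  | nil => exact ht rfl
  | @cons _ b _ hadj q =>
    have hlt : ∀ i ∈ S, H.dist b (v i) + 1 ≤ H.dist r (v i) := fun i hi => by
      have h1 := (hmemS i).1 hi
      refine cons_dist H q hadj (w i) (hwl i) ((w i).dropUntil t h1) ?_
      rw [← hP, ← huniq i h1, SimpleGraph.Walk.take_spec]
    have hle : ∀ i, H.dist b (v i) ≤ H.dist r (v i) + 1 := fun i => by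
      have h1 := SimpleGraph.dist_le (SimpleGraph.Walk.cons hadj.symm (w i))
      rw [SimpleGraph.Walk.length_cons, hwl i] at h1
      exact h1
    have hbc : H.connectedComponentMk b = c := by
      rw [← hrc]
      exact SimpleGraph.ConnectedComponent.sound hadj.symm.reachable
    have h1 := hmin b (Finset.mem_filter.2 ⟨Finset.mem_univ _, hbc⟩)
    have h2 : ∑ i, (H.dist b (v i) + (if i ∈ S then 2 else 0)) ≤
        ∑ i, (H.dist r (v i) + 1) := by
      refine Finset.sum_le_sum fun i _ => ?_
      by_cases hi : i ∈ S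
      · rw [if_pos hi]
        have := hlt i hi
        omega
      · rw [if_neg hi]
        exact hle i
    rw [Finset.sum_add_distrib, Finset.sum_add_distrib, Finset.sum_const, Finset.card_univ,
      Finset.sum_ite_mem, Finset.univ_inter, Finset.sum_const, smul_eq_mul, smul_eq_mul] at h2
    omega

end Pool.Agent.HC
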