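import Pool.Agent.HC.Defs

/-!
# HC-Pth: elementary facts on paths in signed graphs

`G.Path l p` is defined inductively in `Defs` (lists of distinct vertices, the parity is the sum of
the parities of the chosen edges). All statements by induction on the list / the predicate.
`Path.even_of`: if every edge between consecutive vertices has parity `s u + s w` then the parity is
`s (first) + s (last)`.
`Path.exit`: a path from `u ∈ I` to a vertex outside `I` has a first step out of `I`.
`Path.adj_of_infix`: consecutive vertices are adjacent.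
-/

namespace Pool.Agent.HC

variable {U : Type} {G : SG U}

private theorem tail_inv {a : U} {m : List U} {p : F2} (h : G.Path (a :: m) p)
    (hm : m ≠ []) : ∃ b p1 q, m.head? = some b ∧ G.adj p1 a b ∧ a ∉ m ∧ G.Path m q ∧
      p = p1 + q := by
  cases h with
  | single => exact absurd rfl hm
  | cons p q u v l h1 h2 h3 => exact ⟨v, p, q, rfl, h1, h2, h3, rfl⟩

private theorem single_inv {a : U} {p : F2} (h : G.Path [a] p) : p = 0 := by
  cases h with
  | single => rfl

private theorem cons_mk {a b : U} {m : List U} {p q : F2} (h : G.adj p a b)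
    (hm : m.head? = some b) (ha : a ∉ m) (hp : G.Path m q) : G.Path (a :: m) (p + q) := by
  cases m with
  | nil => simp at hm
  | cons c t =>
    simp only [List.head?_cons, Option.some.injEq] at hm
    subst hm
    exact SG.Path.cons p q a c t h ha hp

theorem SG.Path.ne_nil {l : List U} {p : F2} (h : G.Path l p) : l ≠ [] := by
  cases h <;> simp

theorem SG.Path.nodup {l : List U} {p : F2} (h : G.Path l p) : l.Nodup := by
  induction h with
  | single u => simp
  | cons p q u v l _ h2 _ ih => exact List.nodup_cons.2 ⟨h2, ih⟩

theorem SG.Path.adj_of_infix {l1 l2 : List U} {u v : U} {p : F2}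
    (h : G.Path (l1 ++ u :: v :: l2) p) : ∃ q, G.adj q u v := by
  induction l1 generalizing p with
  | nil =>
    obtain ⟨b, p1, q, hb, h1, -⟩ := tail_inv (m := v :: l2) h (by simp)
    simp only [List.head?_cons, Option.some.injEq] at hb
    subst hb
    exact ⟨p1, h1⟩
  | cons a l1 ih =>
    obtain ⟨b, p1, q, -, -, -, h1, -⟩ := tail_inv (m := l1 ++ u :: v :: l2) h (by simp)
    exact ih h1

theorem SG.Path.append {l1 l2 : List U} {x : U} {p q : F2} (h1 : G.Path (l1 ++ [x]) p)
    (h2 : G.Path (x :: l2) q) (hd : ∀ y ∈ l1, y ∉ l2) : G.Path (l1 ++ x :: l2) (p + q) := by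
  induction l1 generalizing p with
  | nil =>
    rw [single_inv (a := x) h1, zero_add]
    exact h2
  | cons a l1 ih =>
    obtain ⟨b, p1, q1, hb, h3, h4, h5, rfl⟩ := tail_inv (m := l1 ++ [x]) h1 (by simp)
    have h6 := ih h5 (fun y hy => hd y (List.mem_cons_of_mem _ hy))
    rw [add_assoc]
    refine cons_mk (m := l1 ++ x :: l2) h3 ?_ ?_ h6
    · cases l1 with
      | nil => simpa using hb
      | cons c t => simpa using hb
    · intro ha
      rcases List.mem_append.1 ha with h | h
      · exact h4 (List.mem_append_left _ h)
      · rcases List.mem_cons.1 h with h | h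
        · exact h4 (List.mem_append_right _ (by simp [h]))
        · exact hd a (List.mem_cons_self) h

theorem SG.Path.split {l1 l2 : List U} {x : U} {p : F2} (h : G.Path (l1 ++ x :: l2) p) :
    ∃ p1 p2, G.Path (l1 ++ [x]) p1 ∧ G.Path (x :: l2) p2 ∧ p = p1 + p2 := by
  induction l1 generalizing p with
  | nil => exact ⟨0, p, SG.Path.single x, h, (zero_add p).symm⟩
  | cons a l1 ih =>
    obtain ⟨b, p1, q1, hb, h3, h4, h5, rfl⟩ := tail_inv (m := l1 ++ x :: l2) h (by simp)
    obtain ⟨q2, q3, h6, h7, rfl⟩ := ih h5
    refine ⟨p1 + q2, q3, ?_, h7, (add_assoc _ _ _).symm⟩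
    refine cons_mk (m := l1 ++ [x]) h3 ?_ ?_ h6
    · cases l1 with
      | nil => simpa using hb
      | cons c t => simpa using hb
    · intro ha
      rcases List.mem_append.1 ha with h | h
      · exact h4 (List.mem_append_left _ h)
      · refine h4 (List.mem_append_right _ ?_)
        rw [List.mem_singleton] at h
        simp [h]

theorem SG.Path.reverse {l : List U} {p : F2} (h : G.Path l p) : G.Path l.reverse p := by
  induction h with
  | single u => exact SG.Path.single u
  | cons p q u v l h1 h2 h3 ih =>
    have h4 : G.Path [v, u] (p + 0) := by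
      refine SG.Path.cons p 0 v u [] (G.symm _ _ _ h1) ?_ (SG.Path.single u)
      intro h
      rw [List.mem_singleton] at h
      exact h2 (by simp [h])
    rw [List.reverse_cons] at ih
    have h5 := SG.Path.append ih h4 (by
      intro y hy h
      rw [List.mem_singleton] at h
      subst h
      exact h2 (List.mem_cons_of_mem _ (List.mem_reverse.1 hy)))
    have h6 : (u :: v :: l).reverse = l.reverse ++ [v, u] := by simp
    rw [h6, add_comm p q]
    rw [add_zero] at h5
    exact h5

/-- paths of a graph which is contained in `G'` along the vertices of the path -/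
theorem SG.Path.mono {G' : SG U} {l : List U} {p : F2} (h : G.Path l p)
    (hG : ∀ u ∈ l, ∀ v ∈ l, ∀ q, G.adj q u v → G'.adj q u v) : G'.Path l p := by
  induction h with
  | single u => exact SG.Path.single u
  | cons p q u v l h1 h2 h3 ih =>
    exact SG.Path.cons p q u v l (hG u (by simp) v (by simp) p h1) h2
      (ih fun x hx y hy r hr => hG x (List.mem_cons_of_mem _ hx) y (List.mem_cons_of_mem _ hy) r hr)

theorem SG.Path.even_of {l : List U} {p : F2} (h : G.Path l p) (s : U → F2)
    (hs : ∀ l1 l2 u v, l = l1 ++ u :: v :: l2 → ∀ q, G.adj q u v → q = s u + s v) {a b : U}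
    (ha : l.head? = some a) (hb : l.getLast? = some b) : p = s a + s b := by
  induction h generalizing a with
  | single u =>
    simp only [List.head?_cons, Option.some.injEq, List.getLast?_singleton] at ha hb
    subst ha
    subst hb
    exact (CharTwo.add_self_eq_zero _).symm
  | cons p q u v l h1 h2 h3 ih =>
    simp only [List.head?_cons, Option.some.injEq] at ha
    subst ha
    have h4 : q = s v + s b := by
      refine ih (fun l1 l2 x y hl r hr => hs (u :: l1) l2 x y ?_ r hr) rfl ?_
      · rw [hl]
        rfl
      · rw [List.getLast?_cons_cons] at hb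
        exact hb
    have h5 : p = s u + s v := hs [] l u v rfl p h1
    rw [h4, h5]
    have h6 : s v + s v = 0 := CharTwo.add_self_eq_zero _
    calc s u + s v + (s v + s b) = s u + (s v + s v) + s b := by ring
      _ = s u + s b := by rw [h6, add_zero]

theorem SG.Path.exit {l : List U} {p : F2} (h : G.Path l p) (I : Set U) {a b : U}
    (ha : l.head? = some a) (hb : l.getLast? = some b) (haI : a ∈ I) (hbI : b ∉ I) :
    ∃ l1 l2 u v, l = l1 ++ u :: v :: l2 ∧ (∀ y ∈ l1, y ∈ I) ∧ u ∈ I ∧ v ∉ I := by
  induction h generalizing a with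
  | single u =>
    simp only [List.head?_cons, Option.some.injEq, List.getLast?_singleton] at ha hb
    subst ha
    subst hb
    exact absurd haI hbI
  | cons p q u v l h1 h2 h3 ih =>
    simp only [List.head?_cons, Option.some.injEq] at ha
    subst ha
    by_cases hv : v ∈ I
    · rw [List.getLast?_cons_cons] at hb
      obtain ⟨l1, l2, x, y, hl, h4, h5, h6⟩ := ih rfl hb hv
      refine ⟨u :: l1, l2, x, y, by rw [hl]; rfl, ?_, h5, h6⟩
      intro z hz
      rcases List.mem_cons.1 hz with rfl | hz
      · exact haI
      · exact h4 z hz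
    · exact ⟨[], l, u, v, rfl, by simp, haI, hv⟩

/-- the first vertex of the path in `Q` -/
theorem SG.Path.first {l : List U} {p : F2} (h : G.Path l p) (Q : Set U)
    (hQ : ∃ y ∈ l, y ∈ Q) : ∃ l1 l2 x, l = l1 ++ x :: l2 ∧ x ∈ Q ∧ ∀ y ∈ l1, y ∉ Q := by
  clear h
  induction l with
  | nil => simp at hQ
  | cons a l ih =>
    by_cases ha : a ∈ Q
    · exact ⟨[], l, a, rfl, ha, by simp⟩
    · obtain ⟨y, hy, hyQ⟩ := hQ
      rcases List.mem_cons.1 hy with rfl | hy
      · exact absurd hyQ ha
      · obtain ⟨l1, l2, x, hl, h1, h2⟩ := ih ⟨y, hy, hyQ⟩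
        refine ⟨a :: l1, l2, x, by rw [hl]; rfl, h1, ?_⟩
        intro z hz
        rcases List.mem_cons.1 hz with rfl | hz
        · exact ha
        · exact h2 z hz

/-- a walk of even edges in a simple graph gives a path of parity zero -/
theorem SG.Path.of_walk {H : SimpleGraph U} (hH : ∀ u v, H.Adj u v → G.adj 0 u v) {a b : U}
    (w : H.Walk a b) (hw : w.IsPath) : G.Path w.support 0 := by
  induction w with
  | nil => exact SG.Path.single _
  | cons h w ih =>
    rw [SimpleGraph.Walk.cons_isPath_iff] at hw
    have h1 := ih hw.1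
    rw [SimpleGraph.Walk.support_cons]
    have h2 := cons_mk (m := w.support) (hH _ _ h) (by
      cases w <;> simp) hw.2 h1
    rw [add_zero] at h2
    exact h2

end Pool.Agent.HC
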