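import Pool.Agent.HC.Cl1
import Pool.Agent.HC.Cl2
import Pool.Agent.HC.AO
import Pool.Agent.HC.Pth
import Pool.Agent.Helper39.TC.Clique

/-!
# HC-Cl3: all the cluster data (4.0)

`N0 := ` a bound for two-colour Ramsey: `Pool.Agent.Helper39.TC.ramsey_mono F2 (n + 2 * m + 1)`.
`exists_clusters`: `c`. Colour `i < j` by `σ (q i j)`. Ramsey: increasing `κ : Fin (n + 2 * m + 1) → Fin N` with
constant `σ (q (κ i) (κ j)) = ε`. (For `N ≥ N0` use only the first `N0` vertices.)
`ε = 1`: `hasO_of_odd` with `τ = e`, `b i := q (κ 0) (κ (i + 1))`... with `o = κ 0`, `b i := q o (κ i') + e` where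
`i' = i + 1`, `i : Fin (2 * m)`: then `σ (b i) = 0`. The element `x = q (κ i') (κ j')`: `x + b i + b j + τ`
must be in `K`. We know only `x + q o (κ i') + q o (κ j') ∈ hat K C`. So work modulo
`M := hat K (C.erase e)` instead of `K` (`HasO.mono` with `F = C.erase e ⊆ S`): `x + q o i' + q o j'` is in
`hat K C = M ⊔ hat K {e}` and has `σ = 1 + 1 + 1 = 1`, so it is in `e + M` (`σ` vanishes on `M`); and
`b i + b j + τ = q o i' + q o j' + e`. Good. Independence modulo `M`: `∑ T b ∈ M ≤ hat K C` implies
`∑ T (g o + g (κ i')) ∈ hat K C`, so `T = ∅` (`gind`); `∑ T b + e ∈ M ≤ hat K C` gives `T = ∅` and `e ∈ M`, but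
`σ e = 1`. This contradicts `hO`. So `ε = 0` (even links).
Take the first `n` indices: `ι i := κ i`. `cl i := ` the set of the vertices in the component `c (ι i)`
(finset, classical filter). `v i j`: the end of `q (ι i) (ι j)` in `c (ι i)` (`exists_clusters`; `v` may be defined
for `i = j` arbitrarily, e.g. any vertex of the component). `exists_centroid` for the component
`c (ι i)` (`cG_acyclic`) and the family `v i j`, `j ≠ i` (index type `{j // j ≠ i}` with `n - 1`
elements): the root `a i`, the walks; `tp i j := ` support of the walk. `n` even: `2 * # ≤ n - 1` implies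
`2 * # + 2 ≤ n`. All edges of `cG` are even edges of `mSG S φ σ` (`hσ`): `SG.Path.of_walk`. `conn`: a path
in the component. Clusters are disjoint because `c`, `ι` are injective. The link:
`G.adj 0 (v i j) (v j i)`: `φ (q (ι i) (ι j)) = pr (v i j) (v j i)` — for the pair `(j, i)` the
vertices given by `exists_clusters` may be chosen by symmetry: choose them for `i < j` and use
`qsymm` (or: `pr u w = pr u' w'` with `u ≠ w` determines `{u, w}`, and the components tell which is
which).
-/

namespace Pool.Agent.HC

open Finset Module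

/-- all the data of section 4: clusters in the signed graph of a model, linked by elements
`q (ι i) (ι j)`; `cl i` is a component of `cG C e φ` -/
structure CData {V : Type} [AddCommGroup V] [Module F2 V] [DecidableEq V] {U : Type} [Fintype U]
    [DecidableEq U] (S C : Finset V) {N n : ℕ} (q : Fin N → Fin N → V) (e : V)
    (φ : V →ₗ[F2] (U → F2)) (σ : V →ₗ[F2] F2) (ι : Fin n → Fin N) (cl : Fin n → Finset U)
    (a : Fin n → U) (v : Fin n → Fin n → U) (tp : Fin n → Fin n → List U) : Prop where
  clus : Clus (mSG S φ σ) cl a v tp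
  inj : Function.Injective ι
  comp : ∀ i u, u ∈ cl i ↔ (cG C e φ).Reachable (a i) u
  lnk : ∀ i j, i ≠ j → φ (q (ι i) (ι j)) = pr (v i j) (v j i)
  even : ∀ i j, i ≠ j → σ (q (ι i) (ι j)) = 0

/-- all odd links give the excluded minor -/
private theorem cl3_odd {m N : ℕ} (hm : 4 ≤ m) {V : Type} [AddCommGroup V] [Module F2 V]
    [DecidableEq V] [FiniteDimensional F2 V] {K : Submodule F2 V} {S C : Finset V} {g : Fin N → V}
    {q : Fin N → Fin N → V} {e : V} {σ : V →ₗ[F2] F2} (h : IsQ K S C g q) (he : e ∈ C)
    (heσ : σ e = 1) (hσ : ∀ v ∈ hat K ((C.erase e : Finset V) : Set V), σ v = 0)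
    (κ : Fin (2 * m + 1) → Fin N) (hκ : Function.Injective κ)
    (h1 : ∀ i j, i ≠ j → σ (q (κ i) (κ j)) = 1) : HasO m K S := by
  classical
  set M := hat K ((C.erase e : Finset V) : Set V) with hM
  have hMC : hat K (C : Set V) = hat M {e} := by
    rw [hM, hat_hat]
    congr 1
    rw [coe_erase, Set.union_singleton, Set.insert_sdiff_singleton,
      Set.insert_eq_of_mem (mem_coe.2 he)]
  have hMle : M ≤ hat K (C : Set V) := by rw [hMC]; exact le_hat _ _
  have heC : e ∈ hat K (C : Set V) := subset_hat K _ (mem_coe.2 he)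
  have hM1 : ∀ v ∈ hat K (C : Set V), σ v = 1 → v + e ∈ M := by
    intro v hv hv1
    rw [hMC] at hv
    rcases (mem_hat_singleton M e v).1 hv with h2 | h2
    · rw [hσ v h2] at hv1
      exact absurd hv1 (by decide)
    · exact h2
  let o : Fin N := κ 0
  let k : Fin (2 * m) → Fin N := fun i => κ i.succ
  have hk : Function.Injective k := fun i j hij => Fin.succ_injective _ (hκ hij)
  have hok : ∀ i, o ≠ k i := fun i hi => (Fin.succ_ne_zero i) (hκ hi).symm
  let b : Fin (2 * m) → V := fun i => q o (k i) + e
  -- sums of the b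
  have hsum : ∀ T : Finset (Fin (2 * m)), ∑ i ∈ T, b i ∈ hat K (C : Set V) → T = ∅ := by
    intro T hT
    have h2 : ∑ i ∈ T, (g o + g (k i)) ∈ hat K (C : Set V) := by
      have h3 : ∑ i ∈ T, (b i + (g o + g (k i))) ∈ hat K (C : Set V) := by
        refine Submodule.sum_mem _ fun i _ => ?_
        have h4 := h.qg o (k i) (hok i)
        have h5 : b i + (g o + g (k i)) = (q o (k i) + (g o + g (k i))) + e := by
          simp only [b]
          abel
        rw [h5]
        exact Submodule.add_mem _ h4 heC
      rw [sum_add_distrib, add_comm] at h3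
      exact mem_of_add_mem2 h3 hT
    rw [sum_add_distrib, sum_const] at h2
    have h6 : ∑ i ∈ T, g (k i) = ∑ j ∈ T.image k, g j := by
      rw [sum_image (fun x _ y _ hxy => hk hxy)]
    have h7 : (T.image k).card = T.card := card_image_of_injective _ hk
    have h8 : ∀ T' : Finset (Fin N), T.image k ⊆ T' → T' = ∅ → T = ∅ := by
      intro T' hT' hT2
      rw [hT2] at hT'
      exact image_eq_empty.1 (subset_empty.1 hT')
    by_cases hev : Even T.card
    · obtain ⟨r, hr⟩ := hev
      have h9 : T.card • g o = 0 := by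
        rw [hr, add_smul, add_self2]
      rw [h9, zero_add, h6] at h2
      exact h8 _ (Finset.Subset.refl _) (h.gind _ (by rw [h7]; exact ⟨r, hr⟩) h2)
    · have hod : ¬ Even T.card := hev
      rw [Nat.not_even_iff_odd] at hod
      obtain ⟨r, hr⟩ := hod
      have h9 : T.card • g o = g o := by
        rw [hr, add_smul, two_mul, add_smul, add_self2, zero_add, one_smul]
      have h10 : o ∉ T.image k := by
        intro ho
        obtain ⟨i, -, hi⟩ := mem_image.1 ho
        exact hok i hi.symm
      rw [h9, h6, ← sum_insert h10] at h2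
      refine h8 _ (subset_insert _ _) (h.gind _ ?_ h2)
      rw [card_insert_of_notMem h10, h7, hr]
      exact ⟨r + 1, by ring⟩
  have hO : HasO m M S := by
    refine hasO_of_odd hm b e (fun T hT => hsum T (hMle hT)) ?_ ?_
    · intro T hT
      have h2 : ∑ i ∈ T, b i ∈ hat K (C : Set V) := mem_of_add_mem2 (hMle hT) heC
      have h3 := hsum T h2
      rw [h3, sum_empty, zero_add] at hT
      have h4 := hσ e hT
      rw [heσ] at h4
      exact absurd h4 (by decide)
    · intro i j hij
      refine ⟨q (k i) (k j), h.qS _ _ (fun h2 => hij (hk h2)), ?_⟩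
      have h2 : q (k i) (k j) + (q o (k i) + q o (k j)) ∈ hat K (C : Set V) := by
        have h3 := h.qg _ _ (fun h2 => hij (hk h2) : k i ≠ k j)
        have h4 := h.qg _ _ (hok i)
        have h5 := h.qg _ _ (hok j)
        have h6 := Submodule.add_mem _ (Submodule.add_mem _ h3 h4) h5
        have h7 : q (k i) (k j) + (g (k i) + g (k j)) + (q o (k i) + (g o + g (k i))) +
            (q o (k j) + (g o + g (k j))) = q (k i) (k j) + (q o (k i) + q o (k j)) := by
          have ha := add_self2 (g (k i))
          have hb := add_self2 (g (k j))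
          have hc := add_self2 (g o)
          calc _ = q (k i) (k j) + (q o (k i) + q o (k j)) + (g (k i) + g (k i)) +
                (g (k j) + g (k j)) + (g o + g o) := by abel
            _ = _ := by rw [ha, hb, hc]; simp only [add_zero]
        rwa [h7] at h6
      have h3 : σ (q (k i) (k j) + (q o (k i) + q o (k j))) = 1 := by
        rw [map_add, map_add, h1 _ _ (fun h4 => hij (Fin.succ_injective _ h4)),
          h1 _ _ (Fin.succ_ne_zero i).symm, h1 _ _ (Fin.succ_ne_zero j).symm]
        decide
      have h4 := hM1 _ h2 h3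
      have h5 : q (k i) (k j) + (b i + b j + e) =
          q (k i) (k j) + (q o (k i) + q o (k j)) + e := by
        simp only [b]
        have ha := add_self2 e
        calc _ = q (k i) (k j) + (q o (k i) + q o (k j)) + e + (e + e) := by abel
          _ = _ := by rw [ha, add_zero]
      rw [h5]
      exact h4
  exact hO.mono ((erase_subset e C).trans h.CS) (Finset.Subset.refl S)

private theorem cl3_head {U : Type} {H : SimpleGraph U} {a b : U} (w : H.Walk a b) :
    w.support.head? = some a := by
  cases w <;> simp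

private theorem cl3_last {U : Type} {H : SimpleGraph U} {a b : U} (w : H.Walk a b) :
    w.support.getLast? = some b := by
  rw [List.getLast?_eq_some_getLast (SimpleGraph.Walk.support_ne_nil w),
    SimpleGraph.Walk.getLast_support]

private theorem cl3_reach {U : Type} {H : SimpleGraph U} {a b : U} (w : H.Walk a b) {x : U}
    (hx : x ∈ w.support) : H.Reachable a x := by
  classical
  exact ⟨w.takeUntil x hx⟩

theorem exists_CData (m n : ℕ) (hm : 4 ≤ m) (hn : Even n) (hn2 : 2 ≤ n) : ∃ N0 : ℕ, ∀ N, N0 ≤ N →
    ∀ (V : Type) [AddCommGroup V] [Module F2 V] [DecidableEq V] [FiniteDimensional F2 V]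
      (K : Submodule F2 V) (S C : Finset V) (g : Fin N → V) (q : Fin N → Fin N → V) (e : V)
      (U : Type) [Fintype U] [DecidableEq U] (φ : V →ₗ[F2] (U → F2)) (σ : V →ₗ[F2] F2),
      IsQ K S C g q → ¬ HasO m K S → FMdl K S e φ σ → e ∈ C →
      (∀ v ∈ hat K ((C.erase e : Finset V) : Set V), σ v = 0) →
      ∃ (ι : Fin n → Fin N) (cl : Fin n → Finset U) (a : Fin n → U) (v : Fin n → Fin n → U)
        (tp : Fin n → Fin n → List U), CData S C q e φ σ ι cl a v tp := by
  obtain ⟨N1, hN1⟩ := Pool.Agent.Helper39.TC.ramsey_mono F2 (n + 2 * m + 1)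
  refine ⟨max N1 3, ?_⟩
  intro N hN V _ _ _ _ K S C g q e U _ _ φ σ h hO hm2 he hσ
  classical
  have hN1N : N1 ≤ N := (le_max_left _ _).trans hN
  have hN3 : 3 ≤ N := (le_max_right _ _).trans hN
  obtain ⟨κ0, ε, hκ0⟩ := hN1 (fun x y => σ (q (Fin.castLE hN1N x) (Fin.castLE hN1N y)))
  let κ : Fin (n + 2 * m + 1) → Fin N := fun i => Fin.castLE hN1N (κ0 i)
  have hκ : Function.Injective κ := fun i j hij =>
    κ0.injective (Fin.castLE_injective hN1N hij)
  have hκ1 : ∀ i j, i < j → some (σ (q (κ i) (κ j))) = ε := hκ0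
  have hκ2 : ∀ i j, i ≠ j → some (σ (q (κ i) (κ j))) = ε := by
    intro i j hij
    rcases lt_or_gt_of_ne hij with h2 | h2
    · exact hκ1 i j h2
    · rw [h.qsymm]
      exact hκ1 j i h2
  -- all links are even
  have hev : ∀ i j, i ≠ j → σ (q (κ i) (κ j)) = 0 := by
    intro i0 j0 hij0
    rcases F2_cases (σ (q (κ i0) (κ j0))) with h2 | h2
    · exact h2
    · exfalso
      have hε : ε = some 1 := by rw [← hκ2 i0 j0 hij0, h2]
      apply hO
      have hle : 2 * m + 1 ≤ n + 2 * m + 1 := by omega
      refine cl3_odd hm h he hm2.eσ hσ (fun i => κ (Fin.castLE hle i))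
        (fun i j hij => Fin.castLE_injective hle (hκ hij)) ?_
      intro i j hij
      have h3 := hκ2 (Fin.castLE hle i) (Fin.castLE hle j)
        (fun h4 => hij (Fin.castLE_injective hle h4))
      rw [hε] at h3
      exact Option.some.inj h3
  obtain ⟨c, hcinj, hc⟩ := exists_clusters h hN3 hm2 he
  have hac := cG_acyclic h hm2 hσ
  choose u0 w0 hq0 hu0 hw0 using hc
  -- the ends of the links
  have hv : ∃ v : Fin N → Fin N → U, ∀ i j, i ≠ j → φ (q i j) = pr (v i j) (v j i) ∧
      (cG C e φ).connectedComponentMk (v i j) = c i := by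
    refine ⟨fun i j => if h2 : i ≠ j then (if i < j then u0 i j h2 else w0 j i h2.symm)
      else (c i).exists_rep.choose, ?_⟩
    intro i j hij
    rcases lt_or_gt_of_ne hij with h2 | h2
    · have h3 : ¬ j < i := not_lt.2 h2.le
      simp only [dif_pos hij, dif_pos hij.symm, if_pos h2, if_neg h3]
      exact ⟨hq0 i j hij, hu0 i j hij⟩
    · have h3 : ¬ i < j := not_lt.2 h2.le
      simp only [dif_pos hij, dif_pos hij.symm, if_pos h2, if_neg h3]
      refine ⟨?_, hw0 j i hij.symm⟩
      rw [h.qsymm, hq0 j i hij.symm, pr, pr, add_comm]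
  obtain ⟨v, hv⟩ := hv
  have hle2 : n ≤ n + 2 * m + 1 := by omega
  let ι : Fin n → Fin N := fun i => κ (Fin.castLE hle2 i)
  have hι : Function.Injective ι := fun i j hij => Fin.castLE_injective hle2 (hκ hij)
  have hne : ∀ {i j : Fin n}, i ≠ j → ι i ≠ ι j := fun hij h2 => hij (hι h2)
  -- the roots and the paths
  have hcen : ∀ i : Fin n, ∃ r : U, (cG C e φ).connectedComponentMk r = c (ι i) ∧
      ∃ w : ∀ j : {j : Fin n // j ≠ i}, (cG C e φ).Walk r (v (ι i) (ι j.1)),
        (∀ j, (w j).IsPath) ∧ ∀ t, t ≠ r →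
          2 * (univ.filter (fun j => t ∈ (w j).support)).card ≤
            Fintype.card {j : Fin n // j ≠ i} := by
    intro i
    exact exists_centroid (cG C e φ) hac (c (ι i)) (fun j : {j : Fin n // j ≠ i} =>
      v (ι i) (ι j.1)) (fun j => (hv (ι i) (ι j.1) (hne j.2.symm)).2)
  choose a ha w hwp hwc using hcen
  let cl : Fin n → Finset U := fun i => univ.filter
    (fun u => (cG C e φ).connectedComponentMk u = c (ι i))
  have hcl : ∀ i u, u ∈ cl i ↔ (cG C e φ).connectedComponentMk u = c (ι i) := by
    intro i u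
    simp [cl]
  have hclr : ∀ i u, u ∈ cl i ↔ (cG C e φ).Reachable (a i) u := by
    intro i u
    rw [hcl, ← ha i, SimpleGraph.ConnectedComponent.eq]
    exact ⟨fun h2 => h2.symm, fun h2 => h2.symm⟩
  let tp : Fin n → Fin n → List U := fun i j => if h2 : j ≠ i then (w i ⟨j, h2⟩).support else []
  have htp : ∀ i j (hij : i ≠ j), tp i j = (w i ⟨j, hij.symm⟩).support := by
    intro i j hij
    simp only [tp]
    rw [dif_pos hij.symm]
  have hedge : ∀ u w, (cG C e φ).Adj u w → (mSG S φ σ).adj 0 u w := by
    rintro u w ⟨huw, x, hx, hxe, hφ⟩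
    refine ⟨huw, x, h.CS hx, hφ, ?_⟩
    exact hσ x (subset_hat K _ (mem_coe.2 (mem_erase.2 ⟨hxe, hx⟩)))
  refine ⟨ι, cl, a, fun i j => v (ι i) (ι j), tp, ?_, hι, hclr, ?_, ?_⟩
  · refine ⟨?_, ?_, ?_, ?_, ?_, ?_, ?_, ?_, ?_, ?_⟩
    · intro i j hij
      rw [disjoint_left]
      intro u hu hu2
      rw [hcl] at hu hu2
      exact hne hij (hcinj (hu.symm.trans hu2))
    · intro i
      rw [hcl]
      exact ha i
    · intro i j hij
      rw [hcl]
      exact (hv _ _ (hne hij)).2
    · intro i j hij
      refine ⟨?_, q (ι i) (ι j), h.qS _ _ (hne hij), (hv _ _ (hne hij)).1, hev _ _ ?_⟩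
      · intro h2
        have h3 := (hv _ _ (hne hij)).2
        have h4 := (hv _ _ (hne hij.symm)).2
        rw [h2] at h3
        exact hne hij (hcinj (h3.symm.trans h4))
      · intro h2
        exact hij (Fin.castLE_injective hle2 h2)
    · intro i j hij
      rw [htp i j hij]
      exact SG.Path.of_walk hedge _ (hwp i _)
    · intro i j hij x hx
      rw [htp i j hij] at hx
      rw [hclr]
      exact cl3_reach _ hx
    · intro i j hij
      rw [htp i j hij]
      exact cl3_head _
    · intro i j hij
      rw [htp i j hij]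
      exact cl3_last _
    · intro i x hx
      rw [hclr] at hx
      obtain ⟨p, hp⟩ := hx.exists_isPath
      refine ⟨p.support, SG.Path.of_walk hedge _ hp, ?_, cl3_head _, cl3_last _⟩
      intro y hy
      rw [hclr]
      exact cl3_reach _ hy
    · intro i t ht
      have h2 := hwc i t ht
      have h3 : (univ.filter (fun j => j ≠ i ∧ t ∈ tp i j)).card =
          (univ.filter (fun j : {j : Fin n // j ≠ i} => t ∈ (w i j).support)).card := by
        refine (card_bij (fun (j : {j : Fin n // j ≠ i}) _ => j.1) ?_ ?_ ?_).symm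
        · intro j hj
          rw [mem_filter] at hj ⊢
          refine ⟨mem_univ _, j.2, ?_⟩
          rw [htp i j.1 j.2.symm]
          exact hj.2
        · intro j _ j' _ hjj
          exact Subtype.ext hjj
        · intro j hj
          rw [mem_filter] at hj
          refine ⟨⟨j, hj.2.1⟩, ?_, rfl⟩
          rw [mem_filter]
          refine ⟨mem_univ _, ?_⟩
          have h4 := hj.2.2
          rw [htp i j hj.2.1.symm] at h4
          exact h4
      have h4 : Fintype.card {j : Fin n // j ≠ i} = n - 1 := by
        rw [Fintype.card_subtype_compl, Fintype.card_fin]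
        simp
      rw [h4, ← h3] at h2
      obtain ⟨r, hr⟩ := hn
      omega
  · intro i j hij
    exact (hv _ _ (hne hij)).1
  · intro i j hij
    exact hev _ _ (fun h2 => hij (Fin.castLE_injective hle2 h2))

end Pool.Agent.HC
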