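import Pool.Agent.HC.Mdl

/-!
# HC-Mod2: cuts in the graph of a model

`lam_stE`: let `v ∈ guts K S (stE S φ I)`. `v ∈ hat K (S \ stE I)` gives `φ v = 0` on `I`, and
`v ∈ hat K (stE I)` gives: `φ v` vanishes off `I ∪ T`. So `φ v` is an even vector supported in `T`. The
map `v ↦ (φ v, σ v)` is injective on `hat K S` modulo `K` (`inj`), its image on the guts lies in
(even vectors on `T`) × `F2`, of dimension `T.card - 1 + 1 = T.card`. (In Lean: map `v` to
`(φ v restricted to T.erase t0, σ v)`, a space of dimension `T.card`; kernel on the guts is `K`.)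
`three_le_card_star`: `Y = stE S φ {v}`. It is nonempty: `conn v w` gives `x ∈ hat K S` with
`φ x v ≠ 0`, impossible if no element has the end `v`. If `Y = {x}`: `guts K S Y`: an
element of it is in `hat K {x}` and has `φ _ v = 0`, so it is in `K`: `lam = 0`, against `c1`. If
`Y = {x, y}`: elements of the guts are in `hat K {x, y}` and vanish at `v`, so in `hat K {x + y}`:
`lam ≤ 1`, against `c2`.
`no_one_cut`: `v ∈ I`, `stE {v} ⊆ stE I`, so `3 ≤ (stE {v}).card ≤ (stE I).card` (small by `ht.sub`;
`t ≠ v`), `2 ≤ lam` by `c2`, but `lam ≤ 1` by `lam_stE` with `T = {t}`.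
`two_cut`: `lam ≤ 2` by `lam_stE` with `T = {t, z}` (at most two elements), so `(stE I).card ≤ 3`
(`c3`), so `stE {v} = stE I` for every `v ∈ I`. If `v ≠ v'` are in `I` all three elements `x` have
`φ x = pr v v'`; two of them have the same `σ`, so their sum is in `K` (`inj`), against `npar`.
-/

namespace Pool.Agent.HC

open Finset Module

variable {V : Type} [AddCommGroup V] [Module F2 V] [DecidableEq V] [FiniteDimensional F2 V]
  {K : Submodule F2 V} {S : Finset V} {e : V} {U : Type} [Fintype U] [DecidableEq U]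
  {φ : V →ₗ[F2] (U → F2)} {σ : V →ₗ[F2] F2} {sm : Finset V → Prop}

omit [Fintype U] in
private theorem m2_pr (u v w : U) :
    pr u v w = (if w = u then 1 else 0) + (if w = v then 1 else 0) := by
  unfold pr
  rw [Pi.add_apply, Pi.single_apply, Pi.single_apply]

omit [DecidableEq V] [FiniteDimensional F2 V] [Fintype U] [DecidableEq U] in
private theorem m2_mem {x : V} {I : Finset U} :
    x ∈ stE S φ I ↔ x ∈ S ∧ ∃ u ∈ I, φ x u ≠ 0 := by
  classical
  unfold stE
  rw [Finset.mem_filter]

omit [FiniteDimensional F2 V] in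
private theorem m2_sum (hm : Mdl K S e φ σ) {x : V} (hx : x ∈ hat K (S : Set V)) :
    ∑ u, φ x u = 0 := by
  have h1 : hat K (S : Set V) ≤
      LinearMap.ker ((∑ u : U, LinearMap.proj u : (U → F2) →ₗ[F2] F2).comp φ) := by
    refine hat_le ?_ ?_
    · intro y hy
      rw [LinearMap.mem_ker, LinearMap.comp_apply, hm.kφ y hy, map_zero]
    · intro y hy
      rw [SetLike.mem_coe, LinearMap.mem_ker, LinearMap.comp_apply]
      rcases hm.edge y hy with h | ⟨u, v, _, h⟩
      · rw [h, map_zero]
      · rw [h, LinearMap.sum_apply]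
        simp only [LinearMap.proj_apply, m2_pr, Finset.sum_add_distrib, Finset.sum_ite_eq',
          Finset.mem_univ, if_true]
        exact add_self2 (V := F2) _
  have h2 := h1 hx
  rw [LinearMap.mem_ker, LinearMap.comp_apply, LinearMap.sum_apply] at h2
  exact h2

omit [FiniteDimensional F2 V] in
private theorem m2_zero_of (hm : Mdl K S e φ σ) {X : Set V} {u : U} (h : ∀ y ∈ X, φ y u = 0)
    {x : V} (hx : x ∈ hat K X) : φ x u = 0 := by
  have h1 : hat K X ≤ LinearMap.ker ((LinearMap.proj u : (U → F2) →ₗ[F2] F2).comp φ) := by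
    refine hat_le ?_ ?_
    · intro y hy
      rw [LinearMap.mem_ker, LinearMap.comp_apply, hm.kφ y hy, map_zero]
    · intro y hy
      rw [SetLike.mem_coe, LinearMap.mem_ker, LinearMap.comp_apply]
      exact h y hy
  have h2 := h1 hx
  rwa [LinearMap.mem_ker, LinearMap.comp_apply] at h2

omit [FiniteDimensional F2 V] in
private theorem m2_compl (hm : Mdl K S e φ σ) {I : Finset U} {x : V}
    (hx : x ∈ hat K ((S \ stE S φ I : Finset V) : Set V)) {u : U} (hu : u ∈ I) : φ x u = 0 := by
  refine m2_zero_of hm (fun y hy => ?_) hx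
  rw [Finset.mem_coe, Finset.mem_sdiff, m2_mem] at hy
  by_contra h
  exact hy.2 ⟨hy.1, u, hu, h⟩

theorem lam_stE (hm : Mdl K S e φ σ) {I T : Finset U} (hT : T.Nonempty)
    (h : ∀ x ∈ stE S φ I, ∀ u, φ x u ≠ 0 → u ∈ I ∨ u ∈ T) : lam K S (stE S φ I) ≤ T.card := by
  classical
  obtain ⟨t0, ht0⟩ := hT
  let f : guts K S (stE S φ I) →ₗ[F2] ({u // u ∈ T.erase t0} → F2) × F2 :=
    (LinearMap.prod (LinearMap.pi fun u : {u // u ∈ T.erase t0} =>
      (LinearMap.proj (u : U) : (U → F2) →ₗ[F2] F2).comp φ) σ).comp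
        (guts K S (stE S φ I)).subtype
  have h1 : (LinearMap.ker f).map (guts K S (stE S φ I)).subtype ≤ K := by
    rintro x ⟨⟨v, hv⟩, hv0, rfl⟩
    have hv1 : f ⟨v, hv⟩ = 0 := hv0
    have hσ : σ v = 0 := congrArg Prod.snd hv1
    have hφ : ∀ u ∈ T.erase t0, φ v u = 0 := fun u hu =>
      congrFun (congrArg Prod.fst hv1) ⟨u, hu⟩
    have hvX : v ∈ hat K ((stE S φ I : Finset V) : Set V) := hv.1
    have hvY : v ∈ hat K ((S \ stE S φ I : Finset V) : Set V) := hv.2
    have hvS : v ∈ hat K (S : Set V) :=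
      hat_mono le_rfl (Finset.coe_subset.2 Finset.sdiff_subset) hvY
    have hne : ∀ u, u ≠ t0 → φ v u = 0 := by
      intro u hu
      by_cases huI : u ∈ I
      · exact m2_compl hm hvY huI
      · by_cases huT : u ∈ T
        · exact hφ u (Finset.mem_erase.2 ⟨hu, huT⟩)
        · refine m2_zero_of hm (fun y hy => ?_) hvX
          by_contra hy0
          rcases h y (Finset.mem_coe.1 hy) u hy0 with h' | h'
          · exact huI h'
          · exact huT h'
    have ht : φ v t0 = 0 := by
      have hs := m2_sum hm hvS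
      rwa [Finset.sum_eq_single t0 (fun u _ hu => hne u hu)
        (fun h' => absurd (Finset.mem_univ _) h')] at hs
    refine hm.inj v hvS ?_ hσ
    funext u
    by_cases hu : u = t0
    · rw [hu]
      exact ht
    · exact hne u hu
  have h2 : finrank F2 (LinearMap.ker f) ≤ finrank F2 K := by
    rw [← Submodule.finrank_map_subtype_eq (guts K S (stE S φ I)) (LinearMap.ker f)]
    exact Submodule.finrank_mono h1
  have h3 := LinearMap.finrank_range_add_finrank_ker f
  have h4 : finrank F2 (LinearMap.range f) ≤ (T.erase t0).card + 1 := by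
    refine (Submodule.finrank_le _).trans ?_
    rw [Module.finrank_prod, Module.finrank_fintype_fun_eq_card, Fintype.card_coe,
      Module.finrank_self]
  have h5 := lam_add K S (stE S φ I)
  have h6 := Finset.card_erase_add_one ht0
  omega

private theorem m2_val (hm : Mdl K S e φ σ) {x : V} {v : U} (hx : x ∈ stE S φ {v}) :
    φ x v ≠ 0 := by
  obtain ⟨_, u, hu, h⟩ := m2_mem.1 hx
  rwa [Finset.mem_singleton.1 hu] at h

theorem three_le_card_star (ht : Tight K S sm) (hm : FMdl K S e φ σ) {v w : U} (hvw : v ≠ w)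
    (hs : sm (stE S φ {v})) : 3 ≤ (stE S φ {v}).card := by
  have hm' : Mdl K S e φ σ := hm.toMdl
  have h0 : (stE S φ {v}).Nonempty := by
    by_contra hne
    rw [Finset.not_nonempty_iff_eq_empty] at hne
    obtain ⟨x, hx, hxe⟩ := hm.conn v w
    have h1 : φ x v = 0 := by
      refine m2_zero_of hm' (fun y hy => ?_) hx
      by_contra h2
      have h3 : y ∈ stE S φ {v} := m2_mem.2 ⟨hy, v, Finset.mem_singleton_self v, h2⟩
      rw [hne] at h3
      exact Finset.notMem_empty _ h3
    rw [hxe, m2_pr, if_pos rfl, if_neg hvw, add_zero] at h1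
    exact one_ne_zero h1
  have hg : ∀ g ∈ guts K S (stE S φ {v}), φ g v = 0 := fun g hg =>
    m2_compl hm' hg.2 (Finset.mem_singleton_self v)
  have hlam := lam_add K S (stE S φ {v})
  by_contra hlt
  have hpos := Finset.card_pos.2 h0
  have hcard : (stE S φ {v}).card = 1 ∨ (stE S φ {v}).card = 2 := by omega
  rcases hcard with hc | hc
  · obtain ⟨x, hx⟩ := Finset.card_eq_one.1 hc
    have hxv : φ x v ≠ 0 := m2_val hm' (hx ▸ Finset.mem_singleton_self x)
    have h1 := ht.c1 _ hs h0
    have h2 : guts K S (stE S φ {v}) ≤ K := by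
      intro g hgm
      have h3 : g ∈ hat K ((stE S φ {v} : Finset V) : Set V) := hgm.1
      rw [hx, Finset.coe_singleton, mem_hat_singleton] at h3
      rcases h3 with h3 | h3
      · exact h3
      · exfalso
        have h4 := congrFun (hm.kφ _ h3) v
        rw [map_add, Pi.add_apply, hg g hgm, zero_add] at h4
        exact hxv h4
    have h5 := Submodule.finrank_mono h2
    omega
  · obtain ⟨x, y, hxy, hx⟩ := Finset.card_eq_two.1 hc
    have hxv : φ x v = 1 := by
      have h1 : φ x v ≠ 0 := m2_val hm' (hx ▸ by simp)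
      rcases F2_cases (φ x v) with h2 | h2
      · exact absurd h2 h1
      · exact h2
    have hyv : φ y v = 1 := by
      have h1 : φ y v ≠ 0 := m2_val hm' (hx ▸ by simp)
      rcases F2_cases (φ y v) with h2 | h2
      · exact absurd h2 h1
      · exact h2
    have h1 := ht.c2 _ hs (by omega)
    have h2 : guts K S (stE S φ {v}) ≤ hat K {x + y} := by
      intro g hgm
      rw [mem_hat_singleton]
      have h3 : g ∈ hat K ((stE S φ {v} : Finset V) : Set V) := hgm.1
      have hg0 := hg g hgm
      rw [hx, Finset.coe_insert, Finset.coe_singleton, hat_insert, Submodule.mem_sup] at h3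
      obtain ⟨a, ha, b, hb, rfl⟩ := h3
      rw [mem_hat_singleton] at ha hb
      rw [map_add, Pi.add_apply] at hg0
      have key : ∀ c z : V, c + z ∈ K → φ c v = φ z v := by
        intro c z hcz
        have h4 := congrFun (hm.kφ _ hcz) v
        rw [map_add, Pi.add_apply, Pi.zero_apply] at h4
        have h5 := (add_eq_iff2 (φ c v) (φ z v) 0).1 h4
        rwa [zero_add] at h5
      have keyK : ∀ c : V, c ∈ K → φ c v = 0 := fun c hc => congrFun (hm.kφ _ hc) v
      rcases ha with ha | ha
      · rcases hb with hb | hb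
        · exact Or.inl (K.add_mem ha hb)
        · exfalso
          rw [keyK a ha, key b x hb, hxv, zero_add] at hg0
          exact one_ne_zero hg0
      · rcases hb with hb | hb
        · exfalso
          rw [key a y ha, keyK b hb, hyv, add_zero] at hg0
          exact one_ne_zero hg0
        · right
          have h6 := K.add_mem ha hb
          have h7 : a + b + (x + y) = a + y + (b + x) := by abel
          rw [h7]
          exact h6
    have h3 : x + y ∉ K := by
      intro h4
      have hxS : x ∈ S := (m2_mem.1 (show x ∈ stE S φ {v} by rw [hx]; simp)).1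
      have hyS : y ∈ S := (m2_mem.1 (show y ∈ stE S φ {v} by rw [hx]; simp)).1
      exact hxy (ht.npar x hxS y hyS h4)
    have h4 := Submodule.finrank_mono h2
    rw [finrank_hat_singleton K (x + y) h3] at h4
    omega

omit [FiniteDimensional F2 V] [Fintype U] [DecidableEq U] in
private theorem m2_sub {I : Finset U} {v : U} (hv : v ∈ I) : stE S φ {v} ⊆ stE S φ I := by
  intro x hx
  obtain ⟨h1, u, hu, h2⟩ := m2_mem.1 hx
  rw [Finset.mem_singleton] at hu
  subst hu
  exact m2_mem.2 ⟨h1, u, hv, h2⟩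

theorem no_one_cut (ht : Tight K S sm) (hm : FMdl K S e φ σ) {I : Finset U} {t : U}
    (hI : I.Nonempty) (ht' : t ∉ I) (hs : sm (stE S φ I))
    (h : ∀ x ∈ stE S φ I, ∀ u, φ x u ≠ 0 → u ∈ I ∨ u = t) : False := by
  obtain ⟨v, hv⟩ := hI
  have hvt : v ≠ t := fun h' => ht' (h' ▸ hv)
  have h1 := three_le_card_star ht hm hvt (ht.sub _ _ hs (m2_sub hv))
  have h2 := Finset.card_le_card (m2_sub (S := S) (φ := φ) hv)
  have h3 := ht.c2 _ hs (by omega)
  have h4 := lam_stE hm.toMdl (I := I) (T := {t}) (Finset.singleton_nonempty t)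
    (fun x hx u hu => by
      rw [Finset.mem_singleton]
      exact h x hx u hu)
  rw [Finset.card_singleton] at h4
  omega

omit [FiniteDimensional F2 V] in
private theorem m2_eq_pr (hm : Mdl K S e φ σ) {x : V} (hx : x ∈ S) {v v' : U} (hvv : v ≠ v')
    (h1 : φ x v ≠ 0) (h2 : φ x v' ≠ 0) : φ x = pr v v' := by
  rcases hm.edge x hx with h | ⟨a, b, hab, h⟩
  · rw [h] at h1
    exact absurd rfl h1
  · rw [h, m2_pr] at h1 h2
    rw [h]
    have ha : v = a ∨ v = b := by
      by_contra hc
      rw [not_or] at hc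
      rw [if_neg hc.1, if_neg hc.2, add_zero] at h1
      exact h1 rfl
    have hb : v' = a ∨ v' = b := by
      by_contra hc
      rw [not_or] at hc
      rw [if_neg hc.1, if_neg hc.2, add_zero] at h2
      exact h2 rfl
    rcases ha with ha | ha <;> rcases hb with hb | hb
    · exact absurd (ha.trans hb.symm) hvv
    · rw [ha, hb]
    · rw [ha, hb, pr, pr, add_comm]
    · exact absurd (ha.trans hb.symm) hvv

theorem two_cut (ht : Tight K S sm) (hm : FMdl K S e φ σ) {I : Finset U} {t z : U}
    (hI : I.Nonempty) (ht' : t ∉ I) (hz : z ∉ I) (hs : sm (stE S φ I))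
    (h : ∀ x ∈ stE S φ I, ∀ u, φ x u ≠ 0 → u ∈ I ∨ u = t ∨ u = z) :
    ∃ v, I = {v} ∧ (stE S φ {v}).card = 3 := by
  have h4 := lam_stE hm.toMdl (I := I) (T := {t, z}) (Finset.insert_nonempty t {z})
    (fun x hx u hu => by
      rw [Finset.mem_insert, Finset.mem_singleton]
      exact h x hx u hu)
  have h5 : lam K S (stE S φ I) ≤ 2 := h4.trans (Finset.card_le_two)
  have h6 := ht.c3 _ hs h5
  have hstar : ∀ v ∈ I, stE S φ {v} = stE S φ I ∧ (stE S φ {v}).card = 3 := by
    intro v hv
    have hvt : v ≠ t := fun h' => ht' (h' ▸ hv)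
    have h1 := three_le_card_star ht hm hvt (ht.sub _ _ hs (m2_sub hv))
    have h2 := Finset.card_le_card (m2_sub (S := S) (φ := φ) hv)
    exact ⟨Finset.eq_of_subset_of_card_le (m2_sub hv) (by omega), by omega⟩
  obtain ⟨v, hv⟩ := hI
  refine ⟨v, ?_, (hstar v hv).2⟩
  rw [Finset.eq_singleton_iff_unique_mem]
  refine ⟨hv, fun v' hv' => ?_⟩
  by_contra hvv
  have hc3 : (stE S φ I).card = 3 := by
    rw [← (hstar v hv).1]
    exact (hstar v hv).2
  have hall : ∀ x ∈ stE S φ I, φ x = pr v v' := by
    intro x hx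
    have h1 : φ x v ≠ 0 := m2_val hm.toMdl (by rw [(hstar v hv).1]; exact hx)
    have h2 : φ x v' ≠ 0 := m2_val hm.toMdl (by rw [(hstar v' hv').1]; exact hx)
    exact m2_eq_pr hm.toMdl (m2_mem.1 hx).1 (fun h' => hvv h'.symm) h1 h2
  obtain ⟨x, hx, y, hy, hxy, hσ⟩ : ∃ x ∈ stE S φ I, ∃ y ∈ stE S φ I, x ≠ y ∧ σ x = σ y := by
    refine Finset.exists_ne_map_eq_of_card_lt_of_maps_to (t := (Finset.univ : Finset F2)) ?_
      (fun x _ => Finset.mem_univ _)
    rw [hc3]
    decide
  have hxS := (m2_mem.1 hx).1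
  have hyS := (m2_mem.1 hy).1
  refine hxy (ht.npar x hxS y hyS (hm.inj _ ?_ ?_ ?_))
  · exact Submodule.add_mem _ (subset_hat K _ hxS) (subset_hat K _ hyS)
  · rw [map_add, hall x hx, hall y hy]
    exact add_self2 (V := U → F2) _
  · rw [map_add, hσ]
    exact add_self2 (V := F2) _

end Pool.Agent.HC
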