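import Pool.Agent.HC.Mdl

/-!
# HC-Mod3: the exceptional component
-/

namespace Pool.Agent.HC

open Finset Module

variable {V : Type} [AddCommGroup V] [Module F2 V] [DecidableEq V] [FiniteDimensional F2 V]
  {K : Submodule F2 V} {S : Finset V} {e : V} {U : Type} [Fintype U] [DecidableEq U]
  {φ : V →ₗ[F2] (U → F2)} {σ : V →ₗ[F2] F2} {sm : Finset V → Prop}

omit [Fintype U] in
private theorem m3_pr (u v w : U) :
    pr u v w = (if w = u then 1 else 0) + (if w = v then 1 else 0) := by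
  unfold pr
  rw [Pi.add_apply, Pi.single_apply, Pi.single_apply]

omit [Fintype U] in
private theorem m3_pr_left {u v : U} (h : u ≠ v) : pr u v u = 1 := by
  rw [m3_pr, if_pos rfl, if_neg h, add_zero]

omit [Fintype U] in
private theorem m3_pr_comm (u v : U) : pr u v = pr v u := by
  unfold pr
  exact add_comm _ _

omit [Fintype U] in
private theorem m3_pr_ne {u v w : U} (h : pr u v w ≠ 0) : w = u ∨ w = v := by
  by_contra hc
  rw [not_or] at hc
  rw [m3_pr, if_neg hc.1, if_neg hc.2, add_zero] at h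
  exact h rfl

omit [FiniteDimensional F2 V] [DecidableEq U] in
private theorem m3_mem {s : U → F2} {I T : Finset U} {x : V} :
    x ∈ xE S e φ σ s I T ↔ x = e ∨ (x ∈ S ∧ x ≠ e ∧ (∀ u, φ x u ≠ 0 → u ∈ I ∨ u ∈ T) ∧
      ¬ ((∀ u, φ x u ≠ 0 → u ∈ T) ∧ sg' φ σ s x = 0)) := by
  classical
  unfold xE
  rw [Finset.mem_insert, Finset.mem_filter]

omit [FiniteDimensional F2 V] in
private theorem m3_sum (hm : Mdl K S e φ σ) {x : V} (hx : x ∈ hat K (S : Set V)) :
    ∑ u, φ x u = 0 := by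
  have h1 : hat K (S : Set V) ≤
      LinearMap.ker ((∑ u : U, LinearMap.proj u : (U → F2) →ₗ[F2] F2).comp φ) := by
    refine hat_le ?_ ?_
    · intro y hy
      rw [LinearMap.mem_ker, LinearMap.comp_apply, hm.kφ y hy, map_zero]
    · intro y hy
      rw [SetLike.mem_coe, LinearMap.mem_ker, LinearMap.comp_apply]
      rcases hm.edge y hy with h | ⟨u, v, _, h⟩
      · rw [h, map_zero]
      · rw [h, LinearMap.sum_apply]
        simp only [LinearMap.proj_apply, m3_pr, Finset.sum_add_distrib, Finset.sum_ite_eq',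
          Finset.mem_univ, if_true]
        exact add_self2 (V := F2) _
  have h2 := h1 hx
  rw [LinearMap.mem_ker, LinearMap.comp_apply, LinearMap.sum_apply] at h2
  exact h2

omit [FiniteDimensional F2 V] in
private theorem m3_zero_of (hm : Mdl K S e φ σ) {X : Set V} {u : U} (h : ∀ y ∈ X, φ y u = 0)
    {x : V} (hx : x ∈ hat K X) : φ x u = 0 := by
  have h1 : hat K X ≤ LinearMap.ker ((LinearMap.proj u : (U → F2) →ₗ[F2] F2).comp φ) := by
    refine hat_le ?_ ?_
    · intro y hy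
      rw [LinearMap.mem_ker, LinearMap.comp_apply, hm.kφ y hy, map_zero]
    · intro y hy
      rw [SetLike.mem_coe, LinearMap.mem_ker, LinearMap.comp_apply]
      exact h y hy
  have h2 := h1 hx
  rwa [LinearMap.mem_ker, LinearMap.comp_apply] at h2

/-- the switched sign as a linear map -/
private noncomputable def m3sg (φ : V →ₗ[F2] (U → F2)) (σ : V →ₗ[F2] F2) (s : U → F2) :
    V →ₗ[F2] F2 :=
  σ + ∑ u, s u • (LinearMap.proj u : (U → F2) →ₗ[F2] F2).comp φ

omit [DecidableEq V] [FiniteDimensional F2 V] [DecidableEq U] in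
private theorem m3sg_apply (φ : V →ₗ[F2] (U → F2)) (σ : V →ₗ[F2] F2) (s : U → F2) (x : V) :
    m3sg φ σ s x = sg' φ σ s x := by
  unfold m3sg sg'
  rw [LinearMap.add_apply, LinearMap.sum_apply]
  rfl

theorem sg'_add (φ : V →ₗ[F2] (U → F2)) (σ : V →ₗ[F2] F2) (s : U → F2) (x y : V) :
    sg' φ σ s (x + y) = sg' φ σ s x + sg' φ σ s y := by
  rw [← m3sg_apply, ← m3sg_apply, ← m3sg_apply, map_add]

theorem lam_xE (hm : Mdl K S e φ σ) {I T : Finset U} {s : U → F2} (hT : T.Nonempty)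
    (hIT : Disjoint I T)
    (h1 : ∀ x ∈ S, (∃ u ∈ I, φ x u ≠ 0) → ∀ u, φ x u ≠ 0 → u ∈ I ∨ u ∈ T)
    (h2 : ∀ x ∈ S, x ≠ e → sg' φ σ s x ≠ 0 → ∀ u, φ x u ≠ 0 → u ∈ I ∨ u ∈ T) :
    lam K S (xE S e φ σ s I T) + 1 ≤ T.card := by
  classical
  obtain ⟨t0, ht0⟩ := hT
  set X := xE S e φ σ s I T with hX
  have hcomp : ∀ y ∈ S \ X, (∀ u ∈ I, φ y u = 0) ∧ sg' φ σ s y = 0 := by
    intro y hy
    rw [Finset.mem_sdiff, hX, m3_mem, not_or] at hy
    obtain ⟨hyS, hye, hyn⟩ := hy
    constructor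
    · intro u hu
      by_contra h
      refine hyn ⟨hyS, hye, h1 y hyS ⟨u, hu, h⟩, fun h' => ?_⟩
      exact Finset.disjoint_left.1 hIT hu (h'.1 u h)
    · by_contra h
      exact hyn ⟨hyS, hye, h2 y hyS hye h, fun h' => h h'.2⟩
  let f : guts K S X →ₗ[F2] ({u // u ∈ T.erase t0} → F2) :=
    (LinearMap.pi fun u : {u // u ∈ T.erase t0} =>
      (LinearMap.proj (u : U) : (U → F2) →ₗ[F2] F2).comp φ).comp (guts K S X).subtype
  have hk : (LinearMap.ker f).map (guts K S X).subtype ≤ K := by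
    rintro x ⟨⟨v, hv⟩, hv0, rfl⟩
    have hv1 : f ⟨v, hv⟩ = 0 := hv0
    have hφ : ∀ u ∈ T.erase t0, φ v u = 0 := fun u hu => congrFun hv1 ⟨u, hu⟩
    have hvX : v ∈ hat K ((X : Finset V) : Set V) := hv.1
    have hvY : v ∈ hat K ((S \ X : Finset V) : Set V) := hv.2
    have hvS : v ∈ hat K (S : Set V) :=
      hat_mono le_rfl (Finset.coe_subset.2 Finset.sdiff_subset) hvY
    have hne : ∀ u, u ≠ t0 → φ v u = 0 := by
      intro u hu
      by_cases huI : u ∈ I
      · exact m3_zero_of hm (fun y hy => (hcomp y (Finset.mem_coe.1 hy)).1 u huI) hvY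
      · by_cases huT : u ∈ T
        · exact hφ u (Finset.mem_erase.2 ⟨hu, huT⟩)
        · refine m3_zero_of hm (fun y hy => ?_) hvX
          rw [Finset.mem_coe, hX, m3_mem] at hy
          rcases hy with rfl | hy
          · rw [hm.eφ]
            rfl
          · by_contra hy0
            rcases hy.2.2.1 u hy0 with h' | h'
            · exact huI h'
            · exact huT h'
    have ht : φ v t0 = 0 := by
      have hs := m3_sum hm hvS
      rwa [Finset.sum_eq_single t0 (fun u _ hu => hne u hu)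
        (fun h' => absurd (Finset.mem_univ _) h')] at hs
    have hφ0 : φ v = 0 := by
      funext u
      by_cases hu : u = t0
      · rw [hu]
        exact ht
      · exact hne u hu
    have hsg : sg' φ σ s v = 0 := by
      have h3 : hat K ((S \ X : Finset V) : Set V) ≤ LinearMap.ker (m3sg φ σ s) := by
        refine hat_le ?_ ?_
        · intro y hy
          rw [LinearMap.mem_ker, m3sg_apply]
          unfold sg'
          rw [hm.kσ y hy, hm.kφ y hy]
          simp
        · intro y hy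
          rw [SetLike.mem_coe, LinearMap.mem_ker, m3sg_apply]
          exact (hcomp y (Finset.mem_coe.1 hy)).2
      have h4 := h3 hvY
      rwa [LinearMap.mem_ker, m3sg_apply] at h4
    refine hm.inj v hvS hφ0 ?_
    unfold sg' at hsg
    rw [hφ0] at hsg
    simpa using hsg
  have h3 : finrank F2 (LinearMap.ker f) ≤ finrank F2 K := by
    rw [← Submodule.finrank_map_subtype_eq (guts K S X) (LinearMap.ker f)]
    exact Submodule.finrank_mono hk
  have h4 := LinearMap.finrank_range_add_finrank_ker f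
  have h5 : finrank F2 (LinearMap.range f) ≤ (T.erase t0).card := by
    refine (Submodule.finrank_le _).trans ?_
    rw [Module.finrank_fintype_fun_eq_card, Fintype.card_coe]
  have h6 := lam_add K S X
  have h7 := Finset.card_erase_add_one ht0
  omega

omit [FiniteDimensional F2 V] in
private theorem m3_memX {I T : Finset U} {s : U → F2}
    (h2 : ∀ x ∈ S, x ≠ e → sg' φ σ s x ≠ 0 → ∀ u, φ x u ≠ 0 → u ∈ I ∨ u ∈ T)
    {x : V} (hx : x ∈ S) (hxe : x ≠ e) (h : sg' φ σ s x ≠ 0) :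
    x ∈ (xE S e φ σ s I T).erase e := by
  rw [Finset.mem_erase, m3_mem]
  exact ⟨hxe, Or.inr ⟨hx, hxe, h2 x hx hxe h, fun h' => h h'.2⟩⟩

omit [FiniteDimensional F2 V] in
/-- edges of the graph come from elements of `xE` -/
private theorem m3_edge (hm : Mdl K S e φ σ) {I T : Finset U} {s : U → F2}
    (hIT : Disjoint I T)
    (h1 : ∀ x ∈ S, (∃ u ∈ I, φ x u ≠ 0) → ∀ u, φ x u ≠ 0 → u ∈ I ∨ u ∈ T)
    (h2 : ∀ x ∈ S, x ≠ e → sg' φ σ s x ≠ 0 → ∀ u, φ x u ≠ 0 → u ∈ I ∨ u ∈ T)
    {a b : U} (hab : ((mSG S φ σ).HG ∅ (univ \ I) s).Adj a b) :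
    ∃ x ∈ (xE S e φ σ s I T).erase e, φ x = pr a b := by
  obtain ⟨hne, -, -, h⟩ := hab
  have key : ∀ x ∈ S, φ x = pr a b → (∃ u ∈ I, φ x u ≠ 0) →
      x ∈ (xE S e φ σ s I T).erase e := by
    intro x hx hxp hI
    have hxe : x ≠ e := by
      rintro rfl
      rw [hm.eφ] at hxp
      have h3 := congrFun hxp a
      rw [m3_pr_left hne] at h3
      exact zero_ne_one h3
    rw [Finset.mem_erase, m3_mem]
    refine ⟨hxe, Or.inr ⟨hx, hxe, h1 x hx hI, fun h' => ?_⟩⟩
    obtain ⟨u, huI, hu⟩ := hI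
    exact Finset.disjoint_left.1 hIT huI (h'.1 u hu)
  rcases h with ⟨h, p, _, x, hx, hxp, _⟩ | ⟨_, _, _, x, hx, hxp, hσ⟩
  · refine ⟨x, key x hx hxp ?_, hxp⟩
    rcases h with h | h
    · refine ⟨a, ?_, ?_⟩
      · simpa using h
      · rw [hxp, m3_pr_left hne]
        exact one_ne_zero
    · refine ⟨b, ?_, ?_⟩
      · simpa using h
      · rw [hxp, m3_pr_comm, m3_pr_left hne.symm]
        exact one_ne_zero
  · have hxe : x ≠ e := by
      rintro rfl
      rw [hm.eφ] at hxp
      have h3 := congrFun hxp a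
      rw [m3_pr_left hne] at h3
      exact zero_ne_one h3
    refine ⟨x, m3_memX h2 hx hxe ?_, hxp⟩
    have h3 : ∑ u, s u * φ x u = s a + s b := by
      rw [hxp]
      simp only [m3_pr, mul_add, mul_ite, mul_one, mul_zero, Finset.sum_add_distrib,
        Finset.sum_ite_eq', Finset.mem_univ, if_true]
    unfold sg'
    rw [h3, hσ]
    have h4 : (1 : F2) + s a + s b + (s a + s b) = 1 := by
      have h5 : (1 : F2) + s a + s b + (s a + s b) = 1 + (s a + s b + (s a + s b)) := by ring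
      rw [h5, add_self2 (V := F2), add_zero]
    rw [h4]
    exact one_ne_zero

theorem xE_three (ht : Tight K S sm) (hm : FMdl K S e φ σ) {I T : Finset U} {s : U → F2}
    (hT : T.card = 3) (hIT : Disjoint I T)
    (h1 : ∀ x ∈ S, (∃ u ∈ I, φ x u ≠ 0) → ∀ u, φ x u ≠ 0 → u ∈ I ∨ u ∈ T)
    (h2 : ∀ x ∈ S, x ≠ e → sg' φ σ s x ≠ 0 → ∀ u, φ x u ≠ 0 → u ∈ I ∨ u ∈ T)
    (hc : ∀ u ∈ T, ∀ w ∈ T, ((mSG S φ σ).HG ∅ (univ \ I) s).Reachable u w)
    (hs : sm (xE S e φ σ s I T)) :
    ∃ t1 t2 t3, t1 ≠ t2 ∧ t1 ≠ t3 ∧ t2 ≠ t3 ∧ T = {t1, t2, t3} ∧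
      ∀ x ∈ S, x ≠ e → sg' φ σ s x ≠ 0 → φ x = pr t1 t2 ∨ φ x = pr t2 t3 := by
  classical
  have hm' := hm.toMdl
  set X := xE S e φ σ s I T with hX
  have hTne : T.Nonempty := by
    rw [← Finset.card_pos]
    omega
  have hlam := lam_xE hm' hTne hIT h1 h2
  rw [hT, ← hX] at hlam
  have hc3 := ht.c3 X hs (by omega)
  have heX : e ∈ X := by
    rw [hX, m3_mem]
    exact Or.inl rfl
  have hE : (X.erase e).card ≤ 2 := by
    rw [Finset.card_erase_of_mem heX]
    omega
  have hbd : ∀ W : Finset U, ∀ a ∈ W, a ∈ T → ∀ c ∈ T, c ∉ W →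
      ∃ x ∈ X.erase e, ∃ u v, u ∈ W ∧ v ∉ W ∧ φ x = pr u v := by
    intro W a haW haT c hcT hcW
    obtain ⟨w⟩ := hc a haT c hcT
    obtain ⟨d, _, hd1, hd2⟩ := w.exists_boundary_dart (W : Set U) haW hcW
    obtain ⟨x, hx, hxp⟩ := m3_edge hm' hIT h1 h2 d.adj
    exact ⟨x, hx, d.fst, d.snd, hd1, hd2, hxp⟩
  -- every vertex of `T` is an end of an element
  have hinc : ∀ a ∈ T, ∃ x ∈ X.erase e, ∃ v, v ≠ a ∧ φ x = pr a v := by
    intro a ha
    obtain ⟨c, hcT, hca⟩ : ∃ c ∈ T, c ≠ a := by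
      apply Finset.exists_mem_ne
      omega
    obtain ⟨x, hx, u, v, hu, hv, hxp⟩ := hbd {a} a (Finset.mem_singleton_self a) ha c hcT
      (by rwa [Finset.mem_singleton])
    rw [Finset.mem_singleton] at hu hv
    rw [hu] at hxp
    exact ⟨x, hx, v, hv, hxp⟩
  choose! g hg using hinc
  obtain ⟨a, ha, b, hb, hab, hgab⟩ : ∃ a ∈ T, ∃ b ∈ T, a ≠ b ∧ g a = g b := by
    refine Finset.exists_ne_map_eq_of_card_lt_of_maps_to (t := X.erase e) (by omega)
      (fun a ha => (hg a ha).1)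
  obtain ⟨hga, va, hva, hxa⟩ := hg a ha
  obtain ⟨_, vb, hvb, hxb⟩ := hg b hb
  have hx1 : φ (g a) = pr a b := by
    have h3 : pr a va b ≠ 0 := by
      rw [← hxa, hgab, hxb, m3_pr_left hvb.symm]
      exact one_ne_zero
    rcases m3_pr_ne h3 with h4 | h4
    · exact absurd h4.symm hab
    · rw [hxa, h4]
  obtain ⟨c, hcT, hca, hcb⟩ : ∃ c ∈ T, c ≠ a ∧ c ≠ b := by
    by_contra hcon
    push Not at hcon
    have h3 : T ⊆ {a, b} := by
      intro c hc'
      rw [Finset.mem_insert, Finset.mem_singleton]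
      by_cases h4 : c = a
      · exact Or.inl h4
      · exact Or.inr (hcon c hc' h4)
    have h4 := Finset.card_le_card h3
    have h5 := Finset.card_le_two (a := a) (b := b)
    omega
  obtain ⟨hgc, vc, hvc, hxc⟩ := hg c hcT
  have hgac : g a ≠ g c := by
    intro h3
    have h4 : pr a b c ≠ 0 := by
      rw [← hx1, h3, hxc, m3_pr_left hvc.symm]
      exact one_ne_zero
    rcases m3_pr_ne h4 with h5 | h5
    · exact hca h5
    · exact hcb h5
  have hEeq : X.erase e = {g a, g c} := by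
    symm
    apply Finset.eq_of_subset_of_card_le
    · intro x hx
      rw [Finset.mem_insert, Finset.mem_singleton] at hx
      rcases hx with rfl | rfl
      · exact hga
      · exact hgc
    · rw [Finset.card_pair hgac]
      exact hE
  have hTeq : T = {a, b, c} := by
    symm
    apply Finset.eq_of_subset_of_card_le
    · intro x hx
      rw [Finset.mem_insert, Finset.mem_insert, Finset.mem_singleton] at hx
      rcases hx with rfl | rfl | rfl
      · exact ha
      · exact hb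
      · exact hcT
    · rw [hT, Finset.card_insert_of_notMem, Finset.card_pair hcb.symm]
      rw [Finset.mem_insert, Finset.mem_singleton, not_or]
      exact ⟨hab, hca.symm⟩
  obtain ⟨x, hx, u, v, hu, hv, hxp⟩ := hbd {a, b} a (Finset.mem_insert_self a _) ha c hcT
    (by rw [Finset.mem_insert, Finset.mem_singleton, not_or]; exact ⟨hca, hcb⟩)
  have huv : u ≠ v := fun h3 => hv (h3 ▸ hu)
  have hxc' : φ (g c) = pr a c ∨ φ (g c) = pr b c := by
    rw [hEeq, Finset.mem_insert, Finset.mem_singleton] at hx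
    rcases hx with rfl | rfl
    · exfalso
      have h3 : pr a b v ≠ 0 := by
        rw [← hx1, hxp, m3_pr_comm, m3_pr_left huv.symm]
        exact one_ne_zero
      apply hv
      rw [Finset.mem_insert, Finset.mem_singleton]
      exact m3_pr_ne h3
    · have h3 : pr u v c ≠ 0 := by
        rw [← hxp, hxc, m3_pr_left hvc.symm]
        exact one_ne_zero
      have h4 : c = v := by
        rcases m3_pr_ne h3 with h5 | h5
        · exfalso
          rw [← h5, Finset.mem_insert, Finset.mem_singleton] at hu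
          rcases hu with hu | hu
          · exact hca hu
          · exact hcb hu
        · exact h5
      rw [Finset.mem_insert, Finset.mem_singleton] at hu
      rcases hu with hu | hu
      · left
        rw [hxp, hu, ← h4]
      · right
        rw [hxp, hu, ← h4]
  have hall : ∀ x ∈ S, x ≠ e → sg' φ σ s x ≠ 0 → φ x = pr a b ∨ φ x = φ (g c) := by
    intro x hx hxe hsx
    have h3 : x ∈ X.erase e := m3_memX h2 hx hxe hsx
    rw [hEeq, Finset.mem_insert, Finset.mem_singleton] at h3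
    rcases h3 with rfl | rfl
    · exact Or.inl hx1
    · exact Or.inr rfl
  rcases hxc' with h3 | h3
  · refine ⟨b, a, c, hab.symm, hcb.symm, hca.symm, ?_, ?_⟩
    · rw [hTeq]
      exact Finset.insert_comm a b {c}
    · intro x hx hxe hsx
      rcases hall x hx hxe hsx with h4 | h4
      · left
        rw [h4, m3_pr_comm]
      · right
        rw [h4, h3]
  · refine ⟨a, b, c, hab, hca.symm, hcb.symm, hTeq, ?_⟩
    intro x hx hxe hsx
    rcases hall x hx hxe hsx with h4 | h4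
    · exact Or.inl h4
    · right
      rw [h4, h3]

theorem xE_vertex (ht : Tight K S sm) (hm : FMdl K S e φ σ) {I T : Finset U} {s : U → F2}
    (hT : T.Nonempty) (hT3 : T.card ≤ 3) (hIT : Disjoint I T)
    (h1 : ∀ x ∈ S, (∃ u ∈ I, φ x u ≠ 0) → ∀ u, φ x u ≠ 0 → u ∈ I ∨ u ∈ T)
    (h2 : ∀ x ∈ S, x ≠ e → sg' φ σ s x ≠ 0 → ∀ u, φ x u ≠ 0 → u ∈ I ∨ u ∈ T)
    (hc : ∀ u ∈ T, ∀ w ∈ T, ((mSG S φ σ).HG ∅ (univ \ I) s).Reachable u w)
    (hs : sm (xE S e φ σ s I T)) :
    ∃ z, ∀ x ∈ S, x ≠ e → sg' φ σ s x ≠ 0 → φ x z ≠ 0 := by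
  classical
  by_cases h3 : T.card = 3
  · obtain ⟨t1, t2, t3, h12, _, h23, _, hall⟩ := xE_three ht hm h3 hIT h1 h2 hc hs
    refine ⟨t2, fun x hx hxe hsx => ?_⟩
    rcases hall x hx hxe hsx with h4 | h4
    · rw [h4, m3_pr_comm, m3_pr_left h12.symm]
      exact one_ne_zero
    · rw [h4, m3_pr_left h23]
      exact one_ne_zero
  · have hlam := lam_xE hm.toMdl hT hIT h1 h2
    obtain ⟨z, hz⟩ := hT
    refine ⟨z, fun x hx hxe hsx => ?_⟩
    exfalso
    have h4 := m3_memX h2 hx hxe hsx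
    have heX : e ∈ xE S e φ σ s I T := by
      rw [m3_mem]
      exact Or.inl rfl
    have h5 : 0 < ((xE S e φ σ s I T).erase e).card := Finset.card_pos.2 ⟨x, h4⟩
    rw [Finset.card_erase_of_mem heX] at h5
    have h6 := ht.c2 _ hs (by omega)
    omega

end Pool.Agent.HC
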