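import Pool.Agent.HC.Lv2D
import Pool.Agent.HC.BasB

/-!
# HC-Q1: small sets (3.1)

`rq q X` is the dimension of the span of the vectors `pr i j` with `q i j ∈ X` in `Fin N → F2`.
`rq_or`: let `D1` be the set of the pairs with `q i j ∈ X`, and suppose that its span is not all of the
even vectors. Then there is a set `A` of vertices, `A ≠ ∅, univ`, such that every pair in `D1` is
inside `A` or inside its complement (`A` = the vertices connected to a fixed vertex; or: `i ~ j` iff
`pr i j ∈` span, an equivalence relation with at least two classes; `A` = one class). All pairs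
between `A` and its complement are then in the other set, and they span all even vectors
(`pr i i' = pr i j + pr j i'`). The even vectors have dimension `N - 1`.
`rq_lam`: `K_C := hat K C`. For `X ⊆ S` let `A1 = hat K_C X`, `A2 = hat K_C (S \ X)`. `A1 ⊔ A2 = hat K_C S`, which has
dimension `dim K_C + N - 1` (`span`, `gind`; `qS`, `qg`). `A1 ⊓ A2 = K_C ⊔ guts K S X`: `x + c = z + c'`,
`x ∈ hat K X`, `z ∈ hat K (S \ X)`, `c + c' ∈ K_C = hat K (C ∩ X) ⊔ hat K (C \ X)`, `c + c' = c1 + c2`, so
`x + c1 = z + c2 ∈ guts K S X`. So `dim A1 + dim A2 ≤ 2 dim K_C + N - 1 + lam K S X`. And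
`dim K_C + rq q X ≤ dim A1` (the vectors `q i j ∈ X`; the linear map even vectors → `V / K_C`,
`pr i j ↦ g i + g j` is injective on even vectors by `gind`), same for `S \ X`.
`small_or`: `rq q X + rq q (S \ X) ≤ N + 2` and one of the two is `N - 1` (`rq_or`), so the other is at
most 3. `small_of_five`: otherwise `rq q (S \ X) ≤ 3` by `small_or`, but `S \ X` contains all
`q i j`, `i, j ∈ J`, of rank 4. `small_union`: `rq q (X ∪ Y) ≤ 6`; if `S \ (X ∪ Y)` is small then
`N - 1 ≤ rq q (X ∪ Y) + rq q (S \ (X ∪ Y)) ≤ 9`.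
`rq_le_card`: different pairs (as sets) have different `q i j` (`gind` for the symmetric difference;
two pairs `{i,j} ≠ {i',j'}`: `q i j = q i' j'` gives `g i + g j + g i' + g j' ∈ K_C`).
`rq_insert`: `x` is not of the form `q i j`.
-/

namespace Pool.Agent.HC

open Finset Module

variable {V : Type} [AddCommGroup V] [Module F2 V] [DecidableEq V] [FiniteDimensional F2 V]
  {K : Submodule F2 V} {S C X Y : Finset V} {N : ℕ} {g : Fin N → V} {q : Fin N → Fin N → V}

omit [DecidableEq V] [FiniteDimensional F2 V] in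
private theorem q1_pr_self {U : Type} [DecidableEq U] (u : U) : pr u u = 0 := by
  unfold pr
  exact add_self2 _

private theorem q1_pr_comm {U : Type} [DecidableEq U] (u v : U) : pr u v = pr v u := by
  unfold pr
  exact add_comm _ _

private theorem q1_pr_add {U : Type} [DecidableEq U] (u v w : U) :
    pr u v + pr v w = pr u w := by
  unfold pr
  have h : ∀ x y z : U → F2, x + y + (y + z) = x + z := fun x y z => by
    rw [add_assoc, ← add_assoc y y z, add_self2, zero_add]
  exact h _ _ _

private theorem q1_pr_sum {N : ℕ} (i j : Fin N) : ∑ t, pr i j t = 0 := by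
  unfold pr
  simp only [Pi.add_apply, sum_add_distrib, sum_pi_single', mem_univ, if_true]
  exact add_self2 _

private theorem q1_pr_left {N : ℕ} {i j : Fin N} (h : i ≠ j) : pr i j i = 1 := by
  unfold pr
  rw [Pi.add_apply, Pi.single_eq_same, Pi.single_eq_of_ne h, add_zero]

/-- a space which contains all the pairs inside `J` -/
private theorem q1_dim {N : ℕ} (W : Submodule F2 (Fin N → F2)) (J : Finset (Fin N))
    (h : ∀ i ∈ J, ∀ j ∈ J, pr i j ∈ W) : J.card ≤ finrank F2 W + 1 := by
  rcases J.eq_empty_or_nonempty with rfl | ⟨i0, hi0⟩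
  · simp
  have h1 : ∀ i : J, (Pi.single (i : Fin N) (1 : F2) : Fin N → F2) ∈
      hat W {(Pi.single i0 (1 : F2) : Fin N → F2)} := by
    intro i
    rw [mem_hat_singleton]
    exact Or.inr (h i i.2 i0 hi0)
  have h2 : LinearIndependent F2 (fun i : J =>
      (⟨Pi.single (i : Fin N) (1 : F2), h1 i⟩ :
        hat W {(Pi.single i0 (1 : F2) : Fin N → F2)})) := by
    refine LinearIndependent.of_comp (Submodule.subtype _) ?_
    have h3 := (Pi.basisFun F2 (Fin N)).linearIndependent.comp (fun i : J => (i : Fin N))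
      Subtype.val_injective
    have h4 : (⇑(Pi.basisFun F2 (Fin N)) ∘ fun i : J => (i : Fin N)) =
        fun i : J => (Pi.single (i : Fin N) (1 : F2) : Fin N → F2) := by
      funext i
      rw [Function.comp_apply, Pi.basisFun_apply]
    rw [h4] at h3
    exact h3
  have h4 := h2.fintype_card_le_finrank
  rw [Fintype.card_coe] at h4
  have h5 := finrank_hat_le W {(Pi.single i0 (1 : F2) : Fin N → F2)}
  rw [coe_singleton, card_singleton] at h5
  exact h4.trans h5

private theorem q1_rq_le (q : Fin N → Fin N → V) (X : Finset V) : rq q X ≤ N := by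
  unfold rq
  refine (Submodule.finrank_le _).trans ?_
  simp

/-- the linear map of the family `g` -/
private noncomputable def GG (g : Fin N → V) : (Fin N → F2) →ₗ[F2] V :=
  Fintype.linearCombination F2 g

omit [DecidableEq V] [FiniteDimensional F2 V] in
private theorem GG_pr (g : Fin N → V) (i j : Fin N) : GG g (pr i j) = g i + g j := by
  unfold GG pr
  rw [map_add, Fintype.linearCombination_apply_single, Fintype.linearCombination_apply_single,
    one_smul, one_smul]

omit [DecidableEq V] [FiniteDimensional F2 V] in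
private theorem GG_sum (g : Fin N → V) (y : Fin N → F2) :
    GG g y = ∑ i ∈ univ.filter (fun i => y i ≠ 0), g i := by
  unfold GG
  rw [Fintype.linearCombination_apply, sum_filter]
  refine sum_congr rfl fun i _ => ?_
  rcases F2_cases (y i) with h | h
  · rw [h, zero_smul, if_neg (by simp)]
  · rw [h, one_smul, if_pos (by simp)]

private theorem q1_even {y : Fin N → F2} (hy : ∑ i, y i = 0) :
    Even (univ.filter (fun i => y i ≠ 0)).card := by
  have h2 : ∑ i, y i = ((univ.filter (fun i => y i ≠ 0)).card : F2) := by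
    rw [card_filter, Nat.cast_sum]
    refine sum_congr rfl fun i _ => ?_
    rcases F2_cases (y i) with h3 | h3
    · rw [h3]
      simp
    · rw [h3]
      simp
  rw [h2] at hy
  exact (ZMod.natCast_eq_zero_iff_even).1 hy

omit [FiniteDimensional F2 V] in
private theorem GG_inj (h : IsQ K S C g q) {y : Fin N → F2} (hy : ∑ i, y i = 0)
    (h0 : GG g y ∈ hat K (C : Set V)) : y = 0 := by
  rw [GG_sum] at h0
  have h1 := h.gind _ (q1_even hy) h0
  funext i
  by_contra h2
  have h3 : i ∈ univ.filter (fun i => y i ≠ 0) := mem_filter.2 ⟨mem_univ _, h2⟩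
  rw [h1] at h3
  exact absurd h3 (notMem_empty i)

/-- the span of the pairs -/
private def WW (q : Fin N → Fin N → V) (X : Finset V) : Submodule F2 (Fin N → F2) :=
  Submodule.span F2 {y : Fin N → F2 | ∃ i j, i ≠ j ∧ q i j ∈ X ∧ y = pr i j}

omit [AddCommGroup V] [Module F2 V] [DecidableEq V] [FiniteDimensional F2 V] in
private theorem WW_sum {y : Fin N → F2} (h : y ∈ WW q X) : ∑ i, y i = 0 := by
  unfold WW at h
  induction h using Submodule.span_induction with
  | mem y hy =>
    obtain ⟨i, j, _, _, rfl⟩ := hy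
    exact q1_pr_sum i j
  | zero => simp
  | add y z _ _ h1 h2 =>
    simp only [Pi.add_apply, sum_add_distrib]
    rw [h1, h2, add_zero]
  | smul a y _ h1 =>
    simp only [Pi.smul_apply, smul_eq_mul]
    rw [← mul_sum, h1, mul_zero]

omit [FiniteDimensional F2 V] in
/-- the basic dichotomy -/
private theorem WW_or (h : IsQ K S C g q) (X : Finset V) :
    (∀ i j, pr i j ∈ WW q X) ∨ (∀ i j, pr i j ∈ WW q (S \ X)) := by
  by_cases h1 : ∀ i j, pr i j ∈ WW q X
  · exact Or.inl h1
  right
  push Not at h1
  obtain ⟨i0, j0, h2⟩ := h1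
  have key : ∀ i j, pr i0 i ∈ WW q X → pr i0 j ∉ WW q X → pr i j ∈ WW q (S \ X) := by
    intro i j hi hj
    have hij : i ≠ j := by
      rintro rfl
      exact hj hi
    have hqX : q i j ∉ X := by
      intro h3
      apply hj
      rw [← q1_pr_add i0 i j]
      exact Submodule.add_mem _ hi (Submodule.subset_span ⟨i, j, hij, h3, rfl⟩)
    exact Submodule.subset_span ⟨i, j, hij, mem_sdiff.2 ⟨h.qS i j hij, hqX⟩, rfl⟩
  have h00 : pr i0 i0 ∈ WW q X := by
    rw [q1_pr_self]
    exact Submodule.zero_mem _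
  intro i j
  by_cases hi : pr i0 i ∈ WW q X
  · by_cases hj : pr i0 j ∈ WW q X
    · rw [← q1_pr_add i j0 j, q1_pr_comm j0 j]
      exact Submodule.add_mem _ (key i j0 hi h2) (key j j0 hj h2)
    · exact key i j hi hj
  · by_cases hj : pr i0 j ∈ WW q X
    · rw [q1_pr_comm]
      exact key j i hj hi
    · rw [← q1_pr_add i i0 j, q1_pr_comm i i0]
      exact Submodule.add_mem _ (key i0 i h00 hi) (key i0 j h00 hj)

theorem rq_mono (q : Fin N → Fin N → V) (h : X ⊆ Y) : rq q X ≤ rq q Y := by
  unfold rq
  refine Submodule.finrank_mono (Submodule.span_mono ?_)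
  rintro y ⟨i, j, hij, h1, h2⟩
  exact ⟨i, j, hij, h h1, h2⟩

theorem rq_union (q : Fin N → Fin N → V) (X Y : Finset V) : rq q (X ∪ Y) ≤ rq q X + rq q Y := by
  have h1 : WW q (X ∪ Y) ≤ WW q X ⊔ WW q Y := by
    refine Submodule.span_le.2 ?_
    rintro y ⟨i, j, hij, h1, h2⟩
    rcases mem_union.1 h1 with h3 | h3
    · exact Submodule.mem_sup_left (Submodule.subset_span ⟨i, j, hij, h3, h2⟩)
    · exact Submodule.mem_sup_right (Submodule.subset_span ⟨i, j, hij, h3, h2⟩)
  exact (Submodule.finrank_mono h1).trans (Submodule.finrank_add_le_finrank_add_finrank _ _)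

theorem rq_insert (q : Fin N → Fin N → V) (X : Finset V) {x : V}
    (hx : ∀ i j, i ≠ j → q i j ≠ x) : rq q (insert x X) = rq q X := by
  refine le_antisymm ?_ (rq_mono q (subset_insert x X))
  unfold rq
  refine Submodule.finrank_mono (Submodule.span_mono ?_)
  rintro y ⟨i, j, hij, h1, h2⟩
  rcases mem_insert.1 h1 with h3 | h3
  · exact absurd h3 (hx i j hij)
  · exact ⟨i, j, hij, h3, h2⟩

private theorem q1_full {X : Finset V} (h : ∀ i j, pr i j ∈ WW q X) : N ≤ rq q X + 1 := by
  have h1 := q1_dim (WW q X) univ fun i _ j _ => h i j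
  rw [card_univ, Fintype.card_fin] at h1
  exact h1

theorem rq_or (h : IsQ K S C g q) (hX : X ⊆ S) : N ≤ rq q X + 1 ∨ N ≤ rq q (S \ X) + 1 := by
  rcases WW_or h X with h1 | h1
  · exact Or.inl (q1_full h1)
  · exact Or.inr (q1_full h1)

omit [FiniteDimensional F2 V] in
private theorem GG_mem (h : IsQ K S C g q) {X : Finset V} {y : Fin N → F2} (hy : y ∈ WW q X) :
    GG g y ∈ hat (hat K (C : Set V)) (X : Set V) := by
  unfold WW at hy
  induction hy using Submodule.span_induction with
  | mem y hy =>
    obtain ⟨i, j, hij, h1, rfl⟩ := hy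
    rw [GG_pr]
    have h2 := h.qg i j hij
    rw [add_comm] at h2
    exact mem_of_add_mem2 (le_hat _ _ h2) (subset_hat _ _ (mem_coe.2 h1))
  | zero =>
    rw [map_zero]
    exact Submodule.zero_mem _
  | add y z _ _ h1 h2 =>
    rw [map_add]
    exact Submodule.add_mem _ h1 h2
  | smul a y _ h1 =>
    rw [map_smul]
    exact Submodule.smul_mem _ _ h1

omit [DecidableEq V] [FiniteDimensional F2 V] in
/-- even sums are sums of sums of two -/
private theorem q1_even_mem {L : Submodule F2 V} (g : Fin N → V) (hg : ∀ i j, g i + g j ∈ L)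
    (T : Finset (Fin N)) (hT : Even T.card) : ∑ i ∈ T, g i ∈ L := by
  rcases T.eq_empty_or_nonempty with rfl | ⟨i0, hi0⟩
  · rw [sum_empty]
    exact L.zero_mem
  have h1 : ∑ i ∈ T, g i = ∑ i ∈ T, (g i + g i0) := by
    rw [sum_add_distrib, sum_const]
    obtain ⟨k, hk⟩ := hT
    rw [hk, add_nsmul, add_self2, add_zero]
  rw [h1]
  exact Submodule.sum_mem _ fun i _ => hg i i0

/-- if `X` is small, the elements `q i j` outside `X` span everything modulo `hat K C` -/
theorem span_compl (h : IsQ K S C g q) (hN : 5 ≤ N) (hX : QSmall S q X) :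
    hat K (S : Set V) ≤ hat (hat K (C : Set V)) ((S \ X : Finset V) : Set V) := by
  rcases WW_or h X with h1 | h1
  · have h2 := q1_full h1
    have h3 := hX.2
    omega
  refine hat_le ((le_hat K _).trans (le_hat _ _)) ?_
  intro x hx
  obtain ⟨T, hT, hT2⟩ := h.span x hx
  refine mem_of_add_mem2 (le_hat _ _ hT2) ?_
  refine q1_even_mem g (fun i j => ?_) T hT
  rw [← GG_pr g i j]
  exact GG_mem h (h1 i j)

theorem rq_le_card (h : IsQ K S C g q) (X : Finset V) : rq q X ≤ X.card := by
  classical
  have huniq : ∀ i j i' j', i ≠ j → i' ≠ j' → q i j = q i' j' → pr i j = pr i' j' := by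
    intro i j i' j' h1 h2 h3
    have h4 : GG g (pr i j + pr i' j') ∈ hat K (C : Set V) := by
      rw [map_add, GG_pr, GG_pr]
      have h5 := Submodule.add_mem _ (h.qg i j h1) (h.qg i' j' h2)
      rw [h3] at h5
      have h6 : q i' j' + (g i + g j) + (q i' j' + (g i' + g j')) =
          (q i' j' + q i' j') + (g i + g j + (g i' + g j')) := by abel
      rwa [h6, add_self2, zero_add] at h5
    have h5 : ∑ t, (pr i j + pr i' j') t = 0 := by
      simp only [Pi.add_apply, sum_add_distrib]
      rw [q1_pr_sum, q1_pr_sum, add_zero]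
    have h6 := GG_inj h h5 h4
    have h7 := (add_eq_iff2 (pr i j) (pr i' j') 0).1 h6
    rwa [zero_add] at h7
  let f : V → (Fin N → F2) := fun x =>
    if hx : ∃ p : Fin N × Fin N, p.1 ≠ p.2 ∧ q p.1 p.2 = x then pr hx.choose.1 hx.choose.2 else 0
  have h1 : WW q X ≤ Submodule.span F2 ((X.image f : Finset (Fin N → F2)) : Set (Fin N → F2)) := by
    refine Submodule.span_mono ?_
    rintro y ⟨i, j, hij, h1, rfl⟩
    rw [mem_coe, mem_image]
    refine ⟨q i j, h1, ?_⟩
    have hx : ∃ p : Fin N × Fin N, p.1 ≠ p.2 ∧ q p.1 p.2 = q i j := ⟨(i, j), hij, rfl⟩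
    have h2 : f (q i j) = pr hx.choose.1 hx.choose.2 := dif_pos hx
    rw [h2]
    exact huniq _ _ _ _ hx.choose_spec.1 hij hx.choose_spec.2
  have h2 := Submodule.finrank_mono h1
  have h3 := finrank_span_finset_le_card (R := F2) (X.image f)
  unfold Set.finrank at h3
  exact (h2.trans h3).trans card_image_le

private theorem q1_low (h : IsQ K S C g q) (X : Finset V) :
    finrank F2 (hat K (C : Set V)) + rq q X ≤
      finrank F2 (hat (hat K (C : Set V)) (X : Set V)) := by
  have h1 : (hat K (C : Set V)) ⊔ (WW q X).map (GG g) ≤ hat (hat K (C : Set V)) (X : Set V) := by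
    refine sup_le (le_hat _ _) ?_
    rintro _ ⟨y, hy, rfl⟩
    exact GG_mem h hy
  have h2 : hat K (C : Set V) ⊓ (WW q X).map (GG g) = ⊥ := by
    rw [eq_bot_iff]
    rintro v ⟨hv, y, hy, rfl⟩
    have h3 := GG_inj h (WW_sum hy) hv
    rw [h3, map_zero]
    exact Submodule.zero_mem _
  have h3 := finrank_sup_add_inf (hat K (C : Set V)) ((WW q X).map (GG g))
  rw [h2, finrank_bot, add_zero] at h3
  have h4 : finrank F2 ((WW q X).map (GG g)) = rq q X := by
    have h5 : Function.Injective ((GG g).domRestrict (WW q X)) := by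
      rw [← LinearMap.ker_eq_bot, eq_bot_iff]
      rintro ⟨y, hy⟩ hy0
      rw [LinearMap.mem_ker, LinearMap.domRestrict_apply] at hy0
      have h6 : y = 0 := GG_inj h (WW_sum hy) (by
        rw [hy0]
        exact Submodule.zero_mem _)
      rw [Submodule.mem_bot]
      exact Subtype.ext h6
    have h6 := LinearMap.finrank_range_of_inj h5
    rw [LinearMap.range_domRestrict] at h6
    exact h6
  have h5 := Submodule.finrank_mono h1
  omega

private theorem q1_lam (h : IsQ K S C g q) (hN : 0 < N) (hX : X ⊆ S) :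
    rq q X + rq q (S \ X) + 1 ≤ N + lam K S X := by
  classical
  have h1 := q1_low h X
  have h2 := q1_low h (S \ X)
  set L := hat K (C : Set V) with hL
  have hKL : K ≤ L := le_hat _ _
  have h3 := finrank_sup_add_inf (hat L (X : Set V)) (hat L ((S \ X : Finset V) : Set V))
  rw [← hat_union, ← coe_union, union_sdiff_of_subset hX] at h3
  -- the span
  have h4 : finrank F2 (hat L (S : Set V)) + 1 ≤ finrank F2 L + N := by
    set i0 : Fin N := ⟨0, hN⟩ with hi0
    have h5 : hat L (S : Set V) ≤
        hat L (((univ.erase i0).image (fun i => g i + g i0) : Finset V) : Set V) := by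
      refine hat_le (le_hat _ _) ?_
      intro x hx
      obtain ⟨T, hT, hT2⟩ := h.span x hx
      refine mem_of_add_mem2 (le_hat _ _ hT2) ?_
      have h6 : ∀ i, g i + g i0 ∈
          hat L (((univ.erase i0).image (fun i => g i + g i0) : Finset V) : Set V) := by
        intro i
        by_cases hi : i = i0
        · rw [hi, add_self2]
          exact Submodule.zero_mem _
        · refine subset_hat _ _ (mem_coe.2 (mem_image.2 ⟨i, mem_erase.2 ⟨hi, mem_univ _⟩, rfl⟩))
      refine q1_even_mem g (fun i j => ?_) T hT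
      have h7 : g i + g j = (g i + g i0) + (g j + g i0) := by
        have h8 : (g i + g i0) + (g j + g i0) = (g i + g j) + (g i0 + g i0) := by abel
        rw [h8, add_self2, add_zero]
      rw [h7]
      exact Submodule.add_mem _ (h6 i) (h6 j)
    have h6 := Submodule.finrank_mono h5
    have h7 := finrank_hat_le L ((univ.erase i0).image (fun i => g i + g i0))
    have h8 : ((univ.erase i0).image (fun i => g i + g i0)).card ≤ (univ.erase i0).card :=
      card_image_le
    rw [card_erase_of_mem (mem_univ _), card_univ, Fintype.card_fin] at h8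
    omega
  -- the intersection
  have h5 : hat L (X : Set V) ⊓ hat L ((S \ X : Finset V) : Set V) ≤ L ⊔ guts K S X := by
    have hsup : ∀ T : Set V, hat L T ≤ L ⊔ hat K T := fun T =>
      hat_le le_sup_left fun x hx => (le_sup_right : hat K T ≤ L ⊔ hat K T) (subset_hat K T hx)
    have hLC : L ≤ hat K ((C ∩ X : Finset V) : Set V) ⊔ hat K ((C \ X : Finset V) : Set V) := by
      rw [← hat_union, ← coe_union, hL]
      refine hat_mono le_rfl (coe_subset.2 ?_)
      intro c hc
      by_cases hcX : c ∈ X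
      · exact mem_union_left _ (mem_inter.2 ⟨hc, hcX⟩)
      · exact mem_union_right _ (mem_sdiff.2 ⟨hc, hcX⟩)
    rintro v ⟨hv1, hv2⟩
    obtain ⟨a, ha, x, hx, hax⟩ := Submodule.mem_sup.1 (hsup _ hv1)
    obtain ⟨b, hb, z, hz, hbz⟩ := Submodule.mem_sup.1 (hsup _ hv2)
    obtain ⟨c1, hc1, c2, hc2, hcc⟩ := Submodule.mem_sup.1 (hLC (Submodule.add_mem _ ha hb))
    have hc1L : c1 ∈ L := hat_mono le_rfl (coe_subset.2 inter_subset_left) hc1
    have hc1X : c1 ∈ hat K (X : Set V) := hat_mono le_rfl (coe_subset.2 inter_subset_right) hc1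
    have hc2X : c2 ∈ hat K ((S \ X : Finset V) : Set V) :=
      hat_mono le_rfl (coe_subset.2 (sdiff_subset_sdiff h.CS le_rfl)) hc2
    have e1 : x + z = a + b := by
      have e2 : a + x + (b + z) = 0 := by
        rw [hax, hbz, add_self2]
      have e3 : a + x + (b + z) = (x + z) + (a + b) := by abel
      rw [e3] at e2
      have e4 := (add_eq_iff2 _ _ _).1 e2
      rwa [zero_add] at e4
    have e2 : x + c1 = z + c2 := by
      have e3 : x + z = c1 + c2 := by rw [e1, hcc]
      have e4 : (x + c1) + (z + c2) = (x + z) + (c1 + c2) := by abel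
      rw [e3, add_self2] at e4
      have e5 := (add_eq_iff2 _ _ _).1 e4
      rwa [zero_add] at e5
    have e3 : v = (a + c1) + (x + c1) := by
      have e4 : (a + c1) + (x + c1) = (a + x) + (c1 + c1) := by abel
      rw [e4, add_self2, add_zero, hax]
    rw [e3]
    refine Submodule.add_mem_sup (Submodule.add_mem _ ha hc1L) ⟨Submodule.add_mem _ hx hc1X, ?_⟩
    rw [e2]
    exact Submodule.add_mem _ hz hc2X
  have h6 := Submodule.finrank_mono h5
  have h7 := finrank_sup_add_inf L (guts K S X)
  have h8 : finrank F2 K ≤ finrank F2 ↥(L ⊓ guts K S X) :=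
    Submodule.finrank_mono (le_inf hKL (le_guts K S X))
  have h9 := lam_add K S X
  omega

theorem small_or (h : IsQ K S C g q) (hX : X ⊆ S) (hl : lam K S X ≤ 3) :
    QSmall S q X ∨ QSmall S q (S \ X) := by
  rcases Nat.eq_zero_or_pos N with hN | hN
  · left
    refine ⟨hX, ?_⟩
    have := q1_rq_le q X
    omega
  have h1 := q1_lam h hN hX
  rcases rq_or h hX with h2 | h2
  · right
    exact ⟨sdiff_subset, by omega⟩
  · left
    exact ⟨hX, by omega⟩

theorem small_of_five (h : IsQ K S C g q) (hX : X ⊆ S) (hl : lam K S X ≤ 3)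
    (J : Finset (Fin N)) (hJ : 5 ≤ J.card) (hJX : ∀ i ∈ J, ∀ j ∈ J, i ≠ j → q i j ∉ X) :
    QSmall S q X := by
  rcases small_or h hX hl with h1 | h1
  · exact h1
  exfalso
  have h2 := q1_dim (WW q (S \ X)) J (by
    intro i hi j hj
    by_cases hij : i = j
    · rw [hij, q1_pr_self]
      exact Submodule.zero_mem _
    · exact Submodule.subset_span
        ⟨i, j, hij, mem_sdiff.2 ⟨h.qS i j hij, hJX i hi j hj hij⟩, rfl⟩)
  have h3 : finrank F2 (WW q (S \ X)) ≤ 3 := h1.2
  omega

theorem small_union (h : IsQ K S C g q) (hN : 11 ≤ N) (hX : QSmall S q X) (hY : QSmall S q Y)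
    (hl : lam K S (X ∪ Y) ≤ 3) : QSmall S q (X ∪ Y) := by
  have hXY : X ∪ Y ⊆ S := union_subset hX.1 hY.1
  rcases small_or h hXY hl with h1 | h1
  · exact h1
  exfalso
  have h2 := rq_union q X Y
  have h3 := hX.2
  have h4 := hY.2
  have h5 := h1.2
  rcases rq_or h hXY with h6 | h6 <;> omega

/-- adding at most three elements to a small set -/
theorem small_union_card (h : IsQ K S C g q) (hN : 11 ≤ N) (hX : QSmall S q X) (hY : Y ⊆ S)
    (hc : Y.card ≤ 3) (hl : lam K S (X ∪ Y) ≤ 3) : QSmall S q (X ∪ Y) :=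
  small_union h hN hX ⟨hY, (rq_le_card h Y).trans hc⟩ hl

/-- the pairs of a small set touch at most six vertices -/
theorem small_touch (h : IsQ K S C g q) (hX : QSmall S q X) :
    ∃ J : Finset (Fin N), J.card ≤ 6 ∧ ∀ i j, i ≠ j → q i j ∈ X → i ∈ J ∧ j ∈ J := by
  classical
  obtain ⟨b, hbs, hbspan, hbind⟩ :=
    exists_linearIndependent F2 {y : Fin N → F2 | ∃ i j, i ≠ j ∧ q i j ∈ X ∧ y = pr i j}
  have hfin : b.Finite := Set.toFinite b
  have : Fintype b := hfin.fintype
  have h1 := finrank_span_set_eq_card hbind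
  rw [hbspan] at h1
  have h2 : b.toFinset.card ≤ 3 := by
    rw [← h1]
    exact hX.2
  set J : Finset (Fin N) := b.toFinset.biUnion (fun y => univ.filter (fun u => y u ≠ 0)) with hJ
  have hJc : J.card ≤ b.toFinset.card * 2 := by
    refine card_biUnion_le_card_mul _ _ _ fun y hy => ?_
    obtain ⟨i, j, -, -, rfl⟩ := hbs (Set.mem_toFinset.1 hy)
    refine (card_le_card (t := {i, j}) ?_).trans card_le_two
    intro u hu
    have hu2 := (mem_filter.1 hu).2
    rw [mem_insert, mem_singleton]
    by_contra hn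
    push Not at hn
    apply hu2
    unfold pr
    rw [Pi.add_apply, Pi.single_eq_of_ne hn.1, Pi.single_eq_of_ne hn.2, add_zero]
  have hz : ∀ y ∈ WW q X, ∀ u, u ∉ J → y u = 0 := by
    intro y hy u hu
    unfold WW at hy
    rw [← hbspan] at hy
    induction hy using Submodule.span_induction with
    | mem y hy =>
      by_contra hn
      exact hu (mem_biUnion.2 ⟨y, Set.mem_toFinset.2 hy, mem_filter.2 ⟨mem_univ _, hn⟩⟩)
    | zero => rfl
    | add y z _ _ h3 h4 => rw [Pi.add_apply, h3, h4, add_zero]
    | smul a y _ h3 => rw [Pi.smul_apply, h3, smul_zero]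
  refine ⟨J, by omega, ?_⟩
  intro i j hij hq
  have hmem : pr i j ∈ WW q X := Submodule.subset_span ⟨i, j, hij, hq, rfl⟩
  constructor
  · by_contra hi
    have h3 := hz _ hmem i hi
    rw [q1_pr_left hij] at h3
    exact one_ne_zero h3
  · by_contra hj
    have h3 := hz _ hmem j hj
    rw [q1_pr_comm, q1_pr_left (Ne.symm hij)] at h3
    exact one_ne_zero h3

end Pool.Agent.HC
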