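import Pool.Agent.HC.Cl3
import Pool.Agent.HC.Mod2
import Pool.Agent.HC.Mod3
import Pool.Agent.HC.Q1

/-!
# HC-Cl4: the cuts of the cluster graph (3.1 applied to section 4)

`G = mSG S φ σ`; edges of `G` at `u` are elements `x ∈ S` with `φ x = pr u w` (`x ≠ e` as `φ e = 0`). The
hypotheses on `G.adj` translate to elements: if `x ∈ stE S φ I`, `u ∈ I`, `φ x u ≠ 0`, then `φ x = pr u w`
(`edge`) and `G.adj (σ x) u w`, so all ends of `x` are in `I ∪ T`.
KEY: `hfar`: let `J := {i | Disjoint (cl i) I}`, `5 ≤ J.card`. For `i ≠ j` in `J` the element `q (ι i) (ι j)` has its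
ends `v i j ∈ cl i`, `v j i ∈ cl j` outside `I`.
`small_stE`: by `lam_stE` `lam K S (stE S φ I) ≤ T.card ≤ 3`; `small_of_five` with `image ι J` (the elements
`q (ι i) (ι j)` are not in `stE S φ I`): `QSmall S q (stE S φ I)`.
`cuts`: `one`: `small_stE` with `T = {t}`, `no_one_cut`. `two`: `T = {t, z}`, `two_cut`. `three`: `h1`, `h2` of
`lam_xE` from the hypotheses (`sg' φ σ s x = σ x + s u + s w` for `φ x = pr u w`; elements `x ≠ e` have
`φ x ≠ 0` by `nz`); `lam K S (xE ..) + 1 ≤ 3`; the elements `q (ι i) (ι j)`, `i, j ∈ J` (clusters disjoint from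
`I ∪ T`), are not in `xE S e φ σ s I T` (they are not `e`, as `φ e = 0`, and their ends are not in
`I ∪ T`); `small_of_five`; `xE_three`; translate back: `G.adj p u w`, `p ≠ s u + s w`, comes from `x` with
`sg' φ σ s x ≠ 0`, so `φ x = pr t1 t2` or `pr t2 t3`, and `pr u w = pr t1 t2`, `u ≠ w`, gives the two cases.
`small_sep` (for `fs`): `I` disjoint from `univ.image a`, all elements at `I` have their other ends in
`I ∪ T`, `T.card ≤ 3`. If `cl i` meets `I` then `cl i` meets `T`: by `comp` there is a walk in `cG C e φ` from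
`a i ∉ I` to a vertex of `I`; all its vertices are in `cl i`; at the first vertex in `I` the previous
vertex is an end of an element at `I`, so in `T`. Clusters are disjoint, so at most `T.card ≤ 3`
clusters meet `I`, and at most 3 more... (a cluster meeting `T`): at most 3 clusters meet `I ∪ T`:
`Far cl (I ∪ T)` as `8 ≤ n`. Then as before.
-/

namespace Pool.Agent.HC

open Finset Module

variable {V : Type} [AddCommGroup V] [Module F2 V] [DecidableEq V] [FiniteDimensional F2 V]
  {K : Submodule F2 V} {S C : Finset V} {N n : ℕ} {g : Fin N → V} {q : Fin N → Fin N → V} {e : V}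
  {U : Type} [Fintype U] [DecidableEq U] {φ : V →ₗ[F2] (U → F2)} {σ : V →ₗ[F2] F2}
  {ι : Fin n → Fin N} {cl : Fin n → Finset U} {a : Fin n → U} {v : Fin n → Fin n → U}
  {tp : Fin n → Fin n → List U}

omit [Fintype U] in
private theorem c4_pr (u v w : U) :
    pr u v w = (if w = u then 1 else 0) + (if w = v then 1 else 0) := by
  unfold pr
  rw [Pi.add_apply, Pi.single_apply, Pi.single_apply]

omit [Fintype U] in
private theorem c4_pr_left {u v : U} (h : u ≠ v) : pr u v u = 1 := by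
  rw [c4_pr, if_pos rfl, if_neg h, add_zero]

omit [Fintype U] in
private theorem c4_pr_right {u v : U} (h : u ≠ v) : pr u v v = 1 := by
  rw [c4_pr, if_pos rfl, if_neg h.symm, zero_add]

omit [Fintype U] in
private theorem c4_pr_ne {u v w : U} (h : pr u v w ≠ 0) : w = u ∨ w = v := by
  by_contra hc
  rw [not_or] at hc
  rw [c4_pr, if_neg hc.1, if_neg hc.2, add_zero] at h
  exact h rfl

omit [Fintype U] in
private theorem c4_pr_comm (u v : U) : pr u v = pr v u := by
  unfold pr
  exact add_comm _ _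

omit [Fintype U] in
private theorem c4_pr_eq {u w a b : U} (h : u ≠ w) (he : pr u w = pr a b) :
    (u = a ∧ w = b) ∨ (u = b ∧ w = a) := by
  have h1 : pr a b u ≠ 0 := by
    rw [← he, c4_pr_left h]
    exact one_ne_zero
  have h2 : pr a b w ≠ 0 := by
    rw [← he, c4_pr_right h]
    exact one_ne_zero
  rcases c4_pr_ne h1 with h3 | h3 <;> rcases c4_pr_ne h2 with h4 | h4
  · exact absurd (h3.trans h4.symm) h
  · exact Or.inl ⟨h3, h4⟩
  · exact Or.inr ⟨h3, h4⟩
  · exact absurd (h3.trans h4.symm) h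

omit [DecidableEq V] [FiniteDimensional F2 V] [Fintype U] [DecidableEq U] in
private theorem c4_memS {x : V} {I : Finset U} :
    x ∈ stE S φ I ↔ x ∈ S ∧ ∃ u ∈ I, φ x u ≠ 0 := by
  classical
  unfold stE
  rw [Finset.mem_filter]

omit [FiniteDimensional F2 V] [DecidableEq U] in
private theorem c4_memX {s : U → F2} {I T : Finset U} {x : V} :
    x ∈ xE S e φ σ s I T ↔ x = e ∨ (x ∈ S ∧ x ≠ e ∧ (∀ u, φ x u ≠ 0 → u ∈ I ∨ u ∈ T) ∧
      ¬ ((∀ u, φ x u ≠ 0 → u ∈ T) ∧ sg' φ σ s x = 0)) := by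
  classical
  unfold xE
  rw [Finset.mem_insert, Finset.mem_filter]

omit [FiniteDimensional F2 V] in
/-- the other end of an element at `I` -/
private theorem c4_tr (hm : Mdl K S e φ σ) {I : Finset U} {Q : U → Prop} (hI : ∀ u ∈ I, Q u)
    (h : ∀ u ∈ I, ∀ p w, (mSG S φ σ).adj p u w → Q w) {x : V} (hx : x ∈ stE S φ I) :
    ∀ u, φ x u ≠ 0 → Q u := by
  intro u hu
  obtain ⟨hxS, u0, hu0, hx0⟩ := c4_memS.1 hx
  rcases hm.edge x hxS with h1 | ⟨a, b, hab, h1⟩
  · rw [h1] at hx0
    exact absurd rfl hx0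
  rw [h1] at hu hx0
  by_cases huu : u = u0
  · rw [huu]
    exact hI u0 hu0
  rcases c4_pr_ne hx0 with h2 | h2 <;> rcases c4_pr_ne hu with h3 | h3
  · exact absurd (h3.trans h2.symm) huu
  · refine h u0 hu0 (σ x) u ⟨fun h4 => huu h4.symm, x, hxS, ?_, rfl⟩
    rw [h1, h2, h3]
  · refine h u0 hu0 (σ x) u ⟨fun h4 => huu h4.symm, x, hxS, ?_, rfl⟩
    rw [h1, h2, h3, c4_pr_comm]
  · exact absurd (h3.trans h2.symm) huu

/-- a set of elements which contains no link between two clusters avoiding `I` -/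
private theorem c4_five (hd : CData S C q e φ σ ι cl a v tp) (hq : IsQ K S C g q)
    {I : Finset U} (hfar : Far cl I) {X : Finset V} (hX : X ⊆ S) (hl : lam K S X ≤ 3)
    (h : ∀ x ∈ X, ∀ u w, u ≠ w → φ x = pr u w → u ∉ I → w ∉ I → False) : QSmall S q X := by
  classical
  refine small_of_five hq hX hl ((univ.filter (fun i => Disjoint (cl i) I)).image ι) ?_ ?_
  · rw [card_image_of_injective _ hd.inj]
    exact hfar
  · intro i' hi' j' hj' hij hqX
    obtain ⟨i, hi, rfl⟩ := mem_image.1 hi'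
    obtain ⟨j, hj, rfl⟩ := mem_image.1 hj'
    have hne : i ≠ j := fun h => hij (by rw [h])
    have hvi := hd.clus.vC i j hne
    have hvj := hd.clus.vC j i hne.symm
    refine h _ hqX (v i j) (v j i) ?_ (hd.lnk i j hne) ?_ ?_
    · intro he
      rw [he] at hvi
      exact disjoint_left.1 (hd.clus.disj i j hne) hvi hvj
    · exact fun h => disjoint_left.1 (mem_filter.1 hi).2 hvi h
    · exact fun h => disjoint_left.1 (mem_filter.1 hj).2 hvj h

theorem CData.small_stE (hd : CData S C q e φ σ ι cl a v tp) (hq : IsQ K S C g q)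
    (hm : FMdl K S e φ σ) {I T : Finset U} (hT : T.Nonempty) (hT3 : T.card ≤ 3)
    (hfar : Far cl I) (h : ∀ x ∈ stE S φ I, ∀ u, φ x u ≠ 0 → u ∈ I ∨ u ∈ T) :
    QSmall S q (stE S φ I) := by
  refine c4_five hd hq hfar (fun x hx => (c4_memS.1 hx).1) ((lam_stE hm.toMdl hT h).trans hT3) ?_
  intro x hx u w _ hx1 hu hw
  obtain ⟨_, u0, hu0, h1⟩ := c4_memS.1 hx
  rw [hx1] at h1
  rcases c4_pr_ne h1 with h2 | h2
  · exact hu (h2 ▸ hu0)
  · exact hw (h2 ▸ hu0)

theorem CData.small_xE (hd : CData S C q e φ σ ι cl a v tp) (hq : IsQ K S C g q)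
    (hm : FMdl K S e φ σ) {I T : Finset U} {s : U → F2} (hfar : Far cl (I ∪ T))
    (hl : lam K S (xE S e φ σ s I T) ≤ 3) : QSmall S q (xE S e φ σ s I T) := by
  refine c4_five hd hq hfar ?_ hl ?_
  · intro x hx
    rcases c4_memX.1 hx with h | h
    · rw [h]
      exact hm.eS
    · exact h.1
  · intro x hx u w huw hx1 hu hw
    rcases c4_memX.1 hx with h | h
    · rw [h, hm.eφ] at hx1
      have h1 := congrFun hx1 u
      rw [c4_pr_left huw] at h1
      exact zero_ne_one h1
    · refine hu (mem_union.2 (h.2.2.1 u ?_))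
      rw [hx1, c4_pr_left huw]
      exact one_ne_zero

theorem CData.far_of_sep (hd : CData S C q e φ σ ι cl a v tp) (hq : IsQ K S C g q)
    (hm : FMdl K S e φ σ) (hn : 8 ≤ n) {I T : Finset U} (hI : Disjoint I (univ.image a))
    (hT3 : T.card ≤ 3) (h : ∀ x ∈ stE S φ I, ∀ u, φ x u ≠ 0 → u ∈ I ∨ u ∈ T) :
    Far cl (I ∪ T) := by
  classical
  -- a cluster which meets `I` meets `T`
  have key : ∀ i, ¬ Disjoint (cl i) (I ∪ T) → ∃ t ∈ T, t ∈ cl i := by
    intro i hi
    by_contra hno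
    push Not at hno
    rw [not_disjoint_iff] at hi
    obtain ⟨u, hu, huIT⟩ := hi
    have huI : u ∈ I := by
      rcases mem_union.1 huIT with h1 | h1
      · exact h1
      · exact absurd hu (hno u h1)
    have hstep : ∀ w w', w ∈ I → w ∈ cl i → (cG C e φ).Adj w w' → w' ∈ I ∧ w' ∈ cl i := by
      intro w w' hw hwc hadj
      have hw' : w' ∈ cl i := (hd.comp i w').2 (((hd.comp i w).1 hwc).trans hadj.reachable)
      obtain ⟨hne, x, hxC, _, hx⟩ := hadj
      have hxS : x ∈ stE S φ I := c4_memS.2 ⟨hq.CS hxC, w, hw, by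
        rw [hx, c4_pr_left hne]
        exact one_ne_zero⟩
      rcases h x hxS w' (by
        rw [hx, c4_pr_right hne]
        exact one_ne_zero) with h2 | h2
      · exact ⟨h2, hw'⟩
      · exact absurd hw' (hno w' h2)
    have hwalk : ∀ w w', (cG C e φ).Walk w w' → w ∈ I → w ∈ cl i → w' ∈ I := by
      intro w w' p
      induction p with
      | nil => exact fun h1 _ => h1
      | cons hadj _ ih =>
        intro h1 h2
        obtain ⟨h3, h4⟩ := hstep _ _ h1 h2 hadj
        exact ih h3 h4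
    obtain ⟨p⟩ := ((hd.comp i u).1 hu).symm
    exact disjoint_left.1 hI (hwalk _ _ p huI hu) (mem_image.2 ⟨i, mem_univ _, rfl⟩)
  have h1 : (univ.filter (fun i => ¬ Disjoint (cl i) (I ∪ T))).card ≤ T.card := by
    have hch : ∀ i, ∃ t : U, ¬ Disjoint (cl i) (I ∪ T) → t ∈ T ∧ t ∈ cl i := by
      intro i
      by_cases hi : Disjoint (cl i) (I ∪ T)
      · exact ⟨a i, fun h => absurd hi h⟩
      · obtain ⟨t, ht1, ht2⟩ := key i hi
        exact ⟨t, fun _ => ⟨ht1, ht2⟩⟩
    choose t ht using hch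
    refine card_le_card_of_injOn t (fun i hi => (ht i (mem_filter.1 (mem_coe.1 hi)).2).1) ?_
    intro i hi j hj hij
    by_contra hne
    have h2 := (ht i (mem_filter.1 (mem_coe.1 hi)).2).2
    have h3 := (ht j (mem_filter.1 (mem_coe.1 hj)).2).2
    rw [hij] at h2
    exact disjoint_left.1 (hd.clus.disj i j hne) h2 h3
  have h2 := card_filter_add_card_filter_not (s := (univ : Finset (Fin n)))
    (fun i => Disjoint (cl i) (I ∪ T))
  rw [card_univ, Fintype.card_fin] at h2
  unfold Far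
  omega

omit [FiniteDimensional F2 V] in
private theorem c4_sg (s : U → F2) {x : V} {u w : U} (h : φ x = pr u w) :
    sg' φ σ s x ≠ 0 ↔ σ x ≠ s u + s w := by
  have h3 : ∑ t, s t * φ x t = s u + s w := by
    rw [h]
    simp only [c4_pr, mul_add, mul_ite, mul_one, mul_zero, Finset.sum_add_distrib,
      Finset.sum_ite_eq', Finset.mem_univ, if_true]
  unfold sg'
  rw [h3, not_iff_not]
  have h4 := add_eq_iff2 (σ x) (s u + s w) 0
  rwa [zero_add] at h4

theorem CData.cuts (hd : CData S C q e φ σ ι cl a v tp) (hq : IsQ K S C g q)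
    (hm : FMdl K S e φ σ) (ht : Tight K S (QSmall S q)) : Cuts (mSG S φ σ) cl := by
  classical
  refine { one := ?_, two := ?_, three := ?_ }
  · intro I t hI htI hfar h
    have h1 : ∀ x ∈ stE S φ I, ∀ u, φ x u ≠ 0 → u ∈ I ∨ u = t := fun x hx =>
      c4_tr (Q := fun u => u ∈ I ∨ u = t) hm.toMdl (fun u hu => Or.inl hu) h hx
    refine no_one_cut ht hm hI htI ?_ h1
    refine hd.small_stE hq hm (T := {t}) (singleton_nonempty t) (by simp) hfar ?_
    intro x hx u hu
    rw [mem_singleton]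
    exact h1 x hx u hu
  · intro I t z hI htI hzI hfar h
    have h1 : ∀ x ∈ stE S φ I, ∀ u, φ x u ≠ 0 → u ∈ I ∨ u = t ∨ u = z := fun x hx =>
      c4_tr (Q := fun u => u ∈ I ∨ u = t ∨ u = z) hm.toMdl (fun u hu => Or.inl hu) h hx
    obtain ⟨x, hx, _⟩ := two_cut ht hm hI htI hzI (hd.small_stE hq hm (T := {t, z})
      (insert_nonempty t {z}) (card_le_two.trans (by norm_num)) hfar (by
        intro x hx u hu
        rw [mem_insert, mem_singleton]
        exact h1 x hx u hu)) h1
    exact ⟨x, hx⟩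
  · intro I T s hT hIT hfar h1 h2 h3
    have h1' : ∀ x ∈ S, (∃ u ∈ I, φ x u ≠ 0) → ∀ u, φ x u ≠ 0 → u ∈ I ∨ u ∈ T :=
      fun x hx hx2 => c4_tr (Q := fun u => u ∈ I ∨ u ∈ T) hm.toMdl (fun u hu => Or.inl hu) h1
        (c4_memS.2 ⟨hx, hx2⟩)
    have h2' : ∀ x ∈ S, x ≠ e → sg' φ σ s x ≠ 0 → ∀ u, φ x u ≠ 0 → u ∈ I ∨ u ∈ T := by
      intro x hx hxe hs u hu
      rcases hm.edge x hx with h4 | ⟨b, c, hbc, h4⟩
      · exact absurd h4 (hm.nz x hx hxe)
      · have h5 := h2 (σ x) b c ⟨hbc, x, hx, h4, rfl⟩ ((c4_sg s h4).1 hs)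
        rw [h4] at hu
        rcases c4_pr_ne hu with h6 | h6
        · rw [h6]
          exact h5.1
        · rw [h6]
          exact h5.2
    have hTne : T.Nonempty := by
      rw [← card_pos]
      omega
    have h4 := lam_xE hm.toMdl hTne hIT h1' h2'
    obtain ⟨t1, t2, t3, h12, h13, h23, hT', hall⟩ := xE_three ht hm hT hIT h1' h2' h3
      (hd.small_xE hq hm hfar (by omega))
    refine ⟨t1, t2, t3, h12, h13, h23, hT', ?_⟩
    intro p u w hadj hp
    obtain ⟨huw, x, hx, hxp, hxσ⟩ := hadj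
    have hxe : x ≠ e := by
      rintro rfl
      rw [hm.eφ] at hxp
      have h5 := congrFun hxp u
      rw [c4_pr_left huw] at h5
      exact zero_ne_one h5
    have hs : sg' φ σ s x ≠ 0 := (c4_sg s hxp).2 (by rw [hxσ]; exact hp)
    rcases hall x hx hxe hs with h5 | h5
    · rw [hxp] at h5
      rcases c4_pr_eq huw h5 with h6 | h6
      · exact Or.inl h6
      · exact Or.inr (Or.inl h6)
    · rw [hxp] at h5
      rcases c4_pr_eq huw h5 with h6 | h6
      · exact Or.inr (Or.inr (Or.inl h6))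
      · exact Or.inr (Or.inr (Or.inr h6))

end Pool.Agent.HC
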