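import Pool.Agent.HC.Mdl
import Pool.Agent.HC.Pth
import Pool.Agent.HC.Gr6

/-!
# HC-OO: two disjoint odd paths between vertices of a clique give the excluded minor (2.3)
-/

namespace Pool.Agent.HC

open Finset Module

variable {V : Type} [AddCommGroup V] [Module F2 V] [DecidableEq V] [FiniteDimensional F2 V]
  {K : Submodule F2 V} {S : Finset V} {e : V} {U : Type} [Fintype U] [DecidableEq U]
  {φ : V →ₗ[F2] (U → F2)} {σ : V →ₗ[F2] F2}

omit [FiniteDimensional F2 V] [DecidableEq V] [Fintype U] in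
private theorem oo_inv {G : SG U} {u v : U} {l : List U} {p : F2} (h : G.Path (u :: v :: l) p) :
    ∃ p' q, G.adj p' u v ∧ u ∉ v :: l ∧ G.Path (v :: l) q ∧ p = p' + q := by
  cases h with
  | cons p' q _ _ _ h1 h2 h3 => exact ⟨p', q, h1, h2, h3, rfl⟩

private theorem oo_inv1 {U : Type} {G : SG U} {u : U} {p : F2} (h : G.Path [u] p) : p = 0 := by
  cases h
  rfl

private theorem oo_F2 (x : F2) : x + x = 0 := CharTwo.add_self_eq_zero x

private theorem oo_fun {U : Type} (x : U → F2) : x + x = 0 := by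
  funext u
  exact oo_F2 _

private theorem oo_pr_apply {U : Type} [DecidableEq U] (u v w : U) :
    pr u v w = (if w = u then 1 else 0) + (if w = v then 1 else 0) := by
  simp only [pr, Pi.add_apply, Pi.single_apply]

private theorem oo_pr_supp {U : Type} [DecidableEq U] {u v w : U} (h : pr u v w ≠ 0) :
    w = u ∨ w = v := by
  by_contra hc
  push Not at hc
  rw [oo_pr_apply, if_neg hc.1, if_neg hc.2, add_zero] at h
  exact h rfl

private theorem oo_pr_left {U : Type} [DecidableEq U] {u v : U} (h : u ≠ v) : pr u v u = 1 := by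
  rw [oo_pr_apply, if_pos rfl, if_neg h, add_zero]

private theorem oo_pr_right {U : Type} [DecidableEq U] {u v : U} (h : u ≠ v) : pr u v v = 1 := by
  rw [oo_pr_apply, if_pos rfl, if_neg h.symm, zero_add]

private theorem oo_pr_add {U : Type} [DecidableEq U] (u v w : U) : pr u v + pr v w = pr u w := by
  have h := oo_fun (Pi.single v 1 : U → F2)
  unfold pr
  calc Pi.single u 1 + Pi.single v 1 + (Pi.single v 1 + Pi.single w 1)
      = Pi.single u 1 + (Pi.single v 1 + Pi.single v 1) + Pi.single w 1 := by abel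
    _ = _ := by rw [h, add_zero]

omit [FiniteDimensional F2 V] [Fintype U] in
private theorem oo_path {w : U} (k : List U) : ∀ (u : U) (p : F2),
    (mSG S φ σ).Path (u :: (k ++ [w])) p →
    ∃ X ⊆ S, X.Nonempty ∧ φ (∑ x ∈ X, x) = pr u w ∧ σ (∑ x ∈ X, x) = p ∧
      (∀ x ∈ X, φ x ≠ 0) ∧ (∀ x ∈ X, ∀ v, φ x v ≠ 0 → v ∈ u :: (k ++ [w])) ∧
      (∀ E ⊆ X, (∀ v ∈ k, φ (∑ x ∈ E, x) v = 0) → E = ∅ ∨ E = X) := by
  induction k with
  | nil =>
    intro u p h
    rw [List.nil_append] at h
    obtain ⟨p', q, ⟨huw, x, hxS, hx1, hx2⟩, -, h3, rfl⟩ := oo_inv h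
    have hq := oo_inv1 h3
    subst hq
    refine ⟨{x}, by simpa using hxS, ⟨x, mem_singleton_self x⟩, ?_, ?_, ?_, ?_, ?_⟩
    · rw [sum_singleton, hx1]
    · rw [sum_singleton, hx2, add_zero]
    · intro y hy
      rw [mem_singleton] at hy
      subst hy
      rw [hx1]
      intro h0
      have h1 := congrFun h0 u
      rw [oo_pr_left huw] at h1
      exact one_ne_zero h1
    · intro y hy v hv
      rw [mem_singleton] at hy
      subst hy
      rw [hx1] at hv
      rcases oo_pr_supp hv with rfl | rfl <;> simp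
    · intro E hE _
      exact Finset.subset_singleton_iff.1 hE
  | cons v k ih =>
    intro u p h
    rw [List.cons_append] at h
    obtain ⟨p', q, ⟨huv, x, hxS, hx1, hx2⟩, hnot, h3, rfl⟩ := oo_inv h
    obtain ⟨X, hXS, hXne, hX1, hX2, hX3, hX4, hX5⟩ := ih v q h3
    have hnd := h3.nodup
    have hxX : x ∉ X := by
      intro hx
      apply hnot
      apply hX4 x hx u
      rw [hx1, oo_pr_left huv]
      exact one_ne_zero
    have hvw : v ≠ w := by
      rw [List.nodup_cons] at hnd
      intro hvw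
      apply hnd.1
      rw [hvw]
      simp
    refine ⟨insert x X, Finset.insert_subset hxS hXS, Finset.insert_nonempty x X, ?_, ?_, ?_, ?_,
      ?_⟩
    · rw [sum_insert hxX, map_add, hx1, hX1, oo_pr_add]
    · rw [sum_insert hxX, map_add, hx2, hX2]
    · intro y hy
      rcases Finset.mem_insert.1 hy with rfl | hy
      · rw [hx1]
        intro h0
        have h1 := congrFun h0 u
        rw [oo_pr_left huv] at h1
        exact one_ne_zero h1
      · exact hX3 y hy
    · intro y hy z hz
      rcases Finset.mem_insert.1 hy with rfl | hy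
      · rw [hx1] at hz
        rcases oo_pr_supp hz with rfl | rfl <;> simp
      · exact List.mem_cons_of_mem _ (hX4 y hy z hz)
    · intro E hE hv
      have hE' : E.erase x ⊆ X := by
        intro y hy
        rcases Finset.mem_insert.1 (hE (Finset.mem_of_mem_erase hy)) with h1 | h1
        · exact absurd h1 (Finset.ne_of_mem_erase hy)
        · exact h1
      have hxk : ∀ z ∈ k, φ x z = 0 := by
        intro z hz
        by_contra hne
        rw [hx1] at hne
        rcases oo_pr_supp hne with rfl | rfl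
        · exact hnot (List.mem_cons_of_mem _ (List.mem_append_left _ hz))
        · rw [List.nodup_cons] at hnd
          exact hnd.1 (List.mem_append_left _ hz)
      by_cases hxE : x ∈ E
      · have hsum : ∑ y ∈ E, y = x + ∑ y ∈ E.erase x, y :=
          (Finset.add_sum_erase E (fun y => y) hxE).symm
        have h5 := hX5 (E.erase x) hE' (by
          intro z hz
          have h6 := hv z (List.mem_cons_of_mem _ hz)
          rw [hsum, map_add, Pi.add_apply, hxk z hz, zero_add] at h6
          exact h6)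
        rcases h5 with h5 | h5
        · exfalso
          have h6 := hv v List.mem_cons_self
          rw [hsum, h5, sum_empty, add_zero, hx1, oo_pr_right huv] at h6
          exact one_ne_zero h6
        · right
          rw [← h5, Finset.insert_erase hxE]
      · have hEe : E.erase x = E := Finset.erase_eq_of_notMem hxE
        rw [hEe] at hE'
        rcases hX5 E hE' (fun z hz => hv z (List.mem_cons_of_mem _ hz)) with h5 | h5
        · exact Or.inl h5
        · exfalso
          have h6 := hv v List.mem_cons_self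
          rw [h5, hX1, oo_pr_left hvw] at h6
          exact one_ne_zero h6

private theorem oo_even_smul {M : Type} [AddCommGroup M] [Module F2 M] {c : ℕ} (hc : Even c)
    (x : M) : c • x = 0 := by
  obtain ⟨d, rfl⟩ := hc
  rw [add_smul]
  exact add_self2 _

omit [FiniteDimensional F2 V] [DecidableEq V] in
private theorem oo_sum {n : ℕ} (i0 : Fin n) (f : Fin n → V) (a : Fin n → U)
    (hf : ∀ i j, φ (f i + f j) = pr (a i) (a j)) (hσ : ∀ i j, σ (f i + f j) = 0)
    (T : Finset (Fin n)) (hT : Even T.card) :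
    φ (∑ i ∈ T, f i) = ∑ i ∈ T, Pi.single (a i) 1 ∧ σ (∑ i ∈ T, f i) = 0 := by
  have h1 : ∑ i ∈ T, f i = ∑ i ∈ T, (f i + f i0) := by
    rw [sum_add_distrib, sum_const, oo_even_smul hT, add_zero]
  rw [h1, map_sum, map_sum]
  constructor
  · rw [sum_congr rfl fun i _ => hf i i0]
    have h2 : ∑ i ∈ T, pr (a i) (a i0) =
        ∑ i ∈ T, ((Pi.single (a i) 1 : U → F2) + Pi.single (a i0) 1) := rfl
    rw [h2, sum_add_distrib, sum_const, oo_even_smul hT, add_zero]
  · exact sum_eq_zero fun i _ => hσ i i0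

theorem hasO_of_twoP {m n : ℕ} (hm : 4 ≤ m) (hmn : m ≤ n) (h : Mdl K S e φ σ) (f : Fin n → V)
    (a : Fin n → U) (ha : Function.Injective a) (hf : ∀ i j, φ (f i + f j) = pr (a i) (a j))
    (hσ : ∀ i j, σ (f i + f j) = 0) (hfS : ∀ i j, i ≠ j → ∃ b ∈ S, b + (f i + f j) ∈ K)
    {p q r s : U} {k l : List U} (hT : TwoP (mSG S φ σ) (univ.image a) p q r s k l) :
    HasO m K S := by
  have hn0 : 0 < n := by omega
  obtain ⟨X1, hX1S, ⟨x0, hx0⟩, h11, h12, h13, h14, h15⟩ := oo_path k p 1 hT.p1
  obtain ⟨X2, hX2S, hX2ne, h21, h22, h23, h24, h25⟩ := oo_path l r 1 hT.p2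
  have hdis : Disjoint X1 X2 := by
    rw [Finset.disjoint_left]
    intro x hx1 hx2
    obtain ⟨v, hv⟩ := Function.ne_iff.1 (h13 x hx1)
    exact hT.disj v (h14 x hx1 v hv) (h24 x hx2 v hv)
  -- the key claim
  have hkey : ∀ E ⊆ X1 ∪ X2, (∀ v, v ∉ univ.image a → φ (∑ x ∈ E, x) v = 0) →
      (E ∩ X1 = ∅ ∨ E ∩ X1 = X1) ∧ (E ∩ X2 = ∅ ∨ E ∩ X2 = X2) := by
    intro E hE hv
    have hE2 : E = (E ∩ X1) ∪ (E ∩ X2) := by
      rw [← Finset.inter_union_distrib_left, Finset.inter_eq_left.2 hE]
    have hd2 : Disjoint (E ∩ X1) (E ∩ X2) :=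
      Finset.disjoint_of_subset_left Finset.inter_subset_right
        (Finset.disjoint_of_subset_right Finset.inter_subset_right hdis)
    have hs : ∑ x ∈ E, x = ∑ x ∈ E ∩ X1, x + ∑ x ∈ E ∩ X2, x := by
      conv_lhs => rw [hE2]
      exact sum_union hd2
    have z1 : ∀ v ∈ k, φ (∑ x ∈ E ∩ X2, x) v = 0 := by
      intro v hvk
      rw [map_sum, Finset.sum_apply]
      refine sum_eq_zero fun x hx => ?_
      by_contra hne
      exact hT.disj v (List.mem_cons_of_mem _ (List.mem_append_left _ hvk))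
        (h24 x (Finset.inter_subset_right hx) v hne)
    have z2 : ∀ v ∈ l, φ (∑ x ∈ E ∩ X1, x) v = 0 := by
      intro v hvk
      rw [map_sum, Finset.sum_apply]
      refine sum_eq_zero fun x hx => ?_
      by_contra hne
      exact hT.disj v (h14 x (Finset.inter_subset_right hx) v hne)
        (List.mem_cons_of_mem _ (List.mem_append_left _ hvk))
    constructor
    · apply h15 _ Finset.inter_subset_right
      intro v hvk
      have h1 := hv v (hT.kA v hvk)
      rw [hs, map_add, Pi.add_apply, z1 v hvk, add_zero] at h1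
      exact h1
    · apply h25 _ Finset.inter_subset_right
      intro v hvk
      have h1 := hv v (hT.lA v hvk)
      rw [hs, map_add, Pi.add_apply, z2 v hvk, zero_add] at h1
      exact h1
  set F : Finset V := (X1 ∪ X2).erase x0 with hF
  have hx0u : x0 ∈ X1 ∪ X2 := Finset.mem_union_left _ hx0
  have hFS : F ⊆ S :=
    (Finset.erase_subset _ _).trans (Finset.union_subset hX1S hX2S)
  have hsumF : ∑ x ∈ X1, x + ∑ x ∈ X2, x = x0 + ∑ x ∈ F, x := by
    rw [← sum_union hdis, hF]
    exact (Finset.add_sum_erase (X1 ∪ X2) (fun x => x) hx0u).symm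
  -- independence
  have hind : ∀ T : Finset (Fin n), Even T.card → ∑ i ∈ T, f i ∈ hat K (F : Set V) → T = ∅ := by
    intro T hTe hTm
    obtain ⟨hφ1, hσ1⟩ := oo_sum ⟨0, hn0⟩ f a hf hσ T hTe
    obtain ⟨E, hEF, hE⟩ := (mem_hat_iff K F _).1 hTm
    have e1 : φ (∑ x ∈ E, x) = ∑ i ∈ T, Pi.single (a i) 1 := by
      have h1 := h.kφ _ hE
      rw [map_add, hφ1] at h1
      have h2 := oo_fun (∑ i ∈ T, (Pi.single (a i) 1 : U → F2))
      have h3 : φ (∑ x ∈ E, x) = (∑ i ∈ T, (Pi.single (a i) 1 : U → F2) +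
          ∑ i ∈ T, (Pi.single (a i) 1 : U → F2)) + φ (∑ x ∈ E, x) := by
        rw [h2, zero_add]
      rw [h3, add_assoc, h1, add_zero]
    have e2 : σ (∑ x ∈ E, x) = 0 := by
      have h1 := h.kσ _ hE
      rw [map_add, hσ1, zero_add] at h1
      exact h1
    have hEX : E ⊆ X1 ∪ X2 := hEF.trans (Finset.erase_subset _ _)
    obtain ⟨hc1, hc2⟩ := hkey E hEX (by
      intro v hv
      rw [e1, Finset.sum_apply]
      refine sum_eq_zero fun i _ => ?_
      rw [Pi.single_apply, if_neg]
      rintro rfl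
      exact hv (mem_image_of_mem a (mem_univ i)))
    have hE1 : E ∩ X1 = ∅ := by
      rcases hc1 with h1 | h1
      · exact h1
      · exfalso
        have h2 : x0 ∈ E ∩ X1 := by
          rw [h1]
          exact hx0
        exact Finset.notMem_erase x0 _ (hEF (Finset.mem_inter.1 h2).1)
    have hE0 : E = E ∩ X2 := by
      conv_lhs => rw [← Finset.inter_eq_left.2 hEX, Finset.inter_union_distrib_left, hE1,
        Finset.empty_union]
    have hE3 : E = ∅ := by
      rcases hc2 with h1 | h1
      · rw [hE0, h1]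
      · exfalso
        rw [hE0, h1, h22] at e2
        exact one_ne_zero e2
    rw [hE3, sum_empty, map_zero] at e1
    rw [Finset.eq_empty_iff_forall_notMem]
    intro i hi
    have h1 := congrFun e1 (a i)
    rw [Pi.zero_apply, Finset.sum_apply, Finset.sum_eq_single i] at h1
    · rw [Pi.single_eq_same] at h1
      exact zero_ne_one h1
    · intro j _ hji
      rw [Pi.single_apply, if_neg]
      intro hij
      exact hji (ha hij).symm
    · exact fun hni => absurd hi hni
  -- the four ends
  obtain ⟨i1, -, rfl⟩ := mem_image.1 hT.aA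
  obtain ⟨i2, -, rfl⟩ := mem_image.1 hT.bA
  obtain ⟨i3, -, rfl⟩ := mem_image.1 hT.cA
  obtain ⟨i4, -, rfl⟩ := mem_image.1 hT.dA
  have hnd1 := hT.p1.nodup
  have hnd2 := hT.p2.nodup
  have d12 : i1 ≠ i2 := by
    rintro rfl
    rw [List.nodup_cons] at hnd1
    apply hnd1.1
    simp
  have d34 : i3 ≠ i4 := by
    rintro rfl
    rw [List.nodup_cons] at hnd2
    apply hnd2.1
    simp
  have d13 : i1 ≠ i3 := by
    rintro rfl
    exact hT.disj (a i1) (by simp) (by simp)
  have d14 : i1 ≠ i4 := by
    rintro rfl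
    exact hT.disj (a i1) (by simp) (by simp)
  have d23 : i2 ≠ i3 := by
    rintro rfl
    exact hT.disj (a i2) (by simp) (by simp)
  have d24 : i2 ≠ i4 := by
    rintro rfl
    exact hT.disj (a i2) (by simp) (by simp)
  -- the vector of weight four
  have hfh : ∀ i j, i ≠ j → f i + f j ∈ hat K (S : Set V) := by
    intro i j hij
    obtain ⟨b, hb, hb2⟩ := hfS i j hij
    have e1 : f i + f j = (b + (f i + f j)) + b := by
      have := add_self2 b
      calc f i + f j = (b + b) + (f i + f j) := by rw [this, zero_add]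
        _ = _ := by abel
    rw [e1]
    exact Submodule.add_mem _ (le_hat _ _ hb2) (subset_hat _ _ hb)
  have hy : (∑ x ∈ X1, x + ∑ x ∈ X2, x) + (f i1 + f i2 + f i3 + f i4) ∈ K := by
    apply h.inj
    · apply Submodule.add_mem
      · apply Submodule.add_mem
        · exact Submodule.sum_mem _ fun x hx => subset_hat _ _ (hX1S hx)
        · exact Submodule.sum_mem _ fun x hx => subset_hat _ _ (hX2S hx)
      · rw [add_assoc (f i1 + f i2)]
        exact Submodule.add_mem _ (hfh i1 i2 d12) (hfh i3 i4 d34)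
    · rw [add_assoc (f i1 + f i2), map_add, map_add, map_add, h11, h21, hf, hf]
      exact oo_fun _
    · rw [add_assoc (f i1 + f i2), map_add, map_add, map_add, h12, h22, hσ, hσ]
      exact oo_F2 1
  have hx0m : x0 + (f i1 + f i2 + f i3 + f i4) ∈ hat K (F : Set V) := by
    rw [hsumF] at hy
    have e1 : x0 + (f i1 + f i2 + f i3 + f i4) =
        (x0 + ∑ x ∈ F, x + (f i1 + f i2 + f i3 + f i4)) + ∑ x ∈ F, x := by
      have := add_self2 (∑ x ∈ F, x)
      calc x0 + (f i1 + f i2 + f i3 + f i4)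
          = x0 + (f i1 + f i2 + f i3 + f i4) + (∑ x ∈ F, x + ∑ x ∈ F, x) := by
            rw [this, add_zero]
        _ = _ := by abel
    rw [e1]
    exact Submodule.add_mem _ (le_hat _ _ hy)
      (Submodule.sum_mem _ fun x hx => subset_hat _ _ hx)
  -- the injection
  have hc4 : ({i1, i2, i3, i4} : Finset (Fin n)).card ≤ m :=
    (Finset.card_le_four).trans hm
  obtain ⟨I, hI, hIc⟩ := Finset.exists_superset_card_eq hc4 (by
    rw [Fintype.card_fin]
    exact hmn)
  have hmemI : ∀ i ∈ I, ∃ j : Fin m, I.orderEmbOfFin hIc j = i := by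
    intro i hi
    have h1 : i ∈ Set.range (I.orderEmbOfFin hIc) := by
      rw [Finset.range_orderEmbOfFin]
      exact hi
    exact h1
  obtain ⟨j1, hj1⟩ := hmemI i1 (hI (by simp))
  obtain ⟨j2, hj2⟩ := hmemI i2 (hI (by simp))
  obtain ⟨j3, hj3⟩ := hmemI i3 (hI (by simp))
  obtain ⟨j4, hj4⟩ := hmemI i4 (hI (by simp))
  refine ⟨F, fun j => f (I.orderEmbOfFin hIc j), j1, j2, j3, j4, hFS, ?_, ?_, ?_, ?_, ?_, ?_, ?_,
    ?_, x0, hX1S hx0, ?_⟩
  · intro T hTe hTm
    have h1 : ∑ i ∈ T.map (I.orderEmbOfFin hIc).toEmbedding, f i =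
        ∑ i ∈ T, f (I.orderEmbOfFin hIc i) := by
      rw [Finset.sum_map]
      rfl
    have h2 := hind (T.map (I.orderEmbOfFin hIc).toEmbedding) (by rwa [Finset.card_map])
      (by rw [h1]; exact hTm)
    exact Finset.map_eq_empty.1 h2
  · intro i j hij
    obtain ⟨b, hb, hb2⟩ := hfS (I.orderEmbOfFin hIc i) (I.orderEmbOfFin hIc j) (by
      intro h1
      exact hij ((I.orderEmbOfFin hIc).injective h1))
    exact ⟨b, hb, le_hat _ _ hb2⟩
  · rintro rfl
    exact d12 (hj1.symm.trans hj2)
  · rintro rfl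
    exact d13 (hj1.symm.trans hj3)
  · rintro rfl
    exact d14 (hj1.symm.trans hj4)
  · rintro rfl
    exact d23 (hj2.symm.trans hj3)
  · rintro rfl
    exact d24 (hj2.symm.trans hj4)
  · rintro rfl
    exact d34 (hj3.symm.trans hj4)
  · show x0 + (f (I.orderEmbOfFin hIc j1) + f (I.orderEmbOfFin hIc j2) +
      f (I.orderEmbOfFin hIc j3) + f (I.orderEmbOfFin hIc j4)) ∈ _
    rw [hj1, hj2, hj3, hj4]
    exact hx0m

end Pool.Agent.HC
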