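import Pool.Agent.HC.ClD
import Pool.Agent.HC.Pth

/-!
# HC-PGb: collapsing clusters

`G' = G.collapse (col cl a L)`: every cluster `cl i`, `i ∈ L`, is collapsed to its root `a i`; the
other vertices (called true) are not changed. The edges of `G'` and the paths which are kept.
-/

namespace Pool.Agent.HC

open Finset

variable {U : Type} [Fintype U] [DecidableEq U] {n : ℕ} {G : SG U} {cl : Fin n → Finset U}
  {a : Fin n → U} {v : Fin n → Fin n → U} {tp : Fin n → Fin n → List U} {L : Finset (Fin n)}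

theorem col_of_mem (hC : Clus G cl a v tp) {i : Fin n} (hi : i ∈ L) {u : U} (hu : u ∈ cl i) :
    col cl a L u = a i := by
  classical
  have h : ∃ i ∈ L, u ∈ cl i := ⟨i, hi, hu⟩
  unfold col
  rw [dif_pos h]
  have h2 := Classical.choose_spec h
  have h3 : Classical.choose h = i := by
    by_contra hne
    exact disjoint_left.1 (hC.disj _ _ hne) h2.2 hu
  rw [h3]

theorem col_of_true {u : U} (hu : ∀ i ∈ L, u ∉ cl i) : col cl a L u = u := by
  classical
  have h : ¬ ∃ i ∈ L, u ∈ cl i := by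
    rintro ⟨i, hi, hui⟩
    exact hu i hi hui
  unfold col
  rw [dif_neg h]

private theorem pgb_col_true (hC : Clus G cl a v tp) {u u' : U} (hu : ∀ i ∈ L, u ∉ cl i)
    (h : col cl a L u' = u) : u' = u := by
  by_cases h2 : ∃ j ∈ L, u' ∈ cl j
  · obtain ⟨j, hj, huj⟩ := h2
    rw [col_of_mem hC hj huj] at h
    exact absurd (h ▸ hC.aC j) (hu j hj)
  · rwa [col_of_true (fun j hj huj => h2 ⟨j, hj, huj⟩)] at h

private theorem pgb_col_root (hC : Clus G cl a v tp) {w : U} {i : Fin n}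
    (h : col cl a L w = a i) : w ∈ cl i := by
  by_cases h2 : ∃ j ∈ L, w ∈ cl j
  · obtain ⟨j, hj, hwj⟩ := h2
    rw [col_of_mem hC hj hwj] at h
    by_cases h4 : j = i
    · rwa [h4] at hwj
    · have h3 := hC.aC j
      rw [h] at h3
      exact absurd (hC.aC i) (disjoint_left.1 (hC.disj j i h4) h3)
  · rw [col_of_true (fun j hj hwj => h2 ⟨j, hj, hwj⟩)] at h
    rw [h]
    exact hC.aC i

theorem collapse_adj_true (hC : Clus G cl a v tp) {u w : U} (hu : ∀ i ∈ L, u ∉ cl i)
    (hw : ∀ i ∈ L, w ∉ cl i) (p : F2) :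
    (G.collapse (col cl a L)).adj p u w ↔ G.adj p u w := by
  constructor
  · rintro ⟨-, u', w', h1, h2, h⟩
    rw [pgb_col_true hC hu h1, pgb_col_true hC hw h2] at h
    exact h
  · intro h
    refine ⟨?_, u, w, col_of_true hu, col_of_true hw, h⟩
    rintro rfl
    exact G.irrefl _ _ h

theorem collapse_adj_of (hC : Clus G cl a v tp) {u w : U} (hu : ∀ i ∈ L, u ∉ cl i) {i : Fin n}
    (hi : i ∈ L) (hw : w ∈ cl i) {p : F2} (h : G.adj p u w) :
    (G.collapse (col cl a L)).adj p u (a i) := by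
  refine ⟨?_, u, w, col_of_true hu, col_of_mem hC hi hw, h⟩
  rintro rfl
  exact hu i hi (hC.aC i)

theorem collapse_adj_root (hC : Clus G cl a v tp) {u : U} (hu : ∀ i ∈ L, u ∉ cl i) {i : Fin n}
    (hi : i ∈ L) {p : F2} (h : (G.collapse (col cl a L)).adj p u (a i)) :
    ∃ w ∈ cl i, G.adj p u w := by
  obtain ⟨-, u', w', h1, h2, h3⟩ := h
  rw [pgb_col_true hC hu h1] at h3
  exact ⟨w', pgb_col_root hC h2, h3⟩

theorem collapse_adj_roots (hC : Clus G cl a v tp) {i j : Fin n} (hi : i ∈ L) (hj : j ∈ L)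
    {x y : U} (hx : x ∈ cl i) (hy : y ∈ cl j) (hij : i ≠ j) {p : F2} (h : G.adj p x y) :
    (G.collapse (col cl a L)).adj p (a i) (a j) := by
  refine ⟨?_, x, y, col_of_mem hC hi hx, col_of_mem hC hj hy, h⟩
  intro he
  have h1 := hC.aC i
  rw [he] at h1
  exact disjoint_left.1 (hC.disj i j hij) h1 (hC.aC j)

theorem collapse_dummy (hC : Clus G cl a v tp) {u w : U} {i : Fin n} (hi : i ∈ L)
    (hu : u ∈ cl i) (hua : u ≠ a i) (p : F2) : ¬ (G.collapse (col cl a L)).adj p u w := by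
  rintro ⟨-, u', w', h1, -, -⟩
  by_cases h2 : ∃ j ∈ L, u' ∈ cl j
  · obtain ⟨j, hj, huj⟩ := h2
    rw [col_of_mem hC hj huj] at h1
    have h3 := hC.aC j
    by_cases h4 : j = i
    · rw [h4] at h1
      exact hua h1.symm
    · rw [h1] at h3
      exact disjoint_left.1 (hC.disj j i h4) h3 hu
  · rw [col_of_true (fun j hj huj => h2 ⟨j, hj, huj⟩)] at h1
    rw [h1] at h2
    exact h2 ⟨i, hi, hu⟩

theorem path_col (hC : Clus G cl a v tp) {l : List U} {p : F2} (h : G.Path l p)
    (hl : ∀ x ∈ l, ∀ i ∈ L, x ∉ cl i) : (G.collapse (col cl a L)).Path l p := by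
  exact h.mono fun u hu v hv q hq => (collapse_adj_true hC (hl u hu) (hl v hv) q).2 hq

theorem tp_col (hC : Clus G cl a v tp) {i j : Fin n} (hi : i ∉ L) (hj : j ∈ L) :
    (G.collapse (col cl a L)).Path (tp i j ++ [a j]) 0 := by
  have hij : i ≠ j := by
    rintro rfl
    exact hi hj
  have htrue : ∀ x ∈ cl i, ∀ k ∈ L, x ∉ cl k := by
    intro x hx k hk hxk
    have hik : i ≠ k := by
      rintro rfl
      exact hi hk
    exact disjoint_left.1 (hC.disj i k hik) hx hxk
  have h1 : (G.collapse (col cl a L)).Path (tp i j) 0 :=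
    path_col hC (hC.tpP i j hij) fun x hx => htrue x (hC.tpC i j hij x hx)
  obtain ⟨m, hm⟩ := List.getLast?_eq_some_iff.1 (hC.tpL i j hij)
  have hadj : (G.collapse (col cl a L)).adj 0 (v i j) (a j) :=
    collapse_adj_of hC (htrue _ (hC.vC i j hij)) hj (hC.vC j i hij.symm) (hC.link i j hij)
  have hnot : ∀ x ∈ cl i, x ∉ [a j] := by
    intro x hx hxa
    rw [List.mem_singleton] at hxa
    rw [hxa] at hx
    exact disjoint_left.1 (hC.disj i j hij) hx (hC.aC j)
  have h2 : (G.collapse (col cl a L)).Path (v i j :: [a j]) (0 + 0) :=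
    SG.Path.cons 0 0 (v i j) (a j) [] hadj (hnot _ (hC.vC i j hij)) (SG.Path.single (a j))
  rw [hm] at h1
  have h3 := SG.Path.append h1 h2 fun y hy => hnot y (hC.tpC i j hij y (by
    rw [hm]
    exact List.mem_append_left _ hy))
  rw [hm, List.append_assoc]
  simpa using h3

end Pool.Agent.HC
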