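import Pool.Agent.HC.Cl3
import Pool.Agent.HC.OO
import Pool.Agent.HC.PGb
import Pool.Agent.HC.Gr6

/-!
# HC-Cl5: two disjoint odd paths in a collapsed graph give the excluded minor (4.3)

`F := {x ∈ C | x ≠ e, φ x = pr u w for some u, w in a common cl l, l ∈ L}` (classical filter), `M := hat K F`,
`ψ := colφ cl a L φ`, i.e. `ψ x u = ∑ (col w = u) φ x w`; `ψ x = pr (col u) (col w)` if `φ x = pr u w`.
(1) `Mdl M S e ψ σ`: `ψ`, `σ` vanish on `K` and on `F` (`σ = 0` on `C.erase e`, `col u = col w` for `u, w ∈ cl l`),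
`ψ e = 0`, edges: `pr (col u) (col w)` is zero or an edge. `inj`: let `v ∈ hat M S = hat K S` (`F ⊆ S`) with
`ψ v = 0`, `σ v = 0`: `φ v` vanishes at the vertices outside the clusters of `L` (`col_of_true`) and has
even sum on each `cl l`, `l ∈ L`. For `u, w ∈ cl l`: `pr u w = φ y` with `y` in the span of `F` (walk in
`cG C e φ` between `u` and `w`, `comp`: all its vertices are in `cl l`). So `φ v = φ y`, `y ∈ hat K F`,
`σ y = 0`, `v + y ∈ K`.
(2) edges: `((mSG S φ σ).collapse (col cl a L)).adj p u w` implies `(mSG S ψ σ).adj p u w`. So `TwoP` is inherited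
(`SG.Path.mono` for both paths, the other fields are the same).
(3) the clique: enumerate `L` by an injection `ε : Fin L.card → Fin n` (`L.orderEmbOfFin`), fix `o := ε 0`,
`f j := q (ι o) (ι (ε j))` for `j ≠ 0`, `f 0 := 0`. `ψ (f i + f j) = pr (a (ε i)) (a (ε j))`
(`lnk`, `ψ (q (ι i) (ι j)) = pr (a i) (a j)` for `i, j ∈ L`), `σ (f i + f j) = 0` (`even`). For `i ≠ j` the element
`b = q (ι (ε i)) (ι (ε j)) ∈ S` satisfies `ψ (b + f i + f j) = 0`, `σ = 0`, and is in `hat M S`, so
`b + (f i + f j) ∈ M` by (1). `univ.image (a ∘ ε) = L.image a`.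
(4) `hasO_of_twoP` (`m ≤ L.card`): `HasO m M S`; `HasO.mono` (`F ⊆ S`).
-/

namespace Pool.Agent.HC

open Finset Module

variable {V : Type} [AddCommGroup V] [Module F2 V] [DecidableEq V] [FiniteDimensional F2 V]
  {K : Submodule F2 V} {S C : Finset V} {N n : ℕ} {g : Fin N → V} {q : Fin N → Fin N → V} {e : V}
  {U : Type} [Fintype U] [DecidableEq U] {φ : V →ₗ[F2] (U → F2)} {σ : V →ₗ[F2] F2}
  {ι : Fin n → Fin N} {cl : Fin n → Finset U} {a : Fin n → U} {v : Fin n → Fin n → U}
  {tp : Fin n → Fin n → List U}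

/-- collapse the coordinates -/
private noncomputable def kap (c : U → U) : (U → F2) →ₗ[F2] (U → F2) :=
  LinearMap.pi fun u => ∑ w ∈ univ.filter (fun w => c w = u), LinearMap.proj w

omit [FiniteDimensional F2 V] [DecidableEq V] in
private theorem colφ_eq (L : Finset (Fin n)) (x : V) :
    colφ cl a L φ x = kap (col cl a L) (φ x) := by
  funext u
  unfold colφ kap
  rw [LinearMap.pi_apply, LinearMap.pi_apply, LinearMap.sum_apply, LinearMap.sum_apply]
  rfl

private theorem kap_single (c : U → U) (u : U) :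
    kap c (Pi.single u 1) = Pi.single (c u) 1 := by
  funext z
  unfold kap
  rw [LinearMap.pi_apply, LinearMap.sum_apply]
  simp only [LinearMap.proj_apply, Pi.single_apply]
  by_cases h : z = c u
  · subst h
    rw [if_pos rfl, Finset.sum_eq_single u]
    · rw [if_pos rfl]
    · intro w _ hw
      rw [if_neg hw]
    · intro hu
      exact absurd (by rw [mem_filter]; exact ⟨mem_univ _, rfl⟩) hu
  · rw [if_neg h]
    refine Finset.sum_eq_zero fun w hw => ?_
    rw [mem_filter] at hw
    rw [if_neg]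
    rintro rfl
    exact h hw.2.symm

private theorem kap_pr (c : U → U) (u w : U) : kap c (pr u w) = pr (c u) (c w) := by
  unfold pr
  rw [map_add, kap_single, kap_single]

private theorem cl5_pr_self (u : U) : pr u u = 0 := by
  unfold pr
  exact add_self2 _

private theorem cl5_pr_add (u v w : U) : pr u v + pr u w = pr v w := by
  have h := add_self2 (Pi.single u 1 : U → F2)
  unfold pr
  calc Pi.single u 1 + Pi.single v 1 + (Pi.single u 1 + Pi.single w 1)
      = (Pi.single u 1 + Pi.single u 1) + (Pi.single v 1 + Pi.single w 1) := by abel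
    _ = _ := by rw [h, zero_add]

private theorem cl5_pr_add' (u v w : U) : pr u v + pr v w = pr u w := by
  have h := add_self2 (Pi.single v 1 : U → F2)
  unfold pr
  calc Pi.single u 1 + Pi.single v 1 + (Pi.single v 1 + Pi.single w 1)
      = (Pi.single v 1 + Pi.single v 1) + (Pi.single u 1 + Pi.single w 1) := by abel
    _ = _ := by rw [h, zero_add]

/-- every vector is the sum of its coordinates; add the collapsed vector -/
private theorem kap_decomp (c : U → U) (y : U → F2) (hy : kap c y = 0) :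
    y = ∑ w, y w • pr w (c w) := by
  have h1 : y = ∑ w, y w • (Pi.single w 1 : U → F2) := by
    funext z
    rw [Finset.sum_apply, Finset.sum_eq_single z]
    · rw [Pi.smul_apply, Pi.single_eq_same, smul_eq_mul, mul_one]
    · intro w _ hw
      rw [Pi.smul_apply, Pi.single_eq_of_ne (Ne.symm hw), smul_zero]
    · exact fun hz => absurd (mem_univ z) hz
  have h2 : kap c y = ∑ w, y w • (Pi.single (c w) 1 : U → F2) := by
    conv_lhs => rw [h1]
    rw [map_sum]
    refine Finset.sum_congr rfl fun w _ => ?_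
    rw [map_smul, kap_single]
  have h3 : ∑ w, y w • pr w (c w) = y + kap c y := by
    conv_rhs => rw [h2]; arg 1; rw [h1]
    rw [← Finset.sum_add_distrib]
    refine Finset.sum_congr rfl fun w _ => ?_
    rw [← smul_add]
    rfl
  rw [h3, hy, add_zero]

open Classical in
/-- the elements of `C` inside the clusters of `L` -/
private noncomputable def FF (C : Finset V) (e : V) (φ : V →ₗ[F2] (U → F2))
    (cl : Fin n → Finset U) (L : Finset (Fin n)) : Finset V :=
  C.filter fun x => x ≠ e ∧ ∃ l ∈ L, ∃ u ∈ cl l, ∃ w ∈ cl l, φ x = pr u w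

omit [FiniteDimensional F2 V] in
private theorem FF_sub (L : Finset (Fin n)) : FF C e φ cl L ⊆ C.erase e := by
  classical
  intro x hx
  unfold FF at hx
  rw [mem_filter] at hx
  exact mem_erase.2 ⟨hx.2.1, hx.1⟩

omit [FiniteDimensional F2 V] in
/-- inside a cluster every pair is the image of a vector of the span of `F` -/
private theorem exists_span (hd : CData S C q e φ σ ι cl a v tp) {L : Finset (Fin n)}
    {l : Fin n} (hl : l ∈ L) {u w : U} (hu : u ∈ cl l) (hw : w ∈ cl l) :
    pr u w ∈ (Submodule.span F2 ((FF C e φ cl L : Finset V) : Set V)).map φ := by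
  classical
  have h1 : (cG C e φ).Reachable u w := ((hd.comp l u).1 hu).symm.trans ((hd.comp l w).1 hw)
  obtain ⟨p⟩ := h1
  induction p with
  | nil =>
    rw [cl5_pr_self]
    exact Submodule.zero_mem _
  | @cons x y z hxy p ih =>
    have hy : y ∈ cl l := (hd.comp l y).2 (((hd.comp l x).1 hu).trans hxy.reachable)
    have h2 := ih hy hw
    obtain ⟨hne, b, hb, hbe, hbφ⟩ := hxy
    have h3 : b ∈ FF C e φ cl L := by
      unfold FF
      rw [mem_filter]
      exact ⟨hb, hbe, l, hl, x, hu, y, hy, hbφ⟩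
    have h4 : pr x y ∈ (Submodule.span F2 ((FF C e φ cl L : Finset V) : Set V)).map φ :=
      ⟨b, Submodule.subset_span h3, hbφ⟩
    rw [← cl5_pr_add' x y z]
    exact Submodule.add_mem _ h4 h2

omit [FiniteDimensional F2 V] in
/-- the collapsed model -/
private theorem mdl_col (hd : CData S C q e φ σ ι cl a v tp) (hq : IsQ K S C g q)
    (hm : FMdl K S e φ σ)
    (hσ : ∀ v ∈ hat K ((C.erase e : Finset V) : Set V), σ v = 0) (L : Finset (Fin n)) :
    Mdl (hat K ((FF C e φ cl L : Finset V) : Set V)) S e (colφ cl a L φ) σ := by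
  classical
  have hFC : FF C e φ cl L ⊆ C.erase e := FF_sub L
  have hFS : (FF C e φ cl L : Finset V) ⊆ S := (hFC.trans (erase_subset _ _)).trans hq.CS
  have hsp : Submodule.span F2 ((FF C e φ cl L : Finset V) : Set V) ≤
      hat K ((FF C e φ cl L : Finset V) : Set V) := le_sup_right
  have hMσ : ∀ x ∈ hat K ((FF C e φ cl L : Finset V) : Set V), σ x = 0 := fun x hx =>
    hσ x (hat_mono le_rfl (by exact_mod_cast hFC) hx)
  refine ⟨hm.eS, ?_, hMσ, ?_, hm.eσ, ?_, ?_⟩
  · have h1 : hat K ((FF C e φ cl L : Finset V) : Set V) ≤ LinearMap.ker (colφ cl a L φ) := by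
      refine hat_le ?_ ?_
      · intro x hx
        rw [LinearMap.mem_ker, colφ_eq, hm.kφ x hx, map_zero]
      · intro x hx
        have hx' : x ∈ FF C e φ cl L := hx
        unfold FF at hx'
        rw [mem_filter] at hx'
        obtain ⟨-, -, l, hl, u, hu, w, hw, h2⟩ := hx'
        change colφ cl a L φ x = 0
        rw [colφ_eq, h2, kap_pr, col_of_mem hd.clus hl hu,
          col_of_mem hd.clus hl hw, cl5_pr_self]
    exact fun x hx => h1 hx
  · rw [colφ_eq, hm.eφ, map_zero]
  · intro x hx
    rcases hm.edge x hx with h1 | ⟨u, w, -, h1⟩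
    · left
      rw [colφ_eq, h1, map_zero]
    · rw [colφ_eq, h1, kap_pr]
      by_cases h2 : col cl a L u = col cl a L w
      · left
        rw [h2, cl5_pr_self]
      · right
        exact ⟨_, _, h2, rfl⟩
  · intro x hx h1 h2
    have hx' : x ∈ hat K (S : Set V) := by
      rw [hat_hat, Set.union_eq_self_of_subset_left (by exact_mod_cast hFS)] at hx
      exact hx
    rw [colφ_eq] at h1
    have h3 := kap_decomp _ _ h1
    have h4 : φ x ∈ (Submodule.span F2 ((FF C e φ cl L : Finset V) : Set V)).map φ := by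
      rw [h3]
      refine Submodule.sum_mem _ fun w _ => Submodule.smul_mem _ _ ?_
      by_cases hw : ∃ l ∈ L, w ∈ cl l
      · obtain ⟨l, hl, hwl⟩ := hw
        rw [col_of_mem hd.clus hl hwl]
        exact exists_span hd hl hwl (hd.clus.aC l)
      · rw [col_of_true (fun i hi hwi => hw ⟨i, hi, hwi⟩), cl5_pr_self]
        exact Submodule.zero_mem _
    obtain ⟨z, hz, hzx⟩ := h4
    have hzM := hsp hz
    have hzS : z ∈ hat K (S : Set V) := hat_mono le_rfl (by exact_mod_cast hFS) hzM
    have h5 : x + z ∈ K := by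
      refine hm.inj _ (Submodule.add_mem _ hx' hzS) ?_ ?_
      · rw [map_add, hzx]
        exact add_self2 _
      · rw [map_add, h2, hMσ z hzM, add_zero]
    exact mem_of_add_mem2 (le_hat K _ h5) hzM

theorem CData.hasO {m : ℕ} (hm4 : 4 ≤ m) (hd : CData S C q e φ σ ι cl a v tp)
    (hq : IsQ K S C g q) (hm : FMdl K S e φ σ)
    (hσ : ∀ v ∈ hat K ((C.erase e : Finset V) : Set V), σ v = 0) (L : Finset (Fin n))
    (hL : m ≤ L.card) {x y z t : U} {k l : List U}
    (hT : TwoP ((mSG S φ σ).collapse (col cl a L)) (L.image a) x y z t k l) : HasO m K S := by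
  classical
  have hM := mdl_col hd hq hm hσ L
  have hFS : (FF C e φ cl L : Finset V) ⊆ S :=
    ((FF_sub L).trans (erase_subset _ _)).trans hq.CS
  have hainj : Function.Injective a := by
    intro i j hij
    by_contra hne
    exact disjoint_left.1 (hd.clus.disj i j hne) (hd.clus.aC i) (hij ▸ hd.clus.aC j)
  have h0 : 0 < L.card := by omega
  let ε : Fin L.card → Fin n := L.orderEmbOfFin rfl
  have hεinj : Function.Injective ε := (L.orderEmbOfFin rfl).injective
  have hεL : ∀ j, ε j ∈ L := fun j => Finset.orderEmbOfFin_mem L rfl j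
  let o : Fin n := ε ⟨0, h0⟩
  have hoL : o ∈ L := hεL _
  let f : Fin L.card → V := fun j => if ε j = o then 0 else q (ι o) (ι (ε j))
  have hψq : ∀ i ∈ L, ∀ j ∈ L, i ≠ j → colφ cl a L φ (q (ι i) (ι j)) = pr (a i) (a j) := by
    intro i hi j hj hij
    rw [colφ_eq, hd.lnk i j hij, kap_pr, col_of_mem hd.clus hi (hd.clus.vC i j hij),
      col_of_mem hd.clus hj (hd.clus.vC j i hij.symm)]
  have hψf : ∀ j, colφ cl a L φ (f j) = pr (a o) (a (ε j)) := by
    intro j
    by_cases hj : ε j = o
    · have h1 : f j = 0 := if_pos hj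
      rw [h1, map_zero, hj, cl5_pr_self]
    · have h1 : f j = q (ι o) (ι (ε j)) := if_neg hj
      rw [h1]
      exact hψq o hoL (ε j) (hεL j) (Ne.symm hj)
  have hσf : ∀ j, σ (f j) = 0 := by
    intro j
    by_cases hj : ε j = o
    · have h1 : f j = 0 := if_pos hj
      rw [h1, map_zero]
    · have h1 : f j = q (ι o) (ι (ε j)) := if_neg hj
      rw [h1]
      exact hd.even o (ε j) (Ne.symm hj)
  have hfS : ∀ j, f j ∈ hat (hat K ((FF C e φ cl L : Finset V) : Set V)) (S : Set V) := by
    intro j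
    by_cases hj : ε j = o
    · have h1 : f j = 0 := if_pos hj
      rw [h1]
      exact Submodule.zero_mem _
    · have h1 : f j = q (ι o) (ι (ε j)) := if_neg hj
      rw [h1]
      refine subset_hat _ _ (hq.qS _ _ ?_)
      exact fun h2 => hj (hd.inj h2).symm
  have hψff : ∀ i j, colφ cl a L φ (f i + f j) = pr (a (ε i)) (a (ε j)) := by
    intro i j
    rw [map_add, hψf, hψf, cl5_pr_add]
  have hσff : ∀ i j, σ (f i + f j) = 0 := by
    intro i j
    rw [map_add, hσf, hσf, add_zero]
  have hcl : ∀ i j, i ≠ j → ∃ b ∈ S,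
      b + (f i + f j) ∈ hat K ((FF C e φ cl L : Finset V) : Set V) := by
    intro i j hij
    have hε : ε i ≠ ε j := fun h => hij (hεinj h)
    have hb : q (ι (ε i)) (ι (ε j)) ∈ S := hq.qS _ _ fun h => hε (hd.inj h)
    refine ⟨_, hb, hM.inj _ ?_ ?_ ?_⟩
    · exact Submodule.add_mem _ (subset_hat _ _ hb) (Submodule.add_mem _ (hfS i) (hfS j))
    · rw [map_add, hψff, hψq _ (hεL i) _ (hεL j) hε]
      exact add_self2 _
    · rw [map_add, hσff, hd.even _ _ hε, add_zero]
  have hadj : ∀ (p : F2) (u w : U), ((mSG S φ σ).collapse (col cl a L)).adj p u w →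
      (mSG S (colφ cl a L φ) σ).adj p u w := by
    rintro p u w ⟨hne, u', w', h1, h2, h3, b, hb, h4, h5⟩
    refine ⟨hne, b, hb, ?_, h5⟩
    rw [colφ_eq, h4, kap_pr, h1, h2]
  have him : (univ : Finset (Fin L.card)).image (fun j => a (ε j)) = L.image a := by
    ext u
    rw [mem_image, mem_image]
    constructor
    · rintro ⟨j, -, rfl⟩
      exact ⟨ε j, hεL j, rfl⟩
    · rintro ⟨i, hi, rfl⟩
      have h1 : i ∈ Set.range (L.orderEmbOfFin rfl) := by
        rw [Finset.range_orderEmbOfFin]
        exact hi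
      obtain ⟨j, hj⟩ := h1
      exact ⟨j, mem_univ _, by rw [← hj]⟩
  have hT2 : TwoP (mSG S (colφ cl a L φ) σ)
      ((univ : Finset (Fin L.card)).image (fun j => a (ε j))) x y z t k l := by
    rw [him]
    exact ⟨hT.p1.mono fun u _ w _ p h => hadj p u w h,
      hT.p2.mono fun u _ w _ p h => hadj p u w h, hT.aA, hT.bA, hT.cA, hT.dA, hT.kA, hT.lA,
      hT.disj⟩
  have hO := hasO_of_twoP hm4 hL hM f (fun j => a (ε j)) (hainj.comp hεinj) hψff hσff hcl hT2
  exact hO.mono hFS (Finset.Subset.refl S)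

end Pool.Agent.HC
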