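import Pool.Agent.HC.Defs

/-!
# Clusters in a signed graph: definitions (section 4 of the paper proof)
-/

namespace Pool.Agent.HC

open Finset

/-- `n` disjoint clusters, connected by even edges inside, with an even link between any two; the
root `a i`, the ends `v i j` of the links, the even paths `tp i j` from the root to `v i j`; no
vertex other than the root lies on more than half of the paths of a cluster -/
structure Clus {U : Type} [DecidableEq U] {n : ℕ} (G : SG U) (cl : Fin n → Finset U)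
    (a : Fin n → U) (v : Fin n → Fin n → U) (tp : Fin n → Fin n → List U) : Prop where
  disj : ∀ i j, i ≠ j → Disjoint (cl i) (cl j)
  aC : ∀ i, a i ∈ cl i
  vC : ∀ i j, i ≠ j → v i j ∈ cl i
  link : ∀ i j, i ≠ j → G.adj 0 (v i j) (v j i)
  tpP : ∀ i j, i ≠ j → G.Path (tp i j) 0
  tpC : ∀ i j, i ≠ j → ∀ x ∈ tp i j, x ∈ cl i
  tpH : ∀ i j, i ≠ j → (tp i j).head? = some (a i)
  tpL : ∀ i j, i ≠ j → (tp i j).getLast? = some (v i j)
  conn : ∀ i, ∀ x ∈ cl i, ∃ l, G.Path l 0 ∧ (∀ y ∈ l, y ∈ cl i) ∧ l.head? = some (a i) ∧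
    l.getLast? = some x
  cent : ∀ i t, t ≠ a i → 2 * (univ.filter (fun j => j ≠ i ∧ t ∈ tp i j)).card + 2 ≤ n

/-- at least five clusters avoid `I` -/
def Far {U : Type} [DecidableEq U] {n : ℕ} (cl : Fin n → Finset U) (I : Finset U) : Prop :=
  5 ≤ (univ.filter (fun i => Disjoint (cl i) I)).card

/-- what is used of the matroid: small cuts are trivial -/
structure Cuts {U : Type} [Fintype U] [DecidableEq U] {n : ℕ} (G : SG U)
    (cl : Fin n → Finset U) : Prop where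
  one : ∀ (I : Finset U) (t : U), I.Nonempty → t ∉ I → Far cl I →
    (∀ u ∈ I, ∀ p w, G.adj p u w → w ∈ I ∨ w = t) → False
  two : ∀ (I : Finset U) (t z : U), I.Nonempty → t ∉ I → z ∉ I → Far cl I →
    (∀ u ∈ I, ∀ p w, G.adj p u w → w ∈ I ∨ w = t ∨ w = z) → ∃ x, I = {x}
  three : ∀ (I T : Finset U) (s : U → F2), T.card = 3 → Disjoint I T → Far cl (I ∪ T) →
    (∀ u ∈ I, ∀ p w, G.adj p u w → w ∈ I ∨ w ∈ T) →
    (∀ p u w, G.adj p u w → p ≠ s u + s w → (u ∈ I ∨ u ∈ T) ∧ (w ∈ I ∨ w ∈ T)) →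
    (∀ u ∈ T, ∀ w ∈ T, (G.HG ∅ (univ \ I) s).Reachable u w) →
    ∃ t1 t2 t3, t1 ≠ t2 ∧ t1 ≠ t3 ∧ t2 ≠ t3 ∧ T = {t1, t2, t3} ∧
      ∀ p u w, G.adj p u w → p ≠ s u + s w →
        (u = t1 ∧ w = t2) ∨ (u = t2 ∧ w = t1) ∨ (u = t2 ∧ w = t3) ∨ (u = t3 ∧ w = t2)

/-- two disjoint odd paths between roots, which avoid all the other clusters -/
structure Lnk {U : Type} [DecidableEq U] {n : ℕ} (G : SG U) (cl : Fin n → Finset U)
    (a : Fin n → U) (i1 i2 i3 i4 : Fin n) (k l : List U) : Prop where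
  p1 : G.Path (a i1 :: (k ++ [a i2])) 1
  p2 : G.Path (a i3 :: (l ++ [a i4])) 1
  disj : ∀ x ∈ a i1 :: (k ++ [a i2]), x ∉ a i3 :: (l ++ [a i4])
  av1 : ∀ x ∈ a i1 :: (k ++ [a i2]), ∀ j, x ∈ cl j → j = i1 ∨ j = i2 ∨ j = i3 ∨ j = i4
  av2 : ∀ x ∈ a i3 :: (l ++ [a i4]), ∀ j, x ∈ cl j → j = i1 ∨ j = i2 ∨ j = i3 ∨ j = i4

/-- collapse every cluster `cl i`, `i ∈ L`, to its root -/
noncomputable def col {U : Type} {n : ℕ} (cl : Fin n → Finset U) (a : Fin n → U)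
    (L : Finset (Fin n)) (u : U) : U := by
  classical exact if h : ∃ i ∈ L, u ∈ cl i then a (Classical.choose h) else u

/-- the normalized situation of 4.3 : `P2 = a j3 .. a j4` is not spoiled, `P1 = a j1 .. a j2` and
`cl j3` are spoiled, `cl j1`, `cl j2`, `cl j4` are not -/
structure Nrm {U : Type} [DecidableEq U] {n : ℕ} (G : SG U) (cl : Fin n → Finset U)
    (a : Fin n → U) (L : Finset (Fin n)) (Z P T : Finset U) (s : U → F2)
    (j1 j2 j3 j4 : Fin n) (k l : List U) : Prop where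
  lnk : Lnk G cl a j1 j2 j3 j4 k l
  L1 : j1 ∉ L
  L2 : j2 ∉ L
  L3 : j3 ∉ L
  L4 : j4 ∉ L
  u2Z : ∀ z ∈ Z, z ∉ a j3 :: (l ++ [a j4])
  u2T : ∀ t ∈ T, ∀ t' ∈ T, t ∈ a j3 :: (l ++ [a j4]) → t' ∈ a j3 :: (l ++ [a j4]) → t = t'
  s1 : (∃ z ∈ Z, z ∈ a j1 :: (k ++ [a j2])) ∨
    ∃ t ∈ T, ∃ t' ∈ T, t ≠ t' ∧ t ∈ a j1 :: (k ++ [a j2]) ∧ t' ∈ a j1 :: (k ++ [a j2])
  s3 : (∃ z ∈ Z, z ∈ cl j3) ∨ ∃ t ∈ T, ∃ t' ∈ T, t ≠ t' ∧ t ∈ cl j3 ∧ t' ∈ cl j3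
  a1 : a j1 ∈ P ∧ s (a j1) = 0
  a2 : a j2 ∈ P ∧ s (a j2) = 0
  a4 : a j4 ∈ P ∧ s (a j4) = 0

end Pool.Agent.HC
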