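import Pool.Agent.HC.BasB

/-!
# HC-Con1: what happens when a contraction creates a small set of order two

If contracting `e` creates the small set `X` of order two with at least four elements, then `e` is
in the span of `X` and of the complement of `X`, and the guts do not change.
-/

namespace Pool.Agent.HC

open Finset Module

variable {V : Type} [AddCommGroup V] [Module F2 V] [DecidableEq V] [FiniteDimensional F2 V]
  {K : Submodule F2 V} {S X : Finset V} {sm : Finset V → Prop}

theorem Tight.contract_pre (h : Tight K S sm) {e : V} (he : e ∈ S) (hX : sm (insert e X))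
    (heX : e ∉ X) (hc : 4 ≤ X.card) (hl : lam (hat K {e}) (S.erase e) X ≤ 2) :
    e ∈ hat K (X : Set V) ∧ e ∈ hat K ((S \ insert e X : Finset V) : Set V) ∧
      lam K S (insert e X) = 3 ∧
      guts K S (insert e X) = hat K (X : Set V) ⊓ hat K ((S \ insert e X : Finset V) : Set V) ∧
      guts (hat K {e}) (S.erase e) X = guts K S (insert e X) := by
  have hX' : sm X := h.sub _ _ hX (subset_insert e X)
  have heK : e ∉ K := h.nz e he
  have hXS : X ⊆ S.erase e := fun y hy =>
    mem_erase.2 ⟨fun h1 => heX (h1 ▸ hy), h.sS _ hX' hy⟩
  have h3 : 3 ≤ lam K S X := by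
    by_contra h1
    have h2 := h.c3 X hX' (by omega)
    omega
  have h4 : 3 ≤ lam K S (insert e X) := by
    by_contra h1
    have h2 := h.c3 _ hX (by omega)
    rw [card_insert_of_notMem heX] at h2
    omega
  have e1 : S \ insert e X = S.erase e \ X := by
    ext y
    simp only [mem_sdiff, mem_insert, mem_erase]
    tauto
  have a1 : e ∈ hat K (X : Set V) := by
    by_contra h1
    have h2 := lam_contract_of_not_mem he heK hXS h1
    omega
  have a2 := lam_contract_of_mem he heK hXS a1
  have a3 : e ∈ hat K ((S.erase e \ X : Finset V) : Set V) := by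
    by_contra h1
    have h2 := lam_insert_contract_of_not_mem he heK hXS h1
    omega
  have a4 := lam_insert_contract_of_mem he heK hXS a3
  have key : ∀ T : Set V, e ∈ hat K T → hat K (insert e T) = hat K T := fun T hT =>
    le_antisymm (hat_le (le_hat K T) (Set.insert_subset hT (subset_hat K T)))
      (hat_mono le_rfl (Set.subset_insert e T))
  have b1 : hat K ((insert e X : Finset V) : Set V) = hat K (X : Set V) := by
    rw [coe_insert]
    exact key _ a1
  have b2 : guts K S (insert e X) =
      hat K (X : Set V) ⊓ hat K ((S \ insert e X : Finset V) : Set V) := by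
    unfold guts
    rw [b1]
  refine ⟨a1, ?_, by omega, b2, ?_⟩
  · rw [e1]
    exact a3
  · rw [b2, e1]
    unfold guts
    rw [hat_hat, hat_hat, Set.singleton_union, Set.singleton_union, key _ a1, key _ a3]

end Pool.Agent.HC
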