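import Pool.Agent.HC.RRep

/-!
# HC-Con3: components of a set of order three linked to a clique

Notation: `W = guts K S (insert e X)`, `hat K (insert e X) = hat K X` (`eh`).
`RRep.mem_W`: (→) `W ≤ L ⊔ W = hat L X ⊓ hat L B ≤ hat L B`, use `P1`. (←) `φ v` has sum zero
(`IsRep.sum_zero`, `v ∈ hat L (X ∪ B)`) and support in `P`: by `P2` there is `b ∈ hat L B` with
`φ b = φ v`, so `v + b ∈ L` (`rep.inj`), `v ∈ hat L B`, and `v ∈ hat L X`, so `v ∈ L ⊔ W` (`inf`),
`v = l + w`, `l = v + w ∈ L ⊓ hat K X = K ≤ W` (`W ≤ hat K X`).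
`RRep.phi_ne`: `φ x = 0` gives `x ∈ L ⊓ hat K X = K`, against `nz`.
`Q` closed: if `x ∈ X` has an end in `Q` then all its ends are in `Q`. Put `XQ = endsIn φ X Q`; the
elements of `X \ XQ` have no end in `Q`.
`RRep.mem_guts`: (→) `v ∈ hat K XQ`, so `φ v` vanishes off `Q`; by `guts_sub` (`XQ ⊆ insert e X`)
`v ∈ hat K (insert e X \ XQ) ⊔ W`, `v = y + w`; on `Q` the elements of `X \ XQ` vanish and
`φ e`, `φ w` have support in `P` (`e ∈ W`); so `φ v` has support in `P`, `v ∈ W` by `mem_W`. (←)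
`v ∈ W ≤ hat K X`: `v = y1 + y2`, `y1 ∈ hat K XQ`, `y2 ∈ hat K (X \ XQ)`; `φ y2 = φ v + φ y1` vanishes off
`Q` and on `Q`, so `y2 ∈ L ⊓ hat K X = K`, `v ∈ hat K XQ`; conclude with `guts_sub`.
`RRep.split`: every `w ∈ W` is `y1 + y2` with `y1 ∈ guts K S XQ`, `y2 ∈ guts K S (X \ XQ)`:
`w = y1 + y2` as before; `φ y1` equals `φ w` on `Q` and vanishes off `Q`, so has support in `P`, so
`y1 ∈ W` by `mem_W`, `y1 ∈ guts K S XQ` by `mem_guts`; the same for `y2` and the complement of `Q`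
(`X \ XQ = endsIn φ X Qᶜ` by `phi_ne`, `Qᶜ` is closed too).
`RRep.lam_add`: `W = guts K S XQ ⊔ guts K S (X \ XQ)`, and the intersection of the two is `K`
(`φ` vanishes on it, `L ⊓ hat K X = K`): `finrank_sup_add_inf`, `lam_add`, `l3`.
-/

namespace Pool.Agent.HC

open Finset Module

variable {V : Type} [AddCommGroup V] [Module F2 V] [DecidableEq V] [FiniteDimensional F2 V]
  {K L : Submodule F2 V} {S X B : Finset V} {e : V} {U : Type} [Fintype U] [DecidableEq U]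
  {φ : V →ₗ[F2] (U → F2)} {P : Finset U}

/-- the vectors whose image vanishes on `R` -/
private def c3Van (φ : V →ₗ[F2] (U → F2)) (R : Finset U) : Submodule F2 V where
  carrier := {v | ∀ u ∈ R, φ v u = 0}
  add_mem' := by
    intro a b ha hb u hu
    rw [map_add, Pi.add_apply, ha u hu, hb u hu, add_zero]
  zero_mem' := by
    intro u _
    rw [map_zero, Pi.zero_apply]
  smul_mem' := by
    intro c a ha u hu
    rw [map_smul, Pi.smul_apply, ha u hu, smul_zero]

omit [DecidableEq V] [FiniteDimensional F2 V] [Fintype U] [DecidableEq U] in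
private theorem c3_mem_van {φ : V →ₗ[F2] (U → F2)} {R : Finset U} {v : V} :
    v ∈ c3Van φ R ↔ ∀ u ∈ R, φ v u = 0 := Iff.rfl

omit [FiniteDimensional F2 V] in
private theorem RRep.c3_hatX (h : RRep K L S X B e φ P) :
    hat K ((insert e X : Finset V) : Set V) = hat K (X : Set V) := by
  rw [coe_insert]
  refine le_antisymm (hat_le (le_hat K _) ?_) (hat_mono le_rfl (Set.subset_insert e _))
  intro y hy
  rcases Set.mem_insert_iff.1 hy with rfl | hy
  · exact h.eh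
  · exact subset_hat K _ hy

omit [FiniteDimensional F2 V] in
private theorem RRep.c3_W_le (h : RRep K L S X B e φ P) :
    guts K S (insert e X) ≤ hat K (X : Set V) := by
  rw [← h.c3_hatX]
  exact inf_le_left

omit [FiniteDimensional F2 V] in
private theorem RRep.c3_big (h : RRep K L S X B e φ P) {v : V} (hv : v ∈ hat K (X : Set V)) :
    v ∈ hat L ((X : Set V) ∪ B) := hat_mono h.KL Set.subset_union_left hv

omit [FiniteDimensional F2 V] in
private theorem RRep.c3_inj (h : RRep K L S X B e φ P) {v : V} (hv : v ∈ hat K (X : Set V))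
    (h0 : φ v = 0) : v ∈ K := by
  have h1 := h.rep.inj v (h.c3_big hv) h0
  rw [← h.LX]
  exact ⟨hv, h1⟩

theorem RRep.mem_W (h : RRep K L S X B e φ P) {v : V} (hv : v ∈ hat K (X : Set V)) :
    v ∈ guts K S (insert e X) ↔ ∀ u, u ∉ P → φ v u = 0 := by
  constructor
  · intro hw
    have h1 : v ∈ hat L (X : Set V) ⊓ hat L (B : Set V) := by
      rw [h.inf]
      exact Submodule.mem_sup_right hw
    exact h.P1 v (Submodule.mem_inf.1 h1).2
  · intro hP
    obtain ⟨b, hb, hbv⟩ := h.P2 (φ v) (h.rep.sum_zero (h.c3_big hv)) hP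
    have h1 : v + b ∈ L := by
      refine h.rep.inj _ (Submodule.add_mem _ (h.c3_big hv)
        (hat_mono le_rfl Set.subset_union_right hb)) ?_
      rw [map_add, hbv]
      exact add_self2 _
    have h2 : v ∈ hat L (B : Set V) := mem_of_add_mem2 (le_hat L _ h1) hb
    have h3 : v ∈ hat L (X : Set V) ⊓ hat L (B : Set V) := ⟨hat_mono h.KL le_rfl hv, h2⟩
    rw [h.inf] at h3
    obtain ⟨l, hl, w, hw, rfl⟩ := Submodule.mem_sup.1 h3
    have h4 : l ∈ hat K (X : Set V) := mem_of_add_mem2 hv (h.c3_W_le hw)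
    have h5 : l ∈ K := by
      rw [← h.LX]
      exact ⟨h4, hl⟩
    exact Submodule.add_mem _ (le_guts K S _ h5) hw

theorem RRep.phi_ne (h : RRep K L S X B e φ P) {x : V} (hx : x ∈ X) : φ x ≠ 0 := by
  intro h0
  exact h.nz x (h.XS (mem_insert_of_mem hx)) (h.c3_inj (subset_hat K _ (mem_coe.2 hx)) h0)

omit [FiniteDimensional F2 V] [Fintype U] [DecidableEq U] in
private theorem c3_mem_endsIn {Q : Finset U} {x : V} :
    x ∈ endsIn φ X Q ↔ x ∈ X ∧ ∃ u ∈ Q, φ x u ≠ 0 := by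
  unfold endsIn
  rw [mem_filter]

omit [FiniteDimensional F2 V] [Fintype U] [DecidableEq U] in
private theorem c3_endsIn_sub (Q : Finset U) : endsIn φ X Q ⊆ X :=
  fun _ hx => (c3_mem_endsIn.1 hx).1

omit [FiniteDimensional F2 V] in
private theorem RRep.c3_off (h : RRep K L S X B e φ P) {Q : Finset U}
    (hQ : ∀ x ∈ X, (∃ u ∈ Q, φ x u ≠ 0) → ∀ u, φ x u ≠ 0 → u ∈ Q) {v : V}
    (hv : v ∈ hat K (endsIn φ X Q : Set V)) {u : U} (hu : u ∉ Q) : φ v u = 0 := by
  have h1 : hat K (endsIn φ X Q : Set V) ≤ c3Van φ {u} := by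
    refine hat_le ?_ ?_
    · intro y hy u' _
      rw [h.rep.ker y (h.KL hy), Pi.zero_apply]
    · intro y hy u' hu'
      rw [mem_singleton] at hu'
      subst hu'
      obtain ⟨h2, h3⟩ := c3_mem_endsIn.1 (mem_coe.1 hy)
      by_contra h4
      exact hu (hQ y h2 h3 _ h4)
  exact h1 hv u (mem_singleton_self u)

omit [FiniteDimensional F2 V] in
private theorem RRep.c3_on (h : RRep K L S X B e φ P) {Q : Finset U} {v : V}
    (hv : v ∈ hat K ((X \ endsIn φ X Q : Finset V) : Set V)) {u : U} (hu : u ∈ Q) :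
    φ v u = 0 := by
  have h1 : hat K ((X \ endsIn φ X Q : Finset V) : Set V) ≤ c3Van φ {u} := by
    refine hat_le ?_ ?_
    · intro y hy u' _
      rw [h.rep.ker y (h.KL hy), Pi.zero_apply]
    · intro y hy u' hu'
      rw [mem_singleton] at hu'
      subst hu'
      obtain ⟨h2, h3⟩ := mem_sdiff.1 (mem_coe.1 hy)
      by_contra h4
      exact h3 (c3_mem_endsIn.2 ⟨h2, _, hu, h4⟩)
  exact h1 hv u (mem_singleton_self u)

omit [FiniteDimensional F2 V] [Fintype U] [DecidableEq U] in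
private theorem c3_decomp (K : Submodule F2 V) (Q : Finset U) {v : V}
    (hv : v ∈ hat K (X : Set V)) : ∃ y1 ∈ hat K (endsIn φ X Q : Set V),
      ∃ y2 ∈ hat K ((X \ endsIn φ X Q : Finset V) : Set V), v = y1 + y2 := by
  have h1 : (X : Set V) = (endsIn φ X Q : Set V) ∪ ((X \ endsIn φ X Q : Finset V) : Set V) := by
    rw [← coe_union, union_sdiff_of_subset (c3_endsIn_sub Q)]
  rw [h1, hat_union] at hv
  obtain ⟨a, ha, b, hb, h2⟩ := Submodule.mem_sup.1 hv
  exact ⟨a, ha, b, hb, h2.symm⟩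

omit [FiniteDimensional F2 V] [Fintype U] [DecidableEq U] in
private theorem c3_le1 (K : Submodule F2 V) (Q : Finset U) :
    hat K (endsIn φ X Q : Set V) ≤ hat K (X : Set V) :=
  hat_mono le_rfl (coe_subset.2 (c3_endsIn_sub Q))

omit [FiniteDimensional F2 V] [Fintype U] [DecidableEq U] in
private theorem c3_le2 (K : Submodule F2 V) (Q : Finset U) :
    hat K ((X \ endsIn φ X Q : Finset V) : Set V) ≤ hat K (X : Set V) :=
  hat_mono le_rfl (coe_subset.2 sdiff_subset)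

theorem RRep.mem_guts (h : RRep K L S X B e φ P) {Q : Finset U}
    (hQ : ∀ x ∈ X, (∃ u ∈ Q, φ x u ≠ 0) → ∀ u, φ x u ≠ 0 → u ∈ Q) {v : V} :
    v ∈ guts K S (endsIn φ X Q) ↔ v ∈ guts K S (insert e X) ∧ ∀ u, u ∉ Q → φ v u = 0 := by
  have hsub : endsIn φ X Q ⊆ insert e X := (c3_endsIn_sub Q).trans (subset_insert e X)
  rw [guts_sub hsub h.XS, Submodule.mem_inf]
  constructor
  · rintro ⟨h1, h2⟩
    have hoff : ∀ u, u ∉ Q → φ v u = 0 := fun u hu => h.c3_off hQ h1 hu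
    refine ⟨?_, hoff⟩
    have h3 : v ∈ hat K ((X \ endsIn φ X Q : Finset V) : Set V) ⊔ guts K S (insert e X) := by
      refine (sup_le (hat_le ((le_hat K _).trans le_sup_left) ?_) le_sup_right) h2
      intro y hy
      obtain ⟨h4, h5⟩ := mem_sdiff.1 (mem_coe.1 hy)
      rcases mem_insert.1 h4 with rfl | h4
      · exact Submodule.mem_sup_right h.eW
      · exact Submodule.mem_sup_left (subset_hat K _ (mem_coe.2 (mem_sdiff.2 ⟨h4, h5⟩)))
    obtain ⟨y, hy, w, hw, h4⟩ := Submodule.mem_sup.1 h3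
    refine (h.mem_W (c3_le1 K Q h1)).2 fun u hu => ?_
    by_cases huQ : u ∈ Q
    · rw [← h4, map_add, Pi.add_apply, h.c3_on hy huQ, (h.mem_W (h.c3_W_le hw)).1 hw u hu,
        add_zero]
    · exact hoff u huQ
  · rintro ⟨h1, h2⟩
    refine ⟨?_, Submodule.mem_sup_right h1⟩
    obtain ⟨y1, hy1, y2, hy2, rfl⟩ := c3_decomp (φ := φ) K Q (h.c3_W_le h1)
    have h3 : y2 ∈ K := by
      refine h.c3_inj (c3_le2 K Q hy2) ?_
      funext u
      rw [Pi.zero_apply]
      by_cases hu : u ∈ Q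
      · exact h.c3_on hy2 hu
      · have h4 := h2 u hu
        rw [map_add, Pi.add_apply, h.c3_off hQ hy1 hu, zero_add] at h4
        exact h4
    exact Submodule.add_mem _ hy1 (le_hat K _ h3)

omit [FiniteDimensional F2 V] in
private theorem c3_compl {Q : Finset U}
    (hQ : ∀ x ∈ X, (∃ u ∈ Q, φ x u ≠ 0) → ∀ u, φ x u ≠ 0 → u ∈ Q) :
    ∀ x ∈ X, (∃ u ∈ Qᶜ, φ x u ≠ 0) → ∀ u, φ x u ≠ 0 → u ∈ Qᶜ := by
  rintro x hx ⟨u, hu, hu2⟩ u' hu'
  rw [mem_compl] at hu ⊢
  intro h1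
  exact hu (hQ x hx ⟨u', h1, hu'⟩ u hu2)

private theorem RRep.c3_sdiff (h : RRep K L S X B e φ P) {Q : Finset U}
    (hQ : ∀ x ∈ X, (∃ u ∈ Q, φ x u ≠ 0) → ∀ u, φ x u ≠ 0 → u ∈ Q) :
    X \ endsIn φ X Q = endsIn φ X Qᶜ := by
  ext x
  rw [mem_sdiff, c3_mem_endsIn, c3_mem_endsIn]
  constructor
  · rintro ⟨h1, h2⟩
    refine ⟨h1, ?_⟩
    have h3 : ∃ u, φ x u ≠ 0 := by
      by_contra h4
      push Not at h4
      exact h.phi_ne h1 (funext h4)
    obtain ⟨u, hu⟩ := h3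
    exact ⟨u, mem_compl.2 fun h4 => h2 ⟨h1, u, h4, hu⟩, hu⟩
  · rintro ⟨h1, u, hu, hu2⟩
    refine ⟨h1, fun h2 => ?_⟩
    exact mem_compl.1 hu (hQ x h1 h2.2 u hu2)

theorem RRep.split (h : RRep K L S X B e φ P) {Q : Finset U}
    (hQ : ∀ x ∈ X, (∃ u ∈ Q, φ x u ≠ 0) → ∀ u, φ x u ≠ 0 → u ∈ Q) {w : V}
    (hw : w ∈ guts K S (insert e X)) : ∃ y1 ∈ guts K S (endsIn φ X Q),
      ∃ y2 ∈ guts K S (X \ endsIn φ X Q), w = y1 + y2 := by
  obtain ⟨y1, hy1, y2, hy2, rfl⟩ := c3_decomp (φ := φ) K Q (h.c3_W_le hw)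
  have h0 := (h.mem_W (h.c3_W_le hw)).1 hw
  have h1 : y1 ∈ guts K S (insert e X) := by
    refine (h.mem_W (c3_le1 K Q hy1)).2 fun u hu => ?_
    by_cases huQ : u ∈ Q
    · have h2 := h0 u hu
      rw [map_add, Pi.add_apply, h.c3_on hy2 huQ, add_zero] at h2
      exact h2
    · exact h.c3_off hQ hy1 huQ
  have h2 : y2 ∈ guts K S (insert e X) := by
    have h3 := Submodule.add_mem _ h1 hw
    rw [← add_assoc, add_self2, zero_add] at h3
    exact h3
  refine ⟨y1, (h.mem_guts hQ).2 ⟨h1, fun u hu => h.c3_off hQ hy1 hu⟩, y2, ?_, rfl⟩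
  rw [h.c3_sdiff hQ, h.mem_guts (c3_compl hQ)]
  refine ⟨h2, fun u hu => ?_⟩
  rw [mem_compl, not_not] at hu
  exact h.c3_on hy2 hu

theorem RRep.lam_add (h : RRep K L S X B e φ P) {Q : Finset U}
    (hQ : ∀ x ∈ X, (∃ u ∈ Q, φ x u ≠ 0) → ∀ u, φ x u ≠ 0 → u ∈ Q) :
    lam K S (endsIn φ X Q) + lam K S (X \ endsIn φ X Q) = 3 := by
  have h1 : guts K S (endsIn φ X Q) ⊔ guts K S (X \ endsIn φ X Q) =
      guts K S (insert e X) := by
    apply le_antisymm
    · refine sup_le (fun v hv => ((h.mem_guts hQ).1 hv).1) fun v hv => ?_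
      rw [h.c3_sdiff hQ] at hv
      exact ((h.mem_guts (c3_compl hQ)).1 hv).1
    · intro w hw
      obtain ⟨y1, hy1, y2, hy2, rfl⟩ := h.split hQ hw
      exact Submodule.add_mem _ (Submodule.mem_sup_left hy1) (Submodule.mem_sup_right hy2)
  have h2 : guts K S (endsIn φ X Q) ⊓ guts K S (X \ endsIn φ X Q) = K := by
    apply le_antisymm
    · rintro v ⟨hv1, hv2⟩
      have h3 := (h.mem_guts hQ).1 hv1
      have hv2' : v ∈ guts K S (X \ endsIn φ X Q) := hv2
      rw [h.c3_sdiff hQ] at hv2'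
      have h4 := (h.mem_guts (c3_compl hQ)).1 hv2'
      refine h.c3_inj (h.c3_W_le h3.1) ?_
      funext u
      rw [Pi.zero_apply]
      by_cases hu : u ∈ Q
      · exact h4.2 u (by rw [mem_compl, not_not]; exact hu)
      · exact h3.2 u hu
    · exact le_inf (le_guts K S _) (le_guts K S _)
  have h3 := finrank_sup_add_inf (guts K S (endsIn φ X Q)) (guts K S (X \ endsIn φ X Q))
  rw [h1, h2] at h3
  have h4 := HC.lam_add K S (insert e X)
  have h5 := HC.lam_add K S (endsIn φ X Q)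
  have h6 := HC.lam_add K S (X \ endsIn φ X Q)
  have h7 := h.l3
  omega

end Pool.Agent.HC
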