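import Pool.Agent.HC.Gr1

/-!
# HC-Gr4: adding a pendant pair

Let `φ` on `U` represent `(K, Y ∪ {w0})`, and let `τ` be a functional with `τ = 0` on `hat K Y` and
`τ w1 = 1`. If `φ w0 = pr p q`, a new vertex `none` is added:
`Φ v = ι (φ v + τ v • φ w1) + τ v • pr none (some p)`, so that `w1` is the edge `none, p` and
`w0 + w1` is the edge `none, q`. If `φ w0 = 0` an isolated vertex `p = q` is added first.
-/

namespace Pool.Agent.HC

open Finset Module

variable {V : Type} [AddCommGroup V] [Module F2 V]

/-- extension by zero to a new vertex -/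
private def iota (U : Type) : (U → F2) →ₗ[F2] (Option U → F2) where
  toFun f o := o.elim 0 f
  map_add' f g := by
    funext o
    cases o <;> simp
  map_smul' c f := by
    funext o
    cases o <;> simp

private theorem iota_none {U : Type} (f : U → F2) : iota U f none = 0 := rfl

private theorem iota_some {U : Type} (f : U → F2) (u : U) : iota U f (some u) = f u := rfl

private theorem iota_eq_zero {U : Type} {f : U → F2} (h : iota U f = 0) : f = 0 := by
  funext u
  have := congrFun h (some u)
  rwa [iota_some] at this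

private theorem iota_pr {U : Type} [DecidableEq U] (u v : U) :
    iota U (pr u v) = pr (some u) (some v) := by
  funext o
  cases o with
  | none => simp [iota_none, pr]
  | some x => simp [iota_some, pr, Pi.single_apply]

private theorem pr_self {U : Type} [DecidableEq U] (u : U) : pr u u = 0 := by
  funext x
  exact CharTwo.add_self_eq_zero _

private theorem rep_ext {U : Type} [DecidableEq U] {K : Submodule F2 V} {T : Set V}
    {φ : V →ₗ[F2] (U → F2)} (h : IsRep K T φ) : IsRep K T ((iota U).comp φ) where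
  ker v hv := by rw [LinearMap.comp_apply, h.ker v hv, map_zero]
  edge x hx := by
    rcases h.edge x hx with h1 | ⟨u, v, huv, h1⟩
    · exact Or.inl (by rw [LinearMap.comp_apply, h1, map_zero])
    · refine Or.inr ⟨some u, some v, ?_, ?_⟩
      · simpa using huv
      · rw [LinearMap.comp_apply, h1, iota_pr]
  inj v hv hv0 := h.inj v hv (iota_eq_zero hv0)

private theorem pendant_aux {U : Type} [DecidableEq U] {K : Submodule F2 V} {Y : Set V}
    {w0 w1 : V} (h0 : w0 ∈ hat K Y) (h1 : w1 ∉ hat K Y) {φ : V →ₗ[F2] (U → F2)}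
    (h : IsRep K (Y ∪ {w0}) φ) (p q : U) (hpq : φ w0 = pr p q) :
    ∃ Φ : V →ₗ[F2] (Option U → F2), IsRep K (Y ∪ {w0, w1, w0 + w1}) Φ := by
  obtain ⟨τ, hτ0, hτ1⟩ := exists_functional h1
  have hτw0 : τ w0 = 0 := hτ0 w0 h0
  let Φ : V →ₗ[F2] (Option U → F2) :=
    (iota U).comp (φ + τ.smulRight (φ w1)) + τ.smulRight (pr none (some p))
  have hΦ : ∀ v, Φ v = iota U (φ v + τ v • φ w1) + τ v • pr none (some p) := fun v => rfl
  have hΦ0 : ∀ v, τ v = 0 → Φ v = iota U (φ v) := by
    intro v hv
    rw [hΦ, hv, zero_smul, zero_smul, add_zero, add_zero]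
  have hΦ1 : Φ w1 = pr none (some p) := by
    rw [hΦ, hτ1, one_smul, one_smul, add_self2, map_zero, zero_add]
  have hΦ01 : Φ (w0 + w1) = pr none (some q) := by
    rw [map_add, hΦ1, hΦ0 w0 hτw0, hpq, iota_pr]
    funext o
    simp only [pr, Pi.add_apply]
    have h2 : ∀ a b c : F2, a + b + (c + a) = c + b := by decide
    exact h2 _ _ _
  refine ⟨Φ, ?_, ?_, ?_⟩
  · intro v hv
    rw [hΦ0 v (hτ0 v (le_hat K Y hv)), h.ker v hv, map_zero]
  · have key : ∀ x ∈ Y ∪ {w0}, Φ x = 0 ∨ ∃ u v, u ≠ v ∧ Φ x = pr u v := by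
      intro x hx
      have hτx : τ x = 0 := by
        rcases hx with hx | hx
        · exact hτ0 x (subset_hat K Y hx)
        · rw [Set.mem_singleton_iff] at hx
          rw [hx, hτw0]
      rcases h.edge x hx with h2 | ⟨u, v, huv, h2⟩
      · exact Or.inl (by rw [hΦ0 x hτx, h2, map_zero])
      · refine Or.inr ⟨some u, some v, ?_, ?_⟩
        · simpa using huv
        · rw [hΦ0 x hτx, h2, iota_pr]
    intro x hx
    rcases hx with hx | hx
    · exact key x (Or.inl hx)
    · rcases hx with hx | hx | hx
      · exact key x (Or.inr hx)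
      · right
        exact ⟨none, some p, by simp, by rw [hx, hΦ1]⟩
      · right
        rw [Set.mem_singleton_iff] at hx
        exact ⟨none, some q, by simp, by rw [hx, hΦ01]⟩
  · intro v hv hv0
    have hτv : τ v = 0 := by
      have h2 := congrFun hv0 none
      rw [hΦ, Pi.add_apply, iota_none, zero_add, Pi.smul_apply] at h2
      have h3 : pr (none : Option U) (some p) none = 1 := by simp [pr]
      rw [h3, smul_eq_mul, mul_one] at h2
      exact h2
    have hle : hat K (Y ∪ {w0, w1, w0 + w1}) ≤ hat (hat K Y) {w1} := by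
      refine hat_le ((le_hat K Y).trans (le_hat _ _)) ?_
      have hw0 : w0 ∈ hat (hat K Y) {w1} := le_hat _ _ h0
      have hw1 : w1 ∈ hat (hat K Y) {w1} := subset_hat _ _ rfl
      intro x hx
      rcases hx with hx | hx
      · exact le_hat _ _ (subset_hat K Y hx)
      · rcases hx with hx | hx | hx
        · rw [hx]
          exact hw0
        · rw [hx]
          exact hw1
        · rw [Set.mem_singleton_iff] at hx
          rw [hx]
          exact add_mem hw0 hw1
    have hvY : v ∈ hat K Y := by
      rcases (mem_hat_singleton _ _ _).1 (hle hv) with h2 | h2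
      · exact h2
      · exfalso
        have h3 := hτ0 _ h2
        rw [map_add, hτv, hτ1, zero_add] at h3
        exact one_ne_zero h3
    have h4 : φ v = 0 := by
      apply iota_eq_zero
      rw [← hΦ0 v hτv, hv0]
    exact h.inj v (hat_mono le_rfl Set.subset_union_left hvY) h4

theorem pendant {K : Submodule F2 V} {Y : Set V} {w0 w1 : V} (h0 : w0 ∈ hat K Y)
    (h1 : w1 ∉ hat K Y) (h : Graphic K (Y ∪ {w0})) : Graphic K (Y ∪ {w0, w1, w0 + w1}) := by
  obtain ⟨U, hU1, hU2, φ, hφ⟩ := h
  by_cases hw : φ w0 = 0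
  · obtain ⟨Φ, hΦ⟩ := pendant_aux h0 h1 (rep_ext hφ) none none
      (by rw [pr_self, LinearMap.comp_apply, hw, map_zero])
    exact ⟨Option (Option U), inferInstance, inferInstance, Φ, hΦ⟩
  · obtain ⟨p, q, -, hpq⟩ := (hφ.edge w0 (Or.inr rfl)).resolve_left hw
    obtain ⟨Φ, hΦ⟩ := pendant_aux h0 h1 hφ p q hpq
    exact ⟨Option U, inferInstance, inferInstance, Φ, hΦ⟩

end Pool.Agent.HC
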