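import Pool.Agent.HC.Con3
import Pool.Agent.HC.Gr4

/-!
# HC-Con4: after contraction of `e` the set `X` is graph-like (1.6 of the paper proof)

`φ e` is an edge `pr s1 s2`. `Q` is the set of the vertices `u` such that `pr s1 u` is in the image of
`hat K X`, `XQ` the set of the elements of `X` with ends in `Q`. According to the order of `XQ` either
the whole set `X` (order three) or `XQ` (order two, then `X` has one more element, added as a pendant
pair) is represented by `φ` after merging `s2` into `s1`.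
-/

namespace Pool.Agent.HC

open Finset Module

set_option linter.unusedSectionVars false

variable {V : Type} [AddCommGroup V] [Module F2 V] [DecidableEq V] [FiniteDimensional F2 V]
  {K L : Submodule F2 V} {S X B : Finset V} {e : V} {U : Type} [Fintype U] [DecidableEq U]
  {φ : V →ₗ[F2] (U → F2)} {P : Finset U} {sm : Finset V → Prop}

omit [Fintype U] in
private theorem c4_pr (a b c : U) :
    pr a b c = (if c = a then 1 else 0) + (if c = b then 1 else 0) := by
  simp only [pr, Pi.add_apply, Pi.single_apply]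

omit [Fintype U] in
private theorem c4_pr_self (a : U) : pr a a = 0 := by
  funext c
  rw [c4_pr]
  exact add_self2 _

omit [Fintype U] in
private theorem c4_pr_trans (a b c : U) : pr a b + pr b c = pr a c := by
  unfold pr
  have h : ∀ x y z : U → F2, (x + y) + (y + z) = x + z := fun x y z => by
    have h1 : (x + y) + (y + z) = x + z + (y + y) := by abel
    rw [h1, add_self2, add_zero]
  exact h _ _ _

omit [Fintype U] in
private theorem c4_pr_comm (a b : U) : pr a b = pr b a := by
  unfold pr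
  rw [add_comm]

omit [Fintype U] in
private theorem c4_pr_ne {a b c : U} (h : pr a b c ≠ 0) : c = a ∨ c = b := by
  rw [c4_pr] at h
  by_contra h1
  push Not at h1
  rw [if_neg h1.1, if_neg h1.2, add_zero] at h
  exact h rfl

/-- even vectors with small support -/
private theorem c4_even (y : U → F2) (hy : ∑ u, y u = 0) (T : Finset U) (hT : T.card ≤ 3)
    (hs : ∀ u, u ∉ T → y u = 0) : y = 0 ∨ ∃ u v, u ≠ v ∧ y = pr u v := by
  have h1 : (univ.filter fun u => y u ≠ 0).card ≤ 3 := by
    refine (card_le_card ?_).trans hT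
    intro u hu
    by_contra h
    exact (mem_filter.1 hu).2 (hs u h)
  have h2 : ∑ u, y u = ((univ.filter fun u => y u ≠ 0).card : F2) := by
    rw [card_filter, Nat.cast_sum]
    refine sum_congr rfl fun u _ => ?_
    rcases F2_cases (y u) with h | h
    · rw [h]
      simp
    · rw [h]
      simp
  rw [hy] at h2
  have h3 : 2 ∣ (univ.filter fun u => y u ≠ 0).card := by
    rw [← CharP.cast_eq_zero_iff F2 2]
    exact h2.symm
  have h4 : (univ.filter fun u => y u ≠ 0).card = 0 ∨
      (univ.filter fun u => y u ≠ 0).card = 2 := by omega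
  rcases h4 with h4 | h4
  · left
    funext u
    by_contra h
    have : u ∈ univ.filter fun u => y u ≠ 0 := mem_filter.2 ⟨mem_univ _, h⟩
    rw [card_eq_zero.1 h4] at this
    exact notMem_empty _ this
  · right
    obtain ⟨u, v, huv, h5⟩ := card_eq_two.1 h4
    refine ⟨u, v, huv, ?_⟩
    funext w
    have h6 : y w ≠ 0 ↔ w = u ∨ w = v := by
      have : w ∈ (univ.filter fun u => y u ≠ 0) ↔ w ∈ ({u, v} : Finset U) := by rw [h5]
      rw [mem_filter, mem_insert, mem_singleton] at this
      simpa using this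
    rw [c4_pr]
    by_cases hu : w = u
    · have h7 : y w = 1 := (F2_cases (y w)).resolve_left (h6.2 (Or.inl hu))
      have hv : w ≠ v := fun h => huv (hu.symm.trans h)
      rw [h7, if_pos hu, if_neg hv, add_zero]
    · by_cases hv : w = v
      · have h7 : y w = 1 := (F2_cases (y w)).resolve_left (h6.2 (Or.inr hv))
        rw [h7, if_neg hu, if_pos hv, zero_add]
      · have h7 : y w = 0 := by
          by_contra h
          rcases h6.1 h with h8 | h8
          · exact hu h8
          · exact hv h8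
        rw [h7, if_neg hu, if_neg hv, add_zero]

/-- merge `s2` into `s1` -/
private def c4M (φ : V →ₗ[F2] (U → F2)) (s1 s2 : U) : V →ₗ[F2] (U → F2) :=
  φ + ((LinearMap.proj s2).comp φ).smulRight (pr s1 s2)

omit [DecidableEq V] [FiniteDimensional F2 V] [Fintype U] in
private theorem c4M_apply (s1 s2 : U) (v : V) : c4M φ s1 s2 v = φ v + φ v s2 • pr s1 s2 := rfl

omit [DecidableEq V] [FiniteDimensional F2 V] [Fintype U] in
private theorem c4M_s2 {s1 s2 : U} (hs : s1 ≠ s2) (v : V) : c4M φ s1 s2 v s2 = 0 := by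
  rw [c4M_apply, Pi.add_apply, Pi.smul_apply, c4_pr, if_neg hs.symm, if_pos rfl, zero_add,
    smul_eq_mul, mul_one]
  exact add_self2 _

omit [DecidableEq V] [FiniteDimensional F2 V] [Fintype U] in
private theorem c4M_edge {s1 s2 a b : U} {v : V} (h : φ v = pr a b) :
    c4M φ s1 s2 v = pr (if a = s2 then s1 else a) (if b = s2 then s1 else b) := by
  rw [c4M_apply, h]
  by_cases ha : a = s2
  · by_cases hb : b = s2
    · rw [if_pos ha, if_pos hb, ha, hb, c4_pr_self, c4_pr_self]
      simp
    · rw [if_pos ha, if_neg hb, ha, c4_pr s2 b s2, if_pos rfl, if_neg (Ne.symm hb), add_zero,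
        one_smul, add_comm, c4_pr_trans]
  · by_cases hb : b = s2
    · rw [if_neg ha, if_pos hb, hb, c4_pr a s2 s2, if_neg (Ne.symm ha), if_pos rfl, zero_add,
        one_smul, c4_pr_comm s1 s2, c4_pr_trans]
    · rw [if_neg ha, if_neg hb, c4_pr a b s2, if_neg (Ne.symm ha), if_neg (Ne.symm hb), add_zero,
        zero_smul, add_zero]

omit [DecidableEq V] [FiniteDimensional F2 V] in
private theorem c4M_sum {s1 s2 : U} {v : V} (h : ∑ u, φ v u = 0) :
    ∑ u, c4M φ s1 s2 v u = 0 := by
  have h1 : ∑ u, pr s1 s2 u = 0 := by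
    simp only [c4_pr, sum_add_distrib]
    rw [sum_ite_eq' univ s1, sum_ite_eq' univ s2, if_pos (mem_univ _), if_pos (mem_univ _)]
    exact add_self2 _
  simp only [c4M_apply, Pi.add_apply, Pi.smul_apply, smul_eq_mul, sum_add_distrib, ← mul_sum]
  rw [h, h1, mul_zero, add_zero]

private theorem c4_le (h : RRep K L S X B e φ P) :
    hat K (X : Set V) ≤ hat L ((X : Set V) ∪ B) :=
  hat_mono h.KL Set.subset_union_left

private theorem c4_inj (h : RRep K L S X B e φ P) {v : V} (hv : v ∈ hat K (X : Set V))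
    (h0 : φ v = 0) : v ∈ K := by
  rw [← h.LX]
  exact ⟨hv, h.rep.inj v (c4_le h hv) h0⟩

private theorem c4_ker (h : RRep K L S X B e φ P) {v : V} (hv : v ∈ K) : φ v = 0 :=
  h.rep.ker v (h.KL hv)

private theorem c4_rep (h : RRep K L S X B e φ P) {s1 s2 : U} (hs : s1 ≠ s2)
    (he : φ e = pr s1 s2) {T : Set V} (hT : T ⊆ hat K (X : Set V))
    (hTe : ∀ x ∈ T, c4M φ s1 s2 x = 0 ∨ ∃ u v, u ≠ v ∧ c4M φ s1 s2 x = pr u v) :
    IsRep (hat K {e}) T (c4M φ s1 s2) := by
  refine ⟨?_, hTe, ?_⟩
  · intro v hv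
    rw [mem_hat_singleton] at hv
    rcases hv with h1 | h1
    · rw [c4M_apply, c4_ker h h1]
      simp
    · have h2 := c4_ker h h1
      rw [map_add, add_eq_iff2, zero_add, he] at h2
      rw [c4M_edge h2, if_neg hs, if_pos rfl, c4_pr_self]
  · intro v hv h0
    have h1 : v ∈ hat K (X : Set V) := by
      refine hat_le ?_ hT hv
      exact hat_le (le_hat _ _) (Set.singleton_subset_iff.2 h.eh)
    rw [mem_hat_singleton]
    rw [c4M_apply, add_eq_iff2, zero_add] at h0
    rcases F2_cases (φ v s2) with h2 | h2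
    · left
      rw [h2, zero_smul] at h0
      exact c4_inj h h1 h0
    · right
      rw [h2, one_smul, ← he] at h0
      refine c4_inj h (add_mem h1 h.eh) ?_
      rw [map_add, h0]
      exact add_self2 _

private theorem c4_edgeX {s1 s2 : U} {v : V} (h : φ v = 0 ∨ ∃ a b, a ≠ b ∧ φ v = pr a b) :
    c4M φ s1 s2 v = 0 ∨ ∃ u w, u ≠ w ∧ c4M φ s1 s2 v = pr u w := by
  rcases h with h | ⟨a, b, -, h⟩
  · left
    rw [c4M_apply, h]
    simp
  · rw [c4M_edge h]
    by_cases h1 : (if a = s2 then s1 else a) = (if b = s2 then s1 else b)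
    · left
      rw [h1, c4_pr_self]
    · exact Or.inr ⟨_, _, h1, rfl⟩

/-- elements with support in a set with at most four elements which contains `s1`, `s2` -/
private theorem c4_edgeW (h : RRep K L S X B e φ P) {s1 s2 : U} (hs : s1 ≠ s2) {v : V}
    (hv : v ∈ hat K (X : Set V)) (T : Finset U) (hT : T.card ≤ 4) (h1 : s1 ∈ T) (h2 : s2 ∈ T)
    (hsup : ∀ u, u ∉ T → φ v u = 0) :
    c4M φ s1 s2 v = 0 ∨ ∃ u w, u ≠ w ∧ c4M φ s1 s2 v = pr u w := by
  refine c4_even _ (c4M_sum (h.rep.sum_zero (c4_le h hv))) (T.erase s2) ?_ ?_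
  · rw [card_erase_of_mem h2]
    omega
  · intro u hu
    by_cases h3 : u = s2
    · rw [h3]
      exact c4M_s2 hs v
    · have h4 : u ∉ T := fun h4 => hu (mem_erase.2 ⟨h3, h4⟩)
      have h5 : u ≠ s1 := fun h5 => h4 (h5 ▸ h1)
      rw [c4M_apply, Pi.add_apply, Pi.smul_apply, hsup u h4, c4_pr, if_neg h5, if_neg h3]
      simp

private theorem c4_endsIn_sub (X : Finset V) (Q : Finset U) : endsIn φ X Q ⊆ X := by
  unfold endsIn
  exact filter_subset _ _

private theorem c4_mem_endsIn {X : Finset V} {Q : Finset U} {x : V} :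
    x ∈ endsIn φ X Q ↔ x ∈ X ∧ ∃ u ∈ Q, φ x u ≠ 0 := by
  unfold endsIn
  rw [mem_filter]

/-- elements of the span of `endsIn φ X Q` have support in `Q` -/
private theorem c4_supp (h : RRep K L S X B e φ P) {Q : Finset U}
    (hQ : ∀ x ∈ X, (∃ u ∈ Q, φ x u ≠ 0) → ∀ u, φ x u ≠ 0 → u ∈ Q) {v : V}
    (hv : v ∈ hat K (endsIn φ X Q : Set V)) : ∀ u, u ∉ Q → φ v u = 0 := by
  intro u hu
  have h1 : hat K (endsIn φ X Q : Set V) ≤ LinearMap.ker ((LinearMap.proj u).comp φ) := by
    refine hat_le ?_ ?_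
    · intro w hw
      rw [LinearMap.mem_ker, LinearMap.comp_apply, c4_ker h hw, map_zero]
    · intro w hw
      have hw' := c4_mem_endsIn.1 (mem_coe.1 hw)
      rw [SetLike.mem_coe, LinearMap.mem_ker, LinearMap.comp_apply, LinearMap.proj_apply]
      by_contra h2
      exact hu (hQ w hw'.1 hw'.2 u h2)
  have h2 := h1 hv
  rwa [LinearMap.mem_ker, LinearMap.comp_apply, LinearMap.proj_apply] at h2

private theorem c4_factN (h : RRep K L S X B e φ P) {Q : Finset U}
    (hQ : ∀ x ∈ X, (∃ u ∈ Q, φ x u ≠ 0) → ∀ u, φ x u ≠ 0 → u ∈ Q) {s1 : U} (h1P : s1 ∈ P)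
    (h1Q : s1 ∈ Q) (hQ2 : ∀ u ∈ Q, ∃ x ∈ hat K (X : Set V), φ x = pr s1 u) :
    (P ∩ Q).card ≤ lam K S (endsIn φ X Q) + 1 := by
  have hla := Pool.Agent.HC.lam_add K S (endsIn φ X Q)
  set G := guts K S (endsIn φ X Q) with hG
  set T := (P ∩ Q).erase s1 with hT
  have hTc : T.card + 1 = (P ∩ Q).card := by
    rw [hT]
    exact card_erase_add_one (mem_inter.2 ⟨h1P, h1Q⟩)
  let f : G →ₗ[F2] ({u // u ∈ T} → F2) :=
    (LinearMap.funLeft F2 F2 (fun u : {u // u ∈ T} => (u : U))).comp (φ.comp G.subtype)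
  have hf : ∀ (v : G) (u : {u // u ∈ T}), f v u = φ v u := fun v u => rfl
  have hsurj : LinearMap.range f = ⊤ := by
    rw [eq_top_iff, ← (Pi.basisFun F2 {u // u ∈ T}).span_eq, Submodule.span_le]
    rintro _ ⟨u, rfl⟩
    obtain ⟨u, hu⟩ := u
    rw [hT, mem_erase, mem_inter] at hu
    obtain ⟨hu1, huP, huQ⟩ := hu
    obtain ⟨x, hx, hxu⟩ := hQ2 u huQ
    have hxG : x ∈ G := by
      rw [hG, h.mem_guts hQ]
      refine ⟨(h.mem_W hx).2 fun w hw => ?_, fun w hw => ?_⟩
      · rw [hxu]
        by_contra h3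
        rcases c4_pr_ne h3 with h4 | h4
        · exact hw (h4 ▸ h1P)
        · exact hw (h4 ▸ huP)
      · rw [hxu]
        by_contra h3
        rcases c4_pr_ne h3 with h4 | h4
        · exact hw (h4 ▸ h1Q)
        · exact hw (h4 ▸ huQ)
    refine ⟨⟨x, hxG⟩, ?_⟩
    funext w
    obtain ⟨w, hw⟩ := w
    have hw1 : w ≠ s1 := (mem_erase.1 hw).1
    rw [hf, Pi.basisFun_apply]
    change φ x w = _
    rw [hxu, c4_pr, if_neg hw1, zero_add, Pi.single_apply]
    simp only [Subtype.mk.injEq]
  have h2 := LinearMap.finrank_range_add_finrank_ker f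
  rw [hsurj, finrank_top, finrank_fintype_fun_eq_card, Fintype.card_coe] at h2
  have h3 : finrank F2 K ≤ finrank F2 (LinearMap.ker f) := by
    have h4 : K ≤ G := le_guts K S _
    rw [← (Submodule.comapSubtypeEquivOfLe h4).finrank_eq]
    refine Submodule.finrank_mono ?_
    intro v hv
    rw [LinearMap.mem_ker]
    funext u
    have h5 : φ (v : V) = 0 := c4_ker h (Submodule.mem_comap.1 hv)
    rw [hf, h5]
    rfl
  omega

theorem RRep.grL (h : RRep K L S X B e φ P) (ht : Tight K S sm) (hX : sm (insert e X))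
    (hW : guts (hat K {e}) (S.erase e) X = guts K S (insert e X))
    (he : ∃ s1 s2, s1 ≠ s2 ∧ φ e = pr s1 s2) : GrL (hat K {e}) (S.erase e) X := by
  classical
  obtain ⟨s1, s2, hs, hes⟩ := he
  unfold GrL
  rw [hW]
  have heS : e ∈ S := h.XS (mem_insert_self e X)
  have heK : e ∉ K := h.nz e heS
  have hWX : guts K S (insert e X) ≤ hat K (X : Set V) := by
    refine inf_le_left.trans (hat_le (le_hat _ _) ?_)
    rw [coe_insert]
    exact Set.insert_subset h.eh (subset_hat _ _)
  have heP := (h.mem_W h.eh).1 h.eW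
  have hφ1 : φ e s1 ≠ 0 := by
    rw [hes, c4_pr, if_pos rfl, if_neg hs]
    decide
  have hφ2 : φ e s2 ≠ 0 := by
    rw [hes, c4_pr, if_neg hs.symm, if_pos rfl]
    decide
  have h1P : s1 ∈ P := by
    by_contra h1
    exact hφ1 (heP s1 h1)
  have h2P : s2 ∈ P := by
    by_contra h1
    exact hφ2 (heP s2 h1)
  set Q : Finset U := univ.filter fun u => ∃ x ∈ hat K (X : Set V), φ x = pr s1 u with hQdef
  have hQ2 : ∀ u ∈ Q, ∃ x ∈ hat K (X : Set V), φ x = pr s1 u := fun u hu => (mem_filter.1 hu).2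
  have h1Q : s1 ∈ Q := mem_filter.2 ⟨mem_univ _, 0, Submodule.zero_mem _, by
    rw [map_zero, c4_pr_self]⟩
  have h2Q : s2 ∈ Q := mem_filter.2 ⟨mem_univ _, e, h.eh, hes⟩
  have hQ : ∀ x ∈ X, (∃ u ∈ Q, φ x u ≠ 0) → ∀ u, φ x u ≠ 0 → u ∈ Q := by
    rintro x hx ⟨u, hu, hxu⟩ u' hxu'
    have hxX : x ∈ hat K (X : Set V) := subset_hat K _ hx
    rcases h.rep.edge x (Or.inl hx) with h1 | ⟨a, b, hab, h1⟩
    · exact absurd (by rw [h1]; rfl) hxu
    · by_cases huu : u = u'
      · rw [← huu]
        exact hu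
      · have h2 : φ x = pr u u' := by
          rw [h1] at hxu hxu' ⊢
          rcases c4_pr_ne hxu with h2 | h2 <;> rcases c4_pr_ne hxu' with h3 | h3
          · exact absurd (h2.trans h3.symm) huu
          · rw [h2, h3]
          · rw [h2, h3, c4_pr_comm]
          · exact absurd (h2.trans h3.symm) huu
        obtain ⟨y, hy, hyu⟩ := hQ2 u hu
        refine mem_filter.2 ⟨mem_univ _, y + x, add_mem hy hxX, ?_⟩
        rw [map_add, hyu, h2, c4_pr_trans]
  have hl := h.lam_add hQ
  have hN := c4_factN h hQ h1P h1Q hQ2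
  have hXQ : endsIn φ X Q ⊆ X := c4_endsIn_sub X Q
  have hsm : sm (endsIn φ X Q) := ht.sub _ _ hX (hXQ.trans (subset_insert e X))
  have hsm2 : sm (X \ endsIn φ X Q) :=
    ht.sub _ _ hX (sdiff_subset.trans (subset_insert e X))
  have heG : e ∈ guts K S (endsIn φ X Q) := by
    rw [h.mem_guts hQ]
    refine ⟨h.eW, fun u hu => ?_⟩
    rw [hes]
    by_contra h3
    rcases c4_pr_ne h3 with h4 | h4
    · exact hu (h4 ▸ h1Q)
    · exact hu (h4 ▸ h2Q)
  have heh : e ∈ hat K (endsIn φ X Q : Set V) := (Submodule.mem_inf.1 heG).1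
  have hlG := Pool.Agent.HC.lam_add K S (endsIn φ X Q)
  have hcases : lam K S (endsIn φ X Q) = 0 ∨ lam K S (endsIn φ X Q) = 1 ∨
      lam K S (endsIn φ X Q) = 2 ∨ lam K S (endsIn φ X Q) = 3 := by omega
  rcases hcases with h0 | h0 | h0 | h0
  · exfalso
    rw [h0, zero_add] at hlG
    have h1 := Submodule.eq_of_le_of_finrank_eq (le_guts K S (endsIn φ X Q)) hlG
    rw [← h1] at heG
    exact heK heG
  · exfalso
    have h1 : (endsIn φ X Q).card ≤ 1 := by
      by_contra h2
      have := ht.c2 _ hsm (by omega)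
      omega
    rcases Nat.le_one_iff_eq_zero_or_eq_one.1 h1 with h2 | h2
    · rw [card_eq_zero.1 h2, coe_empty, hat_empty] at heh
      exact heK heh
    · obtain ⟨x, hx⟩ := card_eq_one.1 h2
      have hxX : x ∈ X := hXQ (by rw [hx]; exact mem_singleton_self x)
      rw [hx, coe_singleton, mem_hat_singleton] at heh
      rcases heh with h3 | h3
      · exact heK h3
      · have := ht.npar e heS x (h.XS (mem_insert_of_mem hxX)) h3
        exact h.eX (this ▸ hxX)
  · -- order two
    have hl1 : lam K S (X \ endsIn φ X Q) = 1 := by omega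
    have hc1 : (X \ endsIn φ X Q).card = 1 := by
      have h1 : ¬ 2 ≤ (X \ endsIn φ X Q).card := by
        intro h2
        have := ht.c2 _ hsm2 h2
        omega
      have h2 := lam_le_card K S (X \ endsIn φ X Q)
      omega
    obtain ⟨g, hg⟩ := card_eq_one.1 hc1
    have hgm : g ∈ X \ endsIn φ X Q := by
      rw [hg]
      exact mem_singleton_self g
    obtain ⟨hgX, hgQ⟩ := mem_sdiff.1 hgm
    have hgK : g ∉ K := h.nz g (h.XS (mem_insert_of_mem hgX))
    have hGg : guts K S (X \ endsIn φ X Q) = hat K {g} := by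
      have h1 : guts K S (X \ endsIn φ X Q) ≤ hat K {g} := by
        refine (inf_le_left : _ ≤ hat K ((X \ endsIn φ X Q : Finset V) : Set V)).trans ?_
        rw [hg, coe_singleton]
      have h2 := Pool.Agent.HC.lam_add K S (X \ endsIn φ X Q)
      have h3 := finrank_hat_singleton K g hgK
      exact Submodule.eq_of_le_of_finrank_eq h1 (by omega)
    -- the second generator
    have hK'1 := finrank_hat_singleton K e heK
    have hK'G : hat K {e} ≤ guts K S (endsIn φ X Q) :=
      hat_le (le_guts _ _ _) (Set.singleton_subset_iff.2 heG)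
    obtain ⟨w0, hw0, hw0'⟩ : ∃ w0 ∈ guts K S (endsIn φ X Q), w0 ∉ hat K {e} := by
      by_contra hcon
      push Not at hcon
      have h1 : guts K S (endsIn φ X Q) ≤ hat K {e} := hcon
      have h2 := Submodule.finrank_mono h1
      omega
    have hGw : guts K S (endsIn φ X Q) = hat (hat K {e}) {w0} := by
      symm
      have h1 : hat (hat K {e}) {w0} ≤ guts K S (endsIn φ X Q) :=
        hat_le hK'G (Set.singleton_subset_iff.2 hw0)
      have h2 := finrank_hat_singleton (hat K {e}) w0 hw0'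
      exact Submodule.eq_of_le_of_finrank_eq h1 (by omega)
    have hw0X : w0 ∈ hat K (endsIn φ X Q : Set V) := (Submodule.mem_inf.1 hw0).1
    have hsub : hat K (endsIn φ X Q : Set V) ≤ hat K (X : Set V) :=
      hat_mono le_rfl (coe_subset.2 hXQ)
    have hw0g := (h.mem_guts hQ).1 hw0
    have hw0P := (h.mem_W (hsub hw0X)).1 hw0g.1
    have hrep : Graphic (hat K {e}) ((endsIn φ X Q : Set V) ∪ {w0}) := by
      refine ⟨U, inferInstance, inferInstance, c4M φ s1 s2, c4_rep h hs hes ?_ ?_⟩
      · rintro x (hx | hx)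
        · exact subset_hat K _ (hXQ (mem_coe.1 hx))
        · rw [Set.mem_singleton_iff.1 hx]
          exact hsub hw0X
      · rintro x (hx | hx)
        · exact c4_edgeX (h.rep.edge x (Or.inl (hXQ (mem_coe.1 hx))))
        · rw [Set.mem_singleton_iff.1 hx]
          refine c4_edgeW h hs (hsub hw0X) (P ∩ Q) (by omega) (mem_inter.2 ⟨h1P, h1Q⟩)
            (mem_inter.2 ⟨h2P, h2Q⟩) ?_
          intro u hu
          by_cases huP : u ∈ P
          · exact hw0g.2 u fun huQ => hu (mem_inter.2 ⟨huP, huQ⟩)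
          · exact hw0P u huP
    have hgn : g ∉ hat (hat K {e}) (endsIn φ X Q : Set V) := by
      intro h1
      have h2 : hat (hat K {e}) (endsIn φ X Q : Set V) ≤ hat K (endsIn φ X Q : Set V) :=
        hat_le (hat_le (le_hat _ _) (Set.singleton_subset_iff.2 heh)) (subset_hat _ _)
      have h3 := c4_supp h hQ (h2 h1)
      apply h.phi_ne hgX
      funext u
      by_cases hu : u ∈ Q
      · by_contra h4
        exact hgQ (c4_mem_endsIn.2 ⟨hgX, u, hu, h4⟩)
      · exact h3 u hu
    have hpen := pendant (hat_mono (le_hat K {e}) le_rfl hw0X) hgn hrep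
    refine hpen.of_par ?_
    rintro x (hx | hx)
    · right
      by_cases hxQ : x ∈ endsIn φ X Q
      · exact ⟨x, Or.inl hxQ, by rw [add_self2]; exact Submodule.zero_mem _⟩
      · have h1 : x ∈ X \ endsIn φ X Q := mem_sdiff.2 ⟨hx, hxQ⟩
        rw [hg, mem_singleton] at h1
        refine ⟨g, Or.inr (Or.inr (Or.inl rfl)), ?_⟩
        rw [h1, add_self2]
        exact Submodule.zero_mem _
    · obtain ⟨y1, hy1, y2, hy2, hxy⟩ := h.split hQ hx
      rw [hGw, mem_hat_singleton] at hy1
      rw [hGg, mem_hat_singleton] at hy2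
      have hy2' : y2 ∈ hat K {e} ∨ y2 + g ∈ hat K {e} :=
        hy2.imp (fun h => le_hat K {e} h) (fun h => le_hat K {e} h)
      rcases hy1 with hy1 | hy1 <;> rcases hy2' with hy2' | hy2'
      · left
        rw [hxy]
        exact add_mem hy1 hy2'
      · right
        refine ⟨g, Or.inr (Or.inr (Or.inl rfl)), ?_⟩
        rw [hxy, add_assoc]
        exact add_mem hy1 hy2'
      · right
        refine ⟨w0, Or.inr (Or.inl rfl), ?_⟩
        have : x + w0 = (y1 + w0) + y2 := by
          rw [hxy]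
          abel
        rw [this]
        exact add_mem hy1 hy2'
      · right
        refine ⟨w0 + g, Or.inr (Or.inr (Or.inr rfl)), ?_⟩
        have : x + (w0 + g) = (y1 + w0) + (y2 + g) := by
          rw [hxy]
          abel
        rw [this]
        exact add_mem hy1 hy2'
  · -- order three
    have h1 : X \ endsIn φ X Q = ∅ := by
      by_contra h2
      have := ht.c1 _ hsm2 (nonempty_iff_ne_empty.2 h2)
      omega
    have h2 : endsIn φ X Q = X := subset_antisymm hXQ (sdiff_eq_empty_iff_subset.1 h1)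
    have hXsup : ∀ v ∈ hat K (X : Set V), ∀ u, u ∉ Q → φ v u = 0 := by
      intro v hv
      have h3 := c4_supp h hQ (v := v)
      rw [h2] at h3
      exact h3 hv
    refine ⟨U, inferInstance, inferInstance, c4M φ s1 s2, c4_rep h hs hes ?_ ?_⟩
    · rintro x (hx | hx)
      · exact subset_hat K _ hx
      · exact hWX hx
    · rintro x (hx | hx)
      · exact c4_edgeX (h.rep.edge x (Or.inl hx))
      · have hxX : x ∈ hat K (X : Set V) := hWX hx
        refine c4_edgeW h hs hxX (P ∩ Q) (by omega) (mem_inter.2 ⟨h1P, h1Q⟩)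
          (mem_inter.2 ⟨h2P, h2Q⟩) ?_
        intro u hu
        by_cases huP : u ∈ P
        · exact hXsup x hxX u fun huQ => hu (mem_inter.2 ⟨huP, huQ⟩)
        · exact (h.mem_W hxX).1 hx u huP

end Pool.Agent.HC
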