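import Pool.Agent.HC.Con1
import Pool.Agent.HC.Con2
import Pool.Agent.HC.Con4
import Pool.Agent.HC.Gr5
import Pool.Agent.HC.Gr6

/-!
# HC-Con5: assembly for one contraction

`Tight.contract_pre` gives `e ∈ hat K X`, `e ∈ hat K (S \ insert e X)`, `lam K S (insert e X) = 3` and the
formulas for the guts. `rooted_inf` with the set `insert e X`:
`hat L (insert e X) ⊓ hat L B = L ⊔ guts K S (insert e X)`, and `hat L (insert e X) = hat L X`,
`hat K (insert e X) = hat K X`. `Graphic.exists_conn` for `hg`: `φ` on `U`. `clique_rep` for the clique: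
`φ (f i + f j)` is an edge: there is `b ∈ B` with `b + (f i + f j) ∈ L`, `φ b` is an edge or zero, and
`φ b = 0` would give `b ∈ L`, `f i + f j ∈ L`, against `IsClique.ind` for `{i, j}`; `hind`:
`∑ T f ∈ hat L B` (`IsClique.sum_mem`) and `rep.inj`. So `φ (f i + f j) = pr (a i) (a j)`;
`P := univ.image a`. `P1`: `IsClique.mem_hat` (`v` is an even sum of the `f i` modulo `L`; an even sum
is a sum of `f i + f j`). `P2`: given `y`, `T := univ.filter (fun i => y (a i) ≠ 0)` is even and
`φ (∑ T f) = y`. `φ e` is an edge: `e ∈ insert e X` is an element; `φ e = 0` gives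
`e ∈ L ⊓ hat K X = K`, against `nz`. Then `RRep.grL`.
-/

namespace Pool.Agent.HC

open Finset Module

variable {V : Type} [AddCommGroup V] [Module F2 V] [DecidableEq V] [FiniteDimensional F2 V]
  {K L : Submodule F2 V} {S X B : Finset V} {e : V} {sm : Finset V → Prop}

omit [DecidableEq V] [FiniteDimensional F2 V] in
private theorem c5_even_const {W : Type} [AddCommGroup W] [Module F2 W] {ι : Type}
    (T : Finset ι) (hT : Even T.card) (c : W) : ∑ _i ∈ T, c = 0 := by
  obtain ⟨k, hk⟩ := hT
  rw [sum_const, hk, add_nsmul]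
  exact add_self2 _

omit [DecidableEq V] [FiniteDimensional F2 V] in
private theorem c5_sum {U : Type} [DecidableEq U] {n : ℕ} (φ : V →ₗ[F2] (U → F2))
    (f : Fin n → V) (a : Fin n → U) (ha : ∀ i j, φ (f i + f j) = pr (a i) (a j)) (i0 : Fin n)
    (T : Finset (Fin n)) (hT : Even T.card) :
    φ (∑ i ∈ T, f i) = ∑ i ∈ T, Pi.single (a i) (1 : F2) := by
  have h1 : ∑ i ∈ T, f i = ∑ i ∈ T, (f i + f i0) := by
    rw [sum_add_distrib, c5_even_const T hT (f i0), add_zero]
  have h2 : ∑ i ∈ T, (Pi.single (a i) (1 : F2) : U → F2) = ∑ i ∈ T, pr (a i) (a i0) := by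
    unfold pr
    rw [sum_add_distrib, c5_even_const T hT (Pi.single (a i0) (1 : F2) : U → F2), add_zero]
  rw [h1, h2, map_sum]
  exact sum_congr rfl fun i _ => ha i i0

theorem grL_contract (ht : Tight K S sm) (he : e ∈ S) (hX : sm (insert e X)) (heX : e ∉ X)
    (hc : 4 ≤ X.card) (hl : lam (hat K {e}) (S.erase e) X ≤ 2) {n : ℕ} (hn : 3 ≤ n)
    {f : Fin n → V} (hB : B ⊆ S \ insert e X) (hKL : K ≤ L)
    (hLZ : L ≤ hat K ((S \ insert e X : Finset V) : Set V))
    (hLX : hat K ((insert e X : Finset V) : Set V) ⊓ L = K) (hcl : IsClique L f B)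
    (hdim : finrank F2 L + 3 ≤
      finrank F2 ↥(hat L ((insert e X : Finset V) : Set V) ⊓ hat L (B : Set V)))
    (hg : Graphic L ((insert e X ∪ B : Finset V) : Set V)) :
    GrL (hat K {e}) (S.erase e) X := by
  classical
  obtain ⟨a1, a2, a3, a4, a5⟩ := ht.contract_pre he hX heX hc hl
  have hXS : insert e X ⊆ S := ht.sS _ hX
  have key : ∀ K' : Submodule F2 V, K ≤ K' →
      hat K' ((insert e X : Finset V) : Set V) = hat K' (X : Set V) := by
    intro K' hK'
    rw [coe_insert]
    refine le_antisymm (hat_le (le_hat _ _) (Set.insert_subset ?_ (subset_hat _ _)))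
      (hat_mono le_rfl (Set.subset_insert _ _))
    exact hat_mono hK' le_rfl a1
  have hinf := rooted_inf hXS hB hKL hLZ hLX (by rw [a3]; exact hdim)
  have heW : e ∈ guts K S (insert e X) := by
    rw [a4]
    exact ⟨a1, a2⟩
  obtain ⟨U, iU, dU, φ, hφ, -⟩ := hg.exists_conn
  have hBT : hat L (B : Set V) ≤ hat L ((insert e X ∪ B : Finset V) : Set V) :=
    hat_mono le_rfl (coe_subset.2 subset_union_right)
  have hb0 : ∀ x y : V, x + y ∈ L → φ x = φ y := by
    intro x y hxy
    have h1 := hφ.ker _ hxy
    rw [map_add] at h1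
    have h2 := (add_eq_iff2 (φ x) (φ y) 0).1 h1
    rwa [zero_add] at h2
  have hed : ∀ i j, i ≠ j → ∃ u v, u ≠ v ∧ φ (f i + f j) = pr u v := by
    intro i j hij
    obtain ⟨b, hb, hb2⟩ := hcl.mem i j hij
    rw [← hb0 _ _ hb2]
    rcases hφ.edge b (mem_coe.2 (mem_union_right _ hb)) with h1 | h1
    · exfalso
      have h2 : b ∈ L := hφ.inj b (hBT (subset_hat _ _ hb)) h1
      have h3 : f i + f j ∈ L := by
        rw [add_comm] at hb2
        exact mem_of_add_mem2 hb2 h2
      have h4 := hcl.ind {i, j} (by rw [card_pair hij]; decide) (by rw [sum_pair hij]; exact h3)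
      exact (insert_ne_empty i {j}) h4
    · exact h1
  have hind : ∀ T : Finset (Fin n), Even T.card → φ (∑ i ∈ T, f i) = 0 → T = ∅ := by
    intro T hT h0
    exact hcl.ind T hT (hφ.inj _ (hBT (hcl.sum_mem T hT)) h0)
  obtain ⟨a, hai, ha⟩ := clique_rep hn φ f hed hind
  have i0 : Fin n := ⟨0, by omega⟩
  have hsum := c5_sum φ f a ha i0
  set P : Finset U := univ.image a with hP
  have haP : ∀ i, a i ∈ P := fun i => mem_image_of_mem a (mem_univ i)
  have hR : RRep K L S X B e φ P := by
    refine ⟨hXS, heX, ht.nz, a1, heW, hKL, ?_, a3, ?_, ⟨hφ.ker, ?_, ?_⟩, ?_, ?_⟩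
    · rw [← key K le_rfl]
      exact hLX
    · rw [← key L hKL]
      exact hinf
    · intro x hx
      refine hφ.edge x ?_
      rw [coe_union, coe_insert]
      exact Set.union_subset_union_left _ (Set.subset_insert e _) hx
    · intro v hv h0
      refine hφ.inj v (hat_mono le_rfl ?_ hv) h0
      rw [coe_union, coe_insert]
      exact Set.union_subset_union_left _ (Set.subset_insert e _)
    · intro v hv u hu
      obtain ⟨T, hT, hT2⟩ := hcl.mem_hat hv
      rw [hb0 _ _ hT2, hsum T hT, Finset.sum_apply]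
      refine sum_eq_zero fun i _ => ?_
      rw [Pi.single_apply, if_neg]
      intro h1
      exact hu (h1 ▸ haP i)
    · intro y hy hyP
      set T : Finset (Fin n) := univ.filter (fun i => y (a i) ≠ 0) with hTdef
      have h1 : ∑ u, y u = ∑ i, y (a i) := by
        rw [← sum_image (s := univ) (g := a) (f := y) (fun i _ j _ h => hai h)]
        symm
        exact sum_subset (subset_univ _) fun u _ hu => hyP u hu
      have h2 : ∑ i, y (a i) = (T.card : F2) := by
        rw [hTdef, card_filter, Nat.cast_sum]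
        refine sum_congr rfl fun i _ => ?_
        rcases F2_cases (y (a i)) with h3 | h3
        · rw [h3]
          simp
        · rw [h3]
          simp
      have hT : Even T.card := by
        rw [h1, h2] at hy
        exact (ZMod.natCast_eq_zero_iff_even).1 hy
      refine ⟨∑ i ∈ T, f i, hcl.sum_mem T hT, ?_⟩
      rw [hsum T hT]
      funext u
      rw [Finset.sum_apply]
      by_cases hu : u ∈ P
      · obtain ⟨j, -, rfl⟩ := mem_image.1 hu
        have h3 : ∀ i ∈ T, (Pi.single (a i) (1 : F2) : U → F2) (a j) =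
            if i = j then 1 else 0 := by
          intro i _
          rw [Pi.single_apply]
          by_cases hij : i = j
          · rw [if_pos hij, if_pos (by rw [hij])]
          · rw [if_neg hij, if_neg fun h => hij (hai h).symm]
        rw [sum_congr rfl h3, sum_ite_eq']
        rcases F2_cases (y (a j)) with h4 | h4
        · rw [if_neg, h4]
          intro h5
          exact (mem_filter.1 h5).2 h4
        · rw [if_pos, h4]
          refine mem_filter.2 ⟨mem_univ _, ?_⟩
          rw [h4]
          exact one_ne_zero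
      · rw [hyP u hu]
        refine sum_eq_zero fun i _ => ?_
        rw [Pi.single_apply, if_neg]
        intro h3
        exact hu (h3 ▸ haP i)
  refine hR.grL ht hX a5 ?_
  rcases hφ.edge e (mem_coe.2 (mem_union_left _ (mem_insert_self e X))) with h1 | h1
  · exfalso
    have heT : e ∈ hat L ((insert e X ∪ B : Finset V) : Set V) :=
      subset_hat _ _ (mem_coe.2 (mem_union_left _ (mem_insert_self e X)))
    have h2 : e ∈ L := hφ.inj e heT h1
    refine ht.nz e he ?_
    rw [← hLX]
    exact ⟨subset_hat _ _ (mem_coe.2 (mem_insert_self e X)), h2⟩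
  · exact h1

end Pool.Agent.HC
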