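import Pool.Agent.HC.Defs

/-!
# Level two: a clique minor, small sets

`Q = (C, g, q)`: `C ⊆ S` independent modulo `K`; modulo `hat K C` the even sums of the `g i` are
independent and the elements `q i j` are in the classes of `g i + g j`; `S` is spanned by them.
-/

namespace Pool.Agent.HC

open Finset Module

/-- a spanning clique minor on `N` vertices -/
structure IsQ {V : Type} [AddCommGroup V] [Module F2 V] [DecidableEq V] (K : Submodule F2 V)
    (S : Finset V) {N : ℕ} (C : Finset V) (g : Fin N → V) (q : Fin N → Fin N → V) : Prop where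
  CS : C ⊆ S
  Cind : ∀ T ⊆ C, ∑ x ∈ T, x ∈ K → T = ∅
  gind : ∀ T : Finset (Fin N), Even T.card → ∑ i ∈ T, g i ∈ hat K (C : Set V) → T = ∅
  qS : ∀ i j, i ≠ j → q i j ∈ S
  qsymm : ∀ i j, q i j = q j i
  qg : ∀ i j, i ≠ j → q i j + (g i + g j) ∈ hat K (C : Set V)
  span : ∀ x ∈ S, ∃ T : Finset (Fin N), Even T.card ∧ x + ∑ i ∈ T, g i ∈ hat K (C : Set V)

/-- the rank of the set of the pairs `i j` with `q i j ∈ X`, as edges of a complete graph -/
noncomputable def rq {V : Type} {N : ℕ} (q : Fin N → Fin N → V) (X : Finset V) : ℕ :=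
  finrank F2 (Submodule.span F2 {y : Fin N → F2 | ∃ i j, i ≠ j ∧ q i j ∈ X ∧ y = pr i j})

/-- small sets -/
def QSmall {V : Type} [DecidableEq V] {N : ℕ} (S : Finset V) (q : Fin N → Fin N → V)
    (X : Finset V) : Prop := X ⊆ S ∧ rq q X ≤ 3

/-- the hypothesis of the level two theorem -/
structure Hyp2 {V : Type} [AddCommGroup V] [Module F2 V] [DecidableEq V] (m : ℕ)
    (K : Submodule F2 V) (S : Finset V) {N : ℕ} (C : Finset V) (g : Fin N → V)
    (q : Fin N → Fin N → V) : Prop where
  isq : IsQ K S C g q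
  no : ¬ HasO m K S
  gl : ∀ X, QSmall S q X → lam K S X ≤ 2 → GrL K S X

end Pool.Agent.HC
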