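import Pool.Agent.HC.Mdl
import Pool.Agent.HC.Lv2D
import Pool.Agent.HC.ClD

/-!
# The graph of the contracted set of a clique minor: definitions
-/

namespace Pool.Agent.HC

open Finset Module

/-- the graph on `U` whose edges are the elements of `C` other than `e` -/
def cG {V : Type} [AddCommGroup V] [Module F2 V] {U : Type} [DecidableEq U] (C : Finset V) (e : V)
    (φ : V →ₗ[F2] (U → F2)) : SimpleGraph U where
  Adj u w := u ≠ w ∧ ∃ x ∈ C, x ≠ e ∧ φ x = pr u w
  symm := ⟨by
    rintro u w ⟨h, x, hx, h1, h2⟩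
    refine ⟨h.symm, x, hx, h1, ?_⟩
    rw [h2, pr, pr, add_comm]⟩
  loopless := ⟨fun _ h => h.1 rfl⟩

/-- the collapsed map: the coordinates of the vertices of every cluster `cl i`, `i ∈ L`, are
added up at the root -/
noncomputable def colφ {V : Type} [AddCommGroup V] [Module F2 V] {U : Type} [Fintype U]
    [DecidableEq U] {n : ℕ} (cl : Fin n → Finset U) (a : Fin n → U) (L : Finset (Fin n))
    (φ : V →ₗ[F2] (U → F2)) : V →ₗ[F2] (U → F2) :=
  LinearMap.pi fun u => ∑ w ∈ univ.filter (fun w => col cl a L w = u),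
    (LinearMap.proj w).comp φ

end Pool.Agent.HC
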