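import Mathlib

/-!
# Highly connected binary matroids: definitions

A configuration `(K, S)`: a subspace `K` and a finite set `S` of vectors of a fixed finite
dimensional space `V` over the field with two elements. All matroid notions are modulo `K`.
The paper proof is /team-store/hconn_binary.md.
-/

namespace Pool.Agent.HC

open Finset Module

/-- the field with two elements -/
abbrev F2 := ZMod 2

/-- the 0-1 vector of the pair `{u, v}` (zero if `u = v`) -/
def pr {U : Type} [DecidableEq U] (u v : U) : U → F2 := Pi.single u 1 + Pi.single v 1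

variable {V : Type} [AddCommGroup V] [Module F2 V]

/-- the span of `X` modulo `K` -/
def hat (K : Submodule F2 V) (X : Set V) : Submodule F2 V := K ⊔ Submodule.span F2 X

/-- rank modulo `K` -/
noncomputable def rk (K : Submodule F2 V) (X : Set V) : ℕ := finrank F2 (hat K X) - finrank F2 K

/-- `φ` represents `(K, T)` as a graph on `U`: it vanishes on `K`, elements of `T` are edges or
go to zero, and the kernel on the span of `T` is `K` -/
structure IsRep {U : Type} [DecidableEq U] (K : Submodule F2 V) (T : Set V)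
    (φ : V →ₗ[F2] (U → F2)) : Prop where
  ker : ∀ v ∈ K, φ v = 0
  edge : ∀ x ∈ T, φ x = 0 ∨ ∃ u v, u ≠ v ∧ φ x = pr u v
  inj : ∀ v ∈ hat K T, φ v = 0 → v ∈ K

/-- graphic configurations -/
def Graphic (K : Submodule F2 V) (T : Set V) : Prop :=
  ∃ (U : Type) (_ : Fintype U) (_ : DecidableEq U) (φ : V →ₗ[F2] (U → F2)), IsRep K T φ

variable [DecidableEq V]

/-- the guts of `X` in `(K, S)` -/
def guts (K : Submodule F2 V) (S X : Finset V) : Submodule F2 V :=
  hat K (X : Set V) ⊓ hat K ((S \ X : Finset V) : Set V)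

/-- connectivity of `X` in `(K, S)` -/
noncomputable def lam (K : Submodule F2 V) (S X : Finset V) : ℕ :=
  finrank F2 (guts K S X) - finrank F2 K

/-- `X` together with its guts is graphic -/
def GrL (K : Submodule F2 V) (S X : Finset V) : Prop :=
  Graphic K ((X : Set V) ∪ (guts K S X : Set V))

/-- `B` is a clique of `(K, ·)` with vertex vectors `f`: even sums of the `f i` are independent
modulo `K`, and `B` has exactly one element in the class of every `f i + f j` -/
structure IsClique (K : Submodule F2 V) {n : ℕ} (f : Fin n → V) (B : Finset V) : Prop where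
  ind : ∀ T : Finset (Fin n), Even T.card → ∑ i ∈ T, f i ∈ K → T = ∅
  mem : ∀ i j, i ≠ j → ∃ b ∈ B, b + (f i + f j) ∈ K
  sub : ∀ b ∈ B, ∃ i j, i ≠ j ∧ b + (f i + f j) ∈ K
  uniq : ∀ b ∈ B, ∀ b' ∈ B, b + b' ∈ K → b = b'

/-- `(K, S)` has a minor `O_m`: the graphic matroid of the complete graph on `m` vertices plus the
vector which is the sum of four vertices -/
def HasO (m : ℕ) (K : Submodule F2 V) (S : Finset V) : Prop :=
  ∃ (F : Finset V) (f : Fin m → V) (a b c d : Fin m), F ⊆ S ∧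
    (∀ T : Finset (Fin m), Even T.card → ∑ i ∈ T, f i ∈ hat K (F : Set V) → T = ∅) ∧
    (∀ i j, i ≠ j → ∃ y ∈ S, y + (f i + f j) ∈ hat K (F : Set V)) ∧
    a ≠ b ∧ a ≠ c ∧ a ≠ d ∧ b ≠ c ∧ b ≠ d ∧ c ≠ d ∧
    ∃ x ∈ S, x + (f a + f b + f c + f d) ∈ hat K (F : Set V)

/-- the data of a reduction: `X` is replaced by `D`, which consists of one element in the class
(modulo `hat K F`) of every nonzero vector of the guts of `X` -/
structure TD (K : Submodule F2 V) (S X F D : Finset V) (j : ℕ) : Prop where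
  XS : X ⊆ S
  FX : F ⊆ X
  DX : D ⊆ X
  FD : Disjoint F D
  Fz : hat K (F : Set V) ⊓ hat K ((S \ X : Finset V) : Set V) = K
  rank : finrank F2 (guts K S X) = finrank F2 K + j
  card : D.card = 2 ^ j - 1
  DW : ∀ d ∈ D, ∃ w ∈ guts K S X, w ∉ K ∧ d + w ∈ hat K (F : Set V)
  WD : ∀ w ∈ guts K S X, w ∉ K → ∃ d ∈ D, d + w ∈ hat K (F : Set V)

/-- what the first part of the argument uses of a smallest counterexample; `sm` is the family of
the small sets -/
structure MinCex (K : Submodule F2 V) (S : Finset V) (sm : Finset V → Prop) : Prop where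
  sub : ∀ X Y, sm X → Y ⊆ X → sm Y
  sS : ∀ X, sm X → X ⊆ S
  gl : ∀ X, sm X → lam K S X ≤ 2 → GrL K S X
  nz : ∀ x ∈ S, x ∉ K
  npar : ∀ x ∈ S, ∀ y ∈ S, x + y ∈ K → x = y
  ng : ¬ Graphic K (S : Set V)
  red : ∀ X F D j, sm X → TD K S X F D j → j ≤ 2 →
    (j = 2 → ∀ Y, sm Y → 2 ≤ Y.card → 2 ≤ lam K S Y) →
    ((S \ X) ∪ D).card < S.card →
    Graphic (hat K (F : Set V)) (((S \ X) ∪ D : Finset V) : Set V)

/-- small sets of order at most two are tiny -/
structure Tight (K : Submodule F2 V) (S : Finset V) (sm : Finset V → Prop) : Prop where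
  sub : ∀ X Y, sm X → Y ⊆ X → sm Y
  sS : ∀ X, sm X → X ⊆ S
  nz : ∀ x ∈ S, x ∉ K
  npar : ∀ x ∈ S, ∀ y ∈ S, x + y ∈ K → x = y
  c1 : ∀ X, sm X → X.Nonempty → 1 ≤ lam K S X
  c2 : ∀ X, sm X → 2 ≤ X.card → 2 ≤ lam K S X
  c3 : ∀ X, sm X → lam K S X ≤ 2 → X.card ≤ 3

/-! ### Signed graphs -/

/-- simple signed graphs: even edges (`adj 0`) and odd edges (`adj 1`) -/
structure SG (U : Type) where
  adj : F2 → U → U → Prop
  symm : ∀ p u v, adj p u v → adj p v u
  irrefl : ∀ p u, ¬ adj p u u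

/-- paths, as lists of distinct vertices, with a parity -/
inductive SG.Path {U : Type} (G : SG U) : List U → F2 → Prop
  | single (u : U) : G.Path [u] 0
  | cons (p q : F2) (u v : U) (l : List U) : G.adj p u v → u ∉ v :: l → G.Path (v :: l) q →
      G.Path (u :: v :: l) (p + q)

/-- the graph `G - Z` without the even edges (with respect to the switching `s`) inside `P` -/
def SG.HG {U : Type} (G : SG U) (Z P : Finset U) (s : U → F2) : SimpleGraph U where
  Adj u v := u ≠ v ∧ u ∉ Z ∧ v ∉ Z ∧ (((u ∉ P ∨ v ∉ P) ∧ ∃ p, G.adj p u v) ∨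
    (u ∈ P ∧ v ∈ P ∧ G.adj (1 + s u + s v) u v))
  symm := ⟨by
    rintro u v ⟨h1, h2, h3, h4⟩
    refine ⟨h1.symm, h3, h2, ?_⟩
    rcases h4 with ⟨h4, p, hp⟩ | ⟨h4, h5, h6⟩
    · exact Or.inl ⟨h4.symm, p, G.symm _ _ _ hp⟩
    · refine Or.inr ⟨h5, h4, ?_⟩
      have := G.symm _ _ _ h6
      rwa [add_right_comm] at this⟩
  loopless := ⟨fun _ h => h.1 rfl⟩

/-- two disjoint odd paths with ends in `A` and no inner vertices in `A` -/
structure TwoP {U : Type} (G : SG U) (A : Finset U) (a b c d : U) (k l : List U) : Prop where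
  p1 : G.Path (a :: (k ++ [b])) 1
  p2 : G.Path (c :: (l ++ [d])) 1
  aA : a ∈ A
  bA : b ∈ A
  cA : c ∈ A
  dA : d ∈ A
  kA : ∀ x ∈ k, x ∉ A
  lA : ∀ x ∈ l, x ∉ A
  disj : ∀ x ∈ a :: (k ++ [b]), x ∉ c :: (l ++ [d])

/-- the structure of a signed graph without two disjoint odd paths between terminals in `A`:
`P` is the set of the split vertices, `T` the set of the vertices of `P` in the exceptional
component -/
structure Struc {U : Type} [DecidableEq U] (G : SG U) (A Z P T : Finset U) (s : U → F2) :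
    Prop where
  hZ : Z.card ≤ 1
  hA : A \ Z ⊆ P
  hPZ : Disjoint P Z
  s0 : ∀ a ∈ A, s a = 0
  T3 : T.card ≤ 3
  TP : T ⊆ P
  TZ : Z.Nonempty → T = ∅
  conn : ∀ u ∈ T, ∀ v ∈ T, (G.HG Z P s).Reachable u v
  sep : ∀ u ∈ P, ∀ v ∈ P, (G.HG Z P s).Reachable u v → u = v ∨ (u ∈ T ∧ v ∈ T)

/-- collapse the vertices along `π` (loops are dropped) -/
def SG.collapse {U : Type} (G : SG U) (π : U → U) : SG U where
  adj p u v := u ≠ v ∧ ∃ u' v', π u' = u ∧ π v' = v ∧ G.adj p u' v'
  symm := by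
    rintro p u v ⟨h, u', v', h1, h2, h3⟩
    exact ⟨h.symm, v', u', h2, h1, G.symm _ _ _ h3⟩
  irrefl := fun _ _ h => h.1 rfl

end Pool.Agent.HC
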