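import Pool.Agent.HC.Mdl

/-!
# HC-Rep: a graph representation from a model with a blocking vertex

`σ' = sg' φ σ s`. New vertex set `Option U`, `Φ x none = σ' x`,
`Φ x (some z) = φ x z + σ' x + ∑ v ∈ II, φ x v`,
`Φ x (some u) = φ x u + ∑ v ∈ II.filter (tt · = u), φ x v` for `u ≠ z` (a linear map in `x`; vanishes on
`K`). Images of the elements of `S`:
* `e` (`φ e = 0`, `σ' e = 1`): `pr none (some z)`.
* `x ≠ e` without end in `II`: if `φ x z = 0` then `σ' x = 0` (`h4`), and `φ x` is 0 or `pr u w` with
  `u, w ≠ z`: the image is 0 or `pr (some u) (some w)`. If `φ x = pr z u`: `pr (some z) (some u)` if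
  `σ' x = 0`, `pr none (some u)` if `σ' x = 1`.
* `φ x = pr v t`, `v ∈ II`, `t = tt v` (`t ≠ z`, `t ∉ II`): coordinate `some v` is 1, `some t` is
  `1 + 1 = 0`, `some z` is `0 + σ' x + 1`, `none` is `σ' x`: `pr (some v) (some z)` if `σ' x = 0`,
  `pr (some v) none` if `σ' x = 1`.
* `φ x = pr v z`, `v ∈ II`, `σ' x = 0`: coordinate `some v` is 1, `some (tt v)` is 1, `some z` is
  `1 + 0 + 1 = 0`, `none` is 0: `pr (some v) (some (tt v))`.
Kernel: `v ∈ hat K S`, `Φ v = 0`: `σ' v = 0`; for `w ∈ II` the coordinate `some w` is `φ v w` (no `tt v'`
is in `II`, `w ≠ z`), so `φ v = 0` on `II`; then all the other coordinates: `φ v u = 0`; so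
`σ v = σ' v = 0` and `v ∈ K` (`inj`).
-/

namespace Pool.Agent.HC

open Finset Module

variable {V : Type} [AddCommGroup V] [Module F2 V] [DecidableEq V] [FiniteDimensional F2 V]
  {K : Submodule F2 V} {S : Finset V} {e : V} {U : Type} [Fintype U] [DecidableEq U]
  {φ : V →ₗ[F2] (U → F2)} {σ : V →ₗ[F2] F2}

private lemma sg'_add (φ : V →ₗ[F2] (U → F2)) (σ : V →ₗ[F2] F2) (s : U → F2) (x y : V) :
    sg' φ σ s (x + y) = sg' φ σ s x + sg' φ σ s y := by
  simp only [sg', map_add, Pi.add_apply, mul_add, Finset.sum_add_distrib]
  abel

private lemma sg'_smul (φ : V →ₗ[F2] (U → F2)) (σ : V →ₗ[F2] F2) (s : U → F2) (c : F2) (x : V) :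
    sg' φ σ s (c • x) = c * sg' φ σ s x := by
  simp only [sg', map_smul, Pi.smul_apply, smul_eq_mul, mul_add, Finset.mul_sum]
  congr 1
  apply Finset.sum_congr rfl
  intro u _
  ring

/-- the new representation -/
private noncomputable def nPhi (φ : V →ₗ[F2] (U → F2)) (σ : V →ₗ[F2] F2) (s : U → F2) (z : U)
    (II : Finset U) (tt : U → U) : V →ₗ[F2] (Option U → F2) where
  toFun x o := match o with
    | none => sg' φ σ s x
    | some u => if u = z then φ x z + sg' φ σ s x + ∑ v ∈ II, φ x v
        else φ x u + ∑ v ∈ II.filter (fun v => tt v = u), φ x v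
  map_add' x y := by
    funext o
    cases o with
    | none => simp only [sg'_add, Pi.add_apply]
    | some u =>
      simp only [Pi.add_apply, sg'_add, map_add, Finset.sum_add_distrib]
      split_ifs <;> abel
  map_smul' c x := by
    funext o
    cases o with
    | none => simp only [sg'_smul, Pi.smul_apply, smul_eq_mul, RingHom.id_apply]
    | some u =>
      simp only [Pi.smul_apply, sg'_smul, map_smul, RingHom.id_apply, smul_eq_mul, mul_ite,
        mul_add, Finset.mul_sum]

private lemma nPhi_none (φ : V →ₗ[F2] (U → F2)) (σ : V →ₗ[F2] F2) (s : U → F2) (z : U)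
    (II : Finset U) (tt : U → U) (x : V) : nPhi φ σ s z II tt x none = sg' φ σ s x := rfl

private lemma nPhi_z (φ : V →ₗ[F2] (U → F2)) (σ : V →ₗ[F2] F2) (s : U → F2) (z : U)
    (II : Finset U) (tt : U → U) (x : V) :
    nPhi φ σ s z II tt x (some z) = φ x z + sg' φ σ s x + ∑ v ∈ II, φ x v := by
  simp [nPhi]

private lemma nPhi_u (φ : V →ₗ[F2] (U → F2)) (σ : V →ₗ[F2] F2) (s : U → F2) (z : U)
    (II : Finset U) (tt : U → U) (x : V) (u : U) (h : u ≠ z) :
    nPhi φ σ s z II tt x (some u) = φ x u + ∑ v ∈ II.filter (fun v => tt v = u), φ x v := by
  simp [nPhi, h]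

private lemma sum_pr (II : Finset U) (a b : U) :
    ∑ v ∈ II, pr a b v = (if a ∈ II then 1 else 0) + (if b ∈ II then 1 else 0) := by
  simp only [pr, Pi.add_apply, Finset.sum_add_distrib, Finset.sum_pi_single']

private lemma pr_ap {W : Type} [DecidableEq W] (a b c : W) :
    pr a b c = (if c = a then 1 else 0) + (if c = b then 1 else 0) := by
  simp only [pr, Pi.add_apply, Pi.single_apply]

private lemma f2 (a : F2) : a = 0 ∨ a = 1 := by
  revert a; decide

theorem graphic_of_blocking (hm : Mdl K S e φ σ) (z : U) (s : U → F2) (II : Finset U)
    (tt : U → U) (hz : z ∉ II) (h2 : ∀ v ∈ II, tt v ∉ II ∧ tt v ≠ z)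
    (h3 : ∀ x ∈ S, ∀ v ∈ II, φ x v ≠ 0 →
      φ x = pr v (tt v) ∨ (φ x = pr v z ∧ sg' φ σ s x = 0))
    (h4 : ∀ x ∈ S, x ≠ e → (∀ v ∈ II, φ x v = 0) → φ x z = 0 → sg' φ σ s x = 0) :
    Graphic K (S : Set V) := by
  classical
  have hII : ∀ v ∈ II, v ≠ z := fun v hv h => hz (h ▸ hv)
  refine ⟨Option U, inferInstance, inferInstance, nPhi φ σ s z II tt, ?_, ?_, ?_⟩
  · intro v hv
    have h1 := hm.kφ v hv
    have h2 := hm.kσ v hv
    have g3 : sg' φ σ s v = 0 := by simp [sg', h1, h2]
    funext o
    cases o with
    | none => simp [nPhi_none, g3]
    | some u =>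
      by_cases h : u = z
      · subst h
        simp [nPhi_z, h1, g3]
      · rw [nPhi_u _ _ _ _ _ _ _ _ h]
        simp [h1]
  · intro x hx
    by_cases hxe : x = e
    · subst hxe
      right
      refine ⟨none, some z, by simp, ?_⟩
      have h1 := hm.eφ
      have g3 : sg' φ σ s x = 1 := by simp [sg', h1, hm.eσ]
      funext o
      cases o with
      | none => simp [nPhi_none, g3, pr_ap]
      | some u =>
        by_cases h : u = z
        · subst h
          simp [nPhi_z, h1, g3, pr_ap]
        · rw [nPhi_u _ _ _ _ _ _ _ _ h]
          simp [h1, pr_ap, h]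
    · by_cases hc : ∃ v ∈ II, φ x v ≠ 0
      · obtain ⟨v, hv, hv0⟩ := hc
        have hvz := hII v hv
        obtain ⟨ht1, ht2⟩ := h2 v hv
        have hvt : v ≠ tt v := fun h => ht1 (h ▸ hv)
        right
        rcases h3 x hx v hv hv0 with h5 | ⟨h5, h6⟩
        · rcases f2 (sg' φ σ s x) with h7 | h7
          · refine ⟨some v, some z, by simpa using hvz, ?_⟩
            funext o
            cases o with
            | none => simp [nPhi_none, h7, pr_ap]
            | some u =>
              by_cases h : u = z
              · subst h
                rw [nPhi_z, h5, h7, sum_pr, pr_ap, pr_ap]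
                simp [hv, ht1, ht2.symm, hvz.symm]
              · rw [nPhi_u _ _ _ _ _ _ _ _ h, h5, sum_pr, pr_ap, pr_ap]
                by_cases h8 : u = tt v
                · subst h8
                  simp [hv, ht1, hvt.symm, ht2]
                  decide
                · have h9 : ¬ (tt v = u) := fun hh => h8 hh.symm
                  simp [hv, ht1, h8, h9, h]
          · refine ⟨some v, none, by simp, ?_⟩
            funext o
            cases o with
            | none => simp [nPhi_none, h7, pr_ap]
            | some u =>
              by_cases h : u = z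
              · subst h
                rw [nPhi_z, h5, h7, sum_pr, pr_ap, pr_ap]
                simp [hv, ht1, ht2.symm, hvz.symm]
                decide
              · rw [nPhi_u _ _ _ _ _ _ _ _ h, h5, sum_pr, pr_ap, pr_ap]
                by_cases h8 : u = tt v
                · subst h8
                  simp [hv, ht1, hvt.symm]
                  decide
                · have h9 : ¬ (tt v = u) := fun hh => h8 hh.symm
                  simp [hv, ht1, h8, h9]
        · refine ⟨some v, some (tt v), by simpa using hvt, ?_⟩
          funext o
          cases o with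
          | none => simp [nPhi_none, h6, pr_ap]
          | some u =>
            by_cases h : u = z
            · subst h
              rw [nPhi_z, h5, h6, sum_pr, pr_ap, pr_ap]
              simp [hv, hz, ht2.symm, hvz.symm]
              decide
            · rw [nPhi_u _ _ _ _ _ _ _ _ h, h5, sum_pr, pr_ap, pr_ap]
              by_cases h8 : u = tt v
              · subst h8
                simp [hv, hz, hvt.symm, h]
              · have h9 : ¬ (tt v = u) := fun hh => h8 hh.symm
                simp [hv, hz, h8, h9, h]
      · push Not at hc
        have hs : ∑ v ∈ II, φ x v = 0 := Finset.sum_eq_zero hc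
        have hs' : ∀ u, ∑ v ∈ II.filter (fun v => tt v = u), φ x v = 0 := fun u =>
          Finset.sum_eq_zero (fun v hv => hc v (Finset.mem_filter.1 hv).1)
        by_cases hxz : φ x z = 0
        · have h5 := h4 x hx hxe hc hxz
          rcases hm.edge x hx with h6 | ⟨u, w, huw, h6⟩
          · left
            funext o
            cases o with
            | none => simp [nPhi_none, h5]
            | some u =>
              by_cases h : u = z
              · subst h
                simp [nPhi_z, h5, hs, hxz]
              · rw [nPhi_u _ _ _ _ _ _ _ _ h, hs']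
                simp [h6]
          · right
            refine ⟨some u, some w, by simpa using huw, ?_⟩
            funext o
            cases o with
            | none => simp [nPhi_none, h5, pr_ap]
            | some t =>
              have e1 : nPhi φ σ s z II tt x (some t) = φ x t := by
                by_cases h : t = z
                · subst h
                  simp [nPhi_z, h5, hs]
                · rw [nPhi_u _ _ _ _ _ _ _ _ h, hs']
                  simp
              rw [e1, h6, pr_ap, pr_ap]
              simp
        · have hzu : ∃ u, u ≠ z ∧ φ x = pr z u := by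
            rcases hm.edge x hx with h6 | ⟨u, w, huw, h6⟩
            · exact absurd (by simp [h6]) hxz
            · by_cases h7 : u = z
              · subst h7
                exact ⟨w, huw.symm, h6⟩
              · by_cases h8 : w = z
                · subst h8
                  refine ⟨u, h7, ?_⟩
                  rw [h6, pr, pr, add_comm]
                · exact absurd (by rw [h6, pr_ap]; simp [Ne.symm h7, Ne.symm h8]) hxz
          obtain ⟨u, huz, h6⟩ := hzu
          right
          have h7 : φ x z = 1 := by
            rcases f2 (φ x z) with h | h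
            · exact absurd h hxz
            · exact h
          rcases f2 (sg' φ σ s x) with h8 | h8
          · refine ⟨some z, some u, by simpa using huz.symm, ?_⟩
            funext o
            cases o with
            | none => simp [nPhi_none, h8, pr_ap]
            | some t =>
              by_cases h : t = z
              · subst h
                rw [nPhi_z, hs, h7, h8, pr_ap]
                simp [huz.symm]
              · rw [nPhi_u _ _ _ _ _ _ _ _ h, hs', h6, pr_ap, pr_ap]
                simp [h]
          · refine ⟨none, some u, by simp, ?_⟩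
            funext o
            cases o with
            | none => simp [nPhi_none, h8, pr_ap]
            | some t =>
              by_cases h : t = z
              · subst h
                rw [nPhi_z, hs, h7, h8, pr_ap]
                simp [huz.symm]
                decide
              · rw [nPhi_u _ _ _ _ _ _ _ _ h, hs', h6, pr_ap, pr_ap]
                simp [h]
  · intro v hv h0
    have hn : sg' φ σ s v = 0 := by
      have := congrFun h0 none
      rwa [nPhi_none] at this
    have hI : ∀ w ∈ II, φ v w = 0 := by
      intro w hw
      have := congrFun h0 (some w)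
      rw [nPhi_u _ _ _ _ _ _ _ _ (hII w hw)] at this
      have h5 : II.filter (fun v => tt v = w) = ∅ := by
        apply Finset.filter_eq_empty_iff.2
        intro y hy h
        exact (h2 y hy).1 (h ▸ hw)
      rw [h5] at this
      simpa using this
    have hs : ∑ w ∈ II, φ v w = 0 := Finset.sum_eq_zero hI
    have hs' : ∀ u, ∑ w ∈ II.filter (fun w => tt w = u), φ v w = 0 := fun u =>
      Finset.sum_eq_zero (fun w hw => hI w (Finset.mem_filter.1 hw).1)
    have hφ : φ v = 0 := by
      funext u
      have := congrFun h0 (some u)
      by_cases h : u = z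
      · subst h
        rw [nPhi_z, hs, hn] at this
        simpa using this
      · rw [nPhi_u _ _ _ _ _ _ _ _ h, hs'] at this
        simpa using this
    refine hm.inj v hv hφ ?_
    have : sg' φ σ s v = σ v := by simp [sg', hφ]
    rw [← this, hn]

end Pool.Agent.HC
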