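import Pool.Agent.HC.Mod2
import Pool.Agent.HC.Mod3
import Pool.Agent.HC.Rep

/-!
# HC-FS0: structure without deleted vertex implies graphic

`H := (mSG S φ σ).HG ∅ P s`; `A ⊆ P`, `A` nonempty. For `v ∉ P` let `C` = the vertices reachable from
`v` in `H`, `I = C \ P`. An element at `I`: `φ x = pr u w`, `u ∈ I`, then `H.Adj u w` (`u ∉ P`), so
`w ∈ I ∪ (C ∩ P)`. `I` is disjoint from `A`. If `C ∩ P` has at most one element `t` (if it is empty let
`t ∈ A` be arbitrary, `t ∉ I`): `hsm` (with `w = t`) gives `sm (stE S φ I)` and `no_one_cut` gives a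
contradiction. So `C ∩ P` has two different elements, by `sep` they are in `T`: every `v ∉ P` is
reachable from `T`.
Case `T = ∅`: so `P = univ`; every `x ≠ e` in `S` has `sg' φ σ s x = 0`: otherwise `φ x = pr u w` is an edge
of `H` between different elements of `P`, against `sep`. `graphic_of_blocking` with `II = ∅`, any `z`.
Case `T` nonempty, `I := univ \ P` = the vertices outside `P` (all of them reachable from `T`; the
elements of `T` are pairwise reachable; a vertex of `P` reachable from `T` is in `T` by `sep`).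
`h1` (elements at `I` stay in `I ∪ T`): the other end is adjacent in `H`, so reachable from `T`.
`h2` (odd elements are inside `I ∪ T`): both ends in `P`: `H.Adj`, `sep`; otherwise `h1`.
`univ \ I = P`, so `hS.conn` is the hypothesis `hc`. `lam_xE`: `lam ≤ 2`; `hsm2` gives `sm (xE ..)`;
`xE_vertex` gives `z`; `graphic_of_blocking` with `II = ∅`.
-/

namespace Pool.Agent.HC

open Finset Module

variable {V : Type} [AddCommGroup V] [Module F2 V] [DecidableEq V] [FiniteDimensional F2 V]
  {K : Submodule F2 V} {S : Finset V} {e : V} {U : Type} [Fintype U] [DecidableEq U]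
  {φ : V →ₗ[F2] (U → F2)} {σ : V →ₗ[F2] F2} {sm : Finset V → Prop}

private lemma pr_ne {U : Type} [DecidableEq U] {u v w : U} (h : pr u v w ≠ 0) : w = u ∨ w = v := by
  by_contra hne
  push Not at hne
  apply h
  simp [pr, hne.1, hne.2]

private lemma pr_symm {U : Type} [DecidableEq U] (u v : U) : pr u v = pr v u := by
  rw [pr, pr, add_comm]

private lemma F2_eq_one {a : F2} (h : a ≠ 0) : a = 1 := by
  revert h; revert a; decide

/-- edges with an end outside `P` -/
private lemma adj_out {V : Type} [AddCommGroup V] [Module F2 V] {U : Type} [Fintype U]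
    [DecidableEq U] {S : Finset V} {φ : V →ₗ[F2] (U → F2)} {σ : V →ₗ[F2] F2} {P : Finset U}
    {s : U → F2} {x : V} (hx : x ∈ S) {u w : U} (huw : u ≠ w) (h : φ x = pr u w)
    (hP : u ∉ P ∨ w ∉ P) : ((mSG S φ σ).HG ∅ P s).Adj u w :=
  ⟨huw, Finset.notMem_empty _, Finset.notMem_empty _, Or.inl ⟨hP, σ x, huw, x, hx, h, rfl⟩⟩

private lemma sg'_pr {V : Type} [AddCommGroup V] [Module F2 V] {U : Type} [Fintype U]
    [DecidableEq U] {φ : V →ₗ[F2] (U → F2)} {σ : V →ₗ[F2] F2}
    {s : U → F2} {x : V} {u w : U} (h : φ x = pr u w) : sg' φ σ s x = σ x + (s u + s w) := by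
  rw [sg', h]
  congr 1
  simp [pr, Pi.single_apply, mul_add, Finset.sum_add_distrib]

/-- odd edges inside `P` -/
private lemma adj_odd {V : Type} [AddCommGroup V] [Module F2 V] {U : Type} [Fintype U]
    [DecidableEq U] {S : Finset V} {φ : V →ₗ[F2] (U → F2)} {σ : V →ₗ[F2] F2} {P : Finset U}
    {s : U → F2} {x : V} (hx : x ∈ S) {u w : U} (huw : u ≠ w) (h : φ x = pr u w)
    (hu : u ∈ P) (hw : w ∈ P) (hs : sg' φ σ s x ≠ 0) : ((mSG S φ σ).HG ∅ P s).Adj u w := by
  refine ⟨huw, Finset.notMem_empty _, Finset.notMem_empty _, Or.inr ⟨hu, hw, huw, x, hx, h, ?_⟩⟩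
  rw [sg'_pr h] at hs
  have h1 := F2_eq_one hs
  have key : ∀ a b c : F2, a + (b + c) = 1 → a = 1 + b + c := by decide
  exact key _ _ _ h1

theorem fs_0 (ht : Tight K S sm) (hm : FMdl K S e φ σ) {A P T : Finset U} {s : U → F2}
    (hA : A.Nonempty) (hS : Struc (mSG S φ σ) A ∅ P T s)
    (hsm : ∀ I : Finset U, Disjoint I A →
      (∃ t w, t ∉ I ∧ w ∉ I ∧ ∀ x ∈ stE S φ I, ∀ u, φ x u ≠ 0 → u ∈ I ∨ u = t ∨ u = w) →
      sm (stE S φ I))
    (hsm2 : ∀ (I T : Finset U) (s : U → F2), (∀ a ∈ A, s a = 0) → Disjoint I A → Disjoint I T →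
      T.card ≤ 3 → (∀ x ∈ stE S φ I, ∀ u, φ x u ≠ 0 → u ∈ I ∨ u ∈ T) →
      lam K S (xE S e φ σ s I T) ≤ 2 → sm (xE S e φ σ s I T)) :
    Graphic K (S : Set V) := by
  classical
  set H := (mSG S φ σ).HG ∅ P s with hH
  have hAP : A ⊆ P := by
    have := hS.hA
    rwa [Finset.sdiff_empty] at this
  -- the vertices outside `P` are reachable from `T`
  have hreach : ∀ v, v ∉ P → ∃ t ∈ T, H.Reachable t v := by
    intro v hv
    by_contra hno
    push Not at hno
    set I : Finset U := Finset.univ.filter (fun u => H.Reachable v u ∧ u ∉ P) with hI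
    have hmemI : ∀ u, u ∈ I ↔ H.Reachable v u ∧ u ∉ P := by
      intro u; rw [hI, Finset.mem_filter]; simp
    have hvI : v ∈ I := (hmemI v).2 ⟨SimpleGraph.Reachable.refl v, hv⟩
    have hdis : Disjoint I A := by
      rw [Finset.disjoint_left]
      intro u hu hA'
      exact ((hmemI u).1 hu).2 (hAP hA')
    obtain ⟨t, htI, htw⟩ : ∃ t, t ∉ I ∧ ∀ w, H.Reachable v w → w ∈ P → w = t := by
      by_cases hex : ∃ t, H.Reachable v t ∧ t ∈ P
      · obtain ⟨t, ht1, ht2⟩ := hex
        refine ⟨t, fun h => ((hmemI t).1 h).2 ht2, fun w hw1 hw2 => ?_⟩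
        rcases hS.sep w hw2 t ht2 (hw1.symm.trans ht1) with h | ⟨h, -⟩
        · exact h
        · exact absurd hw1.symm (hno w h)
      · obtain ⟨t, htA⟩ := hA
        refine ⟨t, fun h => ((hmemI t).1 h).2 (hAP htA), fun w hw1 hw2 => ?_⟩
        exact absurd ⟨w, hw1, hw2⟩ hex
    have hcut : ∀ x ∈ stE S φ I, ∀ u, φ x u ≠ 0 → u ∈ I ∨ u = t := by
      intro x hx u' hu'
      rw [stE, Finset.mem_filter] at hx
      obtain ⟨hxS, u, huI, hu⟩ := hx
      obtain ⟨hur, huP⟩ := (hmemI u).1 huI
      rcases hm.edge x hxS with h0 | ⟨p, q, hpq, hφ⟩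
      · rw [h0] at hu; exact absurd rfl hu
      · rw [hφ] at hu hu'
        -- other end
        have main : ∀ w, w ≠ u → φ x = pr u w → w ∈ I ∨ w = t := by
          intro w hwu hφw
          have hadj : H.Adj u w := adj_out hxS (Ne.symm hwu) hφw (Or.inl huP)
          have hrw : H.Reachable v w := hur.trans hadj.reachable
          by_cases hwP : w ∈ P
          · right; exact htw w hrw hwP
          · left; exact (hmemI w).2 ⟨hrw, hwP⟩
        rcases pr_ne hu with h1 | h1
        · subst h1
          rcases pr_ne hu' with h2 | h2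
          · rw [h2]; exact Or.inl huI
          · rw [h2]; exact main q (Ne.symm hpq) hφ
        · subst h1
          rcases pr_ne hu' with h2 | h2
          · rw [h2]; exact main p hpq (by rw [hφ, pr_symm])
          · rw [h2]; exact Or.inl huI
    have hsI : sm (stE S φ I) := hsm I hdis ⟨t, t, htI, htI, fun x hx u hu => by
      rcases hcut x hx u hu with h | h
      · exact Or.inl h
      · exact Or.inr (Or.inl h)⟩
    exact no_one_cut ht hm ⟨v, hvI⟩ htI hsI hcut
  rcases T.eq_empty_or_nonempty with hT | hT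
  · -- `T = ∅`
    have hPu : ∀ v, v ∈ P := by
      intro v
      by_contra hv
      obtain ⟨t, ht1, -⟩ := hreach v hv
      rw [hT] at ht1
      exact absurd ht1 (Finset.notMem_empty t)
    obtain ⟨z, -⟩ := hA
    refine graphic_of_blocking hm.toMdl z s ∅ id (Finset.notMem_empty z)
      (fun v hv => absurd hv (Finset.notMem_empty v))
      (fun x _ v hv => absurd hv (Finset.notMem_empty v)) ?_
    intro x hx hxe _ _
    by_contra hsg
    rcases hm.edge x hx with h0 | ⟨p, q, hpq, hφ⟩
    · exact hm.nz x hx hxe h0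
    · have hadj : H.Adj p q := adj_odd hx hpq hφ (hPu p) (hPu q) hsg
      rcases hS.sep p (hPu p) q (hPu q) hadj.reachable with h | ⟨h, -⟩
      · exact hpq h
      · rw [hT] at h; exact absurd h (Finset.notMem_empty p)
  · -- `T` nonempty
    set I : Finset U := Finset.univ \ P with hI
    have hmemI : ∀ u, u ∈ I ↔ u ∉ P := by
      intro u; rw [hI]; simp
    have hIT : Disjoint I T := by
      rw [Finset.disjoint_left]
      intro u hu hT'
      exact (hmemI u).1 hu (hS.TP hT')
    have hIA : Disjoint I A := by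
      rw [Finset.disjoint_left]
      intro u hu hA'
      exact (hmemI u).1 hu (hAP hA')
    have h1 : ∀ x ∈ S, (∃ u ∈ I, φ x u ≠ 0) → ∀ u, φ x u ≠ 0 → u ∈ I ∨ u ∈ T := by
      rintro x hxS ⟨u, huI, hu⟩ u' hu'
      have huP := (hmemI u).1 huI
      obtain ⟨t, htT, htu⟩ := hreach u huP
      rcases hm.edge x hxS with h0 | ⟨p, q, hpq, hφ⟩
      · rw [h0] at hu; exact absurd rfl hu
      · rw [hφ] at hu hu'
        have main : ∀ w, w ≠ u → φ x = pr u w → w ∈ I ∨ w ∈ T := by
          intro w hwu hφw
          have hadj : H.Adj u w := adj_out hxS (Ne.symm hwu) hφw (Or.inl huP)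
          have hrw : H.Reachable t w := htu.trans hadj.reachable
          by_cases hwP : w ∈ P
          · right
            rcases hS.sep t (hS.TP htT) w hwP hrw with h | ⟨-, h⟩
            · rw [← h]; exact htT
            · exact h
          · left; exact (hmemI w).2 hwP
        rcases pr_ne hu with h1 | h1
        · subst h1
          rcases pr_ne hu' with h2 | h2
          · rw [h2]; exact Or.inl huI
          · rw [h2]; exact main q (Ne.symm hpq) hφ
        · subst h1
          rcases pr_ne hu' with h2 | h2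
          · rw [h2]; exact main p hpq (by rw [hφ, pr_symm])
          · rw [h2]; exact Or.inl huI
    have h2 : ∀ x ∈ S, x ≠ e → sg' φ σ s x ≠ 0 → ∀ u, φ x u ≠ 0 → u ∈ I ∨ u ∈ T := by
      intro x hxS hxe hsg u' hu'
      rcases hm.edge x hxS with h0 | ⟨p, q, hpq, hφ⟩
      · rw [h0] at hu'; exact absurd rfl hu'
      · by_cases hp : p ∈ P
        · by_cases hq : q ∈ P
          · have hadj : H.Adj p q := adj_odd hxS hpq hφ hp hq hsg
            rcases hS.sep p hp q hq hadj.reachable with h | ⟨ha, hb⟩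
            · exact absurd h hpq
            · rw [hφ] at hu'
              rcases pr_ne hu' with h3 | h3
              · rw [h3]; exact Or.inr ha
              · rw [h3]; exact Or.inr hb
          · refine h1 x hxS ⟨q, (hmemI q).2 hq, ?_⟩ u' hu'
            rw [hφ]
            simp [pr, hpq.symm]
        · refine h1 x hxS ⟨p, (hmemI p).2 hp, ?_⟩ u' hu'
          rw [hφ]
          simp [pr, hpq]
    have huI : (Finset.univ \ I : Finset U) = P := by
      ext u; simp [hmemI]
    have hc : ∀ u ∈ T, ∀ w ∈ T, ((mSG S φ σ).HG ∅ (univ \ I) s).Reachable u w := by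
      rw [huI]; exact hS.conn
    have hlam : lam K S (xE S e φ σ s I T) ≤ 2 := by
      have := lam_xE hm.toMdl hT hIT h1 h2
      have h3 := hS.T3
      omega
    have hsx : sm (xE S e φ σ s I T) := by
      refine hsm2 I T s hS.s0 hIA hIT hS.T3 ?_ hlam
      intro x hx u hu
      rw [stE, Finset.mem_filter] at hx
      exact h1 x hx.1 hx.2 u hu
    obtain ⟨z, hz⟩ := xE_vertex ht hm hT hS.T3 hIT h1 h2 hc hsx
    refine graphic_of_blocking hm.toMdl z s ∅ id (Finset.notMem_empty z)
      (fun v hv => absurd hv (Finset.notMem_empty v))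
      (fun x _ v hv => absurd hv (Finset.notMem_empty v)) ?_
    intro x hx hxe _ hxz
    by_contra hsg
    exact hz x hx hxe hsg hxz

end Pool.Agent.HC
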