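import Pool.Agent.HC.FSz
import Pool.Agent.HC.FS0

/-!
# HC-FS: structure implies graphic, assembly
-/

namespace Pool.Agent.HC

open Finset Module

variable {V : Type} [AddCommGroup V] [Module F2 V] [DecidableEq V] [FiniteDimensional F2 V]
  {K : Submodule F2 V} {S : Finset V} {e : V} {U : Type} [Fintype U] [DecidableEq U]
  {φ : V →ₗ[F2] (U → F2)} {σ : V →ₗ[F2] F2} {sm : Finset V → Prop}

theorem fs (ht : Tight K S sm) (hm : FMdl K S e φ σ) {A Z P T : Finset U} {s : U → F2}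
    (hA : A.Nonempty) (hS : Struc (mSG S φ σ) A Z P T s)
    (hsm : ∀ I : Finset U, Disjoint I A →
      (∃ t w, t ∉ I ∧ w ∉ I ∧ ∀ x ∈ stE S φ I, ∀ u, φ x u ≠ 0 → u ∈ I ∨ u = t ∨ u = w) →
      sm (stE S φ I))
    (hsm2 : ∀ (I T : Finset U) (s : U → F2), (∀ a ∈ A, s a = 0) → Disjoint I A → Disjoint I T →
      T.card ≤ 3 → (∀ x ∈ stE S φ I, ∀ u, φ x u ≠ 0 → u ∈ I ∨ u ∈ T) →
      lam K S (xE S e φ σ s I T) ≤ 2 → sm (xE S e φ σ s I T)) :
    Graphic K (S : Set V) := by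
  rcases Z.eq_empty_or_nonempty with hZ | hZ
  · subst hZ
    exact fs_0 ht hm hA hS hsm hsm2
  · have hT := hS.TZ hZ
    subst hT
    have h1 := hS.hZ
    obtain ⟨z, hz⟩ := Finset.card_eq_one.1 (le_antisymm h1 hZ.card_pos)
    subst hz
    exact fs_z ht hm hS hsm

end Pool.Agent.HC
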