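import Pool.Agent.HC.Mod2
import Pool.Agent.HC.Rep

/-!
# HC-FSz: structure with one deleted vertex implies graphic
-/

namespace Pool.Agent.HC

open Finset Module

variable {V : Type} [AddCommGroup V] [Module F2 V] [DecidableEq V] [FiniteDimensional F2 V]
  {K : Submodule F2 V} {S : Finset V} {e : V} {U : Type} [Fintype U] [DecidableEq U]
  {φ : V →ₗ[F2] (U → F2)} {σ : V →ₗ[F2] F2} {sm : Finset V → Prop}

omit [Fintype U] in
private theorem fsz_pr (u v w : U) :
    pr u v w = (if w = u then 1 else 0) + (if w = v then 1 else 0) := by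
  unfold pr
  rw [Pi.add_apply, Pi.single_apply, Pi.single_apply]

omit [Fintype U] in
private theorem fsz_left {u v : U} (h : u ≠ v) : pr u v u = 1 := by
  rw [fsz_pr, if_pos rfl, if_neg h, add_zero]

omit [Fintype U] in
private theorem fsz_comm (u v : U) : pr u v = pr v u := by
  unfold pr
  exact add_comm _ _

omit [Fintype U] in
private theorem fsz_ne {u v w : U} (h : pr u v w ≠ 0) : w = u ∨ w = v := by
  by_contra hc
  rw [not_or] at hc
  rw [fsz_pr, if_neg hc.1, if_neg hc.2, add_zero] at h
  exact h rfl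

omit [Fintype U] in
/-- `pr v t` determines `t` -/
private theorem fsz_inj {v t w : U} (hvt : v ≠ t) (_hvw : v ≠ w) (h : pr v t = pr v w) : t = w := by
  have h1 : pr v w t ≠ 0 := by
    rw [← h, fsz_comm, fsz_left hvt.symm]
    exact one_ne_zero
  rcases fsz_ne h1 with h2 | h2
  · exact absurd h2.symm hvt
  · exact h2

omit [DecidableEq V] [FiniteDimensional F2 V] [Fintype U] [DecidableEq U] in
private theorem fsz_mem {x : V} {I : Finset U} :
    x ∈ stE S φ I ↔ x ∈ S ∧ ∃ u ∈ I, φ x u ≠ 0 := by
  classical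
  unfold stE
  rw [Finset.mem_filter]

omit [DecidableEq V] [FiniteDimensional F2 V] in
private theorem fsz_sg (s : U → F2) {x : V} {u w : U} (h : φ x = pr u w) :
    sg' φ σ s x = σ x + (s u + s w) := by
  unfold sg'
  rw [h]
  simp only [fsz_pr, mul_add, mul_ite, mul_one, mul_zero, Finset.sum_add_distrib,
    Finset.sum_ite_eq', Finset.mem_univ, if_true]

omit [FiniteDimensional F2 V] in
/-- the element is determined by `φ` and `σ` -/
private theorem fsz_eq (ht : Tight K S sm) (hm : FMdl K S e φ σ) {x y : V} (hx : x ∈ S)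
    (hy : y ∈ S) (h1 : φ x = φ y) (h2 : σ x = σ y) : x = y := by
  refine ht.npar x hx y hy (hm.inj _ ?_ ?_ ?_)
  · exact Submodule.add_mem _ (subset_hat K _ hx) (subset_hat K _ hy)
  · rw [map_add, h1]
    exact add_self2 (V := U → F2) _
  · rw [map_add, h2]
    exact add_self2 (V := F2) _

omit [FiniteDimensional F2 V] in
private theorem fsz_two (ht : Tight K S sm) (hm : FMdl K S e φ σ) (c : U → F2) (X : Finset V)
    (hX : ∀ x ∈ X, x ∈ S ∧ φ x = c) : X.card ≤ 2 := by
  by_contra h
  obtain ⟨x, hx, y, hy, hxy, hσ⟩ : ∃ x ∈ X, ∃ y ∈ X, x ≠ y ∧ σ x = σ y := by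
    refine Finset.exists_ne_map_eq_of_card_lt_of_maps_to (t := (Finset.univ : Finset F2)) ?_
      (fun x _ => Finset.mem_univ _)
    have h1 : (Finset.univ : Finset F2).card = 2 := by decide
    omega
  exact hxy (fsz_eq ht hm (hX x hx).1 (hX y hy).1 ((hX x hx).2.trans (hX y hy).2.symm) hσ)

/-- the star of a vertex outside of `P` -/
private theorem fsz_star (ht : Tight K S sm) (hm : FMdl K S e φ σ) {A P : Finset U} {z : U}
    {s : U → F2} (hS : Struc (mSG S φ σ) A {z} P ∅ s)
    (hsm : ∀ I : Finset U, Disjoint I A →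
      (∃ t w, t ∉ I ∧ w ∉ I ∧ ∀ x ∈ stE S φ I, ∀ u, φ x u ≠ 0 → u ∈ I ∨ u = t ∨ u = w) →
      sm (stE S φ I)) (v : U) (hv : v ∉ P) (hvz : v ≠ z) :
    ∃ t ∈ P, ∃ x0 ∈ S, (∀ x ∈ S, φ x v ≠ 0 → φ x = pr v t ∨ φ x = pr v z) ∧
      ((φ x0 = pr v t ∧ ∀ x ∈ S, φ x = pr v t → x = x0) ∨
        (φ x0 = pr v z ∧ ∀ x ∈ S, φ x = pr v z → x = x0)) := by
  classical
  set H := (mSG S φ σ).HG {z} P s with hH
  have hzP : z ∉ P := fun h => Finset.disjoint_left.1 hS.hPZ h (Finset.mem_singleton_self z)
  have hrz : ¬ H.Reachable v z := by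
    rintro ⟨w⟩
    obtain ⟨d, _, hd1, hd2⟩ := w.exists_boundary_dart {u | u ≠ z} hvz (by simp)
    have h1 : d.snd = z := by simpa using hd2
    have h2 := d.adj.2.2.1
    rw [h1] at h2
    exact h2 (Finset.mem_singleton_self z)
  set I : Finset U := univ.filter (fun w => H.Reachable v w ∧ w ∉ P) with hI
  have hmI : ∀ w, w ∈ I ↔ H.Reachable v w ∧ w ∉ P := by
    intro w
    rw [hI, Finset.mem_filter]
    simp
  have hvI : v ∈ I := (hmI v).2 ⟨SimpleGraph.Reachable.refl v, hv⟩
  have hzI : z ∉ I := fun h => hrz ((hmI z).1 h).1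
  have hdisj : Disjoint I A := by
    rw [Finset.disjoint_left]
    intro a ha haA
    have haz : a ≠ z := fun h => hzI (h ▸ ha)
    exact ((hmI a).1 ha).2 (hS.hA (Finset.mem_sdiff.2 ⟨haA, by simpa using haz⟩))
  -- the other end of an element with an end in `I`
  have hend : ∀ x ∈ stE S φ I, ∀ u, φ x u ≠ 0 → u = z ∨ H.Reachable v u := by
    intro x hx u hu
    obtain ⟨hxS, a, haI, ha⟩ := fsz_mem.1 hx
    by_cases hau : a = u
    · rw [← hau]
      exact Or.inr ((hmI a).1 haI).1
    by_cases huz : u = z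
    · exact Or.inl huz
    right
    have hp : φ x = pr a u := by
      rcases hm.edge x hxS with h | ⟨b, c, _, h⟩
      · rw [h] at hu
        exact absurd rfl hu
      · rw [h] at ha hu
        rw [h]
        rcases fsz_ne ha with h1 | h1 <;> rcases fsz_ne hu with h2 | h2
        · exact absurd (h1.trans h2.symm) hau
        · rw [h1, h2]
        · rw [h1, h2, fsz_comm]
        · exact absurd (h1.trans h2.symm) hau
    have haz : a ≠ z := fun h => hzI (h ▸ haI)
    have hadj : H.Adj a u := by
      refine ⟨hau, by simpa using haz, by simpa using huz, Or.inl ⟨Or.inl ((hmI a).1 haI).2, σ x,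
        hau, x, hxS, hp, rfl⟩⟩
    exact ((hmI a).1 haI).1.trans hadj.reachable
  by_cases hCP : ∃ t ∈ P, H.Reachable v t
  · obtain ⟨t, htP, htr⟩ := hCP
    have htI : t ∉ I := fun h => ((hmI t).1 h).2 htP
    have hends : ∀ x ∈ stE S φ I, ∀ u, φ x u ≠ 0 → u ∈ I ∨ u = t ∨ u = z := by
      intro x hx u hu
      rcases hend x hx u hu with h | h
      · exact Or.inr (Or.inr h)
      · by_cases huP : u ∈ P
        · right; left
          rcases hS.sep u huP t htP (h.symm.trans htr) with h1 | h1
          · exact h1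
          · exact absurd h1.1 (Finset.notMem_empty _)
        · exact Or.inl ((hmI u).2 ⟨h, huP⟩)
    have hsmI := hsm I hdisj ⟨t, z, htI, hzI, hends⟩
    obtain ⟨v0, hv0, hcard⟩ := two_cut ht hm ⟨v, hvI⟩ htI hzI hsmI hends
    have hvv : v0 = v := by
      rw [hv0, Finset.mem_singleton] at hvI
      exact hvI.symm
    rw [hvv] at hv0 hcard
    have hvt : v ≠ t := fun h => hv (h ▸ htP)
    have htz : t ≠ z := fun h => hzP (h ▸ htP)
    have hall : ∀ x ∈ S, φ x v ≠ 0 → φ x = pr v t ∨ φ x = pr v z := by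
      intro x hx hxv
      have hxs : x ∈ stE S φ I := by
        rw [hv0]
        exact fsz_mem.2 ⟨hx, v, Finset.mem_singleton_self v, hxv⟩
      rcases hm.edge x hx with h | ⟨a, b, hab, h⟩
      · rw [h] at hxv
        exact absurd rfl hxv
      · have hkey : ∀ w, w ≠ v → φ x = pr v w → φ x = pr v t ∨ φ x = pr v z := by
          intro w hwv hw
          have h1 : φ x w ≠ 0 := by
            rw [hw, fsz_comm, fsz_left hwv]
            exact one_ne_zero
          rcases hends x hxs w h1 with h2 | h2 | h2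
          · rw [hv0, Finset.mem_singleton] at h2
            exact absurd h2 hwv
          · left
            rw [hw, h2]
          · right
            rw [hw, h2]
        rw [h] at hxv
        rcases fsz_ne hxv with h1 | h1
        · exact hkey b (fun h2 => hab (h1 ▸ h2.symm)) (by rw [h, h1])
        · exact hkey a (fun h2 => hab (h1 ▸ h2)) (by rw [h, h1, fsz_comm])
    set Tv := (stE S φ {v}).filter (fun x => φ x = pr v t) with hTv
    set Zv := (stE S φ {v}).filter (fun x => φ x = pr v z) with hZv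
    have hstS : ∀ x ∈ stE S φ {v}, x ∈ S := fun x hx => (fsz_mem.1 hx).1
    have hT2 : Tv.card ≤ 2 := fsz_two ht hm (pr v t) Tv (fun x hx => by
      rw [hTv, Finset.mem_filter] at hx
      exact ⟨hstS x hx.1, hx.2⟩)
    have hZ2 : Zv.card ≤ 2 := fsz_two ht hm (pr v z) Zv (fun x hx => by
      rw [hZv, Finset.mem_filter] at hx
      exact ⟨hstS x hx.1, hx.2⟩)
    have hun : stE S φ {v} ⊆ Tv ∪ Zv := by
      intro x hx
      obtain ⟨hxS, u, hu, hxu⟩ := fsz_mem.1 hx
      rw [Finset.mem_singleton] at hu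
      rw [hu] at hxu
      rw [Finset.mem_union, hTv, hZv, Finset.mem_filter, Finset.mem_filter]
      rcases hall x hxS hxu with h | h
      · exact Or.inl ⟨hx, h⟩
      · exact Or.inr ⟨hx, h⟩
    have hc := (Finset.card_le_card hun).trans (Finset.card_union_le _ _)
    rw [hcard] at hc
    have hin : ∀ w, v ≠ w → ∀ x ∈ S, φ x = pr v w → x ∈ stE S φ {v} := by
      intro w hvw x hx h
      refine fsz_mem.2 ⟨hx, v, Finset.mem_singleton_self v, ?_⟩
      rw [h, fsz_left hvw]
      exact one_ne_zero
    have hone : Tv.card = 1 ∨ Zv.card = 1 := by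
      have h0 : Tv.card + Zv.card ≤ 3 := by
        rw [← hcard, ← Finset.card_union_of_disjoint]
        · refine Finset.card_le_card ?_
          intro x hx
          rw [Finset.mem_union, hTv, hZv, Finset.mem_filter, Finset.mem_filter] at hx
          rcases hx with h | h
          · exact h.1
          · exact h.1
        · rw [Finset.disjoint_left]
          intro x h1 h2
          rw [hTv, Finset.mem_filter] at h1
          rw [hZv, Finset.mem_filter] at h2
          exact htz (fsz_inj hvt hvz (h1.2.symm.trans h2.2))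
      omega
    rcases hone with h | h
    · obtain ⟨x0, hx0⟩ := Finset.card_eq_one.1 h
      have hx0' : x0 ∈ Tv := hx0 ▸ Finset.mem_singleton_self x0
      rw [hTv, Finset.mem_filter] at hx0'
      refine ⟨t, htP, x0, hstS x0 hx0'.1, hall, Or.inl ⟨hx0'.2, fun x hx hxt => ?_⟩⟩
      have h1 : x ∈ Tv := by
        rw [hTv, Finset.mem_filter]
        exact ⟨hin t hvt x hx hxt, hxt⟩
      rwa [hx0, Finset.mem_singleton] at h1
    · obtain ⟨x0, hx0⟩ := Finset.card_eq_one.1 h
      have hx0' : x0 ∈ Zv := hx0 ▸ Finset.mem_singleton_self x0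
      rw [hZv, Finset.mem_filter] at hx0'
      refine ⟨t, htP, x0, hstS x0 hx0'.1, hall, Or.inr ⟨hx0'.2, fun x hx hxt => ?_⟩⟩
      have h1 : x ∈ Zv := by
        rw [hZv, Finset.mem_filter]
        exact ⟨hin z hvz x hx hxt, hxt⟩
      rwa [hx0, Finset.mem_singleton] at h1
  · exfalso
    push Not at hCP
    have hends : ∀ x ∈ stE S φ I, ∀ u, φ x u ≠ 0 → u ∈ I ∨ u = z := by
      intro x hx u hu
      rcases hend x hx u hu with h | h
      · exact Or.inr h
      · exact Or.inl ((hmI u).2 ⟨h, fun huP => hCP u huP h⟩)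
    have hsmI := hsm I hdisj ⟨z, z, hzI, hzI, fun x hx u hu => by
      rcases hends x hx u hu with h | h
      · exact Or.inl h
      · exact Or.inr (Or.inl h)⟩
    exact no_one_cut ht hm ⟨v, hvI⟩ hzI hsmI hends

theorem fs_z (ht : Tight K S sm) (hm : FMdl K S e φ σ) {A P : Finset U} {z : U} {s : U → F2}
    (hS : Struc (mSG S φ σ) A {z} P ∅ s)
    (hsm : ∀ I : Finset U, Disjoint I A →
      (∃ t w, t ∉ I ∧ w ∉ I ∧ ∀ x ∈ stE S φ I, ∀ u, φ x u ≠ 0 → u ∈ I ∨ u = t ∨ u = w) →
      sm (stE S φ I)) :
    Graphic K (S : Set V) := by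
  classical
  have hzP : z ∉ P := fun h => Finset.disjoint_left.1 hS.hPZ h (Finset.mem_singleton_self z)
  have hst := fsz_star ht hm hS hsm
  choose! t htP x0 hx0S hall hx0 using hst
  set II : Finset U := univ.filter (fun v => v ∉ P ∧ v ≠ z ∧ φ (x0 v) = pr v z) with hII
  have hmII : ∀ v, v ∈ II ↔ v ∉ P ∧ v ≠ z ∧ φ (x0 v) = pr v z := by
    intro v
    rw [hII, Finset.mem_filter]
    simp
  set s2 : U → F2 := fun v => if v ∈ P ∨ v = z then s v else
    if v ∈ II then σ (x0 v) + s z else σ (x0 v) + s (t v) with hs2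
  have hs2P : ∀ v, v ∈ P ∨ v = z → s2 v = s v := by
    intro v hv
    simp only [hs2, if_pos hv]
  have hF2 : ∀ a b : F2, a + (a + b + b) = 0 := by decide
  refine graphic_of_blocking hm.toMdl z s2 II t ?_ ?_ ?_ ?_
  · rw [hmII]
    exact fun h => h.2.1 rfl
  · intro v hv
    obtain ⟨hvP, hvz, _⟩ := (hmII v).1 hv
    have h1 := htP v hvP hvz
    refine ⟨fun h => ((hmII _).1 h).1 h1, fun h => hzP (h ▸ h1)⟩
  · intro x hx v hv hxv
    obtain ⟨hvP, hvz, hvx⟩ := (hmII v).1 hv
    have htv := htP v hvP hvz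
    have htz : t v ≠ z := fun h => hzP (h ▸ htv)
    have hvt : v ≠ t v := fun h => hvP (h ▸ htv)
    rcases hall v hvP hvz x hx hxv with h | h
    · exact Or.inl h
    · right
      refine ⟨h, ?_⟩
      have hxx : x = x0 v := by
        rcases hx0 v hvP hvz with h1 | h1
        · exact absurd (fsz_inj hvt hvz (h1.1.symm.trans hvx)) htz
        · exact h1.2 x hx h
      rw [fsz_sg s2 h, hs2P z (Or.inr rfl)]
      have hn : ¬ (v ∈ P ∨ v = z) := by
        rw [not_or]
        exact ⟨hvP, hvz⟩
      have h3 : s2 v = σ (x0 v) + s z := by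
        simp only [hs2, if_neg hn, if_pos hv]
      rw [h3, ← hxx]
      exact hF2 _ _
  · intro x hx hxe hxII hxz
    rcases hm.edge x hx with h | ⟨u, w, huw, h⟩
    · exact absurd h (hm.nz x hx hxe)
    · have huz : u ≠ z := by
        rintro rfl
        rw [h, fsz_left huw] at hxz
        exact one_ne_zero hxz
      have hwz : w ≠ z := by
        rintro rfl
        rw [h, fsz_comm, fsz_left huw.symm] at hxz
        exact one_ne_zero hxz
      -- an end outside of `P`
      have hkey : ∀ a b, a ≠ b → b ≠ z → a ≠ z → φ x = pr a b → a ∉ P →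
          sg' φ σ s2 x = 0 := by
        intro a b hab hbz haz hx1 haP
        have hxa : φ x a ≠ 0 := by
          rw [hx1, fsz_left hab]
          exact one_ne_zero
        have haII : a ∉ II := fun h1 => hxa (hxII a h1)
        have hta := htP a haP haz
        have hat : a ≠ t a := fun h1 => haP (h1 ▸ hta)
        have hn : ¬ (a ∈ P ∨ a = z) := by
          rw [not_or]
          exact ⟨haP, haz⟩
        have h3 : s2 a = σ (x0 a) + s (t a) := by
          simp only [hs2, if_neg hn, if_neg haII]
        have h4 : φ x = pr a (t a) := by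
          rcases hall a haP haz x hx hxa with h5 | h5
          · exact h5
          · exact absurd (fsz_inj hab haz (hx1.symm.trans h5)) hbz
        have hxx : x = x0 a := by
          rcases hx0 a haP haz with h1 | h1
          · exact h1.2 x hx h4
          · exact absurd ((hmII a).2 ⟨haP, haz, h1.1⟩) haII
        rw [fsz_sg s2 h4, h3, hs2P (t a) (Or.inl hta), ← hxx]
        exact hF2 _ _
      by_cases huP : u ∈ P
      · by_cases hwP : w ∈ P
        · by_contra hne
          rw [fsz_sg s2 h, hs2P u (Or.inl huP), hs2P w (Or.inl hwP)] at hne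
          have h1 : σ x = 1 + s u + s w := by
            have hF : ∀ a b c : F2, a + (b + c) ≠ 0 → a = 1 + b + c := by decide
            exact hF _ _ _ hne
          have hadj : ((mSG S φ σ).HG {z} P s).Adj u w :=
            ⟨huw, by simpa using huz, by simpa using hwz,
              Or.inr ⟨huP, hwP, huw, x, hx, h, h1⟩⟩
          rcases hS.sep u huP w hwP hadj.reachable with h2 | h2
          · exact huw h2
          · exact absurd h2.1 (Finset.notMem_empty _)
        · exact hkey w u huw.symm huz hwz (by rw [h, fsz_comm]) hwP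
      · exact hkey u w huw hwz huz h huP

end Pool.Agent.HC
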