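import Pool.Agent.HC.Gr1

/-!
# HC-Gr3: gluing two graphs along guts of dimension at most two

`W = hat K X ⊓ hat K Z`, `dim W ≤ dim K + 2`. Let `φ` on `U` represent `(K, X ∪ W)` and `ψ` on `U'`
represent `(K, Z ∪ W)`. Every nonzero class of `W` is an edge of both. Let `P ⊆ U`, `P' ⊆ U'` be the
sets of end vertices and `π : P' → P` the bijection with `ψ w p' = φ w (π p')` for `w` in `W`:
* dimension 0: `P = P' = ∅`;
* dimension 1: `w = pr a b`, resp. `pr a' b'`; `P = {a, b}`;
* dimension 2: `w1, w2, w1 + w2` are edges in both, so they form triangles `a b c`, `a' b' c'` with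
  `w1 = pr a b`, `w2 = pr b c`.
New vertex type `U ⊕ U'`: for `v = x + z`, `x ∈ hat K X`, `z ∈ hat K Z`:
`Φ v (inl u) = φ x u + (ψ z p' if u = π p')`, `Φ v (inr u') = 0` if `u' ∈ P'`, `= ψ z u'` otherwise.
More convenient in Lean: let `ρ : (U' → F2) →ₗ (U ⊕ U' → F2)` move every `p' ∈ P'` to
`inl (π p')` and every other `u'` to `inr u'`, and `ι : (U → F2) →ₗ (U ⊕ U' → F2)` the inclusion.
The maps `ι ∘ φ` on `hat K X` and `ρ ∘ ψ` on `hat K Z` agree on the intersection `W`, so there is a
linear map `Φ` on `V` which restricts to both (for instance `LinearMap.ofIsCompl`-free: choose a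
complement `C` of `W` in `hat K Z` and use `exists_extend`: `Φ := Φ1 + Φ2`, `Φ1 = ι ∘ φ` on `hat K X`
and zero on `C`, `Φ2 = ρ ∘ ψ` on `C` and zero on `hat K X`; or extend linear maps from subspaces with
`LinearMap.exists_extend` applied to a map defined on `hat K X ⊔ hat K Z`).
Edges: clear. Kernel: if `Φ (x + z) = 0` then `ι (φ x) = ρ (ψ z)` vanishes outside `inl P`, and `φ x`
is an even vector supported in `P` (`IsRep.sum_zero`), so `φ x = φ w` for some `w ∈ W` (even vectors
on at most 3 points), so `x + w ∈ K`, `x ∈ W`; now `z + x ∈ hat K Z` and `ρ (ψ (z + x)) = 0` so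
`ψ (z + x) = 0`, `z + x ∈ K`.
-/

namespace Pool.Agent.HC

open Finset Module

private theorem pr_apply {U : Type} [DecidableEq U] (u v t : U) :
    pr u v t = (if t = u then 1 else 0) + (if t = v then 1 else 0) := by
  unfold pr
  rw [Pi.add_apply, Pi.single_apply, Pi.single_apply]

private theorem pr_comm {U : Type} [DecidableEq U] (u v : U) : pr u v = pr v u := by
  unfold pr
  exact add_comm _ _

private theorem two_F2 (x : F2) : x + x = 0 := by
  revert x
  decide

private theorem pr_ne_zero {U : Type} [DecidableEq U] {u v : U} (h : u ≠ v) : pr u v ≠ 0 := by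
  intro h0
  have h1 := congrFun h0 u
  rw [pr_apply, if_pos rfl, if_neg h, Pi.zero_apply] at h1
  exact absurd h1 (by decide)

/-- three edges with sum zero form a triangle -/
private theorem triangle {U : Type} [DecidableEq U] {a b c d e f : U} (hab : a ≠ b) (hcd : c ≠ d)
    (hef : e ≠ f) (h : pr a b + pr c d = pr e f) :
    ∃ p q s, p ≠ q ∧ q ≠ s ∧ p ≠ s ∧ pr a b = pr p q ∧ pr c d = pr q s := by
  have hne : pr a b ≠ pr c d := by
    intro h1
    rw [h1] at h
    apply pr_ne_zero hef
    rw [← h]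
    funext t
    exact two_F2 _
  have key : c = a ∨ c = b ∨ d = a ∨ d = b := by
    by_contra hc
    push Not at hc
    obtain ⟨h1, h2, h3, h4⟩ := hc
    have ha := congrFun h a
    have hb := congrFun h b
    have hc := congrFun h c
    rw [Pi.add_apply, pr_apply, pr_apply, pr_apply] at ha hb hc
    have mem : ∀ t : U, (1 : F2) = (if t = e then 1 else 0) + (if t = f then 1 else 0) →
        t = e ∨ t = f := by
      intro t ht
      by_contra hn
      push Not at hn
      rw [if_neg hn.1, if_neg hn.2] at ht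
      exact absurd ht (by decide)
    rw [if_pos rfl, if_neg hab, if_neg (Ne.symm h1), if_neg (Ne.symm h3)] at ha
    rw [if_neg (Ne.symm hab), if_pos rfl, if_neg (Ne.symm h2), if_neg (Ne.symm h4)] at hb
    rw [if_neg h1, if_neg h2, if_pos rfl, if_neg hcd] at hc
    have ma := mem a (by rw [← ha]; decide)
    have mb := mem b (by rw [← hb]; decide)
    have mc := mem c (by rw [← hc]; decide)
    rcases ma with ma | ma <;> rcases mb with mb | mb <;> rcases mc with mc | mc
    · exact hab (ma.trans mb.symm)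
    · exact hab (ma.trans mb.symm)
    · exact h1 (mc.trans ma.symm)
    · exact h2 (mc.trans mb.symm)
    · exact h2 (mc.trans mb.symm)
    · exact h1 (mc.trans ma.symm)
    · exact hab (ma.trans mb.symm)
    · exact hab (ma.trans mb.symm)
  rcases key with rfl | rfl | rfl | rfl
  · refine ⟨b, c, d, hab.symm, hcd, ?_, pr_comm _ _, rfl⟩
    rintro rfl
    exact hne rfl
  · refine ⟨a, c, d, hab, hcd, ?_, rfl, rfl⟩
    rintro rfl
    exact hne (pr_comm _ _)
  · refine ⟨b, d, c, hab.symm, hcd.symm, ?_, pr_comm _ _, pr_comm _ _⟩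
    rintro rfl
    exact hne (pr_comm _ _)
  · refine ⟨a, d, c, hab, hcd.symm, ?_, rfl, pr_comm _ _⟩
    rintro rfl
    exact hne rfl

/-- the linear map of a map of vertices -/
private def push {A B : Type} [Fintype A] [DecidableEq B] (r : A → B) :
    (A → F2) →ₗ[F2] (B → F2) where
  toFun y := fun t => ∑ a, if r a = t then y a else 0
  map_add' x y := by
    funext t
    simp only [Pi.add_apply]
    rw [← Finset.sum_add_distrib]
    refine Finset.sum_congr rfl fun a _ => ?_
    by_cases h : r a = t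
    · rw [if_pos h, if_pos h, if_pos h]
    · rw [if_neg h, if_neg h, if_neg h, add_zero]
  map_smul' c y := by
    funext t
    simp only [Pi.smul_apply, RingHom.id_apply, smul_eq_mul]
    rw [Finset.mul_sum]
    refine Finset.sum_congr rfl fun a _ => ?_
    by_cases h : r a = t
    · rw [if_pos h, if_pos h]
    · rw [if_neg h, if_neg h, mul_zero]

private theorem push_def {A B : Type} [Fintype A] [DecidableEq B] (r : A → B) (y : A → F2)
    (t : B) : push r y t = ∑ a, if r a = t then y a else 0 := rfl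

private theorem push_single {A B : Type} [Fintype A] [DecidableEq A] [DecidableEq B] (r : A → B)
    (a : A) (x : F2) : push r (Pi.single a x) = Pi.single (r a) x := by
  funext t
  rw [push_def, Finset.sum_eq_single a]
  · by_cases h : r a = t
    · rw [if_pos h, Pi.single_eq_same, ← h, Pi.single_eq_same]
    · rw [if_neg h, Pi.single_eq_of_ne (Ne.symm h)]
  · intro b _ hb
    rw [Pi.single_eq_of_ne hb]
    by_cases h : r b = t
    · rw [if_pos h]
    · rw [if_neg h]
  · intro h
    exact absurd (Finset.mem_univ a) h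

private theorem push_pr {A B : Type} [Fintype A] [DecidableEq A] [DecidableEq B] (r : A → B)
    (a b : A) : push r (pr a b) = pr (r a) (r b) := by
  unfold pr
  rw [map_add, push_single, push_single]

private theorem push_push {A B C : Type} [Fintype A] [DecidableEq A] [Fintype B] [DecidableEq B]
    [DecidableEq C] (r : A → B) (s : B → C) (y : A → F2) :
    push s (push r y) = push (fun a => s (r a)) y := by
  have h : (push s).comp (push r) = push (fun a => s (r a)) := by
    refine LinearMap.pi_ext fun a x => ?_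
    rw [LinearMap.comp_apply, push_single, push_single, push_single]
  rw [← h]
  rfl

private theorem push_apply_of_inj {A B : Type} [Fintype A] [DecidableEq B] {r : A → B}
    (hr : Function.Injective r) (y : A → F2) (a : A) : push r y (r a) = y a := by
  rw [push_def, Finset.sum_eq_single a]
  · rw [if_pos rfl]
  · intro b _ hb
    rw [if_neg]
    exact fun h => hb (hr h)
  · intro h
    exact absurd (Finset.mem_univ a) h

private theorem push_apply_of_not {A B : Type} [Fintype A] [DecidableEq B] {r : A → B}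
    (y : A → F2) {t : B} (ht : ∀ a, r a ≠ t) : push r y t = 0 := by
  rw [push_def]
  exact Finset.sum_eq_zero fun a _ => if_neg (ht a)

private theorem push_inj {A B : Type} [Fintype A] [DecidableEq B] {r : A → B}
    (hr : Function.Injective r) {y : A → F2} (h : push r y = 0) : y = 0 := by
  funext a
  rw [← push_apply_of_inj hr y a, h]
  rfl

private theorem even2 : ∀ y : Fin 2 → F2, ∑ i, y i = 0 → y = 0 ∨ y = pr 0 1 := by
  unfold pr
  decide

private theorem even3 : ∀ y : Fin 3 → F2, ∑ i, y i = 0 →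
    y = 0 ∨ y = pr 0 1 ∨ y = pr 1 2 ∨ y = pr 0 1 + pr 1 2 := by
  unfold pr
  decide

variable {V : Type} [AddCommGroup V] [Module F2 V] [FiniteDimensional F2 V]

omit [FiniteDimensional F2 V] in
private theorem img_eq {N : Type} [AddCommGroup N] [Module F2 N] {K : Submodule F2 V}
    {φ : V →ₗ[F2] N} (hφ : ∀ v ∈ K, φ v = 0) {x y : V} (h : x + y ∈ K) : φ x = φ y := by
  have h1 := hφ _ h
  rw [map_add] at h1
  rw [← add_zero (φ x), ← add_self2 (φ y), ← add_assoc, h1, zero_add]

private theorem span3 {K W : Submodule F2 V} (hKW : K ≤ W)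
    (hd : finrank F2 W ≤ finrank F2 K + 2) {w1 w2 : V} (h1 : w1 ∈ W) (h1K : w1 ∉ K) (h2 : w2 ∈ W)
    (h2K : w2 ∉ K) (h12 : w2 + w1 ∉ K) (w : V) (hw : w ∈ W) :
    w ∈ K ∨ w + w1 ∈ K ∨ w + w2 ∈ K ∨ w + (w1 + w2) ∈ K := by
  have hL : w2 ∉ hat K {w1} := by
    rw [mem_hat_singleton]
    rintro (h | h)
    · exact h2K h
    · exact h12 h
  have hf : finrank F2 (hat (hat K {w1}) {w2}) = finrank F2 K + 1 + 1 := by
    rw [finrank_hat_singleton _ _ hL, finrank_hat_singleton _ _ h1K]
  have hle : hat (hat K {w1}) {w2} ≤ W := by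
    refine hat_le (hat_le hKW ?_) ?_
    · rw [Set.singleton_subset_iff]
      exact h1
    · rw [Set.singleton_subset_iff]
      exact h2
  have heq : hat (hat K {w1}) {w2} = W :=
    Submodule.eq_of_le_of_finrank_le hle (by omega)
  rw [← heq, mem_hat_singleton, mem_hat_singleton, mem_hat_singleton] at hw
  rcases hw with (h | h) | (h | h)
  · exact Or.inl h
  · exact Or.inr (Or.inl h)
  · exact Or.inr (Or.inr (Or.inl h))
  · refine Or.inr (Or.inr (Or.inr ?_))
    rw [add_comm w1 w2, ← add_assoc]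
    exact h

/-- the guts form the same small graph on both sides -/
private theorem exists_match {U U' : Type} [Fintype U] [DecidableEq U] [Fintype U']
    [DecidableEq U'] {K W : Submodule F2 V} (hKW : K ≤ W)
    (hd : finrank F2 W ≤ finrank F2 K + 2) {φ : V →ₗ[F2] (U → F2)} {ψ : V →ₗ[F2] (U' → F2)}
    (hφ : ∀ v ∈ K, φ v = 0) (hψ : ∀ v ∈ K, ψ v = 0)
    (hφe : ∀ w ∈ W, w ∉ K → ∃ u v, u ≠ v ∧ φ w = pr u v)
    (hψe : ∀ w ∈ W, w ∉ K → ∃ u v, u ≠ v ∧ ψ w = pr u v) :
    ∃ (k : ℕ) (q : Fin k → U) (q' : Fin k → U'), Function.Injective q ∧ Function.Injective q' ∧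
      (∀ w ∈ W, ∃ y : Fin k → F2, φ w = push q y ∧ ψ w = push q' y) ∧
      ∀ y : Fin k → F2, ∑ i, y i = 0 → ∃ w ∈ W, φ w = push q y := by
  by_cases h0 : ∀ w ∈ W, w ∈ K
  · refine ⟨0, Fin.elim0, Fin.elim0, fun i => i.elim0, fun i => i.elim0, ?_, ?_⟩
    · intro w hw
      exact ⟨0, by rw [hφ w (h0 w hw), map_zero], by rw [hψ w (h0 w hw), map_zero]⟩
    · intro y _
      refine ⟨0, W.zero_mem, ?_⟩
      rw [Subsingleton.elim y 0, map_zero, map_zero]
  push Not at h0
  obtain ⟨w1, h1, h1K⟩ := h0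
  by_cases h3 : ∀ w ∈ W, w ∈ K ∨ w + w1 ∈ K
  · obtain ⟨a, b, hab, hφ1⟩ := hφe w1 h1 h1K
    obtain ⟨a', b', hab', hψ1⟩ := hψe w1 h1 h1K
    have inj : ∀ {T : Type} {p q : T}, p ≠ q → Function.Injective ![p, q] := by
      intro T p q hpq i j hij
      fin_cases i <;> fin_cases j
      · rfl
      · exact absurd hij hpq
      · exact absurd hij hpq.symm
      · rfl
    have e1 : push ![a, b] (pr 0 1) = φ w1 := by
      rw [push_pr, hφ1]
      rfl
    have e1' : push ![a', b'] (pr 0 1) = ψ w1 := by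
      rw [push_pr, hψ1]
      rfl
    refine ⟨2, ![a, b], ![a', b'], inj hab, inj hab', ?_, ?_⟩
    · intro w hw
      rcases h3 w hw with h | h
      · exact ⟨0, by rw [hφ w h, map_zero], by rw [hψ w h, map_zero]⟩
      · exact ⟨pr 0 1, by rw [e1, img_eq hφ h], by rw [e1', img_eq hψ h]⟩
    · intro y hy
      rcases even2 y hy with rfl | rfl
      · exact ⟨0, W.zero_mem, by rw [map_zero, map_zero]⟩
      · exact ⟨w1, h1, e1.symm⟩
  push Not at h3
  obtain ⟨w2, h2, h2K, h12⟩ := h3
  have h12' : w1 + w2 ∉ K := by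
    rw [add_comm]
    exact h12
  obtain ⟨a, b, hab, hφ1⟩ := hφe w1 h1 h1K
  obtain ⟨a', b', hab', hψ1⟩ := hψe w1 h1 h1K
  obtain ⟨c, d, hcd, hφ2⟩ := hφe w2 h2 h2K
  obtain ⟨c', d', hcd', hψ2⟩ := hψe w2 h2 h2K
  obtain ⟨e, f, hef, hφ3⟩ := hφe (w1 + w2) (W.add_mem h1 h2) h12'
  obtain ⟨e', f', hef', hψ3⟩ := hψe (w1 + w2) (W.add_mem h1 h2) h12'
  rw [map_add, hφ1, hφ2] at hφ3
  rw [map_add, hψ1, hψ2] at hψ3
  obtain ⟨p, q, s, hpq, hqs, hps, t1, t2⟩ := triangle hab hcd hef hφ3
  obtain ⟨p', q', s', hpq', hqs', hps', t1', t2'⟩ := triangle hab' hcd' hef' hψ3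
  have inj : ∀ {T : Type} {p q s : T}, p ≠ q → q ≠ s → p ≠ s → Function.Injective ![p, q, s] := by
    intro T p q s hpq hqs hps i j hij
    fin_cases i <;> fin_cases j
    · rfl
    · exact absurd hij hpq
    · exact absurd hij hps
    · exact absurd hij hpq.symm
    · rfl
    · exact absurd hij hqs
    · exact absurd hij hps.symm
    · exact absurd hij hqs.symm
    · rfl
  have e1 : push ![p, q, s] (pr 0 1) = φ w1 := by
    rw [push_pr, hφ1, t1]
    rfl
  have e2 : push ![p, q, s] (pr 1 2) = φ w2 := by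
    rw [push_pr, hφ2, t2]
    rfl
  have e1' : push ![p', q', s'] (pr 0 1) = ψ w1 := by
    rw [push_pr, hψ1, t1']
    rfl
  have e2' : push ![p', q', s'] (pr 1 2) = ψ w2 := by
    rw [push_pr, hψ2, t2']
    rfl
  refine ⟨3, ![p, q, s], ![p', q', s'], inj hpq hqs hps, inj hpq' hqs' hps', ?_, ?_⟩
  · intro w hw
    rcases span3 hKW hd h1 h1K h2 h2K h12 w hw with h | h | h | h
    · exact ⟨0, by rw [hφ w h, map_zero], by rw [hψ w h, map_zero]⟩
    · exact ⟨pr 0 1, by rw [e1, img_eq hφ h], by rw [e1', img_eq hψ h]⟩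
    · exact ⟨pr 1 2, by rw [e2, img_eq hφ h], by rw [e2', img_eq hψ h]⟩
    · refine ⟨pr 0 1 + pr 1 2, ?_, ?_⟩
      · rw [map_add, e1, e2, img_eq hφ h, map_add]
      · rw [map_add, e1', e2', img_eq hψ h, map_add]
  · intro y hy
    rcases even3 y hy with rfl | rfl | rfl | rfl
    · exact ⟨0, W.zero_mem, by rw [map_zero, map_zero]⟩
    · exact ⟨w1, h1, e1.symm⟩
    · exact ⟨w2, h2, e2.symm⟩
    · exact ⟨w1 + w2, W.add_mem h1 h2, by rw [map_add, map_add, e1, e2]⟩

theorem glue {K : Submodule F2 V} {X Z : Set V}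
    (hW : finrank F2 ↥(hat K X ⊓ hat K Z) ≤ finrank F2 K + 2)
    (hX : Graphic K (X ∪ ((hat K X ⊓ hat K Z : Submodule F2 V) : Set V)))
    (hZ : Graphic K (Z ∪ ((hat K X ⊓ hat K Z : Submodule F2 V) : Set V))) :
    Graphic K (X ∪ Z) := by
  classical
  obtain ⟨U, _, _, φ, hφ⟩ := hX
  obtain ⟨U', _, _, ψ, hψ⟩ := hZ
  have hXW : hat K (X ∪ ((hat K X ⊓ hat K Z : Submodule F2 V) : Set V)) = hat K X :=
    hat_union_of_subset _ _ _ fun v hv => hv.1
  have hZW : hat K (Z ∪ ((hat K X ⊓ hat K Z : Submodule F2 V) : Set V)) = hat K Z :=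
    hat_union_of_subset _ _ _ fun v hv => hv.2
  have hKW : K ≤ hat K X ⊓ hat K Z := le_inf (le_hat _ _) (le_hat _ _)
  have hφe : ∀ w ∈ hat K X ⊓ hat K Z, w ∉ K → ∃ u v, u ≠ v ∧ φ w = pr u v := by
    intro w hw hwK
    rcases hφ.edge w (Or.inr hw) with h | h
    · exact absurd (hφ.inj w (by rw [hXW]; exact hw.1) h) hwK
    · exact h
  have hψe : ∀ w ∈ hat K X ⊓ hat K Z, w ∉ K → ∃ u v, u ≠ v ∧ ψ w = pr u v := by
    intro w hw hwK
    rcases hψ.edge w (Or.inr hw) with h | h
    · exact absurd (hψ.inj w (by rw [hZW]; exact hw.2) h) hwK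
    · exact h
  obtain ⟨k, q, q', hq, hq', hm, he⟩ := exists_match hKW hW hφ.ker hψ.ker hφe hψe
  -- the vertices of the second graph in the glued graph
  let r : U' → U ⊕ U' := fun u' =>
    if h : ∃ i, q' i = u' then Sum.inl (q h.choose) else Sum.inr u'
  have r1 : ∀ i, r (q' i) = Sum.inl (q i) := by
    intro i
    have h : ∃ j, q' j = q' i := ⟨i, rfl⟩
    have h1 : r (q' i) = Sum.inl (q h.choose) := dif_pos h
    rw [h1, hq' h.choose_spec]
  have r2 : ∀ u', (¬ ∃ i, q' i = u') → r u' = Sum.inr u' := fun u' h => dif_neg h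
  have hr : Function.Injective r := by
    intro u v huv
    by_cases hu : ∃ i, q' i = u
    · obtain ⟨i, rfl⟩ := hu
      by_cases hv : ∃ i, q' i = v
      · obtain ⟨j, rfl⟩ := hv
        rw [r1, r1] at huv
        rw [hq (Sum.inl_injective huv)]
      · rw [r1, r2 v hv] at huv
        exact absurd huv Sum.inl_ne_inr
    · by_cases hv : ∃ i, q' i = v
      · obtain ⟨j, rfl⟩ := hv
        rw [r1, r2 u hu] at huv
        exact absurd huv Sum.inr_ne_inl
      · rw [r2 u hu, r2 v hv] at huv
        exact Sum.inr_injective huv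
  -- the two maps agree on the intersection
  have agree : ∀ w ∈ hat K X ⊓ hat K Z,
      push (Sum.inl : U → U ⊕ U') (φ w) = push r (ψ w) := by
    intro w hw
    obtain ⟨y, hy1, hy2⟩ := hm w hw
    rw [hy1, hy2, push_push, push_push]
    have h1 : (fun a => r (q' a)) = fun a => (Sum.inl (q a) : U ⊕ U') := funext r1
    rw [h1]
  obtain ⟨δ, hδ1, hδ2⟩ := exists_extend (K := hat K Z ⊓ hat K X) (A := hat K Z) (C := hat K X) rfl
    ((push r).comp ψ + (push (Sum.inl : U → U ⊕ U')).comp φ) (by
      intro v hv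
      rw [LinearMap.add_apply, LinearMap.comp_apply, LinearMap.comp_apply,
        agree v ⟨hv.2, hv.1⟩]
      exact add_self2 _)
  let Φ : V →ₗ[F2] (U ⊕ U' → F2) := δ + (push (Sum.inl : U → U ⊕ U')).comp φ
  have hΦX : ∀ v ∈ hat K X, Φ v = push (Sum.inl : U → U ⊕ U') (φ v) := by
    intro v hv
    show δ v + push (Sum.inl : U → U ⊕ U') (φ v) = _
    rw [hδ2 v hv, zero_add]
  have hΦZ : ∀ v ∈ hat K Z, Φ v = push r (ψ v) := by
    intro v hv
    show δ v + push (Sum.inl : U → U ⊕ U') (φ v) = _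
    rw [hδ1 v hv, LinearMap.add_apply, LinearMap.comp_apply, LinearMap.comp_apply, add_assoc,
      add_self2, add_zero]
  refine ⟨U ⊕ U', inferInstance, inferInstance, Φ, ?_, ?_, ?_⟩
  · intro v hv
    rw [hΦX v (le_hat _ _ hv), hφ.ker v hv, map_zero]
  · rintro x (hx | hx)
    · rw [hΦX x (subset_hat _ _ hx)]
      rcases hφ.edge x (Or.inl hx) with h | ⟨u, v, huv, h⟩
      · left
        rw [h, map_zero]
      · right
        refine ⟨Sum.inl u, Sum.inl v, fun h1 => huv (Sum.inl_injective h1), ?_⟩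
        rw [h, push_pr]
    · rw [hΦZ x (subset_hat _ _ hx)]
      rcases hψ.edge x (Or.inl hx) with h | ⟨u, v, huv, h⟩
      · left
        rw [h, map_zero]
      · right
        refine ⟨r u, r v, fun h1 => huv (hr h1), ?_⟩
        rw [h, push_pr]
  · intro v hv hΦ
    rw [hat_union, Submodule.mem_sup] at hv
    obtain ⟨x, hx, z, hz, rfl⟩ := hv
    rw [map_add, hΦX x hx, hΦZ z hz] at hΦ
    have hxz : push (Sum.inl : U → U ⊕ U') (φ x) = push r (ψ z) := by
      rw [← add_zero (push (Sum.inl : U → U ⊕ U') (φ x)), ← add_self2 (push r (ψ z)),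
        ← add_assoc, hΦ, zero_add]
    -- the image of `x` lives on the common vertices
    have hx0 : ∀ u, (∀ i, q i ≠ u) → φ x u = 0 := by
      intro u hu
      have h1 : φ x u = push (Sum.inl : U → U ⊕ U') (φ x) (Sum.inl u) :=
        (push_apply_of_inj Sum.inl_injective (φ x) u).symm
      rw [h1, hxz]
      refine push_apply_of_not _ ?_
      intro u' h2
      by_cases h3 : ∃ i, q' i = u'
      · obtain ⟨i, rfl⟩ := h3
        rw [r1] at h2
        exact hu i (Sum.inl_injective h2)
      · rw [r2 u' h3] at h2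
        exact absurd h2 Sum.inr_ne_inl
    have hxq : φ x = push q (fun i => φ x (q i)) := by
      funext u
      by_cases h1 : ∃ i, q i = u
      · obtain ⟨i, rfl⟩ := h1
        rw [push_apply_of_inj hq]
      · push Not at h1
        rw [hx0 u h1, push_apply_of_not _ h1]
    have hsum : ∑ i, φ x (q i) = 0 := by
      have h1 := hφ.sum_zero (x := x) (by rw [hXW]; exact hx)
      rw [← Finset.sum_image (f := fun u => φ x u) (g := q) (s := Finset.univ)
        (fun i _ j _ h => hq h), ← h1]
      refine Finset.sum_subset (Finset.subset_univ _) ?_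
      intro u _ hu
      refine hx0 u fun i hi => hu ?_
      exact Finset.mem_image.2 ⟨i, Finset.mem_univ i, hi⟩
    obtain ⟨w, hw, hw1⟩ := he _ hsum
    rw [← hxq] at hw1
    have hxw : x + w ∈ K := by
      refine hφ.inj _ ?_ ?_
      · rw [hXW]
        exact add_mem hx hw.1
      · rw [map_add, hw1]
        exact add_self2 _
    have hwz : w + z ∈ K := by
      refine hψ.inj _ ?_ ?_
      · rw [hZW]
        exact add_mem hw.2 hz
      · refine push_inj hr ?_
        rw [map_add, map_add, ← agree w hw, hw1, hxz]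
        exact add_self2 _
    have h5 : x + z = (x + w) + (w + z) := by
      rw [add_assoc, ← add_assoc w w z, add_self2, zero_add]
    rw [h5]
    exact add_mem hxw hwz

end Pool.Agent.HC
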