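import Pool.Agent.HC.BasB
import Pool.Agent.HC.Gr1
import Pool.Agent.HC.Gr4

/-!
# HC-Tr2: adding and removing one element of the span

Graphic with guts passes from `insert d Y` to `Y` if `d` is in the span of `Y` and the order is the
same, and from `Y.erase d` to `Y` if `d` is in the span of the complement of `Y` and the order of
`Y` is at most two.
-/

namespace Pool.Agent.HC

open Finset Module

variable {V : Type} [AddCommGroup V] [Module F2 V] [DecidableEq V] [FiniteDimensional F2 V]
  {K : Submodule F2 V} {S Y : Finset V}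

private theorem tr2_hat_insert (K : Submodule F2 V) (T : Set V) (x : V) (h : x ∈ hat K T) :
    hat K (insert x T) = hat K T := by
  refine le_antisymm (hat_le (le_hat K T) ?_) (hat_mono le_rfl (Set.subset_insert x T))
  intro y hy
  rcases Set.mem_insert_iff.1 hy with rfl | hy
  · exact h
  · exact subset_hat K T hy

private theorem tr2_w0 {G : Submodule F2 V} (hKG : K ≤ G)
    (hG : finrank F2 G ≤ finrank F2 K + 1) : ∃ w0 ∈ G, G ≤ hat K {w0} := by
  by_cases h : G ≤ K
  · exact ⟨0, G.zero_mem, h.trans (le_hat K _)⟩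
  · obtain ⟨w0, hw, hwK⟩ := SetLike.not_le_iff_exists.1 h
    refine ⟨w0, hw, ?_⟩
    have h1 : hat K {w0} ≤ G := hat_le hKG (Set.singleton_subset_iff.2 hw)
    have h2 := finrank_hat_singleton K w0 hwK
    exact (Submodule.eq_of_le_of_finrank_le h1 (by omega)).ge

theorem grL_of_insert {d : V} (hY : Y ⊆ S) (hd : d ∈ S) (hdY : d ∈ hat K (Y : Set V))
    (hl : lam K S (insert d Y) = lam K S Y) (hg : GrL K S (insert d Y)) : GrL K S Y := by
  have h1 : guts K S (insert d Y) ≤ guts K S Y := by
    unfold guts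
    refine inf_le_inf ?_ ?_
    · rw [coe_insert, tr2_hat_insert _ _ _ hdY]
    · exact hat_mono le_rfl (coe_subset.2 (sdiff_subset_sdiff le_rfl (subset_insert d Y)))
  have h2 := lam_add K S Y
  have h3 := lam_add K S (insert d Y)
  have h4 : guts K S (insert d Y) = guts K S Y :=
    Submodule.eq_of_le_of_finrank_eq h1 (by omega)
  unfold GrL at hg ⊢
  rw [h4] at hg
  refine hg.mono (Set.union_subset_union_left _ ?_)
  exact coe_subset.2 (subset_insert d Y)

theorem grL_of_erase {d : V} (hY : Y ⊆ S) (hd : d ∈ Y)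
    (hdY : d ∈ hat K ((S \ Y : Finset V) : Set V)) (hl : lam K S Y ≤ 2)
    (hg : GrL K S (Y.erase d)) : GrL K S Y := by
  obtain ⟨Y', hY'⟩ : ∃ Y', Y' = Y.erase d := ⟨_, rfl⟩
  have hYi : Y = insert d Y' := by rw [hY', insert_erase hd]
  have hS : S \ Y' = insert d (S \ Y) := by
    ext y
    simp only [hY', mem_sdiff, mem_insert, mem_erase]
    constructor
    · rintro ⟨h1, h2⟩
      by_cases h : y = d
      · exact Or.inl h
      · exact Or.inr ⟨h1, fun h3 => h2 ⟨h, h3⟩⟩
    · rintro (h | ⟨h1, h2⟩)
      · subst h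
        exact ⟨hY hd, fun h => h.1 rfl⟩
      · exact ⟨h1, fun h => h2 h.2⟩
  have hC : hat K ((S \ Y' : Finset V) : Set V) = hat K ((S \ Y : Finset V) : Set V) := by
    rw [hS, coe_insert, tr2_hat_insert _ _ _ hdY]
  have hdC : hat K {d} ≤ hat K ((S \ Y : Finset V) : Set V) :=
    hat_le (le_hat _ _) (Set.singleton_subset_iff.2 hdY)
  have hgY : guts K S Y = hat K {d} ⊔ guts K S Y' := by
    have h1 := sup_inf_of_le (B := hat K (Y' : Set V)) hdC
    have h2 : hat K (Y : Set V) = hat K {d} ⊔ hat K (Y' : Set V) := by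
      rw [hYi, coe_insert, hat_insert, sup_comm]
    unfold guts
    rw [hC, h2, h1]
  rw [← hY'] at hg
  unfold GrL at hg ⊢
  by_cases hd' : d ∈ hat K (Y' : Set V)
  · have hdg : d ∈ guts K S Y' := by
      refine Submodule.mem_inf.2 ⟨hd', ?_⟩
      rw [hC]
      exact hdY
    have h1 : guts K S Y = guts K S Y' := by
      rw [hgY, sup_eq_right]
      exact hat_le (le_guts K S Y') (Set.singleton_subset_iff.2 hdg)
    refine hg.mono ?_
    rw [h1]
    rintro x (hx | hx)
    · rw [hYi, coe_insert] at hx
      rcases Set.mem_insert_iff.1 hx with rfl | hx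
      · exact Or.inr hdg
      · exact Or.inl hx
    · exact Or.inr hx
  · have hdg : d ∉ guts K S Y' := fun h => hd' (Submodule.mem_inf.1 h).1
    have h0 : guts K S Y = hat (guts K S Y') {d} := by
      rw [hgY]
      unfold hat
      rw [sup_comm K, sup_assoc, sup_eq_right.2 (le_guts K S Y'), sup_comm]
    have h1 := finrank_hat_singleton (guts K S Y') d hdg
    rw [← h0] at h1
    have h2 := lam_add K S Y
    obtain ⟨w0, hw0, hwG⟩ := tr2_w0 (le_guts K S Y') (by omega : finrank F2 (guts K S Y') ≤ _)
    have h3 : Graphic K ((Y' : Set V) ∪ {w0}) := by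
      refine hg.mono (Set.union_subset_union_right _ ?_)
      exact Set.singleton_subset_iff.2 hw0
    have h4 := pendant (Submodule.mem_inf.1 hw0).1 hd' h3
    refine h4.of_par ?_
    rintro x (hx | hx)
    · right
      refine ⟨x, ?_, by rw [add_self2]; exact K.zero_mem⟩
      rw [hYi, coe_insert] at hx
      rcases Set.mem_insert_iff.1 hx with rfl | hx
      · exact Or.inr (Or.inr (Or.inl rfl))
      · exact Or.inl hx
    · have hx' : x ∈ hat (guts K S Y') {d} := by rw [← h0]; exact hx
      rcases (mem_hat_singleton _ _ _).1 hx' with h5 | h5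
      · rcases (mem_hat_singleton _ _ _).1 (hwG h5) with h6 | h6
        · exact Or.inl h6
        · exact Or.inr ⟨w0, Or.inr (Or.inl rfl), h6⟩
      · rcases (mem_hat_singleton _ _ _).1 (hwG h5) with h6 | h6
        · exact Or.inr ⟨d, Or.inr (Or.inr (Or.inl rfl)), h6⟩
        · refine Or.inr ⟨w0 + d, Or.inr (Or.inr (Or.inr rfl)), ?_⟩
          have e : x + (w0 + d) = x + d + w0 := by abel
          rw [e]
          exact h6

end Pool.Agent.HC
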