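import Pool.Agent.HC.Tr1
import Pool.Agent.HC.Tr2

/-!
# HC-Tr3: the transfer theorem (1.1 of the paper proof)

Let `Y` be `sm2`, `lam'' Y ≤ 2` (`''` means in `(hat K F, (S \ X) ∪ D)`). Cases:
* `Y` disjoint from `D` (then `Y ⊆ S \ X`): `lam K S Y = lam'' Y ≤ 2` (`lam_a`), `sm Y` (`h1`), so
  `GrL K S Y`, `gl_a`.
* `D ⊆ Y`: `h2`, `lam_b`, `gl_b`.
* otherwise `1 ≤ (Y ∩ D).card < D.card = 2 ^ j - 1`, so `j = 2`, `D` has three elements, and
  `d1 + d2 + d3 ∈ hat K F` for `D = {d1, d2, d3}`: the three classes are those of the three nonzero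
  elements of `W / K` (`DW`, `WD`, `rank`; different elements of `D` have different classes by
  counting: `WD` maps the three nonzero classes of `W` modulo `K` injectively (`Fz`) to `D`).
  - two elements of `D` in `Y`: the third, `d`, is in `hat'' Y`; `insert d Y = Y ∪ D`;
    `lam'' (Y ∪ D) ≤ lam'' Y ≤ 2` (`lam_insert_le`), so `sm2 (Y ∪ D)` (`h3`), so
    `sm (((Y ∪ D) \ D) ∪ X)` (`h2`), which has at least two elements (`D ⊆ X` has three), so
    `2 ≤ lam K S _ = lam'' (Y ∪ D)` (`dag`, `lam_b`). So the two `lam''` are equal (both 2), `GrL''` of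
    `Y ∪ D` holds by the case `D ⊆ Y`, and `grL_of_insert` applies.
  - one element `d` of `D` in `Y`: `d` is in the span of the complement; `Y.erase d` is disjoint from
    `D`, `sm2`, `lam'' (Y.erase d) ≤ lam'' Y ≤ 2` (`lam_erase_le`); first case; `grL_of_erase`.
-/

namespace Pool.Agent.HC

open Finset Module

variable {V : Type} [AddCommGroup V] [Module F2 V] [DecidableEq V] [FiniteDimensional F2 V]
  {K : Submodule F2 V} {S X F D : Finset V} {j : ℕ}

/-- the three elements of `D` sum to zero modulo `F` -/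
private theorem three (h : TD K S X F D 2) :
    ∃ a b c, a ≠ b ∧ a ≠ c ∧ b ≠ c ∧ D = {a, b, c} ∧ a + (b + c) ∈ hat K (F : Set V) := by
  have hr := h.rank
  have hex : ∀ L : Submodule F2 V, finrank F2 L < finrank F2 (guts K S X) →
      ∃ w ∈ guts K S X, w ∉ L := by
    intro L hL
    by_contra hn
    push Not at hn
    have h1 : guts K S X ≤ L := fun w hw => hn w hw
    have h2 := Submodule.finrank_mono h1
    omega
  obtain ⟨u1, hu1, hu1K⟩ := hex K (by omega)
  obtain ⟨u2, hu2, hu2K⟩ := hex (hat K {u1}) (by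
    rw [finrank_hat_singleton _ _ hu1K]
    omega)
  rw [mem_hat_singleton] at hu2K
  push Not at hu2K
  obtain ⟨hu2K, hu21⟩ := hu2K
  have hu12 : u1 + u2 ∉ K := by
    rw [add_comm]
    exact hu21
  obtain ⟨e1, he1, hs1⟩ := h.WD u1 hu1 hu1K
  obtain ⟨e2, he2, hs2⟩ := h.WD u2 hu2 hu2K
  obtain ⟨e3, he3, hs3⟩ := h.WD (u1 + u2) (add_mem hu1 hu2) hu12
  -- elements of the guts in the span of `F` are zero
  have hz : ∀ e x y, x ∈ guts K S X → y ∈ guts K S X → e + x ∈ hat K (F : Set V) →
      e + y ∈ hat K (F : Set V) → x + y ∈ K := by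
    intro e x y hx hy h1 h2
    rw [← h.Fz]
    refine ⟨?_, add_mem hx.2 hy.2⟩
    have h3 := add_mem h1 h2
    have h4 : e + x + (e + y) = x + y := by
      have h5 : e + x + (e + y) = (e + e) + (x + y) := by abel
      rw [h5, add_self2, zero_add]
    rw [h4] at h3
    exact h3
  have n12 : e1 ≠ e2 := by
    rintro rfl
    exact hu12 (hz _ _ _ hu1 hu2 hs1 hs2)
  have n13 : e1 ≠ e3 := by
    rintro rfl
    have h1 := hz _ _ _ hu1 (add_mem hu1 hu2) hs1 hs3
    rw [← add_assoc, add_self2, zero_add] at h1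
    exact hu2K h1
  have n23 : e2 ≠ e3 := by
    rintro rfl
    have h1 := hz _ _ _ hu2 (add_mem hu1 hu2) hs2 hs3
    have h2 : u2 + (u1 + u2) = u1 := by
      have h3 : u2 + (u1 + u2) = u1 + (u2 + u2) := by abel
      rw [h3, add_self2, add_zero]
    rw [h2] at h1
    exact hu1K h1
  refine ⟨e1, e2, e3, n12, n13, n23, ?_, ?_⟩
  · symm
    refine Finset.eq_of_subset_of_card_le ?_ ?_
    · intro x hx
      simp only [Finset.mem_insert, Finset.mem_singleton] at hx
      rcases hx with rfl | rfl | rfl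
      · exact he1
      · exact he2
      · exact he3
    · have m1 : e2 ∉ ({e3} : Finset V) := by
        rw [Finset.mem_singleton]
        exact n23
      have m2 : e1 ∉ ({e2, e3} : Finset V) := by
        rw [Finset.mem_insert, Finset.mem_singleton]
        push Not
        exact ⟨n12, n13⟩
      rw [h.card, Finset.card_insert_of_notMem m2, Finset.card_insert_of_notMem m1,
        Finset.card_singleton]
      norm_num
  · have h1 := add_mem hs1 (add_mem hs2 hs3)
    have h2 : e1 + u1 + (e2 + u2 + (e3 + (u1 + u2))) = e1 + (e2 + e3) := by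
      have h3 : e1 + u1 + (e2 + u2 + (e3 + (u1 + u2))) =
          e1 + (e2 + e3) + ((u1 + u2) + (u1 + u2)) := by abel
      rw [h3, add_self2, add_zero]
    rw [h2] at h1
    exact h1

private theorem triple (h : TD K S X F D 2) {d : V} (hd : d ∈ D) :
    ∃ a b, a ∈ D ∧ b ∈ D ∧ a ≠ d ∧ b ≠ d ∧ (∀ x ∈ D, x = d ∨ x = a ∨ x = b) ∧
      d + (a + b) ∈ hat K (F : Set V) := by
  obtain ⟨a, b, c, hab, hac, hbc, hD, hs⟩ := three h
  have ha : a ∈ D := by rw [hD]; simp
  have hb : b ∈ D := by rw [hD]; simp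
  have hc : c ∈ D := by rw [hD]; simp
  have hall : ∀ x ∈ D, x = a ∨ x = b ∨ x = c := by
    intro x hx
    rw [hD] at hx
    simpa using hx
  rcases hall d hd with rfl | rfl | rfl
  · exact ⟨b, c, hb, hc, hab.symm, hac.symm, hall, hs⟩
  · refine ⟨a, c, ha, hc, hab, hbc.symm, ?_, ?_⟩
    · intro x hx
      rcases hall x hx with h1 | h1 | h1
      · exact Or.inr (Or.inl h1)
      · exact Or.inl h1
      · exact Or.inr (Or.inr h1)
    · have h1 : d + (a + c) = a + (d + c) := by abel
      rw [h1]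
      exact hs
  · refine ⟨a, b, ha, hb, hac, hbc, ?_, ?_⟩
    · intro x hx
      rcases hall x hx with h1 | h1 | h1
      · exact Or.inr (Or.inl h1)
      · exact Or.inr (Or.inr h1)
      · exact Or.inl h1
    · have h1 : d + (a + b) = a + (b + d) := by abel
      rw [h1]
      exact hs

theorem transfer (h : TD K S X F D j) (hj : j ≤ 2) (sm sm2 : Finset V → Prop)
    (gl : ∀ Y, sm Y → lam K S Y ≤ 2 → GrL K S Y)
    (dag : j = 2 → ∀ Y, sm Y → 2 ≤ Y.card → 2 ≤ lam K S Y)
    (sub2 : ∀ Y Y', sm2 Y → Y' ⊆ Y → sm2 Y') (s2 : ∀ Y, sm2 Y → Y ⊆ (S \ X) ∪ D)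
    (h1 : ∀ Y, sm2 Y → Disjoint Y D → sm Y) (h2 : ∀ Y, sm2 Y → D ⊆ Y → sm ((Y \ D) ∪ X))
    (h3 : ∀ Y, sm2 Y → lam (hat K (F : Set V)) ((S \ X) ∪ D) (Y ∪ D) ≤ 2 → sm2 (Y ∪ D))
    (Y : Finset V) (hY : sm2 Y) (hl : lam (hat K (F : Set V)) ((S \ X) ∪ D) Y ≤ 2) :
    GrL (hat K (F : Set V)) ((S \ X) ∪ D) Y := by
  have hYS := s2 Y hY
  -- sets which avoid `D`
  have caseA : ∀ Y, sm2 Y → Disjoint Y D → lam (hat K (F : Set V)) ((S \ X) ∪ D) Y ≤ 2 →
      GrL (hat K (F : Set V)) ((S \ X) ∪ D) Y := by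
    intro Y hY hdis hl
    have hYX : Y ⊆ S \ X := by
      intro y hy
      rcases Finset.mem_union.1 (s2 Y hY hy) with h4 | h4
      · exact h4
      · exact absurd h4 (Finset.disjoint_left.1 hdis hy)
    refine h.gl_a hYX (gl Y (h1 Y hY hdis) ?_)
    rw [← h.lam_a hYX]
    exact hl
  -- sets which contain `D`
  have caseB : ∀ Y, sm2 Y → D ⊆ Y → lam (hat K (F : Set V)) ((S \ X) ∪ D) Y ≤ 2 →
      GrL (hat K (F : Set V)) ((S \ X) ∪ D) Y := by
    intro Y hY hD hl
    refine h.gl_b (s2 Y hY) hD (gl _ (h2 Y hY hD) ?_)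
    rw [← h.lam_b (s2 Y hY) hD]
    exact hl
  by_cases hdis : Disjoint Y D
  · exact caseA Y hY hdis hl
  by_cases hDY : D ⊆ Y
  · exact caseB Y hY hDY hl
  -- the mixed case
  obtain ⟨d, hdD, hdY⟩ := Finset.not_subset.1 hDY
  obtain ⟨e, heY, heD⟩ := Finset.not_disjoint_iff.1 hdis
  have hj2 : j = 2 := by
    have h4 : ({d, e} : Finset V) ⊆ D := by
      intro x hx
      rw [Finset.mem_insert, Finset.mem_singleton] at hx
      rcases hx with rfl | rfl
      · exact hdD
      · exact heD
    have h5 : ({d, e} : Finset V).card = 2 := by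
      rw [Finset.card_insert_of_notMem, Finset.card_singleton]
      rw [Finset.mem_singleton]
      rintro rfl
      exact hdY heY
    have h6 := Finset.card_le_card h4
    rw [h5, h.card] at h6
    interval_cases j
    · norm_num at h6
    · norm_num at h6
    · rfl
  subst hj2
  by_cases htwo : ∀ x ∈ D, x ≠ d → x ∈ Y
  · -- two elements of `D` in `Y`
    obtain ⟨a, b, ha, hb, had, hbd, hall, hs⟩ := triple h hdD
    have haY := htwo a ha had
    have hbY := htwo b hb hbd
    have hdS : d ∈ (S \ X) ∪ D := Finset.mem_union_right _ hdD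
    have hdh : d ∈ hat (hat K (F : Set V)) (Y : Set V) := by
      have h4 : d = (d + (a + b)) + (a + b) := by
        rw [add_assoc, add_self2, add_zero]
      rw [h4]
      exact add_mem (le_hat _ _ hs) (add_mem (subset_hat _ _ (Finset.mem_coe.2 haY))
        (subset_hat _ _ (Finset.mem_coe.2 hbY)))
    have hins : insert d Y = Y ∪ D := by
      ext x
      rw [Finset.mem_insert, Finset.mem_union]
      constructor
      · rintro (rfl | h4)
        · exact Or.inr hdD
        · exact Or.inl h4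
      · rintro (h4 | h4)
        · exact Or.inr h4
        · by_cases h5 : x = d
          · exact Or.inl h5
          · exact Or.inr (htwo x h4 h5)
    have hle := lam_insert_le hYS hdS hdh
    have hle2 : lam (hat K (F : Set V)) ((S \ X) ∪ D) (Y ∪ D) ≤ 2 := by
      rw [← hins]
      omega
    have hsm := h3 Y hY hle2
    have hDs : D ⊆ Y ∪ D := Finset.subset_union_right
    have hsm' := h2 _ hsm hDs
    have hcard : 2 ≤ (((Y ∪ D) \ D) ∪ X).card := by
      have h4 : D.card ≤ (((Y ∪ D) \ D) ∪ X).card :=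
        Finset.card_le_card (h.DX.trans Finset.subset_union_right)
      have h5 := h.card
      norm_num at h5
      omega
    have hge := dag rfl _ hsm' hcard
    rw [← h.lam_b (s2 _ hsm) hDs] at hge
    have heq : lam (hat K (F : Set V)) ((S \ X) ∪ D) (insert d Y) =
        lam (hat K (F : Set V)) ((S \ X) ∪ D) Y := by
      rw [hins]
      rw [hins] at hle
      omega
    refine grL_of_insert hYS hdS hdh heq ?_
    rw [hins]
    exact caseB _ hsm hDs hle2
  · -- one element of `D` in `Y`
    push Not at htwo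
    obtain ⟨c, hcD, hcd, hcY⟩ := htwo
    obtain ⟨a, b, ha, hb, hae, hbe, hall, hs⟩ := triple h heD
    have hde : d ≠ e := by
      rintro rfl
      exact hdY heY
    have hce : c ≠ e := by
      rintro rfl
      exact hcY heY
    have habY : a ∉ Y ∧ b ∉ Y := by
      rcases hall d hdD with h4 | h4 | h4
      · exact absurd h4 hde
      · rcases hall c hcD with h5 | h5 | h5
        · exact absurd h5 hce
        · exact absurd (h5.trans h4.symm) hcd
        · rw [← h4, ← h5]
          exact ⟨hdY, hcY⟩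
      · rcases hall c hcD with h5 | h5 | h5
        · exact absurd h5 hce
        · rw [← h4, ← h5]
          exact ⟨hcY, hdY⟩
        · exact absurd (h5.trans h4.symm) hcd
    have heh : e ∈ hat (hat K (F : Set V)) ((((S \ X) ∪ D) \ Y : Finset V) : Set V) := by
      have h4 : e = (e + (a + b)) + (a + b) := by
        rw [add_assoc, add_self2, add_zero]
      rw [h4]
      refine add_mem (le_hat _ _ hs) (add_mem (subset_hat _ _ ?_) (subset_hat _ _ ?_))
      · rw [Finset.mem_coe, Finset.mem_sdiff]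
        exact ⟨Finset.mem_union_right _ ha, habY.1⟩
      · rw [Finset.mem_coe, Finset.mem_sdiff]
        exact ⟨Finset.mem_union_right _ hb, habY.2⟩
    refine grL_of_erase hYS heY heh hl ?_
    refine caseA _ (sub2 Y _ hY (Finset.erase_subset _ _)) ?_ ?_
    · rw [Finset.disjoint_left]
      intro x hx hxD
      rw [Finset.mem_erase] at hx
      rcases hall x hxD with h4 | h4 | h4
      · exact hx.1 h4
      · rw [h4] at hx
        exact habY.1 hx.2
      · rw [h4] at hx
        exact habY.2 hx.2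
    · exact (lam_erase_le hYS heY heh).trans hl

end Pool.Agent.HC
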