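import Pool.Agent.HC.Lv1D
import Pool.Agent.HC.Tr3

/-!
# HC-Lv1a: level one, the reduction property of a smallest counterexample

`sm := fun X => X ⊆ S \ B`. All fields of `MinCex` are clear except `red`. Let `X ⊆ S \ B`,
`TD K S X F D j`. Put `S'' = (S \ X) ∪ D`, `L = hat K F`. `B ⊆ S \ X ⊆ S''`. `IsClique L f B`: by
`IsClique.mono`, `hat K B ⊓ L ≤ hat K (S \ X) ⊓ L = K` (`Fz`). No `O_m`: `HasO.mono` (`F ⊆ X ⊆ S`,
`S'' ⊆ S`). Graph-likeness: `transfer` with `sm2 := fun Y => Y ⊆ S'' \ B`: `h1`: `Y` disjoint from `D` is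
contained in `S \ X`, so in `S \ B`; `h2`: `(Y \ D) ∪ X ⊆ S \ B`; `h3`: `D ⊆ X` is disjoint from `B`.
`dag` is the hypothesis of `red`. Then the induction hypothesis `ih` for `(L, S'')`.
-/

namespace Pool.Agent.HC

open Finset Module

variable {V : Type} [AddCommGroup V] [Module F2 V] [DecidableEq V] [FiniteDimensional F2 V]

theorem Hyp1.minCex {m n : ℕ} {K : Submodule F2 V} {S B : Finset V} {f : Fin n → V}
    (h : Hyp1 m K S B f)
    (ih : ∀ (L : Submodule F2 V) (S' B' : Finset V) (f' : Fin n → V), S'.card < S.card →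
      Hyp1 m L S' B' f' → Graphic L (S' : Set V))
    (nz : ∀ x ∈ S, x ∉ K) (npar : ∀ x ∈ S, ∀ y ∈ S, x + y ∈ K → x = y)
    (ng : ¬ Graphic K (S : Set V)) : MinCex K S (fun X => X ⊆ S \ B) := by
  refine ⟨fun X Y hX hY => hY.trans hX, fun X hX => hX.trans Finset.sdiff_subset, h.gl, nz, npar,
    ng, ?_⟩
  intro X F D j hX hTD hj dag hcard
  have hX' : X ⊆ S \ B := hX
  have hXB : ∀ x ∈ X, x ∉ B := fun x hx => (Finset.mem_sdiff.1 (hX' hx)).2
  have hBX : B ⊆ S \ X := fun b hb =>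
    Finset.mem_sdiff.2 ⟨h.BS hb, fun hbX => hXB b hbX hb⟩
  have hDX : D ⊆ S := hTD.DX.trans hTD.XS
  have hFS : F ⊆ S := hTD.FX.trans hTD.XS
  have hDB : ∀ x ∈ D, x ∉ B := fun x hx => hXB x (hTD.DX hx)
  have hSS : (S \ X) ∪ D ⊆ S := Finset.union_subset Finset.sdiff_subset hDX
  have hL : hat K (B : Set V) ⊓ hat K (F : Set V) = K := by
    apply le_antisymm
    · have h1 : hat K (B : Set V) ≤ hat K ((S \ X : Finset V) : Set V) :=
        hat_mono le_rfl (Finset.coe_subset.2 hBX)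
      intro v hv
      have h2 : v ∈ hat K (F : Set V) ⊓ hat K ((S \ X : Finset V) : Set V) := ⟨hv.2, h1 hv.1⟩
      rwa [hTD.Fz] at h2
    · exact le_inf (le_hat K _) (le_hat K _)
  have hyp : Hyp1 m (hat K (F : Set V)) ((S \ X) ∪ D) B f := by
    refine ⟨h.cl.mono (le_hat K _) hL, hBX.trans Finset.subset_union_left,
      fun hO => h.no (hO.mono hFS hSS), ?_⟩
    intro Y hY hl
    refine transfer hTD hj (fun X => X ⊆ S \ B) (fun Y => Y ⊆ ((S \ X) ∪ D) \ B) h.gl dag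
      (fun Y Y' hY hY' => hY'.trans hY) (fun Y hY => hY.trans Finset.sdiff_subset) ?_ ?_ ?_ Y hY hl
    · intro Y hY hd y hy
      have h1 := Finset.mem_sdiff.1 (hY hy)
      have h2 : y ∉ D := fun hyD => (Finset.disjoint_left.1 hd) hy hyD
      rcases Finset.mem_union.1 h1.1 with h3 | h3
      · exact Finset.mem_sdiff.2 ⟨(Finset.mem_sdiff.1 h3).1, h1.2⟩
      · exact absurd h3 h2
    · intro Y hY _ y hy
      rcases Finset.mem_union.1 hy with h3 | h3
      · have h4 := Finset.mem_sdiff.1 h3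
        have h1 := Finset.mem_sdiff.1 (hY h4.1)
        exact Finset.mem_sdiff.2 ⟨hSS h1.1, h1.2⟩
      · exact hX' h3
    · intro Y hY _ y hy
      rcases Finset.mem_union.1 hy with h3 | h3
      · exact hY h3
      · exact Finset.mem_sdiff.2 ⟨Finset.mem_union_right _ h3, hDB y h3⟩
  exact ih _ _ B f hcard hyp

end Pool.Agent.HC
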