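import Pool.Agent.HC.Lv1D
import Pool.Agent.HC.Con2
import Pool.Agent.HC.Con5
import Pool.Agent.HC.Gr2
import Pool.Agent.HC.Link

/-!
# HC-Lv1b: level one, contraction of an element outside the span of the clique (1.5)

Prove `Hyp1 m (hat K {e}) (S.erase e) B f`, then use `ih` (`(S.erase e).card < S.card`).
Clique: `IsClique.mono` with `L = hat K {e}`: `hat K B ⊓ hat K {e} = K` because `e ∉ hat K B`
(`mem_hat_singleton`). No `O_m`: `HasO.mono` with `F = {e}`. `e ∉ B`. Graph-likeness: `X ⊆ S.erase e \ B`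
with `lam' X ≤ 2`. If `X.card ≤ 3`: `grL_of_card_le_three`. Let `4 ≤ X.card`, `A = insert e X ⊆ S \ B`.
`Tight.contract_pre`: `lam K S A = 3`, `e ∈ hat K (S \ A)`.
`linking K (hat K B) (S \ B) A 3`: for `A ⊆ Y ⊆ S \ B`: `hat K ((S \ B) \ Y) ⊔ hat K B = hat K (S \ Y)`, so
the space is `guts K S Y`, and `3 ≤ lam K S Y` because `4 ≤ Y.card` (`ht.c3`, contrapositive). It
gives `F ⊆ (S \ B) \ A`; `L := hat K F`; `hat K A ⊓ L = K`, `hat K B ⊓ L = K`, `L ≤ hat K (S \ A)`, and the
dimension condition `finrank L + 3 ≤ finrank (hat L A ⊓ hat L B)` (`hat_hat`, `hat_union`).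
The configuration `(L, A ∪ B)` has fewer elements: otherwise `A ∪ B = S`, `S \ A = B`, and
`e ∈ hat K (S \ A) = hat K B`, contradiction. It satisfies `Hyp1`: clique by `IsClique.mono`, no `O_m` by
`HasO.mono`; for `Y ⊆ (A ∪ B) \ B = A` with `lam L (A ∪ B) Y ≤ 2`: `lam K S Y ≤ 2` (`rooted_lam`), so
`Y.card ≤ 3` (`ht.c3`), so `grL_of_card_le_three`. By `ih` it is graphic, and `grL_contract` (n ≥ 3)
finishes.
-/

namespace Pool.Agent.HC

open Finset Module

variable {V : Type} [AddCommGroup V] [Module F2 V] [DecidableEq V] [FiniteDimensional F2 V]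

private theorem c1_sup {K : Submodule F2 V} {S B Y : Finset V} (hB : B ⊆ S) (hY : Y ⊆ S \ B) :
    hat K (((S \ B) \ Y : Finset V) : Set V) ⊔ hat K (B : Set V) =
      hat K ((S \ Y : Finset V) : Set V) := by
  rw [← hat_union, ← Finset.coe_union]
  congr 2
  ext x
  simp only [Finset.mem_union, Finset.mem_sdiff]
  constructor
  · rintro (⟨⟨h1, h2⟩, h3⟩ | h)
    · exact ⟨h1, h3⟩
    · exact ⟨hB h, fun h' => (Finset.mem_sdiff.1 (hY h')).2 h⟩
  · rintro ⟨h1, h2⟩
    by_cases h : x ∈ B
    · exact Or.inr h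
    · exact Or.inl ⟨⟨h1, h⟩, h2⟩

theorem Hyp1.contract {m n : ℕ} (hn : 3 ≤ n) {K : Submodule F2 V} {S B : Finset V}
    {f : Fin n → V} (h : Hyp1 m K S B f)
    (ih : ∀ (L : Submodule F2 V) (S' B' : Finset V) (f' : Fin n → V), S'.card < S.card →
      Hyp1 m L S' B' f' → Graphic L (S' : Set V))
    (ht : Tight K S (fun X => X ⊆ S \ B)) {e : V} (he : e ∈ S) (heB : e ∉ hat K (B : Set V)) :
    Graphic (hat K {e}) ((S.erase e : Finset V) : Set V) := by
  have heK : e ∉ K := ht.nz e he
  have heB' : e ∉ B := fun h' => heB (subset_hat K (B : Set V) h')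
  have hBe : hat K (B : Set V) ⊓ hat K {e} = K := by
    apply le_antisymm
    · rintro v ⟨h1, h2⟩
      rcases (mem_hat_singleton K e v).1 h2 with h3 | h3
      · exact h3
      · exfalso
        apply heB
        have h4 : e + v ∈ hat K (B : Set V) := by
          rw [add_comm]; exact le_hat K (B : Set V) h3
        exact mem_of_add_mem2 h4 h1
    · exact le_inf (le_hat K _) (le_hat K _)
  refine ih (hat K {e}) (S.erase e) B f (Finset.card_erase_lt_of_mem he) ⟨?_, ?_, ?_, ?_⟩
  · exact h.cl.mono (le_hat K _) hBe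
  · intro b hb
    exact Finset.mem_erase.2 ⟨fun h' => heB' (h' ▸ hb), h.BS hb⟩
  · intro hO
    apply h.no
    have hO' : HasO m (hat K (({e} : Finset V) : Set V)) (S.erase e) := by
      rw [Finset.coe_singleton]; exact hO
    exact hO'.mono (Finset.singleton_subset_iff.2 he) (Finset.erase_subset e S)
  · intro X hX hl
    by_cases hc3 : X.card ≤ 3
    · exact grL_of_card_le_three hc3 hl
    have hc : 4 ≤ X.card := by omega
    have heX : e ∉ X := fun h' => (Finset.mem_erase.1 (Finset.mem_sdiff.1 (hX h')).1).1 rfl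
    have hXS : X ⊆ S \ B := fun x hx =>
      Finset.mem_sdiff.2 ⟨(Finset.mem_erase.1 (Finset.mem_sdiff.1 (hX hx)).1).2,
        (Finset.mem_sdiff.1 (hX hx)).2⟩
    have hA : insert e X ⊆ S \ B :=
      Finset.insert_subset (Finset.mem_sdiff.2 ⟨he, heB'⟩) hXS
    obtain ⟨h1, h2, h3, -, -⟩ := ht.contract_pre he hA heX hc hl
    have h3Y : ∀ Y, insert e X ⊆ Y → Y ⊆ S \ B → 3 ≤ lam K S Y := by
      intro Y hAY hY
      by_contra hlt
      have := ht.c3 Y hY (by omega)
      have h4 : X.card ≤ Y.card :=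
        Finset.card_le_card ((Finset.subset_insert e X).trans hAY)
      omega
    obtain ⟨F, hF, hFA, hFB, hFd⟩ := linking K (hat K (B : Set V)) (le_hat K _) (S \ B)
      (insert e X) hA 3 (by
        intro Y hAY hY
        rw [c1_sup h.BS hY]
        have h4 := lam_add K S Y
        have h5 := h3Y Y hAY hY
        unfold guts at h4
        omega)
    have hBA : B ⊆ S \ insert e X := fun b hb => Finset.mem_sdiff.2 ⟨h.BS hb,
      fun h' => (Finset.mem_sdiff.1 (hA h')).2 hb⟩
    have hAS : insert e X ⊆ S := hA.trans Finset.sdiff_subset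
    have hFS : F ⊆ S := hF.trans (Finset.sdiff_subset.trans Finset.sdiff_subset)
    have hLZ : hat K (F : Set V) ≤ hat K ((S \ insert e X : Finset V) : Set V) := by
      apply hat_mono le_rfl
      intro x hx
      have hx' : x ∈ F := hx
      have := Finset.mem_sdiff.1 (hF hx')
      exact Finset.mem_coe.2 (Finset.mem_sdiff.2 ⟨hFS hx', this.2⟩)
    have hcl : IsClique (hat K (F : Set V)) f B := h.cl.mono (le_hat K _) hFB
    have hdim : finrank F2 (hat K (F : Set V)) + 3 ≤
        finrank F2 ↥(hat (hat K (F : Set V)) ((insert e X : Finset V) : Set V) ⊓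
          hat (hat K (F : Set V)) (B : Set V)) := by
      rw [hat_hat, hat_hat, hat_union K (F : Set V) (B : Set V), ← Finset.coe_union]
      exact hFd
    have hAB : insert e X ∪ B ⊆ S := Finset.union_subset hAS h.BS
    refine grL_contract ht he hA heX hc hl hn hBA (le_hat K _) hLZ hFA hcl hdim ?_
    refine ih (hat K (F : Set V)) (insert e X ∪ B) B f ?_ ⟨hcl, Finset.subset_union_right, ?_, ?_⟩
    · apply Finset.card_lt_card
      refine ⟨hAB, fun hS => ?_⟩
      apply heB
      refine hat_mono (le_refl K) ?_ h2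
      intro x hx
      have hx' := Finset.mem_sdiff.1 (Finset.mem_coe.1 hx)
      rcases Finset.mem_union.1 (hS hx'.1) with h5 | h5
      · exact absurd h5 hx'.2
      · exact h5
    · intro hO
      exact h.no (hO.mono hFS hAB)
    · intro Y hY hlY
      have hYA : Y ⊆ insert e X := by
        intro y hy
        have h5 := Finset.mem_sdiff.1 (hY hy)
        rcases Finset.mem_union.1 h5.1 with h6 | h6
        · exact h6
        · exact absurd h6 h5.2
      have h6 : lam (hat K (F : Set V)) (insert e X ∪ B) Y = lam K S Y :=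
        rooted_lam hAS hBA (le_hat K _) hLZ hFA (by rw [h3]; exact hdim) hYA
      have h7 : Y.card ≤ 3 := ht.c3 Y (hYA.trans hA) (by omega)
      exact grL_of_card_le_three h7 hlY

end Pool.Agent.HC
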