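import Pool.Agent.HC.Mdl

/-!
# HC-Mod1: existence of the model

`Graphic.exists_conn` for `(hat K {e}, S.erase e)`: `φ` on `U`, connected. `exists_functional` for `M`
and `e`: `σ` vanishes on `M ≥ K`, `σ e = 1`. `hat K S = hat (hat K {e}) (S.erase e)` (`hat_hat`,
`hat_insert`). `inj`: `φ v = 0` gives `v ∈ hat K {e}`, so `v ∈ K` or `v + e ∈ K`; in the second case
`σ v = σ e = 1`. `nz`: `φ x = 0`, `x ∈ S.erase e`, gives `x ∈ hat K {e}`, `x ∈ K` or `x + e ∈ K`, against
`nz`, `npar`.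
-/

namespace Pool.Agent.HC

open Finset Module

variable {V : Type} [AddCommGroup V] [Module F2 V] [DecidableEq V] [FiniteDimensional F2 V]

theorem exists_fmdl {K M : Submodule F2 V} {S : Finset V} {e : V} (he : e ∈ S)
    (nz : ∀ x ∈ S, x ∉ K) (npar : ∀ x ∈ S, ∀ y ∈ S, x + y ∈ K → x = y)
    (hg : Graphic (hat K {e}) ((S.erase e : Finset V) : Set V)) (hKM : K ≤ M) (heM : e ∉ M) :
    ∃ (U : Type) (_ : Fintype U) (_ : DecidableEq U) (φ : V →ₗ[F2] (U → F2)) (σ : V →ₗ[F2] F2),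
      FMdl K S e φ σ ∧ ∀ v ∈ M, σ v = 0 := by
  obtain ⟨U, iU, dU, φ, hφ, hc⟩ := hg.exists_conn
  obtain ⟨σ, hσ, hσe⟩ := exists_functional heM
  have hS : hat K (S : Set V) = hat (hat K {e}) ((S.erase e : Finset V) : Set V) := by
    rw [hat_hat, Set.singleton_union, ← Finset.coe_insert, Finset.insert_erase he]
  have heK : e ∈ hat K {e} := subset_hat K _ (Set.mem_singleton e)
  have heφ : φ e = 0 := hφ.ker e heK
  have hinj : ∀ v ∈ hat K (S : Set V), φ v = 0 → v ∈ K ∨ v + e ∈ K := by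
    intro v hv h0
    rw [hS] at hv
    exact (mem_hat_singleton K e v).1 (hφ.inj v hv h0)
  refine ⟨U, iU, dU, φ, σ, ?_, hσ⟩
  refine { eS := he, kφ := ?_, kσ := ?_, eφ := heφ, eσ := hσe, edge := ?_, inj := ?_, nz := ?_,
           conn := ?_ }
  · exact fun v hv => hφ.ker v (le_hat K _ hv)
  · exact fun v hv => hσ v (hKM hv)
  · intro x hx
    by_cases hxe : x = e
    · left; rw [hxe]; exact heφ
    · exact hφ.edge x (Finset.mem_coe.2 (Finset.mem_erase.2 ⟨hxe, hx⟩))
  · intro v hv h0 hs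
    rcases hinj v hv h0 with h | h
    · exact h
    · exfalso
      have h1 := hσ _ (hKM h)
      rw [map_add, hs, hσe, zero_add] at h1
      exact one_ne_zero h1
  · intro x hx hxe h0
    rcases hinj x (subset_hat K _ (Finset.mem_coe.2 hx)) h0 with h | h
    · exact nz x hx h
    · exact hxe (npar x hx e he h)
  · intro u v
    rw [hS]
    exact hc u v

end Pool.Agent.HC
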