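import Pool.Agent.HC.AuxD

/-!
# HC-TBv1: the Tutte violator can be taken inside the levels, with large defect

`N := (univ : LV A ⊕ Fin (A.card - 4))` has `A.card + 2 * (U.card - A.card) + (A.card - 4)` elements, an
even number. Let `u` be a Tutte violator: `u.ncard < odd (auG - u)`. The number of odd components of
`auG - u` is congruent to the number of remaining vertices, i.e. to `u.ncard`, mod 2 (Mathlib:
`SimpleGraph.odd_ncard_oddComponents` / `SimpleGraph.Subgraph...`, or: sum of the sizes of
the components), so `u.ncard + 2 ≤ odd (auG - u)`.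
Let `J = range inr`. CLAIM `J ⊆ u`. Otherwise let `J' = J \ u` be nonempty.
* If some terminal is not in `u`: all of `J'` and all the terminals outside `u` lie in one component
  of `auG - u`. Any other component consists of levels `(v, i)` with `v ∉ A`; if it is odd it
  contains a level whose twin `(v, 1 + i)` is not in it, so is in `u` (twins are adjacent). These twins
  are different for different components: at most `u.ncard` such components; so
  `odd ≤ 1 + u.ncard`. Contradiction.
* If all terminals are in `u`: the elements of `J'` are isolated vertices; the other odd components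
  are at most `k1` = the number of `v ∉ A` with exactly one level in `u`. So
  `odd ≤ (A.card - 4) + k1 < A.card + k1 ≤ u.ncard`. Contradiction.
So `J ⊆ u`, put `S0 = inl ⁻¹' u`: `u.ncard = S0.ncard + (A.card - 4)`, and `auG - u` is isomorphic to
`lvG - S0`: `S0.ncard + A.card - 4 + 2 ≤ odd (lvG - S0)`.
-/

namespace Pool.Agent.HC

open Finset

variable {U : Type} [Fintype U] [DecidableEq U]

private lemma adj_same {X : Type} {G : SimpleGraph X} {u : Set X}
    {x y : ((⊤ : G.Subgraph).deleteVerts u).verts} (h : G.Adj x.1 y.1) :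
    ((⊤ : G.Subgraph).deleteVerts u).coe.connectedComponentMk x =
      ((⊤ : G.Subgraph).deleteVerts u).coe.connectedComponentMk y := by
  apply SimpleGraph.ConnectedComponent.sound
  apply SimpleGraph.Adj.reachable
  rw [SimpleGraph.Subgraph.coe_adj, SimpleGraph.Subgraph.deleteVerts_adj]
  exact ⟨trivial, x.2.2, trivial, y.2.2, h⟩

private lemma odd_iso {α β : Type} {G : SimpleGraph α} {G' : SimpleGraph β} (φ : G ≃g G') :
    G.oddComponents.ncard = G'.oddComponents.ncard := by
  have h : ∀ C : G.ConnectedComponent,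
      (φ.connectedComponentEquiv C).supp.ncard = C.supp.ncard := fun C =>
    (Nat.card_congr (SimpleGraph.ConnectedComponent.isoEquivSupp φ C)).symm
  have h2 : G'.oddComponents = φ.connectedComponentEquiv '' G.oddComponents := by
    ext C'
    constructor
    · intro hC
      refine ⟨φ.connectedComponentEquiv.symm C', ?_, by simp⟩
      have := h (φ.connectedComponentEquiv.symm C')
      rw [Equiv.apply_symm_apply] at this
      change Odd _
      rw [← this]
      exact hC
    · rintro ⟨C, hC, rfl⟩
      change Odd _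
      rw [h]
      exact hC
  rw [h2, Set.ncard_image_of_injective _ (Equiv.injective _)]

/-- the twin level -/
private def tw {A : Finset U} (x : LV A) (h : x.1.1 ∉ A) : LV A :=
  ⟨(x.1.1, 1 + x.1.2), fun h' => absurd h' h⟩

private lemma tw_ne {A : Finset U} (x : LV A) (h : x.1.1 ∉ A) : tw x h ≠ x := by
  intro h1
  have h2 : 1 + x.1.2 = x.1.2 := congrArg (fun y : LV A => y.1.2) h1
  revert h2
  generalize x.1.2 = a
  revert a
  decide

private lemma tw_tw {A : Finset U} (x : LV A) (h : x.1.1 ∉ A) (h' : (tw x h).1.1 ∉ A) :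
    tw (tw x h) h' = x := by
  apply Subtype.ext
  refine Prod.ext rfl ?_
  change 1 + (1 + x.1.2) = x.1.2
  generalize x.1.2 = a
  revert a
  decide

private lemma tw_inj {A : Finset U} (x y : LV A) (h : x.1.1 ∉ A) (h' : y.1.1 ∉ A)
    (he : tw x h = tw y h') : x = y := by
  have h1' := congrArg (fun z : LV A => z.1.1) he
  have h2' := congrArg (fun z : LV A => z.1.2) he
  have h1 : x.1.1 = y.1.1 := h1'
  have h2 : 1 + x.1.2 = 1 + y.1.2 := h2'
  exact Subtype.ext (Prod.ext h1 (add_left_cancel h2))

private lemma tw_adj (G : SG U) {A : Finset U} (x : LV A) (h : x.1.1 ∉ A) :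
    (auG G A).Adj (Sum.inl x) (Sum.inl (tw x h)) := by
  left
  refine ⟨rfl, ?_⟩
  change x.1.2 ≠ 1 + x.1.2
  generalize x.1.2 = a
  revert a
  decide

/-- the two kinds of odd components -/
private lemma comp_cases (G : SG U) (A : Finset U) (u : Set (LV A ⊕ Fin (A.card - 4)))
    (c : ((⊤ : (auG G A).Subgraph).deleteVerts u).coe.ConnectedComponent)
    (hc : Odd c.supp.ncard) :
    (∃ x ∈ c.supp, (∃ j, x.1 = Sum.inr j) ∨ (∃ y : LV A, x.1 = Sum.inl y ∧ y.1.1 ∈ A)) ∨
    (∃ x ∈ c.supp, ∃ (y : LV A) (h : y.1.1 ∉ A), x.1 = Sum.inl y ∧ Sum.inl (tw y h) ∈ u) := by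
  classical
  have hfinLV : Finite (LV A) := inferInstanceAs (Finite {x : U × F2 // x.1 ∈ A → x.2 = 0})
  by_contra hcon
  push Not at hcon
  obtain ⟨h1, h2⟩ := hcon
  have h3 : ∀ x ∈ c.supp, ∃ y : LV A, ∃ _ : y.1.1 ∉ A, x.1 = Sum.inl y := by
    intro x hx
    obtain ⟨h4, h5⟩ := h1 x hx
    rcases h6 : x.1 with y | j
    · exact ⟨y, h5 y h6, rfl⟩
    · exact absurd h6 (h4 j)
  choose f hf hf' using h3
  have hfin : (c.supp).Finite := Set.toFinite _
  have key : ∀ x (hx : x ∈ c.supp), ∃ x', x' ∈ c.supp ∧ x'.1 = Sum.inl (tw (f x hx) (hf x hx)) := by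
    intro x hx
    have h7 := h2 x hx (f x hx) (hf x hx) (hf' x hx)
    refine ⟨⟨Sum.inl (tw (f x hx) (hf x hx)), ⟨trivial, h7⟩⟩, ?_, rfl⟩
    have h8 := hx
    rw [SimpleGraph.ConnectedComponent.mem_supp_iff] at h8 ⊢
    rw [← h8]
    symm
    apply adj_same
    rw [hf' x hx]
    exact tw_adj G _ _
  choose g hg hg' using key
  have hsum : ∑ x ∈ hfin.toFinset, (1 : ZMod 2) = 0 := by
    refine Finset.sum_involution (fun x hx => g x (hfin.mem_toFinset.1 hx)) ?_ ?_ ?_ ?_
    · intro x hx
      decide
    · intro x hx _ h9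
      have h10 := hg' x (hfin.mem_toFinset.1 hx)
      rw [h9, hf' x (hfin.mem_toFinset.1 hx)] at h10
      exact tw_ne _ _ (Sum.inl.inj h10).symm
    · intro x hx
      exact hfin.mem_toFinset.2 (hg _ _)
    · intro x hx
      have hx' := hfin.mem_toFinset.1 hx
      apply Subtype.ext
      change (g (g x hx') (hg x hx')).1 = x.1
      rw [hg' _ (hg x hx'), hf' x hx']
      congr 1
      have h11 : f (g x hx') (hg x hx') = tw (f x hx') (hf x hx') := by
        have := hf' (g x hx') (hg x hx')
        rw [hg' x hx'] at this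
        exact (Sum.inl.inj this).symm
      have h12 : ∀ (y : LV A) (hy : y.1.1 ∉ A), y = tw (f x hx') (hf x hx') →
          tw y hy = f x hx' := by
        intro y hy he
        subst he
        exact tw_tw _ _ _
      exact h12 _ _ h11
  rw [Finset.sum_const, nsmul_one, ← Set.ncard_eq_toFinset_card _ hfin] at hsum
  rw [ZMod.natCast_eq_zero_iff_even] at hsum
  exact (Nat.not_even_iff_odd.2 hc) hsum

private lemma card_LV (A : Finset U) : Nat.card (LV A) + A.card = 2 * Fintype.card U := by
  classical
  have h0 : Nat.card (LV A) = (univ.filter (fun x : U × F2 => x.1 ∈ A → x.2 = 0)).card := by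
    change Nat.card {x : U × F2 // x.1 ∈ A → x.2 = 0} = _
    rw [Nat.card_eq_fintype_card, Fintype.card_subtype]
  have h1 : (univ.filter (fun x : U × F2 => ¬ (x.1 ∈ A → x.2 = 0))) = A ×ˢ {1} := by
    ext x
    simp only [Finset.mem_filter, Finset.mem_univ, true_and, Finset.mem_product,
      Finset.mem_singleton, Classical.not_imp]
    have : ∀ a : F2, ¬ (a = 0) ↔ a = 1 := by decide
    rw [this]
  have h2 := Finset.card_filter_add_card_filter_not (s := (univ : Finset (U × F2)))
    (fun x : U × F2 => x.1 ∈ A → x.2 = 0)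
  rw [h1, Finset.card_product, Finset.card_singleton, mul_one, Finset.card_univ,
    Fintype.card_prod, ZMod.card] at h2
  rw [h0, h2, mul_comm]

theorem violator_levels (G : SG U) (A : Finset U) (hA : 4 ≤ A.card)
    (u : Set (LV A ⊕ Fin (A.card - 4))) (hu : (auG G A).IsTutteViolator u) :
    ∃ S0 : Set (LV A), S0.ncard + A.card ≤
      ((⊤ : (lvG G A).Subgraph).deleteVerts S0).coe.oddComponents.ncard + 2 := by
  classical
  have hfinLV : Finite (LV A) := inferInstanceAs (Finite {x : U × F2 // x.1 ∈ A → x.2 = 0})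
  have hu' : u.ncard < ((⊤ : (auG G A).Subgraph).deleteVerts u).coe.oddComponents.ncard := hu
  have hV : Nat.card ↥((⊤ : (auG G A).Subgraph).deleteVerts u).verts + u.ncard =
      Nat.card (LV A ⊕ Fin (A.card - 4)) := by
    have h1 : ((⊤ : (auG G A).Subgraph).deleteVerts u).verts = uᶜ := by
      ext x
      simp
    rw [Nat.card_coe_set_eq, h1, add_comm]
    exact Set.ncard_add_ncard_compl u
  have hN : Nat.card (LV A ⊕ Fin (A.card - 4)) + 4 = 2 * Fintype.card U := by
    rw [Nat.card_sum, Nat.card_eq_fintype_card (α := Fin (A.card - 4)), Fintype.card_fin]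
    have := card_LV A
    omega
  have hpar : u.ncard + 2 ≤
      ((⊤ : (auG G A).Subgraph).deleteVerts u).coe.oddComponents.ncard := by
    have h1 := ((⊤ : (auG G A).Subgraph).deleteVerts u).coe.odd_ncard_oddComponents
    by_contra h2
    have h3 : ((⊤ : (auG G A).Subgraph).deleteVerts u).coe.oddComponents.ncard
        = u.ncard + 1 := by omega
    rw [h3, Nat.odd_iff, Nat.odd_iff] at h1
    omega
  -- the components of the second kind
  set Tm : Set (LV A ⊕ Fin (A.card - 4)) := {x | ∃ y : LV A, x = Sum.inl y ∧ y.1.1 ∈ A} with hTm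
  set E : Set ((⊤ : (auG G A).Subgraph).deleteVerts u).coe.ConnectedComponent :=
    {c | ∃ x ∈ c.supp, ∃ (y : LV A) (h : y.1.1 ∉ A), x.1 = Sum.inl y ∧ Sum.inl (tw y h) ∈ u}
    with hE
  have hEc : E.ncard ≤ (u \ Tm).ncard := by
    have h1 : ∀ c : E, ∃ x ∈ c.1.supp, ∃ (y : LV A) (h : y.1.1 ∉ A), x.1 = Sum.inl y ∧
        Sum.inl (tw y h) ∈ u := fun c => c.2
    choose x hx y hy h2 h3 using h1
    rw [← Nat.card_coe_set_eq, ← Nat.card_coe_set_eq]
    refine Nat.card_le_card_of_injective
      (fun c : E => (⟨Sum.inl (tw (y c) (hy c)), h3 c, ?_⟩ : ↥(u \ Tm))) ?_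
    · rintro ⟨y', h4, h5⟩
      rw [← Sum.inl.inj h4] at h5
      exact hy c h5
    · intro c c' hcc
      have h4 := congrArg Subtype.val hcc
      have h5 : tw (y c) (hy c) = tw (y c') (hy c') := Sum.inl.inj h4
      have h6 := tw_inj _ _ _ _ h5
      have h7 : x c = x c' := by
        apply Subtype.ext
        rw [h2, h2, h6]
      apply Subtype.ext
      have h8 := hx c
      have h9 := hx c'
      rw [SimpleGraph.ConnectedComponent.mem_supp_iff] at h8 h9
      rw [← h8, ← h9, h7]
  have hEu : (u \ Tm).ncard ≤ u.ncard := Set.ncard_le_ncard Set.diff_subset (Set.toFinite _)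
  have hJ : ∀ j : Fin (A.card - 4), (Sum.inr j : LV A ⊕ Fin (A.card - 4)) ∈ u := by
    by_contra hcon
    push Not at hcon
    obtain ⟨j0, hj0⟩ := hcon
    by_cases ht : ∃ t : LV A, t.1.1 ∈ A ∧ (Sum.inl t : LV A ⊕ Fin (A.card - 4)) ∉ u
    · obtain ⟨t, htA, htu⟩ := ht
      let J0 : ((⊤ : (auG G A).Subgraph).deleteVerts u).verts := ⟨Sum.inr j0, ⟨trivial, hj0⟩⟩
      let T0 : ((⊤ : (auG G A).Subgraph).deleteVerts u).verts := ⟨Sum.inl t, ⟨trivial, htu⟩⟩
      have hTJ : ((⊤ : (auG G A).Subgraph).deleteVerts u).coe.connectedComponentMk T0 =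
          ((⊤ : (auG G A).Subgraph).deleteVerts u).coe.connectedComponentMk J0 :=
        adj_same (G := auG G A) (show (auG G A).Adj (Sum.inl t) (Sum.inr j0) from htA)
      have hsub : ((⊤ : (auG G A).Subgraph).deleteVerts u).coe.oddComponents ⊆
          insert (((⊤ : (auG G A).Subgraph).deleteVerts u).coe.connectedComponentMk J0) E := by
        intro c hc
        rcases comp_cases G A u c hc with ⟨x, hx, h4 | h4⟩ | h4
        · left
          obtain ⟨j, h5⟩ := h4
          rw [SimpleGraph.ConnectedComponent.mem_supp_iff] at hx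
          rw [← hx, ← hTJ]
          apply adj_same
          rw [h5]
          exact htA
        · left
          obtain ⟨y, h5, h6⟩ := h4
          rw [SimpleGraph.ConnectedComponent.mem_supp_iff] at hx
          rw [← hx]
          apply adj_same
          rw [h5]
          exact h6
        · right
          exact h4
      have h5 := Set.ncard_le_ncard hsub (Set.toFinite _)
      have h6 := Set.ncard_insert_le
        (((⊤ : (auG G A).Subgraph).deleteVerts u).coe.connectedComponentMk J0) E
      omega
    · push Not at ht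
      set E' : Set ((⊤ : (auG G A).Subgraph).deleteVerts u).coe.ConnectedComponent :=
        {c | ∃ x ∈ c.supp, ∃ j, x.1 = Sum.inr j} with hE'
      have hE'c : E'.ncard ≤ A.card - 4 := by
        have h1 : ∀ c : E', ∃ x ∈ c.1.supp, ∃ j, x.1 = Sum.inr j := fun c => c.2
        choose x hx j h2 using h1
        have h3 : Nat.card E' ≤ Nat.card (Fin (A.card - 4)) := by
          refine Nat.card_le_card_of_injective (fun c : E' => j c) ?_
          intro c c' hcc
          have h7 : x c = x c' := by
            apply Subtype.ext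
            rw [h2, h2]
            exact congrArg Sum.inr hcc
          apply Subtype.ext
          have h8 := hx c
          have h9 := hx c'
          rw [SimpleGraph.ConnectedComponent.mem_supp_iff] at h8 h9
          rw [← h8, ← h9, h7]
        rwa [Nat.card_coe_set_eq, Nat.card_eq_fintype_card, Fintype.card_fin] at h3
      have hsub : ((⊤ : (auG G A).Subgraph).deleteVerts u).coe.oddComponents ⊆ E' ∪ E := by
        intro c hc
        rcases comp_cases G A u c hc with ⟨x, hx, h4 | h4⟩ | h4
        · left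
          exact ⟨x, hx, h4⟩
        · obtain ⟨y, h5, h6⟩ := h4
          exact absurd (h5 ▸ ht y h6) x.2.2
        · right
          exact h4
      have h5 := Set.ncard_le_ncard hsub (Set.toFinite _)
      have h6 := Set.ncard_union_le E' E
      have hTu : Tm ⊆ u := by
        rintro x ⟨y, rfl, h7⟩
        exact ht y h7
      have h7 := Set.ncard_diff_add_ncard_of_subset hTu (Set.toFinite _)
      have h8' : Nat.card ↥(A : Set U) ≤ Nat.card ↥Tm := by
        refine Nat.card_le_card_of_injective (fun a : (A : Set U) =>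
          (⟨Sum.inl ⟨(a.1, 0), fun _ => rfl⟩, ⟨(a.1, 0), fun _ => rfl⟩, rfl, a.2⟩ : ↥Tm)) ?_
        intro a a' haa
        have h9 := Sum.inl.inj (congrArg Subtype.val haa)
        exact Subtype.ext (congrArg (fun z : LV A => z.1.1) h9)
      have h10 : Nat.card ↥(A : Set U) = A.card := by
        rw [Nat.card_coe_set_eq, Set.ncard_coe_finset]
      have h8 : A.card ≤ Tm.ncard := by
        rw [Nat.card_coe_set_eq Tm] at h8'
        omega
      omega
  refine ⟨Sum.inl ⁻¹' u, ?_⟩
  have hcard : u.ncard = (Sum.inl ⁻¹' u : Set (LV A)).ncard + (A.card - 4) := by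
    have h1 : u = (Sum.inl '' (Sum.inl ⁻¹' u : Set (LV A)) : Set (LV A ⊕ Fin (A.card - 4))) ∪
        Set.range Sum.inr := by
      ext x
      rcases x with y | j
      · simp
      · simp [hJ j]
    conv_lhs => rw [h1]
    rw [Set.ncard_union_eq _ (Set.toFinite _) (Set.toFinite _),
      Set.ncard_image_of_injective _ Sum.inl_injective]
    · congr 1
      rw [← Set.image_univ, Set.ncard_image_of_injective _ Sum.inr_injective, Set.ncard_univ,
        Nat.card_eq_fintype_card, Fintype.card_fin]
    · rw [Set.disjoint_left]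
      rintro x ⟨y, _, rfl⟩ ⟨j, hj⟩
      exact absurd hj (by simp)
  have hiso : Nonempty (((⊤ : (lvG G A).Subgraph).deleteVerts (Sum.inl ⁻¹' u)).coe ≃g
      ((⊤ : (auG G A).Subgraph).deleteVerts u).coe) := by
    let f : ((⊤ : (lvG G A).Subgraph).deleteVerts (Sum.inl ⁻¹' u)).verts →
        ((⊤ : (auG G A).Subgraph).deleteVerts u).verts :=
      fun x => ⟨Sum.inl x.1, ⟨trivial, x.2.2⟩⟩
    have hf : Function.Bijective f := by
      constructor
      · intro x y hxy
        exact Subtype.ext (Sum.inl.inj (congrArg Subtype.val hxy))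
      · rintro ⟨y | j, hy⟩
        · exact ⟨⟨y, ⟨trivial, hy.2⟩⟩, rfl⟩
        · exact absurd (hJ j) hy.2
    refine ⟨⟨Equiv.ofBijective f hf, ?_⟩⟩
    intro x y
    rw [SimpleGraph.Subgraph.coe_adj, SimpleGraph.Subgraph.coe_adj,
      SimpleGraph.Subgraph.deleteVerts_adj, SimpleGraph.Subgraph.deleteVerts_adj]
    constructor
    · rintro ⟨_, _, _, _, h⟩
      exact ⟨trivial, x.2.2, trivial, y.2.2, h⟩
    · rintro ⟨_, _, _, _, h⟩
      exact ⟨trivial, (f x).2.2, trivial, (f y).2.2, h⟩
  obtain ⟨φ⟩ := hiso
  rw [odd_iso φ]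
  omega

end Pool.Agent.HC
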