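import Pool.Agent.HC.AuxD

/-!
# HC-TBv2: from the violator to the structure

`Q := lvG - S0` (`((⊤ : Subgraph).deleteVerts S0).coe`). Classical finite sets:
`Z := {v | all levels of v are in S0}` (for `v ∈ A` there is only the level 0),
`P := {v ∈ A | (v,0) ∉ S0} ∪ {v ∉ A | exactly one level is in S0}`; for `v ∈ P` let `s v` be the level not
in `S0` (0 for `v ∈ A`), and `s v = 0` for `v ∉ P`. The other vertices (not in `P ∪ Z`) are full: both
levels are vertices of `Q`, adjacent. `H := G.HG Z P s`.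
CORRESPONDENCE: if `(v, i), (w, j)` are adjacent vertices of `Q` then `v = w` or `H.Adj v w`: for
`v, w ∈ P` the levels are `i = s v`, `j = s w` and the parity is `1 + s v + s w`. Conversely if `H.Adj v w`
then every level of `v` in `Q` is `Q`-reachable from every level of `w` in `Q` (if one of them is full,
the edge of parity `p` joins some pair of levels, and the twins are adjacent). So for
`v, w ∉ Z`: levels of `v`, `w` are `Q`-reachable iff `v`, `w` are `H`-reachable.
COUNT: a component of `Q` has size = (number of its `P`-vertices) + 2 (number of its full vertices).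
So each odd component contains an odd number of vertices of `P`. `P.card = (A.card - zA) + k1`,
`S0.ncard = zA + 2 k2 + k1`, where `zA` = number of terminals in `S0`, `k2`, `k1` = number of `v ∉ A`
with both, exactly one level in `S0`; `Z.card = zA + k2`. Hypothesis:
`zA + 2 k2 + k1 + A.card ≤ odd + 2`. So `P.card + 2 * Z.card ≤ odd + 2`.
Since `odd ≤ P.card` (odd components contain different vertices of `P`): `Z.card ≤ 1`. If `Z.card = 1`
then `odd = P.card`, every component contains at most one vertex of `P`: `sep` with `T = ∅`. If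
`Z = ∅`: `P.card ≤ odd + 2`: put `T := {u ∈ P | ∃ v ∈ P, v ≠ u ∧ H.Reachable u v}`. Let `n_c` be the number of
vertices of `P` in the component `c`; `∑ n_c = P.card`, `∑ over odd c of 1 = odd`; so
`∑_(c odd) (n_c - 1) + ∑_(c even) n_c ≤ 2`, all terms are even numbers. So at most one component has a
nonzero term, and it is an odd one with `n_c = 3` or an even one with `n_c = 2`; `T` is the set of
vertices of `P` in this component (or empty): `T.card ≤ 3`, pairwise reachable, `sep`.
-/

namespace Pool.Agent.HC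

open Finset

variable {U : Type} [Fintype U] [DecidableEq U]

private theorem tv_f2 (a : F2) : a = 0 ∨ a = 1 := by
  revert a; decide

/-- counting over the fibres of a map -/
private theorem tv_count {C : Type} [Fintype C] [DecidableEq C] (P : Finset U) (κ : U → C)
    (O : Finset C) (hO : ∀ c, c ∈ O ↔ Odd (P.filter (fun v => κ v = c)).card) :
    P.card = O.card + 2 * ∑ c, (P.filter (fun v => κ v = c)).card / 2 := by
  have h1 : P.card = ∑ c, (P.filter (fun v => κ v = c)).card :=
    Finset.card_eq_sum_card_fiberwise (fun x _ => Finset.mem_coe.2 (Finset.mem_univ _))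
  have h2 : O.card = ∑ c, if c ∈ O then 1 else 0 := by simp
  rw [h1, h2, Finset.mul_sum, ← Finset.sum_add_distrib]
  refine Finset.sum_congr rfl fun c _ => ?_
  by_cases hc : c ∈ O
  · obtain ⟨k, hk⟩ := (hO c).1 hc
    rw [if_pos hc]; omega
  · have h3 : ¬ Odd (P.filter (fun v => κ v = c)).card := fun h => hc ((hO c).2 h)
    obtain ⟨k, hk⟩ := Nat.not_odd_iff_even.1 h3
    rw [if_neg hc]; omega

private theorem tv_zero {C : Type} [Fintype C] [DecidableEq C] (P : Finset U) (κ : U → C)
    (O : Finset C) (hO : ∀ c, c ∈ O ↔ Odd (P.filter (fun v => κ v = c)).card)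
    (h : P.card ≤ O.card) : ∀ u ∈ P, ∀ v ∈ P, κ u = κ v → u = v := by
  intro u hu v hv huv
  by_contra hne
  have h1 := tv_count P κ O hO
  have h2 : 1 < (P.filter (fun w => κ w = κ u)).card := by
    rw [Finset.one_lt_card]
    exact ⟨u, by simp [hu], v, by simp [hv, huv], hne⟩
  have h3 := Finset.single_le_sum (s := univ)
    (f := fun c => (P.filter (fun v => κ v = c)).card / 2) (fun _ _ => Nat.zero_le _)
    (Finset.mem_univ (κ u))
  omega

private theorem tv_one {C : Type} [Fintype C] [DecidableEq C] (P : Finset U) (κ : U → C)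
    (O : Finset C) (hO : ∀ c, c ∈ O ↔ Odd (P.filter (fun v => κ v = c)).card)
    (h : P.card ≤ O.card + 2) (T : Finset U)
    (hT : ∀ u, u ∈ T ↔ u ∈ P ∧ ∃ v ∈ P, v ≠ u ∧ κ v = κ u) :
    T.card ≤ 3 ∧ ∀ u ∈ T, ∀ v ∈ T, κ u = κ v := by
  have h1 := tv_count P κ O hO
  have h2 : ∀ u ∈ T, 1 < (P.filter (fun w => κ w = κ u)).card := by
    intro u hu
    obtain ⟨hu1, v, hv, hne, huv⟩ := (hT u).1 hu
    rw [Finset.one_lt_card]
    exact ⟨v, by simp [hv, huv], u, by simp [hu1], hne⟩
  have h3 : ∀ u ∈ T, ∀ v ∈ T, κ u = κ v := by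
    intro u hu v hv
    by_contra hne
    have h4 : ∑ c ∈ ({κ u, κ v} : Finset C), (P.filter (fun v => κ v = c)).card / 2 ≤
        ∑ c, (P.filter (fun v => κ v = c)).card / 2 :=
      Finset.sum_le_sum_of_subset_of_nonneg (Finset.subset_univ _) (fun _ _ _ => Nat.zero_le _)
    rw [Finset.sum_pair hne] at h4
    have h5 := h2 u hu
    have h6 := h2 v hv
    omega
  refine ⟨?_, h3⟩
  rcases T.eq_empty_or_nonempty with h0 | ⟨u, hu⟩
  · rw [h0]; simp
  · have h4 : T ⊆ P.filter (fun w => κ w = κ u) := by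
      intro v hv
      rw [Finset.mem_filter]
      exact ⟨((hT v).1 hv).1, h3 v hv u hu⟩
    have h5 := Finset.card_le_card h4
    have h6 := Finset.single_le_sum (s := univ)
      (f := fun c => (P.filter (fun v => κ v = c)).card / 2) (fun _ _ => Nat.zero_le _)
      (Finset.mem_univ (κ u))
    omega

open Classical in
/-- the levels over `v` outside `S0` -/
private noncomputable def tvF {A : Finset U} [Fintype (LV A)] (S0 : Set (LV A)) (v : U) :
    Finset (LV A) := univ.filter (fun x => x ∉ S0 ∧ x.1.1 = v)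

private theorem mem_tvF {A : Finset U} [Fintype (LV A)] {S0 : Set (LV A)} {v : U} {x : LV A} :
    x ∈ tvF S0 v ↔ x ∉ S0 ∧ x.1.1 = v := by
  unfold tvF; simp

private theorem LV_ext {A : Finset U} {x y : LV A} (h1 : x.1.1 = y.1.1) (h2 : x.1.2 = y.1.2) :
    x = y := Subtype.ext (Prod.ext h1 h2)

open Classical in
private theorem tv_fib {A : Finset U} [Fintype (LV A)] (v : U) :
    (univ.filter (fun x : LV A => x.1.1 = v)).card + (if v ∈ A then 1 else 0) = 2 := by
  obtain ⟨a, ha⟩ : ∃ a : LV A, a.1 = (v, 0) := ⟨⟨(v, 0), fun _ => rfl⟩, rfl⟩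
  by_cases hv : v ∈ A
  · have h1 : univ.filter (fun x : LV A => x.1.1 = v) = {a} := by
      ext x
      rw [Finset.mem_filter, Finset.mem_singleton]
      constructor
      · rintro ⟨-, h⟩
        refine LV_ext (by rw [h, ha]) ?_
        rw [ha]
        exact x.2 (by rw [h]; exact hv)
      · rintro rfl
        exact ⟨Finset.mem_univ _, by rw [ha]⟩
    rw [h1, if_pos hv, Finset.card_singleton]
  · obtain ⟨b, hb⟩ : ∃ b : LV A, b.1 = (v, 1) := ⟨⟨(v, 1), fun h => absurd h hv⟩, rfl⟩
    have hab : a ≠ b := by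
      intro h
      have h2 : ((v, 0) : U × F2) = (v, 1) := by rw [← ha, ← hb, h]
      exact zero_ne_one (congrArg Prod.snd h2)
    have h1 : univ.filter (fun x : LV A => x.1.1 = v) = {a, b} := by
      ext x
      rw [Finset.mem_filter, Finset.mem_insert, Finset.mem_singleton]
      constructor
      · rintro ⟨-, h⟩
        rcases tv_f2 x.1.2 with h2 | h2
        · exact Or.inl (LV_ext (by rw [h, ha]) (by rw [h2, ha]))
        · exact Or.inr (LV_ext (by rw [h, hb]) (by rw [h2, hb]))
      · rintro (rfl | rfl)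
        · exact ⟨Finset.mem_univ _, by rw [ha]⟩
        · exact ⟨Finset.mem_univ _, by rw [hb]⟩
    rw [h1, if_neg hv, Finset.card_pair hab]

open Classical in
private theorem tv_tot {A : Finset U} [Fintype (LV A)] (S0 : Set (LV A)) (v : U) :
    (univ.filter (fun x : LV A => x ∈ S0 ∧ x.1.1 = v)).card + (if v ∈ A then 1 else 0) +
      (tvF S0 v).card = 2 := by
  have h1 := tv_fib (A := A) v
  have h2 : (univ.filter (fun x : LV A => x ∈ S0 ∧ x.1.1 = v)).card + (tvF S0 v).card =
      (univ.filter (fun x : LV A => x.1.1 = v)).card := by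
    rw [← Finset.card_union_of_disjoint]
    · congr 1
      ext x
      simp only [Finset.mem_union, Finset.mem_filter, Finset.mem_univ, true_and, mem_tvF]
      tauto
    · rw [Finset.disjoint_left]
      intro x hx hx'
      exact (mem_tvF.1 hx').1 (Finset.mem_filter.1 hx).2.1
  omega

private theorem tv_sum {A : Finset U} [Fintype (LV A)] (S0 : Set (LV A)) (P Z : Finset U)
    (hP : ∀ v, v ∈ P ↔ (tvF S0 v).card = 1) (hZ : ∀ v, v ∈ Z ↔ (tvF S0 v).card = 0) :
    S0.ncard + A.card = P.card + 2 * Z.card := by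
  classical
  have h1 : S0.ncard = ∑ v : U, (univ.filter (fun x : LV A => x ∈ S0 ∧ x.1.1 = v)).card := by
    rw [Set.ncard_eq_toFinset_card' S0,
      Finset.card_eq_sum_card_fiberwise (f := fun x : LV A => x.1.1) (t := univ)
        (fun x _ => Finset.mem_coe.2 (Finset.mem_univ _))]
    refine Finset.sum_congr rfl fun v _ => ?_
    congr 1
    ext x
    simp
  have h2 : A.card = ∑ v : U, (if v ∈ A then 1 else 0) := by simp
  have h3 : P.card = ∑ v : U, (if v ∈ P then 1 else 0) := by simp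
  have h4 : Z.card = ∑ v : U, (if v ∈ Z then 1 else 0) := by simp
  rw [h1, h2, h3, h4, Finset.mul_sum, ← Finset.sum_add_distrib, ← Finset.sum_add_distrib]
  refine Finset.sum_congr rfl fun v _ => ?_
  have h5 := tv_tot S0 v
  by_cases hv : v ∈ P
  · have h6 := (hP v).1 hv
    have h7 : v ∉ Z := fun h => by have := (hZ v).1 h; omega
    rw [if_pos hv, if_neg h7]; omega
  · have h6 : (tvF S0 v).card ≠ 1 := fun h => hv ((hP v).2 h)
    by_cases hz : v ∈ Z
    · have h7 := (hZ v).1 hz
      rw [if_neg hv, if_pos hz]; omega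
    · have h7 : (tvF S0 v).card ≠ 0 := fun h => hz ((hZ v).2 h)
      rw [if_neg hv, if_neg hz]; omega

/-- over a full vertex all levels are present -/
private theorem tv_full {A : Finset U} [Fintype (LV A)] {S0 : Set (LV A)} {v : U}
    (h0 : (tvF S0 v).card ≠ 0) (h1 : (tvF S0 v).card ≠ 1) (i : F2) :
    ∃ x : LV A, x ∉ S0 ∧ x.1.1 = v ∧ x.1.2 = i := by
  have h2 : 1 < (tvF S0 v).card := by omega
  obtain ⟨a, ha, b, hb, hab⟩ := Finset.one_lt_card.1 h2
  rw [mem_tvF] at ha hb
  have h3 : a.1.2 ≠ b.1.2 := fun h => hab (LV_ext (ha.2.trans hb.2.symm) h)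
  rcases tv_f2 i with rfl | rfl <;> rcases tv_f2 a.1.2 with h4 | h4 <;>
    rcases tv_f2 b.1.2 with h5 | h5
  · exact absurd (h4.trans h5.symm) h3
  · exact ⟨a, ha.1, ha.2, h4⟩
  · exact ⟨b, hb.1, hb.2, h5⟩
  · exact absurd (h4.trans h5.symm) h3
  · exact absurd (h4.trans h5.symm) h3
  · exact ⟨b, hb.1, hb.2, h5⟩
  · exact ⟨a, ha.1, ha.2, h4⟩
  · exact absurd (h4.trans h5.symm) h3

/-- adjacency of levels in the deleted graph -/
private theorem tv_Qadj {G : SG U} {A : Finset U} {S0 : Set (LV A)}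
    (x y : ((⊤ : (lvG G A).Subgraph).deleteVerts S0).verts) :
    ((⊤ : (lvG G A).Subgraph).deleteVerts S0).coe.Adj x y ↔ (lvG G A).Adj x.1 y.1 := by
  rw [SimpleGraph.Subgraph.coe_adj, SimpleGraph.Subgraph.deleteVerts_adj]
  have hx : x.1 ∉ S0 := x.2.2
  have hy : y.1 ∉ S0 := y.2.2
  simp [hx, hy]

private theorem tv_twin {G : SG U} {A : Finset U} {S0 : Set (LV A)}
    (x y : ((⊤ : (lvG G A).Subgraph).deleteVerts S0).verts) (h : x.1.1.1 = y.1.1.1) :
    ((⊤ : (lvG G A).Subgraph).deleteVerts S0).coe.Reachable x y := by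
  by_cases h2 : x.1.1.2 = y.1.1.2
  · have h3 : x = y := Subtype.ext (LV_ext h h2)
    rw [h3]
  · exact SimpleGraph.Adj.reachable ((tv_Qadj x y).2 (Or.inl ⟨h, h2⟩))

private theorem tv_par1 (p j : F2) : 1 + (p + 1 + j) + j = p := by
  revert p j; decide

private theorem tv_par2 (p j : F2) : 1 + j + (p + 1 + j) = p := by
  revert p j; decide

/-- one edge of `H` -/
private theorem tv_edge {G : SG U} {A : Finset U} [Fintype (LV A)] {S0 : Set (LV A)}
    {P Z : Finset U} {s : U → F2}
    (hP : ∀ v, v ∈ P ↔ (tvF S0 v).card = 1) (hZ : ∀ v, v ∈ Z ↔ (tvF S0 v).card = 0)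
    (hs : ∀ v ∈ P, ∀ x : LV A, x ∉ S0 → x.1.1 = v → x.1.2 = s v)
    {v w : U} (h : (G.HG Z P s).Adj v w)
    (x y : ((⊤ : (lvG G A).Subgraph).deleteVerts S0).verts) (hx : x.1.1.1 = v)
    (hy : y.1.1.1 = w) :
    ((⊤ : (lvG G A).Subgraph).deleteVerts S0).coe.Reachable x y := by
  have hxS : x.1 ∉ S0 := x.2.2
  have hyS : y.1 ∉ S0 := y.2.2
  obtain ⟨-, hvZ, hwZ, h | h⟩ := h
  · obtain ⟨h1, p, hp⟩ := h
    have hf : ∀ {u : U}, u ∉ P → u ∉ Z → ∀ i : F2, ∃ t : LV A, t ∉ S0 ∧ t.1.1 = u ∧ t.1.2 = i :=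
      fun {u} hu hu' i => tv_full (fun h => hu' ((hZ u).2 h)) (fun h => hu ((hP u).2 h)) i
    rcases h1 with h1 | h1
    · obtain ⟨t, ht, htv, hti⟩ := hf h1 hvZ (p + 1 + y.1.1.2)
      let t' : ((⊤ : (lvG G A).Subgraph).deleteVerts S0).verts := ⟨t, ⟨Set.mem_univ _, ht⟩⟩
      have h2 : ((⊤ : (lvG G A).Subgraph).deleteVerts S0).coe.Adj t' y := by
        rw [tv_Qadj]
        refine Or.inr ?_
        have h3 : (1 : F2) + t.1.2 + y.1.1.2 = p := by
          rw [hti]
          exact tv_par1 _ _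
        change G.adj (1 + t.1.2 + y.1.1.2) t.1.1 y.1.1.1
        rw [h3, htv, hy]
        exact hp
      exact (tv_twin x t' (hx.trans htv.symm)).trans h2.reachable
    · obtain ⟨t, ht, htv, hti⟩ := hf h1 hwZ (p + 1 + x.1.1.2)
      let t' : ((⊤ : (lvG G A).Subgraph).deleteVerts S0).verts := ⟨t, ⟨Set.mem_univ _, ht⟩⟩
      have h2 : ((⊤ : (lvG G A).Subgraph).deleteVerts S0).coe.Adj x t' := by
        rw [tv_Qadj]
        refine Or.inr ?_
        have h3 : (1 : F2) + x.1.1.2 + t.1.2 = p := by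
          rw [hti]
          exact tv_par2 _ _
        change G.adj (1 + x.1.1.2 + t.1.2) x.1.1.1 t.1.1
        rw [h3, htv, hx]
        exact hp
      exact h2.reachable.trans (tv_twin t' y (htv.trans hy.symm))
  · obtain ⟨h1, h2, h3⟩ := h
    apply SimpleGraph.Adj.reachable
    rw [tv_Qadj]
    refine Or.inr ?_
    rw [hs v h1 x.1 hxS hx, hs w h2 y.1 hyS hy, hx, hy]
    exact h3

/-- reachability in `H` -/
private theorem tv_reach {G : SG U} {A : Finset U} [Fintype (LV A)] {S0 : Set (LV A)}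
    {P Z : Finset U} {s : U → F2}
    (hP : ∀ v, v ∈ P ↔ (tvF S0 v).card = 1) (hZ : ∀ v, v ∈ Z ↔ (tvF S0 v).card = 0)
    (hs : ∀ v ∈ P, ∀ x : LV A, x ∉ S0 → x.1.1 = v → x.1.2 = s v)
    {v w : U} (h : (G.HG Z P s).Walk v w) :
    ∀ (x y : ((⊤ : (lvG G A).Subgraph).deleteVerts S0).verts), x.1.1.1 = v → y.1.1.1 = w →
    ((⊤ : (lvG G A).Subgraph).deleteVerts S0).coe.Reachable x y := by
  induction h with
  | nil =>
    intro x y hx hy
    exact tv_twin x y (hx.trans hy.symm)
  | @cons a b c hab p ih =>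
    intro x y hx hy
    have hbZ : b ∉ Z := hab.2.2.1
    have h1 : (tvF S0 b).card ≠ 0 := fun h => hbZ ((hZ b).2 h)
    obtain ⟨t, ht⟩ := Finset.card_pos.1 (Nat.pos_of_ne_zero h1)
    rw [mem_tvF] at ht
    let t' : ((⊤ : (lvG G A).Subgraph).deleteVerts S0).verts := ⟨t, ⟨Set.mem_univ _, ht.1⟩⟩
    exact (tv_edge hP hZ hs hab x t' hx ht.2).trans (ih t' y ht.2 hy)

private theorem tv_down {G : SG U} {A : Finset U} [Fintype (LV A)] {S0 : Set (LV A)}
    {P Z : Finset U} {s : U → F2}
    (hZ : ∀ v, v ∈ Z ↔ (tvF S0 v).card = 0)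
    (hs : ∀ v ∈ P, ∀ x : LV A, x ∉ S0 → x.1.1 = v → x.1.2 = s v)
    (x y : ((⊤ : (lvG G A).Subgraph).deleteVerts S0).verts)
    (h : ((⊤ : (lvG G A).Subgraph).deleteVerts S0).coe.Adj x y) :
    (G.HG Z P s).Reachable x.1.1.1 y.1.1.1 := by
  have hxS : x.1 ∉ S0 := x.2.2
  have hyS : y.1 ∉ S0 := y.2.2
  rw [tv_Qadj] at h
  have hz : ∀ t : LV A, t ∉ S0 → t.1.1 ∉ Z := by
    intro t ht h'
    have h1 := (hZ _).1 h'
    have h2 : t ∈ tvF S0 t.1.1 := mem_tvF.2 ⟨ht, rfl⟩
    rw [Finset.card_eq_zero] at h1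
    rw [h1] at h2
    simp at h2
  rcases h with ⟨h1, -⟩ | h
  · rw [h1]
  · have hne : x.1.1.1 ≠ y.1.1.1 := by
      intro h1
      rw [h1] at h
      exact G.irrefl _ _ h
    apply SimpleGraph.Adj.reachable
    refine ⟨hne, hz _ hxS, hz _ hyS, ?_⟩
    by_cases hx : x.1.1.1 ∈ P
    · by_cases hy : y.1.1.1 ∈ P
      · refine Or.inr ⟨hx, hy, ?_⟩
        rw [← hs _ hx x.1 hxS rfl, ← hs _ hy y.1 hyS rfl]
        exact h
      · exact Or.inl ⟨Or.inr hy, _, h⟩
    · exact Or.inl ⟨Or.inl hx, _, h⟩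

theorem struc_of_levels (G : SG U) (A : Finset U) (S0 : Set (LV A))
    (h : S0.ncard + A.card ≤
      ((⊤ : (lvG G A).Subgraph).deleteVerts S0).coe.oddComponents.ncard + 2) :
    ∃ Z P T s, Struc G A Z P T s := by
  classical
  have hfin : Finite (LV A) := by
    unfold LV
    infer_instance
  have : Fintype (LV A) := Fintype.ofFinite _
  obtain ⟨P, hP⟩ : ∃ P : Finset U, ∀ v, v ∈ P ↔ (tvF S0 v).card = 1 :=
    ⟨univ.filter (fun v => (tvF S0 v).card = 1), by simp⟩
  obtain ⟨Z, hZ⟩ : ∃ Z : Finset U, ∀ v, v ∈ Z ↔ (tvF S0 v).card = 0 :=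
    ⟨univ.filter (fun v => (tvF S0 v).card = 0), by simp⟩
  obtain ⟨s, hs, hsA⟩ : ∃ s : U → F2, (∀ v ∈ P, ∀ x : LV A, x ∉ S0 → x.1.1 = v → x.1.2 = s v) ∧
      ∀ a ∈ A, s a = 0 := by
    refine ⟨fun v => if ∃ x : LV A, x ∉ S0 ∧ x.1 = (v, 1) then 1 else 0, ?_, ?_⟩
    · intro v hv x hx hxv
      rcases tv_f2 x.1.2 with h1 | h1
      · rw [h1]
        refine (if_neg ?_).symm
        rintro ⟨y, hy, hyv⟩
        have h2 : x ∈ tvF S0 v := mem_tvF.2 ⟨hx, hxv⟩
        have h3 : y ∈ tvF S0 v := mem_tvF.2 ⟨hy, by rw [hyv]⟩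
        have h4 := Finset.card_le_one.1 ((hP v).1 hv).le x h2 y h3
        rw [h4, hyv] at h1
        exact one_ne_zero h1
      · rw [h1]
        exact (if_pos ⟨x, hx, Prod.ext hxv h1⟩).symm
    · intro a ha
      refine if_neg ?_
      rintro ⟨y, hy, hya⟩
      have h1 := y.2 (by rw [hya]; exact ha)
      rw [hya] at h1
      exact one_ne_zero h1
  have hcount := tv_sum S0 P Z hP hZ
  have hfinU : Finite (G.HG Z P s).ConnectedComponent := inferInstance
  have : Fintype (G.HG Z P s).ConnectedComponent := Fintype.ofFinite _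
  let κ : U → (G.HG Z P s).ConnectedComponent := (G.HG Z P s).connectedComponentMk
  let O : Finset (G.HG Z P s).ConnectedComponent :=
    univ.filter (fun c => Odd (P.filter (fun v => κ v = c)).card)
  have hO : ∀ c, c ∈ O ↔ Odd (P.filter (fun v => κ v = c)).card := by
    intro c; simp [O]
  -- the map of components
  let Q := ((⊤ : (lvG G A).Subgraph).deleteVerts S0).coe
  have hdown : ∀ x y : ((⊤ : (lvG G A).Subgraph).deleteVerts S0).verts, Q.Reachable x y →
      κ x.1.1.1 = κ y.1.1.1 := by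
    rintro x y ⟨w⟩
    induction w with
    | nil => rfl
    | @cons a b c hab p ih =>
      exact (SimpleGraph.ConnectedComponent.eq.2 (tv_down hZ hs a b hab)).trans ih
  have hup : ∀ x y : ((⊤ : (lvG G A).Subgraph).deleteVerts S0).verts, κ x.1.1.1 = κ y.1.1.1 →
      Q.Reachable x y := by
    intro x y hxy
    obtain ⟨w⟩ := SimpleGraph.ConnectedComponent.eq.1 hxy
    exact tv_reach hP hZ hs w x y rfl rfl
  obtain ⟨φ, hφ⟩ : ∃ φ : Q.ConnectedComponent → (G.HG Z P s).ConnectedComponent,
      ∀ x, φ (Q.connectedComponentMk x) = κ x.1.1.1 := by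
    refine ⟨fun c => Quot.lift (fun x => κ x.1.1.1) (fun x y hxy => hdown x y hxy) c, ?_⟩
    intro x
    rfl
  have hodd : Q.oddComponents.ncard ≤ O.card := by
    rw [← Set.ncard_coe_finset O]
    apply Set.ncard_le_ncard_of_injOn φ
    · intro c hc
      induction c using SimpleGraph.ConnectedComponent.ind with
      | _ x =>
      rw [Finset.mem_coe, hO, hφ]
      have h1 : (Q.connectedComponentMk x).supp.ncard =
          ∑ v ∈ univ.filter (fun v => κ v = κ x.1.1.1), (tvF S0 v).card := by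
        have h2 : (Q.connectedComponentMk x).supp.ncard =
            (univ.filter (fun y : LV A => y ∉ S0 ∧ κ y.1.1 = κ x.1.1.1)).card := by
          rw [← Set.ncard_coe_finset]
          rw [← Set.ncard_image_of_injective _ Subtype.val_injective]
          congr 1
          ext y
          simp only [Set.mem_image, SimpleGraph.ConnectedComponent.mem_supp_iff,
            Finset.coe_filter, Finset.mem_univ, true_and, Set.mem_ofPred_eq]
          constructor
          · rintro ⟨z, hz, rfl⟩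
            exact ⟨z.2.2, hdown _ _ (SimpleGraph.ConnectedComponent.eq.1 hz)⟩
          · rintro ⟨h3, h4⟩
            exact ⟨⟨y, ⟨Set.mem_univ _, h3⟩⟩, SimpleGraph.ConnectedComponent.eq.2 (hup _ _ h4), rfl⟩
        rw [h2]
        rw [Finset.card_eq_sum_card_fiberwise (f := fun y : LV A => y.1.1)
          (t := univ.filter (fun v => κ v = κ x.1.1.1))]
        · refine Finset.sum_congr rfl fun v hv => ?_
          congr 1
          ext y
          rw [mem_tvF]
          simp only [Finset.mem_filter, Finset.mem_univ, true_and] at hv ⊢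
          constructor
          · rintro ⟨⟨h3, h4⟩, h5⟩
            exact ⟨h3, h5⟩
          · rintro ⟨h3, h5⟩
            exact ⟨⟨h3, by rw [h5]; exact hv⟩, h5⟩
        · intro y hy
          simp only [Finset.coe_filter, Finset.mem_univ, true_and, Set.mem_ofPred_eq] at hy ⊢
          exact hy.2
      have hc' : Odd (Q.connectedComponentMk x).supp.ncard := hc
      rw [h1, Finset.odd_sum_iff_odd_card_odd] at hc'
      have h6 : {v ∈ univ.filter (fun v => κ v = κ x.1.1.1) | Odd (tvF S0 v).card} =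
          P.filter (fun v => κ v = κ x.1.1.1) := by
        ext v
        simp only [Finset.mem_filter, Finset.mem_univ, true_and]
        have h7 := tv_tot S0 v
        constructor
        · rintro ⟨h8, k, hk⟩
          exact ⟨(hP v).2 (by omega), h8⟩
        · rintro ⟨h8, h9⟩
          exact ⟨h9, by rw [(hP v).1 h8]; exact odd_one⟩
      rw [h6] at hc'
      exact hc'
    · intro c _ d _ hcd
      induction c using SimpleGraph.ConnectedComponent.ind with
      | _ x =>
      induction d using SimpleGraph.ConnectedComponent.ind with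
      | _ y =>
      rw [hφ, hφ] at hcd
      exact SimpleGraph.ConnectedComponent.eq.2 (hup x y hcd)
  have hle : P.card + 2 * Z.card ≤ O.card + 2 := by
    have h' : S0.ncard + A.card ≤ Q.oddComponents.ncard + 2 := h
    omega
  have hOP : O.card ≤ P.card := by
    have := tv_count P κ O hO
    omega
  have hZ1 : Z.card ≤ 1 := by omega
  have hAZ : A \ Z ⊆ P := by
    intro a ha
    rw [Finset.mem_sdiff] at ha
    have h1 := tv_tot S0 a
    rw [if_pos ha.1] at h1
    have h2 : (tvF S0 a).card ≠ 0 := fun h => ha.2 ((hZ a).2 h)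
    exact (hP a).2 (by omega)
  have hPZ : Disjoint P Z := by
    rw [Finset.disjoint_left]
    intro v h1 h2
    have h3 := (hP v).1 h1
    have h4 := (hZ v).1 h2
    omega
  rcases Z.eq_empty_or_nonempty with h0 | h0
  · obtain ⟨T, hT⟩ : ∃ T : Finset U, ∀ u, u ∈ T ↔ u ∈ P ∧ ∃ v ∈ P, v ≠ u ∧ κ v = κ u :=
      ⟨P.filter (fun u => ∃ v ∈ P, v ≠ u ∧ κ v = κ u), by simp⟩
    have hT2 := tv_one P κ O hO (by omega) T hT
    refine ⟨Z, P, T, s, hZ1, hAZ, hPZ, hsA, hT2.1, fun u hu => ((hT u).1 hu).1, ?_, ?_, ?_⟩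
    · intro h1
      rw [h0] at h1
      exact absurd h1 (by simp)
    · intro u hu v hv
      exact SimpleGraph.ConnectedComponent.eq.1 (hT2.2 u hu v hv)
    · intro u hu v hv huv
      by_cases hne : u = v
      · exact Or.inl hne
      · have h1 : κ u = κ v := SimpleGraph.ConnectedComponent.eq.2 huv
        exact Or.inr ⟨(hT u).2 ⟨hu, v, hv, fun h => hne h.symm, h1.symm⟩,
          (hT v).2 ⟨hv, u, hu, hne, h1⟩⟩
  · have h1 : 1 ≤ Z.card := h0.card_pos
    have h2 := tv_zero P κ O hO (by omega)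
    refine ⟨Z, P, ∅, s, hZ1, hAZ, hPZ, hsA, by simp, by simp, fun _ => rfl, by simp, ?_⟩
    intro u hu v hv huv
    exact Or.inl (h2 u hu v hv (SimpleGraph.ConnectedComponent.eq.2 huv))

end Pool.Agent.HC
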