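import Pool.Agent.HC.TBm
import Pool.Agent.HC.TBv1
import Pool.Agent.HC.TBv2

/-!
# HC-TB: two disjoint odd paths or structure (2.1), assembly
-/

namespace Pool.Agent.HC

open Finset

variable {U : Type} [Fintype U] [DecidableEq U]

theorem twoP_or_struc (G : SG U) (A : Finset U) (hA : 4 ≤ A.card) :
    (∃ a b c d k l, TwoP G A a b c d k l) ∨ ∃ Z P T s, Struc G A Z P T s := by
  classical
  have hfin : Finite (LV A) := by
    unfold LV
    infer_instance
  have : Fintype (LV A) := Fintype.ofFinite _
  by_cases h : ∃ M : (auG G A).Subgraph, M.IsPerfectMatching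
  · obtain ⟨M, hM⟩ := h
    exact Or.inl (twoP_of_matching G A hA M hM)
  · rw [SimpleGraph.tutte] at h
    push Not at h
    obtain ⟨u, hu⟩ := h
    obtain ⟨S0, hS0⟩ := violator_levels G A hA u hu
    exact Or.inr (struc_of_levels G A S0 hS0)

end Pool.Agent.HC
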