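import Pool.Agent.HC.Lv1D
import Pool.Agent.HC.Mod1
import Pool.Agent.HC.FS
import Pool.Agent.HC.TB
import Pool.Agent.HC.OO
import Pool.Agent.HC.Gr5

/-!
# HC-Lv1c: level one, uncontraction (1.7, 2.5)

`exists_fmdl` with `M = hat K B` (`K ≤ M`, `e ∉ M`): `U, φ, σ`, `FMdl`, `σ = 0` on `hat K B`. `clique_rep` for `φ`
and `f`: for `i ≠ j` there is `b ∈ B` with `b + (f i + f j) ∈ K`, so `φ (f i + f j) = φ b` is an edge
(`b ≠ e` because `e ∉ hat K B`; `FMdl.nz`); if `T` is even and `φ (∑ T f) = 0`, then `∑ T f ∈ hat K B`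
(`IsClique.sum_mem`), `σ = 0`, so it is in `K` by `inj`, and `T = ∅` by `ind`. So
`φ (f i + f j) = pr (a i) (a j)`, `a` injective; `σ (f i + f j) = 0`. `A := univ.image a` has
`n ≥ 2 m ≥ 8` elements. `twoP_or_struc (mSG S φ σ) A`. In the first case `hasO_of_twoP` contradicts
`h.no`. In the second case `fs` with `sm = fun X => X ⊆ S \ B`:
`hsm`: `stE S φ I ⊆ S`, and no `b ∈ B` has an end in `I`: `b + (f i + f j) ∈ K`, so
`φ b = pr (a i) (a j)` has its ends in `A`, disjoint from `I`.
`hsm2`: `e ∉ B`; a `b ∈ B` in `xE S e φ σ s I T`, `b ≠ e`, would have its ends in `I ∪ T`; they are in `A`,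
so not in `I`, so in `T`; and `sg' φ σ s b = σ b + s (a i) + s (a j) = 0`: contradiction to the
definition of `xE`.
-/

namespace Pool.Agent.HC

open Finset Module

variable {V : Type} [AddCommGroup V] [Module F2 V] [DecidableEq V] [FiniteDimensional F2 V]

private theorem lv1c_add {K : Submodule F2 V} {U : Type} {φ : V →ₗ[F2] (U → F2)}
    (h : ∀ v ∈ K, φ v = 0) {x y : V} (hxy : x + y ∈ K) : φ x = φ y := by
  have h1 := h _ hxy
  rw [map_add] at h1
  funext u
  have h2 := congrFun h1 u
  rw [Pi.add_apply, Pi.zero_apply] at h2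
  have key : ∀ a b : F2, a + b = 0 → a = b := by decide
  exact key _ _ h2

private theorem lv1c_pr {U : Type} [DecidableEq U] {u v w : U} (h : pr u v w ≠ 0) :
    w = u ∨ w = v := by
  by_contra hne
  push Not at hne
  apply h
  simp [pr, hne.1, hne.2]

theorem Hyp1.uncontract {m n : ℕ} (hm : 4 ≤ m) (hn : 2 * m ≤ n) {K : Submodule F2 V}
    {S B : Finset V} {f : Fin n → V} (h : Hyp1 m K S B f)
    (ht : Tight K S (fun X => X ⊆ S \ B)) {e : V} (he : e ∈ S) (heB : e ∉ hat K (B : Set V))
    (hg : Graphic (hat K {e}) ((S.erase e : Finset V) : Set V)) : Graphic K (S : Set V) := by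
  classical
  obtain ⟨U, iU, dU, φ, σ, hF, hσ⟩ := exists_fmdl he ht.nz ht.npar hg (le_hat K (B : Set V)) heB
  have hBne : ∀ b ∈ B, b ≠ e := by
    rintro b hb rfl
    exact heB (subset_hat K _ hb)
  have hpair : ∀ i j, i ≠ j → f i + f j ∈ hat K (B : Set V) := by
    intro i j hij
    have := h.cl.sum_mem {i, j} (by rw [Finset.card_pair hij]; decide)
    rwa [Finset.sum_pair hij] at this
  have hrep : ∃ a : Fin n → U, Function.Injective a ∧ ∀ i j, φ (f i + f j) = pr (a i) (a j) := by
    apply clique_rep (by omega) φ f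
    · intro i j hij
      obtain ⟨b, hb, hbK⟩ := h.cl.mem i j hij
      rw [← lv1c_add hF.kφ hbK]
      exact (hF.edge b (h.BS hb)).resolve_left (hF.nz b (h.BS hb) (hBne b hb))
    · intro T hT h0
      apply h.cl.ind T hT
      have h1 := h.cl.sum_mem T hT
      exact hF.inj _ (hat_mono le_rfl (Finset.coe_subset.2 h.BS) h1) h0 (hσ _ h1)
  obtain ⟨a, ha, haf⟩ := hrep
  have hσ' : ∀ i j, σ (f i + f j) = 0 := by
    intro i j
    by_cases hij : i = j
    · subst hij
      rw [add_self2, map_zero]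
    · exact hσ _ (hpair i j hij)
  have hBpr : ∀ b ∈ B, ∃ i j, φ b = pr (a i) (a j) := by
    intro b hb
    obtain ⟨i, j, _, hbK⟩ := h.cl.sub b hb
    exact ⟨i, j, by rw [lv1c_add hF.kφ hbK, haf]⟩
  have hcard : (univ.image a).card = n := by
    rw [Finset.card_image_of_injective _ ha, Finset.card_univ, Fintype.card_fin]
  rcases twoP_or_struc (mSG S φ σ) (univ.image a) (by rw [hcard]; omega) with
    ⟨p, q, r, s, k, l, hT⟩ | ⟨Z, P, T, s, hS⟩
  · exfalso
    apply h.no
    exact hasO_of_twoP hm (by omega) hF.toMdl f a ha haf hσ'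
      (fun i j hij => by
        obtain ⟨b, hb, hbK⟩ := h.cl.mem i j hij
        exact ⟨b, h.BS hb, hbK⟩) hT
  · refine fs ht hF ⟨a ⟨0, by omega⟩, Finset.mem_image_of_mem _ (Finset.mem_univ _)⟩ hS ?_ ?_
    · intro I hI _ x hx
      unfold stE at hx
      rw [Finset.mem_filter] at hx
      obtain ⟨hxS, u, hu, hxu⟩ := hx
      rw [Finset.mem_sdiff]
      refine ⟨hxS, fun hxB => ?_⟩
      obtain ⟨i, j, hij⟩ := hBpr x hxB
      rw [hij] at hxu
      rcases lv1c_pr hxu with h1 | h1
      · exact Finset.disjoint_left.1 hI hu (h1 ▸ Finset.mem_image_of_mem _ (Finset.mem_univ _))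
      · exact Finset.disjoint_left.1 hI hu (h1 ▸ Finset.mem_image_of_mem _ (Finset.mem_univ _))
    · intro I T s hs hIA hIT _ _ _ x hx
      unfold xE at hx
      simp only [Finset.mem_insert, Finset.mem_filter] at hx
      rw [Finset.mem_sdiff]
      rcases hx with rfl | ⟨hxS, hxe, h1, h2⟩
      · exact ⟨he, fun hxB => hBne _ hxB rfl⟩
      · refine ⟨hxS, fun hxB => h2 ?_⟩
        obtain ⟨i, j, hij⟩ := hBpr x hxB
        have hmemA : ∀ i, a i ∈ univ.image a := fun i =>
          Finset.mem_image_of_mem _ (Finset.mem_univ _)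
        refine ⟨fun u hu => ?_, ?_⟩
        · refine (h1 u hu).resolve_left fun huI => ?_
          rw [hij] at hu
          rcases lv1c_pr hu with h3 | h3
          · exact Finset.disjoint_left.1 hIA huI (h3 ▸ hmemA i)
          · exact Finset.disjoint_left.1 hIA huI (h3 ▸ hmemA j)
        · have h4 : σ x = 0 := hσ x (subset_hat K _ hxB)
          rw [sg', h4, zero_add]
          apply Finset.sum_eq_zero
          intro u _
          by_cases hu : φ x u = 0
          · rw [hu, mul_zero]
          · rw [hij] at hu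
            rcases lv1c_pr hu with h3 | h3
            · rw [h3, hs _ (hmemA i), zero_mul]
            · rw [h3, hs _ (hmemA j), zero_mul]

end Pool.Agent.HC
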