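import Pool.Agent.HC.Par
import Pool.Agent.HC.Ca4
import Pool.Agent.HC.Lv1a
import Pool.Agent.HC.Lv1b
import Pool.Agent.HC.Lv1c
import Pool.Agent.HC.Gr7

/-!
# HC-Lv1: the level one theorem, assembly

A binary configuration without `O_m`-minor which contains a large clique, and in which every set of
order at most two disjoint from the clique is graph-like, is graphic.
-/

namespace Pool.Agent.HC

open Finset Module

variable {V : Type} [AddCommGroup V] [Module F2 V] [DecidableEq V] [FiniteDimensional F2 V]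

omit [DecidableEq V] [FiniteDimensional F2 V] in
private theorem lv1_nz {n : ℕ} {K : Submodule F2 V} {B : Finset V} {f : Fin n → V}
    (h : IsClique K f B) {b : V} (hb : b ∈ B) : b ∉ K := by
  intro hbK
  obtain ⟨i, j, hij, hs⟩ := h.sub b hb
  have h1 : f i + f j ∈ K := (K.add_mem_iff_right hbK).1 hs
  have h2 := h.ind {i, j} (by rw [card_pair hij]; exact even_two)
    (by rw [sum_pair hij]; exact h1)
  exact absurd h2 (insert_ne_empty _ _)

private theorem lv1_del {m n : ℕ} {K : Submodule F2 V} {S B : Finset V} {f : Fin n → V}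
    (h : Hyp1 m K S B f) {x : V} (hx : x ∈ S) (hxB : x ∉ B)
    (hp : x ∈ K ∨ ∃ y ∈ S, y ≠ x ∧ x + y ∈ K) : Hyp1 m K (S.erase x) B f := by
  refine ⟨h.cl, fun b hb => mem_erase.2 ⟨fun h1 => hxB (h1 ▸ hb), h.BS hb⟩, ?_, ?_⟩
  · intro hO
    apply h.no
    have hO' : HasO m (hat K ((∅ : Finset V) : Set V)) (S.erase x) := by
      rw [coe_empty, hat_empty]
      exact hO
    exact hO'.mono (empty_subset S) (erase_subset x S)
  · intro Y hY hl
    have hY' : Y ⊆ S.erase x := hY.trans sdiff_subset
    obtain ⟨Y', h1, h2, h3, h4⟩ := grL_erase_par hx hp hY'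
    refine h4 (h.gl Y' ?_ (by rw [h3]; exact hl))
    intro z hz
    rcases mem_insert.1 (h2 hz) with h5 | h5
    · rw [h5]
      exact mem_sdiff.2 ⟨hx, hxB⟩
    · have h6 := mem_sdiff.1 (hY h5)
      exact mem_sdiff.2 ⟨mem_of_mem_erase h6.1, h6.2⟩

/-- Theorem 1 -/
theorem level_one {m n : ℕ} (hm : 4 ≤ m) (hn : 2 * m ≤ n) {K : Submodule F2 V} {S B : Finset V}
    {f : Fin n → V} (h : Hyp1 m K S B f) : Graphic K (S : Set V) := by
  induction hc : S.card using Nat.strong_induction_on generalizing K S B f with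
  | _ c ih =>
    by_contra ng
    have ih' : ∀ (L : Submodule F2 V) (S' B' : Finset V) (f' : Fin n → V), S'.card < S.card →
        Hyp1 m L S' B' f' → Graphic L (S' : Set V) := by
      intro L S' B' f' hlt h'
      exact ih S'.card (by omega) h' rfl
    have key : ∀ x ∈ S, x ∉ B → ¬ (x ∈ K ∨ ∃ y ∈ S, y ≠ x ∧ x + y ∈ K) := by
      intro x hx hxB hp
      exact ng (graphic_of_erase_par hx hp
        (ih' K (S.erase x) B f (card_erase_lt_of_mem hx) (lv1_del h hx hxB hp)))
    have nz : ∀ x ∈ S, x ∉ K := by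
      intro x hx hxK
      by_cases hxB : x ∈ B
      · exact lv1_nz h.cl hxB hxK
      · exact key x hx hxB (Or.inl hxK)
    have npar : ∀ x ∈ S, ∀ y ∈ S, x + y ∈ K → x = y := by
      intro x hx y hy hxy
      by_contra hne
      by_cases hxB : x ∈ B
      · by_cases hyB : y ∈ B
        · exact hne (h.cl.uniq x hxB y hyB hxy)
        · exact key y hy hyB (Or.inr ⟨x, hx, hne, by rwa [add_comm]⟩)
      · exact key x hx hxB (Or.inr ⟨y, hy, Ne.symm hne, hxy⟩)
    have ht := (h.minCex ih' nz npar ng).tight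
    by_cases hS : ∀ x ∈ S, x ∈ hat K (B : Set V)
    · exact ng (graphic_of_clique hm hn h.cl h.BS h.no hS)
    · push Not at hS
      obtain ⟨e, he, heB⟩ := hS
      exact ng (h.uncontract hm hn ht he heB (h.contract (by omega) ih' ht he heB))

end Pool.Agent.HC
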