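import Pool.Agent.HC.Gr6

/-!
# Level one: the hypothesis
-/

namespace Pool.Agent.HC

open Finset Module

/-- the hypothesis of the level one theorem: a clique on `n` vertices in a configuration without
`O_m`-minor, and every set of order at most two which is disjoint from the clique is graph-like -/
structure Hyp1 {V : Type} [AddCommGroup V] [Module F2 V] [DecidableEq V] (m : ℕ) {n : ℕ}
    (K : Submodule F2 V) (S B : Finset V) (f : Fin n → V) : Prop where
  cl : IsClique K f B
  BS : B ⊆ S
  no : ¬ HasO m K S
  gl : ∀ X, X ⊆ S \ B → lam K S X ≤ 2 → GrL K S X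

end Pool.Agent.HC
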