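import Pool.Agent.HC.Ro3
import Pool.Agent.HC.Lv1
import Pool.Agent.HC.Con5

/-!
# HC-Lv2c: level two, contraction of an element of `C` (3.3)

`N0 := ` the bound of `rooting m (2 * m)` (`5 ≤ 2 * m`). `Hyp2 m (hat K {e}) (S.erase e) (C.erase e) g q`: `IsQ.contract`;
`HasO.mono` with `{e}`; graph-likeness: `X` small in `(S.erase e)`, `lam' X ≤ 2`. `X.card ≤ 3`:
`grL_of_card_le_three`. Otherwise `A := insert e X` is `QSmall S q` (`rq_insert`, `q i j ≠ e` because
`q i j ∉ hat K C`); `Tight.contract_pre`; for `X1 ⊇ A` small: `4 ≤ X1.card`, so `3 ≤ lam K S X1` (`ht.c3`).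
`rooting` with `X0 = A`: `F, B, f`, `L = hat K F`. `(L, A ∪ B)` is graphic by `level_one` (`hn : 2 * m ≤ 2 * m`):
`Hyp1 m L (A ∪ B) B f`: no `O_m` by `HasO.mono`; `Y ⊆ (A ∪ B) \ B` is contained in `A`;
`lam L (A ∪ B) Y = lam K S Y` (`rooted_lam`, its dimension hypothesis: `lam K S A = 3`), so if it is at most 2 then
`Y.card ≤ 3` (`ht.c3`), `grL_of_card_le_three`. Then `grL_contract` (`3 ≤ 2 * m`).
Finally `ih` for `(hat K {e}, S.erase e)`.
-/

namespace Pool.Agent.HC

open Finset Module

theorem exists_contract (m : ℕ) (hm : 4 ≤ m) : ∃ N0 : ℕ, ∀ N, N0 ≤ N →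
    ∀ (V : Type) [AddCommGroup V] [Module F2 V] [DecidableEq V] [FiniteDimensional F2 V]
      (K : Submodule F2 V) (S C : Finset V) (g : Fin N → V) (q : Fin N → Fin N → V) (e : V),
      Hyp2 m K S C g q → Tight K S (QSmall S q) → e ∈ C →
      (∀ (L : Submodule F2 V) (S' C' : Finset V) (g' : Fin N → V) (q' : Fin N → Fin N → V),
        S'.card < S.card → Hyp2 m L S' C' g' q' → Graphic L (S' : Set V)) →
      Graphic (hat K {e}) ((S.erase e : Finset V) : Set V) := by
  obtain ⟨N0, hN0⟩ := rooting m (2 * m) hm (by omega)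
  refine ⟨N0, ?_⟩
  intro N hN V _ _ _ _ K S C g q e h ht he ih
  have heS : e ∈ S := h.isq.CS he
  refine ih (hat K {e}) (S.erase e) (C.erase e) g q (card_erase_lt_of_mem heS)
    ⟨h.isq.contract he, ?_, ?_⟩
  · intro hO
    apply h.no
    have hO' : HasO m (hat K (({e} : Finset V) : Set V)) (S.erase e) := by
      rw [coe_singleton]
      exact hO
    exact hO'.mono (singleton_subset_iff.2 heS) (erase_subset e S)
  · intro X hX hl
    by_cases hc : X.card ≤ 3
    · exact grL_of_card_le_three hc hl
    have hc4 : 4 ≤ X.card := by omega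
    have heX : e ∉ X := fun h1 => notMem_erase e S (hX.1 h1)
    have heC : e ∈ hat K (C : Set V) := subset_hat K _ (mem_coe.2 he)
    have hqe : ∀ i j, i ≠ j → q i j ≠ e := by
      intro i j hij h1
      have h2 := h.isq.qg i j hij
      rw [h1] at h2
      have h3 : g i + g j ∈ hat K (C : Set V) :=
        ((hat K (C : Set V)).add_mem_iff_right heC).1 h2
      have h4 := h.isq.gind {i, j} (by rw [card_pair hij]; exact even_two)
        (by rw [sum_pair hij]; exact h3)
      exact absurd h4 (insert_ne_empty _ _)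
    have hA : QSmall S q (insert e X) :=
      ⟨insert_subset heS (hX.1.trans (erase_subset e S)), by
        rw [rq_insert q X hqe]
        exact hX.2⟩
    obtain ⟨a1, a2, a3, a4, a5⟩ := ht.contract_pre heS hA heX hc4 hl
    obtain ⟨F, B, f, hF, hB, hcap, hcl, hdim⟩ := hN0 N hN V K S C (insert e X) g q h.isq h.no hA
      (le_of_eq a3) (by
        intro X1 h1 h2
        by_contra h3
        have h4 := ht.c3 X1 h2 (by omega)
        have h5 := card_le_card h1
        rw [card_insert_of_notMem heX] at h5
        omega)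
    have hKL : K ≤ hat K (F : Set V) := le_hat _ _
    have hLZ : hat K (F : Set V) ≤ hat K ((S \ insert e X : Finset V) : Set V) :=
      hat_mono le_rfl (coe_subset.2 hF)
    have hdim' : finrank F2 (hat K (F : Set V)) + lam K S (insert e X) ≤
        finrank F2 ↥(hat (hat K (F : Set V)) ((insert e X : Finset V) : Set V) ⊓
          hat (hat K (F : Set V)) (B : Set V)) := by
      rw [a3]
      exact hdim
    have hg : Graphic (hat K (F : Set V)) ((insert e X ∪ B : Finset V) : Set V) := by
      refine level_one hm (le_refl (2 * m)) (B := B) (f := f) ⟨hcl, subset_union_right, ?_, ?_⟩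
      · intro hO
        exact h.no (hO.mono (hF.trans sdiff_subset)
          (union_subset hA.1 (hB.trans sdiff_subset)))
      · intro Y hY hlY
        have hYA : Y ⊆ insert e X := by
          intro y hy
          rcases mem_union.1 (mem_sdiff.1 (hY hy)).1 with h1 | h1
          · exact h1
          · exact absurd h1 (mem_sdiff.1 (hY hy)).2
        have e1 := rooted_lam hA.1 hB hKL hLZ hcap hdim' hYA
        refine grL_of_card_le_three (ht.c3 Y (ht.sub _ _ hA hYA) ?_) hlY
        rw [← e1]
        exact hlY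
    exact grL_contract ht heS hA heX hc4 hl (by omega) hB hKL hLZ hcap hcl hdim hg

end Pool.Agent.HC
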