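import Pool.Agent.HC.ClD
import Pool.Agent.HC.Pth

/-!
# HC-PGa: rerouting (4.2)

Call a step `(x, y)` of a list (two consecutive elements) external if there is no `i` with
`x ∈ cl i` and `y ∈ cl i`; `cost l` = number of external steps. Among all pairs of lists
`l1 = p :: (k ++ [q])`, `l2 = r :: (l ++ [s])` with `TwoP G (univ.image a) p q r s k l` take one with
`cost l1 + cost l2` minimal. Let `p = a i1`, `q = a i2`, `r = a i3`, `s = a i4`. CLAIM: no vertex of
`l1` or `l2` is in `cl j` for `j ≠ i1, .., i4`; this is `Lnk`. Suppose there is one, `y ∈ cl j`. Among all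
`H`-walks inside `cl j` from `a j` to a vertex of `l1 ∪ l2` (one exists by `hT`) take a shortest one; its last
vertex `x` is its only vertex on `l1 ∪ l2`, and it has no repetition (`IsPath`; or take `toPath`, resp.
`takeUntil`). `SG.Path.of_walk` gives a list `D ++ [x]` with `G.Path (D ++ [x]) 0`, all vertices in `cl j`,
`D` disjoint from `l1 ∪ l2`, first vertex `a j` (`x ≠ a j`: `l1 ∪ l2` contains only the roots
`a i1, .., a i4`, by `TwoP.kA`, `TwoP.lA`, and `a` is injective).
Say `x ∈ l1` (the other case is symmetric: exchange the two paths). `x ≠ p, q`: `p ∈ cl i1`, and the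
clusters are disjoint. `l1 = m1 ++ x :: m2`; `SG.Path.split`: parities `p1 + p2 = 1`.
If `p2 = 1`: new first path `D ++ x :: m2` from `a j` to `q` (`SG.Path.append`, parity 1);
if `p1 = 1`: new first path `(m1 ++ [x]) ++ D.reverse` from `p` to `a j`. Its inner vertices are not roots
(`D ++ [x]` lies in `cl j` and has no repetition, so it contains the root `a j` only at the start). It is
disjoint from `l2`. Cost: the steps in `D ++ [x]` are not external, and the dropped part contains an
external step, because it connects `p ∈ cl i1` (resp. `q ∈ cl i2`) with `x ∈ cl j`, `j ≠ i1` (a list whose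
steps are all internal and which starts in `cl i1` stays in `cl i1`, as the clusters are disjoint).
So the cost decreases, contradiction.
-/

namespace Pool.Agent.HC

open Finset

variable {U : Type} [Fintype U] [DecidableEq U] {n : ℕ}

open Classical in
/-- number of the external steps -/
private noncomputable def pgCost (cl : Fin n → Finset U) : List U → ℕ
  | [] => 0
  | [_] => 0
  | x :: y :: l => (if ∃ i, x ∈ cl i ∧ y ∈ cl i then 0 else 1) + pgCost cl (y :: l)

omit [Fintype U] in
private theorem pgCost_append (cl : Fin n → Finset U) (x : U) (l2 : List U) : ∀ l1 : List U,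
    pgCost cl (l1 ++ x :: l2) = pgCost cl (l1 ++ [x]) + pgCost cl (x :: l2)
  | [] => by simp [pgCost]
  | [y] => by
    simp only [List.cons_append, List.nil_append, pgCost]
    omega
  | y :: z :: l1 => by
    have ih := pgCost_append cl x l2 (z :: l1)
    simp only [List.cons_append, pgCost] at ih ⊢
    rw [ih]
    omega

omit [Fintype U] in
private theorem pgCost_int (cl : Fin n → Finset U) (j : Fin n) : ∀ l : List U,
    (∀ y ∈ l, y ∈ cl j) → pgCost cl l = 0
  | [], _ => rfl
  | [_], _ => rfl
  | x :: y :: l, h => by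
    have ih := pgCost_int cl j (y :: l) fun z hz => h z (List.mem_cons_of_mem _ hz)
    rw [pgCost, if_pos ⟨j, h x List.mem_cons_self, h y (by simp)⟩, ih]

omit [Fintype U] in
private theorem pg_uniq {cl : Fin n → Finset U} (hd : ∀ i j, i ≠ j → Disjoint (cl i) (cl j))
    {x : U} {i j : Fin n} (hi : x ∈ cl i) (hj : x ∈ cl j) : i = j := by
  by_contra h
  exact Finset.disjoint_left.1 (hd i j h) hi hj

omit [Fintype U] in
private theorem pgCost_zero {cl : Fin n → Finset U} (hd : ∀ i j, i ≠ j → Disjoint (cl i) (cl j))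
    (j : Fin n) : ∀ (l : List U) (x : U), x ∈ cl j → pgCost cl (x :: l) = 0 →
      ∀ y ∈ x :: l, y ∈ cl j
  | [], x, hx, _, y, hy => by
    rw [List.mem_singleton] at hy
    rw [hy]; exact hx
  | z :: l, x, hx, h, y, hy => by
    rw [pgCost] at h
    have h1 : ∃ i, x ∈ cl i ∧ z ∈ cl i := by
      by_contra hcon
      rw [if_neg hcon] at h
      omega
    obtain ⟨i, hxi, hzi⟩ := h1
    have hij := pg_uniq hd hxi hx
    rw [hij] at hzi
    have h2 : pgCost cl (z :: l) = 0 := by omega
    rcases List.mem_cons.1 hy with rfl | hy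
    · exact hx
    · exact pgCost_zero hd j l z hzi h2 y hy

omit [Fintype U] in
private theorem pgCost_pos {cl : Fin n → Finset U} (hd : ∀ i j, i ≠ j → Disjoint (cl i) (cl j))
    {i j : Fin n} (hij : i ≠ j) {x y : U} {l : List U} (hx : x ∈ cl i) (hy : y ∈ cl j)
    (hyl : y ∈ x :: l) : 1 ≤ pgCost cl (x :: l) := by
  by_contra h
  have h0 : pgCost cl (x :: l) = 0 := by omega
  exact hij (pg_uniq hd (pgCost_zero hd i l x hx h0 y hyl) hy)

private theorem pg_reach {H : SimpleGraph U} (Q : Set U) {u y : U} (w : H.Walk u y) (hy : y ∈ Q) :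
    ∃ x ∈ Q, ∃ w' : H.Walk u x, w'.IsPath ∧ (∀ z ∈ w'.support, z ∈ w.support) ∧
      ∀ z ∈ w'.support, z ∈ Q → z = x := by
  classical
  induction w with
  | nil =>
    refine ⟨_, hy, SimpleGraph.Walk.nil, SimpleGraph.Walk.IsPath.nil, fun z hz => hz, ?_⟩
    intro z hz _
    simpa using hz
  | @cons u u' y hadj w ih =>
    by_cases hu : u ∈ Q
    · refine ⟨u, hu, SimpleGraph.Walk.nil, SimpleGraph.Walk.IsPath.nil, ?_, ?_⟩
      · intro z hz
        have : z = u := by simpa using hz
        rw [this]
        simp
      · intro z hz _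
        simpa using hz
    · obtain ⟨x, hx, w', _, h2, h3⟩ := ih hy
      refine ⟨x, hx, (SimpleGraph.Walk.cons hadj w').bypass,
        SimpleGraph.Walk.bypass_isPath _, ?_, ?_⟩
      · intro z hz
        have h4 := SimpleGraph.Walk.support_bypass_subset _ hz
        rw [SimpleGraph.Walk.support_cons] at h4 ⊢
        rcases List.mem_cons.1 h4 with h5 | h5
        · rw [h5]; exact List.mem_cons_self
        · exact List.mem_cons_of_mem _ (h2 z h5)
      · intro z hz hzQ
        have h4 := SimpleGraph.Walk.support_bypass_subset _ hz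
        rw [SimpleGraph.Walk.support_cons] at h4
        rcases List.mem_cons.1 h4 with h5 | h5
        · rw [h5] at hzQ
          exact absurd hzQ hu
        · exact h3 z h5 hzQ

private theorem pg_core {G : SG U} {cl : Fin n → Finset U} {a : Fin n → U}
    (hd : ∀ i j, i ≠ j → Disjoint (cl i) (cl j)) (ha : ∀ i, a i ∈ cl i)
    {r s : U} {k l : List U} {i1 i2 j : Fin n}
    (h : TwoP G (univ.image a) (a i1) (a i2) r s k l) (h1 : j ≠ i1) (h2 : j ≠ i2)
    {D : List U} {x : U} (hD : G.Path (a j :: (D ++ [x])) 0)
    (hDc : ∀ y ∈ a j :: (D ++ [x]), y ∈ cl j)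
    (hD1 : ∀ y ∈ a j :: D, y ∉ a i1 :: (k ++ [a i2]))
    (hD2 : ∀ y ∈ a j :: D, y ∉ r :: (l ++ [s]))
    (hx : x ∈ a i1 :: (k ++ [a i2])) :
    ∃ p q k', TwoP G (univ.image a) p q r s k' l ∧
      pgCost cl (p :: (k' ++ [q])) < pgCost cl (a i1 :: (k ++ [a i2])) := by
  have hxj : x ∈ cl j := hDc x (by simp)
  have hx1 : x ≠ a i1 := fun he => h1 (pg_uniq hd hxj (by rw [he]; exact ha i1))
  have hx2 : x ≠ a i2 := fun he => h2 (pg_uniq hd hxj (by rw [he]; exact ha i2))
  have hxk : x ∈ k := by
    rcases List.mem_cons.1 hx with h3 | h3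
    · exact absurd h3 hx1
    · rcases List.mem_append.1 h3 with h4 | h4
      · exact h4
      · exact absurd (List.mem_singleton.1 h4) hx2
  obtain ⟨m1, m2, rfl⟩ := List.append_of_mem hxk
  have hl1 : a i1 :: ((m1 ++ x :: m2) ++ [a i2]) = (a i1 :: m1) ++ x :: (m2 ++ [a i2]) := by simp
  have hpath := h.p1
  rw [hl1] at hpath
  obtain ⟨p1, p2, hp1, hp2, hp⟩ := hpath.split
  -- roots in `cl j`
  have hroot : ∀ y, y ∈ cl j → y ≠ a j → y ∉ univ.image a := by
    intro y hy hne hmem
    obtain ⟨i, _, hi⟩ := Finset.mem_image.1 hmem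
    have hji : i = j := pg_uniq hd (by rw [← hi]; exact ha i) hy
    rw [hji] at hi
    exact hne hi.symm
  have hnd := hD.nodup
  have hDroot : ∀ y ∈ D, y ∉ univ.image a := by
    intro y hy
    apply hroot y (hDc y (by simp [hy]))
    rintro rfl
    rw [List.nodup_cons] at hnd
    exact hnd.1 (by simp [hy])
  have hja : a j ∈ univ.image a := Finset.mem_image_of_mem a (Finset.mem_univ j)
  have hp12 : p2 = 1 ∨ p1 = 1 := by
    rcases (show ∀ b : F2, b = 0 ∨ b = 1 by decide) p2 with h3 | h3
    · right
      rw [h3, add_zero] at hp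
      exact hp.symm
    · exact Or.inl h3
  rcases hp12 with h3 | h3
  · refine ⟨a j, a i2, D ++ x :: m2, ?_, ?_⟩
    · have hnew : a j :: ((D ++ x :: m2) ++ [a i2]) = (a j :: D) ++ x :: (m2 ++ [a i2]) := by simp
      refine ⟨?_, h.p2, hja, h.bA, h.cA, h.dA, ?_, h.lA, ?_⟩
      · rw [hnew]
        have h4 := SG.Path.append (l1 := a j :: D) (l2 := m2 ++ [a i2]) (x := x)
          (by simpa using hD) hp2 (by
            intro y hy hy2
            apply hD1 y hy
            rw [hl1]
            simp only [List.mem_append, List.mem_cons] at hy2 ⊢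
            tauto)
        rw [h3, zero_add] at h4
        exact h4
      · intro y hy
        rcases List.mem_append.1 hy with h5 | h5
        · exact hDroot y h5
        · apply h.kA y
          exact List.mem_append.2 (Or.inr h5)
      · intro y hy
        rw [hnew] at hy
        rcases List.mem_append.1 hy with h5 | h5
        · exact hD2 y h5
        · apply h.disj y
          rw [hl1]
          exact List.mem_append.2 (Or.inr h5)
    · have hnew : a j :: ((D ++ x :: m2) ++ [a i2]) = (a j :: D) ++ x :: (m2 ++ [a i2]) := by simp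
      rw [hnew, hl1, pgCost_append, pgCost_append cl x _ (a i1 :: m1)]
      have h4 : pgCost cl (a j :: D ++ [x]) = 0 := pgCost_int cl j _ (by simpa using hDc)
      have h5 : 1 ≤ pgCost cl (a i1 :: m1 ++ [x]) :=
        pgCost_pos hd (fun he => h1 he.symm) (ha i1) hxj (by simp)
      omega
  · refine ⟨a i1, a j, m1 ++ x :: D.reverse, ?_, ?_⟩
    · have hnew : a i1 :: ((m1 ++ x :: D.reverse) ++ [a j]) =
          (a i1 :: m1) ++ x :: (D.reverse ++ [a j]) := by simp
      refine ⟨?_, h.p2, h.aA, hja, h.cA, h.dA, ?_, h.lA, ?_⟩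
      · rw [hnew]
        have h4 := SG.Path.append (l1 := a i1 :: m1) (l2 := D.reverse ++ [a j]) (x := x)
          hp1 (by simpa using hD.reverse) (by
            intro y hy hy2
            apply hD1 y (by
              simp only [List.mem_append, List.mem_reverse, List.mem_singleton,
                List.mem_cons] at hy2 ⊢
              tauto)
            rw [hl1]
            exact List.mem_append.2 (Or.inl hy))
        rw [h3, add_zero] at h4
        exact h4
      · intro y hy
        rcases List.mem_append.1 hy with h5 | h5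
        · apply h.kA y
          exact List.mem_append.2 (Or.inl h5)
        · rcases List.mem_cons.1 h5 with h6 | h6
          · apply h.kA y
            rw [h6]
            exact List.mem_append.2 (Or.inr List.mem_cons_self)
          · exact hDroot y (List.mem_reverse.1 h6)
      · intro y hy
        rw [hnew] at hy
        rcases List.mem_append.1 hy with h5 | h5
        · apply h.disj y
          rw [hl1]
          exact List.mem_append.2 (Or.inl h5)
        · rcases List.mem_cons.1 h5 with h6 | h6
          · rw [h6]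
            exact h.disj x hx
          · apply hD2 y
            simp only [List.mem_append, List.mem_reverse, List.mem_singleton,
              List.mem_cons] at h6 ⊢
            tauto
    · have hnew : a i1 :: ((m1 ++ x :: D.reverse) ++ [a j]) =
          (a i1 :: m1) ++ x :: (D.reverse ++ [a j]) := by simp
      rw [hnew, hl1, pgCost_append, pgCost_append cl x (m2 ++ [a i2])]
      have h4 : pgCost cl (x :: (D.reverse ++ [a j])) = 0 := by
        apply pgCost_int cl j
        intro y hy
        apply hDc
        simp only [List.mem_append, List.mem_reverse, List.mem_singleton,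
          List.mem_cons] at hy ⊢
        tauto
      have h5 : 1 ≤ pgCost cl (x :: (m2 ++ [a i2])) :=
        pgCost_pos hd h2 hxj (ha i2) (by simp)
      omega

private theorem pg_swap {G : SG U} {A : Finset U} {p q r s : U} {k l : List U}
    (h : TwoP G A p q r s k l) : TwoP G A r s p q l k :=
  ⟨h.p2, h.p1, h.cA, h.dA, h.aA, h.bA, h.lA, h.kA, fun x hx hx' => h.disj x hx' hx⟩

private theorem pg_main {G : SG U} {cl : Fin n → Finset U} {a : Fin n → U}
    (hd : ∀ i j, i ≠ j → Disjoint (cl i) (cl j)) (ha : ∀ i, a i ∈ cl i) (H : SimpleGraph U)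
    (hH : ∀ u w, H.Adj u w → G.adj 0 u w)
    (hT : ∀ i, ∀ x ∈ cl i, ∃ w : H.Walk (a i) x, ∀ y ∈ w.support, y ∈ cl i) :
    ∀ (N : ℕ) (p q r s : U) (k l : List U), TwoP G (univ.image a) p q r s k l →
      pgCost cl (p :: (k ++ [q])) + pgCost cl (r :: (l ++ [s])) = N →
      ∃ i1 i2 i3 i4 k' l', Lnk G cl a i1 i2 i3 i4 k' l' := by
  intro N
  induction N using Nat.strong_induction_on with
  | _ N ih =>
    intro p q r s k l h hN
    obtain ⟨i1, _, hi1⟩ := Finset.mem_image.1 h.aA
    obtain ⟨i2, _, hi2⟩ := Finset.mem_image.1 h.bA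
    obtain ⟨i3, _, hi3⟩ := Finset.mem_image.1 h.cA
    obtain ⟨i4, _, hi4⟩ := Finset.mem_image.1 h.dA
    subst hi1 hi2 hi3 hi4
    by_cases hbad : ∃ y j, (y ∈ a i1 :: (k ++ [a i2]) ∨ y ∈ a i3 :: (l ++ [a i4])) ∧ y ∈ cl j ∧
        j ≠ i1 ∧ j ≠ i2 ∧ j ≠ i3 ∧ j ≠ i4
    · obtain ⟨y, j, hy, hyj, hj1, hj2, hj3, hj4⟩ := hbad
      obtain ⟨w, hw⟩ := hT j y hyj
      obtain ⟨x, hx, w', hw', hs, hf⟩ := pg_reach
        {z | z ∈ a i1 :: (k ++ [a i2]) ∨ z ∈ a i3 :: (l ++ [a i4])} w hy
      have hxx : x ∈ a i1 :: (k ++ [a i2]) ∨ x ∈ a i3 :: (l ++ [a i4]) := hx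
      have hinj : ∀ i i', a i = a i' → i = i' := fun i i' he =>
        pg_uniq hd (ha i) (by rw [he]; exact ha i')
      have hjA : a j ∈ univ.image a := Finset.mem_image_of_mem a (Finset.mem_univ j)
      have hjx : a j ≠ x := by
        intro he
        rw [← he] at hxx
        rcases hxx with h3 | h3
        · rcases List.mem_cons.1 h3 with h4 | h4
          · exact hj1 (hinj _ _ h4)
          · rcases List.mem_append.1 h4 with h5 | h5
            · exact h.kA _ h5 hjA
            · exact hj2 (hinj _ _ (List.mem_singleton.1 h5))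
        · rcases List.mem_cons.1 h3 with h4 | h4
          · exact hj3 (hinj _ _ h4)
          · rcases List.mem_append.1 h4 with h5 | h5
            · exact h.lA _ h5 hjA
            · exact hj4 (hinj _ _ (List.mem_singleton.1 h5))
      -- the list
      obtain ⟨D, hDs⟩ : ∃ D, w'.support = a j :: (D ++ [x]) := by
        cases w' with
        | nil => exact absurd rfl hjx
        | @cons _ u' _ hadj w1 =>
          refine ⟨w1.support.dropLast, ?_⟩
          rw [SimpleGraph.Walk.support_cons]
          congr 1
          have h4 := List.dropLast_append_getLast (SimpleGraph.Walk.support_ne_nil w1)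
          rw [SimpleGraph.Walk.getLast_support] at h4
          exact h4.symm
      have hD : G.Path (a j :: (D ++ [x])) 0 := by
        rw [← hDs]
        exact SG.Path.of_walk hH w' hw'
      have hDc : ∀ y ∈ a j :: (D ++ [x]), y ∈ cl j := by
        intro y hy
        rw [← hDs] at hy
        exact hw y (hs y hy)
      have hnd : (a j :: (D ++ [x])).Nodup := hD.nodup
      have hDQ : ∀ z ∈ a j :: D, ¬ (z ∈ a i1 :: (k ++ [a i2]) ∨ z ∈ a i3 :: (l ++ [a i4])) := by
        intro z hz hzQ
        have h4 : z ∈ w'.support := by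
          rw [hDs]
          simp only [List.mem_append, List.mem_cons] at hz ⊢
          tauto
        have h5 : z = x := hf z h4 hzQ
        have h6 : x ∉ a j :: D := by
          have h7 : a j :: (D ++ [x]) = (a j :: D) ++ [x] := rfl
          rw [h7, List.nodup_append] at hnd
          intro h8
          exact hnd.2.2 x h8 x (List.mem_singleton_self x) rfl
        rw [h5] at hz
        exact h6 hz
      rcases hxx with hx1 | hx1
      · obtain ⟨p', q', k', hT', hc⟩ := pg_core hd ha h hj1 hj2 hD hDc
          (fun z hz h4 => hDQ z hz (Or.inl h4)) (fun z hz h4 => hDQ z hz (Or.inr h4)) hx1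
        exact ih _ (by omega) _ _ _ _ _ _ hT' rfl
      · obtain ⟨p', q', k', hT', hc⟩ := pg_core hd ha (pg_swap h) hj3 hj4 hD hDc
          (fun z hz h4 => hDQ z hz (Or.inr h4)) (fun z hz h4 => hDQ z hz (Or.inl h4)) hx1
        exact ih _ (by omega) _ _ _ _ _ _ hT' rfl
    · refine ⟨i1, i2, i3, i4, k, l, h.p1, h.p2, h.disj, ?_, ?_⟩
      · intro x hx j hj
        by_contra hcon
        push Not at hcon
        exact hbad ⟨x, j, Or.inl hx, hj, hcon.1, hcon.2.1, hcon.2.2.1, hcon.2.2.2⟩
      · intro x hx j hj
        by_contra hcon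
        push Not at hcon
        exact hbad ⟨x, j, Or.inr hx, hj, hcon.1, hcon.2.1, hcon.2.2.1, hcon.2.2.2⟩

/-- `H` is a graph of even edges in which every cluster is connected -/
theorem reroute {G : SG U} {cl : Fin n → Finset U} {a : Fin n → U} {v : Fin n → Fin n → U}
    {tp : Fin n → Fin n → List U} (hC : Clus G cl a v tp) (H : SimpleGraph U)
    (hH : ∀ u w, H.Adj u w → G.adj 0 u w)
    (hT : ∀ i, ∀ x ∈ cl i, ∃ w : H.Walk (a i) x, ∀ y ∈ w.support, y ∈ cl i)
    {p q r s : U} {k l : List U} (h : TwoP G (univ.image a) p q r s k l) :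
    ∃ i1 i2 i3 i4 k' l', Lnk G cl a i1 i2 i3 i4 k' l' := by
  exact pg_main hC.disj hC.aC H hH hT _ p q r s k l h rfl

end Pool.Agent.HC
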