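import Pool.Agent.HC.PGj

/-!
# HC-PGk: the pure graph theorem (4.7, second part, and assembly of 4.3 - 4.7)

`L := univ.filter (fun j => j ≠ i1 ∧ j ≠ i2 ∧ j ≠ i3 ∧ j ≠ i4)`, `n ≤ L.card + 4`. `hst L`: `Z, P, T, s`.
`exists_nrm`: `Nrm` with indices `j1, .., j4 ∉ L`; `Nrm.Z_empty`, `Nrm.T_three`: `T.card = 3`,
`T` ⊆ the two paths or `cl j3`, so `hT : ∀ t ∈ T, ∀ i ∈ L, t ∉ cl i` (`av1`, `av2`, disjoint clusters).
`balanced` for all `l ∈ L`, `exists_switch`: `I, s2`. `Far cl (I ∪ T)`: all `i ∈ L`. `hcut.three`: `t1, t2, t3`, every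
`G`-edge `q u w` with `q ≠ s2 u + s2 w` is `t1 t2` or `t2 t3`; so it has the end `t2`, and both ends are
in `T`. `s2 (a j1) = s2 (a j2) = s2 (a j4) = 0` (`Nrm.a1, a2, a4`, these roots are in `P` and true).
(1) `l2 = a j3 :: (l ++ [a j4])` has at most one vertex in `T` (`u2T`), so no two consecutive vertices
form an odd edge, and `SG.Path.even_of` with `s2`: `1 = s2 (a j3) + s2 (a j4) = s2 (a j3)`.
(2) For `i ∈ L`: `tp j3 i ++ [v i j3]` is a path of `G` of parity 0 (`tpP`, the link, `SG.Path.append`),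
`s2 (v i j3) = 0`. If `t2` were not on it, `SG.Path.even_of` would give `0 = s2 (a j3) + 0 = 1`. So
`t2 ∈ tp j3 i` (`t2 ≠ v i j3 ∈ cl i` by `hT`). If `t2 ≠ a j3`, `cent` gives `2 * L.card + 2 ≤ n`,
contradiction. So `t2 = a j3`.
(3) `l1 = a j1 :: (k ++ [a j2])` does not contain `a j3 = t2` (`Lnk.disj`), so `SG.Path.even_of` gives
`1 = s2 (a j1) + s2 (a j2) = 0`. Contradiction.
-/

namespace Pool.Agent.HC

open Finset

variable {U : Type} [Fintype U] [DecidableEq U] {n : ℕ} {G : SG U} {cl : Fin n → Finset U}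
  {a : Fin n → U} {v : Fin n → Fin n → U} {tp : Fin n → Fin n → List U}

private theorem last_aux {U : Type} (x y : U) (l : List U) :
    (x :: (l ++ [y])).getLast? = some y := by
  rw [← List.cons_append, List.getLast?_concat]

private theorem even_avoid {U : Type} {G : SG U} {l : List U} {p : F2} (h : G.Path l p)
    {s2 : U → F2} {t1 t2 t3 : U}
    (ho : ∀ p u w, G.adj p u w → p ≠ s2 u + s2 w →
        (u = t1 ∧ w = t2) ∨ (u = t2 ∧ w = t1) ∨ (u = t2 ∧ w = t3) ∨ (u = t3 ∧ w = t2))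
    (ht : t2 ∉ l) {x y : U} (hx : l.head? = some x) (hy : l.getLast? = some y) :
    p = s2 x + s2 y := by
  refine h.even_of s2 ?_ hx hy
  intro l1 l2 u w hl q hq
  by_contra hne
  have hu : u ∈ l := by rw [hl]; simp
  have hw : w ∈ l := by rw [hl]; simp
  rcases ho q u w hq hne with ⟨h1, h2⟩ | ⟨h1, h2⟩ | ⟨h1, h2⟩ | ⟨h1, h2⟩
  · exact ht (h2 ▸ hw)
  · exact ht (h1 ▸ hu)
  · exact ht (h1 ▸ hu)
  · exact ht (h2 ▸ hw)

theorem no_lnk (hn : 28 ≤ n) (hC : Clus G cl a v tp) (hcut : Cuts G cl)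
    (hst : ∀ L : Finset (Fin n), n ≤ L.card + 5 →
      ∃ Z P T s, Struc (G.collapse (col cl a L)) (L.image a) Z P T s)
    {i1 i2 i3 i4 : Fin n} {k l : List U} (h : Lnk G cl a i1 i2 i3 i4 k l) : False := by
  classical
  set L : Finset (Fin n) := univ.filter (fun j => j ≠ i1 ∧ j ≠ i2 ∧ j ≠ i3 ∧ j ≠ i4) with hLdef
  have hLc : n ≤ L.card + 4 := by
    have h1 : L.card + (univ.filter (fun j : Fin n => ¬ (j ≠ i1 ∧ j ≠ i2 ∧ j ≠ i3 ∧ j ≠ i4))).card
        = n := by
      rw [hLdef, card_filter_add_card_filter_not, card_univ, Fintype.card_fin]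
    have h2 : (univ.filter (fun j : Fin n => ¬ (j ≠ i1 ∧ j ≠ i2 ∧ j ≠ i3 ∧ j ≠ i4))) ⊆
        {i1, i2, i3, i4} := by
      intro j hj
      have hj' := (mem_filter.1 hj).2
      simp only [mem_insert, mem_singleton]
      by_contra hcon
      exact hj' ⟨fun e => hcon (Or.inl e), fun e => hcon (Or.inr (Or.inl e)),
        fun e => hcon (Or.inr (Or.inr (Or.inl e))), fun e => hcon (Or.inr (Or.inr (Or.inr e)))⟩
    have h3 := (card_le_card h2).trans card_le_four
    omega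
  have hi1 : i1 ∉ L := fun hi => (mem_filter.1 hi).2.1 rfl
  have hi2 : i2 ∉ L := fun hi => (mem_filter.1 hi).2.2.1 rfl
  have hi3 : i3 ∉ L := fun hi => (mem_filter.1 hi).2.2.2.1 rfl
  have hi4 : i4 ∉ L := fun hi => (mem_filter.1 hi).2.2.2.2 rfl
  obtain ⟨Z, P, T, s, hS⟩ := hst L (by omega)
  obtain ⟨j1, j2, j3, j4, k', l', hN, _⟩ := exists_nrm hn hC (by omega) hS h hi1 hi2 hi3 hi4
  have hZ := hN.Z_empty hn hC hcut (by omega) hS
  subst hZ
  obtain ⟨hT3, hTl⟩ := hN.T_three hn hC (by omega) hS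
  have hcl : ∀ {i j : Fin n} {x : U}, x ∈ cl i → x ∈ cl j → i = j := by
    intro i j x hi hj
    by_contra hne
    exact (disjoint_left.1 (hC.disj i j hne)) hi hj
  have hT : ∀ t ∈ T, ∀ i ∈ L, t ∉ cl i := by
    intro t ht i hi hti
    rcases hTl t ht with h1 | h1 | h1
    · rcases hN.lnk.av1 t h1 i hti with rfl | rfl | rfl | rfl
      · exact hN.L1 hi
      · exact hN.L2 hi
      · exact hN.L3 hi
      · exact hN.L4 hi
    · rcases hN.lnk.av2 t h1 i hti with rfl | rfl | rfl | rfl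
      · exact hN.L1 hi
      · exact hN.L2 hi
      · exact hN.L3 hi
      · exact hN.L4 hi
    · exact hN.L3 (hcl hti h1 ▸ hi)
  obtain ⟨I, s2, hIT, hIf, hIa, hodd, hre, hs0, hsP⟩ := exists_switch hC hcut (by omega) hS hT
    (fun l hl => balanced hn hC hcut hst h hLc hi1 hi2 hi3 hi4 hS hT hl)
  have hFar : Far cl (I ∪ T) := by
    unfold Far
    have h1 : L ⊆ univ.filter (fun i => Disjoint (cl i) (I ∪ T)) := by
      intro i hi
      refine mem_filter.2 ⟨mem_univ _, ?_⟩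
      rw [disjoint_left]
      intro x hx hxI
      rcases mem_union.1 hxI with h2 | h2
      · exact hIf x h2 i hi hx
      · exact hT x h2 i hi hx
    have h2 := card_le_card h1
    omega
  obtain ⟨t1, t2, t3, h12, h13, h23, hTe, ho⟩ := hcut.three I T s2 hT3 hIT hFar hIa hodd hre
  have ht1 : t1 ∈ T := by rw [hTe]; simp
  have ht2 : t2 ∈ T := by rw [hTe]; simp
  have ht3 : t3 ∈ T := by rw [hTe]; simp
  have hroot : ∀ j, j ∉ L → ∀ i ∈ L, a j ∉ cl i := by
    intro j hj i hi hji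
    exact hj (hcl (hC.aC j) hji ▸ hi)
  have z1 : s2 (a j1) = 0 := by rw [hsP _ hN.a1.1 (hroot _ hN.L1), hN.a1.2]
  have z2 : s2 (a j2) = 0 := by rw [hsP _ hN.a2.1 (hroot _ hN.L2), hN.a2.2]
  have z4 : s2 (a j4) = 0 := by rw [hsP _ hN.a4.1 (hroot _ hN.L4), hN.a4.2]
  have z3 : s2 (a j3) = 1 := by
    have h1 := hN.lnk.p2.even_of s2 (a := a j3) (b := a j4) ?_ rfl
      (last_aux _ _ _)
    · rw [z4, add_zero] at h1
      exact h1.symm
    · intro m1 m2 u w hl q hq
      by_contra hne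
      have hu : u ∈ a j3 :: (l' ++ [a j4]) := by rw [hl]; simp
      have hw : w ∈ a j3 :: (l' ++ [a j4]) := by rw [hl]; simp
      rcases ho q u w hq hne with ⟨h1, h2⟩ | ⟨h1, h2⟩ | ⟨h1, h2⟩ | ⟨h1, h2⟩
      · exact h12 (by rw [← h1, ← h2]; exact hN.u2T u (h1 ▸ ht1) w (h2 ▸ ht2) hu hw)
      · exact h12.symm (by rw [← h1, ← h2]; exact hN.u2T u (h1 ▸ ht2) w (h2 ▸ ht1) hu hw)
      · exact h23 (by rw [← h1, ← h2]; exact hN.u2T u (h1 ▸ ht2) w (h2 ▸ ht3) hu hw)
      · exact h23.symm (by rw [← h1, ← h2]; exact hN.u2T u (h1 ▸ ht3) w (h2 ▸ ht2) hu hw)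
  have htp : ∀ i ∈ L, t2 ∈ tp j3 i := by
    intro i hi
    have hji : j3 ≠ i := fun e => hN.L3 (e ▸ hi)
    have hlast := hC.tpL j3 i hji
    have hhead := hC.tpH j3 i hji
    obtain ⟨m, hm⟩ : ∃ m, tp j3 i = m ++ [v j3 i] := by
      rw [List.getLast?_eq_some_iff] at hlast
      exact hlast
    have hvi : v i j3 ∈ cl i := hC.vC i j3 hji.symm
    have hnot : ∀ y ∈ tp j3 i, y ≠ v i j3 := by
      intro y hy e
      exact hji (hcl (hC.tpC j3 i hji y hy) (e ▸ hvi))
    have hP := hC.tpP j3 i hji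
    have h2 : G.Path (v j3 i :: [v i j3]) (0 + 0) := by
      refine SG.Path.cons 0 0 _ _ [] (hC.link j3 i hji) ?_ (SG.Path.single _)
      intro hmem
      rw [List.mem_singleton] at hmem
      exact hnot (v j3 i) (by rw [hm]; simp) hmem
    have h3 : G.Path (m ++ v j3 i :: [v i j3]) (0 + (0 + 0)) := by
      refine SG.Path.append (by rw [← hm]; exact hP) h2 ?_
      intro y hy hmem
      rw [List.mem_singleton] at hmem
      exact hnot y (by rw [hm]; simp [hy]) hmem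
    by_contra hcon
    have h4 := even_avoid h3 ho (x := a j3) (y := v i j3) ?_ ?_ ?_
    · rw [z3, hs0 i hi _ hvi] at h4
      revert h4
      decide
    · intro hmem
      have h5 : m ++ v j3 i :: [v i j3] = tp j3 i ++ [v i j3] := by rw [hm]; simp
      rw [h5, List.mem_append, List.mem_singleton] at hmem
      rcases hmem with h6 | h6
      · exact hcon h6
      · exact hT t2 ht2 i hi (h6 ▸ hvi)
    · have h5 : m ++ v j3 i :: [v i j3] = tp j3 i ++ [v i j3] := by rw [hm]; simp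
      rw [h5, List.head?_append, hhead]
      rfl
    · simp
  have hta : t2 = a j3 := by
    by_contra hne
    have h1 := hC.cent j3 t2 hne
    have h2 : L ⊆ univ.filter (fun j => j ≠ j3 ∧ t2 ∈ tp j3 j) := by
      intro i hi
      exact mem_filter.2 ⟨mem_univ _, fun e => hN.L3 (e ▸ hi), htp i hi⟩
    have h3 := card_le_card h2
    omega
  have hfin := even_avoid hN.lnk.p1 ho (x := a j1) (y := a j2) ?_ rfl
    (last_aux _ _ _)
  · rw [z1, z2] at hfin
    revert hfin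
    decide
  · intro hmem
    exact hN.lnk.disj t2 hmem (by rw [hta]; simp)

end Pool.Agent.HC
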