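import Pool.Agent.HC.Cl4
import Pool.Agent.HC.Cl5
import Pool.Agent.HC.PGa
import Pool.Agent.HC.PGk
import Pool.Agent.HC.TB
import Pool.Agent.HC.FS
import Pool.Agent.HC.Mod1

/-!
# HC-Lv2d: level two, uncontraction (section 4, assembly)

`n := 2 * m + 20` (even, `28 ≤ n`). `N0 := ` the bound of `exists_CData m n`. `exists_fmdl` with
`M = hat K (C.erase e)`: `e ∉ M` (`Cind`: `e + ∑ T ∈ K`, `T ⊆ C.erase e`), giving `U, φ, σ`, `FMdl`, `σ = 0` on `M`.
`exists_CData`: the data. `A := univ.image a` (`n` elements, `a` injective as the clusters are disjoint).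
`twoP_or_struc (mSG S φ σ) A`.
* structure: `fs` with `sm = QSmall S q`. `hsm`: `far_of_sep` with `T = {t, w}`, `Far` is antitone, `small_stE`.
  `hsm2`: `far_of_sep`, `small_xE`.
* `TwoP`: `reroute` with `H = cG C e φ` (its edges are even edges: `σ = 0` on `C.erase e`; clusters are
  connected in it by `comp`: a walk from `a i` to `x`, all its vertices are reachable from `a i`), giving
  `Lnk`. `no_lnk` with `hst`: for `n ≤ L.card + 5`: `twoP_or_struc` for the collapsed graph and
  `L.image a` (`4 ≤ (L.image a).card`); the first case contradicts `hO` by `CData.hasO` (`m ≤ L.card`). And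
  `CData.cuts`.
-/

namespace Pool.Agent.HC

open Finset Module

private theorem far_anti {U : Type} [DecidableEq U] {n : ℕ} {cl : Fin n → Finset U}
    {I J : Finset U} (hIJ : I ⊆ J) (h : Far cl J) : Far cl I := by
  unfold Far at h ⊢
  refine h.trans (Finset.card_le_card ?_)
  intro i hi
  rw [Finset.mem_filter] at hi ⊢
  exact ⟨hi.1, hi.2.mono_right hIJ⟩

private theorem e_notin {V : Type} [AddCommGroup V] [Module F2 V] [DecidableEq V]
    {K : Submodule F2 V} {S C : Finset V} {N : ℕ} {g : Fin N → V} {q : Fin N → Fin N → V} {e : V}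
    (hq : IsQ K S C g q) (he : e ∈ C) : e ∉ hat K ((C.erase e : Finset V) : Set V) := by
  intro h
  obtain ⟨T, hT, hs⟩ := (mem_hat_iff K (C.erase e) e).1 h
  have heT : e ∉ T := fun h' => (Finset.mem_erase.1 (hT h')).1 rfl
  have h1 : insert e T ⊆ C :=
    Finset.insert_subset he (hT.trans (Finset.erase_subset e C))
  have h2 := hq.Cind (insert e T) h1 (by rw [Finset.sum_insert heT]; exact hs)
  exact absurd h2 (Finset.insert_ne_empty e T)

theorem exists_uncontract (m : ℕ) (hm : 4 ≤ m) : ∃ N0 : ℕ, ∀ N, N0 ≤ N →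
    ∀ (V : Type) [AddCommGroup V] [Module F2 V] [DecidableEq V] [FiniteDimensional F2 V]
      (K : Submodule F2 V) (S C : Finset V) (g : Fin N → V) (q : Fin N → Fin N → V) (e : V),
      Hyp2 m K S C g q → Tight K S (QSmall S q) → e ∈ C →
      Graphic (hat K {e}) ((S.erase e : Finset V) : Set V) → Graphic K (S : Set V) := by
  obtain ⟨N0, hN0⟩ := exists_CData m (2 * m + 20) hm ⟨m + 10, by ring⟩ (by omega)
  refine ⟨N0, fun N hN V _ _ _ _ K S C g q e h2 ht heC hg => ?_⟩
  have hq := h2.isq
  have heM := e_notin hq heC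
  obtain ⟨U, iU, dU, φ, σ, hmod, hσ⟩ := exists_fmdl (hq.CS heC) ht.nz ht.npar hg
    (le_hat K ((C.erase e : Finset V) : Set V)) heM
  obtain ⟨ι, cl, a, v, tp, hd⟩ := hN0 N hN V K S C g q e U φ σ hq h2.no hmod heC hσ
  have hC := hd.clus
  have hinj : Function.Injective a := by
    intro i j hij
    by_contra hne
    exact Finset.disjoint_left.1 (hC.disj i j hne) (hC.aC i) (hij ▸ hC.aC j)
  have hAcard : (univ.image a).card = 2 * m + 20 := by
    rw [Finset.card_image_of_injective _ hinj, Finset.card_univ, Fintype.card_fin]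
  rcases twoP_or_struc (mSG S φ σ) (univ.image a) (by omega) with hT | hT
  · exfalso
    obtain ⟨x, y, z, t, k, l, hT⟩ := hT
    obtain ⟨i1, i2, i3, i4, k', l', hl⟩ := reroute hC (cG C e φ)
      (by
        rintro u w ⟨huw, b, hb, hbe, hbφ⟩
        exact ⟨huw, b, hq.CS hb, hbφ, hσ b (subset_hat K _
          (Finset.mem_coe.2 (Finset.mem_erase.2 ⟨hbe, hb⟩)))⟩)
      (by
        intro i b hb
        obtain ⟨w⟩ := (hd.comp i b).1 hb
        refine ⟨w, fun y hy => ?_⟩
        exact (hd.comp i y).2 ⟨w.takeUntil y hy⟩) hT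
    refine no_lnk (by omega) hC (hd.cuts hq hmod ht) ?_ hl
    intro L hL
    have hLc : (L.image a).card = L.card := Finset.card_image_of_injective _ hinj
    rcases twoP_or_struc ((mSG S φ σ).collapse (col cl a L)) (L.image a) (by omega) with h3 | h3
    · exfalso
      obtain ⟨x', y', z', t', k'', l'', hT'⟩ := h3
      exact h2.no (hd.hasO hm hq hmod hσ L (by omega) hT')
    · exact h3
  · obtain ⟨Z, P, T, s, hS⟩ := hT
    refine fs ht hmod (Finset.card_pos.1 (by omega)) hS ?_ ?_
    · rintro I hI ⟨t, w, htI, hwI, hx⟩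
      have hT3 : ({t, w} : Finset U).card ≤ 3 := (Finset.card_le_two).trans (by omega)
      have hx' : ∀ x ∈ stE S φ I, ∀ u, φ x u ≠ 0 → u ∈ I ∨ u ∈ ({t, w} : Finset U) := by
        intro x hxI u hu
        rcases hx x hxI u hu with h3 | h3 | h3
        · exact Or.inl h3
        · exact Or.inr (by rw [h3]; simp)
        · exact Or.inr (by rw [h3]; simp)
      exact hd.small_stE hq hmod ⟨t, by simp⟩ hT3
        (far_anti Finset.subset_union_left
          (hd.far_of_sep hq hmod (by omega) hI hT3 hx')) hx'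
    · intro I T' s' _ hI _ hT3 hx hl
      exact hd.small_xE hq hmod (hd.far_of_sep hq hmod (by omega) hI hT3 hx) (by omega)

end Pool.Agent.HC
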