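import Pool.Agent.HC.BasB
import Pool.Agent.HC.Gr1

/-!
# HC-Par: deleting a zero element or one of two parallel elements

`grL_erase_par`: if `x ∈ K`: `Y' = Y`; `hat K (S \ Y) = hat K (S.erase x \ Y)`, so guts and `lam` are the
same. If `y ∈ S`, `y ≠ x`, `x + y ∈ K`: if `y ∈ Y` take `Y' = insert x Y`: `hat K Y' = hat K Y` and
`S \ Y' = S.erase x \ Y`; `Graphic.mono`. If `y ∉ Y` take `Y' = Y`: `y ∈ S.erase x \ Y`, so
`hat K (S \ Y) = hat K (S.erase x \ Y)`.
`graphic_of_erase_par`: `Graphic.of_par`.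
-/

namespace Pool.Agent.HC

open Finset Module

variable {V : Type} [AddCommGroup V] [Module F2 V] [DecidableEq V] [FiniteDimensional F2 V]
  {K : Submodule F2 V} {S Y : Finset V} {x : V}

omit [DecidableEq V] [FiniteDimensional F2 V] in
private theorem par_hat_insert (K : Submodule F2 V) (T : Set V) (x : V) (h : x ∈ hat K T) :
    hat K (insert x T) = hat K T := by
  apply le_antisymm
  · apply hat_le (le_hat K T)
    intro z hz
    rcases hz with rfl | hz
    · exact h
    · exact subset_hat K T hz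
  · exact hat_mono le_rfl (Set.subset_insert _ _)

omit [DecidableEq V] [FiniteDimensional F2 V] in
private theorem par_mem_hat (K : Submodule F2 V) (T : Set V) (x y : V) (hy : y ∈ T)
    (h : x + y ∈ K) : x ∈ hat K T := by
  have h1 : x = (x + y) + y := by rw [add_assoc, add_self2, add_zero]
  rw [h1]
  exact Submodule.add_mem _ (le_hat K T h) (subset_hat K T hy)

omit [FiniteDimensional F2 V] in
private theorem par_sdiff (hx : x ∈ S) (hY : Y ⊆ S.erase x) :
    ((S \ Y : Finset V) : Set V) = insert x ((S.erase x \ Y : Finset V) : Set V) := by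
  have hxY : x ∉ Y := fun h => (Finset.mem_erase.1 (hY h)).1 rfl
  ext z
  simp only [Finset.coe_sdiff, Set.mem_sdiff, Finset.mem_coe, Set.mem_insert_iff,
    Finset.mem_erase]
  constructor
  · rintro ⟨h1, h2⟩
    by_cases hz : z = x
    · exact Or.inl hz
    · exact Or.inr ⟨⟨hz, h1⟩, h2⟩
  · rintro (rfl | ⟨⟨_, h1⟩, h2⟩)
    · exact ⟨hx, hxY⟩
    · exact ⟨h1, h2⟩

omit [FiniteDimensional F2 V] in
private theorem par_guts1 (hx : x ∈ S) (hY : Y ⊆ S.erase x)
    (h : x ∈ hat K ((S.erase x \ Y : Finset V) : Set V)) :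
    guts K S Y = guts K (S.erase x) Y := by
  unfold guts
  rw [par_sdiff hx hY, par_hat_insert K _ x h]

theorem grL_erase_par (hx : x ∈ S) (hp : x ∈ K ∨ ∃ y ∈ S, y ≠ x ∧ x + y ∈ K)
    (hY : Y ⊆ S.erase x) : ∃ Y', Y ⊆ Y' ∧ Y' ⊆ insert x Y ∧ lam K S Y' = lam K (S.erase x) Y ∧
      (GrL K S Y' → GrL K (S.erase x) Y) := by
  have hone : x ∈ hat K ((S.erase x \ Y : Finset V) : Set V) →
      ∃ Y', Y ⊆ Y' ∧ Y' ⊆ insert x Y ∧ lam K S Y' = lam K (S.erase x) Y ∧
      (GrL K S Y' → GrL K (S.erase x) Y) := by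
    intro h
    have hg := par_guts1 (K := K) hx hY h
    refine ⟨Y, Finset.Subset.refl _, Finset.subset_insert _ _, ?_, ?_⟩
    · unfold lam
      rw [hg]
    · unfold GrL
      rw [hg]
      exact id
  rcases hp with hK | ⟨y, hyS, hyx, hxy⟩
  · exact hone (le_hat K _ hK)
  · by_cases hyY : y ∈ Y
    · have hh : hat K ((insert x Y : Finset V) : Set V) = hat K (Y : Set V) := by
        rw [Finset.coe_insert]
        exact par_hat_insert K _ x (par_mem_hat K _ x y (by exact_mod_cast hyY) hxy)
      have hs : S \ insert x Y = S.erase x \ Y := by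
        ext z
        simp only [Finset.mem_sdiff, Finset.mem_insert, Finset.mem_erase, not_or]
        tauto
      have hg : guts K S (insert x Y) = guts K (S.erase x) Y := by
        unfold guts
        rw [hh, hs]
      refine ⟨insert x Y, Finset.subset_insert _ _, Finset.Subset.refl _, ?_, ?_⟩
      · unfold lam
        rw [hg]
      · unfold GrL
        rw [hg]
        intro h
        exact h.mono (Set.union_subset_union_left _ (by
          rw [Finset.coe_insert]
          exact Set.subset_insert _ _))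
    · apply hone
      apply par_mem_hat K _ x y _ hxy
      simp only [Finset.coe_sdiff, Set.mem_sdiff, Finset.mem_coe, Finset.mem_erase]
      exact ⟨⟨hyx, hyS⟩, hyY⟩

theorem graphic_of_erase_par (hx : x ∈ S) (hp : x ∈ K ∨ ∃ y ∈ S, y ≠ x ∧ x + y ∈ K)
    (h : Graphic K ((S.erase x : Finset V) : Set V)) : Graphic K (S : Set V) := by
  have _hx := hx
  apply h.of_par
  intro z hz
  by_cases hzx : z = x
  · subst hzx
    rcases hp with hK | ⟨y, hyS, hyx, hxy⟩
    · exact Or.inl hK
    · exact Or.inr ⟨y, by exact_mod_cast Finset.mem_erase.2 ⟨hyx, hyS⟩, hxy⟩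
  · refine Or.inr ⟨z, by exact_mod_cast Finset.mem_erase.2 ⟨hzx, by exact_mod_cast hz⟩, ?_⟩
    rw [add_self2]
    exact K.zero_mem

end Pool.Agent.HC
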