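import Pool.Agent.HC.Lv2a
import Pool.Agent.HC.Lv2c
import Pool.Agent.HC.Lv2d
import Pool.Agent.HC.Ca4
import Pool.Agent.HC.Par

/-!
# HC-Lv2: the level two theorem, assembly

`N0 := max` of `11`, `2 * m` and the bounds of `exists_contract m` and `exists_uncontract m`. Fix `N ≥ N0` and `V`;
strong induction on `S.card` (generalizing `K, S, C, g, q`). Suppose `Graphic K S` fails.
Not simple (some `x ∈ S` in `K`, or `x ≠ y` in `S` with `x + y ∈ K`): by `IsQ.zero`, `IsQ.par` we may choose `x`
with `x ∉ C`, not of the form `q i j`. `Hyp2 m K (S.erase x) C g q`: `IsQ.erase`; no `O_m` (`HasO.mono` with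
`F = ∅`, `hat_empty`); graph-likeness: `Y` small in `S.erase x`, `lam K (S.erase x) Y ≤ 2`: `grL_erase_par` gives
`Y'` with `Y' ⊆ insert x Y`, `rq q Y' ≤ rq q (insert x Y) = rq q Y ≤ 3` (`rq_insert`). Induction, then
`graphic_of_erase_par`.
Simple: `Hyp2.minCex`, `MinCex.tight`. `C = ∅`: `IsQ.graphic_of_empty`. `e ∈ C`: `exists_contract`, then
`exists_uncontract`.
-/

namespace Pool.Agent.HC

open Finset Module

/-- Theorem 2 -/
theorem level_two (m : ℕ) (hm : 4 ≤ m) : ∃ N0 : ℕ, ∀ N, N0 ≤ N →
    ∀ (V : Type) [AddCommGroup V] [Module F2 V] [DecidableEq V] [FiniteDimensional F2 V]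
      (K : Submodule F2 V) (S C : Finset V) (g : Fin N → V) (q : Fin N → Fin N → V),
      Hyp2 m K S C g q → Graphic K (S : Set V) := by
  obtain ⟨N1, h1⟩ := exists_contract m hm
  obtain ⟨N2, h2⟩ := exists_uncontract m hm
  refine ⟨max (max 11 (2 * m)) (max N1 N2), ?_⟩
  intro N hN V _ _ _ _
  have hN11 : 11 ≤ N := (le_max_left _ _).trans ((le_max_left _ _).trans hN)
  have hN2m : 2 * m ≤ N := (le_max_right _ _).trans ((le_max_left _ _).trans hN)
  have hNN1 : N1 ≤ N := (le_max_left _ _).trans ((le_max_right _ _).trans hN)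
  have hNN2 : N2 ≤ N := (le_max_right _ _).trans ((le_max_right _ _).trans hN)
  have H : ∀ n : ℕ, ∀ (K : Submodule F2 V) (S C : Finset V) (g : Fin N → V)
      (q : Fin N → Fin N → V), S.card = n → Hyp2 m K S C g q → Graphic K (S : Set V) := by
    intro n
    induction n using Nat.strong_induction_on with
    | _ n ih =>
      intro K S C g q hcard h
      by_contra ng
      have ih' : ∀ (L : Submodule F2 V) (S' C' : Finset V) (g' : Fin N → V)
          (q' : Fin N → Fin N → V), S'.card < S.card → Hyp2 m L S' C' g' q' →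
          Graphic L (S' : Set V) := by
        intro L S' C' g' q' hc h'
        exact ih S'.card (hcard ▸ hc) L S' C' g' q' rfl h'
      by_cases hs : ∃ x ∈ S, x ∉ C ∧ (∀ i j, i ≠ j → q i j ≠ x) ∧
          (x ∈ K ∨ ∃ y ∈ S, y ≠ x ∧ x + y ∈ K)
      · obtain ⟨x, hxS, hxC, hxq, hp⟩ := hs
        have hG : Graphic K ((S.erase x : Finset V) : Set V) := by
          refine ih' K (S.erase x) C g q (Finset.card_erase_lt_of_mem hxS)
            ⟨h.isq.erase hxC hxq, ?_, ?_⟩
          · intro hO
            refine h.no (HasO.mono (F := ∅) ?_ (Finset.empty_subset _) (Finset.erase_subset _ _)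
              (S' := S.erase x))
            rw [Finset.coe_empty, hat_empty]
            exact hO
          · intro Y hY hl
            obtain ⟨Y', h3, h4, h5, h6⟩ := grL_erase_par hxS hp hY.1
            apply h6
            refine h.gl Y' ⟨?_, ?_⟩ (by rw [h5]; exact hl)
            · exact h4.trans (Finset.insert_subset hxS (hY.1.trans (Finset.erase_subset _ _)))
            · refine (rq_mono q h4).trans ?_
              rw [rq_insert q Y hxq]
              exact hY.2
        exact ng (graphic_of_erase_par hxS hp hG)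
      · have nz : ∀ x ∈ S, x ∉ K := by
          intro x hx hK
          exact hs ⟨x, hx, (h.isq.zero hK).1, (h.isq.zero hK).2, Or.inl hK⟩
        have npar : ∀ x ∈ S, ∀ y ∈ S, x + y ∈ K → x = y := by
          intro x hx y hy hK
          by_contra hne
          rcases h.isq.par hne hK with h3 | h3
          · exact hs ⟨x, hx, h3.1, h3.2, Or.inr ⟨y, hy, Ne.symm hne, hK⟩⟩
          · exact hs ⟨y, hy, h3.1, h3.2, Or.inr ⟨x, hx, hne, by rwa [add_comm]⟩⟩
        have hmc := h.minCex hN11 ih' nz npar ng
        have ht := hmc.tight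
        rcases C.eq_empty_or_nonempty with hC | ⟨e, he⟩
        · exact ng (h.isq.graphic_of_empty hm hN2m h.no hC)
        · exact ng (h2 N hNN2 V K S C g q e h ht he (h1 N hNN1 V K S C g q e h ht he ih'))
  intro K S C g q h
  exact H S.card K S C g q rfl h

end Pool.Agent.HC
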