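import Pool.Agent.HC.BasB
import Pool.Agent.HC.Gr1

/-!
# HC-Tr1: the reduction `X → D`, sets which contain `D` or avoid it
-/

namespace Pool.Agent.HC

open Finset Module

variable {V : Type} [AddCommGroup V] [Module F2 V] [DecidableEq V] [FiniteDimensional F2 V]
  {K : Submodule F2 V} {S X F D Y : Finset V} {j : ℕ}

theorem TD.hat_D (h : TD K S X F D j) :
    hat (hat K (F : Set V)) (D : Set V) = hat K (F : Set V) ⊔ guts K S X := by
  apply le_antisymm
  · apply hat_le le_sup_left
    intro d hd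
    obtain ⟨w, hw, -, hdw⟩ := h.DW d hd
    have e : d = (d + w) + w := by rw [add_assoc, add_self2, add_zero]
    rw [e]
    exact Submodule.add_mem_sup hdw hw
  · apply sup_le (le_hat _ _)
    intro w hw
    by_cases hwK : w ∈ K
    · exact le_hat _ _ (le_hat _ _ hwK)
    · obtain ⟨d, hd, hdw⟩ := h.WD w hw hwK
      have e : w = (d + w) + d := by
        rw [add_comm d w, add_assoc, add_self2, add_zero]
      rw [e]
      exact Submodule.add_mem _ (le_hat _ _ hdw) (subset_hat _ _ hd)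

theorem TD.disj (h : TD K S X F D j) : Disjoint (S \ X) D := by
  rw [Finset.disjoint_left]
  intro x hx hxD
  exact (Finset.mem_sdiff.1 hx).2 (h.DX hxD)

private theorem td_guts_le (K : Submodule F2 V) (S X : Finset V) :
    guts K S X ≤ hat K ((S \ X : Finset V) : Set V) := inf_le_right

private theorem td_guts_le' (K : Submodule F2 V) (S Y Z : Finset V) (hY : Y ⊆ Z) :
    guts K S Y ≤ hat K (Z : Set V) :=
  inf_le_left.trans (hat_mono le_rfl (by exact_mod_cast hY))

theorem TD.guts_a (h : TD K S X F D j) (hY : Y ⊆ S \ X) :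
    guts (hat K (F : Set V)) ((S \ X) ∪ D) Y = hat K (F : Set V) ⊔ guts K S Y := by
  have h1 : guts K S Y = hat K (Y : Set V) ⊓
      (hat K (((S \ X) \ Y : Finset V) : Set V) ⊔ guts K S X) := by
    rw [guts_sub hY Finset.sdiff_subset, guts_compl h.XS]
  have hdis := h.disj
  have hsd : ((S \ X) \ Y) ⊆ ((S \ X) ∪ D) \ Y :=
    Finset.sdiff_subset_sdiff Finset.subset_union_left (Finset.Subset.refl _)
  have hDs : D ⊆ ((S \ X) ∪ D) \ Y := by
    intro d hd
    rw [Finset.mem_sdiff]
    exact ⟨Finset.mem_union_right _ hd, fun hdY => Finset.disjoint_left.1 hdis (hY hdY) hd⟩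
  have hsub : ((S \ X) ∪ D) \ Y ⊆ ((S \ X) \ Y) ∪ D := by
    intro d hd
    rw [Finset.mem_sdiff, Finset.mem_union] at hd
    rw [Finset.mem_union, Finset.mem_sdiff]
    rcases hd.1 with h2 | h2
    · exact Or.inl ⟨h2, hd.2⟩
    · exact Or.inr h2
  have hW : guts K S X ≤ hat (hat K (F : Set V)) (D : Set V) := by
    rw [h.hat_D]
    exact le_sup_right
  apply le_antisymm
  · intro v hv
    have hv1 : v ∈ hat (hat K (F : Set V)) (Y : Set V) := hv.1
    have hv2 : v ∈ hat (hat K (F : Set V)) ((((S \ X) ∪ D) \ Y : Finset V) : Set V) := hv.2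
    have hv3 : v ∈ hat K (F : Set V) ⊔ hat K (Y : Set V) := by
      refine hat_le le_sup_left ?_ hv1
      exact fun y hy => Submodule.mem_sup_right (subset_hat _ _ hy)
    have hv4 : v ∈ hat K (F : Set V) ⊔
        (hat K (((S \ X) \ Y : Finset V) : Set V) ⊔ guts K S X) := by
      have h2 : hat (hat K (F : Set V)) ((((S \ X) ∪ D) \ Y : Finset V) : Set V) ≤
          hat (hat K (F : Set V)) ((((S \ X) \ Y : Finset V) : Set V) ∪ (D : Set V)) := by
        apply hat_mono le_rfl
        rw [← Finset.coe_union]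
        exact_mod_cast hsub
      have h3 := h2 hv2
      rw [hat_union, h.hat_D] at h3
      refine SetLike.le_def.1 (sup_le ?_ ?_) h3
      · apply hat_le le_sup_left
        intro y hy
        exact Submodule.mem_sup_right (Submodule.mem_sup_left (subset_hat _ _ hy))
      · exact sup_le le_sup_left (le_sup_right.trans le_sup_right)
    obtain ⟨k, hk, y, hy, rfl⟩ := Submodule.mem_sup.1 hv3
    obtain ⟨k', hk', z, hz, hkz⟩ := Submodule.mem_sup.1 hv4
    have hyZ : y ∈ hat K ((S \ X : Finset V) : Set V) :=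
      hat_mono le_rfl (by exact_mod_cast hY) hy
    have hzZ : z ∈ hat K ((S \ X : Finset V) : Set V) := by
      refine SetLike.le_def.1 (sup_le ?_ ?_) hz
      · exact hat_mono le_rfl (by exact_mod_cast Finset.sdiff_subset)
      · exact td_guts_le K S X
    have hyz : y - z = k' - k := by
      rw [sub_eq_sub_iff_add_eq_add, add_comm y k, hkz]
    have hK : y - z ∈ K := by
      rw [← h.Fz]
      refine ⟨?_, Submodule.sub_mem _ hyZ hzZ⟩
      rw [hyz]
      exact Submodule.sub_mem _ hk' hk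
    have hy2 : y ∈ hat K (((S \ X) \ Y : Finset V) : Set V) ⊔ guts K S X := by
      have e : y = (y - z) + z := by abel
      rw [e]
      exact Submodule.add_mem _ (Submodule.mem_sup_left (le_hat _ _ hK)) hz
    apply Submodule.add_mem_sup hk
    rw [h1]
    exact ⟨hy, hy2⟩
  · apply sup_le
    · exact le_inf (le_hat _ _) (le_hat _ _)
    · rw [h1]
      apply le_inf
      · exact inf_le_left.trans (hat_mono (le_hat _ _) le_rfl)
      · refine inf_le_right.trans (sup_le ?_ ?_)
        · exact hat_mono (le_hat _ _) (by exact_mod_cast hsd)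
        · exact hW.trans (hat_mono le_rfl (by exact_mod_cast hDs))

theorem TD.lam_a (h : TD K S X F D j) (hY : Y ⊆ S \ X) :
    lam (hat K (F : Set V)) ((S \ X) ∪ D) Y = lam K S Y := by
  have h1 := lam_add (hat K (F : Set V)) ((S \ X) ∪ D) Y
  have h2 := lam_add K S Y
  rw [h.guts_a hY] at h1
  have h3 : finrank F2 ↥(hat K (F : Set V) ⊔ guts K S Y) + finrank F2 K =
      finrank F2 (hat K (F : Set V)) + finrank F2 (guts K S Y) :=
    finrank_sup_of_inf_eq (A := hat K ((S \ X : Finset V) : Set V))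
      (by rw [inf_comm]; exact h.Fz) (le_guts K S Y) (td_guts_le' K S Y _ hY) (le_hat _ _)
  omega

theorem TD.gl_a (h : TD K S X F D j) (hY : Y ⊆ S \ X) (hg : GrL K S Y) :
    GrL (hat K (F : Set V)) ((S \ X) ∪ D) Y := by
  obtain ⟨U, hU1, hU2, φ, hφ⟩ := hg
  obtain ⟨ψ, hψ1, hψ2⟩ := exists_extend (A := hat K ((S \ X : Finset V) : Set V))
    (C := hat K (F : Set V)) (by rw [inf_comm]; exact h.Fz) φ hφ.ker
  have hYZ : ∀ y ∈ hat K (Y : Set V), y ∈ hat K ((S \ X : Finset V) : Set V) := fun y hy =>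
    hat_mono le_rfl (by exact_mod_cast hY) hy
  refine ⟨U, hU1, hU2, ψ, hψ2, ?_, ?_⟩
  · intro x hx
    rcases hx with hx | hx
    · rw [hψ1 x (hYZ x (subset_hat _ _ hx))]
      exact hφ.edge x (Or.inl hx)
    · have hx' : x ∈ guts (hat K (F : Set V)) ((S \ X) ∪ D) Y := hx
      rw [h.guts_a hY] at hx'
      obtain ⟨k, hk, g, hg, rfl⟩ := Submodule.mem_sup.1 hx'
      rw [map_add, hψ2 k hk, zero_add, hψ1 g (td_guts_le' K S Y _ hY hg)]
      exact hφ.edge g (Or.inr hg)
  · intro v hv hv0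
    have h1 : hat (hat K (F : Set V)) ((Y : Set V) ∪
        (guts (hat K (F : Set V)) ((S \ X) ∪ D) Y : Set V)) ≤
        hat K (F : Set V) ⊔ hat K ((Y : Set V) ∪ (guts K S Y : Set V)) := by
      apply hat_le le_sup_left
      intro x hx
      rcases hx with hx | hx
      · exact Submodule.mem_sup_right (subset_hat _ _ (Or.inl hx))
      · have hx' : x ∈ guts (hat K (F : Set V)) ((S \ X) ∪ D) Y := hx
        rw [h.guts_a hY] at hx'
        obtain ⟨k, hk, g, hg, rfl⟩ := Submodule.mem_sup.1 hx'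
        exact Submodule.add_mem_sup hk (subset_hat _ _ (Or.inr hg))
    obtain ⟨k, hk, t, ht, rfl⟩ := Submodule.mem_sup.1 (h1 hv)
    have htZ : t ∈ hat K ((S \ X : Finset V) : Set V) := by
      refine hat_le (le_hat _ _) ?_ ht
      intro x hx
      rcases hx with hx | hx
      · exact hYZ x (subset_hat _ _ hx)
      · exact td_guts_le' K S Y _ hY hx
    have ht0 : φ t = 0 := by
      rw [← hψ1 t htZ]
      rw [map_add, hψ2 k hk, zero_add] at hv0
      exact hv0
    exact Submodule.add_mem _ hk (le_hat _ _ (hφ.inj t ht ht0))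

private theorem td_sets (h : TD K S X F D j) (hY : Y ⊆ (S \ X) ∪ D) (hD : D ⊆ Y) :
    ((S \ X) ∪ D) \ Y = (S \ X) \ Y ∧ S \ ((Y \ D) ∪ X) = (S \ X) \ Y ∧
      (Y \ D) ∪ X ⊆ S := by
  have hdis := Finset.disjoint_left.1 h.disj
  refine ⟨?_, ?_, ?_⟩
  · ext x
    simp only [Finset.mem_sdiff, Finset.mem_union]
    constructor
    · rintro ⟨h1 | h1, h2⟩
      · exact ⟨h1, h2⟩
      · exact absurd (hD h1) h2
    · rintro ⟨h1, h2⟩
      exact ⟨Or.inl h1, h2⟩
  · ext x
    simp only [Finset.mem_sdiff, Finset.mem_union]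
    constructor
    · rintro ⟨h1, h2⟩
      have hxX : x ∉ X := fun hx => h2 (Or.inr hx)
      refine ⟨⟨h1, hxX⟩, fun hxY => h2 (Or.inl ⟨hxY, ?_⟩)⟩
      exact fun hxD => hxX (h.DX hxD)
    · rintro ⟨⟨h1, h2⟩, h3⟩
      refine ⟨h1, ?_⟩
      rintro (h4 | h4)
      · exact h3 h4.1
      · exact h2 h4
  · intro x hx
    rcases Finset.mem_union.1 hx with h1 | h1
    · rw [Finset.mem_sdiff] at h1
      rcases Finset.mem_union.1 (hY h1.1) with h2 | h2
      · exact (Finset.mem_sdiff.1 h2).1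
      · exact absurd h2 h1.2
    · exact h.XS h1

theorem TD.lam_b (h : TD K S X F D j) (hY : Y ⊆ (S \ X) ∪ D) (hD : D ⊆ Y) :
    lam (hat K (F : Set V)) ((S \ X) ∪ D) Y = lam K S ((Y \ D) ∪ X) := by
  obtain ⟨h1, h2, h3⟩ := td_sets h hY hD
  rw [← lam_compl hY, h1, h.lam_a Finset.sdiff_subset, ← h2, lam_compl h3]

theorem TD.gl_b (h : TD K S X F D j) (hY : Y ⊆ (S \ X) ∪ D) (hD : D ⊆ Y)
    (hg : GrL K S ((Y \ D) ∪ X)) : GrL (hat K (F : Set V)) ((S \ X) ∪ D) Y := by
  obtain ⟨h1, h2, h3⟩ := td_sets h hY hD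
  have hguts : guts (hat K (F : Set V)) ((S \ X) ∪ D) Y =
      hat K (F : Set V) ⊔ guts K S ((Y \ D) ∪ X) := by
    rw [← guts_compl hY, h1, h.guts_a Finset.sdiff_subset, ← h2, guts_compl h3]
  have hFX : (F : Set V) ⊆ (((Y \ D) ∪ X : Finset V) : Set V) ∪
      (guts K S ((Y \ D) ∪ X) : Set V) := by
    intro x hx
    refine Or.inl ?_
    rw [Finset.mem_coe, Finset.mem_union]
    exact Or.inr (h.FX (by exact_mod_cast hx))
  refine Graphic.of_par (Graphic.contract hg F hFX) ?_
  intro x hx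
  rcases hx with hx | hx
  · right
    refine ⟨x, Or.inl ?_, ?_⟩
    · rw [Finset.mem_coe, Finset.mem_union, Finset.mem_sdiff]
      by_cases hxD : x ∈ D
      · exact Or.inr (h.DX hxD)
      · exact Or.inl ⟨by exact_mod_cast hx, hxD⟩
    · rw [add_self2]
      exact Submodule.zero_mem _
  · right
    have hx' : x ∈ guts (hat K (F : Set V)) ((S \ X) ∪ D) Y := hx
    rw [hguts] at hx'
    obtain ⟨k, hk, g, hg2, rfl⟩ := Submodule.mem_sup.1 hx'
    refine ⟨g, Or.inr hg2, ?_⟩
    rw [add_assoc, add_self2, add_zero]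
    exact hk

end Pool.Agent.HC
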