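import Pool.Agent.HC.Q1
import Pool.Agent.HC.Tr1

/-!
# HC-Q2: the clique minor after the reduction `X → D` (3.2)

Let `Z = S \ X`, `L = hat K F`, `M = L ⊔ (hat K C ⊓ hat K Z)`. The set `C2` is a basis (modulo `L`) of `M`
inside `Z ∪ D`; `g2 i` is an element of `hat K Z` congruent to `g i + g 0` modulo `hat K C`; and
`q2 i j` is `q i j` if this is in `Z`, and otherwise an element of `D` which is congruent modulo `L` to an
element of `hat K Z` in the class of `g i + g j`.
-/

namespace Pool.Agent.HC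

open Finset Module

variable {V : Type} [AddCommGroup V] [Module F2 V] [DecidableEq V] [FiniteDimensional F2 V]
  {K : Submodule F2 V} {S C X F D : Finset V} {N j : ℕ} {g : Fin N → V} {q : Fin N → Fin N → V}

omit [DecidableEq V] [FiniteDimensional F2 V] in
private theorem q2_sum {ι : Type} [DecidableEq ι] (g : ι → V) (A B : Finset ι) :
    ∑ i ∈ symmDiff A B, g i = ∑ i ∈ A, g i + ∑ i ∈ B, g i := by
  have h1 : ∑ i ∈ A, g i = ∑ i ∈ A \ B, g i + ∑ i ∈ A ∩ B, g i := by
    rw [add_comm]; exact (Finset.sum_inter_add_sum_sdiff A B g).symm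
  have h2 : ∑ i ∈ B, g i = ∑ i ∈ B \ A, g i + ∑ i ∈ A ∩ B, g i := by
    rw [add_comm, Finset.inter_comm]; exact (Finset.sum_inter_add_sum_sdiff B A g).symm
  have h3 : ∑ i ∈ symmDiff A B, g i = ∑ i ∈ A \ B, g i + ∑ i ∈ B \ A, g i := by
    rw [symmDiff_def, Finset.sup_eq_union, Finset.sum_union]
    exact disjoint_sdiff_sdiff
  rw [h1, h2, h3]
  have h4 := add_self2 (∑ i ∈ A ∩ B, g i)
  calc ∑ i ∈ A \ B, g i + ∑ i ∈ B \ A, g i
      = ∑ i ∈ A \ B, g i + ∑ i ∈ B \ A, g i + (∑ i ∈ A ∩ B, g i + ∑ i ∈ A ∩ B, g i) := by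
        rw [h4, add_zero]
    _ = _ := by abel

private theorem q2_even {ι : Type} [DecidableEq ι] {A B : Finset ι} (hA : Even A.card)
    (hB : Even B.card) : Even (symmDiff A B).card := by
  have h1 : (symmDiff A B).card = (A \ B).card + (B \ A).card := by
    rw [symmDiff_def, Finset.sup_eq_union, Finset.card_union_of_disjoint]
    exact disjoint_sdiff_sdiff
  have h2 := Finset.card_sdiff_add_card_inter A B
  have h3 := Finset.card_sdiff_add_card_inter B A
  rw [Finset.inter_comm] at h3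
  rw [Nat.even_iff] at *
  omega

omit [DecidableEq V] [FiniteDimensional F2 V] in
/-- `x + y ∈ M` and `x + z ∈ M` give `y + z ∈ M` -/
private theorem q2_tri {M : Submodule F2 V} {x y z : V} (h1 : x + y ∈ M) (h2 : x + z ∈ M) :
    y + z ∈ M := by
  have h3 := M.add_mem h1 h2
  have h4 : x + y + (x + z) = (y + z) + (x + x) := by abel
  rwa [h4, add_self2, add_zero] at h3

omit [DecidableEq V] [FiniteDimensional F2 V] in
/-- an independent subset with the same span -/
private theorem q2_indep (L : Submodule F2 V) (Y : Finset V) :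
    ∃ C2 ⊆ Y, hat L (C2 : Set V) = hat L (Y : Set V) ∧ ∀ T ⊆ C2, ∑ x ∈ T, x ∈ L → T = ∅ := by
  classical
  obtain ⟨D, hD, hmin⟩ := Finset.exists_min_image
    (Y.powerset.filter (fun T : Finset V => hat L (T : Set V) = hat L (Y : Set V))) Finset.card
    ⟨Y, Finset.mem_filter.2 ⟨Finset.mem_powerset.2 subset_rfl, rfl⟩⟩
  rw [Finset.mem_filter, Finset.mem_powerset] at hD
  refine ⟨D, hD.1, hD.2, fun T hT hs => ?_⟩
  by_contra hne
  obtain ⟨x, hx⟩ := Finset.nonempty_iff_ne_empty.2 hne
  have h1 : x ∈ hat L ((D.erase x : Finset V) : Set V) := by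
    rw [← Finset.add_sum_erase T (fun y => y) hx] at hs
    refine mem_of_add_mem2 (le_hat L _ hs) (Submodule.sum_mem _ fun y hy => ?_)
    exact subset_hat L _ (Finset.mem_coe.2 (Finset.mem_erase.2
      ⟨Finset.ne_of_mem_erase hy, hT (Finset.mem_of_mem_erase hy)⟩))
  have h2 : hat L ((D.erase x : Finset V) : Set V) = hat L (D : Set V) := by
    apply le_antisymm
    · exact hat_mono le_rfl (Finset.coe_subset.2 (Finset.erase_subset x D))
    · refine hat_le (le_hat _ _) fun y hy => ?_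
      by_cases hyx : y = x
      · rw [hyx]
        exact h1
      · exact subset_hat L _ (Finset.mem_coe.2 (Finset.mem_erase.2 ⟨hyx, hy⟩))
  have h3 := hmin (D.erase x) (Finset.mem_filter.2
    ⟨Finset.mem_powerset.2 ((Finset.erase_subset x D).trans hD.1), h2.trans hD.2⟩)
  have h4 := Finset.card_erase_lt_of_mem (hT hx)
  omega

omit [FiniteDimensional F2 V] in
/-- splitting a vector of `hat K C` along `X` -/
private theorem q2_split (K : Submodule F2 V) (C X : Finset V) {v : V}
    (hv : v ∈ hat K (C : Set V)) : ∃ a ∈ hat K ((C ∩ X : Finset V) : Set V),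
      ∃ b ∈ hat K ((C \ X : Finset V) : Set V), a + b = v := by
  have h1 : (C : Set V) = ((C ∩ X : Finset V) : Set V) ∪ ((C \ X : Finset V) : Set V) := by
    rw [← Finset.coe_union, Finset.union_comm, Finset.sdiff_union_inter]
  rw [h1, hat_union] at hv
  exact Submodule.mem_sup.1 hv

omit [FiniteDimensional F2 V] in
private theorem q2_C (h : IsQ K S C g q) (ht : TD K S X F D j) :
    ∃ C2 ⊆ (S \ X) ∪ D, (∀ T ⊆ C2, ∑ x ∈ T, x ∈ hat K (F : Set V) → T = ∅) ∧
      hat (hat K (F : Set V)) (C2 : Set V) =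
        hat K (F : Set V) ⊔ hat K (C : Set V) ⊓ hat K ((S \ X : Finset V) : Set V) := by
  classical
  set M := hat K (F : Set V) ⊔ hat K (C : Set V) ⊓ hat K ((S \ X : Finset V) : Set V) with hM
  obtain ⟨C2, hC2, h2, h3⟩ := q2_indep (hat K (F : Set V)) (((S \ X) ∪ D).filter (fun x => x ∈ M))
  refine ⟨C2, hC2.trans (Finset.filter_subset _ _), h3, h2.trans ?_⟩
  apply le_antisymm
  · refine hat_le le_sup_left fun x hx => ?_
    exact (Finset.mem_filter.1 (Finset.mem_coe.1 hx)).2
  · refine sup_le (le_hat _ _) ?_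
    rintro v ⟨hv1, hv2⟩
    obtain ⟨a, ha, b, hb, rfl⟩ := q2_split K C X hv1
    have hCZ : hat K ((C \ X : Finset V) : Set V) ≤ hat K (C : Set V) ⊓
        hat K ((S \ X : Finset V) : Set V) := by
      refine le_inf (hat_mono le_rfl ?_) (hat_mono le_rfl ?_)
      · exact Finset.coe_subset.2 Finset.sdiff_subset
      · exact Finset.coe_subset.2 (Finset.sdiff_subset_sdiff h.CS (Finset.Subset.refl X))
    have hCX : hat K ((C ∩ X : Finset V) : Set V) ≤ hat K (C : Set V) ⊓ hat K (X : Set V) := by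
      refine le_inf (hat_mono le_rfl ?_) (hat_mono le_rfl ?_)
      · exact Finset.coe_subset.2 Finset.inter_subset_left
      · exact Finset.coe_subset.2 Finset.inter_subset_right
    have hb1 := hCZ hb
    have ha1 := hCX ha
    refine Submodule.add_mem _ ?_ ?_
    · have ha2 : a ∈ hat K ((S \ X : Finset V) : Set V) := mem_of_add_mem2 hv2 hb1.2
      by_cases haK : a ∈ K
      · exact le_hat _ _ (le_hat _ _ haK)
      · obtain ⟨d, hd, hda⟩ := ht.WD a ⟨ha1.2, ha2⟩ haK
        rw [add_comm] at hda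
        refine mem_of_add_mem2 (le_hat _ _ hda) (subset_hat _ _ (Finset.mem_coe.2
          (Finset.mem_filter.2 ⟨Finset.mem_union_right _ hd, ?_⟩)))
        rw [add_comm] at hda
        exact mem_of_add_mem2 (Submodule.mem_sup_left hda) (Submodule.mem_sup_right ⟨ha1.1, ha2⟩)
    · have h4 : hat K ((C \ X : Finset V) : Set V) ≤ hat (hat K (F : Set V))
          ((((S \ X) ∪ D).filter (fun x => x ∈ M) : Finset V) : Set V) := by
        refine hat_mono (le_hat _ _) (Finset.coe_subset.2 fun x hx => ?_)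
        have hx2 := Finset.mem_sdiff.1 hx
        refine Finset.mem_filter.2 ⟨Finset.mem_union_left _
          (Finset.mem_sdiff.2 ⟨h.CS hx2.1, hx2.2⟩), ?_⟩
        exact Submodule.mem_sup_right (hCZ (subset_hat K _ (Finset.mem_coe.2 hx)))
      exact h4 hb

private theorem q2_w (h : IsQ K S C g q) (hN : 11 ≤ N) (hX : QSmall S q X)
    (ht : TD K S X F D j) {i i' : Fin N} (hij : i ≠ i') (hq : q i i' ∈ X) :
    ∃ d, d ∈ D ∧ ∃ w ∈ hat K ((S \ X : Finset V) : Set V), d + w ∈ hat K (F : Set V) ∧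
      w + (g i + g i') ∈ hat K (C : Set V) := by
  have h1 : q i i' ∈ hat (hat K (C : Set V)) ((S \ X : Finset V) : Set V) :=
    span_compl h (by omega) hX (subset_hat K _ (Finset.mem_coe.2 (h.qS i i' hij)))
  obtain ⟨c, hc, z, hz, hcz⟩ := Submodule.mem_sup.1 h1
  obtain ⟨a, ha, b, hb, hab⟩ := q2_split K C X hc
  have hz' : z ∈ hat K ((S \ X : Finset V) : Set V) := Submodule.mem_sup_right hz
  have hb1 : b ∈ hat K ((S \ X : Finset V) : Set V) := by
    refine hat_mono le_rfl ?_ hb
    exact Finset.coe_subset.2 (Finset.sdiff_subset_sdiff h.CS (Finset.Subset.refl X))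
  have ha1 : a ∈ hat K (X : Set V) :=
    hat_mono le_rfl (Finset.coe_subset.2 Finset.inter_subset_right) ha
  have ha2 : a ∈ hat K (C : Set V) :=
    hat_mono le_rfl (Finset.coe_subset.2 Finset.inter_subset_left) ha
  have hw : q i i' + a = b + z := by
    rw [← hcz, ← hab]
    have h4 : a + b + z + a = b + z + (a + a) := by abel
    rw [h4, add_self2, add_zero]
  have hwZ : q i i' + a ∈ hat K ((S \ X : Finset V) : Set V) := by
    rw [hw]
    exact Submodule.add_mem _ hb1 hz'
  have hwX : q i i' + a ∈ hat K (X : Set V) :=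
    Submodule.add_mem _ (subset_hat K _ (Finset.mem_coe.2 hq)) ha1
  have hwK : q i i' + a ∉ K := by
    intro h5
    have h6 : q i i' ∈ hat K (C : Set V) := mem_of_add_mem2 (le_hat K _ h5) ha2
    have h7 := h.qg i i' hij
    rw [add_comm] at h7
    have h8 := mem_of_add_mem2 h7 h6
    have h9 := h.gind {i, i'} (by rw [Finset.card_pair hij]; exact even_two)
      (by rw [Finset.sum_pair hij]; exact h8)
    exact absurd h9 (Finset.insert_ne_empty i {i'})
  obtain ⟨d, hd, hdw⟩ := ht.WD (q i i' + a) ⟨hwX, hwZ⟩ hwK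
  refine ⟨d, hd, q i i' + a, hwZ, hdw, ?_⟩
  have h10 : q i i' + a + (g i + g i') = q i i' + (g i + g i') + a := by abel
  rw [h10]
  exact Submodule.add_mem _ (h.qg i i' hij) ha2

omit [FiniteDimensional F2 V] in
private theorem q2_span (h : IsQ K S C g q) {w : V} (hw : w ∈ hat K (S : Set V)) :
    ∃ T : Finset (Fin N), Even T.card ∧ w + ∑ i ∈ T, g i ∈ hat K (C : Set V) := by
  obtain ⟨A, hA, hA2⟩ := (mem_hat_iff K S w).1 hw
  have key : ∀ A : Finset V, A ⊆ S → ∃ T : Finset (Fin N), Even T.card ∧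
      ∑ y ∈ A, y + ∑ i ∈ T, g i ∈ hat K (C : Set V) := by
    intro A
    induction A using Finset.induction_on with
    | empty => intro _; exact ⟨∅, by simp, by simp⟩
    | insert b A hb ih =>
      intro hA
      obtain ⟨T, hT, hT2⟩ := ih ((Finset.subset_insert b A).trans hA)
      obtain ⟨T', hT', hT2'⟩ := h.span b (hA (Finset.mem_insert_self b A))
      refine ⟨symmDiff T' T, q2_even hT' hT, ?_⟩
      rw [q2_sum, Finset.sum_insert hb]
      have := Submodule.add_mem _ hT2' hT2
      convert this using 1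
      abel
  obtain ⟨T, hT, hT2⟩ := key A hA
  refine ⟨T, hT, ?_⟩
  have h3 : ∑ x ∈ A, x + w ∈ hat K (C : Set V) := by
    rw [add_comm]
    exact le_hat K _ hA2
  exact q2_tri h3 hT2

private theorem q2_g (h : IsQ K S C g q) (hN : 11 ≤ N) (hX : QSmall S q X) :
    ∃ g2 : Fin N → V, (∀ i, g2 i ∈ hat K ((S \ X : Finset V) : Set V)) ∧
      ∀ T : Finset (Fin N), Even T.card → ∑ i ∈ T, g2 i + ∑ i ∈ T, g i ∈ hat K (C : Set V) := by
  let o : Fin N := ⟨0, by omega⟩
  have h1 : ∀ i, ∃ y ∈ hat K ((S \ X : Finset V) : Set V), y + (g i + g o) ∈ hat K (C : Set V) := by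
    intro i
    by_cases hio : i = o
    · refine ⟨0, Submodule.zero_mem _, ?_⟩
      rw [hio, add_self2, add_zero]
      exact Submodule.zero_mem _
    · have h2 : q i o ∈ hat (hat K (C : Set V)) ((S \ X : Finset V) : Set V) :=
        span_compl h (by omega) hX (subset_hat K _ (Finset.mem_coe.2 (h.qS i o hio)))
      obtain ⟨c, hc, z, hz, hcz⟩ := Submodule.mem_sup.1 h2
      refine ⟨z, Submodule.mem_sup_right hz, ?_⟩
      refine q2_tri (x := q i o) ?_ (h.qg i o hio)
      rw [← hcz, add_assoc, add_self2, add_zero]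
      exact hc
  choose g2 h2 h3 using h1
  refine ⟨g2, h2, fun T hT => ?_⟩
  have h4 : ∑ i ∈ T, (g2 i + (g i + g o)) ∈ hat K (C : Set V) :=
    Submodule.sum_mem _ fun i _ => h3 i
  rw [Finset.sum_add_distrib, Finset.sum_add_distrib, Finset.sum_const] at h4
  obtain ⟨k, hk⟩ := hT
  have h5 : T.card • g o = 0 := by
    rw [hk, ← two_mul, mul_comm, mul_nsmul', two_nsmul, add_self2, nsmul_zero]
  rwa [h5, add_zero] at h4

theorem exists_Q2 (h : IsQ K S C g q) (hN : 11 ≤ N) (hX : QSmall S q X) (ht : TD K S X F D j)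
    (hj : j ≤ 2) : ∃ C2 g2 q2, IsQ (hat K (F : Set V)) ((S \ X) ∪ D) (N := N) C2 g2 q2 ∧
      (∀ i j, i ≠ j → q i j ∈ S \ X → q2 i j = q i j) ∧
      ∀ i j, i ≠ j → q i j ∈ X → q2 i j ∈ D := by
  classical
  obtain ⟨C2, hC2S, hC2i, hC2⟩ := q2_C h ht
  obtain ⟨g2, hg2Z, hg2⟩ := q2_g h hN hX
  have hg2T : ∀ T : Finset (Fin N), ∑ i ∈ T, g2 i ∈ hat K ((S \ X : Finset V) : Set V) :=
    fun T => Submodule.sum_mem _ fun i _ => hg2Z i
  have hg2p : ∀ i i' : Fin N, i ≠ i' → (g2 i + g2 i') + (g i + g i') ∈ hat K (C : Set V) := by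
    intro i i' hij
    have h1 := hg2 {i, i'} (by rw [Finset.card_pair hij]; exact even_two)
    rwa [Finset.sum_pair hij, Finset.sum_pair hij] at h1
  let P : V → V → Prop := fun v d => d ∈ D ∧ ∃ w ∈ hat K ((S \ X : Finset V) : Set V),
    d + w ∈ hat K (F : Set V) ∧ w + v ∈ hat K (C : Set V)
  let dd : V → V := fun v => if hv : ∃ d, P v d then hv.choose else 0
  have hdd : ∀ i i' : Fin N, i ≠ i' → q i i' ∈ X → P (g i + g i') (dd (g i + g i')) := by
    intro i i' hij hq
    have h1 : ∃ d, P (g i + g i') d := q2_w h hN hX ht hij hq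
    have h2 : dd (g i + g i') = h1.choose := dif_pos h1
    rw [h2]
    exact h1.choose_spec
  let q2 : Fin N → Fin N → V := fun i i' => if q i i' ∈ X then dd (g i + g i') else q i i'
  have hq2X : ∀ i i', q i i' ∈ X → q2 i i' = dd (g i + g i') := fun i i' hq => if_pos hq
  have hq2Z : ∀ i i', q i i' ∉ X → q2 i i' = q i i' := fun i i' hq => if_neg hq
  refine ⟨C2, g2, q2, ⟨hC2S, hC2i, ?_, ?_, ?_, ?_, ?_⟩, ?_, ?_⟩
  · intro T hT hTm
    rw [hC2] at hTm
    obtain ⟨l, hl, m, hm, hlm⟩ := Submodule.mem_sup.1 hTm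
    have hlK : l ∈ K := by
      rw [← ht.Fz]
      refine ⟨hl, ?_⟩
      have h1 : l + m ∈ hat K ((S \ X : Finset V) : Set V) := by
        rw [hlm]
        exact hg2T T
      exact mem_of_add_mem2 h1 hm.2
    have h2 : ∑ i ∈ T, g2 i ∈ hat K (C : Set V) := by
      rw [← hlm]
      exact Submodule.add_mem _ (le_hat K _ hlK) hm.1
    have h3 := hg2 T hT
    rw [add_comm] at h3
    exact h.gind T hT (mem_of_add_mem2 h3 h2)
  · intro i i' hij
    by_cases hq : q i i' ∈ X
    · rw [hq2X i i' hq]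
      exact Finset.mem_union_right _ (hdd i i' hij hq).1
    · rw [hq2Z i i' hq]
      exact Finset.mem_union_left _ (Finset.mem_sdiff.2 ⟨h.qS i i' hij, hq⟩)
  · intro i i'
    have h1 := h.qsymm i i'
    by_cases hq : q i i' ∈ X
    · rw [hq2X i i' hq, hq2X i' i (h1 ▸ hq), add_comm]
    · rw [hq2Z i i' hq, hq2Z i' i (h1 ▸ hq), h1]
  · intro i i' hij
    rw [hC2]
    by_cases hq : q i i' ∈ X
    · rw [hq2X i i' hq]
      obtain ⟨-, w, hw, hdw, hwg⟩ := hdd i i' hij hq
      have h1 : w + (g2 i + g2 i') ∈ hat K (C : Set V) := by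
        rw [add_comm] at hwg
        refine q2_tri hwg ?_
        rw [add_comm]
        exact hg2p i i' hij
      have h2 : w + (g2 i + g2 i') ∈ hat K ((S \ X : Finset V) : Set V) :=
        Submodule.add_mem _ hw (Submodule.add_mem _ (hg2Z i) (hg2Z i'))
      have h3 : dd (g i + g i') + (g2 i + g2 i') =
          (dd (g i + g i') + w) + (w + (g2 i + g2 i')) := by
        have h4 : (dd (g i + g i') + w) + (w + (g2 i + g2 i')) =
            dd (g i + g i') + (g2 i + g2 i') + (w + w) := by abel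
        rw [h4, add_self2, add_zero]
      rw [h3]
      exact Submodule.add_mem_sup hdw ⟨h1, h2⟩
    · rw [hq2Z i i' hq]
      refine Submodule.mem_sup_right ⟨?_, ?_⟩
      · have h1 := h.qg i i' hij
        rw [add_comm] at h1
        refine q2_tri h1 ?_
        rw [add_comm]
        exact hg2p i i' hij
      · refine Submodule.add_mem _ (subset_hat K _ (Finset.mem_coe.2 ?_))
          (Submodule.add_mem _ (hg2Z i) (hg2Z i'))
        exact Finset.mem_sdiff.2 ⟨h.qS i i' hij, hq⟩
  · intro x hx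
    rw [hC2]
    have hZS : hat K ((S \ X : Finset V) : Set V) ≤ hat K (S : Set V) :=
      hat_mono le_rfl (Finset.coe_subset.2 Finset.sdiff_subset)
    have key : ∀ w ∈ hat K ((S \ X : Finset V) : Set V), ∃ T : Finset (Fin N), Even T.card ∧
        w + ∑ i ∈ T, g2 i ∈ hat K (C : Set V) ⊓ hat K ((S \ X : Finset V) : Set V) := by
      intro w hw
      obtain ⟨T, hT, hT2⟩ := q2_span h (hZS hw)
      refine ⟨T, hT, ?_, Submodule.add_mem _ hw (hg2T T)⟩
      rw [add_comm] at hT2
      refine q2_tri hT2 ?_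
      rw [add_comm]
      exact hg2 T hT
    rcases Finset.mem_union.1 hx with hx | hx
    · obtain ⟨T, hT, hT2⟩ := key x (subset_hat K _ (Finset.mem_coe.2 hx))
      exact ⟨T, hT, Submodule.mem_sup_right hT2⟩
    · obtain ⟨w, hw, -, hdw⟩ := ht.DW x hx
      obtain ⟨T, hT, hT2⟩ := key w (Submodule.mem_inf.1 hw).2
      refine ⟨T, hT, ?_⟩
      have h3 : x + ∑ i ∈ T, g2 i = (x + w) + (w + ∑ i ∈ T, g2 i) := by
        have h4 : (x + w) + (w + ∑ i ∈ T, g2 i) = x + ∑ i ∈ T, g2 i + (w + w) := by abel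
        rw [h4, add_self2, add_zero]
      rw [h3]
      exact Submodule.add_mem_sup hdw hT2
  · intro i i' _ hq
    exact hq2Z i i' (Finset.mem_sdiff.1 hq).2
  · intro i i' hij hq
    rw [hq2X i i' hq]
    exact (hdd i i' hij hq).1

end Pool.Agent.HC
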