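import Pool.Agent.HC.Q1
import Pool.Agent.HC.Q2
import Pool.Agent.HC.Tr3
import Pool.Agent.HC.Gr6

/-!
# HC-Lv2a: level two, the reduction property of a smallest counterexample

`sm := QSmall S q`. All fields of `MinCex` except `red` are clear (`rq_mono`). Let `X` be small,
`TD K S X F D j`, `j ≤ 2`. `exists_Q2`: `C2, g2, q2` for `(L, S'')`, `L = hat K F`, `S'' = (S \ X) ∪ D`. No `O_m`:
`HasO.mono` (`F ⊆ X ⊆ S`, `S'' ⊆ S`). Graph-likeness: `transfer` with `sm2 := QSmall S'' q2`:
* `h1`: `Y` disjoint from `D`, `Y ⊆ S''`, so `Y ⊆ S \ X`: `rq q Y ≤ rq q2 Y` because `q i j ∈ Y` implies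
  `q2 i j = q i j ∈ Y`.
* `h2`: `D ⊆ Y`: `rq q ((Y \ D) ∪ X) ≤ rq q2 Y`: if `q i j ∈ Y \ D` it is in `S \ X`, so `q2 i j = q i j ∈ Y`; if
  `q i j ∈ X` then `q2 i j ∈ D ⊆ Y`. (Compare the generating sets of the two spans.)
* `h3`: `small_union_card` for `(L, S'', q2)` (`D.card ≤ 3`, `lam ≤ 2`).
`dag` is the hypothesis of `red`. Then `ih`.
-/

namespace Pool.Agent.HC

open Finset Module

variable {V : Type} [AddCommGroup V] [Module F2 V] [DecidableEq V] [FiniteDimensional F2 V]

omit [DecidableEq V] [AddCommGroup V] [Module F2 V] [FiniteDimensional F2 V] in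
private theorem rq_le_rq {N : ℕ} {q q2 : Fin N → Fin N → V} {Y Y' : Finset V}
    (h : ∀ i j, i ≠ j → q i j ∈ Y → q2 i j ∈ Y') : rq q Y ≤ rq q2 Y' := by
  unfold rq
  apply Submodule.finrank_mono
  apply Submodule.span_mono
  rintro y ⟨i, j, hij, hq, rfl⟩
  exact ⟨i, j, hij, h i j hij hq, rfl⟩

theorem Hyp2.minCex {m N : ℕ} (hN : 11 ≤ N) {K : Submodule F2 V} {S C : Finset V}
    {g : Fin N → V} {q : Fin N → Fin N → V} (h : Hyp2 m K S C g q)
    (ih : ∀ (L : Submodule F2 V) (S' C' : Finset V) (g' : Fin N → V) (q' : Fin N → Fin N → V),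
      S'.card < S.card → Hyp2 m L S' C' g' q' → Graphic L (S' : Set V))
    (nz : ∀ x ∈ S, x ∉ K) (npar : ∀ x ∈ S, ∀ y ∈ S, x + y ∈ K → x = y)
    (ng : ¬ Graphic K (S : Set V)) : MinCex K S (QSmall S q) := by
  refine ⟨?_, ?_, h.gl, nz, npar, ng, ?_⟩
  · intro X Y hX hYX
    exact ⟨hYX.trans hX.1, (rq_mono q hYX).trans hX.2⟩
  · intro X hX
    exact hX.1
  · intro X F D j hX ht hj hdag hcard
    obtain ⟨C2, g2, q2, hQ2, hq1, hq2⟩ := exists_Q2 h.isq hN hX ht hj
    have hDS : D ⊆ S := ht.DX.trans ht.XS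
    refine ih (hat K (F : Set V)) ((S \ X) ∪ D) C2 g2 q2 hcard ⟨hQ2, ?_, ?_⟩
    · intro hO
      exact h.no (hO.mono (ht.FX.trans ht.XS)
        (Finset.union_subset Finset.sdiff_subset hDS))
    · refine transfer ht hj (QSmall S q) (QSmall ((S \ X) ∪ D) q2) h.gl hdag ?_ ?_ ?_ ?_ ?_
      · intro Y Y' hY hYY
        exact ⟨hYY.trans hY.1, (rq_mono q2 hYY).trans hY.2⟩
      · intro Y hY
        exact hY.1
      · intro Y hY hdis
        have hYX : Y ⊆ S \ X := by
          intro y hy
          rcases Finset.mem_union.1 (hY.1 hy) with h4 | h4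
          · exact h4
          · exact absurd h4 (Finset.disjoint_left.1 hdis hy)
        refine ⟨hYX.trans Finset.sdiff_subset, (rq_le_rq ?_).trans hY.2⟩
        intro i j hij hq
        rw [hq1 i j hij (hYX hq)]
        exact hq
      · intro Y hY hDY
        refine ⟨?_, (rq_le_rq ?_).trans hY.2⟩
        · apply Finset.union_subset _ ht.XS
          intro y hy
          rw [Finset.mem_sdiff] at hy
          rcases Finset.mem_union.1 (hY.1 hy.1) with h4 | h4
          · exact (Finset.mem_sdiff.1 h4).1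
          · exact absurd h4 hy.2
        · intro i j hij hq
          rcases Finset.mem_union.1 hq with h5 | h5
          · rw [Finset.mem_sdiff] at h5
            have h6 : q i j ∈ S \ X := by
              rcases Finset.mem_union.1 (hY.1 h5.1) with h4 | h4
              · exact h4
              · exact absurd h4 h5.2
            rw [hq1 i j hij h6]
            exact h5.1
          · exact hDY (hq2 i j hij h5)
      · intro Y hY hl
        have hc : D.card ≤ 3 := by
          rw [ht.card]
          have : 2 ^ j ≤ 2 ^ 2 := Nat.pow_le_pow_right (by norm_num) hj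
          omega
        exact small_union_card hQ2 hN hY Finset.subset_union_right hc (hl.trans (by norm_num))

end Pool.Agent.HC
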