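import Pool.Agent.HC.BasB
import Pool.Agent.HC.Gr1

/-!
# Signed graph models: definitions

`(hat K {e}, S.erase e)` is represented by the graph `φ`, and `σ` is a functional with `σ e = 1`.
-/

namespace Pool.Agent.HC

open Finset Module

/-- a signed graph model of `(K, S)` (weak form) -/
structure Mdl {V : Type} [AddCommGroup V] [Module F2 V] [DecidableEq V] {U : Type} [Fintype U]
    [DecidableEq U] (K : Submodule F2 V) (S : Finset V) (e : V) (φ : V →ₗ[F2] (U → F2))
    (σ : V →ₗ[F2] F2) : Prop where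
  eS : e ∈ S
  kφ : ∀ v ∈ K, φ v = 0
  kσ : ∀ v ∈ K, σ v = 0
  eφ : φ e = 0
  eσ : σ e = 1
  edge : ∀ x ∈ S, φ x = 0 ∨ ∃ u v, u ≠ v ∧ φ x = pr u v
  inj : ∀ v ∈ hat K (S : Set V), φ v = 0 → σ v = 0 → v ∈ K

/-- strong form: simple and connected -/
structure FMdl {V : Type} [AddCommGroup V] [Module F2 V] [DecidableEq V] {U : Type} [Fintype U]
    [DecidableEq U] (K : Submodule F2 V) (S : Finset V) (e : V) (φ : V →ₗ[F2] (U → F2))
    (σ : V →ₗ[F2] F2) : Prop extends Mdl K S e φ σ where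
  nz : ∀ x ∈ S, x ≠ e → φ x ≠ 0
  conn : ∀ u v : U, ∃ x ∈ hat K (S : Set V), φ x = pr u v

/-- the signed graph of a model -/
def mSG {V : Type} [AddCommGroup V] [Module F2 V] {U : Type} [DecidableEq U] (S : Finset V)
    (φ : V →ₗ[F2] (U → F2)) (σ : V →ₗ[F2] F2) : SG U where
  adj p u v := u ≠ v ∧ ∃ x ∈ S, φ x = pr u v ∧ σ x = p
  symm := by
    rintro p u v ⟨h, x, hx, h1, h2⟩
    refine ⟨h.symm, x, hx, ?_, h2⟩
    rw [h1, pr, pr, add_comm]
  irrefl := fun _ _ h => h.1 rfl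

/-- the switched sign -/
noncomputable def sg' {V : Type} [AddCommGroup V] [Module F2 V] {U : Type} [Fintype U]
    (φ : V →ₗ[F2] (U → F2)) (σ : V →ₗ[F2] F2) (s : U → F2) (x : V) : F2 :=
  σ x + ∑ u, s u * φ x u

/-- the elements with an end in `I` -/
noncomputable def stE {V : Type} [AddCommGroup V] [Module F2 V] {U : Type}
    (S : Finset V) (φ : V →ₗ[F2] (U → F2)) (I : Finset U) : Finset V := by
  classical exact S.filter (fun x => ∃ u ∈ I, φ x u ≠ 0)

/-- `e` and the elements with both ends in `I ∪ T`, except the even ones with both ends in `T` -/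
noncomputable def xE {V : Type} [AddCommGroup V] [Module F2 V] [DecidableEq V] {U : Type}
    [Fintype U] (S : Finset V) (e : V) (φ : V →ₗ[F2] (U → F2)) (σ : V →ₗ[F2] F2) (s : U → F2)
    (I T : Finset U) : Finset V := by
  classical exact insert e (S.filter (fun x => x ≠ e ∧ (∀ u, φ x u ≠ 0 → u ∈ I ∨ u ∈ T) ∧
    ¬ ((∀ u, φ x u ≠ 0 → u ∈ T) ∧ sg' φ σ s x = 0)))

end Pool.Agent.HC
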