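import Pool.Agent.HC.Pth

/-!
# HC-PGc: paths in a structured graph ((P) in 4.3)

`H = G.HG Z P s`. `Struc.exit`: induction on the path. If the first vertex `x` is in `P` take `t = x`.
Otherwise the path is `x :: x2 :: l'` (the last vertex is in `P`) and the edge `x x2` is an edge of `H`
(`x ∉ P`, neither is in `Z`); apply induction to the tail.
`Struc.even_path`: induction on the path `x :: x2 :: l'` with first edge of parity `q`. If `x2 ∉ P`:
`H.Adj x x2`, and `Struc.exit` for the tail gives `t ∈ x2 :: l'`, `t ∈ P`, reachable from `x2`, so from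
`x`; by `sep` `x = t` (impossible, no repetition) or `x, t ∈ T` are both on the path, so `x = t` again.
So `x2 ∈ P`; if `q = 1 + s x + s x2` then `H.Adj x x2` and `sep` gives the same contradiction; so
`q = s x + s x2` (`F2` has two elements), and induction for the tail.
-/

namespace Pool.Agent.HC

open Finset

variable {U : Type} [DecidableEq U] {G : SG U} {A Z P T : Finset U} {s : U → F2}

private theorem f2_dich (q a : F2) : q = a ∨ q = 1 + a := by
  revert q a; decide

theorem Struc.exit (hS : Struc G A Z P T s) {l : List U} {p : F2} (h : G.Path l p)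
    (hZ : ∀ x ∈ l, x ∉ Z) {x y : U} (hx : l.head? = some x) (hy : l.getLast? = some y)
    (hyP : y ∈ P) : ∃ t ∈ l, t ∈ P ∧ (G.HG Z P s).Reachable x t := by
  induction h generalizing x with
  | single u =>
    simp only [List.head?_cons, Option.some.injEq] at hx
    simp only [List.getLast?_singleton, Option.some.injEq] at hy
    subst hx; subst hy
    exact ⟨u, by simp, hyP, SimpleGraph.Reachable.refl _⟩
  | cons p q u v l hadj hnot hp ih =>
    simp only [List.head?_cons, Option.some.injEq] at hx
    subst hx
    by_cases huP : u ∈ P
    · exact ⟨u, by simp, huP, SimpleGraph.Reachable.refl _⟩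
    · have hy' : (v :: l).getLast? = some y := by
        rw [← hy]; simp [List.getLast?_cons_cons]
      obtain ⟨t, htl, htP, hr⟩ := ih (fun x hx => hZ x (List.mem_cons_of_mem _ hx)) (x := v)
        (by simp) hy'
      refine ⟨t, List.mem_cons_of_mem _ htl, htP, ?_⟩
      have hne : u ≠ v := by
        intro h; subst h; exact hnot (by simp)
      have ha : (G.HG Z P s).Adj u v :=
        ⟨hne, hZ u (by simp), hZ v (by simp), Or.inl ⟨Or.inl huP, p, hadj⟩⟩
      exact ha.reachable.trans hr

theorem Struc.even_path (hS : Struc G A Z P T s) {l : List U} {p : F2} (h : G.Path l p)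
    (hZ : ∀ x ∈ l, x ∉ Z) {x y : U} (hx : l.head? = some x) (hy : l.getLast? = some y)
    (hxP : x ∈ P) (hyP : y ∈ P) (hT : ∀ t ∈ T, ∀ t' ∈ T, t ∈ l → t' ∈ l → t = t') :
    (∀ u ∈ l, u ∈ P) ∧ p = s x + s y := by
  induction h generalizing x with
  | single u =>
    simp only [List.head?_cons, Option.some.injEq] at hx
    simp only [List.getLast?_singleton, Option.some.injEq] at hy
    subst hx; subst hy
    refine ⟨?_, ?_⟩
    · intro w hw
      rw [List.mem_singleton] at hw
      subst hw; exact hxP
    · have : ∀ a : F2, (0 : F2) = a + a := by decide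
      exact this _
  | cons p q u v l hadj hnot hp ih =>
    simp only [List.head?_cons, Option.some.injEq] at hx
    subst hx
    have hne : u ≠ v := by
      intro h; subst h; exact hnot (by simp)
    have hy' : (v :: l).getLast? = some y := by
      rw [← hy]; simp [List.getLast?_cons_cons]
    have key : ¬ (G.HG Z P s).Adj u v := by
      intro ha
      obtain ⟨t, htl, htP, hr⟩ := hS.exit hp (fun x hx => hZ x (List.mem_cons_of_mem _ hx))
        (x := v) (by simp) hy' hyP
      rcases hS.sep u hxP t htP (ha.reachable.trans hr) with h1 | ⟨h1, h2⟩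
      · subst h1; exact hnot htl
      · have := hT u h1 t h2 (by simp) (List.mem_cons_of_mem _ htl)
        subst this; exact hnot htl
    have hvP : v ∈ P := by
      by_contra hv
      exact key ⟨hne, hZ u (by simp), hZ v (by simp), Or.inl ⟨Or.inr hv, p, hadj⟩⟩
    obtain ⟨h1, h2⟩ := ih (fun x hx => hZ x (List.mem_cons_of_mem _ hx)) (x := v)
      (by simp) hy' hvP
      (fun t ht t' ht' htl ht'l => hT t ht t' ht' (List.mem_cons_of_mem _ htl)
        (List.mem_cons_of_mem _ ht'l))
    have hpq : p = s u + s v := by
      rcases f2_dich p (s u + s v) with h | h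
      · exact h
      · exfalso
        apply key
        refine ⟨hne, hZ u (by simp), hZ v (by simp), Or.inr ⟨hxP, hvP, ?_⟩⟩
        rw [h, ← add_assoc] at hadj
        exact hadj
    refine ⟨?_, ?_⟩
    · intro w hw
      rcases List.mem_cons.1 hw with rfl | hw
      · exact hxP
      · exact h1 w hw
    · rw [hpq, h2]
      have : ∀ a b c : F2, a + b + (b + c) = a + c := by decide
      exact this _ _ _

end Pool.Agent.HC
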