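import Pool.Agent.HC.PGb
import Pool.Agent.HC.PGc

/-!
# HC-PGd: Lemma a and Lemma b of 4.3

`G' = G.collapse (col cl a L)`, `H = G'.HG Z P s`, `Pi l = tp i l ++ [a l]` for `l ∈ L` (`tp_col`, parity 0).
At most one `l ∈ L` has `a l ∈ Z`; for the others `a l ∈ P` (`hS.hA`) and `Pi l` avoids `Z` (`hZ`).
`s (a l) = 0` (`hS.s0`).
`a i ∈ P`: suppose not. Let `R` be the set of the elements of `P` which are `H`-reachable from `a i`. By
`sep` any two different elements of `R` are in `T`; so `R.card ≤ 3`, and `R ∩ cl i` has at most one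
element (`hT`). For `l ∈ L` with `a l ∉ Z`, `a l ∉ R` (all but at most 4 of the `l ∈ L`; `a` is injective
because the clusters are disjoint): `Struc.exit` gives `t ∈ Pi l`, `t ∈ R`, so `t ∈ tp i l ⊆ cl i`. So it
is always the same `t`, `t ≠ a i` (`t ∈ P`). `cent`: `2 * (n - 5 - 4) + 2 ≤ n`, contradiction to `n ≥ 28`.
`s (a i) = 0`: choose `l ∈ L` with `a l ∉ Z ∪ T` (`Z.card ≤ 1`, `T.card ≤ 3`); `Struc.even_path` for `Pi l`:
the elements of `T` on it are in `cl i`. `0 = s (a i) + s (a l)`.
`lemma_b`: `Struc.even_path`.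
-/

namespace Pool.Agent.HC

open Finset

variable {U : Type} [Fintype U] [DecidableEq U] {n : ℕ} {G : SG U} {cl : Fin n → Finset U}
  {a : Fin n → U} {v : Fin n → Fin n → U} {tp : Fin n → Fin n → List U} {L : Finset (Fin n)}
  {Z P T : Finset U} {s : U → F2}

private theorem a_inj (hC : Clus G cl a v tp) {i j : Fin n} (h : a i = a j) : i = j := by
  by_contra hne
  exact Finset.disjoint_left.1 (hC.disj i j hne) (hC.aC i) (h ▸ hC.aC j)

private theorem card_bad (hC : Clus G cl a v tp) (L : Finset (Fin n)) (W : Finset U) :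
    (L.filter (fun l => a l ∈ W)).card ≤ W.card := by
  classical
  have h1 : (L.filter (fun l => a l ∈ W)).card =
      ((L.filter (fun l => a l ∈ W)).image a).card := by
    rw [Finset.card_image_of_injective]
    intro x y hxy
    exact a_inj hC hxy
  rw [h1]
  apply Finset.card_le_card
  intro x hx
  rcases Finset.mem_image.1 hx with ⟨l, hl, rfl⟩
  exact (Finset.mem_filter.1 hl).2

private theorem card_good (hC : Clus G cl a v tp) (L : Finset (Fin n)) (W : Finset U) :
    L.card ≤ (L.filter (fun l => a l ∉ W)).card + W.card := by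
  classical
  have h1 := card_bad hC L W
  have h2 := Finset.card_filter_add_card_filter_not (s := L) (fun l => a l ∈ W)
  omega

private theorem head_tp (hC : Clus G cl a v tp) {i l : Fin n} (hil : i ≠ l) :
    (tp i l ++ [a l]).head? = some (a i) := by
  have h := hC.tpH i l hil
  cases htp : tp i l with
  | nil => rw [htp] at h; simp at h
  | cons x m =>
    rw [htp] at h
    simpa using h

private theorem last_tp (i l : Fin n) : (tp i l ++ [a l]).getLast? = some (a l) := by
  simp

theorem lemma_a (hn : 28 ≤ n) (hC : Clus G cl a v tp) (hL : n ≤ L.card + 5)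
    (hS : Struc (G.collapse (col cl a L)) (L.image a) Z P T s) {i : Fin n} (hi : i ∉ L)
    (hZ : ∀ z ∈ Z, z ∉ cl i) (hT : ∀ t ∈ T, ∀ t' ∈ T, t ∈ cl i → t' ∈ cl i → t = t') :
    a i ∈ P ∧ s (a i) = 0 := by
  classical
  have hne : ∀ l ∈ L, i ≠ l := fun l hl h => hi (h ▸ hl)
  have hav : ∀ l ∈ L, a l ∉ Z → ∀ x ∈ tp i l ++ [a l], x ∉ Z := by
    intro l hl hlZ x hx hxZ
    rcases List.mem_append.1 hx with hx | hx
    · exact hZ x hxZ (hC.tpC i l (hne l hl) x hx)
    · rw [List.mem_singleton] at hx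
      exact hlZ (hx ▸ hxZ)
  have hlP : ∀ l ∈ L, a l ∉ Z → a l ∈ P := by
    intro l hl hlZ
    exact hS.hA (Finset.mem_sdiff.2 ⟨Finset.mem_image_of_mem a hl, hlZ⟩)
  have hls : ∀ l ∈ L, s (a l) = 0 := fun l hl => hS.s0 _ (Finset.mem_image_of_mem a hl)
  have haP : a i ∈ P := by
    by_contra haP
    set R : Finset U := P.filter
      (fun t => ((G.collapse (col cl a L)).HG Z P s).Reachable (a i) t) with hR
    have hRR : ∀ t ∈ R, ∀ t' ∈ R, t = t' ∨ (t ∈ T ∧ t' ∈ T) := by
      intro t ht t' ht'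
      rw [hR, Finset.mem_filter] at ht ht'
      exact hS.sep t ht.1 t' ht'.1 (ht.2.symm.trans ht'.2)
    have hR3 : R.card ≤ 3 := by
      by_cases h : ∃ t ∈ R, t ∉ T
      · rcases h with ⟨t, ht, htT⟩
        have : R ⊆ {t} := by
          intro t' ht'
          rcases hRR t ht t' ht' with h | h
          · exact Finset.mem_singleton.2 h.symm
          · exact absurd h.1 htT
        have := Finset.card_le_card this
        rw [Finset.card_singleton] at this
        omega
      · push Not at h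
        exact (Finset.card_le_card h).trans hS.T3
    have hRc : ∀ t ∈ R, ∀ t' ∈ R, t ∈ cl i → t' ∈ cl i → t = t' := by
      intro t ht t' ht' h1 h2
      rcases hRR t ht t' ht' with h | h
      · exact h
      · exact hT t h.1 t' h.2 h1 h2
    have hex : ∀ l ∈ L, a l ∉ Z ∪ R → ∃ t ∈ R, t ∈ tp i l := by
      intro l hl hlW
      rw [Finset.mem_union, not_or] at hlW
      obtain ⟨t, ht1, ht2, ht3⟩ := hS.exit (tp_col (L := L) hC hi hl) (hav l hl hlW.1)
        (head_tp hC (hne l hl)) (last_tp i l) (hlP l hl hlW.1)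
      have htR : t ∈ R := by
        rw [hR, Finset.mem_filter]
        exact ⟨ht2, ht3⟩
      refine ⟨t, htR, ?_⟩
      rcases List.mem_append.1 ht1 with h | h
      · exact h
      · rw [List.mem_singleton] at h
        exact absurd (h ▸ htR) hlW.2
    have hgood := card_good hC L (Z ∪ R)
    have hZR : (Z ∪ R).card ≤ 4 := by
      have h1 := Finset.card_union_le Z R
      have h2 := hS.hZ
      omega
    have hpos : (L.filter (fun l => a l ∉ Z ∪ R)).Nonempty := by
      rw [← Finset.card_pos]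
      omega
    obtain ⟨l0, hl0⟩ := hpos
    rw [Finset.mem_filter] at hl0
    obtain ⟨t0, ht0R, ht0⟩ := hex l0 hl0.1 hl0.2
    have ht0c : t0 ∈ cl i := hC.tpC i l0 (hne l0 hl0.1) t0 ht0
    have ht0a : t0 ≠ a i := by
      rintro rfl
      rw [hR, Finset.mem_filter] at ht0R
      exact haP ht0R.1
    have hsub : L.filter (fun l => a l ∉ Z ∪ R) ⊆
        univ.filter (fun j => j ≠ i ∧ t0 ∈ tp i j) := by
      intro l hl
      rw [Finset.mem_filter] at hl
      rw [Finset.mem_filter]
      refine ⟨Finset.mem_univ _, (hne l hl.1).symm, ?_⟩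
      obtain ⟨t, htR, ht⟩ := hex l hl.1 hl.2
      have : t = t0 := hRc t htR t0 ht0R (hC.tpC i l (hne l hl.1) t ht) ht0c
      rw [← this]
      exact ht
    have hc := hC.cent i t0 ht0a
    have hc2 := Finset.card_le_card hsub
    omega
  refine ⟨haP, ?_⟩
  have hgood := card_good hC L (Z ∪ T)
  have hZT : (Z ∪ T).card ≤ 4 := by
    have h1 := Finset.card_union_le Z T
    have h2 := hS.hZ
    have h3 := hS.T3
    omega
  have hpos : (L.filter (fun l => a l ∉ Z ∪ T)).Nonempty := by
    rw [← Finset.card_pos]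
    omega
  obtain ⟨l, hl⟩ := hpos
  rw [Finset.mem_filter] at hl
  obtain ⟨hlL, hlW⟩ := hl
  rw [Finset.mem_union, not_or] at hlW
  have hmem : ∀ t ∈ T, t ∈ tp i l ++ [a l] → t ∈ cl i := by
    intro t htT ht
    rcases List.mem_append.1 ht with h | h
    · exact hC.tpC i l (hne l hlL) t h
    · rw [List.mem_singleton] at h
      exact absurd (h ▸ htT) hlW.2
  obtain ⟨-, h2⟩ := hS.even_path (tp_col (L := L) hC hi hlL) (hav l hlL hlW.1)
    (head_tp hC (hne l hlL)) (last_tp i l) haP (hlP l hlL hlW.1)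
    (fun t ht t' ht' h h' => hT t ht t' ht' (hmem t ht h) (hmem t' ht' h'))
  rw [hls l hlL, add_zero] at h2
  exact h2.symm

theorem lemma_b (hC : Clus G cl a v tp)
    (hS : Struc (G.collapse (col cl a L)) (L.image a) Z P T s) {l : List U} {x y : U}
    (h : G.Path l 1) (hl : ∀ x ∈ l, ∀ i ∈ L, x ∉ cl i) (hZ : ∀ z ∈ Z, z ∉ l)
    (hT : ∀ t ∈ T, ∀ t' ∈ T, t ∈ l → t' ∈ l → t = t') (hx : l.head? = some x)
    (hy : l.getLast? = some y) (hxP : x ∈ P) (hyP : y ∈ P) (hx0 : s x = 0) (hy0 : s y = 0) :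
    False := by
  obtain ⟨-, h2⟩ := hS.even_path (path_col hC h hl) (fun z hz hzZ => hZ z hzZ hz) hx hy hxP hyP hT
  rw [hx0, hy0, add_zero] at h2
  exact one_ne_zero h2

end Pool.Agent.HC
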