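import Pool.Agent.HC.PGd

/-!
# HC-PGe: normalization (end of 4.3)

Call a set `X` (the vertex set of a path or of a cluster) spoiled if it contains an element of `Z` or
two different elements of `T`. Two disjoint sets are not both spoiled: `Z.card ≤ 1`, `T = ∅` if `Z` is
nonempty, `T.card ≤ 3`. The lists `l1 = a i1 :: (k ++ [a i2])`, `l2 = a i3 :: (l ++ [a i4])` are disjoint; the
indices `i1, .., i4` are different (the lists have no repetition and are disjoint; a list with one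
vertex is not of this form), so the clusters `cl i1, .., cl i4` are disjoint. If `cl i` is not spoiled then
`a i ∈ P`, `s (a i) = 0` (`lemma_a`). `lemma_b`: an unspoiled `l1` has a spoiled cluster among
`cl i1, cl i2`, an unspoiled `l2` has one among `cl i3, cl i4` (the lists avoid the clusters of `L` by
`av1`, `av2` and `i1, .., i4 ∉ L`). At most one of the four clusters is spoiled, so at least one of the
lists is spoiled, so exactly one. If `l1` is spoiled: `l2` is not, and `cl i3` or `cl i4` is spoiled; in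
the first case take `j = i`; in the second reverse the second path: `(j3, j4) = (i4, i3)`,
`l' = l.reverse` (`SG.Path.reverse`, same set of vertices). If `l2` is spoiled exchange the two paths
first.
-/

namespace Pool.Agent.HC

open Finset

variable {U : Type} [Fintype U] [DecidableEq U] {n : ℕ} {G : SG U} {cl : Fin n → Finset U}
  {a : Fin n → U} {v : Fin n → Fin n → U} {tp : Fin n → Fin n → List U} {L : Finset (Fin n)}
  {Z P T : Finset U} {s : U → F2}

/-- spoiled sets -/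
private def Sp (Z T : Finset U) (X : U → Prop) : Prop :=
  (∃ z ∈ Z, X z) ∨ ∃ t ∈ T, ∃ t' ∈ T, t ≠ t' ∧ X t ∧ X t'

private theorem Sp.not_both (hZ : Z.card ≤ 1) (hT : T.card ≤ 3) (hZT : Z.Nonempty → T = ∅)
    {X Y : U → Prop} (hXY : ∀ x, X x → ¬ Y x) (hX : Sp Z T X) (hY : Sp Z T Y) : False := by
  rcases hX with ⟨z, hz, hzX⟩ | ⟨t1, h1, t2, h2, h12, hx1, hx2⟩
  · rcases hY with ⟨z', hz', hzY⟩ | ⟨t3, h3, _⟩
    · have : z = z' := Finset.card_le_one.mp hZ z hz z' hz'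
      subst this
      exact hXY z hzX hzY
    · have := hZT ⟨z, hz⟩
      subst this
      simp at h3
  · rcases hY with ⟨z', hz', hzY⟩ | ⟨t3, h3, t4, h4, h34, hy3, hy4⟩
    · have := hZT ⟨z', hz'⟩
      subst this
      simp at h1
    · have h13 : t1 ≠ t3 := fun h => hXY t1 hx1 (h ▸ hy3)
      have h14 : t1 ≠ t4 := fun h => hXY t1 hx1 (h ▸ hy4)
      have h23 : t2 ≠ t3 := fun h => hXY t2 hx2 (h ▸ hy3)
      have h24 : t2 ≠ t4 := fun h => hXY t2 hx2 (h ▸ hy4)
      have hsub : ({t1, t2, t3, t4} : Finset U) ⊆ T := by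
        intro x hx
        simp only [Finset.mem_insert, Finset.mem_singleton] at hx
        rcases hx with rfl | rfl | rfl | rfl <;> assumption
      have hcard : ({t1, t2, t3, t4} : Finset U).card = 4 := by
        rw [Finset.card_insert_of_notMem, Finset.card_insert_of_notMem,
          Finset.card_insert_of_notMem, Finset.card_singleton]
        · simp [h34]
        · simp [h23, h24]
        · simp [h12, h13, h14]
      have := Finset.card_le_card hsub
      omega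

private theorem lnk_swap {i1 i2 i3 i4 : Fin n} {k l : List U} (h : Lnk G cl a i1 i2 i3 i4 k l) :
    Lnk G cl a i3 i4 i1 i2 l k where
  p1 := h.p2
  p2 := h.p1
  disj := fun x hx hx' => h.disj x hx' hx
  av1 := fun x hx j hj => by
    rcases h.av2 x hx j hj with h | h | h | h
    · exact Or.inr (Or.inr (Or.inl h))
    · exact Or.inr (Or.inr (Or.inr h))
    · exact Or.inl h
    · exact Or.inr (Or.inl h)
  av2 := fun x hx j hj => by
    rcases h.av1 x hx j hj with h | h | h | h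
    · exact Or.inr (Or.inr (Or.inl h))
    · exact Or.inr (Or.inr (Or.inr h))
    · exact Or.inl h
    · exact Or.inr (Or.inl h)

private theorem rev_eq (x y : U) (l : List U) :
    (x :: (l ++ [y])).reverse = y :: (l.reverse ++ [x]) := by
  simp

private theorem mem_rev (x y u : U) (l : List U) :
    u ∈ y :: (l.reverse ++ [x]) ↔ u ∈ x :: (l ++ [y]) := by
  rw [← rev_eq, List.mem_reverse]

private theorem lnk_rev {i1 i2 i3 i4 : Fin n} {k l : List U} (h : Lnk G cl a i1 i2 i3 i4 k l) :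
    Lnk G cl a i1 i2 i4 i3 k l.reverse where
  p1 := h.p1
  p2 := by
    have := h.p2.reverse
    rwa [rev_eq] at this
  disj := fun x hx hx' => h.disj x hx ((mem_rev _ _ _ _).mp hx')
  av1 := fun x hx j hj => by
    rcases h.av1 x hx j hj with h | h | h | h
    · exact Or.inl h
    · exact Or.inr (Or.inl h)
    · exact Or.inr (Or.inr (Or.inr h))
    · exact Or.inr (Or.inr (Or.inl h))
  av2 := fun x hx j hj => by
    rcases h.av2 x ((mem_rev _ _ _ _).mp hx) j hj with h | h | h | h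
    · exact Or.inl h
    · exact Or.inr (Or.inl h)
    · exact Or.inr (Or.inr (Or.inr h))
    · exact Or.inr (Or.inr (Or.inl h))

private theorem ends_ne {x y : U} {l : List U} {p : F2} (h : G.Path (x :: (l ++ [y])) p) :
    x ≠ y := by
  have := h.nodup
  intro hxy
  subst hxy
  simp at this

private theorem root_of (hn : 28 ≤ n) (hC : Clus G cl a v tp) (hL : n ≤ L.card + 5)
    (hS : Struc (G.collapse (col cl a L)) (L.image a) Z P T s) {i : Fin n} (hi : i ∉ L)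
    (hsp : ¬ Sp Z T (fun x => x ∈ cl i)) : a i ∈ P ∧ s (a i) = 0 := by
  refine lemma_a hn hC hL hS hi ?_ ?_
  · intro z hz hzc
    exact hsp (Or.inl ⟨z, hz, hzc⟩)
  · intro t ht t' ht' htc htc'
    by_contra hne
    exact hsp (Or.inr ⟨t, ht, t', ht', hne, htc, htc'⟩)

private theorem bad_of (hn : 28 ≤ n) (hC : Clus G cl a v tp) (hL : n ≤ L.card + 5)
    (hS : Struc (G.collapse (col cl a L)) (L.image a) Z P T s) {i1 i2 : Fin n} {k : List U}
    (hp : G.Path (a i1 :: (k ++ [a i2])) 1)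
    (hav : ∀ x ∈ a i1 :: (k ++ [a i2]), ∀ i ∈ L, x ∉ cl i) (h1 : i1 ∉ L) (h2 : i2 ∉ L) :
    Sp Z T (fun x => x ∈ a i1 :: (k ++ [a i2])) ∨ Sp Z T (fun x => x ∈ cl i1) ∨
      Sp Z T (fun x => x ∈ cl i2) := by
  by_contra hcon
  push Not at hcon
  obtain ⟨hc1, hc2, hc3⟩ := hcon
  obtain ⟨hP1, hs1⟩ := root_of hn hC hL hS h1 hc2
  obtain ⟨hP2, hs2⟩ := root_of hn hC hL hS h2 hc3
  refine lemma_b hC hS (x := a i1) (y := a i2) hp hav ?_ ?_ ?_ ?_ hP1 hP2 hs1 hs2
  · intro z hz hzc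
    exact hc1 (Or.inl ⟨z, hz, hzc⟩)
  · intro t ht t' ht' htc htc'
    by_contra hne
    exact hc1 (Or.inr ⟨t, ht, t', ht', hne, htc, htc'⟩)
  · simp
  · rw [← List.cons_append, List.getLast?_concat]

private theorem nrm_core (hn : 28 ≤ n) (hC : Clus G cl a v tp) (hL : n ≤ L.card + 5)
    (hS : Struc (G.collapse (col cl a L)) (L.image a) Z P T s) {i1 i2 i3 i4 : Fin n}
    {k l : List U} (h : Lnk G cl a i1 i2 i3 i4 k l) (h1 : i1 ∉ L) (h2 : i2 ∉ L) (h3 : i3 ∉ L)
    (h4 : i4 ∉ L) (hs1 : Sp Z T (fun x => x ∈ a i1 :: (k ++ [a i2])))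
    (hs3 : Sp Z T (fun x => x ∈ cl i3)) : Nrm G cl a L Z P T s i1 i2 i3 i4 k l := by
  have hd : ∀ i j, i ≠ j → ∀ x, x ∈ cl i → ¬ x ∈ cl j := fun i j hij x hx hx' =>
    Finset.disjoint_left.mp (hC.disj i j hij) hx hx'
  have h13 : i3 ≠ i1 := by
    intro he
    refine h.disj (a i1) (by simp) ?_
    rw [← he]
    simp
  have h23 : i3 ≠ i2 := by
    intro he
    refine h.disj (a i2) (by simp) ?_
    rw [← he]
    simp
  have h34 : i3 ≠ i4 := fun he => ends_ne h.p2 (by rw [he])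
  have hn2 : ¬ Sp Z T (fun x => x ∈ a i3 :: (l ++ [a i4])) := fun hc =>
    Sp.not_both hS.hZ hS.T3 hS.TZ (fun x hx => h.disj x hx) hs1 hc
  have hnc : ∀ j, i3 ≠ j → ¬ Sp Z T (fun x => x ∈ cl j) := fun j hj hc =>
    Sp.not_both hS.hZ hS.T3 hS.TZ (hd i3 j hj) hs3 hc
  refine ⟨h, h1, h2, h3, h4, ?_, ?_, hs1, hs3, root_of hn hC hL hS h1 (hnc i1 h13),
    root_of hn hC hL hS h2 (hnc i2 h23), root_of hn hC hL hS h4 (hnc i4 h34)⟩
  · intro z hz hzc
    exact hn2 (Or.inl ⟨z, hz, hzc⟩)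
  · intro t ht t' ht' htc htc'
    by_contra hne
    exact hn2 (Or.inr ⟨t, ht, t', ht', hne, htc, htc'⟩)

private theorem nrm_half (hn : 28 ≤ n) (hC : Clus G cl a v tp) (hL : n ≤ L.card + 5)
    (hS : Struc (G.collapse (col cl a L)) (L.image a) Z P T s) {i1 i2 i3 i4 : Fin n}
    {k l : List U} (h : Lnk G cl a i1 i2 i3 i4 k l) (h1 : i1 ∉ L) (h2 : i2 ∉ L) (h3 : i3 ∉ L)
    (h4 : i4 ∉ L) (hs1 : Sp Z T (fun x => x ∈ a i1 :: (k ++ [a i2]))) :
    ∃ j1 j2 j3 j4 k' l', Nrm G cl a L Z P T s j1 j2 j3 j4 k' l' ∧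
      ∀ j, (j = j1 ∨ j = j2 ∨ j = j3 ∨ j = j4) ↔ (j = i1 ∨ j = i2 ∨ j = i3 ∨ j = i4) := by
  have hav : ∀ x ∈ a i3 :: (l ++ [a i4]), ∀ i ∈ L, x ∉ cl i := by
    intro x hx i hi hxc
    rcases h.av2 x hx i hxc with he | he | he | he <;> subst he <;> contradiction
  have hn2 : ¬ Sp Z T (fun x => x ∈ a i3 :: (l ++ [a i4])) := fun hc =>
    Sp.not_both hS.hZ hS.T3 hS.TZ (fun x hx => h.disj x hx) hs1 hc
  rcases bad_of hn hC hL hS h.p2 hav h3 h4 with hb | hb | hb
  · exact absurd hb hn2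
  · exact ⟨i1, i2, i3, i4, k, l, nrm_core hn hC hL hS h h1 h2 h3 h4 hs1 hb, fun j => Iff.rfl⟩
  · refine ⟨i1, i2, i4, i3, k, l.reverse,
      nrm_core hn hC hL hS (lnk_rev h) h1 h2 h4 h3 hs1 hb, fun j => ?_⟩
    tauto

theorem exists_nrm (hn : 28 ≤ n) (hC : Clus G cl a v tp) (hL : n ≤ L.card + 5)
    (hS : Struc (G.collapse (col cl a L)) (L.image a) Z P T s) {i1 i2 i3 i4 : Fin n}
    {k l : List U} (h : Lnk G cl a i1 i2 i3 i4 k l) (h1 : i1 ∉ L) (h2 : i2 ∉ L) (h3 : i3 ∉ L)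
    (h4 : i4 ∉ L) : ∃ j1 j2 j3 j4 k' l', Nrm G cl a L Z P T s j1 j2 j3 j4 k' l' ∧
      ∀ j, (j = j1 ∨ j = j2 ∨ j = j3 ∨ j = j4) ↔ (j = i1 ∨ j = i2 ∨ j = i3 ∨ j = i4) := by
  have hav1 : ∀ x ∈ a i1 :: (k ++ [a i2]), ∀ i ∈ L, x ∉ cl i := by
    intro x hx i hi hxc
    rcases h.av1 x hx i hxc with he | he | he | he <;> subst he <;> contradiction
  have hav2 : ∀ x ∈ a i3 :: (l ++ [a i4]), ∀ i ∈ L, x ∉ cl i := by
    intro x hx i hi hxc
    rcases h.av2 x hx i hxc with he | he | he | he <;> subst he <;> contradiction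
  have hswap : Sp Z T (fun x => x ∈ a i3 :: (l ++ [a i4])) →
      ∃ j1 j2 j3 j4 k' l', Nrm G cl a L Z P T s j1 j2 j3 j4 k' l' ∧
        ∀ j, (j = j1 ∨ j = j2 ∨ j = j3 ∨ j = j4) ↔ (j = i1 ∨ j = i2 ∨ j = i3 ∨ j = i4) := by
    intro hs2
    obtain ⟨j1, j2, j3, j4, k', l', hN, hj⟩ :=
      nrm_half hn hC hL hS (lnk_swap h) h3 h4 h1 h2 hs2
    refine ⟨j1, j2, j3, j4, k', l', hN, fun j => (hj j).trans ?_⟩
    tauto
  rcases bad_of hn hC hL hS h.p1 hav1 h1 h2 with hb | hb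
  · exact nrm_half hn hC hL hS h h1 h2 h3 h4 hb
  rcases bad_of hn hC hL hS h.p2 hav2 h3 h4 with hb' | hb'
  · exact hswap hb'
  exfalso
  have hd : ∀ i j, i ≠ j → ∀ x, x ∈ cl i → ¬ x ∈ cl j := fun i j hij x hx hx' =>
    Finset.disjoint_left.mp (hC.disj i j hij) hx hx'
  have hne : ∀ i j, a i ∈ a i1 :: (k ++ [a i2]) → a j ∈ a i3 :: (l ++ [a i4]) → i ≠ j := by
    intro i j hi hj he
    subst he
    exact h.disj _ hi hj
  rcases hb with hb | hb <;> rcases hb' with hb' | hb'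
  · exact Sp.not_both hS.hZ hS.T3 hS.TZ (hd i1 i3 (hne i1 i3 (by simp) (by simp))) hb hb'
  · exact Sp.not_both hS.hZ hS.T3 hS.TZ (hd i1 i4 (hne i1 i4 (by simp) (by simp))) hb hb'
  · exact Sp.not_both hS.hZ hS.T3 hS.TZ (hd i2 i3 (hne i2 i3 (by simp) (by simp))) hb hb'
  · exact Sp.not_both hS.hZ hS.T3 hS.TZ (hd i2 i4 (hne i2 i4 (by simp) (by simp))) hb hb'

end Pool.Agent.HC
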