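import Pool.Agent.HC.PGd

/-!
# There is no deleted vertex (4.4)

In the normalized situation a deleted vertex `z` would be in `cl j3`; then `a j3` is not split, all its
exits go through one split vertex `t`, both `t` and `z` are in `cl j3` and every path of the cluster meets
`t` or `z`, contradicting the choice of the root.
-/

namespace Pool.Agent.HC

open Finset

variable {U : Type} [Fintype U] [DecidableEq U] {n : ℕ} {G : SG U} {cl : Fin n → Finset U}
  {a : Fin n → U} {v : Fin n → Fin n → U} {tp : Fin n → Fin n → List U} {L : Finset (Fin n)}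
  {Z P T : Finset U} {s : U → F2}

theorem Nrm.Z_empty (hn : 28 ≤ n) (hC : Clus G cl a v tp) (hcut : Cuts G cl)
    (hL : n ≤ L.card + 5) (hS : Struc (G.collapse (col cl a L)) (L.image a) Z P T s)
    {j1 j2 j3 j4 : Fin n} {k l : List U} (h : Nrm G cl a L Z P T s j1 j2 j3 j4 k l) : Z = ∅ := by
  classical
  by_contra hZne
  have hZn : Z.Nonempty := Finset.nonempty_of_ne_empty hZne
  have hT : T = ∅ := hS.TZ hZn
  obtain ⟨z, hz⟩ := hZn
  have hZz : ∀ w ∈ Z, w = z := fun w hw => Finset.card_le_one.1 hS.hZ w hw z hz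
  have hTe : ∀ t, t ∉ T := fun t ht => by rw [hT] at ht; exact absurd ht (Finset.notMem_empty _)
  have hzc : z ∈ cl j3 := by
    rcases h.s3 with ⟨w, hw, hwc⟩ | ⟨t, ht, -⟩
    · rw [← hZz w hw]; exact hwc
    · exact absurd ht (hTe t)
  have hza : z ≠ a j3 := by
    intro e
    exact h.u2Z z hz (by rw [e]; simp)
  have hdisj : ∀ i j x, x ∈ cl i → x ∈ cl j → i = j := by
    intro i j x hi hj
    by_contra hne
    exact Finset.disjoint_left.1 (hC.disj i j hne) hi hj
  have hLj : ∀ i ∈ L, i ≠ j3 := fun i hi e => h.L3 (e ▸ hi)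
  have hzt : ∀ i ∈ L, z ∉ cl i := fun i hi hc => hLj i hi (hdisj i j3 z hc hzc)
  have haZ : ∀ i ∈ L, a i ∉ Z := by
    intro i hi hc
    have h1 := hC.aC i
    rw [hZz _ hc] at h1
    exact hzt i hi h1
  have haP : ∀ i ∈ L, a i ∈ P := fun i hi =>
    hS.hA (Finset.mem_sdiff.2 ⟨Finset.mem_image_of_mem a hi, haZ i hi⟩)
  -- the clusters whose path avoids `z`
  set B := univ.filter (fun j => j ≠ j3 ∧ z ∈ tp j3 j) with hBdef
  have hB : 2 * B.card + 2 ≤ n := hC.cent j3 z hza
  set L2 := L.filter (fun l => z ∉ tp j3 l) with hL2def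
  have hL2 : L.card ≤ L2.card + B.card := by
    refine le_trans (Finset.card_le_card ?_) (Finset.card_union_le _ _)
    intro i hi
    rw [Finset.mem_union, hL2def, hBdef, Finset.mem_filter, Finset.mem_filter]
    by_cases hzi : z ∈ tp j3 i
    · exact Or.inr ⟨Finset.mem_univ _, hLj i hi, hzi⟩
    · exact Or.inl ⟨hi, hzi⟩
  have hL2c : 2 ≤ L2.card := by omega
  have hpath : ∀ i ∈ L, (G.collapse (col cl a L)).Path (tp j3 i ++ [a i]) 0 := fun i hi =>
    tp_col hC h.L3 hi
  have hpZ : ∀ i ∈ L2, ∀ x ∈ tp j3 i ++ [a i], x ∉ Z := by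
    intro i hi x hx hxZ
    rw [hL2def, Finset.mem_filter] at hi
    rw [List.mem_append, List.mem_singleton] at hx
    rcases hx with hx | hx
    · rw [hZz x hxZ] at hx
      exact hi.2 hx
    · rw [hx] at hxZ
      exact haZ i hi.1 hxZ
  have hphead : ∀ i ∈ L, (tp j3 i ++ [a i]).head? = some (a j3) := by
    intro i hi
    rw [List.head?_append, hC.tpH j3 i (hLj i hi).symm]
    rfl
  have hplast : ∀ i : Fin n, (tp j3 i ++ [a i]).getLast? = some (a i) := by
    intro i
    simp
  -- (1)
  have ha3 : a j3 ∉ P := by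
    intro ha
    obtain ⟨i, hi⟩ := Finset.card_pos.1 (by omega : 0 < L2.card)
    have hiL : i ∈ L := (Finset.mem_filter.1 hi).1
    have h1 := (hS.even_path (hpath i hiL) (hpZ i hi) (hphead i hiL) (hplast i) ha (haP i hiL)
      (fun t ht => absurd ht (hTe t))).2
    rw [hS.s0 (a i) (Finset.mem_image_of_mem a hiL), add_zero] at h1
    refine lemma_b hC hS h.lnk.p2 ?_ h.u2Z (fun t ht => absurd ht (hTe t)) (x := a j3) (y := a j4)
      (by simp) ?_ ha h.a4.1 h1.symm h.a4.2
    · intro x hx i hi hxi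
      rcases h.lnk.av2 x hx i hxi with e | e | e | e
      · exact h.L1 (e ▸ hi)
      · exact h.L2 (e ▸ hi)
      · exact h.L3 (e ▸ hi)
      · exact h.L4 (e ▸ hi)
    · rw [← List.cons_append, List.getLast?_append]
      simp
  set H := (G.collapse (col cl a L)).HG Z P s with hH
  -- (2)
  obtain ⟨i0, hi0⟩ := Finset.card_pos.1 (by omega : 0 < L2.card)
  have hex : ∀ i ∈ L2, ∃ t ∈ tp j3 i ++ [a i], t ∈ P ∧ H.Reachable (a j3) t := by
    intro i hi
    have hiL : i ∈ L := (Finset.mem_filter.1 hi).1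
    exact hS.exit (hpath i hiL) (hpZ i hi) (hphead i hiL) (hplast i) (haP i hiL)
  obtain ⟨t, -, htP, htr⟩ := hex i0 hi0
  have huniq : ∀ u ∈ P, H.Reachable (a j3) u → u = t := by
    intro u hu hur
    rcases hS.sep u hu t htP (hur.symm.trans htr) with e | ⟨e, -⟩
    · exact e
    · exact absurd e (hTe u)
  have hall : ∀ i ∈ L2, t ∈ tp j3 i ++ [a i] := by
    intro i hi
    obtain ⟨t', h1, h2, h3⟩ := hex i hi
    rw [← huniq t' h2 h3]
    exact h1
  have htc : t ∈ cl j3 := by
    obtain ⟨i1, hi1, hne⟩ := Finset.exists_mem_ne (by omega : 1 < L2.card) i0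
    have h0 := hall i0 hi0
    have h1 := hall i1 hi1
    have hi0L : i0 ∈ L := (Finset.mem_filter.1 hi0).1
    have hi1L : i1 ∈ L := (Finset.mem_filter.1 hi1).1
    rw [List.mem_append, List.mem_singleton] at h0 h1
    rcases h0 with h0 | h0
    · exact hC.tpC j3 i0 (hLj i0 hi0L).symm t h0
    · rcases h1 with h1 | h1
      · exact hC.tpC j3 i1 (hLj i1 hi1L).symm t h1
      · exfalso
        apply hne
        have h2 := hC.aC i1
        rw [← h1] at h2
        have h3 := hC.aC i0
        rw [← h0] at h3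
        exact hdisj i1 i0 t h2 h3
  have hta : t ≠ a j3 := by
    intro e
    rw [e] at htP
    exact ha3 htP
  -- (3)
  set I : Finset U := univ.filter (fun u => u ∉ P ∧ H.Reachable (a j3) u) with hI
  have hmemI : ∀ u, u ∈ I ↔ u ∉ P ∧ H.Reachable (a j3) u := by
    intro u; rw [hI, Finset.mem_filter]; simp
  have haI : a j3 ∈ I := (hmemI _).2 ⟨ha3, SimpleGraph.Reachable.refl _⟩
  have htI : t ∉ I := fun hc => ((hmemI t).1 hc).1 htP
  -- an isolated vertex different from `a j3` is not reachable
  have hiso : ∀ u, u ≠ a j3 → (∀ w, ¬ H.Adj w u) → ¬ H.Reachable (a j3) u := by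
    intro u hu hno hr
    obtain ⟨w⟩ := hr.symm
    cases w with
    | nil => exact hu rfl
    | cons hadj _ => exact hno _ hadj.symm
  have hzI : z ∉ I := by
    intro hc
    refine hiso z hza ?_ ((hmemI z).1 hc).2
    intro w hw
    exact hw.2.2.1 hz
  have htrue : ∀ u ∈ I, ∀ i ∈ L, u ∉ cl i := by
    intro u hu i hi hui
    have hu' := (hmemI u).1 hu
    have huai : u ≠ a i := by
      rintro rfl
      exact hu'.1 (haP i hi)
    refine hiso u ?_ ?_ hu'.2
    · rintro rfl
      exact hLj i hi (hdisj i j3 _ hui (hC.aC j3))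
    · intro w hw
      have hw' := hw.symm
      rcases hw'.2.2.2 with ⟨-, p, hp⟩ | ⟨-, -, hp⟩
      · exact collapse_dummy hC hi hui huai p hp
      · exact collapse_dummy hC hi hui huai _ hp
  have hfar : Far cl I := by
    unfold Far
    have h1 : L.card ≤ (univ.filter (fun i => Disjoint (cl i) I)).card := by
      apply Finset.card_le_card
      intro i hi
      rw [Finset.mem_filter]
      refine ⟨Finset.mem_univ _, ?_⟩
      rw [Finset.disjoint_left]
      intro u hu1 hu2
      exact htrue u hu2 i hi hu1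
    omega
  have hnb : ∀ u ∈ I, ∀ p w, G.adj p u w → w ∈ I ∨ w = t ∨ w = z := by
    intro u hu p w hadj
    have hu' := (hmemI u).1 hu
    have huZ : u ∉ Z := by
      intro hc
      rw [hZz u hc] at hu
      exact hzI hu
    by_cases hw : ∃ i ∈ L, w ∈ cl i
    · exfalso
      obtain ⟨i, hi, hwi⟩ := hw
      have h1 := collapse_adj_of hC (htrue u hu) hi hwi hadj
      have hne : u ≠ a i := by
        rintro rfl
        exact hu'.1 (haP i hi)
      have h2 : H.Adj u (a i) := ⟨hne, huZ, haZ i hi, Or.inl ⟨Or.inl hu'.1, p, h1⟩⟩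
      have h3 := huniq (a i) (haP i hi) (hu'.2.trans h2.reachable)
      have h4 := hC.aC i
      rw [h3] at h4
      exact hLj i hi (hdisj i j3 t h4 htc)
    · push Not at hw
      by_cases hwz : w = z
      · exact Or.inr (Or.inr hwz)
      · have hwZ : w ∉ Z := fun hc => hwz (hZz w hc)
        have h1 := (collapse_adj_true hC (htrue u hu) hw p).2 hadj
        have hne : u ≠ w := by
          rintro rfl
          exact G.irrefl p u hadj
        have h2 : H.Adj u w := ⟨hne, huZ, hwZ, Or.inl ⟨Or.inl hu'.1, p, h1⟩⟩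
        have h3 := hu'.2.trans h2.reachable
        by_cases hwP : w ∈ P
        · exact Or.inr (Or.inl (huniq w hwP h3))
        · exact Or.inl ((hmemI w).2 ⟨hwP, h3⟩)
  obtain ⟨x, hx⟩ := hcut.two I t z ⟨_, haI⟩ htI hzI hfar hnb
  have hxa : x = a j3 := by
    rw [hx, Finset.mem_singleton] at haI
    exact haI.symm
  -- (4)
  have hedge : ∀ p w, G.adj p (a j3) w → w = t ∨ w = z := by
    intro p w hadj
    rcases hnb (a j3) haI p w hadj with h1 | h1
    · exfalso
      rw [hx, Finset.mem_singleton, hxa] at h1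
      rw [h1] at hadj
      exact G.irrefl p _ hadj
    · exact h1
  have hcov : ∀ j, j ≠ j3 → t ∈ tp j3 j ∨ z ∈ tp j3 j := by
    intro j hj
    have hP := hC.tpP j3 j hj.symm
    have hh := hC.tpH j3 j hj.symm
    have hl := hC.tpL j3 j hj.symm
    rcases hq : tp j3 j with _ | ⟨y, _ | ⟨y2, rest⟩⟩
    · rw [hq] at hh
      simp at hh
    · exfalso
      rw [hq] at hh hl
      simp only [List.head?_cons, Option.some.injEq] at hh
      simp only [List.getLast?_singleton, Option.some.injEq] at hl
      have h1 := hC.link j3 j hj.symm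
      rw [← hl, hh] at h1
      have h2 := hC.vC j j3 hj
      rcases hedge 0 _ h1 with e | e
      · rw [e] at h2
        exact hj (hdisj j j3 _ h2 htc)
      · rw [e] at h2
        exact hj (hdisj j j3 _ h2 hzc)
    · rw [hq] at hh hP
      simp only [List.head?_cons, Option.some.injEq] at hh
      obtain ⟨q, hq2⟩ := SG.Path.adj_of_infix (l1 := []) hP
      rw [hh] at hq2
      rcases hedge q _ hq2 with e | e
      · left; rw [e]; simp
      · right; rw [e]; simp
  have hA := hC.cent j3 t hta
  have hcard : (univ.filter (fun j : Fin n => j ≠ j3)).card ≤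
      (univ.filter (fun j => j ≠ j3 ∧ t ∈ tp j3 j)).card + B.card := by
    refine le_trans (Finset.card_le_card ?_) (Finset.card_union_le _ _)
    intro j hj
    rw [Finset.mem_filter] at hj
    rw [Finset.mem_union, hBdef, Finset.mem_filter, Finset.mem_filter]
    rcases hcov j hj.2 with h1 | h1
    · exact Or.inl ⟨Finset.mem_univ _, hj.2, h1⟩
    · exact Or.inr ⟨Finset.mem_univ _, hj.2, h1⟩
  have hcard2 : (univ.filter (fun j : Fin n => j ≠ j3)).card = n - 1 := by
    rw [Finset.filter_ne', Finset.card_erase_of_mem (Finset.mem_univ _), Finset.card_univ,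
      Fintype.card_fin]
  omega

end Pool.Agent.HC
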