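import Pool.Agent.HC.PGd

/-!
# HC-PGg: the exceptional component has three terminals (4.5)

`Z = ∅`. By `s1` two different elements of `T` are on `l1 = a j1 :: (k ++ [a j2])`, by `s3` two different
elements of `T` are in `cl j3`. All `a l`, `l ∈ L`, are in `P`, `s (a l) = 0`. `l2 = a j3 :: (l ++ [a j4])`.
If some element of `T` is on `l2`: it is not on `l1`, so `T.card = 3` and `T` consists of these three:
all on `l1` or `l2`. Otherwise no element of `T` is on `l2`, so `a j3 ∉ T`.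
(1) `a j3 ∈ P`: otherwise `Struc.exit` for the path `l2` (in `G'`, `path_col`; it ends in `a j4 ∈ P`):
`t ∈ l2`, `t ∈ P`, `H.Reachable (a j3) t`. Any other element of `P` reachable from `a j3` would be in `T`
together with `t` (`sep`), but `t ∉ T`; so `t` is the only one. `t` is in no `cl i`, `i ∈ L` (`av2`).
For every `l ∈ L`: `Struc.exit` for `tp j3 l ++ [a l]` gives `t ∈ tp j3 l` (`t ≠ a l`). `t ≠ a j3`.
`cent`: `2 * L.card + 2 ≤ n`, contradiction.
(2) `s (a j3) = 1`: `Struc.even_path` for `l2`: `1 = s (a j3) + s (a j4) = s (a j3)`.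
(3) Let `l ∈ L`, `a l ∉ T` (at least `n - 8` such `l`). If at most one element of `T` is on
`tp j3 l ++ [a l]` then `Struc.even_path` gives `0 = s (a j3) + s (a l) = 1`. So two different
elements of `T` are in `tp j3 l`, so in `cl j3`.
(4) If all elements of `T` are in `cl j3` and `T.card = 3`: done. Otherwise `T ∩ cl j3` has exactly two
elements `t, t'` (at least two by `s3`; three would give `T ⊆ cl j3`, `T.card = 3`), and by (3)
`t ∈ tp j3 l` for at least `n - 8` elements `l`; `t ≠ a j3` (`a j3 ∉ T`). `cent`: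
`2 * (n - 8) + 2 ≤ n`, contradiction to `n ≥ 28`.
-/

namespace Pool.Agent.HC

open Finset

variable {U : Type} [Fintype U] [DecidableEq U] {n : ℕ} {G : SG U} {cl : Fin n → Finset U}
  {a : Fin n → U} {v : Fin n → Fin n → U} {tp : Fin n → Fin n → List U} {L : Finset (Fin n)}
  {P T : Finset U} {s : U → F2}

private theorem pg_three {T : Finset U} (hT : T.card ≤ 3) {x y z : U} (hx : x ∈ T) (hy : y ∈ T)
    (hz : z ∈ T) (hxy : x ≠ y) (hxz : x ≠ z) (hyz : y ≠ z) :
    T.card = 3 ∧ ∀ t ∈ T, t = x ∨ t = y ∨ t = z := by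
  have h1 : ({x, y, z} : Finset U).card = 3 := Finset.card_eq_three.2 ⟨x, y, z, hxy, hxz, hyz, rfl⟩
  have h2 : ({x, y, z} : Finset U) ⊆ T := by
    intro t ht
    simp only [Finset.mem_insert, Finset.mem_singleton] at ht
    rcases ht with rfl | rfl | rfl <;> assumption
  have h3 : ({x, y, z} : Finset U) = T := Finset.eq_of_subset_of_card_le h2 (by omega)
  refine ⟨by rw [← h3]; exact h1, fun t ht => ?_⟩
  rw [← h3] at ht
  simpa only [Finset.mem_insert, Finset.mem_singleton] using ht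

private theorem pg_head {l : List U} {x y : U} (h : l.head? = some x) :
    (l ++ [y]).head? = some x := by
  cases l with
  | nil => simp at h
  | cons z l => simpa using h

theorem Nrm.T_three (hn : 28 ≤ n) (hC : Clus G cl a v tp) (hL : n ≤ L.card + 5)
    (hS : Struc (G.collapse (col cl a L)) (L.image a) ∅ P T s)
    {j1 j2 j3 j4 : Fin n} {k l : List U} (h : Nrm G cl a L ∅ P T s j1 j2 j3 j4 k l) :
    T.card = 3 ∧ ∀ t ∈ T, t ∈ a j1 :: (k ++ [a j2]) ∨ t ∈ a j3 :: (l ++ [a j4]) ∨ t ∈ cl j3 := by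
  obtain ⟨t1, ht1, t1', ht1', hne1, hl1, hl1'⟩ : ∃ t ∈ T, ∃ t' ∈ T, t ≠ t' ∧
      t ∈ a j1 :: (k ++ [a j2]) ∧ t' ∈ a j1 :: (k ++ [a j2]) := by
    rcases h.s1 with ⟨z, hz, -⟩ | h1
    · simp at hz
    · exact h1
  obtain ⟨t3, ht3, t3', ht3', hne3, hl3, hl3'⟩ : ∃ t ∈ T, ∃ t' ∈ T, t ≠ t' ∧
      t ∈ cl j3 ∧ t' ∈ cl j3 := by
    rcases h.s3 with ⟨z, hz, -⟩ | h1
    · simp at hz
    · exact h1
  by_cases hA : ∃ t ∈ T, t ∈ a j3 :: (l ++ [a j4])
  · obtain ⟨t, htT, htl⟩ := hA
    have h1 : t1 ≠ t := fun h' => h.lnk.disj t1 hl1 (h' ▸ htl)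
    have h2 : t1' ≠ t := fun h' => h.lnk.disj t1' hl1' (h' ▸ htl)
    obtain ⟨h3, h4⟩ := pg_three hS.T3 ht1 ht1' htT hne1 h1 h2
    refine ⟨h3, fun u hu => ?_⟩
    rcases h4 u hu with rfl | rfl | rfl
    · exact Or.inl hl1
    · exact Or.inl hl1'
    · exact Or.inr (Or.inl htl)
  have hA' : ∀ t ∈ T, t ∉ a j3 :: (l ++ [a j4]) := fun t ht htl => hA ⟨t, ht, htl⟩
  have ha3T : a j3 ∉ T := fun h' => hA' _ h' (by simp)
  have hav : ∀ x ∈ a j3 :: (l ++ [a j4]), ∀ i ∈ L, x ∉ cl i := by
    intro x hx i hi hxi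
    rcases h.lnk.av2 x hx i hxi with rfl | rfl | rfl | rfl
    · exact h.L1 hi
    · exact h.L2 hi
    · exact h.L3 hi
    · exact h.L4 hi
  have hpath := path_col hC h.lnk.p2 hav
  have hhead : (a j3 :: (l ++ [a j4])).head? = some (a j3) := rfl
  have hlast : (a j3 :: (l ++ [a j4])).getLast? = some (a j4) := by
    rw [← List.cons_append, List.getLast?_append]; simp
  have hLP : ∀ i ∈ L, a i ∈ P := by
    intro i hi
    apply hS.hA
    simp only [Finset.sdiff_empty, Finset.mem_image]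
    exact ⟨i, hi, rfl⟩
  have hLs : ∀ i ∈ L, s (a i) = 0 := fun i hi => hS.s0 _ (Finset.mem_image_of_mem a hi)
  have hne : ∀ i ∈ L, j3 ≠ i := fun i hi h' => h.L3 (h' ▸ hi)
  have hth : ∀ i ∈ L, (tp j3 i ++ [a i]).head? = some (a j3) := fun i hi =>
    pg_head (hC.tpH j3 i (hne i hi))
  have htl : ∀ i ∈ L, (tp j3 i ++ [a i]).getLast? = some (a i) := fun i _ => by
    rw [List.getLast?_append]; simp
  have hinj : Function.Injective a := by
    intro i j hij
    by_contra hne'
    exact Finset.disjoint_left.1 (hC.disj i j hne') (hC.aC i) (hij ▸ hC.aC j)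
  -- (1)
  have h3P : a j3 ∈ P := by
    by_contra h3P
    obtain ⟨t, ht, htP, hreach⟩ := hS.exit hpath (fun x _ => by simp) hhead hlast h.a4.1
    have htT : t ∉ T := fun h' => hA' t h' ht
    have hta : t ≠ a j3 := fun h' => h3P (h' ▸ htP)
    have hall : ∀ i ∈ L, t ∈ tp j3 i := by
      intro i hi
      obtain ⟨t', ht', htP', hreach'⟩ := hS.exit (tp_col hC h.L3 hi) (fun x _ => by simp)
        (hth i hi) (htl i hi) (hLP i hi)
      rcases hS.sep t htP t' htP' (hreach.symm.trans hreach') with h1 | ⟨h1, -⟩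
      · subst h1
        rcases List.mem_append.1 ht' with h2 | h2
        · exact h2
        · rw [List.mem_singleton] at h2
          exact absurd (hC.aC i) (h2 ▸ hav t ht i hi)
      · exact absurd h1 htT
    have hcent := hC.cent j3 t hta
    have hsub : L ⊆ univ.filter (fun j => j ≠ j3 ∧ t ∈ tp j3 j) := by
      intro i hi
      rw [Finset.mem_filter]
      exact ⟨Finset.mem_univ _, (hne i hi).symm, hall i hi⟩
    have := Finset.card_le_card hsub
    omega
  -- (2)
  have h3s : s (a j3) = 1 := by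
    have h1 := (hS.even_path hpath (fun x _ => by simp) hhead hlast h3P h.a4.1
      (fun t ht _ _ htl _ => absurd htl (hA' t ht))).2
    rw [h.a4.2, add_zero] at h1
    exact h1.symm
  -- (3)
  have h4 : ∀ i ∈ L, a i ∉ T → ∃ t ∈ T, ∃ t' ∈ T, t ≠ t' ∧ t ∈ tp j3 i ∧ t' ∈ tp j3 i := by
    intro i hi haT
    by_contra hcon
    have h5 := (hS.even_path (tp_col hC h.L3 hi) (fun x _ => by simp) (hth i hi) (htl i hi)
      h3P (hLP i hi) (by
        intro t ht t' ht' htl' htl''
        by_contra hne'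
        apply hcon
        have key : ∀ t ∈ T, t ∈ tp j3 i ++ [a i] → t ∈ tp j3 i := by
          intro t ht htt
          rcases List.mem_append.1 htt with h2 | h2
          · exact h2
          · rw [List.mem_singleton] at h2
            exact absurd ht (h2 ▸ haT)
        exact ⟨t, ht, t', ht', hne', key t ht htl', key t' ht' htl''⟩)).2
    rw [h3s, hLs i hi, add_zero] at h5
    exact zero_ne_one h5
  -- (4)
  by_cases hB : ∃ u ∈ T, u ∈ cl j3 ∧ u ≠ t3 ∧ u ≠ t3'
  · obtain ⟨u, hu, huc, hu1, hu2⟩ := hB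
    obtain ⟨h5, h6⟩ := pg_three hS.T3 ht3 ht3' hu hne3 hu1.symm hu2.symm
    refine ⟨h5, fun w hw => ?_⟩
    rcases h6 w hw with rfl | rfl | rfl
    · exact Or.inr (Or.inr hl3)
    · exact Or.inr (Or.inr hl3')
    · exact Or.inr (Or.inr huc)
  exfalso
  have hB' : ∀ u ∈ T, u ∈ cl j3 → u = t3 ∨ u = t3' := by
    intro u hu huc
    by_contra hcon
    push Not at hcon
    exact hB ⟨u, hu, huc, hcon.1, hcon.2⟩
  have h5 : ∀ i ∈ L, a i ∉ T → t3 ∈ tp j3 i := by
    intro i hi haT
    obtain ⟨t, ht, t', ht', hne', h6, h7⟩ := h4 i hi haT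
    rcases hB' t ht (hC.tpC j3 i (hne i hi) t h6) with rfl | h8
    · exact h6
    · rcases hB' t' ht' (hC.tpC j3 i (hne i hi) t' h7) with rfl | h9
      · exact h7
      · exact absurd (h8.trans h9.symm) hne'
  have hcent := hC.cent j3 t3 (fun h' => ha3T (h' ▸ ht3))
  have hsub : L.filter (fun i => a i ∉ T) ⊆ univ.filter (fun j => j ≠ j3 ∧ t3 ∈ tp j3 j) := by
    intro i hi
    rw [Finset.mem_filter] at hi ⊢
    exact ⟨Finset.mem_univ _, (hne i hi.1).symm, h5 i hi.1 hi.2⟩
  have h6 := Finset.card_le_card hsub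
  have h7 : (L.filter (fun i => a i ∈ T)).card ≤ T.card := by
    apply Finset.card_le_card_of_injOn a
    · intro i hi
      have := Finset.mem_coe.1 hi
      exact Finset.mem_coe.2 (Finset.mem_filter.1 this).2
    · intro x _ y _ hxy
      exact hinj hxy
  have h8 : (L.filter (fun i => a i ∈ T)).card + (L.filter (fun i => a i ∉ T)).card = L.card :=
    Finset.card_filter_add_card_filter_not _
  have h9 := hS.T3
  omega

end Pool.Agent.HC
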