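import Pool.Agent.HC.PGb

/-!
# HC-PGh: the components attached to one collapsed cluster

`Att ... l` is the set of the vertices outside `P` which can be reached from the root `a l` in
`H = (G.collapse (col cl a L)).HG ∅ P s`. Its elements are in no collapsed cluster, all their
neighbours in `G` are in the same set or in `cl l`, and the set avoids the clusters which are not
collapsed.
-/

namespace Pool.Agent.HC

open Finset

variable {U : Type} [Fintype U] [DecidableEq U] {n : ℕ} {G : SG U} {cl : Fin n → Finset U}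
  {a : Fin n → U} {v : Fin n → Fin n → U} {tp : Fin n → Fin n → List U} {L : Finset (Fin n)}
  {P T : Finset U} {s : U → F2}

/-- the vertices outside `P` which hang at the collapsed cluster `l` -/
def Att (G : SG U) (cl : Fin n → Finset U) (a : Fin n → U) (L : Finset (Fin n)) (P : Finset U)
    (s : U → F2) (l : Fin n) (u : U) : Prop :=
  u ∉ P ∧ ((G.collapse (col cl a L)).HG ∅ P s).Reachable u (a l)

omit [Fintype U] [DecidableEq U] in
private theorem pgh_adj {G' : SG U} {u w : U} (h : (G'.HG ∅ P s).Adj u w) :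
    ∃ p, G'.adj p u w := by
  obtain ⟨-, -, -, h4⟩ := h
  rcases h4 with ⟨-, p, hp⟩ | ⟨-, -, h6⟩
  · exact ⟨p, hp⟩
  · exact ⟨_, h6⟩

omit [Fintype U] [DecidableEq U] in
private theorem pgh_adj_of {G' : SG U} {u w : U} (hu : u ∉ P) {p : F2} (h : G'.adj p u w) :
    (G'.HG ∅ P s).Adj u w := by
  refine ⟨?_, notMem_empty _, notMem_empty _, Or.inl ⟨Or.inl hu, p, h⟩⟩
  rintro rfl
  exact G'.irrefl _ _ h

omit [Fintype U] in
private theorem pgh_root (hS : Struc (G.collapse (col cl a L)) (L.image a) ∅ P T s) {l : Fin n}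
    (hl : l ∈ L) : a l ∈ P := by
  apply hS.hA
  rw [sdiff_empty]
  exact mem_image_of_mem a hl

omit [Fintype U] in
/-- a vertex of `P` which can be reached from `a l` is `a l` -/
private theorem pgh_sep (hC : Clus G cl a v tp)
    (hS : Struc (G.collapse (col cl a L)) (L.image a) ∅ P T s)
    (hT : ∀ t ∈ T, ∀ i ∈ L, t ∉ cl i) {l : Fin n} (hl : l ∈ L) {w : U} (hw : w ∈ P)
    (hr : ((G.collapse (col cl a L)).HG ∅ P s).Reachable w (a l)) : w = a l := by
  rcases hS.sep w hw (a l) (pgh_root hS hl) hr with h | ⟨-, h⟩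
  · exact h
  · exact absurd (hC.aC l) (hT _ h l hl)

theorem att_true (hC : Clus G cl a v tp)
    (hS : Struc (G.collapse (col cl a L)) (L.image a) ∅ P T s) {l : Fin n} (hl : l ∈ L) {u : U}
    (hu : Att G cl a L P s l u) : ∀ i ∈ L, u ∉ cl i := by
  intro i hi hui
  obtain ⟨huP, ⟨W⟩⟩ := hu
  have hua : u ≠ a i := fun h => huP (h ▸ pgh_root hS hi)
  cases W with
  | nil => exact huP (pgh_root hS hl)
  | cons h _ =>
    obtain ⟨p, hp⟩ := pgh_adj h
    exact collapse_dummy hC hi hui hua p hp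

theorem att_adj (hC : Clus G cl a v tp)
    (hS : Struc (G.collapse (col cl a L)) (L.image a) ∅ P T s)
    (hT : ∀ t ∈ T, ∀ i ∈ L, t ∉ cl i) {l : Fin n} (hl : l ∈ L) {u w : U}
    (hu : Att G cl a L P s l u) {q : F2} (h : G.adj q u w) :
    Att G cl a L P s l w ∨ w ∈ cl l := by
  have hut := att_true hC hS hl hu
  by_cases hw : ∃ i ∈ L, w ∈ cl i
  · obtain ⟨i, hi, hwi⟩ := hw
    right
    have h1 := collapse_adj_of hC hut hi hwi h
    have h2 : ((G.collapse (col cl a L)).HG ∅ P s).Adj u (a i) := pgh_adj_of hu.1 h1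
    have h3 := pgh_sep hC hS hT hl (pgh_root hS hi) (h2.symm.reachable.trans hu.2)
    by_cases hil : i = l
    · exact hil ▸ hwi
    · exfalso
      have h4 := hC.aC i
      rw [h3] at h4
      exact disjoint_left.1 (hC.disj i l hil) h4 (hC.aC l)
  · push Not at hw
    left
    have h1 := (collapse_adj_true hC hut hw q).2 h
    have h2 : ((G.collapse (col cl a L)).HG ∅ P s).Adj u w := pgh_adj_of hu.1 h1
    have h3 := h2.symm.reachable.trans hu.2
    refine ⟨fun hwP => ?_, h3⟩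
    have h4 := pgh_sep hC hS hT hl hwP h3
    exact hw l hl (h4 ▸ hC.aC l)

private theorem pgh_walk (hC : Clus G cl a v tp)
    (hS : Struc (G.collapse (col cl a L)) (L.image a) ∅ P T s)
    (hT : ∀ t ∈ T, ∀ i ∈ L, t ∉ cl i) {l : Fin n} (hl : l ∈ L) (C : Set U)
    (hC' : ∀ x ∈ C, Att G cl a L P s l x → ∀ q y, G.adj q x y → y ∈ C) {u b : U}
    (W : ((G.collapse (col cl a L)).HG ∅ P s).Walk u b) :
    b = a l → u ∈ C → u ∉ P → ∃ y ∈ cl l, y ∈ C := by
  induction W with
  | nil =>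
    intro hb _ huP
    exact absurd (hb ▸ pgh_root hS hl) huP
  | @cons u w b h W ih =>
    intro hb huC huP
    have hu : Att G cl a L P s l u := ⟨huP, hb ▸ (h.reachable.trans W.reachable)⟩
    have hut := att_true hC hS hl hu
    obtain ⟨p, hp⟩ := pgh_adj h
    by_cases hw : w = a l
    · rw [hw] at hp
      obtain ⟨y, hy, hyu⟩ := collapse_adj_root hC hut hl hp
      exact ⟨y, hy, hC' u huC hu p y hyu⟩
    · have hwP : w ∉ P := fun hwP => hw (pgh_sep hC hS hT hl hwP (hb ▸ W.reachable))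
      have hwA : Att G cl a L P s l w := ⟨hwP, hb ▸ W.reachable⟩
      have hwt := att_true hC hS hl hwA
      exact ih hb (hC' u huC hu p w ((collapse_adj_true hC hut hwt p).1 hp)) hwP

theorem att_path (hC : Clus G cl a v tp)
    (hS : Struc (G.collapse (col cl a L)) (L.image a) ∅ P T s)
    (hT : ∀ t ∈ T, ∀ i ∈ L, t ∉ cl i) {l : Fin n} (hl : l ∈ L) (C : Set U)
    (hC' : ∀ x ∈ C, Att G cl a L P s l x → ∀ q y, G.adj q x y → y ∈ C) {u : U} (huC : u ∈ C)
    (hu : Att G cl a L P s l u) : ∃ y ∈ cl l, y ∈ C := by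
  obtain ⟨huP, ⟨W⟩⟩ := hu
  exact pgh_walk hC hS hT hl C hC' W rfl huC huP

theorem avoid (hC : Clus G cl a v tp)
    (hS : Struc (G.collapse (col cl a L)) (L.image a) ∅ P T s)
    (hT : ∀ t ∈ T, ∀ i ∈ L, t ∉ cl i) (hL : 2 ≤ L.card) {l : Fin n} (hl : l ∈ L) {j : Fin n}
    (hj : j ∉ L) {x : U} (hx : x ∈ cl j) : ¬ Att G cl a L P s l x := by
  intro hxA
  have hjl : j ≠ l := fun h => hj (h ▸ hl)
  have hdis : ∀ y ∈ cl j, y ∉ cl l := fun y h1 h2 => disjoint_left.1 (hC.disj j l hjl) h1 h2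
  -- the root of `cl j`
  have haj : Att G cl a L P s l (a j) := by
    by_contra hcon
    obtain ⟨m, hm1, hm2, hm3, hm4⟩ := hC.conn j x hx
    obtain ⟨l1, l2, y, z, hl12, -, hy, hz⟩ := hm1.exit {y | ¬ Att G cl a L P s l y} hm3 hm4 hcon
      (fun h => h hxA)
    have hz' : Att G cl a L P s l z := not_not.1 hz
    rw [hl12] at hm1
    obtain ⟨q, hq⟩ := hm1.adj_of_infix
    rcases att_adj hC hS hT hl hz' (G.symm _ _ _ hq) with h1 | h1
    · exact hy h1
    · exact hdis y (hm2 y (by rw [hl12]; simp)) h1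
  have hall : ∀ y ∈ cl j, Att G cl a L P s l y := by
    intro y hy
    by_contra hcon
    obtain ⟨m, hm1, hm2, hm3, hm4⟩ := hC.conn j y hy
    obtain ⟨l1, l2, w, z, hl12, -, hw, hz⟩ := hm1.exit {y | Att G cl a L P s l y} hm3 hm4 haj
      hcon
    rw [hl12] at hm1
    obtain ⟨q, hq⟩ := hm1.adj_of_infix
    rcases att_adj hC hS hT hl hw hq with h1 | h1
    · exact hz h1
    · exact hdis z (hm2 z (by rw [hl12]; simp)) h1
  obtain ⟨i, hi, hil⟩ : ∃ i ∈ L, i ≠ l := by
    by_contra hcon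
    push Not at hcon
    have h1 : L ⊆ {l} := fun i hi => mem_singleton.2 (hcon i hi)
    have h2 := card_le_card h1
    rw [card_singleton] at h2
    omega
  have hji : j ≠ i := fun h => hj (h ▸ hi)
  rcases att_adj hC hS hT hl (hall _ (hC.vC j i hji)) (hC.link j i hji) with h1 | h1
  · exact att_true hC hS hl h1 i hi (hC.vC i j hji.symm)
  · exact disjoint_left.1 (hC.disj i l hil) (hC.vC i j hji.symm) h1

theorem avoid_path (hC : Clus G cl a v tp)
    (hS : Struc (G.collapse (col cl a L)) (L.image a) ∅ P T s)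
    (hT : ∀ t ∈ T, ∀ i ∈ L, t ∉ cl i) {l : Fin n} (hl : l ∈ L) {m : List U} {p : F2}
    (h : G.Path m p) (hm : ∀ x ∈ m, x ∉ cl l) {x0 : U} (h0 : m.head? = some x0)
    (hx0 : ¬ Att G cl a L P s l x0) : ∀ x ∈ m, ¬ Att G cl a L P s l x := by
  intro x hx hxA
  obtain ⟨l1, l2, z, hl12, hz, hl1⟩ := h.first {y | Att G cl a L P s l y} ⟨x, hx, hxA⟩
  rcases List.eq_nil_or_concat l1 with h1 | ⟨l1', y, h1⟩
  · rw [hl12, h1] at h0
    simp only [List.nil_append, List.head?_cons, Option.some.injEq] at h0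
    exact hx0 (h0 ▸ hz)
  · have h2 : m = l1' ++ y :: z :: l2 := by
      rw [hl12, h1]
      simp
    rw [h2] at h
    obtain ⟨q, hq⟩ := h.adj_of_infix
    rcases att_adj hC hS hT hl hz (G.symm _ _ _ hq) with h3 | h3
    · exact hl1 y (by rw [h1]; simp) h3
    · exact hm y (by rw [h2]; simp) h3

end Pool.Agent.HC
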