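import Pool.Agent.HC.PGe
import Pool.Agent.HC.PGf
import Pool.Agent.HC.PGg
import Pool.Agent.HC.PGh

/-!
# HC-PGi: a cluster with its attached components is balanced (4.6)

Let `l ∈ L`, `L' := L.erase l` (`n ≤ L'.card + 5`), `Z', P', T', s'` from `hst L'`. `exists_nrm` for `L'`
(`i1, .., i4 ∉ L'`) gives `Nrm` with indices `j1, .., j4` (the same set as `i1, .., i4`);
`Nrm.Z_empty`: `Z' = ∅`; `Nrm.T_three`: every `t ∈ T'` is on one of the two paths of `Nrm` or in `cl j3`.
Write `E := {u | u ∈ cl l ∨ Att G cl a L P s l u}` (`Att` with respect to `L`).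
(1) `T' ∩ E = ∅` and `T'` contains no `a i`, `i ∈ L`: the paths and `cl j3` avoid all `cl i`, `i ∈ L` (`av1`,
`av2`, `j's ∉ L`), and they avoid `Att`: `avoid` for `cl j` (`2 ≤ L.card`) and `avoid_path` for the
paths, which start in `a j1 ∈ cl j1`, `a j3 ∈ cl j3`.
(2) the vertices of `E` are true for `L'` (`att_true`; the clusters are disjoint).
(3) CLAIM: `E ⊆ P'`. Let `G2 = G.collapse (col cl a L')`, `H2 = G2.HG ∅ P' s'`, `u ∈ E`, `u ∉ P'`. Let `C` be the
set of vertices `H2`-reachable from `u`, `R = C ∩ P'`. First, `R` meets `E`: otherwise `C ∩ E` is disjoint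
from `P'` and every `G`-edge from `x ∈ C ∩ E` to `y ∈ E` is an edge of `H2` (`collapse_adj_true`,
`x ∉ P'`), so `y ∈ C`; by `att_adj` all `G`-edges at `Att`-vertices stay in `E`; `att_path` (for the set
`C ∩ E`, if `u` is an `Att`-vertex) shows that `C` meets `cl l`, and then `cl l ⊆ C` (`conn` from
`a l`: first from the vertex found backwards to `a l`, then forwards). For every `i ∈ L'` the link
`G.adj 0 (v l i) (v i l)` gives `G2.adj 0 (v l i) (a i)` (`collapse_adj_of`), `v l i ∈ C`, `v l i ∉ P'`, so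
`a i ∈ C ∩ P' = R`. Two different such `i` give `a i ∈ T'` by `sep`, against (1).
So there is `t ∈ R ∩ E`; every other element of `R` would put `t` into `T'` (`sep`), against (1):
`R = {t}`. Put `I := {x ∈ C | x ∉ P'}` (a finset, classical filter). `u ∈ I`, `t ∉ I`. The elements of `I` are
true for `L'`: `a i ∈ P'` for `i ∈ L'`, and the other vertices of `cl i` have no edges in `G2`
(`collapse_dummy`), they are not reachable from `u ∈ E` (true, so different). So `Far cl I` (all
`i ∈ L'`). `G.adj q x w`, `x ∈ I`: if `w ∈ cl i`, `i ∈ L'`: `H2.Adj x (a i)`, so `a i ∈ R`, `a i = t ∈ E`,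
impossible (`cl i` is disjoint from `cl l`, and `Att`-vertices are true for `L`). So `w` is true for `L'`,
`H2.Adj x w`, `w ∈ I` or `w ∈ R`. `hcut.one I t` gives `False`.
(4) For `u, w ∈ E` with `G.adj q u w`: `G2.adj q u w`; both are in `P'`; if `q ≠ s' u + s' w` then
`q = 1 + s' u + s' w` and `H2.Adj u w`, so by `sep` `u = w` (`G` has no loops) or `u ∈ T'`, against (1).
(5) `p := fun u => s' u + s' (a l)`; then `q = p u + p w` as well. On `cl l`: by `conn` there is a path of
parity 0 in `cl l` from `a l` to `u`, all edges between its consecutive vertices satisfy (4), so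
`SG.Path.even_of` gives `0 = s' (a l) + s' u`, `p u = 0`.
-/

namespace Pool.Agent.HC

open Finset

variable {U : Type} [Fintype U] [DecidableEq U] {n : ℕ} {G : SG U} {cl : Fin n → Finset U}
  {a : Fin n → U} {v : Fin n → Fin n → U} {tp : Fin n → Fin n → List U} {L : Finset (Fin n)}
  {P T : Finset U} {s : U → F2}

/-- clusters with a common vertex coincide -/
private theorem cl_eq (hC : Clus G cl a v tp) {i j : Fin n} {x : U} (hi : x ∈ cl i)
    (hj : x ∈ cl j) : i = j := by
  by_contra hij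
  exact Finset.disjoint_left.mp (hC.disj i j hij) hi hj

/-- a set which is closed along edges inside a cluster and meets it contains it -/
private theorem cl_sub (hC : Clus G cl a v tp) {l : Fin n} (C : Set U)
    (hcl : ∀ x ∈ cl l, ∀ y ∈ cl l, ∀ q, G.adj q x y → x ∈ C → y ∈ C) {y1 : U} (hy : y1 ∈ cl l)
    (hyC : y1 ∈ C) : ∀ x ∈ cl l, x ∈ C := by
  have ha : a l ∈ C := by
    by_contra haC
    obtain ⟨m, hm, hmc, hh, hl⟩ := hC.conn l y1 hy
    obtain ⟨l1, l2, u, w, hlw, -, huI, hwI⟩ := hm.exit Cᶜ hh hl haC (by simpa using hyC)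
    rw [hlw] at hm hmc
    obtain ⟨q, hq⟩ := hm.adj_of_infix
    have hu : u ∈ cl l := hmc u (by simp)
    have hw : w ∈ cl l := hmc w (by simp)
    have hwC : w ∈ C := by simpa using hwI
    exact huI (hcl w hw u hu q (G.symm _ _ _ hq) hwC)
  intro x hx
  by_contra hxC
  obtain ⟨m, hm, hmc, hh, hl⟩ := hC.conn l x hx
  obtain ⟨l1, l2, u, w, hlw, -, huI, hwI⟩ := hm.exit C hh hl ha hxC
  rw [hlw] at hm hmc
  obtain ⟨q, hq⟩ := hm.adj_of_infix
  exact hwI (hcl u (hmc u (by simp)) w (hmc w (by simp)) q hq huI)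

/-- the elements of the exceptional set are away from the cluster `l` and its attached vertices -/
private theorem T_away (hC : Clus G cl a v tp) (hL : 2 ≤ L.card)
    (hS : Struc (G.collapse (col cl a L)) (L.image a) ∅ P T s)
    (hT : ∀ t ∈ T, ∀ i ∈ L, t ∉ cl i) {l : Fin n} (hl : l ∈ L) {j1 j2 j3 j4 : Fin n}
    {k m : List U} (hN : Lnk G cl a j1 j2 j3 j4 k m) (hj1 : j1 ∉ L) (hj2 : j2 ∉ L)
    (hj3 : j3 ∉ L) (hj4 : j4 ∉ L) {t : U}
    (ht : t ∈ a j1 :: (k ++ [a j2]) ∨ t ∈ a j3 :: (m ++ [a j4]) ∨ t ∈ cl j3) :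
    (∀ i ∈ L, t ∉ cl i) ∧ ¬ Att G cl a L P s l t := by
  have hne : ∀ i ∈ L, ¬ (i = j1 ∨ i = j2 ∨ i = j3 ∨ i = j4) := by
    rintro i hi (rfl | rfl | rfl | rfl)
    · exact hj1 hi
    · exact hj2 hi
    · exact hj3 hi
    · exact hj4 hi
  rcases ht with ht | ht | ht
  · refine ⟨fun i hi hti => hne i hi (hN.av1 t ht i hti), ?_⟩
    exact avoid_path hC hS hT hl hN.p1 (fun x hx hxl => hne l hl (hN.av1 x hx l hxl)) rfl
      (avoid hC hS hT hL hl hj1 (hC.aC j1)) t ht
  · refine ⟨fun i hi hti => hne i hi (hN.av2 t ht i hti), ?_⟩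
    exact avoid_path hC hS hT hl hN.p2 (fun x hx hxl => hne l hl (hN.av2 x hx l hxl)) rfl
      (avoid hC hS hT hL hl hj3 (hC.aC j3)) t ht
  · refine ⟨fun i hi hti => hj3 (cl_eq hC ht hti ▸ hi), ?_⟩
    exact avoid hC hS hT hL hl hj3 ht

/-- (3): the cluster `l` and its attached vertices consist of split vertices of the second
structure -/
private theorem E_sub (hC : Clus G cl a v tp) (hcut : Cuts G cl)
    (hS : Struc (G.collapse (col cl a L)) (L.image a) ∅ P T s)
    (hT : ∀ t ∈ T, ∀ i ∈ L, t ∉ cl i) {l : Fin n} (hl : l ∈ L) (hL : 5 ≤ (L.erase l).card)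
    {P' T' : Finset U} {s' : U → F2}
    (hS' : Struc (G.collapse (col cl a (L.erase l))) ((L.erase l).image a) ∅ P' T' s')
    (h1 : ∀ t ∈ T', ∀ i ∈ L, t ∉ cl i) (h2 : ∀ t ∈ T', ¬ Att G cl a L P s l t) {u : U}
    (hu : u ∈ cl l ∨ Att G cl a L P s l u) : u ∈ P' := by
  classical
  by_contra huP
  have haP : ∀ i ∈ L.erase l, a i ∈ P' := by
    intro i hi
    apply hS'.hA
    rw [Finset.sdiff_empty]
    exact Finset.mem_image_of_mem a hi
  have haT : ∀ i ∈ L.erase l, a i ∉ T' := fun i hi ht =>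
    h1 _ ht i (Finset.mem_of_mem_erase hi) (hC.aC i)
  have hEtrue : ∀ x, (x ∈ cl l ∨ Att G cl a L P s l x) → ∀ i ∈ L.erase l, x ∉ cl i := by
    rintro x (hx | hx) i hi hxi
    · exact (Finset.ne_of_mem_erase hi) (cl_eq hC hxi hx)
    · exact att_true hC hS hl hx i (Finset.mem_of_mem_erase hi) hxi
  have hET : ∀ x, (x ∈ cl l ∨ Att G cl a L P s l x) → x ∉ T' := by
    rintro x (hx | hx) hxT
    · exact h1 x hxT l hl hx
    · exact h2 x hxT hx
  -- (A)
  have hA : ∀ x, ((G.collapse (col cl a (L.erase l))).HG ∅ P' s').Reachable u x → x ∉ P' →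
      ∀ i ∈ L.erase l, x ∉ cl i := by
    intro x hx hxP i hi hxi
    by_cases hxa : x = a i
    · rw [hxa] at hxP
      exact hxP (haP i hi)
    · have hxu : x ≠ u := by
        rintro rfl
        exact hEtrue x hu i hi hxi
      obtain ⟨w⟩ := hx.symm
      cases w with
      | nil => exact hxu rfl
      | cons hadj _ =>
        obtain ⟨-, -, -, h4⟩ := hadj
        rcases h4 with ⟨-, p, hp⟩ | ⟨-, -, hp⟩
        · exact collapse_dummy hC hi hxi hxa _ hp
        · exact collapse_dummy hC hi hxi hxa _ hp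
  -- (B)
  have hB1 : ∀ x, ((G.collapse (col cl a (L.erase l))).HG ∅ P' s').Reachable u x → x ∉ P' →
      ∀ q w, G.adj q x w → ∀ i ∈ L.erase l, w ∈ cl i →
      ((G.collapse (col cl a (L.erase l))).HG ∅ P' s').Reachable u (a i) := by
    intro x hx hxP q w hq i hi hw
    refine hx.trans (SimpleGraph.Adj.reachable ?_)
    refine ⟨?_, Finset.notMem_empty _, Finset.notMem_empty _, Or.inl ⟨Or.inl hxP, q, ?_⟩⟩
    · rintro rfl
      exact hxP (haP i hi)
    · exact collapse_adj_of hC (hA x hx hxP) hi hw hq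
  have hB2 : ∀ x, ((G.collapse (col cl a (L.erase l))).HG ∅ P' s').Reachable u x → x ∉ P' →
      ∀ q w, G.adj q x w → (∀ i ∈ L.erase l, w ∉ cl i) →
      ((G.collapse (col cl a (L.erase l))).HG ∅ P' s').Reachable u w := by
    intro x hx hxP q w hq hw
    refine hx.trans (SimpleGraph.Adj.reachable ?_)
    refine ⟨?_, Finset.notMem_empty _, Finset.notMem_empty _, Or.inl ⟨Or.inl hxP, q, ?_⟩⟩
    · rintro rfl
      exact G.irrefl _ _ hq
    · exact (collapse_adj_true hC (hA x hx hxP) hw q).2 hq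
  -- (C)
  have hCt : ∃ t, ((G.collapse (col cl a (L.erase l))).HG ∅ P' s').Reachable u t ∧ t ∈ P' ∧
      (t ∈ cl l ∨ Att G cl a L P s l t) := by
    by_contra hcon
    push_neg at hcon
    have hnP : ∀ x, ((G.collapse (col cl a (L.erase l))).HG ∅ P' s').Reachable u x →
        (x ∈ cl l ∨ Att G cl a L P s l x) → x ∉ P' := by
      intro x hx hxE hxP
      obtain ⟨h3, h4⟩ := hcon x hx hxP
      rcases hxE with h5 | h5
      · exact h3 h5
      · exact h4 h5
    have hstep : ∀ x, ((G.collapse (col cl a (L.erase l))).HG ∅ P' s').Reachable u x →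
        (x ∈ cl l ∨ Att G cl a L P s l x) → ∀ q y, G.adj q x y →
        (y ∈ cl l ∨ Att G cl a L P s l y) →
        ((G.collapse (col cl a (L.erase l))).HG ∅ P' s').Reachable u y := by
      intro x hx hxE q y hq hyE
      exact hB2 x hx (hnP x hx hxE) q y hq (hEtrue y hyE)
    have hmeet : ∃ y ∈ cl l, ((G.collapse (col cl a (L.erase l))).HG ∅ P' s').Reachable u y := by
      rcases hu with hu | hu
      · exact ⟨u, hu, SimpleGraph.Reachable.refl u⟩
      · refine att_path hC hS hT hl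
          {y | ((G.collapse (col cl a (L.erase l))).HG ∅ P' s').Reachable u y} ?_
          (SimpleGraph.Reachable.refl u) hu
        intro x hx hxA q y hq
        refine hstep x hx (Or.inr hxA) q y hq ?_
        exact (att_adj hC hS hT hl hxA hq).symm
    obtain ⟨y1, hy1, hy1C⟩ := hmeet
    have hall : ∀ x ∈ cl l,
        ((G.collapse (col cl a (L.erase l))).HG ∅ P' s').Reachable u x := by
      refine cl_sub hC {y | ((G.collapse (col cl a (L.erase l))).HG ∅ P' s').Reachable u y} ?_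
        hy1 hy1C
      intro x hx y hy q hq hxC
      exact hstep x hxC (Or.inl hx) q y hq (Or.inl hy)
    have hai : ∀ i ∈ L.erase l,
        ((G.collapse (col cl a (L.erase l))).HG ∅ P' s').Reachable u (a i) := by
      intro i hi
      have hil : i ≠ l := Finset.ne_of_mem_erase hi
      have hv : v l i ∈ cl l := hC.vC l i hil.symm
      exact hB1 (v l i) (hall _ hv) (hnP _ (hall _ hv) (Or.inl hv)) 0 (v i l)
        (hC.link l i hil.symm) i hi (hC.vC i l hil)
    obtain ⟨i, hi, i', hi', hii⟩ := Finset.one_lt_card.mp (show 1 < (L.erase l).card by omega)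
    rcases hS'.sep (a i) (haP i hi) (a i') (haP i' hi')
      ((hai i hi).symm.trans (hai i' hi')) with h3 | ⟨h3, -⟩
    · apply hii
      apply cl_eq hC (hC.aC i)
      rw [h3]
      exact hC.aC i'
    · exact haT i hi h3
  obtain ⟨t, htC, htP, htE⟩ := hCt
  -- (D)
  have huniq : ∀ r, ((G.collapse (col cl a (L.erase l))).HG ∅ P' s').Reachable u r → r ∈ P' →
      r = t := by
    intro r hr hrP
    rcases hS'.sep t htP r hrP (htC.symm.trans hr) with h3 | ⟨h3, -⟩
    · exact h3.symm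
    · exact absurd h3 (hET t htE)
  -- (E)
  refine hcut.one (univ.filter (fun x =>
    ((G.collapse (col cl a (L.erase l))).HG ∅ P' s').Reachable u x ∧ x ∉ P')) t ?_ ?_ ?_ ?_
  · exact ⟨u, by simp [huP]⟩
  · simp [htP]
  · refine le_trans hL (Finset.card_le_card ?_)
    intro i hi
    simp only [Finset.mem_filter, Finset.mem_univ, true_and]
    rw [Finset.disjoint_left]
    intro x hx hx'
    simp only [Finset.mem_filter, Finset.mem_univ, true_and] at hx'
    exact hA x hx'.1 hx'.2 i hi hx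
  · intro x hx q w hq
    simp only [Finset.mem_filter, Finset.mem_univ, true_and] at hx ⊢
    by_cases hw : ∀ i ∈ L.erase l, w ∉ cl i
    · have hwC := hB2 x hx.1 hx.2 q w hq hw
      by_cases hwP : w ∈ P'
      · exact Or.inr (huniq w hwC hwP)
      · exact Or.inl ⟨hwC, hwP⟩
    · push_neg at hw
      obtain ⟨i, hi, hwi⟩ := hw
      exfalso
      have h3 := huniq (a i) (hB1 x hx.1 hx.2 q w hq i hi hwi) (haP i hi)
      exact hEtrue t htE i hi (h3 ▸ hC.aC i)

theorem balanced (hn : 28 ≤ n) (hC : Clus G cl a v tp) (hcut : Cuts G cl)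
    (hst : ∀ L : Finset (Fin n), n ≤ L.card + 5 →
      ∃ Z P T s, Struc (G.collapse (col cl a L)) (L.image a) Z P T s)
    {i1 i2 i3 i4 : Fin n} {k m : List U} (h : Lnk G cl a i1 i2 i3 i4 k m) (hL : n ≤ L.card + 4)
    (h1 : i1 ∉ L) (h2 : i2 ∉ L) (h3 : i3 ∉ L) (h4 : i4 ∉ L)
    (hS : Struc (G.collapse (col cl a L)) (L.image a) ∅ P T s)
    (hT : ∀ t ∈ T, ∀ i ∈ L, t ∉ cl i) {l : Fin n} (hl : l ∈ L) :
    ∃ p : U → F2, (∀ u ∈ cl l, p u = 0) ∧ ∀ q u w, G.adj q u w →
      (u ∈ cl l ∨ Att G cl a L P s l u) → (w ∈ cl l ∨ Att G cl a L P s l w) →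
      q = p u + p w := by
  have hcard : (L.erase l).card + 1 = L.card := Finset.card_erase_add_one hl
  have hL' : n ≤ (L.erase l).card + 5 := by omega
  have hne : ∀ i, i ∉ L → i ∉ L.erase l := fun i hi hi' => hi (Finset.mem_of_mem_erase hi')
  obtain ⟨Z', P', T', s', hS'⟩ := hst (L.erase l) hL'
  obtain ⟨j1, j2, j3, j4, k', m', hN, hj⟩ := exists_nrm hn hC hL' hS' h (hne _ h1) (hne _ h2)
    (hne _ h3) (hne _ h4)
  have hZ : Z' = ∅ := hN.Z_empty hn hC hcut hL' hS'
  subst hZ
  obtain ⟨-, hT'⟩ := hN.T_three hn hC hL' hS'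
  have hjL : ∀ j, (j = j1 ∨ j = j2 ∨ j = j3 ∨ j = j4) → j ∉ L := by
    intro j hjj
    rcases (hj j).1 hjj with rfl | rfl | rfl | rfl
    · exact h1
    · exact h2
    · exact h3
    · exact h4
  have haway : ∀ t ∈ T', (∀ i ∈ L, t ∉ cl i) ∧ ¬ Att G cl a L P s l t := fun t ht =>
    T_away hC (by omega) hS hT hl hN.lnk (hjL j1 (by simp)) (hjL j2 (by simp)) (hjL j3 (by simp))
      (hjL j4 (by simp)) (hT' t ht)
  have hEP : ∀ u, (u ∈ cl l ∨ Att G cl a L P s l u) → u ∈ P' := fun u hu =>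
    E_sub hC hcut hS hT hl (by omega) hS' (fun t ht => (haway t ht).1)
      (fun t ht => (haway t ht).2) hu
  have hEtrue : ∀ x, (x ∈ cl l ∨ Att G cl a L P s l x) → ∀ i ∈ L.erase l, x ∉ cl i := by
    rintro x (hx | hx) i hi hxi
    · exact (Finset.ne_of_mem_erase hi) (cl_eq hC hxi hx)
    · exact att_true hC hS hl hx i (Finset.mem_of_mem_erase hi) hxi
  have hET : ∀ x, (x ∈ cl l ∨ Att G cl a L P s l x) → x ∉ T' := by
    rintro x (hx | hx) hxT
    · exact (haway x hxT).1 l hl hx
    · exact (haway x hxT).2 hx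
  -- (4)
  have hedge : ∀ q u w, G.adj q u w → (u ∈ cl l ∨ Att G cl a L P s l u) →
      (w ∈ cl l ∨ Att G cl a L P s l w) → q = s' u + s' w := by
    intro q u w hq hu hw
    by_contra hne'
    have hq1 : q = 1 + s' u + s' w := by
      have : ∀ x y z : F2, x ≠ y + z → x = 1 + y + z := by decide
      exact this _ _ _ hne'
    have huw : u ≠ w := by
      rintro rfl
      exact G.irrefl _ _ hq
    have hadj : ((G.collapse (col cl a (L.erase l))).HG ∅ P' s').Adj u w := by
      refine ⟨huw, Finset.notMem_empty _, Finset.notMem_empty _,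
        Or.inr ⟨hEP u hu, hEP w hw, ?_⟩⟩
      rw [← hq1]
      exact (collapse_adj_true hC (hEtrue u hu) (hEtrue w hw) q).2 hq
    rcases hS'.sep u (hEP u hu) w (hEP w hw) hadj.reachable with h5 | ⟨h5, -⟩
    · exact huw h5
    · exact hET u hu h5
  -- (5)
  refine ⟨fun u => s' u + s' (a l), ?_, ?_⟩
  · intro u hu
    obtain ⟨c, hc, hcc, hh, hlast⟩ := hC.conn l u hu
    have h5 := hc.even_of s' (by
      intro l1 l2 x y hxy q hq
      have hx : x ∈ cl l := hcc x (by rw [hxy]; simp)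
      have hy : y ∈ cl l := hcc y (by rw [hxy]; simp)
      exact hedge q x y hq (Or.inl hx) (Or.inl hy)) hh hlast
    exact (add_comm _ _).trans h5.symm
  · intro q u w hq hu hw
    have h5 := hedge q u w hq hu hw
    have : ∀ x y z : F2, x + y = x + z + (y + z) := by decide
    rw [h5]
    exact this _ _ _

end Pool.Agent.HC
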