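import Pool.Agent.HC.PGi

/-!
# HC-PGj: the switching which makes everything even except two edges (4.7, first part)

`G' = G.collapse (col cl a L)`, `H = G'.HG ∅ P s`. Choose for every `l ∈ L` a function `p_l` as in `hbal`. Define
`s2 u :=` 0 if `u ∈ cl l` for some `l ∈ L`; `p_l u` if `Att G cl a L P s l u` for some `l ∈ L` (unique: a vertex
reachable from `a l` and `a l'` gives `a l = a l'` by `sep`, or `a l ∈ T` against `hT`); `s u` otherwise.
`I := {u | u ∉ P, ∃ t ∈ T, H.Reachable u t}` (finset, classical filter). The vertices of `I` and `T` are true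
(`hT`; a vertex of `cl i`, `i ∈ L`, not in `P` is different from `a i` and isolated in `G'`).
(1) Every true `u ∉ P` is in `I` or `Att` for some `l ∈ L`: let `C` be the set of vertices reachable from
`u`. If `C ∩ P` has two different elements they are in `T` (`sep`), `u ∈ I`. Otherwise
`C ∩ P ⊆ {t}`; if `t = a l`, `l ∈ L`, then `Att`; if `t ∈ T` then `u ∈ I`; otherwise (`t` is true, or
`C ∩ P = ∅`, then let `t := a l` for any `l ∈ L`, not in `C`) `J := C \ P` gives a contradiction with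
`hcut.one J t`: the vertices of `J` are true (as before), so `Far cl J`; `G.adj q x w`, `x ∈ J`: `w ∈ cl i`,
`i ∈ L`, would give `a i ∈ C ∩ P` (`collapse_adj_of`), so `a i = t`, excluded; `w` true:
`H.Adj x w`, `w ∈ C`. (In the case `C ∩ P = ∅` the same.) Note `t ∈ cl i` for `i ∈ L` and
`t ∈ P`, reachable: then `t = a i` (other vertices of `cl i` are isolated, different from `u`).
(2) edges at `I` (`G.adj q u w`, `u ∈ I`) stay in `I ∪ T`: `w ∈ cl i`, `i ∈ L`: `H.Adj u (a i)`, `a i` is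
reachable from `t ∈ T`, `sep`: `a i = t` or `a i ∈ T`, against `hT`; `w` true: `H.Adj u w`, `w ∉ P`: `w ∈ I`;
`w ∈ P`: `w = t` or `w ∈ T` by `sep`.
(3) `G.adj q u w` with `q ≠ s2 u + s2 w` implies `u, w ∈ I ∪ T`. Cases: `u` is in `cl l` or `Att l`,
`l ∈ L`: if `u` is `Att l` then `w` is in `cl l` or `Att l` (`att_adj`), and `hbal` gives
`q = p_l u + p_l w = s2 u + s2 w` (`p_l = 0 = s2` on `cl l`). If `u ∈ cl l`: `w ∈ cl l`: `hbal`; `w` is `Att l'`:
then by the previous case (exchanging `u, w`) `u ∈ cl l'`, fine; otherwise `w ∈ cl l'`,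
`l' ≠ l`, or `w` is true and not `Att`; in the second case if `w ∉ P` then `w ∈ I` by (1), and by (2)
`u ∈ I ∪ T`, but `u` is not true, contradiction; so `w ∈ P`. In `G'`: edge `q` between `a l` and
`a l'` resp. `w` (`collapse_adj_roots`, `collapse_adj_of`), both in `P`; if
`q = 1 + s (a l) + s _` it is an edge of `H`, and `sep` puts `a l` into `T`, against `hT`; so
`q = s (a l) + s _ = 0 + s2 w` (`hS.s0`, `s2 w = s w`). By symmetry remains: `u, w` both true, not `Att`.
If `u ∉ P` or `w ∉ P`: it is in `I` by (1), and by (2) both are in `I ∪ T`. If both are in `P`: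
`G'.adj q u w`, `q = 1 + s u + s w` gives `H.Adj u w`, `sep`: `u, w ∈ T`.
(4) `s2 = s` on the true vertices which are not `Att`, in particular on `I ∪ T` (an `Att`-vertex is
not in `P`, and not in `I` by `sep`, `hT`) and on `P` ∩ true.
(5) reachability in `G.HG ∅ (univ \ I) s2`: for `t, t' ∈ T` there is an `H`-walk between them; all its
vertices are in `I ∪ T` (reachable from `T`: in `P` implies in `T` by `sep`; not in `P`: in `I`), and
an `H`-edge `x y` with `x, y ∈ I ∪ T` is an edge of `G.HG ∅ (univ \ I) s2`: if `x ∈ I` or `y ∈ I` (so not in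
`univ \ I`) some parity suffices (`collapse_adj_true`); if both are in `T ⊆ P`:
`G'.adj (1 + s x + s y) x y`, `s2 = s`.
-/

namespace Pool.Agent.HC

open Finset

variable {U : Type} [Fintype U] [DecidableEq U] {n : ℕ} {G : SG U} {cl : Fin n → Finset U}
  {a : Fin n → U} {v : Fin n → Fin n → U} {tp : Fin n → Fin n → List U} {L : Finset (Fin n)}
  {P T : Finset U} {s : U → F2}

omit [Fintype U] [DecidableEq U] in
private theorem pgj_adj {G' : SG U} {u w : U} (h : (G'.HG ∅ P s).Adj u w) :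
    ∃ p, G'.adj p u w := by
  obtain ⟨-, -, -, h4⟩ := h
  rcases h4 with ⟨-, p, hp⟩ | ⟨-, -, h6⟩
  · exact ⟨p, hp⟩
  · exact ⟨_, h6⟩

omit [Fintype U] [DecidableEq U] in
private theorem pgj_adj_of {G' : SG U} {u w : U} (hu : u ∉ P) {p : F2} (h : G'.adj p u w) :
    (G'.HG ∅ P s).Adj u w := by
  refine ⟨?_, notMem_empty _, notMem_empty _, Or.inl ⟨Or.inl hu, p, h⟩⟩
  rintro rfl
  exact G'.irrefl _ _ h

omit [Fintype U] [DecidableEq U] in
/-- an edge of the wrong parity between two split vertices -/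
private theorem pgj_adj_odd {G' : SG U} {u w : U} (hu : u ∈ P) (hw : w ∈ P) {q : F2}
    (h : G'.adj q u w) (hq : q ≠ s u + s w) : (G'.HG ∅ P s).Adj u w := by
  have h1 : q = 1 + s u + s w := by
    have : ∀ x y z : F2, x ≠ y + z → x = 1 + y + z := by decide
    exact this _ _ _ hq
  refine ⟨?_, notMem_empty _, notMem_empty _, Or.inr ⟨hu, hw, h1 ▸ h⟩⟩
  rintro rfl
  exact G'.irrefl _ _ h

omit [Fintype U] in
private theorem pgj_root (hS : Struc (G.collapse (col cl a L)) (L.image a) ∅ P T s) {l : Fin n}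
    (hl : l ∈ L) : a l ∈ P := by
  apply hS.hA
  rw [sdiff_empty]
  exact mem_image_of_mem a hl

/-- a vertex outside `P` with an edge or which is true is true -/
private theorem pgj_true (hC : Clus G cl a v tp)
    (hS : Struc (G.collapse (col cl a L)) (L.image a) ∅ P T s) {x y : U} (hx : x ∉ P)
    (hxy : x ≠ y) (hr : ((G.collapse (col cl a L)).HG ∅ P s).Reachable x y) :
    ∀ i ∈ L, x ∉ cl i := by
  intro i hi hxi
  have hxa : x ≠ a i := fun h => hx (h ▸ pgj_root hS hi)
  obtain ⟨W⟩ := hr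
  cases W with
  | nil => exact hxy rfl
  | cons h _ =>
    obtain ⟨p, hp⟩ := pgj_adj h
    exact collapse_dummy hC hi hxi hxa p hp

/-- neighbours in `H` of a true vertex outside `P` -/
private theorem pgj_step (hC : Clus G cl a v tp) {x w : U} (hx : x ∉ P)
    (hxt : ∀ i ∈ L, x ∉ cl i) {q : F2} (h : G.adj q x w) :
    (∃ i ∈ L, w ∈ cl i ∧ ((G.collapse (col cl a L)).HG ∅ P s).Adj x (a i)) ∨
      ((∀ i ∈ L, w ∉ cl i) ∧ ((G.collapse (col cl a L)).HG ∅ P s).Adj x w) := by
  by_cases hw : ∃ i ∈ L, w ∈ cl i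
  · obtain ⟨i, hi, hwi⟩ := hw
    exact Or.inl ⟨i, hi, hwi, pgj_adj_of hx (collapse_adj_of hC hxt hi hwi h)⟩
  · push Not at hw
    exact Or.inr ⟨hw, pgj_adj_of hx ((collapse_adj_true hC hxt hw q).2 h)⟩

omit [Fintype U] in
/-- the only cluster to which a vertex is attached -/
private theorem pgj_uniq (hC : Clus G cl a v tp)
    (hS : Struc (G.collapse (col cl a L)) (L.image a) ∅ P T s)
    (hT : ∀ t ∈ T, ∀ i ∈ L, t ∉ cl i) {l l' : Fin n} (hl : l ∈ L) (hl' : l' ∈ L) {u : U}
    (h : ((G.collapse (col cl a L)).HG ∅ P s).Reachable u (a l))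
    (h' : ((G.collapse (col cl a L)).HG ∅ P s).Reachable u (a l')) : l = l' := by
  by_contra hne
  rcases hS.sep (a l) (pgj_root hS hl) (a l') (pgj_root hS hl') (h.symm.trans h') with h1 | ⟨h1, -⟩
  · have h2 := hC.aC l
    rw [h1] at h2
    exact disjoint_left.1 (hC.disj l l' hne) h2 (hC.aC l')
  · exact hT _ h1 l hl (hC.aC l)

/-- the vertices outside `P` which can be reached from `T` -/
private def Ex (G : SG U) (cl : Fin n → Finset U) (a : Fin n → U) (L : Finset (Fin n))
    (P T : Finset U) (s : U → F2) (u : U) : Prop :=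
  u ∉ P ∧ ∃ t ∈ T, ((G.collapse (col cl a L)).HG ∅ P s).Reachable u t

private theorem ex_true (hC : Clus G cl a v tp)
    (hS : Struc (G.collapse (col cl a L)) (L.image a) ∅ P T s) {u : U}
    (hu : Ex G cl a L P T s u) : ∀ i ∈ L, u ∉ cl i := by
  obtain ⟨huP, t, ht, hr⟩ := hu
  refine pgj_true hC hS huP ?_ hr
  rintro rfl
  exact huP (hS.TP ht)

omit [Fintype U] in
/-- what is reachable from `T` -/
private theorem ex_of (hS : Struc (G.collapse (col cl a L)) (L.image a) ∅ P T s) {x t : U}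
    (ht : t ∈ T) (hr : ((G.collapse (col cl a L)).HG ∅ P s).Reachable x t) :
    Ex G cl a L P T s x ∨ x ∈ T := by
  by_cases hx : x ∈ P
  · rcases hS.sep x hx t (hS.TP ht) hr with h | ⟨h, -⟩
    · exact Or.inr (h ▸ ht)
    · exact Or.inr h
  · exact Or.inl ⟨hx, t, ht, hr⟩

/-- (2) -/
private theorem ex_adj (hC : Clus G cl a v tp)
    (hS : Struc (G.collapse (col cl a L)) (L.image a) ∅ P T s)
    (hT : ∀ t ∈ T, ∀ i ∈ L, t ∉ cl i) {u w : U} (hu : Ex G cl a L P T s u) {q : F2}
    (h : G.adj q u w) : Ex G cl a L P T s w ∨ w ∈ T := by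
  have hut := ex_true hC hS hu
  obtain ⟨huP, t, ht, hr⟩ := hu
  rcases pgj_step (s := s) hC huP hut h with ⟨i, hi, -, h1⟩ | ⟨-, h1⟩
  · exfalso
    rcases ex_of hS ht (h1.symm.reachable.trans hr) with h2 | h2
    · exact h2.1 (pgj_root hS hi)
    · exact hT _ h2 i hi (hC.aC i)
  · exact ex_of hS ht (h1.symm.reachable.trans hr)

/-- (1) -/
private theorem ex_or_att (hC : Clus G cl a v tp) (hcut : Cuts G cl) (hL : 6 ≤ L.card)
    (hS : Struc (G.collapse (col cl a L)) (L.image a) ∅ P T s) {u : U} (huP : u ∉ P)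
    (hut : ∀ i ∈ L, u ∉ cl i) :
    Ex G cl a L P T s u ∨ ∃ l ∈ L, Att G cl a L P s l u := by
  classical
  by_contra hcon
  rw [not_or] at hcon
  obtain ⟨hc1, hc2⟩ := hcon
  have hnT : ∀ x, ((G.collapse (col cl a L)).HG ∅ P s).Reachable u x → x ∉ T := fun x hx hxT =>
    hc1 ⟨huP, x, hxT, hx⟩
  have hna : ∀ l ∈ L, ¬ ((G.collapse (col cl a L)).HG ∅ P s).Reachable u (a l) :=
    fun l hl hr => hc2 ⟨l, hl, huP, hr⟩
  have hex : ∃ t ∈ P, ∀ x ∈ P, ((G.collapse (col cl a L)).HG ∅ P s).Reachable u x → x = t := by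
    by_cases h1 : ∃ t ∈ P, ((G.collapse (col cl a L)).HG ∅ P s).Reachable u t
    · obtain ⟨t, htP, ht⟩ := h1
      refine ⟨t, htP, fun x hxP hx => ?_⟩
      rcases hS.sep x hxP t htP (hx.symm.trans ht) with h2 | ⟨h2, -⟩
      · exact h2
      · exact absurd h2 (hnT x hx)
    · obtain ⟨l, hl⟩ : L.Nonempty := by
        rw [← card_pos]
        omega
      exact ⟨a l, pgj_root hS hl, fun x hxP hx => absurd ⟨x, hxP, hx⟩ h1⟩
  obtain ⟨t, htP, ht⟩ := hex
  have htrue : ∀ x, ((G.collapse (col cl a L)).HG ∅ P s).Reachable u x → x ∉ P →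
      ∀ i ∈ L, x ∉ cl i := by
    intro x hx hxP
    by_cases hxu : x = u
    · rw [hxu]
      exact hut
    · exact pgj_true hC hS hxP hxu hx.symm
  refine hcut.one (univ.filter (fun x =>
    ((G.collapse (col cl a L)).HG ∅ P s).Reachable u x ∧ x ∉ P)) t ?_ ?_ ?_ ?_
  · exact ⟨u, by simp [huP]⟩
  · simp [htP]
  · refine le_trans (show 5 ≤ L.card by omega) (card_le_card ?_)
    intro i hi
    simp only [mem_filter, mem_univ, true_and]
    rw [disjoint_left]
    intro x hx hx'
    simp only [mem_filter, mem_univ, true_and] at hx'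
    exact htrue x hx'.1 hx'.2 i hi hx
  · intro x hx q w hq
    simp only [mem_filter, mem_univ, true_and] at hx ⊢
    rcases pgj_step (s := s) hC hx.2 (htrue x hx.1 hx.2) hq with ⟨i, hi, -, h1⟩ | ⟨-, h1⟩
    · exact absurd (hx.1.trans h1.reachable) (hna i hi)
    · by_cases hwP : w ∈ P
      · exact Or.inr (ht w hwP (hx.1.trans h1.reachable))
      · exact Or.inl ⟨hx.1.trans h1.reachable, hwP⟩

/-- (3), an edge with an end in a collapsed cluster -/
private theorem odd_cl (hC : Clus G cl a v tp) (hcut : Cuts G cl) (hL : 6 ≤ L.card)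
    (hS : Struc (G.collapse (col cl a L)) (L.image a) ∅ P T s)
    (hT : ∀ t ∈ T, ∀ i ∈ L, t ∉ cl i) {l : Fin n} (hl : l ∈ L) {q : F2} {u w : U}
    (hu : u ∈ cl l) (hw1 : w ∉ cl l) (hw2 : ∀ i ∈ L, ¬ Att G cl a L P s i w) {c : F2}
    (hc1 : ∀ i ∈ L, w ∈ cl i → c = 0) (hc2 : (∀ i ∈ L, w ∉ cl i) → c = s w)
    (h : G.adj q u w) : q = c := by
  by_contra hne
  have hsl : ∀ i ∈ L, s (a i) = 0 := fun i hi => hS.s0 _ (mem_image_of_mem a hi)
  by_cases hw : ∃ i ∈ L, w ∈ cl i
  · obtain ⟨i, hi, hwi⟩ := hw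
    have hil : l ≠ i := by
      rintro rfl
      exact hw1 hwi
    have h1 := collapse_adj_roots hC hl hi hu hwi hil h
    have h2 : ((G.collapse (col cl a L)).HG ∅ P s).Adj (a l) (a i) := by
      refine pgj_adj_odd (pgj_root hS hl) (pgj_root hS hi) h1 ?_
      rw [hsl l hl, hsl i hi, add_zero]
      rwa [hc1 i hi hwi] at hne
    exact hil (pgj_uniq hC hS hT hl hi (SimpleGraph.Reachable.refl _) h2.reachable)
  · push Not at hw
    by_cases hwP : w ∈ P
    · have h1 := collapse_adj_of hC hw hl hu (G.symm _ _ _ h)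
      have h2 : ((G.collapse (col cl a L)).HG ∅ P s).Adj w (a l) := by
        refine pgj_adj_odd hwP (pgj_root hS hl) h1 ?_
        rw [hsl l hl, add_zero]
        rwa [hc2 hw] at hne
      rcases hS.sep w hwP (a l) (pgj_root hS hl) h2.reachable with h3 | ⟨-, h3⟩
      · exact hw l hl (h3 ▸ hC.aC l)
      · exact hT _ h3 l hl (hC.aC l)
    · rcases ex_or_att hC hcut hL hS hwP hw with h1 | ⟨i, hi, h1⟩
      · rcases ex_adj hC hS hT h1 (G.symm _ _ _ h) with h2 | h2
        · exact ex_true hC hS h2 l hl hu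
        · exact hT _ h2 l hl hu
      · exact hw2 i hi h1

theorem exists_switch (hC : Clus G cl a v tp) (hcut : Cuts G cl) (hL : 6 ≤ L.card)
    (hS : Struc (G.collapse (col cl a L)) (L.image a) ∅ P T s)
    (hT : ∀ t ∈ T, ∀ i ∈ L, t ∉ cl i)
    (hbal : ∀ l ∈ L, ∃ p : U → F2, (∀ u ∈ cl l, p u = 0) ∧ ∀ q u w, G.adj q u w →
      (u ∈ cl l ∨ Att G cl a L P s l u) → (w ∈ cl l ∨ Att G cl a L P s l w) → q = p u + p w) :
    ∃ (I : Finset U) (s2 : U → F2), Disjoint I T ∧ (∀ u ∈ I, ∀ i ∈ L, u ∉ cl i) ∧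
      (∀ u ∈ I, ∀ q w, G.adj q u w → w ∈ I ∨ w ∈ T) ∧
      (∀ q u w, G.adj q u w → q ≠ s2 u + s2 w → (u ∈ I ∨ u ∈ T) ∧ (w ∈ I ∨ w ∈ T)) ∧
      (∀ u ∈ T, ∀ w ∈ T, (G.HG ∅ (univ \ I) s2).Reachable u w) ∧
      (∀ l ∈ L, ∀ u ∈ cl l, s2 u = 0) ∧ ∀ u ∈ P, (∀ i ∈ L, u ∉ cl i) → s2 u = s u := by
  classical
  choose! p hp1 hp2 using hbal
  set s2 : U → F2 := fun u => if ∃ l ∈ L, u ∈ cl l then 0 else
    if h : ∃ l ∈ L, Att G cl a L P s l u then p (Classical.choose h) u else s u with hs2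
  have f1 : ∀ l ∈ L, ∀ u ∈ cl l, s2 u = 0 := by
    intro l hl u hu
    simp only [hs2]
    rw [if_pos ⟨l, hl, hu⟩]
  have f2 : ∀ l ∈ L, ∀ u, Att G cl a L P s l u → s2 u = p l u := by
    intro l hl u hu
    have h1 : ¬ ∃ i ∈ L, u ∈ cl i := by
      rintro ⟨i, hi, hui⟩
      exact att_true hC hS hl hu i hi hui
    have h2 : ∃ l ∈ L, Att G cl a L P s l u := ⟨l, hl, hu⟩
    simp only [hs2]
    rw [if_neg h1, dif_pos h2]
    have h3 := Classical.choose_spec h2
    rw [pgj_uniq hC hS hT h3.1 hl h3.2.2 hu.2]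
  have f3 : ∀ u, (∀ i ∈ L, u ∉ cl i) → (∀ i ∈ L, ¬ Att G cl a L P s i u) → s2 u = s u := by
    intro u h1 h2
    simp only [hs2]
    rw [if_neg (by push Not; exact h1), dif_neg (by push Not; exact h2)]
  have f4 : ∀ l ∈ L, ∀ u, (u ∈ cl l ∨ Att G cl a L P s l u) → s2 u = p l u := by
    rintro l hl u (hu | hu)
    · rw [f1 l hl u hu, hp1 l hl u hu]
    · exact f2 l hl u hu
  have f5 : ∀ u ∈ P, (∀ i ∈ L, u ∉ cl i) → s2 u = s u := fun u hu h =>
    f3 u h fun i _ h2 => h2.1 hu
  have hbal2 : ∀ l ∈ L, ∀ q u w, G.adj q u w → (u ∈ cl l ∨ Att G cl a L P s l u) →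
      (w ∈ cl l ∨ Att G cl a L P s l w) → q = s2 u + s2 w := by
    intro l hl q u w h hu hw
    rw [f4 l hl u hu, f4 l hl w hw]
    exact hp2 l hl q u w h hu hw
  -- an edge with an end in a collapsed cluster
  have hcl : ∀ l ∈ L, ∀ q u w, G.adj q u w → u ∈ cl l → q = s2 u + s2 w := by
    intro l hl q u w h hu
    by_cases hw1 : w ∈ cl l
    · exact hbal2 l hl q u w h (Or.inl hu) (Or.inl hw1)
    by_cases hw2 : ∃ i ∈ L, Att G cl a L P s i w
    · obtain ⟨i, hi, hiw⟩ := hw2
      rcases att_adj hC hS hT hi hiw (G.symm _ _ _ h) with h1 | h1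
      · exact hbal2 i hi q u w h (Or.inr h1) (Or.inr hiw)
      · exact hbal2 i hi q u w h (Or.inl h1) (Or.inr hiw)
    · push Not at hw2
      rw [f1 l hl u hu, zero_add]
      exact odd_cl hC hcut hL hS hT hl hu hw1 hw2 (fun i hi hwi => f1 i hi w hwi)
        (fun hw => f3 w hw hw2) h
  have hatt : ∀ l ∈ L, ∀ q u w, G.adj q u w → Att G cl a L P s l u → q = s2 u + s2 w := by
    intro l hl q u w h hu
    exact hbal2 l hl q u w h (Or.inr hu) (att_adj hC hS hT hl hu h).symm
  refine ⟨univ.filter (Ex G cl a L P T s), s2, ?_, ?_, ?_, ?_, ?_, f1, f5⟩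
  · rw [disjoint_left]
    intro x hx hxT
    simp only [mem_filter, mem_univ, true_and] at hx
    exact hx.1 (hS.TP hxT)
  · intro u hu
    simp only [mem_filter, mem_univ, true_and] at hu
    exact ex_true hC hS hu
  · intro u hu q w h
    simp only [mem_filter, mem_univ, true_and] at hu ⊢
    exact ex_adj hC hS hT hu h
  · intro q u w h hne
    simp only [mem_filter, mem_univ, true_and]
    have hu1 : ∀ i ∈ L, u ∉ cl i := fun i hi hui => hne (hcl i hi q u w h hui)
    have hw1 : ∀ i ∈ L, w ∉ cl i := fun i hi hwi =>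
      hne ((hcl i hi q w u (G.symm _ _ _ h) hwi).trans (add_comm _ _))
    have hu2 : ∀ i ∈ L, ¬ Att G cl a L P s i u := fun i hi hui =>
      hne (hatt i hi q u w h hui)
    have hw2 : ∀ i ∈ L, ¬ Att G cl a L P s i w := fun i hi hwi =>
      hne ((hatt i hi q w u (G.symm _ _ _ h) hwi).trans (add_comm _ _))
    by_cases huP : u ∈ P
    · by_cases hwP : w ∈ P
      · rw [f3 u hu1 hu2, f3 w hw1 hw2] at hne
        have h1 := (collapse_adj_true hC hu1 hw1 q).2 h
        have h2 := pgj_adj_odd huP hwP h1 hne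
        rcases hS.sep u huP w hwP h2.reachable with h3 | ⟨h3, h4⟩
        · exfalso
          rw [h3] at h
          exact G.irrefl _ _ h
        · exact ⟨Or.inr h3, Or.inr h4⟩
      · rcases ex_or_att hC hcut hL hS hwP hw1 with h1 | ⟨i, hi, h1⟩
        · exact ⟨ex_adj hC hS hT h1 (G.symm _ _ _ h), Or.inl h1⟩
        · exact absurd h1 (hw2 i hi)
    · rcases ex_or_att hC hcut hL hS huP hu1 with h1 | ⟨i, hi, h1⟩
      · exact ⟨Or.inl h1, ex_adj hC hS hT h1 h⟩
      · exact absurd h1 (hu2 i hi)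
  · have hmem : ∀ x, x ∈ univ \ univ.filter (Ex G cl a L P T s) ↔ ¬ Ex G cl a L P T s x := by
      intro x
      simp
    have htr : ∀ x, (Ex G cl a L P T s x ∨ x ∈ T) → ∀ i ∈ L, x ∉ cl i := by
      rintro x (hx | hx)
      · exact ex_true hC hS hx
      · exact hT x hx
    have key : ∀ {u w : U} (_ : ((G.collapse (col cl a L)).HG ∅ P s).Walk u w),
        (Ex G cl a L P T s u ∨ u ∈ T) →
        (G.HG ∅ (univ \ univ.filter (Ex G cl a L P T s)) s2).Reachable u w := by
      intro u w W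
      induction W with
      | nil => exact fun _ => SimpleGraph.Reachable.refl _
      | @cons u x w h W ih =>
        intro hu
        have hx : Ex G cl a L P T s x ∨ x ∈ T := by
          rcases hu with ⟨-, t, ht, hr⟩ | hu
          · exact ex_of hS ht (h.symm.reachable.trans hr)
          · exact ex_of hS hu h.symm.reachable
        refine SimpleGraph.Reachable.trans (SimpleGraph.Adj.reachable ?_) (ih hx)
        have hne : u ≠ x := h.1
        refine ⟨hne, notMem_empty _, notMem_empty _, ?_⟩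
        rw [hmem, hmem]
        by_cases h1 : Ex G cl a L P T s u ∨ Ex G cl a L P T s x
        · left
          obtain ⟨q, hq⟩ := pgj_adj h
          refine ⟨?_, q, (collapse_adj_true hC (htr u hu) (htr x hx) q).1 hq⟩
          rcases h1 with h1 | h1
          · exact Or.inl (not_not.2 h1)
          · exact Or.inr (not_not.2 h1)
        · rw [not_or] at h1
          right
          have huT : u ∈ T := hu.resolve_left h1.1
          have hxT : x ∈ T := hx.resolve_left h1.2
          refine ⟨h1.1, h1.2, ?_⟩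
          rw [f5 u (hS.TP huT) (hT u huT), f5 x (hS.TP hxT) (hT x hxT)]
          obtain ⟨-, -, -, h4⟩ := h
          rcases h4 with ⟨h4, -⟩ | ⟨-, -, h6⟩
          · exact absurd (hS.TP hxT) (h4.resolve_left (not_not.2 (hS.TP huT)))
          · exact (collapse_adj_true hC (hT u huT) (hT x hxT) _).1 h6
    intro u hu w hw
    obtain ⟨W⟩ := hS.conn u hu w hw
    exact key W (Or.inr hu)

end Pool.Agent.HC
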