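import Pool.Agent.HC.BasB
import Pool.Agent.HC.Gr1

/-!
# Definitions for Con3, Con4: a small set `insert e X` of order three, linked to a clique, with a
graph representation; `P` is the set of the vertices of the clique
-/

namespace Pool.Agent.HC

open Finset Module

/-- `insert e X` has order three in `(K, S)`, `e` is in its guts, and modulo `L` it is attached to
the clique `B`, whose vertices in the representation `φ` are the elements of `P` -/
structure RRep {V : Type} [AddCommGroup V] [Module F2 V] [DecidableEq V] {U : Type} [Fintype U]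
    [DecidableEq U] (K L : Submodule F2 V) (S X B : Finset V) (e : V) (φ : V →ₗ[F2] (U → F2))
    (P : Finset U) : Prop where
  XS : insert e X ⊆ S
  eX : e ∉ X
  nz : ∀ x ∈ S, x ∉ K
  eh : e ∈ hat K (X : Set V)
  eW : e ∈ guts K S (insert e X)
  KL : K ≤ L
  LX : hat K (X : Set V) ⊓ L = K
  l3 : lam K S (insert e X) = 3
  inf : hat L (X : Set V) ⊓ hat L (B : Set V) = L ⊔ guts K S (insert e X)
  rep : IsRep L ((X : Set V) ∪ B) φ
  P1 : ∀ v ∈ hat L (B : Set V), ∀ u, u ∉ P → φ v u = 0
  P2 : ∀ y : U → F2, ∑ u, y u = 0 → (∀ u, u ∉ P → y u = 0) → ∃ v ∈ hat L (B : Set V), φ v = y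

/-- the elements of `X` with an end in `Q` -/
noncomputable def endsIn {V : Type} [AddCommGroup V] [Module F2 V] {U : Type}
    (φ : V →ₗ[F2] (U → F2)) (X : Finset V) (Q : Finset U) : Finset V := by
  classical exact X.filter (fun x => ∃ u ∈ Q, φ x u ≠ 0)

end Pool.Agent.HC
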