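import Pool.Agent.HC.Q1
import Pool.Agent.HC.Q3

/-!
# HC-Ro1: rooting, the minimal minor (first half of 3.4)

Induction on `S.card` (generalizing `K, S, C`). Let `Xm` be a set with `X0 ⊆ Xm`, `QSmall S q Xm`,
`lam K S Xm ≤ 3` of maximal cardinality. For every other such set `X1`: `lam (Xm ∩ X1) ≥ 3` (`hmin`,
the intersection is small and contains `X0`), so `lam (Xm ∪ X1) ≤ 3` (`lam_submod`), and
`Xm ∪ X1` is small (`small_union`), so `X1 ⊆ Xm` by maximality. (*)
If every `x ∈ S` is in `Xm` or of the form `q i j`: done with `F = ∅`, `S1 = S`, `C1 = C`.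
Otherwise let `x ∈ S`, `x ∉ Xm`, `x` not of the form `q i j`; `insert x X1` is small if `X1` is
(`rq_insert`).
* `x ∈ C`: `x ∉ hat K X0`: otherwise `lam K S (insert x X0) ≤ 3` (`lam_insert_le`), so `x ∈ Xm` by (*).
  Consider `(hat K {x}, S.erase x, C.erase x)` (`IsQ.contract`). For small `X1 ⊇ X0` in it:
  if `lam' X1 ≤ 2`, then since `lam K S X1 ≥ 3` we have `x ∈ hat K X1`, `lam K S X1 = 3`
  (`lam_contract_of_mem`, `lam_contract_of_not_mem`; `x ∉ K`), so `lam K S (insert x X1) ≤ 3`, `x ∈ Xm`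
  by (*), contradiction. `lam' X0 ≤ 3`. Induction gives `F', S1, C1, Xm'`; put `F = insert x F'`:
  `hat K X0 ⊓ hat K F ≤ hat K X0 ⊓ (hat (hat K {x}) X0 ⊓ hat (hat K {x}) F') = hat K X0 ⊓ hat K {x} = K`.
* `x ∉ C`: consider `(K, S.erase x, C)` (`IsQ.erase`). `lam K (S.erase x) X1 ≤ 2` would give
  `lam K S (insert x X1) ≤ 3` (`lam_insert_le_erase`), contradiction by (*). And
  `lam K (S.erase x) X0 ≤ lam K S X0` (the guts get smaller). Induction.
-/

namespace Pool.Agent.HC

open Finset Module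

variable {V : Type} [AddCommGroup V] [Module F2 V] [DecidableEq V] [FiniteDimensional F2 V]
  {K : Submodule F2 V} {S C X0 : Finset V} {N : ℕ} {g : Fin N → V} {q : Fin N → Fin N → V}

theorem rt_min (h : IsQ K S C g q) (hN : 11 ≤ N) (hX0 : QSmall S q X0) (hl : lam K S X0 ≤ 3)
    (hmin : ∀ X1, X0 ⊆ X1 → QSmall S q X1 → 3 ≤ lam K S X1) :
    ∃ F S1 C1 Xm : Finset V, F ⊆ S \ X0 ∧ S1 ⊆ S ∧ X0 ⊆ S1 ∧
      hat K (X0 : Set V) ⊓ hat K (F : Set V) = K ∧ IsQ (hat K (F : Set V)) S1 C1 g q ∧
      (∀ X1, X0 ⊆ X1 → QSmall S1 q X1 → 3 ≤ lam (hat K (F : Set V)) S1 X1) ∧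
      X0 ⊆ Xm ∧ QSmall S1 q Xm ∧ lam (hat K (F : Set V)) S1 Xm ≤ 3 ∧
      ∀ x ∈ S1, x ∈ Xm ∨ ∃ i j, i ≠ j ∧ x = q i j := by
  classical
  induction hn : S.card using Nat.strong_induction_on generalizing K S C with
  | _ n ih =>
  obtain ⟨Xm, hXm, hmax⟩ := Finset.exists_max_image
    (S.powerset.filter fun X => X0 ⊆ X ∧ QSmall S q X ∧ lam K S X ≤ 3) Finset.card
    ⟨X0, Finset.mem_filter.2 ⟨Finset.mem_powerset.2 hX0.1, le_rfl, hX0, hl⟩⟩
  obtain ⟨_, hX0m, hsm, hlm⟩ := Finset.mem_filter.1 hXm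
  have star : ∀ X1, X0 ⊆ X1 → QSmall S q X1 → lam K S X1 ≤ 3 → X1 ⊆ Xm := by
    intro X1 h1 h2 h3
    have h4 : QSmall S q (Xm ∩ X1) :=
      ⟨Finset.inter_subset_left.trans hsm.1, (rq_mono q Finset.inter_subset_left).trans hsm.2⟩
    have h5 := hmin _ (Finset.subset_inter hX0m h1) h4
    have h6 := lam_submod (K := K) hsm.1 h2.1
    have h7 : lam K S (Xm ∪ X1) ≤ 3 := by omega
    have h8 := small_union h hN hsm h2 h7
    have h9 := hmax (Xm ∪ X1) (Finset.mem_filter.2 ⟨Finset.mem_powerset.2 h8.1,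
      hX0m.trans Finset.subset_union_left, h8, h7⟩)
    have h10 : Xm = Xm ∪ X1 := Finset.eq_of_subset_of_card_le Finset.subset_union_left h9
    rw [h10]
    exact Finset.subset_union_right
  by_cases hall : ∀ x ∈ S, x ∈ Xm ∨ ∃ i j, i ≠ j ∧ x = q i j
  · refine ⟨∅, S, C, Xm, Finset.empty_subset _, le_rfl, hX0.1, ?_, ?_, ?_, hX0m, hsm, ?_, hall⟩
    · rw [Finset.coe_empty, hat_empty]
      exact inf_eq_right.2 (le_hat _ _)
    · rw [Finset.coe_empty, hat_empty]
      exact h
    · rw [Finset.coe_empty, hat_empty]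
      exact hmin
    · rw [Finset.coe_empty, hat_empty]
      exact hlm
  · push Not at hall
    obtain ⟨x, hxS, hxm, hxq⟩ := hall
    have hxq' : ∀ i j, i ≠ j → q i j ≠ x := fun i j hij e => hxq i j hij e.symm
    have hins : ∀ X1, QSmall S q X1 → QSmall S q (insert x X1) := by
      intro X1 h1
      refine ⟨Finset.insert_subset hxS h1.1, ?_⟩
      rw [rq_insert q X1 hxq']
      exact h1.2
    have hx0 : x ∉ X0 := fun hx => hxm (hX0m hx)
    have hno : ∀ X1, X0 ⊆ X1 → QSmall S q X1 → ¬ lam K S (insert x X1) ≤ 3 := by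
      intro X1 h1 h2 h3
      exact hxm (star _ (h1.trans (Finset.subset_insert _ _)) (hins X1 h2) h3
        (Finset.mem_insert_self _ _))
    have hX0e : X0 ⊆ S.erase x := Finset.subset_erase.2 ⟨hX0.1, hx0⟩
    have hcard : (S.erase x).card < n := by
      rw [← hn]
      exact Finset.card_erase_lt_of_mem hxS
    have hQe : QSmall (S.erase x) q X0 := ⟨hX0e, hX0.2⟩
    have hup : ∀ X1, QSmall (S.erase x) q X1 → QSmall S q X1 := fun X1 h1 =>
      ⟨h1.1.trans (Finset.erase_subset _ _), h1.2⟩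
    by_cases hxC : x ∈ C
    · have hx1 : x ∉ hat K (X0 : Set V) := fun hx =>
        hno X0 le_rfl hX0 ((lam_insert_le hX0.1 hxS hx).trans hl)
      have hxK : x ∉ K := fun hx => hx1 (le_hat _ _ hx)
      obtain ⟨F, S1, C1, Xm', a1, a2, a3, a4, a5, a6, a7, a8, a9, a10⟩ :=
        ih _ hcard (h.contract hxC) hQe
          (by rw [lam_contract_of_not_mem hxS hxK hX0e hx1]; exact hl)
          (by
            intro X1 h1 h2
            have h3 := hmin X1 h1 (hup X1 h2)
            by_cases h4 : x ∈ hat K (X1 : Set V)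
            · by_contra h5
              have h6 := lam_contract_of_mem hxS hxK h2.1 h4
              have h7 := lam_insert_le (hup X1 h2).1 hxS h4
              exact hno X1 h1 (hup X1 h2) (by omega)
            · rw [lam_contract_of_not_mem hxS hxK h2.1 h4]
              exact h3) rfl
      have e : hat (hat K {x}) (F : Set V) = hat K ((insert x F : Finset V) : Set V) := by
        rw [hat_hat, Finset.coe_insert, Set.insert_eq]
      rw [e] at a4 a5 a6 a9
      refine ⟨insert x F, S1, C1, Xm', ?_, a2.trans (Finset.erase_subset _ _), a3, ?_, a5, a6, a7,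
        a8, a9, a10⟩
      · intro y hy
        rcases Finset.mem_insert.1 hy with rfl | hy
        · exact Finset.mem_sdiff.2 ⟨hxS, hx0⟩
        · have := Finset.mem_sdiff.1 (a1 hy)
          exact Finset.mem_sdiff.2 ⟨Finset.mem_of_mem_erase this.1, this.2⟩
      · apply le_antisymm
        · rintro v ⟨hv1, hv2⟩
          have hv3 : v ∈ hat K {x} := by
            rw [← a4]
            exact ⟨hat_mono (le_hat _ _) le_rfl hv1, hv2⟩
          rcases (mem_hat_singleton K x v).1 hv3 with h1 | h1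
          · exact h1
          · exfalso
            apply hx1
            have h2 : x + v ∈ hat K (X0 : Set V) := by
              rw [add_comm]
              exact le_hat _ _ h1
            exact mem_of_add_mem2 h2 hv1
        · exact le_inf (le_hat _ _) (le_hat _ _)
    · obtain ⟨F, S1, C1, Xm', a1, a2, a3, a4, a5, a6, a7, a8, a9, a10⟩ :=
        ih _ hcard (h.erase hxC hxq') hQe
          (by
            refine le_trans ?_ hl
            unfold lam guts
            refine Nat.sub_le_sub_right (Submodule.finrank_mono (inf_le_inf le_rfl ?_)) _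
            exact hat_mono le_rfl (Finset.coe_subset.2
              (Finset.sdiff_subset_sdiff (Finset.erase_subset x S) le_rfl)))
          (by
            intro X1 h1 h2
            by_contra h3
            have h4 := lam_insert_le_erase (K := K) hxS h2.1
            exact hno X1 h1 (hup X1 h2) (by omega)) rfl
      refine ⟨F, S1, C1, Xm', a1.trans (Finset.sdiff_subset_sdiff (Finset.erase_subset x S) le_rfl),
        a2.trans (Finset.erase_subset _ _), a3, a4, a5, a6, a7, a8, a9, a10⟩

end Pool.Agent.HC
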