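import Pool.Agent.HC.Q1
import Pool.Agent.HC.Q3
import Pool.Agent.HC.AO
import Pool.Agent.Helper39.TC.Clique

/-!
# HC-Ro2: rooting, a clique restriction by Ramsey's theorem (second half of 3.4)

`Z = S \ Xm`. `C ⊆ Xm`: an element of `C` is not of the form `q i j` (`IsQ.q_not_mem`). Every `x ∈ Z` is some
`q i j`. Let `J0` be the set of at most 6 vertices touched by `Xm` (`small_touch`); for `i, j ∉ J0`:
`q i j ∈ Z`. Fix a vertex `o ∉ J0`. For `i, l ∉ J0 ∪ {o}`, `i ≠ l`:
`t i l := q o i + q o l + q i l` is in `hat K C` (`qg`: the sum of the three classes is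
`2 (g o + g i + g l) = 0`), which is contained in `hat K Xm`, and in `hat K Z`. So `t i l ∈ guts K S Xm =: W`,
which has at most `2 ^ 3 = 8` classes modulo `K` (`lam ≤ 3`). Colour the pairs `i < l` by the class of
`t i l` in `W / K` (a finite type; `V ⧸ K` itself is finite): to have a bound on `N` which does not
depend on `V`, use a map of `W / K` to `Fin 8` (injective; `Fintype.card` of the quotient is at
most 8, for instance via `Module.finrank` and `Module.card_eq_pow_finrank`). Ramsey: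
`Pool.Agent.Helper39.TC.ramsey_mono (Fin 8) (n + 2 * m)` applied to the set of the remaining vertices
(at least `N - 7` of them; enumerate them increasingly with `Finset.orderEmbOfFin`) gives
`ι : Fin (n + 2 * m) → Fin N` injective with constant class `τ`.
* `τ ∉ K`: `hasO_of_odd` with `b i = q o (ι i)` for the first `2 * m` indices: `∑ T b ∈ K ⊆ hat K C` gives
  `∑ T (g o + g (ι i)) ∈ hat K C`, an even sum with the coefficient 1 at `ι i`, `i ∈ T`, so `T = ∅`
  (`gind`); `∑ T b + τ ∈ K`: again in `hat K C` (`τ ∈ hat K C`), `T = ∅`, `τ ∈ K`, contradiction. The element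
  `q (ι i) (ι l) = b i + b l + τ` modulo `K`. Contradiction to `hO`.
* `τ ∈ K`: `q (ι i) (ι l) + q o (ι i) + q o (ι l) ∈ K`. `f i := q o (ι i)`, `i < n`, `B := ` the image of the pairs
  `i ≠ l` in `Fin n` under `q (ι i) (ι l)`. `IsClique K f B`: independence as above; `uniq` by `gind`.
-/

namespace Pool.Agent.HC

open Finset Module

/-- coordinates modulo `K` on a subspace -/
private theorem ro2_coord {V : Type} [AddCommGroup V] [Module F2 V] [FiniteDimensional F2 V]
    {K W : Submodule F2 V} (hKW : K ≤ W) {n : ℕ} (h : finrank F2 W ≤ finrank F2 K + n) :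
    ∃ g : V →ₗ[F2] (Fin n → F2), ∀ v ∈ W, g v = 0 → v ∈ K := by
  classical
  set W' : Submodule F2 (V ⧸ K) := W.map K.mkQ with hW
  have hd : finrank F2 W' ≤ n := by
    have h1 : finrank F2 W' + finrank F2 K = finrank F2 W := by
      have h2 := LinearMap.finrank_range_add_finrank_ker (K.mkQ.domRestrict W)
      have h3 : LinearMap.range (K.mkQ.domRestrict W) = W' := by
        rw [hW]
        ext y
        constructor
        · rintro ⟨x, rfl⟩
          exact ⟨x.1, x.2, rfl⟩
        · rintro ⟨x, hx, rfl⟩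
          exact ⟨⟨x, hx⟩, rfl⟩
      have h4 : finrank F2 (LinearMap.ker (K.mkQ.domRestrict W)) = finrank F2 K := by
        refine LinearEquiv.finrank_eq ?_
        refine
          { toFun := fun x => ⟨x.1.1, ?_⟩
            invFun := fun x => ⟨⟨x.1, hKW x.2⟩, ?_⟩
            map_add' := fun x y => rfl
            map_smul' := fun c x => rfl
            left_inv := fun x => rfl
            right_inv := fun x => rfl }
        · have h5 := x.2
          rw [LinearMap.mem_ker] at h5
          have h6 : K.mkQ x.1.1 = 0 := h5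
          rwa [Submodule.mkQ_apply, Submodule.Quotient.mk_eq_zero] at h6
        · rw [LinearMap.mem_ker]
          show K.mkQ x.1 = 0
          rw [Submodule.mkQ_apply, Submodule.Quotient.mk_eq_zero]
          exact x.2
      rw [h3, h4] at h2
      exact h2
    omega
  let b := Module.finBasis F2 W'
  let j : W' →ₗ[F2] (Fin n → F2) :=
    (Function.ExtendByZero.linearMap F2 (Fin.castLE hd)).comp b.equivFun.toLinearMap
  have hj : Function.Injective j := by
    intro x y hxy
    apply b.equivFun.injective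
    funext i
    have h1 := congrFun hxy (Fin.castLE hd i)
    have h2 : ∀ z : W', j z (Fin.castLE hd i) = b.equivFun z i := fun z =>
      (Fin.castLE_injective hd).extend_apply (b.equivFun z) 0 i
    rw [h2, h2] at h1
    exact h1
  obtain ⟨J, hJ⟩ := LinearMap.exists_extend j
  refine ⟨J.comp K.mkQ, ?_⟩
  intro v hv h0
  have hvW : K.mkQ v ∈ W' := ⟨v, hv, rfl⟩
  have h1 : j ⟨K.mkQ v, hvW⟩ = J (K.mkQ v) := by
    rw [← hJ]
    rfl
  rw [LinearMap.comp_apply] at h0
  rw [h0] at h1
  have h2 : (⟨K.mkQ v, hvW⟩ : W') = 0 := hj (by rw [h1, map_zero])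
  have h3 : K.mkQ v = 0 := congrArg Subtype.val h2
  rwa [Submodule.mkQ_apply, Submodule.Quotient.mk_eq_zero] at h3

/-- the vectors `g o + g (μ i)` are independent -/
private theorem ro2_indep {V : Type} [AddCommGroup V] [Module F2 V] {L : Submodule F2 V} {N k : ℕ}
    {g : Fin N → V} (hg : ∀ T : Finset (Fin N), Even T.card → ∑ i ∈ T, g i ∈ L → T = ∅)
    {μ : Fin k → Fin N} (hμ : Function.Injective μ) {o : Fin N} (ho : ∀ i, μ i ≠ o)
    (T : Finset (Fin k)) (h : ∑ i ∈ T, (g o + g (μ i)) ∈ L) : T = ∅ := by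
  classical
  set T' : Finset (Fin N) := T.map ⟨μ, hμ⟩ with hT'
  have hc : T'.card = T.card := card_map _
  have hs : ∑ i ∈ T', g i = ∑ i ∈ T, g (μ i) := by
    rw [hT', sum_map]
    rfl
  have ho' : o ∉ T' := by
    rw [hT', mem_map]
    rintro ⟨i, _, hi⟩
    exact ho i hi
  rw [sum_add_distrib, sum_const, ← hs] at h
  rcases Nat.even_or_odd T.card with he | he
  · have h1 : T.card • g o = 0 := by
      obtain ⟨r, hr⟩ := he
      rw [hr, add_smul, add_self2]
    rw [h1, zero_add] at h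
    have h2 := hg T' (by rw [hc]; exact he) h
    rw [h2, card_empty] at hc
    exact card_eq_zero.1 hc.symm
  · have h1 : T.card • g o = g o := by
      obtain ⟨r, hr⟩ := he
      rw [hr, add_smul, two_mul, add_smul, add_self2, zero_add, one_smul]
    rw [h1, ← sum_insert ho'] at h
    have h2 := hg (insert o T') (by rw [card_insert_of_notMem ho', hc]; exact he.add_one) h
    exact absurd h2 (insert_ne_empty o T')

theorem rt_clique (m n : ℕ) (hm : 4 ≤ m) : ∃ N0 : ℕ, ∀ N, N0 ≤ N →
    ∀ (V : Type) [AddCommGroup V] [Module F2 V] [DecidableEq V] [FiniteDimensional F2 V]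
      (K : Submodule F2 V) (S C Xm : Finset V) (g : Fin N → V) (q : Fin N → Fin N → V),
      IsQ K S C g q → ¬ HasO m K S → QSmall S q Xm → lam K S Xm ≤ 3 →
      (∀ x ∈ S, x ∈ Xm ∨ ∃ i j, i ≠ j ∧ x = q i j) →
      ∃ (f : Fin n → V) (B : Finset V) (ι : Fin n → Fin N), IsClique K f B ∧ B ⊆ S \ Xm ∧
        Function.Injective ι ∧ ∀ i j, i ≠ j → q (ι i) (ι j) ∈ B := by
  classical
  obtain ⟨R, hR⟩ := Pool.Agent.Helper39.TC.ramsey_mono (Fin 3 → F2) (n + 2 * m)
  refine ⟨R + 7, ?_⟩
  intro N hN V _ _ _ _ K S C Xm g q hq hO hX hl hcov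
  obtain ⟨J, hJ6, hJ⟩ := small_touch hq hX
  have hA : N ≤ (univ \ J : Finset (Fin N)).card + 6 := by
    rw [card_sdiff_of_subset (subset_univ J), card_univ, Fintype.card_fin]
    omega
  obtain ⟨o, hoA⟩ : (univ \ J : Finset (Fin N)).Nonempty := by
    rw [← card_pos]
    omega
  have hoJ : o ∉ J := (mem_sdiff.1 hoA).2
  set A : Finset (Fin N) := (univ \ J).erase o with hAdef
  have hAc : R ≤ A.card := by
    rw [hAdef, card_erase_of_mem hoA]
    omega
  set κ : Fin R ↪o Fin N := A.orderEmbOfCardLe hAc with hκ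
  have hκA : ∀ a, κ a ∈ A := fun a => A.orderEmbOfCardLe_mem hAc a
  have hAJ : ∀ i ∈ A, i ∉ J := fun i hi => (mem_sdiff.1 (mem_of_mem_erase hi)).2
  have hAo : ∀ i ∈ A, i ≠ o := fun i hi => ne_of_mem_erase hi
  -- the small set contains `C`
  have hCX : (C : Set V) ⊆ (Xm : Set V) := by
    intro x hx
    rcases hcov x (hq.CS hx) with h1 | ⟨i, j, hij, rfl⟩
    · exact h1
    · exact absurd (subset_hat K _ hx) (hq.q_not_mem hij)
  have hCXh : hat K (C : Set V) ≤ hat K (Xm : Set V) := hat_mono le_rfl hCX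
  have hout : ∀ i j, i ≠ j → i ∉ J → q i j ∈ S \ Xm := by
    intro i j hij hi
    rw [mem_sdiff]
    exact ⟨hq.qS i j hij, fun h => hi (hJ i j hij h).1⟩
  set t : Fin N → Fin N → V := fun i l => q o i + q o l + q i l with ht
  have htC : ∀ i l, i ≠ o → l ≠ o → i ≠ l → t i l ∈ hat K (C : Set V) := by
    intro i l hi hl' hil
    have h1 := (hat K (C : Set V)).add_mem ((hat K (C : Set V)).add_mem
      (hq.qg o i hi.symm) (hq.qg o l hl'.symm)) (hq.qg i l hil)
    have h2 : q o i + (g o + g i) + (q o l + (g o + g l)) + (q i l + (g i + g l)) =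
        t i l + ((g o + g i + g l) + (g o + g i + g l)) := by
      have h3 : t i l = q o i + q o l + q i l := rfl
      rw [h3]
      abel
    rwa [h2, add_self2, add_zero] at h1
  have htW : ∀ i ∈ A, ∀ l ∈ A, i ≠ l → t i l ∈ guts K S Xm := by
    intro i hi l hl' hil
    refine ⟨hCXh (htC i l (hAo i hi) (hAo l hl') hil), ?_⟩
    have k : ∀ i j, i ≠ j → i ∉ J → q i j ∈ hat K ((S \ Xm : Finset V) : Set V) :=
      fun i j hij hi => subset_hat K _ (mem_coe.2 (hout i j hij hi))
    exact (hat K _).add_mem ((hat K _).add_mem (k o i (hAo i hi).symm hoJ)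
      (k o l (hAo l hl').symm hoJ)) (k i l hil (hAJ i hi))
  have hsymm : ∀ i l, t i l = t l i := by
    intro i l
    rw [ht]
    simp only
    rw [hq.qsymm i l, add_comm (q o i) (q o l)]
  obtain ⟨γ, hγ⟩ := ro2_coord (K := K) (W := guts K S Xm) (n := 3) (le_guts K S Xm) (by
    rw [← lam_add]
    omega)
  obtain ⟨e, c0, hc⟩ := hR (fun a b => γ (t (κ a) (κ b)))
  set μ : Fin (n + 2 * m) → Fin N := fun x => κ (e x) with hμdef
  have hμ : Function.Injective μ := κ.injective.comp e.injective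
  have hμA : ∀ x, μ x ∈ A := fun x => hκA _
  have hμo : ∀ x, μ x ≠ o := fun x => hAo _ (hμA x)
  have hμJ : ∀ x, μ x ∉ J := fun x => hAJ _ (hμA x)
  have hlt : (⟨0, by omega⟩ : Fin (n + 2 * m)) < ⟨1, by omega⟩ := by
    rw [Fin.mk_lt_mk]
    exact one_pos
  set τ : V := t (μ ⟨0, by omega⟩) (μ ⟨1, by omega⟩) with hτ
  have hc1 := hc _ _ hlt
  have hmono : ∀ x y, x < y → t (μ x) (μ y) + τ ∈ K := by
    intro x y hxy
    have h1 := hc x y hxy
    rw [← hc1] at h1
    have h2 : γ (t (μ x) (μ y)) = γ τ := Option.some.inj h1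
    apply hγ
    · refine (guts K S Xm).add_mem (htW _ (hμA x) _ (hμA y) (hμ.ne hxy.ne)) ?_
      exact htW _ (hμA _) _ (hμA _) (hμ.ne hlt.ne)
    · rw [map_add, h2, add_self2]
  have hall : ∀ x y, x ≠ y → t (μ x) (μ y) + τ ∈ K := by
    intro x y hxy
    rcases lt_or_gt_of_ne hxy with h | h
    · exact hmono x y h
    · rw [hsymm]
      exact hmono y x h
  have hτC : τ ∈ hat K (C : Set V) := htC _ _ (hμo _) (hμo _) (hμ.ne hlt.ne)
  -- independence of the `q o (μ i)`
  have hindep : ∀ (k : ℕ) (ν : Fin k → Fin (n + 2 * m)), Function.Injective ν →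
      ∀ T : Finset (Fin k), ∑ i ∈ T, q o (μ (ν i)) ∈ hat K (C : Set V) → T = ∅ := by
    intro k ν hν T hT
    refine ro2_indep (L := hat K (C : Set V)) hq.gind (μ := fun i => μ (ν i)) (hμ.comp hν)
      (o := o) (fun i => hμo _) T ?_
    have h1 : ∑ i ∈ T, (q o (μ (ν i)) + (g o + g (μ (ν i)))) ∈ hat K (C : Set V) :=
      Submodule.sum_mem _ fun i _ => hq.qg o _ (hμo _).symm
    rw [sum_add_distrib, add_comm] at h1
    exact mem_of_add_mem2 h1 hT
  by_cases hτK : τ ∈ K
  · -- a clique
    have hin : ∀ x y, x ≠ y → t (μ x) (μ y) ∈ K := fun x y hxy =>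
      mem_of_add_mem2 (hall x y hxy) hτK
    set ν : Fin n → Fin (n + 2 * m) := Fin.castAdd (2 * m) with hν
    have hνi : Function.Injective ν := Fin.castAdd_injective n (2 * m)
    set B : Finset V := (univ.filter (fun p : Fin n × Fin n => p.1 ≠ p.2)).image
      (fun p => q (μ (ν p.1)) (μ (ν p.2))) with hB
    have hBm : ∀ b, b ∈ B ↔ ∃ i j : Fin n, i ≠ j ∧ q (μ (ν i)) (μ (ν j)) = b := by
      intro b
      rw [hB, mem_image]
      constructor
      · rintro ⟨⟨i, j⟩, h1, h2⟩
        exact ⟨i, j, (mem_filter.1 h1).2, h2⟩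
      · rintro ⟨i, j, h1, h2⟩
        exact ⟨⟨i, j⟩, mem_filter.2 ⟨mem_univ _, h1⟩, h2⟩
    have hne : ∀ i j : Fin n, i ≠ j → μ (ν i) ≠ μ (ν j) := fun i j hij => hμ.ne (hνi.ne hij)
    have hcl : ∀ i j : Fin n, i ≠ j →
        q (μ (ν i)) (μ (ν j)) + (q o (μ (ν i)) + q o (μ (ν j))) ∈ K := by
      intro i j hij
      have h1 := hin _ _ (hνi.ne hij)
      rw [ht] at h1
      simp only at h1
      rwa [add_comm] at h1
    refine ⟨fun i => q o (μ (ν i)), B, fun i => μ (ν i), ?_, ?_, hμ.comp hνi, ?_⟩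
    · refine ⟨?_, ?_, ?_, ?_⟩
      · intro T _ hT
        exact hindep n ν hνi T (le_hat K _ hT)
      · intro i j hij
        exact ⟨_, (hBm _).2 ⟨i, j, hij, rfl⟩, hcl i j hij⟩
      · intro b hb
        obtain ⟨i, j, hij, rfl⟩ := (hBm b).1 hb
        exact ⟨i, j, hij, hcl i j hij⟩
      · intro b hb b' hb' hbb
        obtain ⟨i, j, hij, rfl⟩ := (hBm b).1 hb
        obtain ⟨i', j', hij', rfl⟩ := (hBm b').1 hb'
        by_contra hcon
        rcases hq.par hcon hbb with h1 | h1
        · exact h1.2 _ _ (hne i j hij) rfl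
        · exact h1.2 _ _ (hne i' j' hij') rfl
    · intro b hb
      obtain ⟨i, j, hij, rfl⟩ := (hBm b).1 hb
      exact hout _ _ (hne i j hij) (hμJ _)
    · intro i j hij
      exact (hBm _).2 ⟨i, j, hij, rfl⟩
  · -- the excluded minor
    exfalso
    apply hO
    have hle : 2 * m ≤ n + 2 * m := by omega
    set ν : Fin (2 * m) → Fin (n + 2 * m) := Fin.castLE hle with hν
    have hνi : Function.Injective ν := Fin.castLE_injective hle
    refine hasO_of_odd hm (fun i => q o (μ (ν i))) τ ?_ ?_ ?_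
    · intro T hT
      exact hindep (2 * m) ν hνi T (le_hat K _ hT)
    · intro T hT
      have h1 : T = ∅ := hindep (2 * m) ν hνi T (mem_of_add_mem2 (le_hat K _ hT) hτC)
      rw [h1, sum_empty, zero_add] at hT
      exact hτK hT
    · intro i j hij
      refine ⟨q (μ (ν i)) (μ (ν j)), hq.qS _ _ (hμ.ne (hνi.ne hij)), ?_⟩
      have h1 := hall _ _ (hνi.ne hij)
      rw [ht] at h1
      simp only at h1
      rwa [show q o (μ (ν i)) + q o (μ (ν j)) + q (μ (ν i)) (μ (ν j)) + τ =
        q (μ (ν i)) (μ (ν j)) + (q o (μ (ν i)) + q o (μ (ν j)) + τ) by abel] at h1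

end Pool.Agent.HC
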