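import Pool.Agent.HC.Ro1
import Pool.Agent.HC.Ro2
import Pool.Agent.HC.Link

/-!
# HC-Ro3: rooting, assembly (3.4)

`N0 := max 11 (the bound of rt_clique m n)`. `rt_min`: `F1, S1, C1, Xm`, `K1 = hat K F1`. No `O_m` in `(K1, S1)`
(`HasO.mono`). `rt_clique` for `(K1, S1, C1, Xm)`: `f, B, ι`; `B ⊆ S1 \ Xm ⊆ S1 \ X0`.
`linking K1 (hat K1 B) (S1 \ B) X0 3`: let `X0 ⊆ Y ⊆ S1 \ B`. `hat K1 ((S1 \ B) \ Y) ⊔ hat K1 B = hat K1 (S1 \ Y)`, so the
space in the hypothesis is `guts K1 S1 Y`; if `lam K1 S1 Y ≤ 2` then `Y` is small (`small_of_five` with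
`J = image ι`, `5 ≤ n`: `q (ι i) (ι j) ∈ B` is not in `Y`), against the minimality property of `rt_min`.
So `F2 ⊆ (S1 \ B) \ X0` with `hat K1 X0 ⊓ hat K1 F2 = K1`, `hat K1 B ⊓ hat K1 F2 = K1` and the dimension
inequality. `F := F1 ∪ F2`, `hat K F = hat K1 F2`. `hat K X0 ⊓ hat K F ≤ hat K X0 ⊓ K1 = K`. `IsClique (hat K F) f B`
by `IsClique.mono`.
-/

namespace Pool.Agent.HC

open Finset Module

theorem rooting (m n : ℕ) (hm : 4 ≤ m) (hn : 5 ≤ n) : ∃ N0 : ℕ, ∀ N, N0 ≤ N →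
    ∀ (V : Type) [AddCommGroup V] [Module F2 V] [DecidableEq V] [FiniteDimensional F2 V]
      (K : Submodule F2 V) (S C X0 : Finset V) (g : Fin N → V) (q : Fin N → Fin N → V),
      IsQ K S C g q → ¬ HasO m K S → QSmall S q X0 → lam K S X0 ≤ 3 →
      (∀ X1, X0 ⊆ X1 → QSmall S q X1 → 3 ≤ lam K S X1) →
      ∃ (F B : Finset V) (f : Fin n → V), F ⊆ S \ X0 ∧ B ⊆ S \ X0 ∧
        hat K (X0 : Set V) ⊓ hat K (F : Set V) = K ∧ IsClique (hat K (F : Set V)) f B ∧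
        finrank F2 (hat K (F : Set V)) + 3 ≤
          finrank F2 ↥(hat (hat K (F : Set V)) (X0 : Set V) ⊓ hat (hat K (F : Set V)) (B : Set V)) := by
  obtain ⟨Nc, hNc⟩ := rt_clique m n hm
  refine ⟨max 11 Nc, ?_⟩
  intro N hN V _ _ _ _ K S C X0 g q h hO hX0 hl hmin
  have hN11 : 11 ≤ N := (le_max_left _ _).trans hN
  have hNNc : Nc ≤ N := (le_max_right _ _).trans hN
  obtain ⟨F1, S1, C1, Xm, hF1, hS1, hX0S1, hF1K, hQ1, hmin1, hXm0, hXms, hXml, hcov⟩ :=
    rt_min h hN11 hX0 hl hmin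
  have hO1 : ¬ HasO m (hat K (F1 : Set V)) S1 := fun hh =>
    hO (hh.mono (hF1.trans sdiff_subset) hS1)
  obtain ⟨f, B, ι, hcl, hB, hι, hqB⟩ :=
    hNc N hNNc V (hat K (F1 : Set V)) S1 C1 Xm g q hQ1 hO1 hXms hXml hcov
  have hBS1 : B ⊆ S1 := hB.trans sdiff_subset
  have hBXm : ∀ x ∈ B, x ∉ Xm := fun x hx => (mem_sdiff.1 (hB hx)).2
  have hX0B : X0 ⊆ S1 \ B := fun x hx =>
    mem_sdiff.2 ⟨hX0S1 hx, fun hxB => hBXm x hxB (hXm0 hx)⟩
  obtain ⟨F2, hF2, h1, h2, h3⟩ := linking (hat K (F1 : Set V))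
    (hat (hat K (F1 : Set V)) (B : Set V)) (le_hat _ _) (S1 \ B) X0 hX0B 3 (by
      intro Y hY0 hYS
      have hYS1 : Y ⊆ S1 := hYS.trans sdiff_subset
      have hYB : ∀ x ∈ B, x ∉ Y := fun x hx hxY => (mem_sdiff.1 (hYS hxY)).2 hx
      have e1 : hat (hat K (F1 : Set V)) (((S1 \ B) \ Y : Finset V) : Set V) ⊔
          hat (hat K (F1 : Set V)) (B : Set V) =
          hat (hat K (F1 : Set V)) ((S1 \ Y : Finset V) : Set V) := by
        rw [← hat_union, ← coe_union]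
        congr 2
        ext x
        simp only [mem_union, mem_sdiff]
        constructor
        · rintro (⟨⟨ha, hb⟩, hc⟩ | ha)
          · exact ⟨ha, hc⟩
          · exact ⟨hBS1 ha, hYB x ha⟩
        · rintro ⟨ha, hb⟩
          by_cases hx : x ∈ B
          · exact Or.inr hx
          · exact Or.inl ⟨⟨ha, hx⟩, hb⟩
      rw [e1]
      have h4 := lam_add (hat K (F1 : Set V)) S1 Y
      unfold guts at h4
      by_contra hcon
      have hlam : lam (hat K (F1 : Set V)) S1 Y ≤ 2 := by omega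
      have hsm : QSmall S1 q Y := by
        refine small_of_five hQ1 hYS1 (by omega) (univ.image ι) ?_ ?_
        · rw [card_image_of_injective _ hι, card_univ, Fintype.card_fin]
          exact hn
        · intro i hi j hj hij
          obtain ⟨i', _, rfl⟩ := mem_image.1 hi
          obtain ⟨j', _, rfl⟩ := mem_image.1 hj
          exact hYB _ (hqB i' j' (fun hh => hij (by rw [hh])))
      have := hmin1 Y hY0 hsm
      omega)
  have eF : hat K ((F1 ∪ F2 : Finset V) : Set V) = hat (hat K (F1 : Set V)) (F2 : Set V) := by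
    rw [hat_hat, coe_union]
  refine ⟨F1 ∪ F2, B, f, ?_, ?_, ?_, ?_, ?_⟩
  · refine union_subset hF1 (hF2.trans ?_)
    intro x hx
    rw [mem_sdiff, mem_sdiff] at hx
    exact mem_sdiff.2 ⟨hS1 hx.1.1, hx.2⟩
  · intro x hx
    exact mem_sdiff.2 ⟨hS1 (hBS1 hx), fun hx0 => hBXm x hx (hXm0 hx0)⟩
  · rw [eF]
    apply le_antisymm
    · intro v hv
      have hv1 : v ∈ hat K (F1 : Set V) := by
        rw [← h1]
        exact ⟨hat_mono (le_hat _ _) subset_rfl hv.1, hv.2⟩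
      rw [← hF1K]
      exact ⟨hv.1, hv1⟩
    · exact le_inf (le_hat _ _) ((le_hat K (F1 : Set V)).trans (le_hat _ _))
  · rw [eF]
    exact hcl.mono (le_hat _ _) h2
  · rw [eF]
    have e2 : hat (hat (hat K (F1 : Set V)) (F2 : Set V)) (X0 : Set V) =
        hat (hat K (F1 : Set V)) ((F2 ∪ X0 : Finset V) : Set V) := by
      rw [hat_hat (hat K (F1 : Set V)), coe_union]
    have e3 : hat (hat (hat K (F1 : Set V)) (F2 : Set V)) (B : Set V) =
        hat (hat K (F1 : Set V)) (F2 : Set V) ⊔ hat (hat K (F1 : Set V)) (B : Set V) := by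
      rw [hat_hat (hat K (F1 : Set V)), hat_union]
    rw [e2, e3]
    exact h3

end Pool.Agent.HC
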