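import Pool.Agent.HC.RtDef

/-!
# HC-RtA: ranks in a model

Write `M = hat K' C`. `mR M q X = rk M (mE q X) = dim (hat M (mE q X)) - dim M` (`rk_add`).
* `mR_mono`, `mR_union`: `mE q (X ∪ Y) = mE q X ∪ mE q Y`, `hat_union`, `finrank_sup_add_inf`
  (`M` is contained in the intersection).
* `Mod.span_or`: `i ~ j` iff `g i + g j ∈ hat M (mE q X)` is an equivalence relation
  (`g i + g i = 0`; `g i + g k = (g i + g j) + (g j + g k)`). If it is not everything, there are `a`, `b` with `¬ a ~ b`. If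
  `¬ i ~ j` then `q i j ∉ X` (otherwise `q i j ∈ mE q X` and `Mod.edge`), so `q i j ∈ mE q (E \ X)` and
  `g i + g j ∈ hat M (mE q (E \ X))`. If `i ~ j`, take `k ∈ {a, b}` with `¬ k ~ i`; then also `¬ k ~ j`, and
  `g i + g j = (g i + g k) + (g k + g j)`.
* `Mod.rank_compl`: let `y ∈ mE q (E \ X)`, `y = q i j`; then `y + (g i + g j) ∈ M`, so `y ∈ hat M (mE q X)`, i.e.
  `y + x ∈ M` with `x ∈ span (mE q X) ≤ hat K X`; elements of `M = K' ⊔ span C` are `k' + c1 + c2`, `c1` in the span of
  `C ∩ X`, `c2` in the span of `C \ X`. So `y + c2 = x + k' + c1`; the left side is in `hat K (E \ X)`, and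
  `k' = y + c2 + x + c1 ∈ K' ⊓ hat K E ≤ W`, so `y + c2 ∈ gW K W E X` and `y ∈ M ⊔ gW K W E X`. So
  `hat M (mE q (E \ X)) ≤ M ⊔ gW`, and `dim (M ⊔ gW) ≤ dim M + dim gW - dim K` because `K ≤ M ⊓ gW`.
  `Mod.rank_self` is the same with `y ∈ mE q X`: `y = x' + k' + c1 + c2`, `x'` in the span of `mE q (E \ X)`,
  `y + c1 + k' = x' + c2 ∈ hat K (E \ X)`, `k' ∈ W`, so this vector is in `gW`.
* `Mod.rank_ge`: the `g i + g i0`, `i ∈ I`, `i ≠ i0` (`i0 ∈ I` fixed), are independent modulo `M` (`Mod.ind`; a sum of `k` of them is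
  an even sum of the `g`) and in `hat M (mE q X)`. (Induction on `I` or a linear map to `I → F2`; or: the map from the even
  subsets of `I` to `hat M (mE q X) / M` is injective, and there are `2 ^ (I.card - 1)` even subsets; compare cardinalities
  `2 ^ finrank`.)
* `Mod.cover`: induction on `r`. If no `q i j` (`i ≠ j`) is in `X`: `J = ∅`. Otherwise `q a b ∈ X`; let
  `X'` be the set of the elements of `X` of the form `q i j` with `i, j ∉ {a, b}`, `i ≠ j`; the span of `X'` modulo `M` consists of even sums of `g i`,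
  `i ∉ {a, b}`, so it does not contain `q a b` and `mR M q X' + 1 ≤ mR M q X`. (In particular `1 ≤ r`.) `J = J' ∪ {a, b}`.
-/

namespace Pool.Agent.HC

open Finset Module

variable {V : Type} [AddCommGroup V] [Module F2 V] [DecidableEq V] [FiniteDimensional F2 V]
  {K K' W M : Submodule F2 V} {E C X Y : Finset V} {N : ℕ} {g : Fin N → V}
  {q : Fin N → Fin N → V}

private theorem rtA_mem {x : V} : x ∈ mE q X ↔ x ∈ X ∧ ∃ i j, i ≠ j ∧ x = q i j := by
  simp only [mE, Finset.mem_filter]

private theorem rtA_mono (q : Fin N → Fin N → V) (h : X ⊆ Y) : mE q X ⊆ mE q Y := fun _ hx =>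
  rtA_mem.2 ⟨h (rtA_mem.1 hx).1, (rtA_mem.1 hx).2⟩

private theorem rtA_union (q : Fin N → Fin N → V) (X Y : Finset V) :
    mE q (X ∪ Y) = mE q X ∪ mE q Y := by
  ext x
  rw [Finset.mem_union, rtA_mem, rtA_mem, rtA_mem, Finset.mem_union]
  exact or_and_right

private theorem rtA_rk (M : Submodule F2 V) (q : Fin N → Fin N → V) (X : Finset V) :
    mR M q X + finrank F2 M = finrank F2 (hat M (mE q X : Set V)) := by
  unfold mR
  exact rk_add M _

theorem mR_mono (M : Submodule F2 V) (q : Fin N → Fin N → V) (h : X ⊆ Y) :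
    mR M q X ≤ mR M q Y := by
  have h1 := rtA_rk M q X
  have h2 := rtA_rk M q Y
  have h3 : finrank F2 (hat M (mE q X : Set V)) ≤ finrank F2 (hat M (mE q Y : Set V)) :=
    Submodule.finrank_mono (hat_mono le_rfl (Finset.coe_subset.2 (rtA_mono q h)))
  omega

theorem mR_union (M : Submodule F2 V) (q : Fin N → Fin N → V) (X Y : Finset V) :
    mR M q (X ∪ Y) ≤ mR M q X + mR M q Y := by
  have h1 := rtA_rk M q X
  have h2 := rtA_rk M q Y
  have h3 := rtA_rk M q (X ∪ Y)
  rw [rtA_union, Finset.coe_union, hat_union] at h3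
  have h4 := finrank_sup_add_inf (hat M (mE q X : Set V)) (hat M (mE q Y : Set V))
  have h5 : finrank F2 M ≤
      finrank F2 ↥(hat M (mE q X : Set V) ⊓ hat M (mE q Y : Set V)) :=
    Submodule.finrank_mono (le_inf (le_hat M _) (le_hat M _))
  omega

private theorem rtA_mem_right {L : Submodule F2 V} {x y : V} (h : x + y ∈ L) (hx : x ∈ L) :
    y ∈ L := by
  rw [add_comm] at h
  exact mem_of_add_mem2 h hx

private theorem rtA_edge (h : Mod K' E C g q) {i j : Fin N} (hij : i ≠ j) (hX : q i j ∈ X) :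
    g i + g j ∈ hat (hat K' (C : Set V)) (mE q X : Set V) := by
  refine rtA_mem_right (le_hat _ _ (h.edge i j hij)) (subset_hat _ _ ?_)
  exact Finset.mem_coe.2 (rtA_mem.2 ⟨hX, i, j, hij, rfl⟩)

theorem Mod.span_or (h : Mod K' E C g q) (X : Finset V) :
    (∀ i j, g i + g j ∈ hat (hat K' (C : Set V)) (mE q X : Set V)) ∨
      ∀ i j, g i + g j ∈ hat (hat K' (C : Set V)) (mE q (E \ X) : Set V) := by
  by_cases hall : ∀ i j, g i + g j ∈ hat (hat K' (C : Set V)) (mE q X : Set V)
  · exact Or.inl hall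
  right
  push Not at hall
  obtain ⟨a, b, hab⟩ := hall
  have key : ∀ i j, g i + g j ∉ hat (hat K' (C : Set V)) (mE q X : Set V) →
      g i + g j ∈ hat (hat K' (C : Set V)) (mE q (E \ X) : Set V) := by
    intro i j hij
    have hne : i ≠ j := by
      rintro rfl
      apply hij
      rw [add_self2]
      exact Submodule.zero_mem _
    refine rtA_edge h hne (Finset.mem_sdiff.2 ⟨h.qE i j hne, fun hx => hij ?_⟩)
    exact rtA_edge h hne hx
  have key2 : ∀ k i j, g k + g i ∉ hat (hat K' (C : Set V)) (mE q X : Set V) →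
      g i + g j ∈ hat (hat K' (C : Set V)) (mE q X : Set V) →
      g i + g j ∈ hat (hat K' (C : Set V)) (mE q (E \ X) : Set V) := by
    intro k i j hk hij
    have hk' : g k + g j ∉ hat (hat K' (C : Set V)) (mE q X : Set V) := by
      intro h2
      apply hk
      have e : g k + g i = (g k + g j) + (g i + g j) := by
        have e1 : (g k + g j) + (g i + g j) = (g k + g i) + (g j + g j) := by abel
        rw [e1, add_self2, add_zero]
      rw [e]
      exact Submodule.add_mem _ h2 hij
    have e : g i + g j = (g k + g i) + (g k + g j) := by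
      have e1 : (g k + g i) + (g k + g j) = (g i + g j) + (g k + g k) := by abel
      rw [e1, add_self2, add_zero]
    rw [e]
    exact Submodule.add_mem _ (key k i hk) (key k j hk')
  intro i j
  by_cases hij : g i + g j ∈ hat (hat K' (C : Set V)) (mE q X : Set V)
  · by_cases hai : g a + g i ∈ hat (hat K' (C : Set V)) (mE q X : Set V)
    · refine key2 b i j (fun hbi => hab ?_) hij
      have e : g a + g b = (g a + g i) + (g b + g i) := by
        have e1 : (g a + g i) + (g b + g i) = (g a + g b) + (g i + g i) := by abel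
        rw [e1, add_self2, add_zero]
      rw [e]
      exact Submodule.add_mem _ hai hbi
    · exact key2 a i j hai hij
  · exact key i j hij

/-- an edge of the model on one side, written with the contracted set split in two -/
private theorem rtA_split (h : Mod K' E C g q) (hX : X ⊆ E)
    (hc : K' ⊓ hat K (E : Set V) ≤ W) (hE : Y ⊆ E)
    (hs : ∀ i j, g i + g j ∈ hat (hat K' (C : Set V)) (mE q Y : Set V)) {y : V} (hy : y ∈ E)
    (hy2 : ∃ i j, i ≠ j ∧ y = q i j) :
    ∃ k c1 c2 x : V, k ∈ K' ∧ k ∈ W ∧ c1 ∈ Submodule.span F2 (C : Set V) ∧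
      c2 ∈ Submodule.span F2 (C : Set V) ∧ c1 ∈ Submodule.span F2 (X : Set V) ∧
      c2 ∈ Submodule.span F2 ((E \ X : Finset V) : Set V) ∧
      x ∈ Submodule.span F2 (Y : Set V) ∧ y = k + c1 + c2 + x := by
  obtain ⟨i, j, hij, rfl⟩ := hy2
  have h1 : q i j ∈ hat (hat K' (C : Set V)) (mE q Y : Set V) :=
    mem_of_add_mem2 (le_hat _ _ (h.edge i j hij)) (hs i j)
  obtain ⟨m, hm, x, hx, hmx⟩ := Submodule.mem_sup.1 h1
  obtain ⟨k, hk, c, hcc, hkc⟩ := Submodule.mem_sup.1 hm
  have h2 : (C : Set V) = ((C ∩ X : Finset V) : Set V) ∪ ((C \ X : Finset V) : Set V) := by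
    rw [← Finset.coe_union]
    congr 1
    ext v
    simp only [Finset.mem_union, Finset.mem_inter, Finset.mem_sdiff]
    tauto
  have hcc' := hcc
  rw [h2, Submodule.span_union] at hcc'
  obtain ⟨c1, hc1, c2, hc2, h12⟩ := Submodule.mem_sup.1 hcc'
  have hx' : x ∈ Submodule.span F2 (Y : Set V) :=
    Submodule.span_mono (Finset.coe_subset.2 fun v hv => (rtA_mem.1 hv).1) hx
  have e : q i j = k + c1 + c2 + x := by
    rw [← hmx, ← hkc, ← h12]
    abel
  have hc1X : c1 ∈ Submodule.span F2 (X : Set V) :=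
    Submodule.span_mono (Finset.coe_subset.2 Finset.inter_subset_right) hc1
  have hc2X : c2 ∈ Submodule.span F2 ((E \ X : Finset V) : Set V) :=
    Submodule.span_mono (Finset.coe_subset.2 (Finset.sdiff_subset_sdiff h.CE le_rfl)) hc2
  have hkW : k ∈ W := by
    apply hc
    refine ⟨hk, ?_⟩
    have hsp : ∀ {S : Finset V} {v : V}, S ⊆ E → v ∈ Submodule.span F2 (S : Set V) →
        v ∈ hat K (E : Set V) := fun hS hv =>
      Submodule.mem_sup_right (Submodule.span_mono (Finset.coe_subset.2 hS) hv)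
    have e2 : k + (c1 + c2 + x) = q i j := by
      rw [e]
      abel
    refine mem_of_add_mem2 (y := c1 + c2 + x) ?_ ?_
    · rw [e2]
      exact subset_hat _ _ (Finset.mem_coe.2 hy)
    · exact Submodule.add_mem _ (Submodule.add_mem _ (hsp hX hc1X) (hsp Finset.sdiff_subset hc2X))
        (hsp hE hx')
  exact ⟨k, c1, c2, x, hk, hkW,
    Submodule.span_mono (Finset.coe_subset.2 Finset.inter_subset_left) hc1,
    Submodule.span_mono (Finset.coe_subset.2 Finset.sdiff_subset) hc2, hc1X, hc2X, hx', e⟩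

private theorem rtA_dim (hK : K ≤ K') (hle : hat (hat K' (C : Set V)) (mE q Y : Set V) ≤
      hat K' (C : Set V) ⊔ gW K W E X) :
    mR (hat K' (C : Set V)) q Y + finrank F2 K ≤ finrank F2 (gW K W E X) := by
  have h1 := rtA_rk (hat K' (C : Set V)) q Y
  have h2 := finrank_sup_add_inf (hat K' (C : Set V)) (gW K W E X)
  have h3 : finrank F2 K ≤ finrank F2 ↥(hat K' (C : Set V) ⊓ gW K W E X) := by
    refine Submodule.finrank_mono (le_inf (hK.trans (le_hat _ _)) ?_)
    exact le_inf ((le_hat K _).trans le_sup_left) (le_hat K _)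
  have h4 := Submodule.finrank_mono hle
  omega

theorem Mod.rank_compl (h : Mod K' E C g q) (hK : K ≤ K') (hW : K ≤ W)
    (hc : K' ⊓ hat K (E : Set V) ≤ W) (hX : X ⊆ E)
    (hs : ∀ i j, g i + g j ∈ hat (hat K' (C : Set V)) (mE q X : Set V)) :
    mR (hat K' (C : Set V)) q (E \ X) + finrank F2 K ≤ finrank F2 (gW K W E X) := by
  refine rtA_dim hK (hat_le le_sup_left ?_)
  intro y hy
  obtain ⟨hyE, hy2⟩ := rtA_mem.1 (Finset.mem_coe.1 hy)
  obtain ⟨k, c1, c2, x, hk, hkW, h1, h2, h3, h4, h5, e⟩ :=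
    rtA_split h hX hc hX hs (Finset.mem_sdiff.1 hyE).1 hy2
  have e1 : y + c2 = (c1 + x) + k := by
    rw [e]
    have e2 : k + c1 + c2 + x + c2 = (c1 + x) + k + (c2 + c2) := by abel
    rw [e2, add_self2, add_zero]
  have hg : y + c2 ∈ gW K W E X := by
    refine ⟨?_, ?_⟩
    · rw [e1]
      exact Submodule.add_mem_sup (Submodule.mem_sup_right (Submodule.add_mem _ h3 h5)) hkW
    · exact Submodule.add_mem _ (subset_hat _ _ (Finset.mem_coe.2 hyE))
        (Submodule.mem_sup_right h4)
  exact mem_of_add_mem2 (y := c2) (Submodule.mem_sup_right hg)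
    (Submodule.mem_sup_left (Submodule.mem_sup_right h2))

theorem Mod.rank_self (h : Mod K' E C g q) (hK : K ≤ K') (hW : K ≤ W)
    (hc : K' ⊓ hat K (E : Set V) ≤ W) (hX : X ⊆ E)
    (hs : ∀ i j, g i + g j ∈ hat (hat K' (C : Set V)) (mE q (E \ X) : Set V)) :
    mR (hat K' (C : Set V)) q X + finrank F2 K ≤ finrank F2 (gW K W E X) := by
  refine rtA_dim hK (hat_le le_sup_left ?_)
  intro y hy
  obtain ⟨hyX, hy2⟩ := rtA_mem.1 (Finset.mem_coe.1 hy)
  obtain ⟨k, c1, c2, x, hk, hkW, h1, h2, h3, h4, h5, e⟩ :=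
    rtA_split h hX hc Finset.sdiff_subset hs (hX hyX) hy2
  have e1 : y + (c1 + k) = c2 + x := by
    rw [e]
    have e2 : k + c1 + c2 + x + (c1 + k) = (c2 + x) + (c1 + c1) + (k + k) := by abel
    rw [e2, add_self2, add_self2, add_zero, add_zero]
  have hg : y + (c1 + k) ∈ gW K W E X := by
    refine ⟨?_, ?_⟩
    · rw [← add_assoc]
      exact Submodule.add_mem_sup (Submodule.add_mem _ (subset_hat _ _ (Finset.mem_coe.2 hyX))
        (Submodule.mem_sup_right h3)) hkW
    · rw [e1]
      exact Submodule.mem_sup_right (Submodule.add_mem _ h4 h5)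
  exact mem_of_add_mem2 (y := c1 + k) (Submodule.mem_sup_right hg)
    (Submodule.mem_sup_left (Submodule.add_mem _ (Submodule.mem_sup_right h1)
      (Submodule.mem_sup_left hk)))

private theorem rtA_sum_symmDiff (g : Fin N → V) (A B : Finset (Fin N)) :
    ∑ i ∈ A, g i + ∑ i ∈ B, g i = ∑ i ∈ symmDiff A B, g i := by
  have h1 : symmDiff A B = (A \ B) ∪ (B \ A) := rfl
  have hd : Disjoint (A \ B) (B \ A) := by
    rw [Finset.disjoint_left]
    intro x hx hx'
    exact (Finset.mem_sdiff.1 hx').2 (Finset.mem_sdiff.1 hx).1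
  have h2 : ∑ i ∈ A, g i = ∑ i ∈ A \ B, g i + ∑ i ∈ A ∩ B, g i := by
    rw [add_comm]
    exact (Finset.sum_inter_add_sum_sdiff A B g).symm
  have h3 : ∑ i ∈ B, g i = ∑ i ∈ B \ A, g i + ∑ i ∈ A ∩ B, g i := by
    rw [add_comm, Finset.inter_comm A B]
    exact (Finset.sum_inter_add_sum_sdiff B A g).symm
  rw [h1, Finset.sum_union hd, h2, h3]
  have e : ∑ i ∈ A \ B, g i + ∑ i ∈ A ∩ B, g i + (∑ i ∈ B \ A, g i + ∑ i ∈ A ∩ B, g i) =
      ∑ i ∈ A \ B, g i + ∑ i ∈ B \ A, g i + (∑ i ∈ A ∩ B, g i + ∑ i ∈ A ∩ B, g i) := by abel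
  rw [e, add_self2, add_zero]

private theorem rtA_even {A B : Finset (Fin N)} (hA : Even A.card) (hB : Even B.card) :
    Even (symmDiff A B).card := by
  have h1 : symmDiff A B = (A \ B) ∪ (B \ A) := rfl
  have hd : Disjoint (A \ B) (B \ A) := by
    rw [Finset.disjoint_left]
    intro x hx hx'
    exact (Finset.mem_sdiff.1 hx').2 (Finset.mem_sdiff.1 hx).1
  have h2 := Finset.card_sdiff_add_card_inter A B
  have h3 := Finset.card_sdiff_add_card_inter B A
  rw [Finset.inter_comm B A] at h3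
  rw [h1, Finset.card_union_of_disjoint hd]
  rw [Nat.even_iff] at hA hB ⊢
  omega

/-- the vectors which are, modulo `M`, an even sum of the vertex vectors in `S` -/
private def rtA_ev (M : Submodule F2 V) (g : Fin N → V) (S : Finset (Fin N)) :
    Submodule F2 V where
  carrier := {v | ∃ T ⊆ S, Even T.card ∧ v + ∑ i ∈ T, g i ∈ M}
  zero_mem' := ⟨∅, Finset.empty_subset _, by simp, by simp⟩
  add_mem' := by
    rintro x y ⟨A, hA, hA2, hxA⟩ ⟨B, hB, hB2, hyB⟩
    refine ⟨symmDiff A B, ?_, rtA_even hA2 hB2, ?_⟩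
    · intro i hi
      rcases Finset.mem_symmDiff.1 hi with h | h
      · exact hA h.1
      · exact hB h.1
    · rw [← rtA_sum_symmDiff]
      have e : x + y + (∑ i ∈ A, g i + ∑ i ∈ B, g i) =
          (x + ∑ i ∈ A, g i) + (y + ∑ i ∈ B, g i) := by abel
      rw [e]
      exact M.add_mem hxA hyB
  smul_mem' := by
    rintro c x ⟨A, hA, hA2, hxA⟩
    rcases F2_cases c with rfl | rfl
    · exact ⟨∅, Finset.empty_subset _, by simp, by simp⟩
    · refine ⟨A, hA, hA2, ?_⟩
      rw [one_smul]
      exact hxA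

private theorem rtA_le_ev (M : Submodule F2 V) (g : Fin N → V) (S : Finset (Fin N)) :
    M ≤ rtA_ev M g S := fun v hv => ⟨∅, Finset.empty_subset _, by simp, by simpa using hv⟩

private theorem rtA_pair_ev (M : Submodule F2 V) (g : Fin N → V) {S : Finset (Fin N)}
    {a b : Fin N} (ha : a ∈ S) (hb : b ∈ S) (hab : a ≠ b) : g a + g b ∈ rtA_ev M g S := by
  refine ⟨{a, b}, ?_, ?_, ?_⟩
  · intro x hx
    rcases Finset.mem_insert.1 hx with rfl | hx
    · exact ha
    · rw [Finset.mem_singleton.1 hx]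
      exact hb
  · rw [Finset.card_pair hab]
    exact even_two
  · rw [Finset.sum_pair hab, add_self2]
    exact M.zero_mem

private theorem rtA_not_ev (h : Mod K' E C g q) {S : Finset (Fin N)} {a b : Fin N}
    (ha : a ∉ S) (hab : a ≠ b) : g a + g b ∉ rtA_ev (hat K' (C : Set V)) g S := by
  rintro ⟨T, hT, hT2, hv⟩
  rw [← Finset.sum_pair hab, rtA_sum_symmDiff] at hv
  have h1 := h.ind _ (rtA_even (by rw [Finset.card_pair hab]; exact even_two) hT2) hv
  have h2 : a ∈ symmDiff ({a, b} : Finset (Fin N)) T :=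
    Finset.mem_symmDiff.2 (Or.inl ⟨Finset.mem_insert_self _ _, fun h3 => ha (hT h3)⟩)
  rw [h1] at h2
  exact Finset.notMem_empty _ h2

private theorem rtA_star (h : Mod K' E C g q) (i0 : Fin N) (T : Finset (Fin N)) (hT : i0 ∉ T) :
    finrank F2 (hat K' (C : Set V)) + T.card ≤
      finrank F2 (hat (hat K' (C : Set V)) ((fun i => g i + g i0) '' (T : Set (Fin N)))) := by
  induction T using Finset.induction_on with
  | empty =>
    rw [Finset.card_empty, Finset.coe_empty, Set.image_empty, hat_empty, add_zero]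
  | insert j T hj ih =>
    have hi0T : i0 ∉ T := fun h1 => hT (Finset.mem_insert_of_mem h1)
    have hji : j ≠ i0 := fun h1 => hT (h1 ▸ Finset.mem_insert_self _ _)
    have h1 := ih hi0T
    rw [Finset.card_insert_of_notMem hj, Finset.coe_insert, Set.image_insert_eq]
    have h2 : g j + g i0 ∉
        hat (hat K' (C : Set V)) ((fun i => g i + g i0) '' (T : Set (Fin N))) := by
      intro h3
      have hjS : j ∉ insert i0 T := by
        intro h4
        rcases Finset.mem_insert.1 h4 with h5 | h5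
        · exact hji h5
        · exact hj h5
      refine rtA_not_ev h hjS hji (hat_le (rtA_le_ev _ g _) ?_ h3)
      rintro v ⟨i, hi, rfl⟩
      refine rtA_pair_ev _ g (Finset.mem_insert_of_mem hi) (Finset.mem_insert_self _ _) ?_
      rintro rfl
      exact hi0T hi
    have h3 := finrank_hat_singleton _ _ h2
    rw [hat_hat, Set.union_singleton] at h3
    omega

theorem Mod.rank_ge (h : Mod K' E C g q) (X : Finset V) (I : Finset (Fin N))
    (hI : ∀ i ∈ I, ∀ j ∈ I, i ≠ j → q i j ∈ X) :
    I.card ≤ mR (hat K' (C : Set V)) q X + 1 := by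
  rcases Finset.eq_empty_or_nonempty I with rfl | ⟨i0, hi0⟩
  · simp
  have h1 := rtA_star h i0 (I.erase i0) (Finset.notMem_erase _ _)
  have h2 := rtA_rk (hat K' (C : Set V)) q X
  have h3 : finrank F2 (hat (hat K' (C : Set V))
      ((fun i => g i + g i0) '' ((I.erase i0 : Finset (Fin N)) : Set (Fin N)))) ≤
      finrank F2 (hat (hat K' (C : Set V)) (mE q X : Set V)) := by
    refine Submodule.finrank_mono (hat_le (le_hat _ _) ?_)
    rintro v ⟨i, hi, rfl⟩
    have hi' := Finset.mem_erase.1 (Finset.mem_coe.1 hi)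
    exact rtA_edge h hi'.1 (hI i hi'.2 i0 hi0 hi'.1)
  have h4 := Finset.card_erase_add_one hi0
  omega

theorem Mod.cover (h : Mod K' E C g q) (r : ℕ) (X : Finset V)
    (hr : mR (hat K' (C : Set V)) q X ≤ r) :
    ∃ J : Finset (Fin N), J.card ≤ 2 * r ∧ ∀ i j, i ≠ j → q i j ∈ X → i ∈ J ∨ j ∈ J := by
  classical
  have key : ∀ (X : Finset V) (a b : Fin N), a ≠ b → q a b ∈ X →
      mR (hat K' (C : Set V)) q (X.filter (fun x => ∃ i j, i ≠ j ∧ i ∉ ({a, b} : Finset (Fin N)) ∧
        j ∉ ({a, b} : Finset (Fin N)) ∧ x = q i j)) + 1 ≤ mR (hat K' (C : Set V)) q X := by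
    intro X a b hab hX
    set X' := X.filter (fun x => ∃ i j, i ≠ j ∧ i ∉ ({a, b} : Finset (Fin N)) ∧
        j ∉ ({a, b} : Finset (Fin N)) ∧ x = q i j) with hX'
    have h1 := rtA_rk (hat K' (C : Set V)) q X
    have h2 := rtA_rk (hat K' (C : Set V)) q X'
    have h3 : hat (hat K' (C : Set V)) (mE q X' : Set V) ≤
        rtA_ev (hat K' (C : Set V)) g ({a, b}ᶜ : Finset (Fin N)) := by
      refine hat_le (rtA_le_ev _ g _) ?_
      intro x hx
      have hx1 := (rtA_mem.1 (Finset.mem_coe.1 hx)).1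
      rw [hX', Finset.mem_filter] at hx1
      obtain ⟨_, i, j, hij, hi, hj, rfl⟩ := hx1
      exact mem_of_add_mem2 (rtA_le_ev _ g _ (h.edge i j hij))
        (rtA_pair_ev _ g (Finset.mem_compl.2 hi) (Finset.mem_compl.2 hj) hij)
    have h4 : hat (hat K' (C : Set V)) (mE q X' : Set V) <
        hat (hat K' (C : Set V)) (mE q X : Set V) := by
      refine lt_of_le_of_ne (hat_mono le_rfl (Finset.coe_subset.2
        (rtA_mono q (Finset.filter_subset _ _)))) fun h5 => ?_
      have h6 : g a + g b ∈ hat (hat K' (C : Set V)) (mE q X : Set V) := rtA_edge h hab hX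
      rw [← h5] at h6
      refine rtA_not_ev h (S := ({a, b}ᶜ : Finset (Fin N))) (fun h7 => ?_) hab (h3 h6)
      exact (Finset.mem_compl.1 h7) (Finset.mem_insert_self _ _)
    have h5 := Submodule.finrank_lt_finrank_of_lt h4
    omega
  induction r generalizing X with
  | zero =>
    refine ⟨∅, by simp, fun i j hij hX => ?_⟩
    have h1 := key X i j hij hX
    omega
  | succ r ih =>
    by_cases hex : ∃ a b, a ≠ b ∧ q a b ∈ X
    · obtain ⟨a, b, hab, hX⟩ := hex
      have h1 := key X a b hab hX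
      obtain ⟨J, hJ, hJ2⟩ := ih (X.filter (fun x => ∃ i j, i ≠ j ∧
        i ∉ ({a, b} : Finset (Fin N)) ∧ j ∉ ({a, b} : Finset (Fin N)) ∧ x = q i j)) (by omega)
      refine ⟨insert a (insert b J), ?_, fun i j hij hX2 => ?_⟩
      · have h2 := Finset.card_insert_le a (insert b J)
        have h3 := Finset.card_insert_le b J
        omega
      · by_cases hi : i ∈ ({a, b} : Finset (Fin N))
        · left
          rcases Finset.mem_insert.1 hi with rfl | hi
          · exact Finset.mem_insert_self _ _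
          · rw [Finset.mem_singleton.1 hi]
            exact Finset.mem_insert_of_mem (Finset.mem_insert_self _ _)
        · by_cases hj : j ∈ ({a, b} : Finset (Fin N))
          · right
            rcases Finset.mem_insert.1 hj with rfl | hj
            · exact Finset.mem_insert_self _ _
            · rw [Finset.mem_singleton.1 hj]
              exact Finset.mem_insert_of_mem (Finset.mem_insert_self _ _)
          · rcases hJ2 i j hij (Finset.mem_filter.2 ⟨hX2, i, j, hij, hi, hj, rfl⟩) with h2 | h2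
            · exact Or.inl (Finset.mem_insert_of_mem (Finset.mem_insert_of_mem h2))
            · exact Or.inr (Finset.mem_insert_of_mem (Finset.mem_insert_of_mem h2))
    · push Not at hex
      exact ⟨∅, by simp, fun i j hij hX => absurd hX (hex i j hij)⟩

end Pool.Agent.HC
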