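import Pool.Agent.HC.RtA

/-!
# HC-RtB: the largest small set of order three

The dimension of `gW K W E X` is submodular in `X`; so the small sets of order three are closed
under unions.
-/

namespace Pool.Agent.HC

open Finset Module

variable {V : Type} [AddCommGroup V] [Module F2 V] [DecidableEq V] [FiniteDimensional F2 V]
  {K K' W : Submodule F2 V} {E C X Y : Finset V} {N : ℕ} {g : Fin N → V}
  {q : Fin N → Fin N → V}

theorem gW_dim (K W : Submodule F2 V) (hX : X ⊆ E) :
    finrank F2 (gW K W E X) + finrank F2 ↥(hat K (E : Set V) ⊔ W) =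
      finrank F2 ↥(hat K (X : Set V) ⊔ W) + finrank F2 (hat K ((E \ X : Finset V) : Set V)) := by
  have h1 := finrank_sup_add_inf (hat K (X : Set V) ⊔ W) (hat K ((E \ X : Finset V) : Set V))
  have h2 : hat K (X : Set V) ⊔ W ⊔ hat K ((E \ X : Finset V) : Set V) =
      hat K (E : Set V) ⊔ W := by
    have h3 : (E : Set V) = (X : Set V) ∪ ((E \ X : Finset V) : Set V) := by
      rw [← coe_union, union_sdiff_of_subset hX]
    rw [h3, hat_union, sup_right_comm]
  rw [h2] at h1
  unfold gW
  omega

omit [DecidableEq V] in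
private theorem rtb_mod (A B C D : Submodule F2 V) (h1 : C ≤ A ⊔ B) (h2 : D ≤ A ⊓ B) :
    finrank F2 C + finrank F2 D ≤ finrank F2 A + finrank F2 B := by
  have h3 := finrank_sup_add_inf A B
  have h4 := Submodule.finrank_mono h1
  have h5 := Submodule.finrank_mono h2
  omega

theorem gW_submod (K W : Submodule F2 V) (hX : X ⊆ E) (hY : Y ⊆ E) :
    finrank F2 (gW K W E (X ∪ Y)) + finrank F2 (gW K W E (X ∩ Y)) ≤
      finrank F2 (gW K W E X) + finrank F2 (gW K W E Y) := by
  have h1 := gW_dim K W hX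
  have h2 := gW_dim K W hY
  have h3 := gW_dim K W (union_subset hX hY)
  have h4 := gW_dim K W ((inter_subset_left (s₁ := X) (s₂ := Y)).trans hX)
  have h5 : finrank F2 ↥(hat K ((X ∪ Y : Finset V) : Set V) ⊔ W) +
      finrank F2 ↥(hat K ((X ∩ Y : Finset V) : Set V) ⊔ W) ≤
      finrank F2 ↥(hat K (X : Set V) ⊔ W) + finrank F2 ↥(hat K (Y : Set V) ⊔ W) := by
    refine rtb_mod _ _ _ _ ?_ ?_
    · rw [coe_union, hat_union]
      exact sup_le (sup_le (le_sup_of_le_left le_sup_left) (le_sup_of_le_right le_sup_left))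
        (le_sup_of_le_left le_sup_right)
    · refine le_inf (sup_le_sup_right (hat_mono le_rfl ?_) _)
        (sup_le_sup_right (hat_mono le_rfl ?_) _)
      · exact coe_subset.2 inter_subset_left
      · exact coe_subset.2 inter_subset_right
  have h6 : finrank F2 (hat K ((E \ (X ∩ Y) : Finset V) : Set V)) +
      finrank F2 (hat K ((E \ (X ∪ Y) : Finset V) : Set V)) ≤
      finrank F2 (hat K ((E \ X : Finset V) : Set V)) +
        finrank F2 (hat K ((E \ Y : Finset V) : Set V)) := by
    refine rtb_mod _ _ _ _ ?_ ?_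
    · rw [← hat_union, ← coe_union]
      refine hat_mono le_rfl (coe_subset.2 ?_)
      intro y hy
      simp only [mem_sdiff, mem_inter, mem_union] at hy ⊢
      tauto
    · refine le_inf (hat_mono le_rfl (coe_subset.2 ?_)) (hat_mono le_rfl (coe_subset.2 ?_))
      · exact sdiff_subset_sdiff le_rfl subset_union_left
      · exact sdiff_subset_sdiff le_rfl subset_union_right
  omega

/-- a set of order at most three, or its complement, is small -/
theorem Mod.small_or (h : Mod K' E C g q) (hK : K ≤ K') (hW : K ≤ W)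
    (hc : K' ⊓ hat K (E : Set V) ≤ W) (hX : X ⊆ E)
    (ho : finrank F2 (gW K W E X) ≤ finrank F2 K + 3) :
    mR (hat K' (C : Set V)) q X ≤ 3 ∨ mR (hat K' (C : Set V)) q (E \ X) ≤ 3 := by
  rcases h.span_or X with hs | hs
  · right
    have := h.rank_compl hK hW hc hX hs
    omega
  · left
    have := h.rank_self hK hW hc hX hs
    omega

theorem Mod.small_compl (h : Mod K' E C g q) (hX : X ⊆ E) :
    N ≤ mR (hat K' (C : Set V)) q X + mR (hat K' (C : Set V)) q (E \ X) + 1 := by
  have h1 := h.rank_ge E univ fun i _ j _ hij => h.qE i j hij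
  rw [card_univ, Fintype.card_fin] at h1
  have h2 := mR_union (hat K' (C : Set V)) q X (E \ X)
  rw [union_sdiff_of_subset hX] at h2
  omega

omit [DecidableEq V] [FiniteDimensional F2 V] in
private theorem rtb_empty (M : Submodule F2 V) (q : Fin N → Fin N → V) : mR M q ∅ = 0 := by
  unfold mR mE rk
  rw [filter_empty, coe_empty, hat_empty, Nat.sub_self]

theorem RootH.exists_Z (h : RootH K K' W E C g q) (hN : 11 ≤ N) :
    ∃ Z, RootZ K K' W E C q Z := by
  classical
  have hun : ∀ X Y : Finset V, X ⊆ E → mR (hat K' (C : Set V)) q X ≤ 3 →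
      finrank F2 (gW K W E X) ≤ finrank F2 K + 3 → Y ⊆ E →
      mR (hat K' (C : Set V)) q Y ≤ 3 → finrank F2 (gW K W E Y) ≤ finrank F2 K + 3 →
      mR (hat K' (C : Set V)) q (X ∪ Y) ≤ 3 ∧
        finrank F2 (gW K W E (X ∪ Y)) ≤ finrank F2 K + 3 := by
    intro X Y hX hX3 hXo hY hY3 hYo
    have h1 : mR (hat K' (C : Set V)) q (X ∩ Y) ≤ 3 :=
      (mR_mono _ q inter_subset_left).trans hX3
    have h2 := h.link (X ∩ Y) (inter_subset_left.trans hX) h1
    have h3 := gW_submod (E := E) K W hX hY
    have h4 : finrank F2 (gW K W E (X ∪ Y)) ≤ finrank F2 K + 3 := by omega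
    refine ⟨?_, h4⟩
    rcases h.mod.small_or h.KK h.KW h.cap (union_subset hX hY) h4 with h5 | h5
    · exact h5
    · exfalso
      have h6 := h.mod.small_compl (union_subset hX hY)
      have h7 := mR_union (hat K' (C : Set V)) q X Y
      omega
  obtain ⟨Z, hZ, hmax⟩ := Finset.exists_max_image
    (E.powerset.filter (fun X => mR (hat K' (C : Set V)) q X ≤ 3 ∧
      finrank F2 (gW K W E X) ≤ finrank F2 K + 3)) Finset.card ⟨∅, by
      rw [mem_filter, mem_powerset]
      refine ⟨empty_subset _, ?_, ?_⟩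
      · rw [rtb_empty]
        omega
      · rw [← h.dim]
        refine Submodule.finrank_mono (inf_le_left.trans ?_)
        rw [coe_empty, hat_empty]
        exact sup_le h.KW le_rfl⟩
  rw [mem_filter, mem_powerset] at hZ
  refine ⟨Z, hZ.1, hZ.2.1, hZ.2.2, ?_⟩
  intro X hX hX3 hXo
  obtain ⟨h1, h2⟩ := hun Z X hZ.1 hZ.2.1 hZ.2.2 hX hX3 hXo
  have h3 := hmax (Z ∪ X) (by
    rw [mem_filter, mem_powerset]
    exact ⟨union_subset hZ.1 hX, h1, h2⟩)
  have h4 : Z = Z ∪ X := Finset.eq_of_subset_of_card_le subset_union_left h3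
  rw [h4]
  exact subset_union_right

end Pool.Agent.HC
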