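import Pool.Agent.HC.RtDef

/-!
# HC-RtC: contraction of an element of `C` outside `Z`

If `d ∈ C` is not in the largest small set `Z` of order three, then `d` is not spanned by `Z` and `W`
modulo `K`, and the hypothesis of the rooting theorem survives the contraction of `d`.
-/

namespace Pool.Agent.HC

open Finset Module

variable {V : Type} [AddCommGroup V] [Module F2 V] [DecidableEq V] [FiniteDimensional F2 V]
  {K K' W : Submodule F2 V} {E C Z : Finset V} {N : ℕ} {g : Fin N → V}
  {q : Fin N → Fin N → V}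

omit [AddCommGroup V] [Module F2 V] [DecidableEq V] [FiniteDimensional F2 V] in
private theorem mem_mE {X : Finset V} {x : V} :
    x ∈ mE q X ↔ x ∈ X ∧ ∃ i j, i ≠ j ∧ x = q i j := by
  classical
  unfold mE
  rw [Finset.mem_filter]

omit [AddCommGroup V] [Module F2 V] [DecidableEq V] [FiniteDimensional F2 V] in
private theorem mE_mono {X Y : Finset V} (h : X ⊆ Y) : mE q X ⊆ mE q Y := by
  intro x hx
  rw [mem_mE] at hx ⊢
  exact ⟨h hx.1, hx.2⟩

omit [DecidableEq V] in
private theorem mR_mono (M : Submodule F2 V) {X Y : Finset V} (h : X ⊆ Y) :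
    mR M q X ≤ mR M q Y := by
  unfold mR rk
  refine Nat.sub_le_sub_right (Submodule.finrank_mono (hat_mono le_rfl ?_)) _
  exact Finset.coe_subset.2 (mE_mono h)

omit [FiniteDimensional F2 V] in
private theorem ne_q (h : Mod K' E C g q) {d : V} (hd : d ∈ C) {i j : Fin N} (hij : i ≠ j) :
    d ≠ q i j := by
  intro hdq
  have h1 : q i j ∈ hat K' (C : Set V) := hdq ▸ subset_hat K' _ (Finset.mem_coe.2 hd)
  have h2 : g i + g j ∈ hat K' (C : Set V) := by
    have h3 := h.edge i j hij
    rw [add_comm] at h3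
    exact mem_of_add_mem2 h3 h1
  have h4 := h.ind {i, j} (by rw [Finset.card_pair hij]; exact even_two)
    (by rw [Finset.sum_pair hij]; exact h2)
  exact absurd h4 (Finset.insert_ne_empty i {j})

omit [FiniteDimensional F2 V] in
private theorem mE_insert (h : Mod K' E C g q) {d : V} (hd : d ∈ C) (X : Finset V) :
    mE q (insert d X) = mE q X := by
  apply Finset.Subset.antisymm
  · intro x hx
    rw [mem_mE] at hx ⊢
    obtain ⟨hx1, i, j, hij, hx2⟩ := hx
    refine ⟨?_, i, j, hij, hx2⟩
    rcases Finset.mem_insert.1 hx1 with h1 | h1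
    · exact absurd (h1.symm.trans hx2) (ne_q h hd hij)
    · exact h1
  · exact mE_mono (Finset.subset_insert d X)

theorem RootH.notMem (h : RootH K K' W E C g q) (hZ : RootZ K K' W E C q Z) {d : V}
    (hd : d ∈ C) (hdZ : d ∉ Z) : d ∉ hat K (Z : Set V) ⊔ W := by
  intro hdW
  have h1 : insert d Z ⊆ Z := by
    refine hZ.max (insert d Z) (Finset.insert_subset (h.mod.CE hd) hZ.ZE) ?_ ?_
    · unfold mR
      rw [mE_insert h.mod hd]
      exact hZ.small
    · refine (Submodule.finrank_mono ?_).trans hZ.ord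
      unfold gW
      refine inf_le_inf ?_ (hat_mono le_rfl ?_)
      · refine sup_le (hat_le ((le_hat K _).trans le_sup_left) ?_) le_sup_right
        intro x hx
        rw [Finset.coe_insert] at hx
        rcases Set.mem_insert_iff.1 hx with rfl | hx
        · exact hdW
        · exact Submodule.mem_sup_left (subset_hat K _ hx)
      · exact Finset.coe_subset.2
          (Finset.sdiff_subset_sdiff (Finset.Subset.refl E) (Finset.subset_insert d Z))
  exact hdZ (h1 (Finset.mem_insert_self d Z))

theorem RootH.contract (h : RootH K K' W E C g q) (hZ : RootZ K K' W E C q Z) {d : V}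
    (hd : d ∈ C) (hdZ : d ∉ Z) :
    RootH (hat K {d}) (hat K' {d}) (W ⊔ hat K {d}) E (C.erase d) g q := by
  have hdE : d ∈ E := h.mod.CE hd
  have hn := h.notMem hZ hd hdZ
  have hdW : d ∉ W := fun h1 => hn (Submodule.mem_sup_right h1)
  have hdK : d ∉ K := fun h1 => hdW (h.KW h1)
  have hfK := finrank_hat_singleton K d hdK
  have hfW := finrank_hat_singleton W d hdW
  have hWd : W ⊔ hat K {d} = hat W {d} := by
    unfold hat
    rw [← sup_assoc, sup_eq_left.2 h.KW]
  have hC : hat (hat K' {d}) ((C.erase d : Finset V) : Set V) = hat K' (C : Set V) := by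
    rw [hat_hat, Set.singleton_union, ← Finset.coe_insert, Finset.insert_erase hd]
  have hdX : ∀ L : Submodule F2 V, d ∈ hat L ({d} : Set V) := fun L =>
    subset_hat L _ (Set.mem_singleton d)
  refine ⟨⟨(Finset.erase_subset d C).trans h.mod.CE, ?_, h.mod.qE, h.mod.symm, ?_⟩,
    hat_mono h.KK (Set.Subset.refl _), le_sup_right, ?_, ?_, ?_⟩
  · rw [hC]
    exact h.mod.ind
  · rw [hC]
    exact h.mod.edge
  · rintro v ⟨hv1, hv2⟩
    have hv3 : v ∈ hat K (E : Set V) := by
      have h1 : hat (hat K {d}) (E : Set V) ≤ hat K (E : Set V) := by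
        refine hat_le (hat_le (le_hat K _) ?_) (subset_hat K _)
        exact Set.singleton_subset_iff.2 (subset_hat K _ (Finset.mem_coe.2 hdE))
      exact h1 hv2
    have hdE' : d ∈ hat K (E : Set V) := subset_hat K _ (Finset.mem_coe.2 hdE)
    rcases (mem_hat_singleton K' d v).1 hv1 with h1 | h1
    · exact Submodule.mem_sup_left (h.cap ⟨h1, hv3⟩)
    · have h2 : v + d ∈ W := h.cap ⟨h1, Submodule.add_mem _ hv3 hdE'⟩
      exact mem_of_add_mem2 (Submodule.mem_sup_left h2) (Submodule.mem_sup_right (hdX K))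
  · rw [hWd, hfW, hfK, h.dim]
  · intro X hX hXs
    rw [hC] at hXs
    have hX0 : X.erase d ⊆ E := (Finset.erase_subset d X).trans hX
    have hs0 : mR (hat K' (C : Set V)) q (X.erase d) ≤ 3 :=
      (mR_mono _ (Finset.erase_subset d X)).trans hXs
    have hl0 := h.link (X.erase d) hX0 hs0
    have hle : gW K W E (X.erase d) ≤ gW (hat K {d}) (W ⊔ hat K {d}) E X := by
      unfold gW
      refine inf_le_inf (sup_le_sup (hat_mono (le_hat K _) ?_) le_sup_left) ?_
      · exact Finset.coe_subset.2 (Finset.erase_subset d X)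
      · refine hat_le ((le_hat K _).trans (le_hat _ _)) ?_
        intro x hx
        have hx' := Finset.mem_sdiff.1 (Finset.mem_coe.1 hx)
        by_cases hxd : x = d
        · rw [hxd]
          exact le_hat _ _ (hdX K)
        · refine subset_hat _ _ (Finset.mem_coe.2 (Finset.mem_sdiff.2 ⟨hx'.1, fun hxX => ?_⟩))
          exact hx'.2 (Finset.mem_erase.2 ⟨hxd, hxX⟩)
    have hdg : d ∈ gW (hat K {d}) (W ⊔ hat K {d}) E X := by
      refine Submodule.mem_inf.2 ⟨?_, ?_⟩
      · exact Submodule.mem_sup_left (le_hat _ _ (hdX K))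
      · exact le_hat _ _ (hdX K)
    rw [hfK]
    by_cases hdm : d ∈ gW K W E (X.erase d)
    · have h1 : ¬ (X.erase d ⊆ Z) := by
        intro hXZ
        have h2 : d ∈ hat K ((X.erase d : Finset V) : Set V) ⊔ W := (Submodule.mem_inf.1 hdm).1
        exact hn ((sup_le_sup_right (hat_mono le_rfl (Finset.coe_subset.2 hXZ)) W) h2)
      have h3 : ¬ (finrank F2 (gW K W E (X.erase d)) ≤ finrank F2 K + 3) := fun h4 =>
        h1 (hZ.max _ hX0 hs0 h4)
      have h5 := Submodule.finrank_mono hle
      omega
    · have h1 := finrank_hat_singleton _ d hdm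
      have h2 : hat (gW K W E (X.erase d)) {d} ≤ gW (hat K {d}) (W ⊔ hat K {d}) E X :=
        hat_le hle (Set.singleton_subset_iff.2 hdg)
      have h3 := Submodule.finrank_mono h2
      omega

end Pool.Agent.HC
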