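import Pool.Agent.HC.BasB
import Pool.Agent.HC.Gr6

/-!
# Rooted cliques: definitions

`RootH` is the hypothesis of the rooting theorem (level two): a model `(C, g, q)` of a complete graph on
`N` vertices in `(K, E)`, relative to a subspace `K'`, and a subspace `W` of dimension three modulo `K`
which is not separated from the model by a small set.
-/

namespace Pool.Agent.HC

open Finset Module

/-- a model of the complete graph on `N` vertices in `E`, relative to the subspace `K'`: modulo
`hat K' C` the elements `q i j` are the edges of the complete graph with the vertex vectors `g` -/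
structure Mod {V : Type} [AddCommGroup V] [Module F2 V] [DecidableEq V] (K' : Submodule F2 V)
    (E C : Finset V) {N : ℕ} (g : Fin N → V) (q : Fin N → Fin N → V) : Prop where
  CE : C ⊆ E
  ind : ∀ T : Finset (Fin N), Even T.card → ∑ i ∈ T, g i ∈ hat K' (C : Set V) → T = ∅
  qE : ∀ i j, i ≠ j → q i j ∈ E
  symm : ∀ i j, q i j = q j i
  edge : ∀ i j, i ≠ j → q i j + (g i + g j) ∈ hat K' (C : Set V)

/-- the edges of the model in `X` -/
noncomputable def mE {V : Type} {N : ℕ} (q : Fin N → Fin N → V) (X : Finset V) : Finset V := by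
  classical exact X.filter (fun x => ∃ i j, i ≠ j ∧ x = q i j)

/-- the rank of the edges of the model in `X`, modulo `M` -/
noncomputable def mR {V : Type} [AddCommGroup V] [Module F2 V] (M : Submodule F2 V) {N : ℕ}
    (q : Fin N → Fin N → V) (X : Finset V) : ℕ := rk M (mE q X : Set V)

/-- the guts of `X ∪ W` in `(K, E ∪ W)` -/
def gW {V : Type} [AddCommGroup V] [Module F2 V] [DecidableEq V] (K W : Submodule F2 V)
    (E X : Finset V) : Submodule F2 V :=
  (hat K (X : Set V) ⊔ W) ⊓ hat K ((E \ X : Finset V) : Set V)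

/-- the hypothesis of the rooting theorem -/
structure RootH {V : Type} [AddCommGroup V] [Module F2 V] [DecidableEq V]
    (K K' W : Submodule F2 V) (E C : Finset V) {N : ℕ} (g : Fin N → V)
    (q : Fin N → Fin N → V) : Prop where
  mod : Mod K' E C g q
  KK : K ≤ K'
  KW : K ≤ W
  cap : K' ⊓ hat K (E : Set V) ≤ W
  dim : finrank F2 W = finrank F2 K + 3
  link : ∀ X ⊆ E, mR (hat K' (C : Set V)) q X ≤ 3 → finrank F2 K + 3 ≤ finrank F2 (gW K W E X)

/-- the largest small set of order three -/
structure RootZ {V : Type} [AddCommGroup V] [Module F2 V] [DecidableEq V]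
    (K K' W : Submodule F2 V) (E C : Finset V) {N : ℕ}
    (q : Fin N → Fin N → V) (Z : Finset V) : Prop where
  ZE : Z ⊆ E
  small : mR (hat K' (C : Set V)) q Z ≤ 3
  ord : finrank F2 (gW K W E Z) ≤ finrank F2 K + 3
  max : ∀ X ⊆ E, mR (hat K' (C : Set V)) q X ≤ 3 → finrank F2 (gW K W E X) ≤ finrank F2 K + 3 →
    X ⊆ Z

/-- a rooted clique: a minor of `(K, E)` which is a clique on `n` vertices whose span contains `W`,
and `W` is not changed by the contraction -/
def RootIn {V : Type} [AddCommGroup V] [Module F2 V] [DecidableEq V] (n : ℕ)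
    (K : Submodule F2 V) (E : Finset V) (W : Submodule F2 V) : Prop :=
  ∃ (F B : Finset V) (f : Fin n → V), F ⊆ E ∧ B ⊆ E ∧ IsClique (hat K (F : Set V)) f B ∧
    W ⊓ hat K (F : Set V) = K ∧ W ≤ hat K ((F ∪ B : Finset V) : Set V)

end Pool.Agent.HC
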