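import Pool.Agent.HC.RtDef

/-!
# HC-RtE: an all odd clique; the excluded minor and smaller cliques

`hasO_of_odd`: the indices `2 * p`, `2 * p + 1` (`p < m`) are paired. Let `y i j ∈ S` be an element with
`y i j + (b i + b j + t) ∈ K`. `F := {y (2p) (2p+1) : p < m} ∪ {y 0 2}`, `f p := b (2 * p)`, the four vertices `0, 1, 2, 3`.
Modulo `hat K F`: `b (2p+1) = b (2p) + t`, `t = b 0 + b 2 = f 0 + f 1`. `y (2p) (2q+1)`, `p ≠ q`, is in the class of
`b (2p) + b (2q+1) + t = f p + f q`; `y 4 6` is in the class of `b 4 + b 6 + t = f 2 + f 3 + f 0 + f 1`. Independence: let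
`∑ p ∈ T, b (2p) ∈ hat K F`; by `mem_hat_iff` it is, modulo `K`, the sum of the elements of a subset of `F`, that is
`∑ p ∈ P, (b (2p) + b (2p+1) + t) + ε • (b 0 + b 2 + t)`; compare the coefficients (`hind`): the coefficient of `b (2p+1)` is zero
for all `p`, so `P = ∅`; then the coefficient of `t` is `ε = 0`, and `T = ∅`. (It may be convenient to work with coefficient functions
`Fin (2 * m) → F2` instead of finsets: `hind` says that `b` and `t` are linearly independent modulo `K`.)
`HasO.le`: restrict `f` to a set of `m` vertices containing the four: an injection `Fin m → Fin m'` with the four vertices in the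
range.
`exists_sep`: `dim (T / K) ≤ r`: a linear map on `V` which vanishes on `K` and is injective on `T / K` (for instance the quotient map
followed by coordinates; extend linear maps from subspaces by `LinearMap.exists_extend`).
-/

namespace Pool.Agent.HC

open Finset Module

variable {V : Type} [AddCommGroup V] [Module F2 V] [DecidableEq V]

omit [DecidableEq V] in
private theorem sum_filter_one {ι : Type} [Fintype ι] (x : ι → F2) (b : ι → V) :
    ∑ i ∈ Finset.univ.filter (fun i => x i = 1), b i = ∑ i, x i • b i := by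
  classical
  rw [Finset.sum_filter]
  refine Finset.sum_congr rfl fun i _ => ?_
  rcases F2_cases (x i) with h | h
  · rw [h, zero_smul, if_neg (by decide)]
  · rw [h, one_smul, if_pos rfl]

omit [DecidableEq V] in
private theorem ind_aux {m : ℕ} {K : Submodule F2 V} (b : Fin (2 * m) → V) (t : V)
    (hind : ∀ (T : Finset (Fin (2 * m))) (ε : F2), ∑ i ∈ T, b i + ε • t ∈ K → T = ∅ ∧ ε = 0)
    (α β : Fin m → F2) (ε : F2)
    (h : ∑ p, α p • b (finProdFinEquiv ((0 : Fin 2), p)) +
      ∑ p, β p • b (finProdFinEquiv ((1 : Fin 2), p)) + ε • t ∈ K) :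
    (∀ p, α p = 0) ∧ (∀ p, β p = 0) ∧ ε = 0 := by
  classical
  set x : Fin (2 * m) → F2 := fun i =>
    if (finProdFinEquiv.symm i : Fin 2 × Fin m).1 = 0 then
      α (finProdFinEquiv.symm i : Fin 2 × Fin m).2
    else β (finProdFinEquiv.symm i : Fin 2 × Fin m).2 with hx
  have hx0 : ∀ p, x (finProdFinEquiv ((0 : Fin 2), p)) = α p := by
    intro p
    simp only [hx, Equiv.symm_apply_apply, if_true]
  have hx1 : ∀ p, x (finProdFinEquiv ((1 : Fin 2), p)) = β p := by
    intro p
    simp only [hx, Equiv.symm_apply_apply]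
    rw [if_neg (by decide)]
  have hs : ∑ i, x i • b i = ∑ p, α p • b (finProdFinEquiv ((0 : Fin 2), p)) +
      ∑ p, β p • b (finProdFinEquiv ((1 : Fin 2), p)) := by
    rw [← (finProdFinEquiv (m := 2) (n := m)).sum_comp, Fintype.sum_prod_type,
      Fin.sum_univ_two]
    congr 1
    · exact Finset.sum_congr rfl fun p _ => by rw [hx0]
    · exact Finset.sum_congr rfl fun p _ => by rw [hx1]
  rw [← hs, ← sum_filter_one] at h
  obtain ⟨h1, h2⟩ := hind _ _ h
  have h3 : ∀ i, x i = 0 := by
    intro i
    rcases F2_cases (x i) with h4 | h4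
    · exact h4
    · have h5 : i ∈ Finset.univ.filter (fun i => x i = 1) := by
        rw [Finset.mem_filter]
        exact ⟨Finset.mem_univ _, h4⟩
      rw [h1] at h5
      exact absurd h5 (Finset.notMem_empty _)
  refine ⟨fun p => ?_, fun p => ?_, h2⟩
  · rw [← hx0 p, h3]
  · rw [← hx1 p, h3]

theorem hasO_of_odd {m : ℕ} (hm : 4 ≤ m) {K : Submodule F2 V} {S : Finset V}
    (b : Fin (2 * m) → V) (t : V)
    (hind : ∀ (T : Finset (Fin (2 * m))) (ε : F2), ∑ i ∈ T, b i + ε • t ∈ K → T = ∅ ∧ ε = 0)
    (hS : ∀ i j, i ≠ j → ∃ y ∈ S, y + (b i + b j + t) ∈ K) : HasO m K S := by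
  classical
  choose! y hyS hyK using hS
  set E : Fin 2 × Fin m ≃ Fin (2 * m) := finProdFinEquiv with hE
  set u : Fin m → V := fun p => b (E (0, p)) with hu
  set w : Fin m → V := fun p => b (E (1, p)) with hw
  have hne : ∀ p q : Fin m, E (0, p) ≠ E (1, q) := by
    intro p q h
    have h1 : (0 : Fin 2) = 1 := congrArg Prod.fst (E.injective h)
    exact absurd h1 (by decide)
  have hne0 : ∀ p q : Fin m, p ≠ q → E (0, p) ≠ E (0, q) := by
    intro p q hpq h
    exact hpq (congrArg Prod.snd (E.injective h))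
  have i0 : 0 < m := by omega
  have i1 : 1 < m := by omega
  have i2 : 2 < m := by omega
  have i3 : 3 < m := by omega
  set c0 : Fin m := ⟨0, i0⟩ with hc0
  set c1 : Fin m := ⟨1, i1⟩ with hc1
  set c2 : Fin m := ⟨2, i2⟩ with hc2
  set c3 : Fin m := ⟨3, i3⟩ with hc3
  have h01 : c0 ≠ c1 := by simp [hc0, hc1]
  have h02 : c0 ≠ c2 := by simp [hc0, hc2]
  have h03 : c0 ≠ c3 := by simp [hc0, hc3]
  have h12 : c1 ≠ c2 := by simp [hc1, hc2]
  have h13 : c1 ≠ c3 := by simp [hc1, hc3]
  have h23 : c2 ≠ c3 := by simp [hc2, hc3]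
  set Y : Fin m → V := fun p => y (E (0, p)) (E (1, p)) with hY
  set z : V := y (E (0, c0)) (E (0, c1)) with hz
  have hYK : ∀ p, Y p + (u p + w p + t) ∈ K := fun p => hyK _ _ (hne p p)
  have hzK : z + (u c0 + u c1 + t) ∈ K := hyK _ _ (hne0 _ _ h01)
  set F : Finset V := insert z (Finset.univ.image Y) with hF
  have hzF : z ∈ F := Finset.mem_insert_self _ _
  have hYF : ∀ p, Y p ∈ F := fun p =>
    Finset.mem_insert_of_mem (Finset.mem_image_of_mem _ (Finset.mem_univ p))
  refine ⟨F, u, c0, c1, c2, c3, ?_, ?_, ?_, h01, h02, h03, h12, h13, h23, ?_⟩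
  · intro v hv
    rw [hF, Finset.mem_insert, Finset.mem_image] at hv
    rcases hv with rfl | ⟨p, -, rfl⟩
    · exact hyS _ _ (hne0 _ _ h01)
    · exact hyS _ _ (hne p p)
  · intro T _ hT
    have hL : ∀ v ∈ hat K (F : Set V), ∃ (c : Fin m → F2) (ε : F2),
        v + (∑ p, c p • (u p + w p + t) + ε • (u c0 + u c1 + t)) ∈ K := by
      set Ψ : (Fin m → F2) × F2 →ₗ[F2] V :=
        { toFun := fun x => ∑ p, x.1 p • (u p + w p + t) + x.2 • (u c0 + u c1 + t)
          map_add' := by
            intro x x'
            simp only [Prod.fst_add, Prod.snd_add, Pi.add_apply, add_smul,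
              Finset.sum_add_distrib]
            abel
          map_smul' := by
            intro r x
            simp only [Prod.smul_fst, Prod.smul_snd, Pi.smul_apply, smul_eq_mul, mul_smul,
              RingHom.id_apply, smul_add, Finset.smul_sum] } with hΨ
      have h1 : hat K (F : Set V) ≤ K ⊔ LinearMap.range Ψ := by
        refine hat_le le_sup_left ?_
        intro v hv
        rw [Finset.mem_coe, hF, Finset.mem_insert, Finset.mem_image] at hv
        rcases hv with rfl | ⟨p, -, rfl⟩
        · have h2 : Ψ (0, 1) = u c0 + u c1 + t := by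
            simp [hΨ]
          have h3 : z = (z + (u c0 + u c1 + t)) + Ψ (0, 1) := by
            rw [h2, add_assoc, add_self2, add_zero]
          rw [h3]
          exact Submodule.add_mem _ (Submodule.mem_sup_left hzK)
            (Submodule.mem_sup_right (LinearMap.mem_range_self _ _))
        · have h2 : Ψ (Pi.single p 1, 0) = u p + w p + t := by
            simp only [hΨ, LinearMap.coe_mk, AddHom.coe_mk, zero_smul, add_zero]
            rw [Finset.sum_eq_single p]
            · rw [Pi.single_eq_same, one_smul]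
            · intro q _ hq
              rw [Pi.single_eq_of_ne hq, zero_smul]
            · intro h
              exact absurd (Finset.mem_univ _) h
          have h3 : Y p = (Y p + (u p + w p + t)) + Ψ (Pi.single p 1, 0) := by
            rw [h2, add_assoc, add_self2, add_zero]
          rw [h3]
          exact Submodule.add_mem _ (Submodule.mem_sup_left (hYK p))
            (Submodule.mem_sup_right (LinearMap.mem_range_self _ _))
      intro v hv
      obtain ⟨k, hk, r, ⟨x, rfl⟩, rfl⟩ := Submodule.mem_sup.1 (h1 hv)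
      refine ⟨x.1, x.2, ?_⟩
      have h2 : (∑ p, x.1 p • (u p + w p + t) + x.2 • (u c0 + u c1 + t)) = Ψ x := rfl
      rw [h2, add_assoc, add_self2, add_zero]
      exact hk
    obtain ⟨c, ε, hc⟩ := hL _ hT
    set τ : Fin m → F2 := fun p => if p ∈ T then 1 else 0 with hτ
    have hTs : ∑ i ∈ T, u i = ∑ p, τ p • u p := by
      rw [← Finset.sum_subset (Finset.subset_univ T)]
      · refine Finset.sum_congr rfl fun p hp => ?_
        simp only [hτ, if_pos hp, one_smul]
      · intro p _ hp
        simp only [hτ, if_neg hp, zero_smul]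
    have h0 : ∑ p, (ε * ((if p = c0 then 1 else 0) + (if p = c1 then 1 else 0))) • u p =
        ε • (u c0 + u c1) := by
      simp only [mul_add, add_smul, Finset.sum_add_distrib, mul_ite, mul_one, mul_zero, ite_smul,
        zero_smul, Finset.sum_ite_eq', Finset.mem_univ, if_true, smul_add]
    have h1 := ind_aux b t hind
      (fun p => τ p + c p + ε * ((if p = c0 then 1 else 0) + (if p = c1 then 1 else 0)))
      c (∑ p, c p + ε) (by
        have h2 : ∑ p, (τ p + c p + ε * ((if p = c0 then 1 else 0) +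
            (if p = c1 then 1 else 0))) • u p + ∑ p, c p • w p + (∑ p, c p + ε) • t =
            ∑ i ∈ T, u i + (∑ p, c p • (u p + w p + t) + ε • (u c0 + u c1 + t)) := by
          rw [hTs]
          simp only [add_smul, Finset.sum_add_distrib, smul_add, Finset.sum_smul] at h0 ⊢
          rw [h0]
          abel
        rw [← h2] at hc
        exact hc)
    obtain ⟨h2, h3, h4⟩ := h1
    have h5 : ε = 0 := by
      have : ∑ p, c p = 0 := Finset.sum_eq_zero fun p _ => h3 p
      rw [this, zero_add] at h4
      exact h4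
    refine Finset.eq_empty_of_forall_notMem fun p hp => ?_
    have h6 := h2 p
    simp only [h5, h3 p, zero_mul, add_zero, hτ, if_pos hp] at h6
    exact absurd h6 (by decide)
  · intro p q hpq
    refine ⟨y (E (0, p)) (E (1, q)), hyS _ _ (hne p q), ?_⟩
    have h1 : y (E (0, p)) (E (1, q)) + (u p + w q + t) ∈ K := hyK _ _ (hne p q)
    have h2 := hYK q
    have h3 : y (E (0, p)) (E (1, q)) + (u p + u q) =
        (y (E (0, p)) (E (1, q)) + (u p + w q + t)) + (Y q + (u q + w q + t)) + Y q
          - (w q + w q) - (t + t) - (Y q + Y q) := by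
      abel
    rw [h3, add_self2, add_self2, add_self2, sub_zero, sub_zero, sub_zero]
    exact Submodule.add_mem _ (Submodule.add_mem _ (le_hat K _ h1) (le_hat K _ h2))
      (subset_hat K _ (Finset.mem_coe.2 (hYF q)))
  · refine ⟨y (E (0, c2)) (E (0, c3)), hyS _ _ (hne0 _ _ h23), ?_⟩
    have h1 : y (E (0, c2)) (E (0, c3)) + (u c2 + u c3 + t) ∈ K := hyK _ _ (hne0 _ _ h23)
    have h3 : y (E (0, c2)) (E (0, c3)) + (u c0 + u c1 + u c2 + u c3) =
        (y (E (0, c2)) (E (0, c3)) + (u c2 + u c3 + t)) + (z + (u c0 + u c1 + t)) + z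
          - (t + t) - (z + z) := by
      abel
    rw [h3, add_self2, add_self2, sub_zero, sub_zero]
    exact Submodule.add_mem _ (Submodule.add_mem _ (le_hat K _ h1) (le_hat K _ hzK))
      (subset_hat K _ (Finset.mem_coe.2 hzF))

theorem HasO.le {m m' : ℕ} (hm : 4 ≤ m) (hmm : m ≤ m') {K : Submodule F2 V} {S : Finset V}
    (h : HasO m' K S) : HasO m K S := by
  classical
  obtain ⟨F, f, a, b, c, d, hF, hind, hed, hab, hac, had, hbc, hbd, hcd, hx⟩ := h
  obtain ⟨U, hU1, -, hU2⟩ := Finset.exists_subsuperset_card_eq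
    (s := ({a, b, c, d} : Finset (Fin m'))) (t := Finset.univ) (n := m)
    (Finset.subset_univ _) ((Finset.card_le_four).trans hm) (by simpa using hmm)
  set g := U.orderEmbOfFin hU2 with hg
  have hrange : ∀ v ∈ U, ∃ i, g i = v := by
    intro v hv
    have h1 : v ∈ Set.range g := by
      rw [hg, Finset.range_orderEmbOfFin]
      exact hv
    exact h1
  obtain ⟨a', ha'⟩ := hrange a (hU1 (by simp))
  obtain ⟨b', hb'⟩ := hrange b (hU1 (by simp))
  obtain ⟨c', hc'⟩ := hrange c (hU1 (by simp))
  obtain ⟨d', hd'⟩ := hrange d (hU1 (by simp))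
  refine ⟨F, fun i => f (g i), a', b', c', d', hF, ?_, ?_, ?_, ?_, ?_, ?_, ?_, ?_, ?_⟩
  · intro T hT hs
    have h1 : ∑ i ∈ T, f (g i) = ∑ j ∈ T.map g.toEmbedding, f j := by
      rw [Finset.sum_map]
      rfl
    rw [h1] at hs
    have h2 := hind _ (by rwa [Finset.card_map]) hs
    exact Finset.map_eq_empty.1 h2
  · intro i j hij
    exact hed _ _ (fun h => hij (g.injective h))
  · rintro rfl
    exact hab (ha'.symm.trans hb')
  · rintro rfl
    exact hac (ha'.symm.trans hc')
  · rintro rfl
    exact had (ha'.symm.trans hd')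
  · rintro rfl
    exact hbc (hb'.symm.trans hc')
  · rintro rfl
    exact hbd (hb'.symm.trans hd')
  · rintro rfl
    exact hcd (hc'.symm.trans hd')
  · obtain ⟨x, hxS, hxK⟩ := hx
    refine ⟨x, hxS, ?_⟩
    simp only [ha', hb', hc', hd']
    exact hxK

theorem exists_sep [FiniteDimensional F2 V] {K T : Submodule F2 V} (hKT : K ≤ T) (r : ℕ)
    (h : finrank F2 T ≤ finrank F2 K + r) :
    ∃ c : V →ₗ[F2] (Fin r → F2), (∀ v ∈ K, c v = 0) ∧ ∀ v ∈ T, c v = 0 → v ∈ K := by
  classical
  set T' : Submodule F2 (V ⧸ K) := T.map K.mkQ with hT'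
  have hfr : finrank F2 T' ≤ r := by
    have h1 := LinearMap.finrank_range_add_finrank_ker (K.mkQ.domRestrict T)
    have h2 : LinearMap.range (K.mkQ.domRestrict T) = T' := by
      rw [hT', LinearMap.range_domRestrict]
    have h3 : LinearMap.ker (K.mkQ.domRestrict T) = Submodule.comap T.subtype K := by
      ext v
      simp [LinearMap.domRestrict_apply]
    rw [h2, h3, (Submodule.comapSubtypeEquivOfLe hKT).finrank_eq] at h1
    omega
  set n := finrank F2 T' with hn
  set e : T' ≃ₗ[F2] (Fin n → F2) := (Module.finBasis F2 T').equivFun with he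
  set j : (Fin n → F2) →ₗ[F2] (Fin r → F2) :=
    { toFun := fun x i => if h : i.1 < n then x ⟨i.1, h⟩ else 0
      map_add' := by
        intro x x'
        funext i
        by_cases h : i.1 < n
        · simp [h]
        · simp [h]
      map_smul' := by
        intro c x
        funext i
        by_cases h : i.1 < n
        · simp [h]
        · simp [h] } with hj
  have hjinj : ∀ x, j x = 0 → x = 0 := by
    intro x hx
    funext i
    have h1 := congrFun hx ⟨i.1, lt_of_lt_of_le i.2 hfr⟩
    simpa [hj] using h1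
  obtain ⟨g, hg⟩ := LinearMap.exists_extend (j.comp e.toLinearMap)
  refine ⟨g.comp K.mkQ, fun v hv => ?_, fun v hv hcv => ?_⟩
  · rw [LinearMap.comp_apply, Submodule.mkQ_apply, (Submodule.Quotient.mk_eq_zero K).2 hv,
      map_zero]
  · have h1 : K.mkQ v ∈ T' := Submodule.mem_map_of_mem hv
    have h2 : g (K.mkQ v) = j (e ⟨K.mkQ v, h1⟩) := by
      have h3 := LinearMap.congr_fun hg ⟨K.mkQ v, h1⟩
      exact h3
    rw [LinearMap.comp_apply, h2] at hcv
    have h3 := hjinj _ hcv
    have h4 : (⟨K.mkQ v, h1⟩ : T') = 0 := by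
      exact (map_eq_zero_iff e e.injective).1 h3
    have h5 : K.mkQ v = 0 := congrArg Subtype.val h4
    exact (Submodule.Quotient.mk_eq_zero K).1 h5

end Pool.Agent.HC
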