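import Pool.Agent.HC.RtA
import Pool.Agent.HC.RtE
import Pool.Agent.Helper37.NR

/-!
# HC-RtF: a clique or an all odd clique

`M = hat K' C`, `T = gW K W E Z`, `K ≤ T`, `dim T ≤ dim K + 3`; `exists_sep` with `r = 3` gives
`c : V →ₗ (Fin 3 → F2)`. `Pool.Agent.Helper37.NR.ramsey_pairs q v` with `q = 8` colours (`Fin 3 → F2` has 8 elements, choose a bijection
with `Fin 8`) and `v = n + 2 * m` gives `R`; `N0 = R + 7`.
`Mod.cover` for `Z` and `r = 3`: `J` with at most six elements; the complement of `J` in `Fin N` has at least `R + 1` elements; pick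
`o ∉ J` and an injection `e0 : Fin R → Fin N` with values outside `J ∪ {o}`. For `i ≠ l` outside `J` (`o` included) `q i l ∉ Z`, so
`q i l ∈ E \ Z`. Put `t i l = q o i + q o l + q i l`. It is in `hat K (E \ Z)` and in `M` (`Mod.edge`, the `g` cancel):
`t i l = k' + z`, `k' ∈ K'`, `z ∈ span C ≤ hat K Z` (`C ⊆ Z`); `k' ∈ hat K E`, so `k' ∈ W` by `cap`, and `t i l ∈ T`.
Ramsey for the colouring `c (t i l)` (symmetric, because `q` is): an injection `e : Fin (n + 2 * m) → Fin N` with values outside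
`J ∪ {o}` and `c (t (e x) (e y))` constant for `x ≠ y`. So `t (e x) (e y) + τ ∈ K` for all `x ≠ y`, `τ := t (e 0) (e 1)` (differences are
in `T` and killed by `c`). `τ ∈ M`.
Put `b x = q o (e x)`. Modulo `M` it is `g o + g (e x)`. If `∑ x ∈ A, b x + ε • τ ∈ K` then `∑ x ∈ A, (g o + g (e x)) ∈ M`; this is
`∑` of `g` over the image of `A`, together with `o` if `A.card` is odd: an even set; so `A = ∅` (`Mod.ind`). Then `ε • τ ∈ K`.
Case `τ ∉ K`: `hasO_of_odd` for `b` restricted to `2 * m` indices: `b x + b y + τ + q (e x) (e y) = t + τ ∈ K`.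
Case `τ ∈ K`: the first `n` indices: `f x = b x`, `B` the set of the `q (e x) (e y)`, `x ≠ y`: `IsClique`:
`q (e x) (e y) + (f x + f y) = t ∈ K`; `ind` as above; `uniq`: two elements of `B` with `b + b' ∈ K`: modulo `M` the pairs of indices have the same
sum of `g`, so they are the same pair, and `q` is symmetric. `5 ≤ n` and `Mod.rank_ge` give `4 ≤ mR B`.
-/

namespace Pool.Agent.HC

open Finset Module

private theorem rtf_t {V : Type} [AddCommGroup V] [Module F2 V] (M : Submodule F2 V)
    (x y z a b c : V) (hx : x + (a + b) ∈ M) (hy : y + (a + c) ∈ M) (hz : z + (b + c) ∈ M) :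
    x + y + z ∈ M := by
  have h := M.add_mem (M.add_mem hx hy) hz
  have e : x + (a + b) + (y + (a + c)) + (z + (b + c)) =
      x + y + z + (a + a) + (b + b) + (c + c) := by abel
  rw [e, add_self2, add_self2, add_self2, add_zero, add_zero, add_zero] at h
  exact h

private theorem rtf_ind {V : Type} [AddCommGroup V] [Module F2 V] [DecidableEq V]
    {K' : Submodule F2 V} {E C : Finset V} {N : ℕ} {g : Fin N → V} {q : Fin N → Fin N → V}
    (h : Mod K' E C g q) {ι : Type} [DecidableEq ι] (e : ι → Fin N) (he : Function.Injective e)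
    (o : Fin N) (ho : ∀ x, e x ≠ o) (A : Finset ι)
    (hA : ∑ x ∈ A, q o (e x) ∈ hat K' (C : Set V)) : A = ∅ := by
  classical
  have h1 : ∑ x ∈ A, (q o (e x) + (g o + g (e x))) ∈ hat K' (C : Set V) :=
    Submodule.sum_mem _ fun x _ => h.edge o (e x) (ho x).symm
  rw [Finset.sum_add_distrib] at h1
  have h2 := (Submodule.add_mem_iff_right _ hA).1 h1
  rw [Finset.sum_add_distrib, Finset.sum_const] at h2
  have hcard : (A.map ⟨e, he⟩).card = A.card := Finset.card_map _
  have hsum : ∑ i ∈ A.map ⟨e, he⟩, g i = ∑ x ∈ A, g (e x) := by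
    rw [Finset.sum_map]
    rfl
  rcases Nat.even_or_odd A.card with hev | hodd
  · obtain ⟨k, hk⟩ := hev
    have h3 : A.card • g o = 0 := by
      rw [hk, add_smul, add_self2]
    rw [h3, zero_add, ← hsum] at h2
    have h4 := h.ind _ (by rw [hcard]; exact ⟨k, hk⟩) h2
    rw [Finset.map_eq_empty] at h4
    exact h4
  · obtain ⟨k, hk⟩ := hodd
    have h3 : A.card • g o = g o := by
      rw [hk, add_smul, mul_smul, two_smul, add_self2, zero_add, one_smul]
    have hno : o ∉ A.map ⟨e, he⟩ := by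
      intro hmem
      obtain ⟨x, _, hx⟩ := Finset.mem_map.1 hmem
      exact ho x hx
    rw [h3, ← hsum, ← Finset.sum_insert hno] at h2
    have h4 := h.ind _ (by
      rw [Finset.card_insert_of_notMem hno, hcard, hk]
      exact ⟨k + 1, by ring⟩) h2
    exact absurd h4 (Finset.insert_ne_empty _ _)

theorem clique_or_odd (m n : ℕ) (hm : 4 ≤ m) (hn : 5 ≤ n) : ∃ N0 : ℕ, ∀ (V : Type)
    [AddCommGroup V] [Module F2 V] [DecidableEq V] [FiniteDimensional F2 V]
    (K K' W : Submodule F2 V) (E C Z : Finset V) (N : ℕ) (g : Fin N → V)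
    (q : Fin N → Fin N → V), N0 ≤ N → RootH K K' W E C g q → Z ⊆ E →
    mR (hat K' (C : Set V)) q Z ≤ 3 → finrank F2 (gW K W E Z) ≤ finrank F2 K + 3 → C ⊆ Z →
    HasO m K E ∨ ∃ (f : Fin n → V) (B : Finset V), B ⊆ E ∧ IsClique K f B ∧
      4 ≤ mR (hat K' (C : Set V)) q B := by
  obtain ⟨R, hR⟩ := Pool.Agent.Helper37.NR.ramsey_pairs 8 (n + 2 * m)
  refine ⟨R + 7, ?_⟩
  intro V _ _ _ _ K K' W E C Z N g q hN hr hZE hZ3 hT hCZ
  classical
  have hmod := hr.mod
  set M : Submodule F2 V := hat K' (C : Set V) with hM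
  set T : Submodule F2 V := gW K W E Z with hTdef
  have hKT : K ≤ T := le_inf ((le_hat _ _).trans le_sup_left) (le_hat _ _)
  have hKM : K ≤ M := hr.KK.trans (le_hat _ _)
  obtain ⟨c, hcK, hcT⟩ := exists_sep hKT 3 hT
  obtain ⟨J, hJ, hJc⟩ := hmod.cover 3 Z hZ3
  have hcard : R + 1 ≤ (Jᶜ).card := by
    have := Finset.card_compl J
    rw [Fintype.card_fin] at this
    omega
  have hne : (Jᶜ).Nonempty := Finset.card_pos.1 (by omega)
  obtain ⟨o, ho⟩ := hne
  have hcard2 : R ≤ ((Jᶜ).erase o).card := by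
    rw [Finset.card_erase_of_mem ho]
    omega
  let e0 : Fin R ↪o Fin N := Finset.orderEmbOfCardLe _ hcard2
  have he0 : ∀ x, e0 x ≠ o ∧ e0 x ∉ J := by
    intro x
    have := Finset.orderEmbOfCardLe_mem _ hcard2 x
    rw [Finset.mem_erase, Finset.mem_compl] at this
    exact this
  rw [Finset.mem_compl] at ho
  have hq : ∀ i l, i ≠ l → i ∉ J → l ∉ J → q i l ∈ E \ Z := by
    intro i l hil hi hl
    rw [Finset.mem_sdiff]
    refine ⟨hmod.qE i l hil, fun hz => ?_⟩
    rcases hJc i l hil hz with h | h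
    · exact hi h
    · exact hl h
  let t : Fin N → Fin N → V := fun i l => q o i + q o l + q i l
  have htdef : ∀ i l, t i l = q o i + q o l + q i l := fun _ _ => rfl
  have htM : ∀ i l, i ≠ o → l ≠ o → i ≠ l → t i l ∈ M := by
    intro i l hi hl hil
    exact rtf_t M _ _ _ (g o) (g i) (g l) (hmod.edge o i hi.symm) (hmod.edge o l hl.symm)
      (hmod.edge i l hil)
  have htT : ∀ i l, i ≠ o → l ≠ o → i ≠ l → i ∉ J → l ∉ J → t i l ∈ T := by
    intro i l hi hl hil hiJ hlJ
    have h1 : t i l ∈ hat K ((E \ Z : Finset V) : Set V) := by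
      refine Submodule.add_mem _ (Submodule.add_mem _ ?_ ?_) ?_
      · exact subset_hat _ _ (Finset.mem_coe.2 (hq o i hi.symm ho hiJ))
      · exact subset_hat _ _ (Finset.mem_coe.2 (hq o l hl.symm ho hlJ))
      · exact subset_hat _ _ (Finset.mem_coe.2 (hq i l hil hiJ hlJ))
    refine ⟨?_, h1⟩
    obtain ⟨k', hk', z, hz, hkz⟩ := Submodule.mem_sup.1 (htM i l hi hl hil)
    have hz2 : z ∈ hat K (Z : Set V) := by
      have : Submodule.span F2 (C : Set V) ≤ hat K (Z : Set V) :=
        Submodule.span_le.2 ((Finset.coe_subset.2 hCZ).trans (subset_hat _ _))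
      exact this hz
    have hk2 : k' ∈ hat K (E : Set V) := by
      have h2 : t i l ∈ hat K (E : Set V) :=
        hat_mono le_rfl (Finset.coe_subset.2 Finset.sdiff_subset) h1
      have h3 : z ∈ hat K (E : Set V) := hat_mono le_rfl (Finset.coe_subset.2 hZE) hz2
      rw [← hkz] at h2
      exact mem_of_add_mem2 h2 h3
    have hkW : k' ∈ W := hr.cap ⟨hk', hk2⟩
    rw [← hkz]
    exact Submodule.add_mem _ (Submodule.mem_sup_right hkW) (Submodule.mem_sup_left hz2)
  have hc8 : Fintype.card (Fin 3 → F2) = 8 := by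
    rw [Fintype.card_fun, Fintype.card_fin, ZMod.card]
    norm_num
  let eq8 : (Fin 3 → F2) ≃ Fin 8 := Fintype.equivFinOfCardEq hc8
  obtain ⟨e1, c0, he1, hc0⟩ := hR fun x y => eq8 (c (t (e0 x) (e0 y)))
  let e : Fin (n + 2 * m) → Fin N := fun x => e0 (e1 x)
  have hedef : ∀ x, e x = e0 (e1 x) := fun _ => rfl
  have heinj : Function.Injective e := fun x y h => he1 (e0.injective h)
  have heo : ∀ x, e x ≠ o := fun x => (he0 _).1
  have heJ : ∀ x, e x ∉ J := fun x => (he0 _).2
  have hcol : ∀ x y, x ≠ y → c (t (e x) (e y)) = eq8.symm c0 := by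
    intro x y hxy
    rcases lt_or_gt_of_ne hxy with h | h
    · rw [← hc0 x y h, Equiv.symm_apply_apply]
    · have h1 : t (e x) (e y) = t (e y) (e x) := by
        rw [htdef, htdef, hmod.symm (e x) (e y)]
        abel
      rw [h1, ← hc0 y x h, Equiv.symm_apply_apply]
  let x0 : Fin (n + 2 * m) := ⟨0, by omega⟩
  let x1 : Fin (n + 2 * m) := ⟨1, by omega⟩
  have hx01 : x0 ≠ x1 := by
    intro h
    have := congrArg Fin.val h
    simp [x0, x1] at this
  set τ : V := t (e x0) (e x1) with hτ
  have hee : ∀ x y, x ≠ y → e x ≠ e y := fun x y h h' => h (heinj h')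
  have htT' : ∀ x y, x ≠ y → t (e x) (e y) ∈ T := fun x y h =>
    htT _ _ (heo x) (heo y) (hee x y h) (heJ x) (heJ y)
  have hτM : τ ∈ M := htM _ _ (heo _) (heo _) (hee _ _ hx01)
  have htK : ∀ x y, x ≠ y → t (e x) (e y) + τ ∈ K := by
    intro x y hxy
    apply hcT _ (T.add_mem (htT' x y hxy) (htT' _ _ hx01))
    rw [map_add, hcol x y hxy, hcol _ _ hx01]
    exact add_self2 _
  have hind : ∀ (A : Finset (Fin (n + 2 * m))) (ε : F2),
      ∑ x ∈ A, q o (e x) + ε • τ ∈ K → A = ∅ := by
    intro A ε hA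
    apply rtf_ind hmod e heinj o heo
    exact (Submodule.add_mem_iff_left _ (M.smul_mem ε hτM)).1 (hKM hA)
  by_cases hτK : τ ∈ K
  · right
    let ι : Fin n → Fin (n + 2 * m) := Fin.castAdd (2 * m)
    have hι : Function.Injective ι := Fin.castAdd_injective n (2 * m)
    have hιne : ∀ x y, x ≠ y → ι x ≠ ι y := fun x y h h' => h (hι h')
    let B : Finset V := ((Finset.univ : Finset (Fin n × Fin n)).filter fun p => p.1 ≠ p.2).image
      fun p => q (e (ι p.1)) (e (ι p.2))
    have hB : ∀ y, y ∈ B ↔ ∃ i j : Fin n, i ≠ j ∧ y = q (e (ι i)) (e (ι j)) := by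
      intro y
      constructor
      · intro hy
        obtain ⟨p, hp, rfl⟩ := Finset.mem_image.1 hy
        exact ⟨p.1, p.2, (Finset.mem_filter.1 hp).2, rfl⟩
      · rintro ⟨i, j, hij, rfl⟩
        exact Finset.mem_image.2 ⟨(i, j), Finset.mem_filter.2 ⟨Finset.mem_univ _, hij⟩, rfl⟩
    let f : Fin n → V := fun x => q o (e (ι x))
    have hfe : ∀ i j : Fin n, i ≠ j → q (e (ι i)) (e (ι j)) + (f i + f j) ∈ K := by
      intro i j hij
      have h1 := htK (ι i) (ι j) (hιne i j hij)
      have h2 := mem_of_add_mem2 h1 hτK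
      have h3 : q (e (ι i)) (e (ι j)) + (f i + f j) = t (e (ι i)) (e (ι j)) := by
        rw [htdef]
        simp only [f]
        abel
      rw [h3]
      exact h2
    have hfind : ∀ A : Finset (Fin n), ∑ x ∈ A, f x ∈ K → A = ∅ := by
      intro A hA
      have h1 := hind (A.map ⟨ι, hι⟩) 0 (by
        rw [Finset.sum_map, zero_smul, add_zero]
        exact hA)
      rw [Finset.map_eq_empty] at h1
      exact h1
    have hf2 : ∀ i j : Fin n, f i + f j ∈ K → i = j := by
      intro i j h
      by_contra hij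
      have := hfind {i, j} (by rw [Finset.sum_pair hij]; exact h)
      simp at this
    refine ⟨f, B, ?_, ⟨?_, ?_, ?_, ?_⟩, ?_⟩
    · intro y hy
      obtain ⟨i, j, hij, rfl⟩ := (hB y).1 hy
      exact hmod.qE _ _ (hee _ _ (hιne i j hij))
    · intro A _ hA
      exact hfind A hA
    · intro i j hij
      exact ⟨_, (hB _).2 ⟨i, j, hij, rfl⟩, hfe i j hij⟩
    · intro y hy
      obtain ⟨i, j, hij, rfl⟩ := (hB y).1 hy
      exact ⟨i, j, hij, hfe i j hij⟩
    · intro y hy y' hy' hyy
      obtain ⟨i, j, hij, rfl⟩ := (hB y).1 hy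
      obtain ⟨k, l, hkl, rfl⟩ := (hB y').1 hy'
      have h1 : f i + f j + (f k + f l) ∈ K := by
        have h2 := K.add_mem (K.add_mem (hfe i j hij) (hfe k l hkl)) hyy
        have h3 : q (e (ι i)) (e (ι j)) + (f i + f j) + (q (e (ι k)) (e (ι l)) + (f k + f l)) +
            (q (e (ι i)) (e (ι j)) + q (e (ι k)) (e (ι l))) = f i + f j + (f k + f l) +
            (q (e (ι i)) (e (ι j)) + q (e (ι i)) (e (ι j))) +
            (q (e (ι k)) (e (ι l)) + q (e (ι k)) (e (ι l))) := by abel
        rw [h3, add_self2, add_self2, add_zero, add_zero] at h2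
        exact h2
      by_cases hik : i = k
      · subst hik
        have h4 : f i + f j + (f i + f l) = (f i + f i) + (f j + f l) := by abel
        rw [h4, add_self2, zero_add] at h1
        rw [hf2 _ _ h1]
      by_cases hil : i = l
      · subst hil
        have h4 : f i + f j + (f k + f i) = (f i + f i) + (f j + f k) := by abel
        rw [h4, add_self2, zero_add] at h1
        rw [hf2 _ _ h1]
        exact hmod.symm _ _
      by_cases hjk : j = k
      · subst hjk
        have h4 : f i + f j + (f j + f l) = (f j + f j) + (f i + f l) := by abel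
        rw [h4, add_self2, zero_add] at h1
        exact absurd (hf2 _ _ h1) hil
      by_cases hjl : j = l
      · subst hjl
        have h4 : f i + f j + (f k + f j) = (f j + f j) + (f i + f k) := by abel
        rw [h4, add_self2, zero_add] at h1
        exact absurd (hf2 _ _ h1) hik
      exfalso
      have h5 := hfind {i, j, k, l} (by
        rw [Finset.sum_insert (by simp [hij, hik, hil]), Finset.sum_insert (by simp [hjk, hjl]),
          Finset.sum_pair hkl, ← add_assoc]
        exact h1)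
      exact absurd h5 (Finset.insert_ne_empty _ _)
    · have h1 := hmod.rank_ge B (Finset.univ.map ⟨fun x => e (ι x), heinj.comp hι⟩) (by
        intro i hi j hj hij
        obtain ⟨x, _, rfl⟩ := Finset.mem_map.1 hi
        obtain ⟨y, _, rfl⟩ := Finset.mem_map.1 hj
        refine (hB _).2 ⟨x, y, ?_, rfl⟩
        rintro rfl
        exact hij rfl)
      rw [Finset.card_map, Finset.card_univ, Fintype.card_fin, ← hM] at h1
      omega
  · left
    let ι : Fin (2 * m) → Fin (n + 2 * m) := Fin.natAdd n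
    have hι : Function.Injective ι := Fin.natAdd_injective (2 * m) n
    have hιne : ∀ x y, x ≠ y → ι x ≠ ι y := fun x y h h' => h (hι h')
    refine hasO_of_odd hm (fun x => q o (e (ι x))) τ ?_ ?_
    · intro A ε hA
      have h1 := hind (A.map ⟨ι, hι⟩) ε (by
        rw [Finset.sum_map]
        exact hA)
      rw [Finset.map_eq_empty] at h1
      subst h1
      refine ⟨rfl, ?_⟩
      rw [Finset.sum_empty, zero_add] at hA
      rcases F2_cases ε with h | h
      · exact h
      · rw [h, one_smul] at hA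
        exact absurd hA hτK
    · intro i j hij
      refine ⟨q (e (ι i)) (e (ι j)), hmod.qE _ _ (hee _ _ (hιne i j hij)), ?_⟩
      have h1 := htK (ι i) (ι j) (hιne i j hij)
      have h3 : q (e (ι i)) (e (ι j)) + (q o (e (ι i)) + q o (e (ι j)) + τ) =
          t (e (ι i)) (e (ι j)) + τ := by
        rw [htdef]
        abel
      rw [h3]
      exact h1

end Pool.Agent.HC
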