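import Pool.Agent.HC.RtB
import Pool.Agent.HC.RtC
import Pool.Agent.HC.RtF
import Pool.Agent.HC.Link

/-!
# HC-RtG: the rooting theorems

`root1`: `linking K W hKW E B hBE 3`; for `B ⊆ Y ⊆ E` put `X = E \ Y ⊆ E \ B`: `gW K W E X = (hat K X ⊔ W) ⊓ hat K Y` (`E \ X = Y`), so `ht`
is `h` with the two sides of the intersection exchanged. Get `F ⊆ E \ B` with `hat K B ⊓ hat K F = K`, `W ⊓ hat K F = K` and
`dim (hat K F) + 3 ≤ dim (hat K (F ∪ B) ⊓ (hat K F ⊔ W))`. `dim (hat K F ⊔ W) = dim (hat K F) + 3` (`finrank_sup_of_inf_eq` with `A = W`,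
`C = hat K F`, `B = W`), so the intersection is all of `hat K F ⊔ W` (`Submodule.eq_of_le_of_finrank_le`) and `W ≤ hat K (F ∪ B)`.
`IsClique.mono` with `L = hat K F`.
`root2`: `N0` = maximum of 11 and the number of `clique_or_odd`. Induction on `C.card` (generalizing `K, K', W, C`). `exists_Z` gives `Z`.
* there is `d ∈ C`, `d ∉ Z`: `RootH.contract`, induction: `HasO m (hat K {d}) E` gives `HasO m K E` (`HasO.mono` with `F = {d}`,
  `d ∈ C ⊆ E`); otherwise `F', B, f` for `(hat K {d}, E, W ⊔ hat K {d})`: put `F = insert d F'`; `hat K F = hat (hat K {d}) F'`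
  (`hat_hat`); `W ⊓ hat K F ≤ W ⊓ ((W ⊔ hat K {d}) ⊓ hat K F) = W ⊓ hat K {d} = K`, because `d ∉ W` (`RootH.notMem`).
* `C ⊆ Z`: `clique_or_odd`; in the second case `root1`: for `X ⊆ E \ B` suppose `dim (gW K W E X) < dim K + 3`; by `Mod.small_or` `X` is small
  (contradiction to `link`) or `E \ X ⊇ B` is small (contradiction to `4 ≤ mR B`, `mR_mono`).
-/

namespace Pool.Agent.HC

open Finset Module

/-- rooted cliques, level one -/
theorem root1 {V : Type} [AddCommGroup V] [Module F2 V] [DecidableEq V] [FiniteDimensional F2 V]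
    {n : ℕ} {K W : Submodule F2 V} {E B : Finset V} {f : Fin n → V} (hB : IsClique K f B)
    (hBE : B ⊆ E) (hKW : K ≤ W) (hW : finrank F2 W = finrank F2 K + 3)
    (h : ∀ X ⊆ E \ B, finrank F2 K + 3 ≤ finrank F2 (gW K W E X)) : RootIn n K E W := by
  obtain ⟨F, hF, h1, h2, h3⟩ := linking K W hKW E B hBE 3 (by
    intro Y hBY hYE
    have h4 := h (E \ Y) (Finset.sdiff_subset_sdiff subset_rfl hBY)
    unfold gW at h4
    rw [Finset.sdiff_sdiff_eq_self hYE, inf_comm] at h4
    exact h4)
  have h4 := finrank_sup_of_inf_eq (K := K) (A := W) (B := W) (C := hat K (F : Set V)) h2 hKW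
    le_rfl (le_hat _ _)
  have h5 : hat K ((F ∪ B : Finset V) : Set V) ⊓ (hat K (F : Set V) ⊔ W) =
      hat K (F : Set V) ⊔ W := by
    apply Submodule.eq_of_le_of_finrank_le inf_le_right
    omega
  refine ⟨F, B, f, hF.trans Finset.sdiff_subset, hBE, hB.mono (le_hat _ _) h1, h2, ?_⟩
  have h6 : W ≤ hat K ((F ∪ B : Finset V) : Set V) ⊓ (hat K (F : Set V) ⊔ W) := by
    rw [h5]
    exact le_sup_right
  exact h6.trans inf_le_left

private theorem root2_aux {m n N1 : ℕ} (hN1 : ∀ (V : Type)
    [AddCommGroup V] [Module F2 V] [DecidableEq V] [FiniteDimensional F2 V]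
    (K K' W : Submodule F2 V) (E C Z : Finset V) (N : ℕ) (g : Fin N → V)
    (q : Fin N → Fin N → V), N1 ≤ N → RootH K K' W E C g q → Z ⊆ E →
    mR (hat K' (C : Set V)) q Z ≤ 3 → finrank F2 (gW K W E Z) ≤ finrank F2 K + 3 → C ⊆ Z →
    HasO m K E ∨ ∃ (f : Fin n → V) (B : Finset V), B ⊆ E ∧ IsClique K f B ∧
      4 ≤ mR (hat K' (C : Set V)) q B) {V : Type}
    [AddCommGroup V] [Module F2 V] [DecidableEq V] [FiniteDimensional F2 V]
    {E : Finset V} {N : ℕ} {g : Fin N → V} {q : Fin N → Fin N → V}
    (hN : N1 ≤ N) (hN11 : 11 ≤ N) (c : ℕ) : ∀ (K K' W : Submodule F2 V) (C : Finset V),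
    C.card = c → RootH K K' W E C g q → HasO m K E ∨ RootIn n K E W := by
  induction c using Nat.strong_induction_on with
  | _ c ih =>
    intro K K' W C hc hR
    obtain ⟨Z, hZ⟩ := hR.exists_Z hN11
    by_cases hCZ : C ⊆ Z
    · rcases hN1 V K K' W E C Z N g q hN hR hZ.ZE hZ.small hZ.ord hCZ with h | ⟨f, B, hBE, hB, h4⟩
      · exact Or.inl h
      · right
        apply root1 hB hBE hR.KW hR.dim
        intro X hX
        by_contra hlt
        have hXE : X ⊆ E := hX.trans Finset.sdiff_subset
        rcases hR.mod.small_or hR.KK hR.KW hR.cap hXE (by omega) with h5 | h5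
        · exact hlt (hR.link X hXE h5)
        · have h6 : B ⊆ E \ X := by
            intro b hb
            rw [Finset.mem_sdiff]
            refine ⟨hBE hb, fun hbX => ?_⟩
            have := hX hbX
            rw [Finset.mem_sdiff] at this
            exact this.2 hb
          have h7 := mR_mono (hat K' (C : Set V)) q h6
          omega
    · obtain ⟨d, hd, hdZ⟩ := Finset.not_subset.1 hCZ
      have hR' := hR.contract hZ hd hdZ
      have hdE : d ∈ E := hR.mod.CE hd
      have hcard : (C.erase d).card < c := by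
        rw [← hc]
        exact Finset.card_erase_lt_of_mem hd
      have hnot := hR.notMem hZ hd hdZ
      rcases ih _ hcard (hat K {d}) (hat K' {d}) (W ⊔ hat K {d}) (C.erase d) rfl hR' with h | h
      · left
        apply HasO.mono (F := {d}) (S' := E) _ (Finset.singleton_subset_iff.2 hdE) subset_rfl
        rw [Finset.coe_singleton]
        exact h
      · right
        obtain ⟨F', B, f, hF', hBE, hcl, hcap, hle⟩ := h
        have e1 : ∀ G : Finset V, hat (hat K {d}) (G : Set V) =
            hat K ((insert d G : Finset V) : Set V) := by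
          intro G
          rw [hat_hat, Finset.coe_insert, Set.insert_eq]
        rw [e1] at hcl hcap
        rw [e1] at hle
        refine ⟨insert d F', B, f, ?_, hBE, hcl, ?_, ?_⟩
        · exact Finset.insert_subset hdE hF'
        · apply le_antisymm
          · intro v hv
            rw [Submodule.mem_inf] at hv
            have h1 : v ∈ (W ⊔ hat K {d}) ⊓ hat K ((insert d F' : Finset V) : Set V) :=
              Submodule.mem_inf.2 ⟨(le_sup_left : W ≤ _) hv.1, hv.2⟩
            rw [hcap] at h1
            rcases (mem_hat_singleton K d v).1 h1 with h2 | h2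
            · exact h2
            · exfalso
              apply hnot
              apply (le_sup_right : W ≤ _)
              rw [add_comm] at h2
              exact mem_of_add_mem2 (hR.KW h2) hv.1
          · exact le_inf hR.KW (le_hat _ _)
        · rw [Finset.insert_union]
          exact (le_sup_left : W ≤ _).trans hle

/-- rooted cliques, level two -/
theorem root2 (m n : ℕ) (hm : 4 ≤ m) (hn : 5 ≤ n) : ∃ N0 : ℕ, ∀ (V : Type)
    [AddCommGroup V] [Module F2 V] [DecidableEq V] [FiniteDimensional F2 V]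
    (K K' W : Submodule F2 V) (E C : Finset V) (N : ℕ) (g : Fin N → V)
    (q : Fin N → Fin N → V), N0 ≤ N → RootH K K' W E C g q → HasO m K E ∨ RootIn n K E W := by
  obtain ⟨N1, hN1⟩ := clique_or_odd m n hm hn
  refine ⟨max 11 N1, ?_⟩
  intro V _ _ _ _ K K' W E C N g q hN hR
  exact root2_aux hN1 (le_of_max_le_right hN) (le_of_max_le_left hN) C.card K K' W C rfl hR

end Pool.Agent.HC
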