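import Pool.Agent.HC.RtDef
import Pool.Agent.HC.Gr2
import Pool.Agent.HC.Gr5
import Pool.Agent.HC.Gr7

/-!
# HC-RtH: the end of case A

`clique_pair`: let `φ` represent `(L, B ∪ {x})` (`Graphic`). For `i ≠ j` there is `b ∈ B` with `b + (f i + f j) ∈ L`, `b ∉ L` (`IsClique.ind` for
`{i, j}`), so `φ (f i + f j) = φ b` is an edge. `φ (∑ T f) = 0` for even `T` gives `∑ T f ∈ L` (`IsRep.inj`, `IsClique.sum_mem`), so `T = ∅`. `clique_rep`
(`3 ≤ n`): `φ (f i + f j) = pr (a i) (a j)`, `a` injective. `x + ∑ T f ∈ L` with `T` even (`IsClique.mem_hat`), and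
`φ x = φ (∑ T f)` is the sum of the unit vectors of `a i`, `i ∈ T` (for even `T`: pair it with a fixed vertex `i0`:
`∑ T f = ∑ i ∈ T, (f i + f i0)`). It is zero or an edge, so `T.card ≤ 2`.
`endA`: `F, B, f` from `RootIn`, `L = hat K F`. All seven vectors `y` (sums of `y1, y2, y3`) are in `W ≤ hat K (F ∪ B) = hat L B`, and not in
`L` (`W ⊓ L = K`). Six of them are in the set of `hg`; `Graphic L (..)` by `Graphic.contract` (`F ⊆ E`), then `Graphic.mono` to `B ∪ {y}`, so
`clique_pair` applies: `y + ∑ T f ∈ L` with `T.card = 2` (`T = ∅` would give `y ∈ L`). The seventh: `x ∈ S`, `x + (y1 + y2) ∈ K`: `clique_weight` for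
`L` (`¬ HasO m L S` by `HasO.mono`, `F ⊆ E ⊆ S`): the same. So all seven are in the classes of the elements of
`B` (`IsClique.mem`); `(L, B)` is graphic by `graphic_of_clique` (with `S := B`, `HasO.mono`), and `not_graphic_fano` with
`T = B` is a contradiction.
`Graphic.not_hasO`: `HasO` gives `F, f, a, b, c, d`; `Graphic.contract` for `F`; `not_graphic_fano` with
`y1 = f a + f b`, `y2 = f a + f c`, `y3 = f a + f d` (the sums are `f b + f c` etc. and `f a + f b + f c + f d`).
-/

namespace Pool.Agent.HC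

open Finset Module

variable {V : Type} [AddCommGroup V] [Module F2 V] [DecidableEq V] [FiniteDimensional F2 V]

omit [DecidableEq V] [FiniteDimensional F2 V] in
private theorem rth_sum_two_zero {n : ℕ} (T : Finset (Fin n)) (hT : Even T.card) (v : V) :
    ∑ _i ∈ T, v = 0 := by
  rw [sum_const]
  obtain ⟨k, hk⟩ := hT
  rw [hk, add_smul, add_self2]

omit [DecidableEq V] [FiniteDimensional F2 V] in
private theorem rth_pair_not_mem {n : ℕ} {L : Submodule F2 V} {f : Fin n → V}
    (hind : ∀ T : Finset (Fin n), Even T.card → ∑ i ∈ T, f i ∈ L → T = ∅) {i j : Fin n}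
    (hij : i ≠ j) : f i + f j ∉ L := by
  intro h
  have h1 := hind {i, j} (by rw [card_pair hij]; exact even_two) (by rw [sum_pair hij]; exact h)
  have h2 : i ∈ ({i, j} : Finset (Fin n)) := by simp
  rw [h1] at h2
  exact absurd h2 (notMem_empty i)

theorem clique_pair {n : ℕ} (hn : 3 ≤ n) {L : Submodule F2 V} {B : Finset V} {f : Fin n → V}
    (hB : IsClique L f B) {x : V} (hx : x ∈ hat L (B : Set V))
    (hg : Graphic L ((B : Set V) ∪ {x})) :
    ∃ T : Finset (Fin n), Even T.card ∧ T.card ≤ 2 ∧ x + ∑ i ∈ T, f i ∈ L := by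
  obtain ⟨U, iU, dU, φ, hφ⟩ := hg
  have hle : hat L (B : Set V) ≤ hat L ((B : Set V) ∪ {x}) :=
    hat_mono le_rfl Set.subset_union_left
  have hE : ∀ i j, i ≠ j → ∃ u v, u ≠ v ∧ φ (f i + f j) = pr u v := by
    intro i j hij
    obtain ⟨b, hb, hbL⟩ := hB.mem i j hij
    have h1 : φ b = φ (f i + f j) := by
      have h2 := hφ.ker _ hbL
      rw [map_add, add_eq_iff2, zero_add] at h2
      exact h2
    rcases hφ.edge b (Or.inl hb) with h2 | ⟨u, v, huv, h2⟩
    · exfalso
      have h3 : b ∈ L := hφ.inj b (hle (subset_hat L _ hb)) h2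
      apply rth_pair_not_mem hB.ind hij
      refine mem_of_add_mem2 (y := b) ?_ h3
      rw [add_comm]
      exact hbL
    · exact ⟨u, v, huv, by rw [← h1, h2]⟩
  have hI : ∀ T : Finset (Fin n), Even T.card → φ (∑ i ∈ T, f i) = 0 → T = ∅ := by
    intro T hT h0
    exact hB.ind T hT (hφ.inj _ (hle (hB.sum_mem T hT)) h0)
  obtain ⟨a, ha, haE⟩ := clique_rep hn φ f hE hI
  obtain ⟨T, hT, hxT⟩ := hB.mem_hat hx
  refine ⟨T, hT, ?_, hxT⟩
  have hφx : φ x = φ (∑ i ∈ T, f i) := by
    have h2 := hφ.ker _ hxT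
    rw [map_add, add_eq_iff2, zero_add] at h2
    exact h2
  have hsum : φ x = ∑ i ∈ T, Pi.single (a i) 1 := by
    set i0 : Fin n := ⟨0, by omega⟩ with hi0
    have h1 : ∑ i ∈ T, f i = ∑ i ∈ T, (f i + f i0) := by
      rw [sum_add_distrib, rth_sum_two_zero T hT, add_zero]
    rw [hφx, h1, map_sum]
    have h2 : ∀ i ∈ T, φ (f i + f i0) = Pi.single (a i) 1 + Pi.single (a i0) 1 := by
      intro i _
      rw [haE]
      rfl
    rw [sum_congr rfl h2, sum_add_distrib]
    have h3 : ∑ _i ∈ T, (Pi.single (a i0) 1 : U → F2) = 0 := by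
      rw [sum_const]
      obtain ⟨k, hk⟩ := hT
      rw [hk, add_smul, add_self2]
    rw [h3, add_zero]
  have hval : ∀ i ∈ T, φ x (a i) = 1 := by
    intro i hi
    rw [hsum, Finset.sum_apply]
    rw [Finset.sum_eq_single i]
    · rw [Pi.single_eq_same]
    · intro j _ hji
      rw [Pi.single_apply, if_neg]
      intro h
      exact hji (ha h).symm
    · intro h
      exact absurd hi h
  rcases hφ.edge x (Or.inr rfl) with h0 | ⟨u, v, huv, h0⟩
  · have hTe : T = ∅ := by
      rw [eq_empty_iff_forall_notMem]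
      intro i hi
      have h1 := hval i hi
      rw [h0, Pi.zero_apply] at h1
      exact absurd h1 (by decide)
    rw [hTe, card_empty]
    omega
  · have h1 : T.image a ⊆ {u, v} := by
      intro w hw
      obtain ⟨i, hi, rfl⟩ := mem_image.1 hw
      have h2 := hval i hi
      rw [h0] at h2
      unfold pr at h2
      rw [Pi.add_apply, Pi.single_apply, Pi.single_apply] at h2
      rw [mem_insert, mem_singleton]
      by_contra hcon
      push Not at hcon
      rw [if_neg hcon.1, if_neg hcon.2, add_zero] at h2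
      exact absurd h2 (by decide)
    calc T.card = (T.image a).card := (card_image_of_injective T ha).symm
      _ ≤ ({u, v} : Finset U).card := card_le_card h1
      _ ≤ 2 := card_le_two

theorem Graphic.not_hasO {m : ℕ} {K : Submodule F2 V} {S : Finset V}
    (h : Graphic K (S : Set V)) : ¬ HasO m K S := by
  rintro ⟨F, f, a, b, c, d, hF, hI, hE, hab, hac, had, hbc, hbd, hcd, x, hx, hxF⟩
  have hG := h.contract F (coe_subset.2 hF)
  have e2 : ∀ u v w : V, u + v + (u + w) = v + w := by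
    intro u v w
    rw [show u + v + (u + w) = (u + u) + (v + w) by abel, add_self2, zero_add]
  have e3 : f a + f b + (f a + f c) + (f a + f d) = f a + f b + f c + f d := by
    rw [show f a + f b + (f a + f c) + (f a + f d) = (f a + f a) + (f a + f b + f c + f d) by abel,
      add_self2, zero_add]
  have h4 : f a + f b + f c + f d ∉ hat K (F : Set V) := by
    intro h5
    have h6 : ∑ i ∈ ({a, b, c, d} : Finset (Fin m)), f i = f a + f b + f c + f d := by
      rw [sum_insert, sum_insert, sum_insert, sum_singleton]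
      · abel
      · rw [mem_singleton]; exact hcd
      · rw [mem_insert, mem_singleton]; push Not; exact ⟨hbc, hbd⟩
      · rw [mem_insert, mem_insert, mem_singleton]; push Not; exact ⟨hab, hac, had⟩
    have h7 : ({a, b, c, d} : Finset (Fin m)).card = 4 := by
      rw [card_insert_of_notMem, card_insert_of_notMem, card_insert_of_notMem, card_singleton]
      · rw [mem_singleton]; exact hcd
      · rw [mem_insert, mem_singleton]; push Not; exact ⟨hbc, hbd⟩
      · rw [mem_insert, mem_insert, mem_singleton]; push Not; exact ⟨hab, hac, had⟩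
    have h8 := hI {a, b, c, d} (by rw [h7]; decide) (by rw [h6]; exact h5)
    rw [h8, card_empty] at h7
    exact absurd h7 (by decide)
  refine not_graphic_fano (y1 := f a + f b) (y2 := f a + f c) (y3 := f a + f d)
    (rth_pair_not_mem hI hab) (rth_pair_not_mem hI hac) (rth_pair_not_mem hI had) ?_ ?_ ?_ ?_
    (hE a b hab) (hE a c hac) (hE a d had) ?_ ?_ ?_ ?_ hG
  · rw [e2]; exact rth_pair_not_mem hI hbc
  · rw [e2]; exact rth_pair_not_mem hI hbd
  · rw [e2]; exact rth_pair_not_mem hI hcd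
  · rw [e3]; exact h4
  · rw [e2]; exact hE b c hbc
  · rw [e2]; exact hE b d hbd
  · rw [e2]; exact hE c d hcd
  · rw [e3]; exact ⟨x, hx, hxF⟩

omit [FiniteDimensional F2 V] in
private theorem rth_class {n : ℕ} {L : Submodule F2 V} {B : Finset V} {f : Fin n → V}
    (hB : IsClique L f B) {y : V} (hy : y ∉ L)
    (h : ∃ T : Finset (Fin n), Even T.card ∧ T.card ≤ 2 ∧ y + ∑ i ∈ T, f i ∈ L) :
    ∃ b ∈ B, b + y ∈ L := by
  obtain ⟨T, hT, hT2, hyT⟩ := h
  rcases Nat.eq_zero_or_pos T.card with h0 | h0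
  · exfalso
    rw [card_eq_zero] at h0
    rw [h0, sum_empty, add_zero] at hyT
    exact hy hyT
  · have h2 : T.card = 2 := by
      obtain ⟨k, hk⟩ := hT
      omega
    obtain ⟨i, j, hij, rfl⟩ := card_eq_two.1 h2
    rw [sum_pair hij] at hyT
    obtain ⟨b, hb, hbL⟩ := hB.mem i j hij
    refine ⟨b, hb, ?_⟩
    have h3 := L.add_mem hbL hyT
    rwa [show b + (f i + f j) + (y + (f i + f j)) = b + y + ((f i + f j) + (f i + f j)) by abel,
      add_self2, add_zero] at h3

theorem endA {m n : ℕ} (hm : 4 ≤ m) (hn : 2 * m ≤ n) {K W : Submodule F2 V} {S E : Finset V}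
    {y1 y2 y3 : V} (hO : ¬ HasO m K S) (hE : E ⊆ S) (hR : RootIn n K E W)
    (h1 : y1 ∈ W) (h2 : y2 ∈ W) (h3 : y3 ∈ W) (k1 : y1 ∉ K) (k2 : y2 ∉ K) (k3 : y3 ∉ K)
    (k12 : y1 + y2 ∉ K) (k13 : y1 + y3 ∉ K) (k23 : y2 + y3 ∉ K) (k123 : y1 + y2 + y3 ∉ K)
    (hg : Graphic K ((E : Set V) ∪ {y1, y2, y3, y1 + y3, y2 + y3, y1 + y2 + y3}))
    (hf : ∃ x ∈ S, x + (y1 + y2) ∈ K) : False := by
  obtain ⟨F, B, f, hFE, hBE, hB, hWF, hWB⟩ := hR
  set L : Submodule F2 V := hat K (F : Set V) with hL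
  have hKL : K ≤ L := le_hat K _
  have hWB' : W ≤ hat L (B : Set V) := by
    rw [hL, hat_hat, ← coe_union]
    exact hWB
  have nL : ∀ y ∈ W, y ∉ K → y ∉ L := by
    intro y hy hyK hyL
    apply hyK
    rw [← hWF]
    exact ⟨hy, hyL⟩
  have hG := hg.contract F (fun x hx => Or.inl (coe_subset.2 hFE hx))
  have key : ∀ y ∈ W, y ∉ K → y ∈ ({y1, y2, y3, y1 + y3, y2 + y3, y1 + y2 + y3} : Set V) →
      ∃ b ∈ B, b + y ∈ L := by
    intro y hy hyK hyS
    apply rth_class hB (nL y hy hyK)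
    apply clique_pair (by omega) hB (hWB' hy)
    refine hG.mono ?_
    rintro z (hz | hz)
    · exact Or.inl (coe_subset.2 hBE hz)
    · rw [Set.mem_singleton_iff] at hz
      rw [hz]
      exact Or.inr hyS
  have hOL : ¬ HasO m L S := fun h => hO (HasO.mono h (hFE.trans hE) (Subset.refl S))
  have hOB : ¬ HasO m L B := fun h => hO (HasO.mono h (hFE.trans hE) (hBE.trans hE))
  have h12 : y1 + y2 ∈ W := W.add_mem h1 h2
  have h13 : y1 + y3 ∈ W := W.add_mem h1 h3
  have h23 : y2 + y3 ∈ W := W.add_mem h2 h3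
  have h123 : y1 + y2 + y3 ∈ W := W.add_mem h12 h3
  have t12 : ∃ b ∈ B, b + (y1 + y2) ∈ L := by
    obtain ⟨x, hx, hxK⟩ := hf
    have hxL : x + (y1 + y2) ∈ L := hKL hxK
    have hxB : x ∈ hat L (B : Set V) := by
      refine mem_of_add_mem2 (y := y1 + y2) (le_hat L _ hxL) (hWB' h12)
    obtain ⟨T, hT, hxT⟩ := hB.mem_hat hxB
    have hc := clique_weight hm hn hB (hBE.trans hE) hOL hx T hT hxT
    apply rth_class hB (nL _ h12 k12)
    refine ⟨T, hT, hc, ?_⟩
    have h5 := L.add_mem hxL hxT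
    rwa [show x + (y1 + y2) + (x + ∑ i ∈ T, f i) = (x + x) + (y1 + y2 + ∑ i ∈ T, f i) by abel,
      add_self2, zero_add] at h5
  have hGB : Graphic L (B : Set V) :=
    graphic_of_clique hm hn hB (Subset.refl B) hOB (fun x hx => subset_hat L _ (mem_coe.2 hx))
  refine not_graphic_fano (y1 := y1) (y2 := y2) (y3 := y3) (nL _ h1 k1) (nL _ h2 k2) (nL _ h3 k3)
    (nL _ h12 k12) (nL _ h13 k13) (nL _ h23 k23) (nL _ h123 k123) ?_ ?_ ?_ t12 ?_ ?_ ?_ hGB
  · exact key _ h1 k1 (by simp)
  · exact key _ h2 k2 (by simp)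
  · exact key _ h3 k3 (by simp)
  · exact key _ h13 k13 (by simp)
  · exact key _ h23 k23 (by simp)
  · exact key _ h123 k123 (by simp)

end Pool.Agent.HC
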