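import Pool.Agent.HC.RtH

/-!
# HC-RtI: the end of case B

`K1 = K.prod ⊥` in `V × F2`, `k = (0, 1)`. `F, B, p` from `RootIn`, `L = hat K1 F`, all of `W1` is in `hat L B` and `W1 ⊓ L = K1`. The six vectors
`(c, 0), (c, 1), (f, 0), (f, 1), (c + f, 0), (c + f, 1)` are not in `K1`, so not in `L`; by `Graphic.contract`, `Graphic.mono`,
`clique_pair` each is `∑ T p` modulo `L` with `T.card = 2`. `k = (c, 0) + (c, 1)` is `∑ Q p` modulo `L`, `Q` the symmetric difference of two pairs,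
`Q.card ∈ {2, 4}` (`Q = ∅` would give `k ∈ L`, `k ∈ K1`). If `Q.card = 2` then the seven vectors `(c,0), (f,0), k` and their sums are all in classes of
elements of `B`, and `(L, B)` is graphic (`Graphic.mono` of the contracted `hg`), against `not_graphic_fano`. So `Q.card = 4`.
Let `i1 ∈ Q`, `π = LinearMap.fst`. `HasO (n - 1) K S`: `n = n' + 1`; `F' = F.image π`, `f' j = π (p (i1.succAbove j))`, the four vertices are the three
elements of `Q` other than `i1` and one element `j0 ∉ Q` (`5 ≤ n`). `hat K F'` is the image of `L` under `π` (`Submodule.map_span`,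
`Submodule.map` of `K.prod ⊥` is `K`). Independence: `T` even, `∑ T f' ∈ π L`: there is `l ∈ L` with
`π (∑ T p + l) = 0`, so `∑ T p + l = ε • k`, so `∑ T p + ε • ∑ Q p ∈ L`; `ε = 1`: `T Δ Q` is even and contains `i1`
(`T` avoids `i1`), contradiction to `IsClique.ind`; `ε = 0`: `T = ∅`. Edges: `π b` for `b ∈ B` in the class of `p i + p j`; `b ∈ E1`, so
`b.1 ∈ S`. The weight four element: `b ∈ B` in the class of `p i1 + p j0`: `π b + (π p j0 + ∑ i ∈ Q \ i1, π p i)` is `π` of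
`b + p j0 + p i1 + ∑ Q p`, and `∑ Q p + k ∈ L`, `π k = 0`.
-/

namespace Pool.Agent.HC

open Finset Module

variable {V : Type} [AddCommGroup V] [Module F2 V] [DecidableEq V] [FiniteDimensional F2 V]

private theorem rti_sum {V' : Type} [AddCommGroup V'] [Module F2 V'] {n : ℕ} (p : Fin n → V')
    (A B : Finset (Fin n)) :
    ∑ i ∈ symmDiff A B, p i = ∑ i ∈ A, p i + ∑ i ∈ B, p i := by
  have h1 : ∑ i ∈ symmDiff A B, p i = ∑ i ∈ A \ B, p i + ∑ i ∈ B \ A, p i := by
    rw [symmDiff_def, Finset.sup_eq_union, Finset.sum_union disjoint_sdiff_sdiff]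
  have h2 := Finset.sum_inter_add_sum_sdiff A B p
  have h3 := Finset.sum_inter_add_sum_sdiff B A p
  rw [Finset.inter_comm] at h3
  have h4 := add_self2 (∑ i ∈ A ∩ B, p i)
  rw [h1, ← h2, ← h3]
  calc ∑ i ∈ A \ B, p i + ∑ i ∈ B \ A, p i
      = (∑ i ∈ A ∩ B, p i + ∑ i ∈ A ∩ B, p i) + (∑ i ∈ A \ B, p i + ∑ i ∈ B \ A, p i) := by
        rw [h4, zero_add]
    _ = _ := by abel

private theorem rti_card {n : ℕ} (A B : Finset (Fin n)) :
    (symmDiff A B).card + 2 * (A ∩ B).card = A.card + B.card := by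
  have h1 : (symmDiff A B).card = (A \ B).card + (B \ A).card := by
    rw [symmDiff_def, Finset.sup_eq_union, Finset.card_union_of_disjoint disjoint_sdiff_sdiff]
  have h2 := Finset.card_sdiff_add_card_inter A B
  have h3 := Finset.card_sdiff_add_card_inter B A
  rw [Finset.inter_comm] at h3
  omega

omit [FiniteDimensional F2 V] in
private theorem rti_mem {K : Submodule F2 V} {F : Finset (V × F2)} {v : V} :
    v ∈ hat K ((F.image Prod.fst : Finset V) : Set V) ↔
      ∃ ε : F2, (v, ε) ∈ hat (K.prod (⊥ : Submodule F2 F2)) (F : Set (V × F2)) := by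
  have h1 : (hat (K.prod (⊥ : Submodule F2 F2)) (F : Set (V × F2))).map (LinearMap.fst F2 V F2) =
      hat K ((F.image Prod.fst : Finset V) : Set V) := by
    unfold hat
    rw [Submodule.map_sup, Submodule.map_span, Submodule.prod_map_fst, Finset.coe_image]
    rfl
  rw [← h1, Submodule.mem_map]
  constructor
  · rintro ⟨⟨a, ε⟩, h2, h3⟩
    have h4 : a = v := h3
    subst h4
    exact ⟨ε, h2⟩
  · rintro ⟨ε, h2⟩
    exact ⟨(v, ε), h2, rfl⟩

omit [FiniteDimensional F2 V] [DecidableEq V] in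
private theorem rti_fst {K : Submodule F2 V} {v : V} {ε : F2} :
    ((v, ε) ∈ K.prod (⊥ : Submodule F2 F2)) ↔ v ∈ K ∧ ε = 0 := by
  rw [Submodule.mem_prod]
  simp

theorem endB {n : ℕ} (hn : 5 ≤ n) {K : Submodule F2 V} {S : Finset V} {E1 : Finset (V × F2)}
    {W1 : Submodule F2 (V × F2)} {c f : V} (hE : ∀ x ∈ E1, x.1 ∈ S)
    (hR : RootIn n (K.prod ⊥) E1 W1) (hc : (c, (0 : F2)) ∈ W1) (hf : (f, (0 : F2)) ∈ W1)
    (hk : ((0 : V), (1 : F2)) ∈ W1) (k1 : c ∉ K) (k2 : f ∉ K) (k3 : c + f ∉ K)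
    (hg : Graphic (K.prod ⊥) ((E1 : Set (V × F2)) ∪
      {(c, (0 : F2)), (c, (1 : F2)), (f, (0 : F2)), (f, (1 : F2)), (c + f, (0 : F2)),
        (c + f, (1 : F2))})) : HasO (n - 1) K S := by
  classical
  obtain ⟨F, B, p, hF, hB, hcl, hWF, hWB⟩ := hR
  set K1 : Submodule F2 (V × F2) := K.prod ⊥ with hK1
  set L : Submodule F2 (V × F2) := hat K1 (F : Set (V × F2)) with hL
  have hLB : hat L (B : Set (V × F2)) = hat K1 ((F ∪ B : Finset (V × F2)) : Set (V × F2)) := by
    rw [hL, hat_hat, Finset.coe_union]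
  have hgL : Graphic L ((E1 : Set (V × F2)) ∪
      {(c, (0 : F2)), (c, (1 : F2)), (f, (0 : F2)), (f, (1 : F2)), (c + f, (0 : F2)),
        (c + f, (1 : F2))}) :=
    hg.contract F (fun x hx => Or.inl (hF hx))
  have hBE : (B : Set (V × F2)) ⊆ (E1 : Set (V × F2)) ∪
      {(c, (0 : F2)), (c, (1 : F2)), (f, (0 : F2)), (f, (1 : F2)), (c + f, (0 : F2)),
        (c + f, (1 : F2))} := fun x hx => Or.inl (hB hx)
  have hnL : ∀ y ∈ W1, y ∉ K1 → y ∉ L := by
    intro y h1 h2 h3
    apply h2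
    rw [← hWF]
    exact ⟨h1, h3⟩
  have hpair : ∀ y ∈ W1, y ∉ K1 → y ∈ ({(c, (0 : F2)), (c, (1 : F2)), (f, (0 : F2)),
      (f, (1 : F2)), (c + f, (0 : F2)), (c + f, (1 : F2))} : Set (V × F2)) →
      ∃ T : Finset (Fin n), T.card = 2 ∧ y + ∑ i ∈ T, p i ∈ L := by
    intro y h1 h2 h3
    have h4 : y ∈ hat L (B : Set (V × F2)) := by
      rw [hLB]
      exact hWB h1
    have h5 : Graphic L ((B : Set (V × F2)) ∪ {y}) := by
      apply hgL.mono
      apply Set.union_subset hBE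
      rintro _ rfl
      exact Or.inr h3
    obtain ⟨T, hT1, hT2, hT3⟩ := clique_pair (by omega) hcl h4 h5
    refine ⟨T, ?_, hT3⟩
    have h6 : T ≠ ∅ := by
      rintro rfl
      rw [Finset.sum_empty, add_zero] at hT3
      exact hnL y h1 h2 hT3
    have h7 : T.card ≠ 0 := fun h => h6 (Finset.card_eq_zero.1 h)
    obtain ⟨s, hs⟩ := hT1
    omega
  have w10 : (1 : F2) ≠ 0 := by decide
  have hc1 : (c, (1 : F2)) ∈ W1 := by
    have := W1.add_mem hc hk
    simpa using this
  have hf1 : (f, (1 : F2)) ∈ W1 := by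
    have := W1.add_mem hf hk
    simpa using this
  have hg0 : (c + f, (0 : F2)) ∈ W1 := by
    have := W1.add_mem hc hf
    simpa using this
  have hg1 : (c + f, (1 : F2)) ∈ W1 := by
    have := W1.add_mem hg0 hk
    simpa using this
  have nc0 : (c, (0 : F2)) ∉ K1 := fun h => k1 (rti_fst.1 h).1
  have nc1 : (c, (1 : F2)) ∉ K1 := fun h => k1 (rti_fst.1 h).1
  have nf0 : (f, (0 : F2)) ∉ K1 := fun h => k2 (rti_fst.1 h).1
  have nf1 : (f, (1 : F2)) ∉ K1 := fun h => k2 (rti_fst.1 h).1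
  have ng0 : (c + f, (0 : F2)) ∉ K1 := fun h => k3 (rti_fst.1 h).1
  have ng1 : (c + f, (1 : F2)) ∉ K1 := fun h => k3 (rti_fst.1 h).1
  have nk : ((0 : V), (1 : F2)) ∉ K1 := fun h => w10 (rti_fst.1 h).2
  obtain ⟨Tc0, cc0, sc0⟩ := hpair _ hc nc0 (by simp)
  obtain ⟨Tc1, cc1, sc1⟩ := hpair _ hc1 nc1 (by simp)
  have hQ : ((0 : V), (1 : F2)) + ∑ i ∈ symmDiff Tc0 Tc1, p i ∈ L := by
    rw [rti_sum]
    have h1 := L.add_mem sc0 sc1
    have h2 : ((0 : V), (1 : F2)) = (c, (0 : F2)) + (c, (1 : F2)) := by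
      rw [Prod.mk_add_mk, add_self2, zero_add]
    rw [h2]
    convert h1 using 1
    abel
  have hcard := rti_card Tc0 Tc1
  set Q := symmDiff Tc0 Tc1 with hQdef
  have hQ0 : Q.card ≠ 0 := by
    intro h
    rw [Finset.card_eq_zero.1 h, Finset.sum_empty, add_zero] at hQ
    exact hnL _ hk nk hQ
  -- a class with two vertices contains an element of B
  have hBT : ∀ (y : V × F2) (T : Finset (Fin n)), T.card = 2 → y + ∑ i ∈ T, p i ∈ L →
      ∃ b ∈ B, b + y ∈ L := by
    intro y T hT hy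
    obtain ⟨i, j, hij, rfl⟩ := Finset.card_eq_two.1 hT
    obtain ⟨b, hb, hb2⟩ := hcl.mem i j hij
    refine ⟨b, hb, ?_⟩
    rw [Finset.sum_pair hij] at hy
    have h1 := L.add_mem hb2 hy
    have h2 : b + (p i + p j) + (y + (p i + p j)) = (b + y) + ((p i + p j) + (p i + p j)) := by
      abel
    rw [h2, add_self2, add_zero] at h1
    exact h1
  have hcases : Q.card = 2 ∨ Q.card = 4 := by omega
  rcases hcases with hQ2 | hQ4
  · exfalso
    obtain ⟨Tf0, cf0, sf0⟩ := hpair _ hf nf0 (by simp)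
    obtain ⟨Tf1, cf1, sf1⟩ := hpair _ hf1 nf1 (by simp)
    obtain ⟨Tg0, cg0, sg0⟩ := hpair _ hg0 ng0 (by simp)
    obtain ⟨Tg1, cg1, sg1⟩ := hpair _ hg1 ng1 (by simp)
    have e12 : (c, (0 : F2)) + (f, (0 : F2)) = (c + f, (0 : F2)) := by
      rw [Prod.mk_add_mk, add_zero]
    have e13 : (c, (0 : F2)) + ((0 : V), (1 : F2)) = (c, (1 : F2)) := by
      rw [Prod.mk_add_mk, add_zero, zero_add]
    have e23 : (f, (0 : F2)) + ((0 : V), (1 : F2)) = (f, (1 : F2)) := by
      rw [Prod.mk_add_mk, add_zero, zero_add]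
    have e123 : (c + f, (0 : F2)) + ((0 : V), (1 : F2)) = (c + f, (1 : F2)) := by
      rw [Prod.mk_add_mk, add_zero, zero_add]
    refine not_graphic_fano (K := L) (T := (B : Set (V × F2))) (y1 := (c, (0 : F2)))
      (y2 := (f, (0 : F2))) (y3 := ((0 : V), (1 : F2))) (hnL _ hc nc0) (hnL _ hf nf0)
      (hnL _ hk nk) ?_ ?_ ?_ ?_ (hBT _ _ cc0 sc0) (hBT _ _ cf0 sf0) (hBT _ _ hQ2 hQ) ?_ ?_ ?_ ?_
      (hgL.mono hBE)
    · rw [e12]
      exact hnL _ hg0 ng0
    · rw [e13]
      exact hnL _ hc1 nc1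
    · rw [e23]
      exact hnL _ hf1 nf1
    · rw [e12, e123]
      exact hnL _ hg1 ng1
    · rw [e12]
      exact hBT _ _ cg0 sg0
    · rw [e13]
      exact hBT _ _ cc1 sc1
    · rw [e23]
      exact hBT _ _ cf1 sf1
    · rw [e12, e123]
      exact hBT _ _ cg1 sg1
  · obtain ⟨n', rfl⟩ : ∃ n', n = n' + 1 := ⟨n - 1, by omega⟩
    obtain ⟨i1, hi1⟩ : Q.Nonempty := Finset.card_ne_zero.1 (by omega)
    have hQe : (Q.erase i1).card = 3 := by
      rw [Finset.card_erase_of_mem hi1, hQ4]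
    obtain ⟨x1, x2, x3, x12, x13, x23, hQx⟩ := Finset.card_eq_three.1 hQe
    obtain ⟨j0, hj0⟩ : ∃ j0, j0 ∉ Q := by
      by_contra hcon
      push Not at hcon
      have h1 : Q = Finset.univ := Finset.eq_univ_iff_forall.2 hcon
      rw [h1, Finset.card_univ, Fintype.card_fin] at hQ4
      omega
    have hx : ∀ x, x ∈ Q.erase i1 → x ≠ i1 ∧ x ∈ Q := fun x hx => Finset.mem_erase.1 hx
    have m1 := hx x1 (by rw [hQx]; simp)
    have m2 := hx x2 (by rw [hQx]; simp)
    have m3 := hx x3 (by rw [hQx]; simp)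
    have m0 : j0 ≠ i1 := fun h => hj0 (h ▸ hi1)
    obtain ⟨a, ha⟩ := Fin.exists_succAbove_eq m1.1
    obtain ⟨b, hb⟩ := Fin.exists_succAbove_eq m2.1
    obtain ⟨d, hd⟩ := Fin.exists_succAbove_eq m3.1
    obtain ⟨e, he⟩ := Fin.exists_succAbove_eq m0
    have hfst : ∀ l ∈ L, l.1 ∈ hat K ((F.image Prod.fst : Finset V) : Set V) := by
      intro l hl
      exact rti_mem.2 ⟨l.2, hl⟩
    refine ⟨F.image Prod.fst, fun j => (p (i1.succAbove j)).1, a, b, d, e, ?_, ?_, ?_, ?_, ?_, ?_,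
      ?_, ?_, ?_, ?_⟩
    · intro x hx
      obtain ⟨y, hy, rfl⟩ := Finset.mem_image.1 hx
      exact hE y (hF hy)
    · intro T hT hTm
      obtain ⟨ε, hε⟩ := rti_mem.1 hTm
      have hsum : ∑ j ∈ T, p (i1.succAbove j) = ∑ i ∈ T.map i1.succAboveEmb, p i := by
        rw [Finset.sum_map]
        rfl
      have hne : i1 ∉ T.map i1.succAboveEmb := by
        intro h
        obtain ⟨j, _, hj⟩ := Finset.mem_map.1 h
        exact Fin.succAbove_ne i1 j hj
      have hTc : (T.map i1.succAboveEmb).card = T.card := Finset.card_map _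
      have h1 : ∑ j ∈ T, p (i1.succAbove j) + (∑ j ∈ T, (p (i1.succAbove j)).1, ε) =
          ((0 : V), (∑ j ∈ T, p (i1.succAbove j)).2 + ε) := by
        apply Prod.ext
        · show (∑ j ∈ T, p (i1.succAbove j)).1 + ∑ j ∈ T, (p (i1.succAbove j)).1 = 0
          rw [Prod.fst_sum, add_self2]
        · rfl
      rcases F2_cases ((∑ j ∈ T, p (i1.succAbove j)).2 + ε) with h2 | h2
      · have h3 : ∑ j ∈ T, p (i1.succAbove j) ∈ L := by
          apply mem_of_add_mem2 _ hε
          rw [h1, h2]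
          exact L.zero_mem
        rw [hsum] at h3
        have h4 := hcl.ind _ (by rw [hTc]; exact hT) h3
        exact Finset.map_eq_empty.1 h4
      · exfalso
        have h3 : ∑ j ∈ T, p (i1.succAbove j) + ((0 : V), (1 : F2)) ∈ L := by
          rw [h2] at h1
          have h5 : ∑ j ∈ T, p (i1.succAbove j) + ((0 : V), (1 : F2)) =
              (∑ j ∈ T, (p (i1.succAbove j)).1, ε) := by
            rw [← h1, ← add_assoc, add_self2, zero_add]
          rw [h5]
          exact hε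
        have h4 : ∑ i ∈ symmDiff (T.map i1.succAboveEmb) Q, p i ∈ L := by
          rw [rti_sum, ← hsum]
          have h5 := L.add_mem h3 hQ
          have h6 : ∑ j ∈ T, p (i1.succAbove j) + ((0 : V), (1 : F2)) +
              (((0 : V), (1 : F2)) + ∑ i ∈ Q, p i) = (((0 : V), (1 : F2)) + ((0 : V), (1 : F2))) +
              (∑ j ∈ T, p (i1.succAbove j) + ∑ i ∈ Q, p i) := by abel
          rw [h6, add_self2, zero_add] at h5
          exact h5
        have h5 := rti_card (T.map i1.succAboveEmb) Q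
        have h6 := hcl.ind _ (by
          obtain ⟨s, hs⟩ := hT
          rw [Nat.even_iff]
          omega) h4
        have h7 : T.map i1.succAboveEmb = Q := symmDiff_eq_bot.1 h6
        exact hne (h7 ▸ hi1)
    · intro i j hij
      obtain ⟨y, hy, hy2⟩ := hcl.mem (i1.succAbove i) (i1.succAbove j)
        (fun h => hij (Fin.succAbove_right_injective h))
      exact ⟨y.1, hE y (hB hy), hfst _ hy2⟩
    · rintro rfl
      exact x12 (ha.symm.trans hb)
    · rintro rfl
      exact x13 (ha.symm.trans hd)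
    · rintro rfl
      exact hj0 ((ha.symm.trans he) ▸ m1.2)
    · rintro rfl
      exact x23 (hb.symm.trans hd)
    · rintro rfl
      exact hj0 ((hb.symm.trans he) ▸ m2.2)
    · rintro rfl
      exact hj0 ((hd.symm.trans he) ▸ m3.2)
    · obtain ⟨y, hy, hy2⟩ := hcl.mem i1 j0 m0.symm
      refine ⟨y.1, hE y (hB hy), ?_⟩
      have h1 := L.add_mem hy2 hQ
      have h2 : ∑ i ∈ Q, p i = p i1 + (p x1 + p x2 + p x3) := by
        rw [← Finset.add_sum_erase Q p hi1, hQx, Finset.sum_insert, Finset.sum_pair x23, add_assoc]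
        simp [x12, x13]
      rw [h2] at h1
      have h3 : y + (p i1 + p j0) + (((0 : V), (1 : F2)) + (p i1 + (p x1 + p x2 + p x3))) =
          (p i1 + p i1) + (y + (p x1 + p x2 + p x3 + p j0) + ((0 : V), (1 : F2))) := by abel
      rw [h3, add_self2, zero_add] at h1
      have h4 := hfst _ h1
      have h5 : (y + (p x1 + p x2 + p x3 + p j0) + ((0 : V), (1 : F2))).1 =
          y.1 + ((p (i1.succAbove a)).1 + (p (i1.succAbove b)).1 + (p (i1.succAbove d)).1 +
            (p (i1.succAbove e)).1) := by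
        rw [ha, hb, hd, he]
        show y.1 + ((p x1).1 + (p x2).1 + (p x3).1 + (p j0).1) + 0 = _
        rw [add_zero]
      rw [h5] at h4
      exact h4

end Pool.Agent.HC
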