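import Pool.Agent.HC.AuxD
import Pool.Agent.HC.Pth

/-!
# HC-TBm: a perfect matching gives two disjoint odd paths

Let `μ` be the partner map of the matching `M` on `LV A ⊕ Fin (A.card - 4)`. The vertices `inr j` are
matched to terminals, `A.card - 4` different ones; so exactly four terminals (set `A4`) are matched
inside `LV A`. (`A.card ≥ 4`.)
Define a simple graph `R` on `U`: `u ~ v` iff `u ≠ v` and some level of `u` is matched to some level of
`v`. Let `μ (u, i) = (v, j)`, `u ≠ v`: then `G.adj (1 + i + j) u v`. For a terminal `a`: the `R`-degree is 1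
if `a ∈ A4`, else 0. For `v ∉ A`: if `(v,0)` is matched to `(v,1)` the degree is 0. Otherwise
`μ (v,0) = (w,i)`, `μ (v,1) = (w',i')`, `w, w' ≠ v`. If `w = w'` (then `w ∉ A`, `i' = 1 + i`, and
`v, w` are degenerate: all levels of `v` are matched to levels of `w`): degree 1 and `{v, w}` is a
component of `R`. Otherwise the degree is exactly 2.
Let `a ∈ A4`. Take a longest list `a = v_0, v_1, .., v_r` of distinct vertices with consecutive ones
`R`-adjacent (lists without repetition in a finite type have bounded length). `r ≥ 1`. No `v_i` is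
degenerate (a component `{v, w}` of degenerate vertices does not contain `a`). Every neighbour of `v_r`
is on the list (maximality). If `v_r ∉ A4` it has two neighbours, one of them is `v_j` with
`j < r - 1`; but the neighbours of `v_j` are `v_(j-1)` and `v_(j+1)` (for `j = 0`: only `v_1`),
contradiction. So `b := v_r ∈ A4`, `b ≠ a`, and inner vertices have degree 2, so they are not in `A`,
and the list is closed: every neighbour of a list vertex is on the list.
PARITY: by induction the initial part `v_0, .., v_i` is a path of `G` of parity `1 + h_i` where `h_i` is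
the level at which `v_i` is matched to `v_(i-1)`: the step `v_(i-1) v_i` uses the other level
`1 + h_(i-1)` of `v_(i-1)` (the two levels of an inner vertex are matched to different vertices;
at `v_0 = a` the level is 0), so its parity is `1 + (1 + h_(i-1)) + h_i`. At `b` the level is 0, so the
parity of the whole path is 1.
Second path: `c ∈ A4 \ {a, b}`; the same construction from `c` gives a closed list from `c` to
`d ∈ A4`. It is disjoint from the first one (closedness: a common vertex would put `c` on the first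
list; but the only elements of `A` on it are `a` and `b`). Write the lists as
`a :: (k ++ [b])` and `c :: (l ++ [d])`.
(One may prove first a lemma for one path, with the conclusion: the support is closed under `R`,
contains exactly two elements of `A`, both in `A4`, and the list is a `G.Path` of parity 1.)
-/

namespace Pool.Agent.HC

open Finset

variable {U : Type} [Fintype U] [DecidableEq U]

private theorem tbConj {X : Type} (σ μ : Equiv.Perm X) (hσ : ∀ x, σ (σ x) = x)
    (hμ : ∀ x, μ (μ x) = x) {x0 : X} (h0 : σ x0 = x0) (i : ℤ) :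
    σ (((σ * μ) ^ i) x0) = ((σ * μ) ^ (-i)) x0 := by
  have e1 : σ⁻¹ = σ := by
    rw [inv_eq_iff_mul_eq_one]
    ext x
    exact hσ x
  have e2 : μ⁻¹ = μ := by
    rw [inv_eq_iff_mul_eq_one]
    ext x
    exact hμ x
  have e3 : σ * (σ * μ) * σ⁻¹ = (σ * μ)⁻¹ := by
    rw [mul_inv_rev, e1, e2]
    ext x
    simp [hσ]
  have e4 : σ * (σ * μ) ^ i * σ⁻¹ = (σ * μ) ^ (-i) := by
    rw [← conj_zpow, e3, inv_zpow, zpow_neg]
  rw [← e4, Equiv.Perm.mul_apply, Equiv.Perm.mul_apply, e1, h0]

private theorem tbOrb {X : Type} [Finite X] (σ μ : Equiv.Perm X) (hσ : ∀ x, σ (σ x) = x)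
    (hμ : ∀ x, μ (μ x) = x) (hμ0 : ∀ x, μ x ≠ x) (x0 : X) (h0 : σ x0 = x0) :
    ∃ r : ℕ, 0 < r ∧
      ∀ i j : ℤ, ((σ * μ) ^ i) x0 = ((σ * μ) ^ j) x0 ↔ (2 * r : ℤ) ∣ i - j := by
  set τ := σ * μ with hτ
  obtain ⟨P, hP⟩ : ∃ P : ℕ, P = Function.minimalPeriod (fun x : X => τ • x) x0 := ⟨_, rfl⟩
  have hd : ∀ n : ℤ, (τ ^ n) x0 = x0 ↔ (P : ℤ) ∣ n := by
    intro n
    rw [hP]
    exact MulAction.zpow_smul_eq_iff_minimalPeriod_dvd (a := τ) (b := x0)
  have hij : ∀ i j : ℤ, (τ ^ i) x0 = (τ ^ j) x0 ↔ (P : ℤ) ∣ i - j := by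
    intro i j
    rw [← hd, show i - j = -j + i by ring, zpow_add, Equiv.Perm.mul_apply, zpow_neg]
    constructor
    · intro h
      rw [h]
      simp
    · intro h
      have h2 := congrArg (τ ^ j) h
      simpa using h2
  have hPpos : 0 < P := by
    rcases Nat.eq_zero_or_pos P with h | h
    · exfalso
      have h1 := (hd (orderOf τ : ℤ)).1 (by
        rw [zpow_natCast, pow_orderOf_eq_one]
        rfl)
      rw [h] at h1
      have h2 : orderOf τ = 0 := by
        have := zero_dvd_iff.1 (by simpa using h1 : (0 : ℤ) ∣ (orderOf τ : ℤ))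
        exact_mod_cast this
      exact (orderOf_pos τ).ne' h2
    · exact h
  have heven : Even P := by
    by_contra hodd
    rw [Nat.not_even_iff_odd] at hodd
    obtain ⟨m, hm⟩ := hodd
    have h1 : (τ ^ (m : ℤ)) x0 = (τ ^ (-(m + 1) : ℤ)) x0 := by
      rw [hij]
      refine ⟨1, ?_⟩
      rw [hm]
      push_cast
      ring
    have h2 : σ (μ ((τ ^ (m : ℤ)) x0)) = (τ ^ ((m : ℤ) + 1)) x0 := by
      rw [add_comm, zpow_add, Equiv.Perm.mul_apply, zpow_one, hτ, Equiv.Perm.mul_apply]
    have h3 : μ ((τ ^ (m : ℤ)) x0) = σ ((τ ^ ((m : ℤ) + 1)) x0) := by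
      rw [← h2, hσ]
    rw [tbConj σ μ hσ hμ h0, ← h1] at h3
    exact hμ0 _ h3
  obtain ⟨r, hr⟩ := heven
  refine ⟨r, by omega, ?_⟩
  intro i j
  rw [hij, hr]
  push_cast
  rw [two_mul]

/-- switch the level of a vertex which is not a terminal -/
private def tbSig {A : Finset U} (x : LV A) : LV A :=
  ⟨(x.1.1, if x.1.1 ∈ A then x.1.2 else 1 + x.1.2), fun h => by
    simp only [h, if_true]
    exact x.2 h⟩

omit [Fintype U] in
private theorem tbSig_vtx {A : Finset U} (x : LV A) : (tbSig x).1.1 = x.1.1 := rfl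

omit [Fintype U] in
private theorem tbSig_of_mem {A : Finset U} {x : LV A} (h : x.1.1 ∈ A) : tbSig x = x := by
  apply Subtype.ext
  apply Prod.ext
  · rfl
  · simp [tbSig, h]

omit [Fintype U] in
private theorem tbSig_lev {A : Finset U} {x : LV A} (h : x.1.1 ∉ A) :
    (tbSig x).1.2 = 1 + x.1.2 := by
  simp [tbSig, h]

private theorem tb2 (a : F2) : 1 + (1 + a) = a := by
  revert a
  decide

private theorem tbSig_sig {A : Finset U} (x : LV A) : tbSig (tbSig x) = x := by
  by_cases h : x.1.1 ∈ A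
  · rw [tbSig_of_mem h, tbSig_of_mem h]
  · apply Subtype.ext
    apply Prod.ext
    · rfl
    · rw [tbSig_lev (by rw [tbSig_vtx]; exact h), tbSig_lev h, tb2]

private theorem tbSig_fix {A : Finset U} {x : LV A} (h : tbSig x = x) : x.1.1 ∈ A := by
  by_contra hn
  have h1 := tbSig_lev hn
  rw [h] at h1
  revert h1
  generalize x.1.2 = a
  revert a
  decide

/-- two levels of the same vertex -/
private theorem tbSame {A : Finset U} {x y : LV A} (h : x.1.1 = y.1.1) : x = y ∨ x = tbSig y := by
  by_cases hA : y.1.1 ∈ A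
  · left
    apply Subtype.ext
    apply Prod.ext h
    rw [x.2 (by rw [h]; exact hA), y.2 hA]
  · have key : ∀ a b : F2, a = b ∨ a = 1 + b := by decide
    rcases key x.1.2 y.1.2 with h1 | h1
    · left
      exact Subtype.ext (Prod.ext h h1)
    · right
      apply Subtype.ext
      apply Prod.ext
      · exact h
      · rw [tbSig_lev hA, h1]

/-- the level of a terminal -/
private def tbT (A : Finset U) (a : U) : LV A := ⟨(a, 0), fun _ => rfl⟩

/-- the switch on all vertices of the auxiliary graph -/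
private def tbS (A : Finset U) : Equiv.Perm (LV A ⊕ Fin (A.card - 4)) where
  toFun := Sum.map tbSig id
  invFun := Sum.map tbSig id
  left_inv := by
    rintro (x | x)
    · simp [tbSig_sig]
    · rfl
  right_inv := by
    rintro (x | x)
    · simp [tbSig_sig]
    · rfl

private theorem tbS_inl {A : Finset U} (x : LV A) : tbS A (Sum.inl x) = Sum.inl (tbSig x) := rfl

private theorem tbS_inr {A : Finset U} (j : Fin (A.card - 4)) : tbS A (Sum.inr j) = Sum.inr j := rfl

private theorem tbS_S {A : Finset U} (x : LV A ⊕ Fin (A.card - 4)) : tbS A (tbS A x) = x :=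
  (tbS A).left_inv x

/-- the path from a terminal which is matched inside the levels -/
private theorem tbPath (G : SG U) (A : Finset U) (μ : Equiv.Perm (LV A ⊕ Fin (A.card - 4)))
    (hμ : ∀ x, μ (μ x) = x) (hadj : ∀ x, (auG G A).Adj x (μ x)) (a : U) (ha : a ∈ A)
    (hin : ∃ y, μ (Sum.inl (tbT A a)) = Sum.inl y) :
    ∃ (b : U) (k : List U), b ∈ A ∧ G.Path (a :: (k ++ [b])) 1 ∧ (∀ u ∈ k, u ∉ A) ∧
      (∀ u ∈ a :: (k ++ [b]), ∃ (i : ℤ) (y : LV A),
        ((tbS A * μ) ^ i) (Sum.inl (tbT A a)) = Sum.inl y ∧ y.1.1 = u) ∧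
      (∀ c (hc : c ∈ A) (i : ℤ), ((tbS A * μ) ^ i) (Sum.inl (tbT A a)) =
        Sum.inl (tbT A c) → c = a ∨ c = b) := by
  have hfin : Finite (LV A) := inferInstanceAs (Finite {x : U × F2 // x.1 ∈ A → x.2 = 0})
  have hμ0 : ∀ x, μ x ≠ x := fun x h => by
    have h1 := hadj x
    rw [h] at h1
    exact (auG G A).irrefl h1
  set σ := tbS A with hσdef
  have hσ : ∀ x, σ (σ x) = x := fun x => tbS_S x
  obtain ⟨x0, hx0⟩ : ∃ x0 : LV A, x0 = tbT A a := ⟨_, rfl⟩
  rw [← hx0] at hin ⊢
  have hx0v : x0.1.1 = a := by rw [hx0]; rfl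
  have hx0l : x0.1.2 = 0 := by rw [hx0]; rfl
  have h0 : σ (Sum.inl x0) = Sum.inl x0 := by
    rw [hσdef, tbS_inl, tbSig_of_mem (by rw [hx0v]; exact ha)]
  obtain ⟨r, hr, hij⟩ := tbOrb σ μ hσ hμ hμ0 (Sum.inl x0) h0
  set τ := σ * μ with hτ
  have hconj : ∀ i : ℤ, σ ((τ ^ i) (Sum.inl x0)) = (τ ^ (-i)) (Sum.inl x0) :=
    tbConj σ μ hσ hμ h0
  have hfix : ∀ i : ℤ, σ ((τ ^ i) (Sum.inl x0)) = (τ ^ i) (Sum.inl x0) ↔ (r : ℤ) ∣ i := by
    intro i
    rw [hconj, hij]
    constructor
    · rintro ⟨t, ht⟩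
      exact ⟨-t, by linarith⟩
    · rintro ⟨t, ht⟩
      exact ⟨-t, by rw [ht]; ring⟩
  have hstep : ∀ i : ℤ, μ ((τ ^ i) (Sum.inl x0)) = σ ((τ ^ (i + 1)) (Sum.inl x0)) := by
    intro i
    rw [add_comm, zpow_add, Equiv.Perm.mul_apply, zpow_one, hτ, Equiv.Perm.mul_apply, ← hτ, hσ]
  -- the states are levels of vertices
  have hinl : ∀ i : ℕ, ∃ y : LV A, i ≤ r → (τ ^ (i : ℤ)) (Sum.inl x0) = Sum.inl y := by
    intro i
    rcases hz : (τ ^ (i : ℤ)) (Sum.inl x0) with y | j
    · exact ⟨y, fun _ => rfl⟩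
    · refine ⟨x0, fun hi => ?_⟩
      exfalso
      have h1 : (r : ℤ) ∣ (i : ℤ) := by
        rw [← hfix, hz, hσdef, tbS_inr]
      have h2 : r ∣ i := by exact_mod_cast h1
      rcases Nat.eq_zero_or_pos i with h3 | h3
      · rw [h3] at hz
        simp at hz
      · have h4 : i = r := le_antisymm hi (Nat.le_of_dvd h3 h2)
        -- the predecessor is a terminal
        have h5 := hstep ((i : ℤ) - 1)
        rw [sub_add_cancel, hz, hσdef, tbS_inr] at h5
        have h6 := hadj ((τ ^ ((i : ℤ) - 1)) (Sum.inl x0))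
        rw [h5] at h6
        rcases hw : (τ ^ ((i : ℤ) - 1)) (Sum.inl x0) with w | w
        · rw [hw] at h6
          have h7 : w.1.1 ∈ A := h6
          have h8 : (r : ℤ) ∣ (i : ℤ) - 1 := by
            rw [← hfix, hw, hσdef, tbS_inl, tbSig_of_mem h7]
          rw [h4] at h8
          have h9 : (r : ℤ) ∣ 1 := by
            have := dvd_sub (dvd_refl (r : ℤ)) h8
            simpa using this
          have h10 : r = 1 := by
            have : r ∣ 1 := by exact_mod_cast h9
            exact Nat.dvd_one.1 this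
          rw [h4, h10] at h5
          obtain ⟨y, hy⟩ := hin
          simp only [Nat.cast_one, sub_self, zpow_zero, Equiv.Perm.coe_one, id_eq] at h5
          rw [h5] at hy
          exact absurd hy (by simp)
        · rw [hw] at h6
          exact h6
  choose y hy using hinl
  have hy0 : y 0 = x0 := by
    have := hy 0 (Nat.zero_le _)
    simp only [Nat.cast_zero, zpow_zero, Equiv.Perm.coe_one, id_eq] at this
    exact (Sum.inl_injective this).symm
  have hmem : ∀ i, i ≤ r → ((y i).1.1 ∈ A ↔ i = 0 ∨ i = r) := by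
    intro i hi
    have h1 : (y i).1.1 ∈ A ↔ (r : ℤ) ∣ (i : ℤ) := by
      rw [← hfix, hy i hi, hσdef, tbS_inl]
      constructor
      · intro h
        rw [tbSig_of_mem h]
      · intro h
        exact tbSig_fix (Sum.inl_injective h)
    rw [h1]
    constructor
    · intro h
      have h2 : r ∣ i := by exact_mod_cast h
      rcases Nat.eq_zero_or_pos i with h3 | h3
      · exact Or.inl h3
      · exact Or.inr (le_antisymm hi (Nat.le_of_dvd h3 h2))
    · rintro (h | h)
      · rw [h]; simp
      · rw [h]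
  have hdist : ∀ i j, i < j → j ≤ r → (y i).1.1 ≠ (y j).1.1 := by
    intro i j hij1 hj h
    rcases tbSame h with h1 | h1
    · have h2 : (τ ^ (i : ℤ)) (Sum.inl x0) = (τ ^ (j : ℤ)) (Sum.inl x0) := by
        rw [hy i (by omega), hy j hj, h1]
      rw [hij] at h2
      have h3 : (2 * r : ℤ) ∣ (j : ℤ) - i := by
        have := (dvd_neg (a := (2 * r : ℤ))).2 h2
        simpa using this
      have h4 := Int.le_of_dvd (by omega) h3
      omega
    · have h2 : (τ ^ (i : ℤ)) (Sum.inl x0) = σ ((τ ^ (j : ℤ)) (Sum.inl x0)) := by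
        rw [hy i (by omega), hy j hj, hσdef, tbS_inl, h1]
      rw [hconj, hij] at h2
      have h3 : (2 * r : ℤ) ∣ (i : ℤ) + j := by simpa using h2
      have h4 := Int.le_of_dvd (by omega) h3
      omega
  have hedge : ∀ i, i < r → G.adj (1 + (y i).1.2 + (tbSig (y (i + 1))).1.2) (y i).1.1
      (y (i + 1)).1.1 := by
    intro i hi
    have h1 := hadj ((τ ^ (i : ℤ)) (Sum.inl x0))
    rw [hstep] at h1
    have h2 := hy (i + 1) (by omega)
    push_cast at h2
    rw [h2, hy i hi.le, hσdef, tbS_inl] at h1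
    have h3 : (lvG G A).Adj (y i) (tbSig (y (i + 1))) := h1
    rcases h3 with h3 | h3
    · exact absurd h3.1 (hdist i (i + 1) (by omega) (by omega))
    · exact h3
  have hbA : (y r).1.1 ∈ A := (hmem r le_rfl).2 (Or.inr rfl)
  have hbl : (tbSig (y r)).1.2 = 0 := by
    rw [tbSig_of_mem hbA]
    exact (y r).2 hbA
  -- the path
  have hpath : ∀ n i, i + n + 1 = r → ∃ k : List U,
      G.Path ((y i).1.1 :: (k ++ [(y r).1.1])) (1 + (y i).1.2) ∧
      ∀ u ∈ k, ∃ j, i < j ∧ j < r ∧ u = (y j).1.1 := by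
    intro n
    induction n with
    | zero =>
      intro i hi
      refine ⟨[], ?_, by simp⟩
      have h1 := hedge i (by omega)
      have h2 : i + 1 = r := by omega
      rw [h2, hbl, add_zero] at h1
      have h3 := SG.Path.cons (G := G) _ 0 _ _ [] h1 (by
        rw [List.mem_singleton]
        exact hdist i r (by omega) le_rfl) (SG.Path.single _)
      rw [add_zero] at h3
      exact h3
    | succ n ih =>
      intro i hi
      obtain ⟨k, hk1, hk2⟩ := ih (i + 1) (by omega)
      refine ⟨(y (i + 1)).1.1 :: k, ?_, ?_⟩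
      · have h1 := hedge i (by omega)
        have hn : (y (i + 1)).1.1 ∉ A := by
          rw [hmem (i + 1) (by omega)]
          omega
        rw [tbSig_lev hn] at h1
        have h3 := SG.Path.cons (G := G) _ _ _ _ (k ++ [(y r).1.1]) h1 (by
          intro hmem2
          rw [List.mem_cons, List.mem_append, List.mem_singleton] at hmem2
          rcases hmem2 with h | h | h
          · exact hdist i (i + 1) (by omega) (by omega) h
          · obtain ⟨j, hj1, hj2, hj3⟩ := hk2 _ h
            exact hdist i j (by omega) (by omega) hj3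
          · exact hdist i r (by omega) le_rfl h) hk1
        have h4 : ∀ g h : F2, 1 + g + (1 + h) + (1 + h) = 1 + g := by decide
        rw [h4] at h3
        exact h3
      · intro u hu
        rw [List.mem_cons] at hu
        rcases hu with hu | hu
        · exact ⟨i + 1, by omega, by omega, hu⟩
        · obtain ⟨j, hj1, hj2, hj3⟩ := hk2 u hu
          exact ⟨j, by omega, hj2, hj3⟩
  obtain ⟨k, hk1, hk2⟩ := hpath (r - 1) 0 (by omega)
  rw [hy0, hx0v, hx0l, add_zero] at hk1
  refine ⟨(y r).1.1, k, hbA, hk1, ?_, ?_, ?_⟩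
  · intro u hu
    obtain ⟨j, hj1, hj2, hj3⟩ := hk2 u hu
    rw [hj3, hmem j (by omega)]
    omega
  · intro u hu
    have h1 : ∃ j, j ≤ r ∧ u = (y j).1.1 := by
      rw [List.mem_cons, List.mem_append, List.mem_singleton] at hu
      rcases hu with h | h | h
      · exact ⟨0, by omega, by rw [hy0, hx0v, h]⟩
      · obtain ⟨j, hj1, hj2, hj3⟩ := hk2 u h
        exact ⟨j, hj2.le, hj3⟩
      · exact ⟨r, le_rfl, h⟩
    obtain ⟨j, hj, rfl⟩ := h1
    exact ⟨(j : ℤ), y j, hy j hj, rfl⟩
  · intro c hc i hi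
    have h1 : (r : ℤ) ∣ i := by
      rw [← hfix, hi, hσdef, tbS_inl, tbSig_of_mem (x := tbT A c) hc]
    obtain ⟨t, ht⟩ := h1
    rcases Int.even_or_odd t with ⟨s, hs⟩ | ⟨s, hs⟩
    · left
      have h2 : (τ ^ i) (Sum.inl x0) = (τ ^ (0 : ℤ)) (Sum.inl x0) := by
        rw [hij]
        exact ⟨s, by rw [ht, hs]; ring⟩
      rw [hi, zpow_zero] at h2
      have h3 := Sum.inl_injective h2
      rw [← hx0v, ← h3]
      rfl
    · right
      have h2 : (τ ^ i) (Sum.inl x0) = (τ ^ (r : ℤ)) (Sum.inl x0) := by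
        rw [hij]
        exact ⟨s, by rw [ht, hs]; ring⟩
      rw [hi, hy r le_rfl] at h2
      have h3 := Sum.inl_injective h2
      rw [← h3]
      rfl

theorem twoP_of_matching (G : SG U) (A : Finset U) (hA : 4 ≤ A.card)
    (M : (auG G A).Subgraph) (hM : M.IsPerfectMatching) :
    ∃ a b c d k l, TwoP G A a b c d k l := by
  classical
  -- the partner map
  have hex : ∀ x, ∃ y, M.Adj x y := fun x => (hM.1 (hM.2 x)).exists
  choose m hm using hex
  have hm2 : ∀ x, m (m x) = x := fun x => hM.1.eq_of_adj_left (hm (m x)) (hm x).symm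
  set μ : Equiv.Perm (LV A ⊕ Fin (A.card - 4)) := ⟨m, m, hm2, hm2⟩ with hμdef
  have hμm : ∀ x, μ x = m x := fun x => rfl
  have hμ : ∀ x, μ (μ x) = x := hm2
  have hadj : ∀ x, (auG G A).Adj x (μ x) := fun x => M.adj_sub (hm x)
  -- the terminals matched inside the levels
  set B : Finset U := A.filter (fun a => ∃ y, μ (Sum.inl (tbT A a)) = Sum.inl y) with hB
  have hBcard : 4 ≤ B.card := by
    have h1 : (A.filter (fun a => ¬ ∃ y, μ (Sum.inl (tbT A a)) = Sum.inl y)).card ≤
        A.card - 4 := by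
      have h2 : ∀ a ∈ A.filter (fun a => ¬ ∃ y, μ (Sum.inl (tbT A a)) = Sum.inl y),
          ∃ j : Fin (A.card - 4), μ (Sum.inl (tbT A a)) = Sum.inr j := by
        intro a ha
        rcases hz : μ (Sum.inl (tbT A a)) with y | j
        · exact absurd ⟨y, hz⟩ (mem_filter.1 ha).2
        · exact ⟨j, rfl⟩
      have h3 := card_le_card_of_injOn (s := A.filter
        (fun a => ¬ ∃ y, μ (Sum.inl (tbT A a)) = Sum.inl y)) (t := range (A.card - 4))
        (fun a => Sum.elim (fun _ => 0) (fun j : Fin (A.card - 4) => (j : ℕ))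
          (μ (Sum.inl (tbT A a)))) (by
            intro a ha
            obtain ⟨j, hj⟩ := h2 a ha
            simp only [hj, Sum.elim_inr, coe_range, Set.mem_Iio]
            exact j.2) (by
          intro a ha a' ha' haa
          obtain ⟨j, hj⟩ := h2 a ha
          obtain ⟨j', hj'⟩ := h2 a' ha'
          simp only [hj, hj', Sum.elim_inr] at haa
          have h4 : j = j' := Fin.ext haa
          rw [h4, ← hj'] at hj
          have h5 := μ.injective hj
          have h6 := Sum.inl_injective h5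
          exact congrArg (fun z : LV A => z.1.1) h6)
      rwa [card_range] at h3
    have h2 := card_filter_add_card_filter_not (s := A)
      (fun a => ∃ y, μ (Sum.inl (tbT A a)) = Sum.inl y)
    rw [hB]
    omega
  obtain ⟨a, haB⟩ : B.Nonempty := card_pos.1 (by omega)
  rw [hB, mem_filter] at haB
  obtain ⟨b, k, hbA, hk1, hk2, hk3, hk4⟩ := tbPath G A μ hμ hadj a haB.1 haB.2
  obtain ⟨c, hcB, hca⟩ : ∃ c ∈ B, c ∉ ({a, b} : Finset U) := by
    by_contra hcon
    push Not at hcon
    have h1 := card_le_card (show B ⊆ {a, b} from hcon)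
    have h2 : ({a, b} : Finset U).card ≤ 2 := card_le_two
    omega
  rw [hB, mem_filter] at hcB
  obtain ⟨d, l, hdA, hl1, hl2, hl3, hl4⟩ := tbPath G A μ hμ hadj c hcB.1 hcB.2
  refine ⟨a, b, c, d, k, l, hk1, hl1, haB.1, hbA, hcB.1, hdA, hk2, hl2, ?_⟩
  intro u hu hu'
  obtain ⟨i, y, hy1, hy2⟩ := hk3 u hu
  obtain ⟨j, z, hz1, hz2⟩ := hl3 u hu'
  have hcc : ∀ n : ℤ, ((tbS A * μ) ^ n) (Sum.inl (tbT A a)) =
      Sum.inl (tbT A c) → False := by
    intro n hn
    rcases hk4 c hcB.1 n hn with h | h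
    · exact hca (by rw [h]; simp)
    · exact hca (by rw [h]; simp)
  have h0 : tbS A (Sum.inl (tbT A a)) = Sum.inl (tbT A a) := by
    rw [tbS_inl, tbSig_of_mem (x := tbT A a) haB.1]
  rcases tbSame (hz2.trans hy2.symm) with h | h
  · have h1 : ((tbS A * μ) ^ j) (Sum.inl (tbT A c)) =
        ((tbS A * μ) ^ i) (Sum.inl (tbT A a)) := by
      rw [hz1, hy1, h]
    apply hcc (-j + i)
    rw [zpow_add, Equiv.Perm.mul_apply, ← h1, zpow_neg]
    simp
  · have h1 : ((tbS A * μ) ^ j) (Sum.inl (tbT A c)) =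
        ((tbS A * μ) ^ (-i)) (Sum.inl (tbT A a)) := by
      rw [← tbConj (tbS A) μ tbS_S hμ h0, hz1, hy1, h, tbS_inl]
    apply hcc (-j + -i)
    rw [zpow_add, Equiv.Perm.mul_apply, ← h1, zpow_neg]
    simp

end Pool.Agent.HC
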