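import Pool.Agent.HC.Lv2

/-!
# The level two theorem `Pool.Agent.HC.level_two` (proved in `Pool.Agent.HC.Lv2`)
-/
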