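import Pool.Agent.HC.BasB
import Pool.Agent.HC.Gr3

/-!
# HC-Tr4: gluing back

A representation of `(hat K F, (S \ X) ∪ D)` is a representation of `(K, (S \ X) ∪ guts K S X)`,
which is glued to the representation of `(K, X ∪ guts K S X)`.
-/

namespace Pool.Agent.HC

open Finset Module

variable {V : Type} [AddCommGroup V] [Module F2 V] [DecidableEq V] [FiniteDimensional F2 V]
  {K : Submodule F2 V} {S X F D : Finset V} {j : ℕ}

theorem TD.glue_back (h : TD K S X F D j) (hj : j ≤ 2) (hX : GrL K S X)
    (hg : Graphic (hat K (F : Set V)) (((S \ X) ∪ D : Finset V) : Set V)) :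
    Graphic K (S : Set V) := by
  obtain ⟨U, i1, i2, φ, hφ⟩ := hg
  have hZ : Graphic K (((S \ X : Finset V) : Set V) ∪ (guts K S X : Set V)) := by
    refine ⟨U, i1, i2, φ, ?_, ?_, ?_⟩
    · exact fun v hv => hφ.ker v (le_hat K _ hv)
    · intro x hx
      rcases hx with hx | hx
      · exact hφ.edge x (Finset.mem_coe.2 (Finset.mem_union_left _ (Finset.mem_coe.1 hx)))
      · by_cases hK : x ∈ K
        · exact Or.inl (hφ.ker x (le_hat K _ hK))
        · obtain ⟨d, hd, hdx⟩ := h.WD x hx hK
          have h1 : φ x = φ d := by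
            have h2 : φ (d + x) = 0 := hφ.ker _ hdx
            have h3 : x = (d + x) + d := by
              rw [add_right_comm, add_self2, zero_add]
            rw [h3, map_add, h2, zero_add]
          rw [h1]
          exact hφ.edge d (Finset.mem_coe.2 (Finset.mem_union_right _ hd))
    · intro v hv h0
      have h1 : hat K (((S \ X : Finset V) : Set V) ∪ (guts K S X : Set V)) =
          hat K ((S \ X : Finset V) : Set V) :=
        hat_union_of_subset _ _ _ fun w hw => hw.2
      rw [h1] at hv
      have h2 : v ∈ hat K (F : Set V) := by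
        refine hφ.inj v (hat_mono (le_hat K _) ?_ hv) h0
        exact Finset.coe_subset.2 Finset.subset_union_left
      have h3 : v ∈ hat K (F : Set V) ⊓ hat K ((S \ X : Finset V) : Set V) := ⟨h2, hv⟩
      rwa [h.Fz] at h3
  have h1 : finrank F2 ↥(hat K (X : Set V) ⊓ hat K ((S \ X : Finset V) : Set V)) ≤
      finrank F2 K + 2 := by
    have h2 := h.rank
    unfold guts at h2
    omega
  have h2 := glue (K := K) (X := (X : Set V)) (Z := ((S \ X : Finset V) : Set V)) h1 hX hZ
  rwa [← Finset.coe_union, Finset.union_sdiff_of_subset h.XS] at h2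

end Pool.Agent.HC
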